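import Pool.Agent.P.MP_48bde8_co.Shape

/-! Task FLAT: featureless discs with at most three cuts. -/

namespace Pool.Agent.P.MP_48bde8_co

open Equiv Finset
open scoped Classical

variable {P : Type} [Fintype P]

namespace Amb

variable {A : Amb P} {ψ : Perm P} {R : Rg P}

namespace FlatAux

omit [Fintype P] in
theorem ty_pi (hA : A.OK) {p : P} (hp : p ∈ A.dt) : A.ty (A.π p) = !A.ty p := (hA.2.2 p hp).2.2

omit [Fintype P] in
theorem pi_pi (hA : A.OK) {p : P} (hp : p ∈ A.dt) : A.π (A.π p) = p := (hA.2.2 p hp).2.1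

theorem exists_B (hA : A.OK) (hR : A.Reg ψ R) (hne : R.1.Nonempty) :
    ∃ b ∈ R.1, A.ty b = false := by
  obtain ⟨p, hp⟩ := hne
  cases h : A.ty p with
  | false => exact ⟨p, hp, h⟩
  | true => exact ⟨A.π p, hR.1.1 p hp, by rw [ty_pi hA (hR.2.1 hp), h]; rfl⟩

/-- The face permutation flips types on internal ports. -/
theorem ty_phi (hA : A.OK) (hψ : A.WV ψ) (hR : A.Reg ψ R) {p : P} (hp : p ∈ R.2) :
    A.ty ((A.π * ψ) p) = !A.ty p := by
  rw [Perm.mul_apply, ty_pi hA (hR.2.1 (hR.1.2.2 p hp)), (hψ p).1]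

theorem psi_ne (hf : ¬ A.Feat ψ R) {b : P} (hb : b ∈ R.2) (hty : A.ty b = false) : ψ b ≠ b := by
  intro h
  refine hf ⟨b, Or.inl ⟨hty, ?_⟩⟩
  have : orb ψ b ⊆ {b} := orb_subset_of_closed (mem_singleton_self b) (by
    intro q hq; rw [mem_singleton] at hq; subst hq; rw [h]; exact mem_singleton_self _)
  exact this.trans (by simpa using hb)

theorem mem_orb_apply {f : Perm P} {p q : P} (hq : q ∈ orb f p) : f q ∈ orb f p := by
  rw [mem_orb] at hq ⊢
  exact hq.apply_right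

/-- An internal face has at least three B ports. -/
theorem three_le (hA : A.OK) (hψ : A.WV ψ) (hR : A.Reg ψ R) (hf : ¬ A.Feat ψ R) {p : P}
    (hp : orb (A.π * ψ) p ⊆ R.2) :
    3 ≤ ((orb (A.π * ψ) p).filter fun q => A.ty q = false).card := by
  have h5 : 5 ≤ (orb (A.π * ψ) p).card := by
    by_contra h
    exact hf ⟨p, Or.inr ⟨hp, by omega⟩⟩
  have hs := card_filter_add_card_filter_not (s := orb (A.π * ψ) p) (fun q => A.ty q = false)
  have hle : ((orb (A.π * ψ) p).filter fun q => ¬ A.ty q = false).card ≤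
      ((orb (A.π * ψ) p).filter fun q => A.ty q = false).card := by
    refine card_le_card_of_injOn (A.π * ψ) ?_ ((A.π * ψ).injective.injOn)
    intro q hq
    simp only [coe_filter, Set.mem_ofPred_eq] at hq ⊢
    refine ⟨mem_orb_apply hq.1, ?_⟩
    rw [ty_phi hA hψ hR (hp hq.1)]
    simpa using hq.2
  omega

theorem three_mul_le (hA : A.OK) (hψ : A.WV ψ) (hR : A.Reg ψ R) (hf : ¬ A.Feat ψ R) :
    3 * cin (A.π * ψ) R.2 ≤ (R.2.filter fun q => A.ty q = false).card := by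
  have hdis : ∀ c ∈ (cycs (A.π * ψ)).filter (fun c => c ⊆ R.2),
      ∀ d ∈ (cycs (A.π * ψ)).filter (fun c => c ⊆ R.2), c ≠ d →
        Disjoint (c.filter fun q => A.ty q = false) (d.filter fun q => A.ty q = false) := by
    intro c hc d hd hcd
    simp only [cycs, mem_filter, mem_image, mem_univ, true_and] at hc hd
    obtain ⟨⟨p, rfl⟩, -⟩ := hc
    obtain ⟨⟨q, rfl⟩, -⟩ := hd
    refine Finset.disjoint_left.2 fun x hx hy => hcd ?_
    rw [mem_filter, mem_orb] at hx hy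
    exact orb_eq_iff.2 (hx.1.trans hy.1.symm)
  have h1 := card_biUnion (t := fun c : Finset P => c.filter fun q => A.ty q = false)
    (s := (cycs (A.π * ψ)).filter (fun c => c ⊆ R.2)) (fun c hc d hd hcd => hdis c hc d hd hcd)
  have h2 : ((cycs (A.π * ψ)).filter (fun c => c ⊆ R.2)).biUnion
      (fun c : Finset P => c.filter fun q => A.ty q = false) ⊆
      R.2.filter fun q => A.ty q = false := by
    intro x hx
    simp only [mem_biUnion, mem_filter] at hx ⊢
    obtain ⟨c, hc, hx1, hx2⟩ := hx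
    exact ⟨hc.2 hx1, hx2⟩
  have h3 : ∑ _c ∈ (cycs (A.π * ψ)).filter (fun c => c ⊆ R.2), 3 ≤
      ∑ c ∈ (cycs (A.π * ψ)).filter (fun c => c ⊆ R.2),
        (c.filter fun q => A.ty q = false).card := by
    refine sum_le_sum fun c hc => ?_
    simp only [cycs, mem_filter, mem_image, mem_univ, true_and] at hc
    obtain ⟨⟨p, rfl⟩, hp⟩ := hc
    exact three_le hA hψ hR hf hp
  have h4 := card_le_card h2
  rw [sum_const, smul_eq_mul] at h3
  unfold cin
  omega

/-- The Euler count. -/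
theorem count (hA : A.OK) (hψ : A.WV ψ) (hR : A.Disc ψ R) (hf : ¬ A.Feat ψ R) :
    (R.2.filter fun q => A.ty q = false).card + 2 = bd R + 2 * cin (A.π * ψ) R.2 := by
  obtain ⟨hg, -, he, -⟩ := hR
  have h1 : 2 * cin A.π R.1 = R.1.card := by
    refine two_mul_cin _ hg.1.1 (fun p hp => pi_pi hA (hg.2.1 hp)) fun p hp h => ?_
    have := ty_pi hA (hg.2.1 hp)
    rw [h] at this
    simp at this
  have hU : R.2 = (R.2.filter fun q => A.ty q = false) ∪ (R.2.filter fun q => A.ty q = true) := by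
    ext q
    simp only [mem_union, mem_filter]
    cases A.ty q <;> simp
  have hd : Disjoint (R.2.filter fun q => A.ty q = false) (R.2.filter fun q => A.ty q = true) := by
    refine Finset.disjoint_left.2 fun x hx hy => ?_
    rw [mem_filter] at hx hy
    rw [hx.2] at hy
    simp at hy
  have h2 : cin ψ R.2 = cin ψ (R.2.filter fun q => A.ty q = false) +
      cin ψ (R.2.filter fun q => A.ty q = true) := by
    conv_lhs => rw [hU]
    refine cin_union ψ hd ?_ ?_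
    · intro p hp hq
      rw [mem_filter] at hp hq
      rw [(hψ p).1, hp.2] at hq
      simp at hq
    · intro p hp hq
      rw [mem_filter] at hp hq
      rw [(hψ p).1, hp.2] at hq
      simp at hq
  have h3 : 2 * cin ψ (R.2.filter fun q => A.ty q = true) =
      (R.2.filter fun q => A.ty q = true).card := by
    refine two_mul_cin _ ?_ ?_ ?_
    · intro p hp
      rw [mem_filter] at hp ⊢
      exact ⟨(hg.2.2 p hp.1 hp.2).1, by rw [(hψ p).1, hp.2]⟩
    · intro p hp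
      exact (hψ p).2 (mem_filter.1 hp).2
    · intro p hp
      rw [mem_filter] at hp
      exact (hg.2.2 p hp.1 hp.2).2
  have h4 : cin ψ (R.2.filter fun q => A.ty q = false) = 0 := by
    unfold cin
    rw [card_eq_zero, filter_eq_empty_iff]
    intro c hc hsub
    simp only [cycs, mem_image, mem_univ, true_and] at hc
    obtain ⟨p, rfl⟩ := hc
    exact hf ⟨p, Or.inl ⟨(mem_filter.1 (hsub (self_mem_orb ψ p))).2,
      hsub.trans (filter_subset _ _)⟩⟩
  have h5 : R.2.card = (R.2.filter fun q => A.ty q = false).card +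
      (R.2.filter fun q => A.ty q = true).card := by
    conv_lhs => rw [hU]
    exact card_union_of_disjoint hd
  have h6 := bd_add_card hg.1.2.1
  unfold eps at he
  omega

/-- A subregion that contains all internal B steps and all internal A steps it touches. -/
theorem eq_of_closed (hψ : A.WV ψ) (hR : A.Disc ψ R) {S : Rg P} (hS : A.Reg ψ S) (hle : S ≤ R)
    (hne : S.1.Nonempty) (hB : ∀ q ∈ R.2, A.ty q = false → q ∈ S.2)
    (hA' : ∀ q ∈ R.2, A.ty q = true → q ∈ S.1 → q ∈ S.2) : R = S := by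
  have key : ∀ q ∈ R.2, (q ∈ S.1 ∨ ψ q ∈ S.1) → q ∈ S.2 := by
    intro q hq h
    cases hty : A.ty q with
    | false => exact hB q hq hty
    | true =>
      rcases h with h | h
      · exact hA' q hq hty h
      · have h1 : A.ty (ψ q) = true := by rw [(hψ q).1, hty]
        have h2 := hA' (ψ q) (hR.1.2.2 q hq hty).1 h1 h
        have h3 := (hS.2.2 _ h2 h1).1
        rwa [(hψ q).2 hty] at h3
  have h1 : S.1 = R.1 := by
    by_contra hne'
    obtain ⟨p, hp⟩ := hne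
    obtain ⟨q, hq, hqS, h⟩ := comp_touch hR.1.1 hR.2.1 hS.1 hle hne' hp
    refine hqS (key q hq ?_)
    rcases h with h | h
    · exact Or.inl ((RL.mem hS.1 h).1 hp)
    · exact Or.inr ((RL.mem hS.1 h).1 hp)
  refine Prod.ext h1.symm (Subset.antisymm ?_ hle.2)
  intro q hq
  exact key q hq (Or.inl (h1 ▸ hR.1.1.2.1 hq))

theorem rS_reg (hA : A.OK) (hR : A.Reg ψ R) {b : P} (hb : b ∈ R.2) (hty : A.ty b = false) :
    A.Reg ψ (A.rS ψ b) ∧ A.rS ψ b ≤ R := by
  have hb1 : b ∈ R.1 := hR.1.2.1 hb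
  have hb2 : ψ b ∈ R.1 := hR.1.2.2 b hb
  have hle : (A.rS ψ b).1 ⊆ R.1 := by
    intro p hp
    simp only [rS, mem_dv, mem_insert, mem_singleton] at hp
    rcases hp with (rfl | rfl) | ⟨q, rfl | rfl, rfl⟩
    · exact hb1
    · exact hb2
    · exact hR.1.1 _ hb1
    · exact hR.1.1 _ hb2
  refine ⟨⟨⟨?_, ?_, ?_⟩, hle.trans hR.2.1, ?_⟩, hle, ?_⟩
  · intro p hp
    simp only [rS, mem_dv, mem_insert, mem_singleton] at hp ⊢
    rcases hp with hp | ⟨q, hq, rfl⟩
    · exact Or.inr ⟨p, hp, rfl⟩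
    · left
      rcases hq with rfl | rfl
      · rw [pi_pi hA (hR.2.1 hb1)]; exact Or.inl rfl
      · rw [pi_pi hA (hR.2.1 hb2)]; exact Or.inr rfl
  · intro p hp
    simp only [rS, mem_dv, mem_insert, mem_singleton] at hp ⊢
    exact Or.inl (Or.inl hp)
  · intro p hp
    simp only [rS, mem_dv, mem_insert, mem_singleton] at hp ⊢
    subst hp
    exact Or.inl (Or.inr rfl)
  · intro p hp h
    simp only [rS, mem_singleton] at hp
    subst hp
    rw [hty] at h
    simp at h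
  · intro p hp
    simp only [rS, mem_singleton] at hp
    subst hp
    exact hb

theorem rQ_reg (hA : A.OK) (hψ : A.WV ψ) (hR : A.Reg ψ R) {b : P} (hb : b ∈ R.1)
    (hty : A.ty b = false) (he : A.π b ∈ R.2) : A.Reg ψ (A.rQ ψ b) ∧ A.rQ ψ b ≤ R := by
  have h1 : A.ty (A.π b) = true := by rw [ty_pi hA (hR.2.1 hb), hty]; rfl
  exact ⟨(rQ_spec hA hψ (hR.2.1 hb) hty (hR.2.1 (hR.1.2.2 _ he)) (hR.2.2 _ he h1).2).1.1,
    (edge_facts hA hψ hR hb hty he).2.2.2.2.2.2.1⟩

/-- A ports of a single step. -/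
theorem rS_A (hψ : A.WV ψ) {b q : P} (hty : A.ty b = false) (hq : q ∈ (A.rS ψ b).1)
    (h : A.ty q = true) : q = A.π b ∨ q = A.π (ψ b) := by
  simp only [rS, mem_dv, mem_insert, mem_singleton] at hq
  rcases hq with (rfl | rfl) | ⟨x, rfl | rfl, rfl⟩
  · rw [hty] at h; simp at h
  · rw [(hψ b).1, hty] at h; simp at h
  · exact Or.inl rfl
  · exact Or.inr rfl

/-- A ports of a single edge are internal. -/
theorem rQ_A {b q : P} (hty : A.ty b = false) (hty' : A.ty (A.al ψ b) = false)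
    (hq : q ∈ (A.rQ ψ b).1) (h : A.ty q = true) : q ∈ (A.rQ ψ b).2 := by
  simp only [rQ, mem_dv, mem_insert, mem_singleton] at hq ⊢
  rcases hq with (rfl | rfl) | ⟨x, rfl | rfl, rfl⟩
  · rw [hty] at h; simp at h
  · rw [hty'] at h; simp at h
  · exact Or.inl rfl
  · exact Or.inr rfl

omit [Fintype P] in
theorem phi_phi (b : P) : (A.π * ψ) ((A.π * ψ) b) = A.nx ψ b := rfl

theorem nx_inj {b c : P} (h : A.nx ψ b = A.nx ψ c) : b = c := by
  rw [← phi_phi, ← phi_phi] at h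
  exact (A.π * ψ).injective ((A.π * ψ).injective h)

/-- The structure of the case with an internal face. -/
theorem face_case (hA : A.OK) (hψ : A.WV ψ) (hR : A.Reg ψ R) (hf : ¬ A.Feat ψ R)
    (hF : 1 ≤ cin (A.π * ψ) R.2) (hs : (R.2.filter fun q => A.ty q = false).card = 3)
    {b : P} (hb : b ∈ R.2) (hty : A.ty b = false) :
    A.π (ψ b) ∈ R.2 ∧ A.nx ψ b ∈ R.2 ∧ A.ty (A.nx ψ b) = false ∧ A.nx ψ b ≠ b ∧
      A.nx ψ (A.nx ψ b) ≠ b ∧ A.nx ψ (A.nx ψ (A.nx ψ b)) = b ∧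
      ∀ q ∈ R.2, A.ty q = false → q = b ∨ q = A.nx ψ b ∨ q = A.nx ψ (A.nx ψ b) := by
  obtain ⟨c, hc⟩ := card_pos.1 (show 0 < ((cycs (A.π * ψ)).filter fun c => c ⊆ R.2).card from hF)
  simp only [cycs, mem_filter, mem_image, mem_univ, true_and] at hc
  obtain ⟨⟨p, rfl⟩, hp⟩ := hc
  have h3 := three_le hA hψ hR hf hp
  have hEq : ((orb (A.π * ψ) p).filter fun q => A.ty q = false) =
      R.2.filter fun q => A.ty q = false :=
    eq_of_subset_of_card_le (filter_subset_filter _ hp) (by omega)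
  have hin : ∀ q ∈ R.2, A.ty q = false → q ∈ orb (A.π * ψ) p := by
    intro q hq h
    have : q ∈ R.2.filter fun q => A.ty q = false := mem_filter.2 ⟨hq, h⟩
    rw [← hEq] at this
    exact (mem_filter.1 this).1
  have step : ∀ q ∈ R.2, A.ty q = false →
      A.π (ψ q) ∈ R.2 ∧ A.nx ψ q ∈ R.2 ∧ A.ty (A.nx ψ q) = false := by
    intro q hq h
    have h1 := mem_orb_apply (hin q hq h)
    have h2 := mem_orb_apply h1
    refine ⟨hp h1, hp h2, ?_⟩
    rw [← phi_phi, ty_phi hA hψ hR (hp h1), ty_phi hA hψ hR hq, h]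
    rfl
  obtain ⟨a1, b1, t1⟩ := step b hb hty
  obtain ⟨a2, b2, t2⟩ := step _ b1 t1
  obtain ⟨-, b3, t3⟩ := step _ b2 t2
  have hob : orb (A.π * ψ) b ⊆ R.2 := by
    have : orb (A.π * ψ) p = orb (A.π * ψ) b := orb_eq_iff.2 (mem_orb.1 (hin b hb hty))
    rw [← this]; exact hp
  have n2 : A.nx ψ (A.nx ψ b) ≠ b := by
    intro h
    refine hf ⟨b, Or.inr ⟨hob, ?_⟩⟩
    have : orb (A.π * ψ) b ⊆ {b, (A.π * ψ) b, A.nx ψ b, (A.π * ψ) (A.nx ψ b)} := by
      refine orb_subset_of_closed (mem_insert_self _ _) ?_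
      intro q hq
      simp only [mem_insert, mem_singleton] at hq ⊢
      rcases hq with rfl | rfl | rfl | rfl
      · exact Or.inr (Or.inl rfl)
      · exact Or.inr (Or.inr (Or.inl rfl))
      · exact Or.inr (Or.inr (Or.inr rfl))
      · exact Or.inl h
    exact (card_le_card this).trans card_le_four
  have n1 : A.nx ψ b ≠ b := fun h => n2 (by rw [h, h])
  have n3 : A.nx ψ (A.nx ψ b) ≠ A.nx ψ b := fun h => n1 (nx_inj h)
  have hT : ({b, A.nx ψ b, A.nx ψ (A.nx ψ b)} : Finset P) =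
      R.2.filter fun q => A.ty q = false := by
    refine eq_of_subset_of_card_le ?_ ?_
    · intro q hq
      simp only [mem_insert, mem_singleton] at hq
      rcases hq with rfl | rfl | rfl
      · exact mem_filter.2 ⟨hb, hty⟩
      · exact mem_filter.2 ⟨b1, t1⟩
      · exact mem_filter.2 ⟨b2, t2⟩
    · rw [hs, card_eq_three.2 ⟨_, _, _, n1.symm, n2.symm, n3.symm, rfl⟩]
  have hall : ∀ q ∈ R.2, A.ty q = false → q = b ∨ q = A.nx ψ b ∨ q = A.nx ψ (A.nx ψ b) := by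
    intro q hq h
    have : q ∈ R.2.filter fun q => A.ty q = false := mem_filter.2 ⟨hq, h⟩
    rw [← hT] at this
    simpa using this
  refine ⟨a1, b1, t1, n1, n2, ?_, hall⟩
  rcases hall _ b3 t3 with h | h | h
  · exact h
  · exact absurd (nx_inj h) n2
  · exact absurd (nx_inj h) n3

theorem face_run (hA : A.OK) (hψ : A.WV ψ) (hR : A.Reg ψ R) (hf : ¬ A.Feat ψ R)
    (hF : 1 ≤ cin (A.π * ψ) R.2) (hs : (R.2.filter fun q => A.ty q = false).card = 3)
    {b : P} (hb : b ∈ R.2) (hty : A.ty b = false) : ψ b ∉ R.2 := by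
  intro h
  obtain ⟨a1, b1, t1, -, -, -, hall⟩ := face_case hA hψ hR hf hF hs hb hty
  obtain ⟨a2, -⟩ := face_case hA hψ hR hf hF hs b1 t1
  have ht : A.ty (ψ b) = false := by rw [(hψ b).1, hty]
  have ht' : A.ty (ψ (A.nx ψ b)) = false := by rw [(hψ _).1, t1]
  have e1 := edge_facts hA hψ hR (hR.1.2.2 b hb) ht a1
  have e2 := edge_facts hA hψ hR (hR.1.2.2 _ b1) ht' a2
  rcases hall _ h ht with h1 | h1 | h1
  · exact psi_ne hf hb hty h1
  · exact e1.2.2.2.2.2.1 h1.symm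
  · refine psi_ne hf b1 t1 ?_
    have h2 : A.al ψ (ψ b) = A.al ψ (A.al ψ (ψ (A.nx ψ b))) := congrArg (A.al ψ) h1
    rw [e2.2.2.2.2.1] at h2
    exact h2.symm

theorem tri_case (hA : A.OK) (hψ : A.WV ψ) (hR : A.Disc ψ R) (hf : ¬ A.Feat ψ R)
    (hF : 1 ≤ cin (A.π * ψ) R.2) (hs : (R.2.filter fun q => A.ty q = false).card = 3)
    {b : P} (hb : b ∈ R.2) (hty : A.ty b = false) : A.TriAt ψ b ∧ R = A.rTri ψ b := by
  have hg := hR.1
  obtain ⟨a1, b1, t1, n1, n2, n3, hall⟩ := face_case hA hψ hg hf hF hs hb hty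
  obtain ⟨a2, b2, t2, n4, -⟩ := face_case hA hψ hg hf hF hs b1 t1
  obtain ⟨a3, -⟩ := face_case hA hψ hg hf hF hs b2 t2
  have r0 := face_run hA hψ hg hf hF hs hb hty
  have r1 := face_run hA hψ hg hf hF hs b1 t1
  have r2 := face_run hA hψ hg hf hF hs b2 t2
  have s0 : A.ty (ψ b) = false := by rw [(hψ b).1, hty]
  have s1 : A.ty (ψ (A.nx ψ b)) = false := by rw [(hψ _).1, t1]
  have s2 : A.ty (ψ (A.nx ψ (A.nx ψ b))) = false := by rw [(hψ _).1, t2]
  have a0 : A.π b ∈ R.2 := by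
    have := (edge_facts hA hψ hg (hg.1.2.2 _ b2) s2 a3).2.2.2.1
    rwa [show A.al ψ (ψ (A.nx ψ (A.nx ψ b))) = b from n3] at this
  have ne : ∀ {x y : P}, x ∈ R.2 → y ∉ R.2 → x ≠ y := fun hx hy h => hy (h ▸ hx)
  have hT : A.TriAt ψ b := by
    refine ⟨hty, n3, ?_⟩
    simp only [List.nodup_cons, List.mem_cons, List.not_mem_nil, or_false, not_or,
      List.nodup_nil, and_true, not_false_eq_true, EmbeddingLike.apply_eq_iff_eq]
    exact ⟨⟨ne hb r0, n1.symm, ne hb r1, n2.symm, ne hb r2⟩,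
      ⟨(ne b1 r0).symm, n1.symm, (ne b2 r0).symm, n2.symm⟩,
      ⟨ne b1 r1, n4.symm, ne b1 r2⟩, ⟨(ne b2 r1).symm, n4.symm⟩, ne b2 r2⟩
  refine ⟨hT, ?_⟩
  obtain ⟨S0, l0⟩ := rS_reg hA hg hb hty
  obtain ⟨S1, l1⟩ := rS_reg hA hg b1 t1
  obtain ⟨S2, l2⟩ := rS_reg hA hg b2 t2
  obtain ⟨Q0, m0⟩ := rQ_reg hA hψ hg (hg.1.2.1 hb) hty a0
  obtain ⟨Q1, m1⟩ := rQ_reg hA hψ hg (hg.1.2.2 _ hb) s0 a1
  obtain ⟨Q2, m2⟩ := rQ_reg hA hψ hg (hg.1.2.2 _ b1) s1 a2
  have hdt : ∀ p ∈ [b, ψ b, A.nx ψ b, ψ (A.nx ψ b), A.nx ψ (A.nx ψ b), ψ (A.nx ψ (A.nx ψ b))],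
      p ∈ A.dt := by
    intro p hp
    simp only [List.mem_cons, List.not_mem_nil, or_false] at hp
    apply hg.2.1
    rcases hp with rfl | rfl | rfl | rfl | rfl | rfl
    · exact hg.1.2.1 hb
    · exact hg.1.2.2 _ hb
    · exact hg.1.2.1 b1
    · exact hg.1.2.2 _ b1
    · exact hg.1.2.1 b2
    · exact hg.1.2.2 _ b2
  obtain ⟨e1, e2, -⟩ := rTri_spec hA hψ hT hdt
  refine eq_of_closed hψ hR (((((S0.sup Q1).sup S1).sup Q2).sup S2).sup Q0)
    (sup_le (sup_le (sup_le (sup_le (sup_le l0 m1) l1) m2) l2) m0) ?_ ?_ ?_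
  · exact ⟨b, by rw [show _ = (A.rTri ψ b).1 from rfl, e1, mem_dv]; simp⟩
  · intro q hq h
    rw [show _ = (A.rTri ψ b).2 from rfl, e2]
    rcases hall q hq h with rfl | rfl | rfl <;> simp
  · intro q _ h hq
    rw [show _ = (A.rTri ψ b).1 from rfl, e1, mem_dv] at hq
    rw [show _ = (A.rTri ψ b).2 from rfl, e2]
    simp only [mem_insert, mem_singleton] at hq
    rcases hq with (rfl | rfl | rfl | rfl | rfl | rfl) | ⟨x, rfl | rfl | rfl | rfl | rfl | rfl, rfl⟩
    · rw [hty] at h; simp at h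
    · rw [s0] at h; simp at h
    · rw [t1] at h; simp at h
    · rw [s1] at h; simp at h
    · rw [t2] at h; simp at h
    · rw [s2] at h; simp at h
    all_goals simp

/-- The case of a single internal B step. -/
theorem one_case (hA : A.OK) (hψ : A.WV ψ) (hR : A.Disc ψ R) (hf : ¬ A.Feat ψ R)
    {b : P} (hb : b ∈ R.2) (hty : A.ty b = false) (hall : ∀ q ∈ R.2, A.ty q = false → q = b) :
    (b ≠ ψ b ∧ R = A.rS ψ b) ∨
       ([b, ψ b, A.nx ψ b].Nodup ∧ R = A.rS ψ b ⊔ A.rQ ψ (ψ b)) ∨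
       ([b, ψ b, A.al ψ b].Nodup ∧ R = A.rS ψ b ⊔ A.rQ ψ b) ∨
       ([b, ψ b, A.al ψ b, A.nx ψ b].Nodup ∧ R = A.rS ψ b ⊔ A.rQ ψ b ⊔ A.rQ ψ (ψ b)) := by
  have hg := hR.1
  have n0 : b ≠ ψ b := (psi_ne hf hb hty).symm
  have s0 : A.ty (ψ b) = false := by rw [(hψ b).1, hty]
  have hb1 : b ∈ R.1 := hg.1.2.1 hb
  have hb2 : ψ b ∈ R.1 := hg.1.2.2 _ hb
  obtain ⟨S0, l0⟩ := rS_reg hA hg hb hty
  have bS1 : b ∈ (A.rS ψ b).1 := by simp [rS, mem_dv]
  have bS2 : b ∈ (A.rS ψ b).2 := by simp [rS]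
  have piQ : ∀ x, A.π x ∈ (A.rQ ψ x).2 := fun x => by simp [rQ]
  by_cases a0 : A.π b ∈ R.2 <;> by_cases a1 : A.π (ψ b) ∈ R.2
  · obtain ⟨Q0, m0⟩ := rQ_reg hA hψ hg hb1 hty a0
    obtain ⟨Q1, m1⟩ := rQ_reg hA hψ hg hb2 s0 a1
    have e0 := edge_facts hA hψ hg hb1 hty a0
    have e1 := edge_facts hA hψ hg hb2 s0 a1
    have n1 : A.nx ψ b ≠ b := by
      intro h
      have hsub : orb (A.π * ψ) b ⊆ {b, (A.π * ψ) b} := by
        refine orb_subset_of_closed (mem_insert_self _ _) ?_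
        intro q hq
        simp only [mem_insert, mem_singleton] at hq ⊢
        rcases hq with rfl | rfl
        · exact Or.inr rfl
        · exact Or.inl h
      refine hf ⟨b, Or.inr ⟨hsub.trans ?_, (card_le_card hsub).trans (card_le_two.trans (by omega))⟩⟩
      intro q hq
      simp only [mem_insert, mem_singleton] at hq
      rcases hq with rfl | rfl
      · exact hb
      · exact a1
    have n2 : ψ b ≠ A.al ψ b := by
      intro h
      apply n1
      show A.al ψ (ψ b) = b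
      rw [h, e0.2.2.2.2.1]
    have n3 : A.al ψ b ≠ A.nx ψ b := by
      intro h
      have h2 : A.al ψ (A.al ψ b) = A.al ψ (A.al ψ (ψ b)) := congrArg (A.al ψ) h
      rw [e0.2.2.2.2.1, e1.2.2.2.2.1] at h2
      exact n0 h2
    refine Or.inr (Or.inr (Or.inr ⟨?_, ?_⟩))
    · simp only [List.nodup_cons, List.mem_cons, List.not_mem_nil, or_false, not_or,
        List.nodup_nil, and_true, not_false_eq_true]
      exact ⟨⟨n0, e0.2.2.2.2.2.1.symm, n1.symm⟩, ⟨n2, e1.2.2.2.2.2.1.symm⟩, n3⟩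
    · refine eq_of_closed hψ hR ((S0.sup Q0).sup Q1) (sup_le (sup_le l0 m0) m1)
        ⟨b, mem_union_left _ (mem_union_left _ bS1)⟩ ?_ ?_
      · intro q hq h
        rw [hall q hq h]
        exact mem_union_left _ (mem_union_left _ bS2)
      · intro q _ h hq
        rcases mem_union.1 hq with hq | hq
        · rcases mem_union.1 hq with hq | hq
          · rcases rS_A hψ hty hq h with rfl | rfl
            · exact mem_union_left _ (mem_union_right _ (piQ _))
            · exact mem_union_right _ (piQ _)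
          · exact mem_union_left _ (mem_union_right _ (rQ_A hty e0.2.1 hq h))
        · exact mem_union_right _ (rQ_A s0 e1.2.1 hq h)
  · obtain ⟨Q0, m0⟩ := rQ_reg hA hψ hg hb1 hty a0
    have e0 := edge_facts hA hψ hg hb1 hty a0
    have n2 : ψ b ≠ A.al ψ b := fun h => a1 (h ▸ e0.2.2.2.1)
    refine Or.inr (Or.inr (Or.inl ⟨?_, ?_⟩))
    · simp only [List.nodup_cons, List.mem_cons, List.not_mem_nil, or_false, not_or,
        List.nodup_nil, and_true, not_false_eq_true]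
      exact ⟨⟨n0, e0.2.2.2.2.2.1.symm⟩, n2⟩
    · refine eq_of_closed hψ hR (S0.sup Q0) (sup_le l0 m0) ⟨b, mem_union_left _ bS1⟩ ?_ ?_
      · intro q hq h
        rw [hall q hq h]
        exact mem_union_left _ bS2
      · intro q hq' h hq
        rcases mem_union.1 hq with hq | hq
        · rcases rS_A hψ hty hq h with rfl | rfl
          · exact mem_union_right _ (piQ _)
          · exact absurd hq' a1
        · exact mem_union_right _ (rQ_A hty e0.2.1 hq h)
  · obtain ⟨Q1, m1⟩ := rQ_reg hA hψ hg hb2 s0 a1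
    have e1 := edge_facts hA hψ hg hb2 s0 a1
    have n1 : b ≠ A.nx ψ b := fun h => a0 (by rw [h]; exact e1.2.2.2.1)
    refine Or.inr (Or.inl ⟨?_, ?_⟩)
    · simp only [List.nodup_cons, List.mem_cons, List.not_mem_nil, or_false, not_or,
        List.nodup_nil, and_true, not_false_eq_true]
      exact ⟨⟨n0, n1⟩, e1.2.2.2.2.2.1.symm⟩
    · refine eq_of_closed hψ hR (S0.sup Q1) (sup_le l0 m1) ⟨b, mem_union_left _ bS1⟩ ?_ ?_
      · intro q hq h
        rw [hall q hq h]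
        exact mem_union_left _ bS2
      · intro q hq' h hq
        rcases mem_union.1 hq with hq | hq
        · rcases rS_A hψ hty hq h with rfl | rfl
          · exact absurd hq' a0
          · exact mem_union_right _ (piQ _)
        · exact mem_union_right _ (rQ_A s0 e1.2.1 hq h)
  · refine Or.inl ⟨n0, eq_of_closed hψ hR S0 l0 ⟨b, bS1⟩ ?_ ?_⟩
    · intro q hq h
      rw [hall q hq h]
      exact bS2
    · intro q hq' h hq
      rcases rS_A hψ hty hq h with rfl | rfl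
      · exact absurd hq' a0
      · exact absurd hq' a1

end FlatAux

open FlatAux

theorem flat_two_le (hA : A.OK) (hψ : A.WV ψ) (hR : A.Disc ψ R) (hf : ¬ A.Feat ψ R) :
    2 ≤ bd R := by
  have h1 := count hA hψ hR hf
  have h2 := three_mul_le hA hψ hR.1 hf
  omega

theorem flat_two (hA : A.OK) (hψ : A.WV ψ) (hR : A.Disc ψ R) (hf : ¬ A.Feat ψ R)
    (h2 : bd R = 2) : ∃ b ∈ R.1, A.ty b = false ∧
      (R = A.rT b ∨ (A.π b ∈ R.2 ∧ R = A.rQ ψ b)) := by
  have h1 := count hA hψ hR hf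
  have h3 := three_mul_le hA hψ hR.1 hf
  have h0 : (R.2.filter fun q => A.ty q = false) = ∅ := card_eq_zero.1 (by omega)
  have hno : ∀ q ∈ R.2, A.ty q = true := by
    intro q hq
    have := filter_eq_empty_iff.1 h0 hq
    simpa using this
  have hg := hR.1
  rcases R.2.eq_empty_or_nonempty with he | ⟨a, ha⟩
  · obtain ⟨b, hb, hty⟩ := exists_B hA hg hR.2.1.1
    exact ⟨b, hb, hty, Or.inl (eq_rT hA hR he hb)⟩
  · have ha1 : a ∈ R.1 := hg.1.2.1 ha
    have hb : A.π a ∈ R.1 := hg.1.1 a ha1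
    have hty : A.ty (A.π a) = false := by rw [ty_pi hA (hg.2.1 ha1), hno a ha]; rfl
    have he : A.π (A.π a) ∈ R.2 := by rw [pi_pi hA (hg.2.1 ha1)]; exact ha
    obtain ⟨Q0, m0⟩ := rQ_reg hA hψ hg hb hty he
    refine ⟨A.π a, hb, hty, Or.inr ⟨he, eq_of_closed hψ hR Q0 m0 ⟨A.π a, ?_⟩ ?_ ?_⟩⟩
    · simp [rQ, mem_dv]
    · intro q hq h
      rw [hno q hq] at h
      simp at h
    · intro q _ h hq
      exact rQ_A hty (edge_facts hA hψ hg hb hty he).2.1 hq h

theorem flat_three (hA : A.OK) (hψ : A.WV ψ) (hR : A.Disc ψ R) (hf : ¬ A.Feat ψ R)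
    (h3 : bd R = 3) : ∃ b ∈ R.2, A.ty b = false ∧
      ((b ≠ ψ b ∧ R = A.rS ψ b) ∨
       ([b, ψ b, A.nx ψ b].Nodup ∧ R = A.rS ψ b ⊔ A.rQ ψ (ψ b)) ∨
       ([b, ψ b, A.al ψ b].Nodup ∧ R = A.rS ψ b ⊔ A.rQ ψ b) ∨
       ([b, ψ b, A.al ψ b, A.nx ψ b].Nodup ∧ R = A.rS ψ b ⊔ A.rQ ψ b ⊔ A.rQ ψ (ψ b)) ∨
       (A.TriAt ψ b ∧ R = A.rTri ψ b)) := by
  have h1 := count hA hψ hR hf
  have h2 := three_mul_le hA hψ hR.1 hf
  obtain ⟨b, hb⟩ : (R.2.filter fun q => A.ty q = false).Nonempty := card_pos.1 (by omega)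
  have hb' := mem_filter.1 hb
  refine ⟨b, hb'.1, hb'.2, ?_⟩
  by_cases hF : 1 ≤ cin (A.π * ψ) R.2
  · exact Or.inr (Or.inr (Or.inr (Or.inr (tri_case hA hψ hR hf hF (by omega) hb'.1 hb'.2))))
  · have hall : ∀ q ∈ R.2, A.ty q = false → q = b := fun q hq h =>
      card_le_one.1 (by omega) q (mem_filter.2 ⟨hq, h⟩) b hb
    rcases one_case hA hψ hR hf hb'.1 hb'.2 hall with h | h | h | h
    · exact Or.inl h
    · exact Or.inr (Or.inl h)
    · exact Or.inr (Or.inr (Or.inl h))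
    · exact Or.inr (Or.inr (Or.inr (Or.inl h)))

/-- Runs have length at most two. -/
theorem flat_run (hA : A.OK) (hψ : A.WV ψ) (hR : A.Disc ψ R) (hf : ¬ A.Feat ψ R)
    (h3 : bd R ≤ 3) {b : P} (hb : b ∈ R.2) (hty : A.ty b = false) : ψ b ∉ R.2 := by
  have h1 := count hA hψ hR hf
  have h2 := three_mul_le hA hψ hR.1 hf
  by_cases hF : 1 ≤ cin (A.π * ψ) R.2
  · exact face_run hA hψ hR.1 hf hF (by omega) hb hty
  · intro h
    have h4 : (R.2.filter fun q => A.ty q = false).card ≤ 1 := by omega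
    refine psi_ne hf hb hty (card_le_one.1 h4 _
      (mem_filter.2 ⟨h, ?_⟩) b (mem_filter.2 ⟨hb, hty⟩))
    rw [(hψ b).1, hty]

/-- There is a cut of type B. -/
theorem flat_cut (hA : A.OK) (hψ : A.WV ψ) (hR : A.Reg ψ R) (hne : R.1.Nonempty)
    (hf : ¬ A.Feat ψ R) : ∃ b ∈ R.1 \ R.2, A.ty b = false := by
  by_contra hno
  have hin : ∀ q ∈ R.1, A.ty q = false → q ∈ R.2 := by
    intro q hq h
    by_contra h'
    exact hno ⟨q, mem_sdiff.2 ⟨hq, h'⟩, h⟩
  obtain ⟨b, hb, hty⟩ := exists_B hA hR hne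
  refine hf ⟨b, Or.inl ⟨hty, ?_⟩⟩
  have : orb ψ b ⊆ R.2.filter fun q => A.ty q = false := by
    refine orb_subset_of_closed (mem_filter.2 ⟨hin b hb hty, hty⟩) ?_
    intro q hq
    rw [mem_filter] at hq ⊢
    have h1 : A.ty (ψ q) = false := by rw [(hψ q).1, hq.2]
    exact ⟨hin _ (hR.1.2.2 q hq.1) h1, h1⟩
  exact this.trans (filter_subset _ _)

end Amb

end Pool.Agent.P.MP_48bde8_co
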