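import Pool.Agent.P.MP_48bde8_co.Tight
import Pool.Agent.P.MP_48bde8_co.Flat

/-! Task ATOMS: structure of atoms. -/

namespace Pool.Agent.P.MP_48bde8_co

open Equiv Finset
open scoped Classical

variable {P : Type} [Fintype P]

namespace AtomsAux

theorem walk (g : Perm P) (Q : P → Prop) (G : Prop) (b : P) (h0 : Q (g b))
    (hs : ∀ x, Q x → G ∨ Q (g x)) (hb : ¬ Q b) : G := by
  have h : ∀ k : ℕ, G ∨ Q ((g ^ (k + 1)) b) := by
    intro k
    induction k with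
    | zero => exact Or.inr (by simpa using h0)
    | succ k ih =>
      rcases ih with h | h
      · exact Or.inl h
      · rw [pow_succ', Perm.mul_apply]
        exact hs _ h
  rcases h (orderOf g - 1) with h | h
  · exact h
  · rw [Nat.sub_add_cancel (orderOf_pos g), pow_orderOf_eq_one] at h
    exact absurd h hb

omit [Fintype P] in
theorem ap_inv (g : Perm P) (p : P) : g (g⁻¹ p) = p := g.apply_symm_apply p

omit [Fintype P] in
theorem inv_ap (g : Perm P) (p : P) : g⁻¹ (g p) = p := g.symm_apply_apply p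

theorem apply_mem_orb {g : Perm P} {p q : P} (h : q ∈ orb g p) : g q ∈ orb g p := by
  rw [mem_orb] at h ⊢
  exact h.apply_right

theorem inv_mem_orb {g : Perm P} {p q : P} (h : q ∈ orb g p) : g⁻¹ q ∈ orb g p := by
  rw [mem_orb] at h ⊢
  exact Perm.sameCycle_apply_right.1 (by rwa [ap_inv])

theorem orb_eq_of_mem {g : Perm P} {p q : P} (h : q ∈ orb g p) : orb g q = orb g p :=
  (orb_eq_iff.2 (mem_orb.1 h)).symm

theorem ty_orb {A : Amb P} {ψ : Perm P} (hψ : A.WV ψ) {p q : P} (h : q ∈ orb ψ p) :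
    A.ty q = A.ty p := by
  have : orb ψ p ⊆ univ.filter fun r => A.ty r = A.ty p :=
    orb_subset_of_closed (by simp) fun r hr => by
      simp only [mem_filter, mem_univ, true_and] at hr ⊢
      rw [(hψ r).1, hr]
  simpa using this h

theorem card_le_three {g : Perm P} {b : P} (h : g (g (g b)) ∈ ({b, g b, g (g b)} : Finset P)) :
    (orb g b).card ≤ 3 := by
  refine (card_le_card (orb_subset_of_closed (I := {b, g b, g (g b)}) (by simp) ?_)).trans
    Finset.card_le_three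
  intro q hq
  simp only [mem_insert, mem_singleton] at hq
  rcases hq with rfl | rfl | rfl
  · simp
  · simp
  · exact h

omit [Fintype P] in
theorem dig_dt {A : Amb P} {ψ : Perm P} {R : Rg P} (hR : R.1 ⊆ A.dt) {b : P}
    (h : A.rDig ψ b ≤ R) : ∀ p ∈ [b, ψ b, A.nx ψ b, ψ (A.nx ψ b)], p ∈ A.dt := by
  intro p hp
  refine hR (h.1 ?_)
  simp only [List.mem_cons, List.not_mem_nil, or_false] at hp
  rcases hp with rfl | rfl | rfl | rfl <;> simp [Amb.rDig, Amb.rS, Amb.dv]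

omit [Fintype P] in
theorem rl_pi {A : Amb P} {ψ : Perm P} {R : Rg P} {p : P} (hp : p ∈ R.1) :
    A.RL ψ R p (A.π p) := Relation.EqvGen.rel _ _ (Or.inl ⟨hp, rfl⟩)

omit [Fintype P] in
theorem rl_psi {A : Amb P} {ψ : Perm P} {R : Rg P} {p : P} (hp : p ∈ R.2) :
    A.RL ψ R p (ψ p) := Relation.EqvGen.rel _ _ (Or.inr ⟨hp, rfl⟩)

/-- The hard case of `Atom.bedge`. -/
theorem bedge_hard {A : Amb P} {ψ : Perm P} {V I : Finset P} (hA : A.OK) (hψ : A.WV ψ)
    (hR : A.Atom ψ (V, I)) {b b2 c : P} (hb : b ∈ V) (hb2 : b2 ∈ V) (hty : A.ty b = false)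
    (hty2 : A.ty b2 = false) (hne : b2 ≠ b) (he : A.π b ∈ I) (he2 : A.π b2 ∈ I)
    (e1 : ψ (A.π b) = A.π b2) (e2 : ψ (A.π b2) = A.π b) (hc : ψ c = b2) (hbI : b ∈ I)
    (hcI : c ∈ I) (h1 : ∀ p ∈ I, ψ p ≠ b) (h2 : b2 ∉ I)
    (hB : ¬ (orb (A.π * ψ) b ⊆ I ∧ (orb (A.π * ψ) b).card ≤ 4)) : False := by
  obtain ⟨⟨⟨hreg, hconn, heps, hbd1⟩, hbd3, hfeat⟩, hmin⟩ := hR
  have hdt : V ⊆ A.dt := hreg.2.1
  have hIV : I ⊆ V := hreg.1.2.1
  have hππ : ∀ p ∈ V, A.π (A.π p) = p := fun p hp => (hA.2.2 p (hdt hp)).2.1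
  have hπt : ∀ p ∈ V, A.ty (A.π p) = !A.ty p := fun p hp => (hA.2.2 p (hdt hp)).2.2
  have ta : A.ty (A.π b) = true := by rw [hπt b hb, hty]; rfl
  have ta2 : A.ty (A.π b2) = true := by rw [hπt b2 hb2, hty2]; rfl
  have tc : A.ty c = false := by rw [← (hψ c).1, hc, hty2]
  have tne : ∀ {p q : P}, A.ty p = true → A.ty q = false → p ≠ q := by
    intro p q hp hq e
    rw [e, hq] at hp
    exact absurd hp (by simp)
  have f1 : (A.π * ψ) (A.π b) = b2 := by rw [Perm.mul_apply, e1, hππ b2 hb2]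
  have f2 : (A.π * ψ) (A.π b2) = b := by rw [Perm.mul_apply, e2, hππ b hb]
  have f3 : (A.π * ψ) c = A.π b2 := by rw [Perm.mul_apply, hc]
  have hcb : c ≠ b := by
    rintro rfl
    have : orb (A.π * ψ) c ⊆ {c, A.π b2} := orb_subset_of_closed (by simp) fun q hq => by
      simp only [mem_insert, mem_singleton] at hq ⊢
      rcases hq with rfl | rfl
      · exact Or.inr f3
      · exact Or.inl f2
    refine hB ⟨this.trans ?_, (card_le_card this).trans (card_le_two.trans (by norm_num))⟩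
    intro q hq
    simp only [mem_insert, mem_singleton] at hq
    rcases hq with rfl | rfl
    · exact hbI
    · exact he2
  have haa : A.π b2 ≠ A.π b := fun e => hne (A.π.injective e)
  have hψb2 : ψ b ≠ b2 := fun e => hcb (ψ.injective (hc.trans e.symm))
  have m2 : A.π b2 ∈ orb (A.π * ψ) b := by
    have := inv_mem_orb (self_mem_orb (A.π * ψ) b)
    rwa [Perm.inv_eq_iff_eq.2 f2.symm] at this
  have m3 : c ∈ orb (A.π * ψ) b := by
    have := inv_mem_orb m2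
    rwa [Perm.inv_eq_iff_eq.2 f3.symm] at this
  obtain ⟨V', hV'⟩ : ∃ V', V' = (V \ A.dv {b}) \ A.dv {b2} := ⟨_, rfl⟩
  obtain ⟨I', hI'⟩ : ∃ I', I' = (((I.erase b).erase c).erase (A.π b2)).erase (A.π b) := ⟨_, rfl⟩
  have mV : ∀ p, p ∈ V' ↔ p ∈ V ∧ p ≠ b ∧ p ≠ A.π b ∧ p ≠ b2 ∧ p ≠ A.π b2 := by
    intro p
    simp only [hV', Amb.dv, mem_sdiff, mem_union, mem_singleton, image_singleton, not_or]
    tauto
  have mI : ∀ p, p ∈ I' ↔ p ∈ I ∧ p ≠ b ∧ p ≠ c ∧ p ≠ A.π b2 ∧ p ≠ A.π b := by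
    intro p
    simp only [hI', mem_erase]
    tauto
  have hle : ((V', I') : Rg P) ≤ (V, I) :=
    ⟨fun p hp => ((mV p).1 hp).1, fun p hp => ((mI p).1 hp).1⟩
  have hpre : A.Pre ψ (V', I') := by
    refine ⟨fun p hp => ?_, fun p hp => ?_, fun p hp => ?_⟩
    · obtain ⟨a1, a2, a3, a4, a5⟩ := (mV p).1 hp
      refine (mV _).2 ⟨hreg.1.1 p a1, fun e => a3 ?_, fun e => a2 (A.π.injective e),
        fun e => a5 ?_, fun e => a4 (A.π.injective e)⟩
      · rw [← e, hππ p a1]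
      · rw [← e, hππ p a1]
    · obtain ⟨a1, a2, a3, a4, a5⟩ := (mI p).1 hp
      exact (mV _).2 ⟨hIV a1, a2, a5, fun e => h2 (e ▸ a1), a4⟩
    · obtain ⟨a1, a2, a3, a4, a5⟩ := (mI p).1 hp
      exact (mV _).2 ⟨hreg.1.2.2 p a1, h1 p a1, fun e => a4 (ψ.injective (e.trans e2.symm)),
        fun e => a3 (ψ.injective (e.trans hc.symm)), fun e => a5 (ψ.injective (e.trans e1.symm))⟩
  have hreg' : A.Reg ψ (V', I') := by
    refine ⟨hpre, hle.1.trans hdt, fun p hp ht => ?_⟩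
    obtain ⟨a1, a2, a3, a4, a5⟩ := (mI p).1 hp
    have ht' : A.ty (ψ p) = true := by rw [(hψ p).1, ht]
    exact ⟨(mI _).2 ⟨(hreg.2.2 p a1 ht).1, tne ht' hty, tne ht' tc,
      fun e => a5 (ψ.injective (e.trans e1.symm)), fun e => a4 (ψ.injective (e.trans e2.symm))⟩,
      (hreg.2.2 p a1 ht).2⟩
  have hbd : bd ((V', I') : Rg P) = bd ((V, I) : Rg P) := by
    have : V' \ I' = insert c ((V \ I).erase b2) := by
      ext p
      simp only [mem_sdiff, mV, mI, mem_insert, mem_erase]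
      constructor
      · rintro ⟨⟨a1, a2, a3, a4, a5⟩, a6⟩
        by_cases e : p = c
        · exact Or.inl e
        · exact Or.inr ⟨a4, a1, fun h => a6 ⟨h, a2, e, a5, a3⟩⟩
      · rintro (rfl | ⟨a1, a2, a3⟩)
        · exact ⟨⟨hIV hcI, hcb, (tne ta tc).symm, fun e => h2 (e ▸ hcI), (tne ta2 tc).symm⟩,
            fun h => h.2.2.1 rfl⟩
        · exact ⟨⟨a2, fun e => a3 (e ▸ hbI), fun e => a3 (e ▸ he), a1, fun e => a3 (e ▸ he2)⟩,
            fun h => a3 h.1⟩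
    unfold bd
    simp only
    rw [this, card_insert_of_notMem (by simp [hcI]), card_erase_add_one (by simp [hb2, h2])]
  have hb' : b ∉ V' := fun h => ((mV b).1 h).2.1 rfl
  have hψb : ψ b ∈ V' := (mV _).2 ⟨hreg.1.2.2 b hbI, h1 b hbI,
    (tne ta ((hψ b).1.trans hty)).symm, hψb2, (tne ta2 ((hψ b).1.trans hty)).symm⟩
  have hvb : ∀ p, b ∈ orb ψ p → ¬ orb ψ p ⊆ I := fun p hp h =>
    h1 _ (h (inv_mem_orb hp)) (by simp)
  have hfeat' : A.Feat ψ (V', I') := by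
    obtain ⟨p, ⟨ht, hp⟩ | ⟨hp, h4⟩⟩ := hfeat
    · refine ⟨p, Or.inl ⟨ht, fun q hq => (mI q).2 ⟨hp hq, ?_, ?_, ?_, ?_⟩⟩⟩
      · rintro rfl
        exact hvb p hq hp
      · rintro rfl
        exact h2 (hc ▸ hp (apply_mem_orb hq))
      · exact (tne ta2 ((ty_orb hψ hq).trans ht)).symm
      · exact (tne ta ((ty_orb hψ hq).trans ht)).symm
    · have key : ∀ q ∈ orb (A.π * ψ) p, q ∉ orb (A.π * ψ) b := by
        intro q hq hq'
        rw [← orb_eq_of_mem hq, orb_eq_of_mem hq'] at hp h4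
        exact hB ⟨hp, h4⟩
      refine ⟨p, Or.inr ⟨fun q hq => (mI q).2 ⟨hp hq, ?_, ?_, ?_, ?_⟩, h4⟩⟩
      · rintro rfl
        exact key _ hq (self_mem_orb _ _)
      · rintro rfl
        exact key _ hq m3
      · rintro rfl
        exact key _ hq m2
      · rintro rfl
        exact h2 (f1 ▸ hp (apply_mem_orb hq))
  have heps' : A.eps ψ (V', I') + (if orb (A.π * ψ) b ⊆ I then 1 else 0) = 2 := by
    have s1 := Amb.eps_erase (A := A) (ψ := ψ) V hbI
    rw [if_neg (hvb b (self_mem_orb _ _)), heps] at s1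
    have s2 := Amb.eps_erase (A := A) (ψ := ψ) V (mem_erase.2 ⟨hcb, hcI⟩)
    rw [if_neg fun h => h2 (hc ▸ mem_of_mem_erase (h (apply_mem_orb (self_mem_orb _ _)))),
      if_neg fun h => by
        rw [orb_eq_of_mem m3] at h
        simpa using h (self_mem_orb _ _)] at s2
    have s3 := Amb.eps_erase (A := A) (ψ := ψ) V
      (mem_erase.2 ⟨tne ta2 tc, mem_erase.2 ⟨tne ta2 hty, he2⟩⟩ :
        A.π b2 ∈ (I.erase b).erase c)
    have o3 : orb ψ (A.π b2) ⊆ (I.erase b).erase c := by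
      refine (orb_subset_of_closed (I := {A.π b2, A.π b}) (by simp) fun q hq => ?_).trans
        fun q hq => ?_
      · simp only [mem_insert, mem_singleton] at hq ⊢
        rcases hq with rfl | rfl
        · exact Or.inr e2
        · exact Or.inl e1
      · simp only [mem_insert, mem_singleton] at hq
        rcases hq with rfl | rfl
        · exact mem_erase.2 ⟨tne ta2 tc, mem_erase.2 ⟨tne ta2 hty, he2⟩⟩
        · exact mem_erase.2 ⟨tne ta tc, mem_erase.2 ⟨tne ta hty, he⟩⟩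
    rw [if_pos o3, if_neg fun h => by
        rw [orb_eq_of_mem m2] at h
        simpa using h (self_mem_orb _ _)] at s3
    have s4 := Amb.eps_erase (A := A) (ψ := ψ) V
      (mem_erase.2 ⟨haa.symm, mem_erase.2 ⟨tne ta tc, mem_erase.2 ⟨tne ta hty, he⟩⟩⟩ :
        A.π b ∈ ((I.erase b).erase c).erase (A.π b2))
    rw [if_neg fun h => by
        have := h (apply_mem_orb (self_mem_orb _ _))
        rw [e1] at this
        simp at this,
      if_neg fun h => by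
        have := h (apply_mem_orb (self_mem_orb _ _))
        rw [f1] at this
        exact h2 (mem_of_mem_erase (mem_of_mem_erase (mem_of_mem_erase this))), ← hI'] at s4
    have s5 := Amb.eps_dart (ψ := ψ) hA I' (hdt hb) hb (hIV he)
    have s6 := Amb.eps_dart (ψ := ψ) hA (V := V \ A.dv {b}) I' (hdt hb2)
      (by simp [Amb.dv, hb2, hne, (tne ta hty2).symm])
      (by simp [Amb.dv, hIV he2, hne, tne ta2 hty])
    rw [← hV'] at s6
    omega
  have hpq : ∀ r ∈ V', A.RL ψ (V', I') r (ψ b) ∨ A.RL ψ (V', I') r c := by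
    intro r hr
    obtain ⟨q, hq, hq', h⟩ := Amb.comp_touch hreg.1 hconn hpre hle
      (fun e => hb' (by rw [show V' = V from e]; exact hb)) hr
    have hq4 : q = b ∨ q = c ∨ q = A.π b2 ∨ q = A.π b := by
      by_contra hn
      simp only [not_or] at hn
      exact hq' ((mI q).2 ⟨hq, hn⟩)
    rcases h with h | h
    · have := (mV _).1 ((Amb.RL.mem hpre h).1 hr)
      rcases hq4 with rfl | rfl | rfl | rfl
      · exact absurd rfl this.2.1
      · exact Or.inr h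
      · exact absurd rfl this.2.2.2.2
      · exact absurd rfl this.2.2.1
    · have := (mV _).1 ((Amb.RL.mem hpre h).1 hr)
      rcases hq4 with rfl | rfl | rfl | rfl
      · exact Or.inl h
      · exact absurd hc this.2.2.2.1
      · exact absurd e2 this.2.2.1
      · exact absurd e1 this.2.2.2.2
  by_cases hf : orb (A.π * ψ) b ⊆ I
  · rw [if_pos hf] at heps'
    have hw : A.RL ψ (V', I') (ψ b) c := by
      refine walk (A.π * ψ) (fun x => x ∈ orb (A.π * ψ) b ∧ x ≠ b ∧ x ≠ A.π b2 ∧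
        A.RL ψ (V', I') (ψ b) x) _ b ?_ ?_ fun h => h.2.1 rfl
      · refine ⟨apply_mem_orb (self_mem_orb _ _), tne ?_ hty,
          fun e => hψb2 (A.π.injective e), rl_pi hψb⟩
        rw [Perm.mul_apply, hπt _ (hle.1 hψb), (hψ b).1, hty]
        rfl
      · rintro x ⟨a1, a2, a3, a4⟩
        by_cases e : x = c
        · exact Or.inl (e ▸ a4)
        · have hx : x ∈ I' := (mI x).2 ⟨hf a1, a2, e, a3, by
            rintro rfl
            exact h2 (f1 ▸ hf (apply_mem_orb a1))⟩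
          exact Or.inr ⟨apply_mem_orb a1, fun h => a3 ((A.π * ψ).injective (h.trans f2.symm)),
            fun h => e ((A.π * ψ).injective (h.trans f3.symm)),
            (a4.trans _ _ _ (rl_psi hx)).trans _ _ _ (rl_pi (hpre.2.2 x hx))⟩
    have hconn' : A.RConn ψ (V', I') := Amb.rconn_of_root hψb fun q hq => by
      rcases hpq q hq with h | h
      · exact h.symm _ _
      · exact hw.trans _ _ _ (h.symm _ _)
    have := hmin (V', I') ⟨⟨hreg', hconn', by omega, by omega⟩, by omega, hfeat'⟩ hle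
    exact hb' (by rw [show V' = V from congrArg Prod.fst this]; exact hb)
  · rw [if_neg hf] at heps'
    obtain ⟨D, hD, hD1, hD2⟩ := Amb.div_of_two ⟨⟨hreg, hconn, heps, hbd1⟩, hbd3, hfeat⟩ hreg' hle
      hfeat' (by omega) hbd.le hpq
    rw [hmin D hD (hD1.trans hle)] at hD2
    omega

/-- The hard case of `Atom.star`. -/
theorem star_hard {A : Amb P} {ψ : Perm P} {V I : Finset P} (hA : A.OK) (hψ : A.WV ψ)
    (hR : A.Atom ψ (V, I)) {b c : P} (hb : b ∈ V) (hty : A.ty b = false) (ha : A.π b ∉ I)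
    (hc : ψ c = b) (hv : orb ψ b ⊆ I) : (orb ψ b).card ≤ 3 := by
  by_contra h4
  obtain ⟨⟨⟨hreg, hconn, heps, hbd1⟩, hbd3, hfeat⟩, hmin⟩ := hR
  have hdt : V ⊆ A.dt := hreg.2.1
  have hIV : I ⊆ V := hreg.1.2.1
  have hππ : ∀ p ∈ V, A.π (A.π p) = p := fun p hp => (hA.2.2 p (hdt hp)).2.1
  have ta : A.ty (A.π b) = true := by rw [(hA.2.2 b (hdt hb)).2.2, hty]; rfl
  have tc : A.ty c = false := by rw [← (hψ c).1, hc, hty]
  have tne : ∀ {p q : P}, A.ty p = true → A.ty q = false → p ≠ q := by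
    intro p q hp hq e
    rw [e, hq] at hp
    exact absurd hp (by simp)
  have n1 : ψ b ≠ b := fun e => h4 (card_le_three (by simp [e]))
  have n2 : ψ (ψ b) ≠ b := fun e => h4 (card_le_three (by simp [e]))
  have n3 : ψ (ψ (ψ b)) ≠ b := fun e => h4 (card_le_three (by simp [e]))
  have mb : b ∈ orb ψ b := self_mem_orb _ _
  have mc : c ∈ orb ψ b := by
    have := inv_mem_orb mb
    rwa [Perm.inv_eq_iff_eq.2 hc.symm] at this
  have hcb : c ≠ b := fun e => n1 (e ▸ hc)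
  have hin : ∀ p ∈ I, ψ p ≠ A.π b := by
    intro p hp e
    have ht : A.ty p = true := by rw [← (hψ p).1, e, ta]
    exact ha (e ▸ (hreg.2.2 p hp ht).1)
  obtain ⟨V', hV'⟩ : ∃ V', V' = V \ A.dv {b} := ⟨_, rfl⟩
  obtain ⟨I', hI'⟩ : ∃ I', I' = (I.erase b).erase c := ⟨_, rfl⟩
  have mV : ∀ p, p ∈ V' ↔ p ∈ V ∧ p ≠ b ∧ p ≠ A.π b := by
    intro p
    simp only [hV', Amb.dv, mem_sdiff, mem_union, mem_singleton, image_singleton, not_or]
  have mI : ∀ p, p ∈ I' ↔ p ∈ I ∧ p ≠ b ∧ p ≠ c := by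
    intro p
    simp only [hI', mem_erase]
    tauto
  have hle : ((V', I') : Rg P) ≤ (V, I) :=
    ⟨fun p hp => ((mV p).1 hp).1, fun p hp => ((mI p).1 hp).1⟩
  have hpre : A.Pre ψ (V', I') := by
    refine ⟨fun p hp => ?_, fun p hp => ?_, fun p hp => ?_⟩
    · obtain ⟨a1, a2, a3⟩ := (mV p).1 hp
      refine (mV _).2 ⟨hreg.1.1 p a1, fun e => a3 ?_, fun e => a2 (A.π.injective e)⟩
      rw [← e, hππ p a1]
    · obtain ⟨a1, a2, a3⟩ := (mI p).1 hp
      exact (mV _).2 ⟨hIV a1, a2, fun e => ha (e ▸ a1)⟩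
    · obtain ⟨a1, a2, a3⟩ := (mI p).1 hp
      exact (mV _).2 ⟨hreg.1.2.2 p a1, fun e => a3 (ψ.injective (e.trans hc.symm)), hin p a1⟩
  have hreg' : A.Reg ψ (V', I') := by
    refine ⟨hpre, hle.1.trans hdt, fun p hp ht => ?_⟩
    obtain ⟨a1, a2, a3⟩ := (mI p).1 hp
    have ht' : A.ty (ψ p) = true := by rw [(hψ p).1, ht]
    exact ⟨(mI _).2 ⟨(hreg.2.2 p a1 ht).1, tne ht' hty, tne ht' tc⟩, (hreg.2.2 p a1 ht).2⟩
  have hbd : bd ((V', I') : Rg P) = bd ((V, I) : Rg P) := by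
    have : V' \ I' = insert c ((V \ I).erase (A.π b)) := by
      ext p
      simp only [mem_sdiff, mV, mI, mem_insert, mem_erase]
      constructor
      · rintro ⟨⟨a1, a2, a3⟩, a6⟩
        by_cases e : p = c
        · exact Or.inl e
        · exact Or.inr ⟨a3, a1, fun h => a6 ⟨h, a2, e⟩⟩
      · rintro (rfl | ⟨a1, a2, a3⟩)
        · exact ⟨⟨hIV (hv mc), hcb, (tne ta tc).symm⟩, fun h => h.2.2 rfl⟩
        · exact ⟨⟨a2, fun e => a3 (e ▸ hv mb), a1⟩, fun h => a3 h.1⟩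
    unfold bd
    simp only
    rw [this, card_insert_of_notMem (by simp [hv mc]),
      card_erase_add_one (mem_sdiff.2 ⟨hreg.1.1 b hb, ha⟩)]
  have hb' : b ∉ V' := fun h => ((mV b).1 h).2.1 rfl
  have hψb : ψ b ∈ I' := (mI _).2 ⟨hv (apply_mem_orb mb), n1, fun e => n2 (e ▸ hc)⟩
  have heps' : A.eps ψ (V', I') = 1 := by
    have s1 := Amb.eps_erase (A := A) (ψ := ψ) V (hv mb)
    rw [if_pos hv, if_neg fun h => hin _ (h (inv_mem_orb (self_mem_orb _ _))) (A.π.injective (by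
      rw [hππ b hb, ← Perm.mul_apply A.π ψ, ap_inv])), heps] at s1
    have s2 := Amb.eps_erase (A := A) (ψ := ψ) V (mem_erase.2 ⟨hcb, hv mc⟩)
    rw [if_neg fun h => by
        rw [orb_eq_of_mem mc] at h
        simpa using h mb,
      if_neg fun h => by
        have := h (apply_mem_orb (self_mem_orb _ _))
        rw [Perm.mul_apply, hc] at this
        exact ha (mem_of_mem_erase this), ← hI'] at s2
    have s5 := Amb.eps_dart (ψ := ψ) hA I' (hdt hb) hb (hreg.1.1 b hb)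
    rw [← hV'] at s5
    omega
  have hw : A.RL ψ (V', I') (ψ b) c := by
    refine walk ψ (fun x => x ∈ orb ψ b ∧ x ≠ b ∧ A.RL ψ (V', I') (ψ b) x) _ b
      ⟨apply_mem_orb mb, n1, Relation.EqvGen.refl _⟩ ?_ fun h => h.2.1 rfl
    rintro x ⟨a1, a2, a4⟩
    by_cases e : x = c
    · exact Or.inl (e ▸ a4)
    · exact Or.inr ⟨apply_mem_orb a1, fun h => e (ψ.injective (h.trans hc.symm)),
        a4.trans _ _ _ (rl_psi ((mI x).2 ⟨hv a1, a2, e⟩))⟩
  have hconn' : A.RConn ψ (V', I') := Amb.rconn_of_root (hpre.2.1 hψb) fun r hr => by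
    obtain ⟨q, hq, hq', h⟩ := Amb.comp_touch hreg.1 hconn hpre hle
      (fun e => hb' (by rw [show V' = V from e]; exact hb)) hr
    have hq4 : q = b ∨ q = c := by
      by_contra hn
      simp only [not_or] at hn
      exact hq' ((mI q).2 ⟨hq, hn⟩)
    rcases h with h | h
    · have := (mV _).1 ((Amb.RL.mem hpre h).1 hr)
      rcases hq4 with rfl | rfl
      · exact absurd rfl this.2.1
      · exact hw.trans _ _ _ (h.symm _ _)
    · have := (mV _).1 ((Amb.RL.mem hpre h).1 hr)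
      rcases hq4 with rfl | rfl
      · exact h.symm _ _
      · exact absurd hc this.2.1
  have hdisc : A.Disc ψ (V', I') := ⟨hreg', hconn', heps', by omega⟩
  by_cases hf : A.Feat ψ (V', I')
  · have := hmin (V', I') ⟨hdisc, by omega, hf⟩ hle
    exact hb' (by rw [show V' = V from congrArg Prod.fst this]; exact hb)
  · exact Amb.flat_run hA hψ hdisc hf (by omega) hψb ((hψ b).1.trans hty)
      ((mI _).2 ⟨hv (apply_mem_orb (apply_mem_orb mb)), n2, fun e => n3 (e ▸ hc)⟩)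

theorem unsplit_one {A : Amb P} {ψ : Perm P} {R : Rg P} (hA : A.OK) (hψ : A.WV ψ)
    (hR : A.Tight ψ R) {r s : P} (hty : A.ty r = false) (hr : r ∈ R.1)
    (h1 : ∀ q ∈ orb ψ r, q ∈ R.1 → q = r) (hs : s ∈ orb ψ r) (hs' : s ∉ R.1) : False := by
  have hreg := hR.1.1.1
  have n1 : ψ r ≠ r := by
    intro e
    have : orb ψ r ⊆ {r} := orb_subset_of_closed (by simp) fun q hq => by
      rw [mem_singleton] at hq ⊢
      rw [hq, e]
    exact hs' (mem_singleton.1 (this hs) ▸ hr)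
  have a1 : r ∉ R.2 := fun h =>
    n1 (h1 _ (apply_mem_orb (self_mem_orb _ _)) (hreg.1.2.2 r h))
  have a2 : ψ⁻¹ r ∉ R.2 := fun h =>
    n1 (Perm.inv_eq_iff_eq.1 (h1 _ (inv_mem_orb (self_mem_orb _ _)) (hreg.1.2.1 h))).symm
  have a3 : A.π r ∉ R.2 := fun h => (hR.2.2.1 r hr hty h).elim a1 a2
  obtain ⟨-, b1, b2⟩ := hA.2.2 r (hreg.2.1 hr)
  have := hR.acut hA hψ (hreg.1.1 r hr) (by rw [b2, hty]; rfl) a3
  rw [b1] at this
  exact a1 (this (self_mem_orb _ _))

theorem ov_star {A : Amb P} {ψ : Perm P} {R : Rg P} (hR : A.Pre ψ R) {b : P}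
    (h : Ov R (A.rStar ψ b)) : ∃ r ∈ orb ψ b, r ∈ R.1 := by
  obtain ⟨p, hp, hp'⟩ := not_disjoint_iff.1 h
  rcases Amb.mem_dv.1 hp' with h | ⟨q, hq, rfl⟩
  · exact ⟨p, h, hp⟩
  · exact ⟨q, hq, (hR.mem_iff q).1 hp⟩

end AtomsAux

open AtomsAux

namespace Amb

variable {A : Amb P} {ψ : Perm P} {R S : Rg P}

/-- An atom with a boundary edge is a face of degree one or two. -/
theorem Atom.bedge (hA : A.OK) (hψ : A.WV ψ) (hR : A.Atom ψ R) {b : P} (hb : b ∈ R.1)
    (hty : A.ty b = false) (he : A.π b ∈ R.2) (h1 : ψ⁻¹ b ∉ R.2) (h2 : A.al ψ b ∉ R.2) :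
    (A.nx ψ b = b ∧ bd R = 1) ∨ (A.DigAt ψ b ∧ R = A.rDig ψ b) := by
  have hreg := hR.1.1.1
  obtain ⟨a1, a2, a3, a4, a5, a6, -, a8, a9⟩ := edge_facts hA hψ hreg hb hty he
  have hbI : b ∈ R.2 := by
    by_contra h
    obtain ⟨D, hD, hD1, hD2, -⟩ := div_remove hA hψ hR.1 hb hty he h h1
    exact hD2 (hR.2 D hD hD1)
  have hcI : ψ⁻¹ (A.al ψ b) ∈ R.2 := by
    by_contra h
    obtain ⟨D, hD, hD1, hD2, -⟩ := div_remove hA hψ hR.1 a1 a2 a4 h2 h
    exact hD2 (hR.2 D hD hD1)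
  by_cases hB : orb (A.π * ψ) b ⊆ R.2 ∧ (orb (A.π * ψ) b).card ≤ 4
  · rcases face_div hA hψ hreg hR.1.1.2.1 hR.1.1.2.2.2 hty hB.1 hB.2 with
      ⟨c1, c2, c3, c4⟩ | ⟨c1, c2⟩
    · exact Or.inl ⟨c1, hR.2 _ c2 c4 ▸ c3⟩
    · exact Or.inr ⟨c1, (hR.2 _ (rDig_spec hA hψ c1 (dig_dt hreg.2.1 c2)).1.1 c2).symm⟩
  · have ta : A.ty (A.π b) = true := by rw [(hA.2.2 b (hreg.2.1 hb)).2.2, hty]; rfl
    refine (bedge_hard (V := R.1) (I := R.2) hA hψ hR hb a1 hty a2 a6 he a4 a3.symm ?_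
      (ap_inv ψ _) hbI hcI ?_ h2 hB).elim
    · rw [a3, (hψ _).2 ta]
    · intro p hp e
      exact h1 (by rw [← e, inv_ap]; exact hp)

theorem Atom.tight (hA : A.OK) (hψ : A.WV ψ) (hR : A.Atom ψ R) : A.Tight ψ R := by
  refine ⟨hR.1, fun S hS hle => (hR.2 S hS hle).symm ▸ le_rfl, fun b hb hty he => ?_,
    fun h3 b hb hty he => ?_⟩
  · by_contra h
    rw [not_or] at h
    obtain ⟨D, hD, hD1, hD2, -⟩ := div_remove hA hψ hR.1 hb hty he h.1 h.2
    exact hD2 (hR.2 D hD hD1)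
  · by_contra h
    rw [not_or] at h
    rcases hR.bedge hA hψ hb hty he h.1 h.2 with ⟨-, h1⟩ | ⟨h1, h2⟩
    · omega
    · have := (rDig_spec hA hψ h1 (dig_dt hR.1.1.1.2.1 h2.ge)).2.1
      rw [← h2] at this
      omega

/-- t6: an atom with a cut of type A is a star of degree at most three. -/
theorem Atom.star (hA : A.OK) (hψ : A.WV ψ) (hR : A.Atom ψ R) {a : P} (ha : a ∈ R.1)
    (hty : A.ty a = true) (hI : a ∉ R.2) :
    R = A.rStar ψ (A.π a) ∧ (orb ψ (A.π a)).card ≤ 3 := by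
  have hreg := hR.1.1.1
  have hv := (hR.tight hA hψ).acut hA hψ ha hty hI
  obtain ⟨-, b1, b2⟩ := hA.2.2 a (hreg.2.1 ha)
  have tb : A.ty (A.π a) = false := by rw [b2, hty]; rfl
  have h3 : (orb ψ (A.π a)).card ≤ 3 := star_hard (V := R.1) (I := R.2) hA hψ hR
    (hreg.1.1 a ha) tb (by rwa [b1]) (ap_inv ψ _) hv
  obtain ⟨c1, c2, c3, -⟩ := rStar_spec hA hψ tb (hv.trans (hreg.1.2.1.trans hreg.2.1))
  exact ⟨(hR.2 _ ⟨c1, c2 ▸ h3, c3⟩ (rStar_le hreg.1 hv)).symm, h3⟩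

theorem Atom.noA_or_star (hA : A.OK) (hψ : A.WV ψ) (hR : A.Atom ψ R) :
    A.NoA R ∨ ∃ b ∈ R.2, A.ty b = false ∧ R = A.rStar ψ b ∧ (orb ψ b).card ≤ 3 := by
  by_cases h : A.NoA R
  · exact Or.inl h
  · unfold NoA at h
    push Not at h
    obtain ⟨a, ha, hty, hI⟩ := h
    refine Or.inr ⟨A.π a, (hR.tight hA hψ).acut hA hψ ha hty hI (self_mem_orb _ _), ?_,
      hR.star hA hψ ha hty hI⟩
    rw [(hA.2.2 a (hR.1.1.1.2.1 ha)).2.2, hty]
    rfl

/-- A star atom cannot overlap two disjoint tight regions. -/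
theorem star_unsplit (hA : A.OK) (hψ : A.WV ψ) {b : P} (hty : A.ty b = false)
    (hb : orb ψ b ⊆ A.dt) (h3 : (orb ψ b).card ≤ 3) (hR : A.Tight ψ R) (hS : A.Tight ψ S)
    (h1 : Ov R (A.rStar ψ b)) (h2 : Ov S (A.rStar ψ b)) : Ov R S := by
  intro hd
  obtain ⟨r, hr, hr'⟩ := ov_star hR.1.1.1.1 h1
  obtain ⟨s, hs, hs'⟩ := ov_star hS.1.1.1.1 h2
  have er := orb_eq_of_mem hr
  have es := orb_eq_of_mem hs
  by_cases c1 : ∀ q ∈ orb ψ r, q ∈ R.1 → q = r
  · exact unsplit_one hA hψ hR ((ty_orb hψ hr).trans hty) hr' c1 (er ▸ hs)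
      (disjoint_right.1 hd hs')
  by_cases c2 : ∀ q ∈ orb ψ s, q ∈ S.1 → q = s
  · exact unsplit_one hA hψ hS ((ty_orb hψ hs).trans hty) hs' c2 (es ▸ hr)
      (disjoint_left.1 hd hr')
  push Not at c1 c2
  obtain ⟨r', d1, d2, d3⟩ := c1
  obtain ⟨s', e1, e2, e3⟩ := c2
  rw [er] at d1
  rw [es] at e1
  have hsub : ({r', r} : Finset P) ∪ {s', s} ⊆ orb ψ b := by
    intro q hq
    simp only [mem_union, mem_insert, mem_singleton] at hq
    rcases hq with (rfl | rfl) | rfl | rfl <;> assumption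
  have hdis : Disjoint ({r', r} : Finset P) {s', s} :=
    hd.mono (by simp [insert_subset_iff, d2, hr']) (by simp [insert_subset_iff, e2, hs'])
  have := card_le_card hsub
  rw [card_union_of_disjoint hdis, card_pair d3, card_pair e3] at this
  omega

end Amb

end Pool.Agent.P.MP_48bde8_co
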