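import Pool.Agent.P.MP_48bde8_co.Maps

/-! Task CANNY: the eliminant vanishes at a rigid solution. -/

namespace Pool.Agent.P.MP_48bde8_co

open MvPolynomial

namespace CannyAux

variable {A L : Type} [CommRing A] [Field L] {N : ℕ}

theorem ind (p : MvPolynomial (Fin N) (Polynomial A) → Prop)
    (hC : ∀ a, p (C (Polynomial.C a))) (hw : p (C Polynomial.X)) (hX : ∀ j, p (X j))
    (hadd : ∀ F G, p F → p G → p (F + G)) (hmul : ∀ F G, p F → p G → p (F * G)) (F) : p F := by
  induction F using MvPolynomial.induction_on with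
  | C c =>
    induction c using Polynomial.induction_on with
    | C a => exact hC a
    | add a b ha hb => rw [map_add]; exact hadd _ _ ha hb
    | monomial n a h => rw [pow_succ, ← mul_assoc, map_mul]; exact hmul _ _ h hw
  | add F G hF hG => exact hadd _ _ hF hG
  | mul_X F j hF => exact hmul _ _ hF (hX j)

/-- Evaluation of a polynomial in the unknowns and in the parameter. -/
noncomputable def ev {R : Type} [CommRing R] (ψ : A →+* R) (W : R) (Q : Fin N → R) :
    MvPolynomial (Fin N) (Polynomial A) →+* R :=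
  eval₂Hom (Polynomial.eval₂RingHom ψ W) Q

theorem ev_CC {R : Type} [CommRing R] (ψ : A →+* R) (W : R) (Q : Fin N → R) (a : A) :
    ev ψ W Q (C (Polynomial.C a)) = ψ a := by simp [ev]

theorem ev_CX {R : Type} [CommRing R] (ψ : A →+* R) (W : R) (Q : Fin N → R) :
    ev ψ W Q (C Polynomial.X) = W := by simp [ev]

theorem ev_X {R : Type} [CommRing R] (ψ : A →+* R) (W : R) (Q : Fin N → R) (j : Fin N) :
    ev ψ W Q (X j) = Q j := by simp [ev]

theorem dn_add (a b c d : L) : dn a b + dn c d = dn (a + c) (b + d) := by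
  ext <;> simp [dn]

theorem dn_mul (a b c d : L) : dn a b * dn c d = dn (a * c) (a * d + c * b) := by
  ext <;> simp [dn, mul_comm]

theorem dn_in (a : L) : inD a = dn a 0 := by
  ext <;> simp [dn, inD]

theorem dvd_const (φ : A →+* L) (W : Polynomial L) (Q : Fin N → Polynomial L)
    (F : MvPolynomial (Fin N) (Polynomial A)) :
    (ev (Polynomial.C.comp φ) W Q F).coeff 0 = ev φ (W.coeff 0) (fun j => (Q j).coeff 0) F := by
  induction F using ind with
  | hC a => simp [ev_CC]
  | hw => simp [ev_CX]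
  | hX j => simp [ev_X]
  | hadd F G hF hG => simp [hF, hG]
  | hmul F G hF hG => simp [hF, hG]

theorem taylor (φ : A →+* L) (w : L) (P : Fin N → L) (F : MvPolynomial (Fin N) (Polynomial A)) :
    ∃ J : (L × (Fin N → L)) →ₗ[L] L,
      (∀ u : L × (Fin N → L),
        ev (inD.comp φ) (dn w u.1) (fun j => dn (P j) (u.2 j)) F = dn (ev φ w P F) (J u)) ∧
      ∀ (m : ℕ) (W : Polynomial L) (Q : Fin N → Polynomial L), W.coeff 0 = w →
        (∀ j, (Q j).coeff 0 = P j) → ∀ u : L × (Fin N → L), ∃ r : Polynomial L,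
        ev (Polynomial.C.comp φ) (W + Polynomial.X ^ (m + 1) * Polynomial.C u.1)
            (fun j => Q j + Polynomial.X ^ (m + 1) * Polynomial.C (u.2 j)) F =
          ev (Polynomial.C.comp φ) W Q F + Polynomial.X ^ (m + 1) * Polynomial.C (J u) +
            Polynomial.X ^ (m + 2) * r := by
  induction F using ind with
  | hC a =>
    refine ⟨0, fun u => ?_, fun m W Q _ _ u => ⟨0, ?_⟩⟩
    · simp [ev_CC, dn_in]
    · simp [ev_CC]
  | hw =>
    refine ⟨LinearMap.fst _ _ _, fun u => ?_, fun m W Q _ _ u => ⟨0, ?_⟩⟩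
    · simp [ev_CX]
    · simp [ev_CX]
  | hX j =>
    refine ⟨(LinearMap.proj j).comp (LinearMap.snd _ _ _), fun u => ?_,
      fun m W Q _ _ u => ⟨0, ?_⟩⟩
    · simp [ev_X]
    · simp [ev_X]
  | hadd F G hF hG =>
    obtain ⟨J1, h1, h1'⟩ := hF
    obtain ⟨J2, h2, h2'⟩ := hG
    refine ⟨J1 + J2, fun u => ?_, fun m W Q hW hQ u => ?_⟩
    · rw [map_add, h1, h2, dn_add, map_add]; rfl
    · obtain ⟨r1, e1⟩ := h1' m W Q hW hQ u
      obtain ⟨r2, e2⟩ := h2' m W Q hW hQ u
      refine ⟨r1 + r2, ?_⟩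
      rw [map_add, e1, e2, map_add, LinearMap.add_apply, map_add]; ring
  | hmul F G hF hG =>
    obtain ⟨J1, h1, h1'⟩ := hF
    obtain ⟨J2, h2, h2'⟩ := hG
    refine ⟨ev φ w P F • J2 + ev φ w P G • J1, fun u => ?_, fun m W Q hW hQ u => ?_⟩
    · rw [map_mul, h1, h2, dn_mul, map_mul]; rfl
    · obtain ⟨r1, e1⟩ := h1' m W Q hW hQ u
      obtain ⟨r2, e2⟩ := h2' m W Q hW hQ u
      have c1 := dvd_const φ W Q F
      have c2 := dvd_const φ W Q G
      rw [hW, funext hQ] at c1 c2
      have d1 := Polynomial.X_mul_divX_add (ev (Polynomial.C.comp φ) W Q F)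
      have d2 := Polynomial.X_mul_divX_add (ev (Polynomial.C.comp φ) W Q G)
      rw [c1] at d1
      rw [c2] at d2
      rw [map_mul, e1, e2, map_mul]
      simp only [LinearMap.add_apply, LinearMap.smul_apply, smul_eq_mul, map_add, map_mul]
      generalize ev (Polynomial.C.comp φ) W Q F = a at *
      generalize ev (Polynomial.C.comp φ) W Q G = b at *
      generalize Polynomial.divX a = a1 at *
      generalize Polynomial.divX b = b1 at *
      generalize Polynomial.C (ev φ w P F) = a0 at *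
      generalize Polynomial.C (ev φ w P G) = b0 at *
      generalize Polynomial.C (J1 u) = j1 at *
      generalize Polynomial.C (J2 u) = j2 at *
      subst d1 d2
      refine ⟨a1 * j2 + b1 * j1 + (Polynomial.X * a1 + a0) * r2 + (Polynomial.X * b1 + b0) * r1 +
        Polynomial.X ^ m * (j1 + Polynomial.X * r1) * (j2 + Polynomial.X * r2), ?_⟩
      ring

theorem hensel (φ : A →+* L) (w : L) (P : Fin N → L)
    (f0 : MvPolynomial (Fin N) (Polynomial A)) (f : Fin N → MvPolynomial (Fin N) (Polynomial A))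
    (h0 : ev φ w P f0 = 0) (h : ∀ j, ev φ w P (f j) = 0)
    (rig : ∀ (w' : L) (P' : Fin N → L),
      ev (inD.comp φ) (dn w w') (fun j => dn (P j) (P' j)) f0 = 0 →
      (∀ i, ev (inD.comp φ) (dn w w') (fun j => dn (P j) (P' j)) (f i) = 0) → w' = 0 ∧ P' = 0)
    (e m : ℕ) : ∃ (W : Polynomial L) (Q : Fin N → Polynomial L), W.coeff 0 = w ∧
      (∀ j, (Q j).coeff 0 = P j) ∧
      Polynomial.X ^ (m + 1) ∣ ev (Polynomial.C.comp φ) W Q f0 - Polynomial.X ∧
      ∀ k, Polynomial.X ^ (m + 1) ∣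
        ev (Polynomial.C.comp φ) W Q (f k) - Polynomial.X * Q k ^ e := by
  obtain ⟨J0, hJ0, hJ0'⟩ := taylor φ w P f0
  choose J hJ hJ' using fun k => taylor φ w P (f k)
  have dz : dn (0 : L) 0 = 0 := by ext <;> simp [dn]
  have hinj : Function.Injective (LinearMap.prod J0 (LinearMap.pi J)) := by
    rw [← LinearMap.ker_eq_bot, LinearMap.ker_eq_bot']
    intro u hu
    have hu0 : J0 u = 0 := congrArg Prod.fst hu
    have hu1 : ∀ k, J k u = 0 := fun k => congrFun (congrArg Prod.snd hu) k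
    obtain ⟨a, b⟩ := rig u.1 u.2 (by rw [hJ0, h0, hu0, dz]) fun i => by rw [hJ, h, hu1, dz]
    exact Prod.ext a b
  have hsurj := LinearMap.injective_iff_surjective.mp hinj
  induction m with
  | zero =>
    refine ⟨Polynomial.C w, fun j => Polynomial.C (P j), by simp, by simp, ?_, fun k => ?_⟩
    · rw [zero_add, pow_one, Polynomial.X_dvd_iff, Polynomial.coeff_sub, dvd_const]
      simp [h0]
    · rw [zero_add, pow_one, Polynomial.X_dvd_iff, Polynomial.coeff_sub, dvd_const]
      simp [h]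
  | succ m ih =>
    obtain ⟨W, Q, hW, hQ, ⟨r0, hr0⟩, hr⟩ := ih
    choose r hr using hr
    obtain ⟨u, hu⟩ := hsurj (-r0.coeff 0, fun k => -(r k).coeff 0)
    have hu0 : J0 u = -r0.coeff 0 := congrArg Prod.fst hu
    have hu1 : ∀ k, J k u = -(r k).coeff 0 := fun k => congrFun (congrArg Prod.snd hu) k
    refine ⟨W + Polynomial.X ^ (m + 1) * Polynomial.C u.1,
      fun j => Q j + Polynomial.X ^ (m + 1) * Polynomial.C (u.2 j), ?_, fun j => ?_, ?_,
      fun k => ?_⟩
    · simp [hW]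
    · simp [hQ]
    · obtain ⟨s, hs⟩ := hJ0' m W Q hW hQ u
      have d := Polynomial.X_mul_divX_add r0
      refine ⟨s + Polynomial.divX r0, ?_⟩
      rw [hs, hu0, map_neg]
      linear_combination hr0 - Polynomial.X ^ (m + 1) * d
    · obtain ⟨s, hs⟩ := hJ' k m W Q hW hQ u
      have d := Polynomial.X_mul_divX_add (r k)
      obtain ⟨y, hy⟩ := sub_dvd_pow_sub_pow
        (Q k + Polynomial.X ^ (m + 1) * Polynomial.C (u.2 k)) (Q k) e
      refine ⟨s + Polynomial.divX (r k) - Polynomial.C (u.2 k) * y, ?_⟩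
      rw [hs, hu1, map_neg]
      linear_combination hr k - Polynomial.X ^ (m + 1) * d - Polynomial.X * hy

section Rows

variable {B : Type} [CommRing B]

theorem exp_apply {D : ℕ} (μ : Mon N D) (k : Fin N) : μ.exp k = (μ.1 k : ℕ) := rfl

theorem exp_inj {D : ℕ} : Function.Injective (Mon.exp : Mon N D → Fin N →₀ ℕ) := by
  intro μ ν hμ
  refine Subtype.ext (funext fun k => Fin.ext ?_)
  rw [← exp_apply, ← exp_apply, hμ]

theorem exp_surj {D : ℕ} (d : Fin N →₀ ℕ) (hd : ∑ k, d k ≤ D) : ∃ μ : Mon N D, μ.exp = d := by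
  have hk : ∀ k, d k < D + 1 := fun k =>
    Nat.lt_succ_of_le ((Finset.single_le_sum (f := fun k => d k) (fun _ _ => Nat.zero_le _)
      (Finset.mem_univ k)).trans hd)
  exact ⟨⟨fun k => ⟨d k, hk k⟩, hd⟩, Finsupp.ext fun k => rfl⟩

theorem sum_eq {R : Type} [CommRing R] (ψ : B →+* R) (Q : Fin N → R) {D : ℕ}
    (F : MvPolynomial (Fin N) B) (hF : F.totalDegree ≤ D) :
    ∑ ν : Mon N D, ψ (coeff ν.exp F) * ∏ k, Q k ^ ν.exp k = eval₂ ψ Q F := by
  classical
  rw [eval₂_eq', ← Finset.sum_image (s := Finset.univ) (g := Mon.exp)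
    (f := fun d : Fin N →₀ ℕ => ψ (coeff d F) * ∏ k, Q k ^ d k) (fun a _ b _ hab => exp_inj hab)]
  symm
  refine Finset.sum_subset (fun d hd => ?_) fun d _ hd => ?_
  · have h1 := le_totalDegree hd
    rw [Finsupp.sum_fintype _ _ (fun _ => rfl)] at h1
    obtain ⟨μ, hμ⟩ := exp_surj d (h1.trans hF)
    exact Finset.mem_image.mpr ⟨μ, Finset.mem_univ _, hμ⟩
  · rw [notMem_support_iff.mp hd, map_zero, zero_mul]

theorem deg_mon (d : Fin N →₀ ℕ) :
    (monomial d (1 : B) : MvPolynomial (Fin N) B).totalDegree ≤ ∑ k, d k := by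
  refine (totalDegree_monomial_le d 1).trans (le_of_eq ?_)
  rw [Finsupp.sum_fintype _ _ (fun _ => rfl)]
  rfl

theorem row_deg (f0 : MvPolynomial (Fin N) B) (f : Fin N → MvPolynomial (Fin N) B)
    (μ : Mon N ((N + 1) * degBound f0 f)) :
    (row f0 f (degBound f0 f) μ.exp).totalDegree ≤ (N + 1) * degBound f0 f := by
  have b0 : f0.totalDegree ≤ degBound f0 f := by
    unfold degBound; omega
  have bk : ∀ k, (f k).totalDegree ≤ degBound f0 f := fun k => by
    have := Finset.le_sup (f := fun k => (f k).totalDegree) (Finset.mem_univ k)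
    unfold degBound; omega
  have hμ : ∑ k, μ.exp k ≤ (N + 1) * degBound f0 f := μ.2
  generalize μ.exp = d at hμ
  generalize degBound f0 f = e at *
  unfold row
  split_ifs with hne
  · have hk := (Finset.mem_filter.mp (Finset.min'_mem _ hne)).2
    generalize Finset.min' _ hne = k at hk
    refine (totalDegree_mul _ _).trans ?_
    have h1 := deg_mon (B := B) (d - Finsupp.single k e)
    have h2 : ∑ j, (d - Finsupp.single k e : Fin N →₀ ℕ) j + e = ∑ j, d j := by
      have h3 : ∑ j, (Finsupp.single k e : Fin N →₀ ℕ) j = e := by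
        simp [Finsupp.single_apply]
      have h4 : Finsupp.single k e ≤ d := Finsupp.single_le_iff.mpr hk
      conv_rhs => rw [← tsub_add_cancel_of_le h4]
      simp only [Finsupp.add_apply, Finset.sum_add_distrib, h3]
    have := bk k
    omega
  · refine (totalDegree_mul _ _).trans ?_
    have h1 := deg_mon (B := B) d
    have h2 : ∑ j, d j ≤ N * e := by
      have : ∀ j ∈ (Finset.univ : Finset (Fin N)), d j ≤ e := fun j _ => by
        by_contra hj
        exact hne ⟨j, Finset.mem_filter.mpr ⟨Finset.mem_univ _, by omega⟩⟩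
      simpa using Finset.sum_le_card_nsmul _ _ _ this
    rw [add_mul, one_mul]
    omega

theorem row_dvd {R : Type} [CommRing R] (ψ : B →+* R) (Q : Fin N → R) (t T : R)
    (f0 : MvPolynomial (Fin N) B) (f : Fin N → MvPolynomial (Fin N) B) (e : ℕ)
    (h0 : T ∣ eval₂ ψ Q f0 - t) (h : ∀ k, T ∣ eval₂ ψ Q (f k) - t * Q k ^ e) (d : Fin N →₀ ℕ) :
    T ∣ t * ∏ k, Q k ^ d k - eval₂ ψ Q (row f0 f e d) := by
  have hm : ∀ c : Fin N →₀ ℕ, eval₂ ψ Q (monomial c (1 : B)) = ∏ k, Q k ^ c k := fun c => by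
    rw [eval₂_monomial, map_one, one_mul, Finsupp.prod_fintype _ _ (fun _ => pow_zero _)]
  unfold row
  split_ifs with hne
  · have hk := (Finset.mem_filter.mp (Finset.min'_mem _ hne)).2
    generalize Finset.min' _ hne = k at hk
    have h4 : Finsupp.single k e ≤ d := Finsupp.single_le_iff.mpr hk
    have h5 : ∏ j, Q j ^ d j = (∏ j, Q j ^ (d - Finsupp.single k e : Fin N →₀ ℕ) j) * Q k ^ e := by
      have h3 : ∏ j, Q j ^ (Finsupp.single k e : Fin N →₀ ℕ) j = Q k ^ e := by
        rw [Finset.prod_eq_single k]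
        · simp
        · intro j _ hj
          rw [Finsupp.single_eq_of_ne hj, pow_zero]
        · simp
      conv_lhs => rw [← tsub_add_cancel_of_le h4]
      simp only [Finsupp.add_apply, pow_add, Finset.prod_mul_distrib, h3]
    obtain ⟨y, hy⟩ := h k
    refine ⟨-((∏ j, Q j ^ (d - Finsupp.single k e : Fin N →₀ ℕ) j) * y), ?_⟩
    rw [eval₂_mul, hm, h5]
    linear_combination -(∏ j, Q j ^ (d - Finsupp.single k e : Fin N →₀ ℕ) j) * hy
  · obtain ⟨y, hy⟩ := h0
    refine ⟨-((∏ j, Q j ^ d j) * y), ?_⟩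
    rw [eval₂_mul, hm]
    linear_combination -(∏ j, Q j ^ d j) * hy

theorem dvd_det {R ι : Type} [CommRing R] [Fintype ι] [DecidableEq ι] (M : Matrix ι ι R)
    (v : ι → R) (i0 : ι) (hv : v i0 = 1) (T : R) (h : ∀ i, T ∣ M.mulVec v i) : T ∣ M.det := by
  have h1 : (M.adjugate.mulVec (M.mulVec v)) i0 = M.det := by
    rw [Matrix.mulVec_mulVec, Matrix.adjugate_mul, Matrix.smul_mulVec, Matrix.one_mulVec,
      Pi.smul_apply, hv, smul_eq_mul, mul_one]
  rw [← h1]
  exact Finset.dvd_sum fun j _ => (h j).mul_left _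

theorem dvd_charpoly {R : Type} [CommRing R] (ψ : B →+* R) (Q : Fin N → R) (t T : R)
    (f0 : MvPolynomial (Fin N) B) (f : Fin N → MvPolynomial (Fin N) B)
    (h0 : T ∣ eval₂ ψ Q f0 - t) (h : ∀ k, T ∣ eval₂ ψ Q (f k) - t * Q k ^ degBound f0 f) :
    T ∣ Polynomial.eval₂ ψ t (macaulay f0 f).charpoly := by
  obtain ⟨μ0, hμ0⟩ := exp_surj (D := (N + 1) * degBound f0 f) (0 : Fin N →₀ ℕ) (by simp)
  have e1 : Polynomial.eval₂ ψ t (macaulay f0 f).charpoly =
      ((Polynomial.eval₂RingHom ψ t).mapMatrix (macaulay f0 f).charmatrix).det := by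
    rw [← RingHom.map_det]; rfl
  rw [e1]
  refine dvd_det _ (fun ν => ∏ k, Q k ^ ν.exp k) μ0 (by simp [hμ0]) T fun μ => ?_
  have e2 : ((Polynomial.eval₂RingHom ψ t).mapMatrix (macaulay f0 f).charmatrix).mulVec
      (fun ν => ∏ k, Q k ^ ν.exp k) μ =
      t * ∏ k, Q k ^ μ.exp k - eval₂ ψ Q (row f0 f (degBound f0 f) μ.exp) := by
    rw [← sum_eq ψ Q _ (row_deg f0 f μ)]
    have e3 : ∀ ν, ((Polynomial.eval₂RingHom ψ t).mapMatrix (macaulay f0 f).charmatrix) μ ν =
        (if μ = ν then t else 0) - ψ (coeff ν.exp (row f0 f (degBound f0 f) μ.exp)) := by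
      intro ν
      rw [RingHom.mapMatrix_apply, Matrix.map_apply, Matrix.charmatrix_apply, map_sub,
        Matrix.diagonal_apply]
      split_ifs <;> simp [macaulay]
    simp only [Matrix.mulVec, dotProduct, e3, sub_mul, Finset.sum_sub_distrib, ite_mul, zero_mul,
      Finset.sum_ite_eq, Finset.mem_univ, if_true]
  rw [e2]
  exact row_dvd ψ Q t T f0 f _ h0 h _

end Rows

end CannyAux

theorem eliminant_ne_zero {A : Type} [CommRing A] [Nontrivial A] {N : ℕ}
    (f0 : MvPolynomial (Fin N) A) (f : Fin N → MvPolynomial (Fin N) A) : eliminant f0 f ≠ 0 :=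
  fun h => (Matrix.charpoly_monic _).ne_zero (Polynomial.trailingCoeff_eq_zero.mp h)

theorem canny {A L : Type} [CommRing A] [Field L] {N : ℕ} (φ : A →+* L) (w : L) (P : Fin N → L)
    (f0 : MvPolynomial (Fin N) (Polynomial A)) (f : Fin N → MvPolynomial (Fin N) (Polynomial A))
    (h0 : eval₂ (Polynomial.eval₂RingHom φ w) P f0 = 0)
    (h : ∀ j, eval₂ (Polynomial.eval₂RingHom φ w) P (f j) = 0)
    (rig : ∀ (w' : L) (P' : Fin N → L),
      eval₂ (Polynomial.eval₂RingHom (inD.comp φ) (dn w w')) (fun j => dn (P j) (P' j)) f0 = 0 →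
      (∀ i, eval₂ (Polynomial.eval₂RingHom (inD.comp φ) (dn w w')) (fun j => dn (P j) (P' j))
        (f i) = 0) → w' = 0 ∧ P' = 0) :
    Polynomial.eval₂ φ w (eliminant f0 f) = 0 := by
  unfold eliminant
  obtain ⟨W, Q, hW, -, a0, a⟩ := CannyAux.hensel φ w P f0 f h0 h rig (degBound f0 f)
    (macaulay f0 f).charpoly.natTrailingDegree
  have hd := CannyAux.dvd_charpoly (Polynomial.eval₂RingHom (Polynomial.C.comp φ) W) Q
    Polynomial.X _ f0 f a0 a
  generalize (macaulay f0 f).charpoly = χ at hd ⊢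
  obtain ⟨g, hg⟩ : Polynomial.X ^ χ.natTrailingDegree ∣ χ :=
    Polynomial.X_pow_dvd_iff.mpr fun d hd => Polynomial.coeff_eq_zero_of_lt_natTrailingDegree hd
  have hc : χ.trailingCoeff = g.coeff 0 := by
    have := Polynomial.coeff_X_pow_mul g χ.natTrailingDegree 0
    rw [← hg, zero_add] at this
    exact this
  rw [hc]
  generalize χ.natTrailingDegree = n at hd hg
  subst hg
  rw [Polynomial.eval₂_mul, Polynomial.eval₂_X_pow, pow_succ,
    mul_dvd_mul_iff_left (pow_ne_zero n Polynomial.X_ne_zero), ← Polynomial.X_mul_divX_add g,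
    Polynomial.eval₂_add, Polynomial.eval₂_mul, Polynomial.eval₂_X, Polynomial.eval₂_C,
    dvd_add_right (dvd_mul_right _ _), Polynomial.X_dvd_iff] at hd
  have := CannyAux.dvd_const φ W (fun _ : Fin 0 => 0) (C (g.coeff 0))
  simp only [CannyAux.ev, eval₂Hom_C, hW] at this
  rw [this] at hd
  exact hd

end Pool.Agent.P.MP_48bde8_co
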