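import Pool.Agent.P.MP_48bde8_co.Reg

/-! Task CLUS: the cluster method for a finite family of pairs of sets. -/

namespace Pool.Agent.P.MP_48bde8_co

open Equiv Finset
open scoped Classical

variable {P : Type} [Fintype P]

set_option linter.unusedSectionVars false

theorem mem_sup_fst {C : Finset (Rg P)} {p : P} : p ∈ (C.sup id).1 ↔ ∃ R ∈ C, p ∈ R.1 := by
  induction C using Finset.induction_on with
  | empty => simp
  | insert R C _ ih => simp only [Finset.sup_insert, Prod.fst_sup, Finset.sup_eq_union,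
      Finset.mem_union, ih, id, Finset.mem_insert, exists_eq_or_imp]

theorem mem_sup_snd {C : Finset (Rg P)} {p : P} : p ∈ (C.sup id).2 ↔ ∃ R ∈ C, p ∈ R.2 := by
  induction C using Finset.induction_on with
  | empty => simp
  | insert R C _ ih => simp only [Finset.sup_insert, Prod.snd_sup, Finset.sup_eq_union,
      Finset.mem_union, ih, id, Finset.mem_insert, exists_eq_or_imp]

theorem ov_sup_iff {C : Finset (Rg P)} {S : Rg P} : Ov S (C.sup id) ↔ ∃ R ∈ C, Ov S R := by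
  simp only [Ov, Finset.not_disjoint_iff, mem_sup_fst]
  constructor
  · rintro ⟨p, hp, R, hR, h⟩
    exact ⟨R, hR, p, hp, h⟩
  · rintro ⟨R, hR, p, hp, h⟩
    exact ⟨p, hp, R, hR, h⟩

namespace Clus

theorem ov_symm {R S : Rg P} (h : Ov R S) : Ov S R := fun h' => h h'.symm

theorem ov_of_mem {R S : Rg P} {q : P} (h : q ∈ R.1) (h' : q ∈ S.1) : Ov R S :=
  Finset.not_disjoint_iff.2 ⟨q, h, h'⟩

theorem cross {C : Finset (Rg P)} (hC : OConn C) {Y S : Rg P} (hY : Y ∈ C) (hS : S ∈ C)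
    (p : Rg P → Prop) (h1 : p Y) (h2 : ¬ p S) : ∃ X ∈ C, ∃ Z ∈ C, p X ∧ ¬ p Z ∧ Ov Z X := by
  by_contra hc
  have h3 : ∀ a b, Relation.EqvGen (fun X Y => X ∈ C ∧ Y ∈ C ∧ Ov X Y) a b → (p a ↔ p b) := by
    intro a b h
    induction h with
    | rel a b h =>
      constructor
      · intro ha
        by_contra hb
        exact hc ⟨a, h.1, b, h.2.1, ha, hb, ov_symm h.2.2⟩
      · intro hb
        by_contra ha
        exact hc ⟨b, h.2.1, a, h.1, hb, ha, h.2.2⟩
    | refl a => rfl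
    | symm a b _ ih => exact ih.symm
    | trans a b c _ _ ih ih' => exact ih.trans ih'
  exact h2 ((h3 Y S (hC.2 Y hY S hS)).1 h1)

theorem oconn_single (R : Rg P) : OConn ({R} : Finset (Rg P)) := by
  refine ⟨Finset.singleton_nonempty R, fun X hX Y hY => ?_⟩
  rw [Finset.mem_singleton.1 hX, Finset.mem_singleton.1 hY]
  exact Relation.EqvGen.refl _

theorem oconn_insert {D : Finset (Rg P)} (hD : OConn D) {R : Rg P} (h : Ov R (D.sup id)) :
    OConn (insert R D) := by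
  obtain ⟨Y, hY, h⟩ := ov_sup_iff.1 h
  have h1 : ∀ X ∈ insert R D,
      Relation.EqvGen (fun X Y => X ∈ insert R D ∧ Y ∈ insert R D ∧ Ov X Y) X Y := by
    intro X hX
    rcases Finset.mem_insert.1 hX with rfl | hX
    · exact Relation.EqvGen.rel _ _ ⟨hX, Finset.mem_insert_of_mem hY, h⟩
    · exact Relation.EqvGen.mono (fun a b hab => ⟨Finset.mem_insert_of_mem hab.1,
        Finset.mem_insert_of_mem hab.2.1, hab.2.2⟩) _ _ (hD.2 X hX Y hY)
  exact ⟨Finset.insert_nonempty _ _, fun X hX Z hZ =>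
    Relation.EqvGen.trans _ _ _ (h1 X hX) (Relation.EqvGen.symm _ _ (h1 Z hZ))⟩

theorem oconn_of_hub {C : Finset (Rg P)} {S : Rg P} (hS : S ∈ C) (h : ∀ M ∈ C, Ov S M) :
    OConn C := by
  have h1 : ∀ X ∈ C, Relation.EqvGen (fun X Y => X ∈ C ∧ Y ∈ C ∧ Ov X Y) S X :=
    fun X hX => Relation.EqvGen.rel _ _ ⟨hS, hX, h X hX⟩
  exact ⟨⟨S, hS⟩, fun X hX Z hZ =>
    Relation.EqvGen.trans _ _ _ (Relation.EqvGen.symm _ _ (h1 X hX)) (h1 Z hZ)⟩

theorem exists_comp {A : Finset (Rg P)} {Y : Rg P} (hY : Y ∈ A) :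
    ∃ D ⊆ A, Y ∈ D ∧ OConn D ∧ ∀ S ∈ A, Ov S (D.sup id) → S ∈ D := by
  obtain ⟨D, hD, hm⟩ := Finset.exists_max_image (A.powerset.filter fun D => Y ∈ D ∧ OConn D)
    Finset.card ⟨{Y}, by simp [hY, oconn_single]⟩
  rw [Finset.mem_filter, Finset.mem_powerset] at hD
  refine ⟨D, hD.1, hD.2.1, hD.2.2, fun S hS h => ?_⟩
  by_contra hc
  have h1 := hm (insert S D) (by
    rw [Finset.mem_filter, Finset.mem_powerset]
    exact ⟨Finset.insert_subset hS hD.1, Finset.mem_insert_of_mem hD.2.1,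
      oconn_insert hD.2.2 h⟩)
  rw [Finset.card_insert_of_notMem hc] at h1
  omega

theorem sub_of_closed {C D : Finset (Rg P)} (hC : OConn C) {Y : Rg P} (hY : Y ∈ C) (hY' : Y ∈ D)
    (h : ∀ S ∈ C, Ov S (D.sup id) → S ∈ D) : C ⊆ D := by
  intro S hS
  by_contra hc
  obtain ⟨X, -, Z, hZ, h1, h2, h3⟩ := cross hC hY hS (· ∈ D) hY' hc
  exact h2 (h Z hZ (ov_sup_iff.2 ⟨X, h1, h3⟩))

theorem ov_self {C : Finset (Rg P)} (hC : OConn C) {q : P} (hq : q ∈ (C.sup id).1) {S : Rg P}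
    (hS : S ∈ C) : Ov S (C.sup id) := by
  obtain ⟨R, hR, hq⟩ := mem_sup_fst.1 hq
  by_cases h : R = S
  · subst h
    exact ov_sup_iff.2 ⟨R, hR, ov_of_mem hq hq⟩
  · obtain ⟨X, -, Z, hZ, h1, -, h3⟩ := cross hC hS hR (· = S) rfl h
    exact ov_sup_iff.2 ⟨Z, hZ, h1 ▸ ov_symm h3⟩

theorem sum_fib (F : Finset (Rg P)) (p : Rg P → Prop) [DecidablePred p] :
    (∑ R ∈ univ.filter p, if Dom F R then clF F R else 0) =
      ∑ C ∈ F.powerset.filter (fun C => OConn C ∧ p (C.sup id) ∧ Dom F (C.sup id)),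
        (-1 : ℤ) ^ C.card := by
  have h1 : ∀ R : Rg P, (if p R then (if Dom F R then clF F R else 0) else 0) =
      ∑ C ∈ F.powerset, if C.sup id = R then
        (if OConn C ∧ p (C.sup id) ∧ Dom F (C.sup id) then (-1 : ℤ) ^ C.card else 0) else 0 := by
    intro R
    by_cases h : p R ∧ Dom F R
    · rw [if_pos h.1, if_pos h.2, clF, Finset.sum_filter]
      refine Finset.sum_congr rfl fun C _ => ?_
      by_cases h2 : C.sup id = R
      · simp [h2, h.1, h.2]
      · simp [h2]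
    · rw [Finset.sum_eq_zero]
      · by_cases h2 : p R
        · rw [if_pos h2, if_neg fun h3 => h ⟨h2, h3⟩]
        · rw [if_neg h2]
      · intro C _
        by_cases h2 : C.sup id = R
        · rw [if_pos h2, if_neg fun h3 => h (h2 ▸ h3.2)]
        · rw [if_neg h2]
  rw [Finset.sum_filter, Finset.sum_filter, Finset.sum_congr rfl fun R _ => h1 R, Finset.sum_comm]
  refine Finset.sum_congr rfl fun C _ => ?_
  rw [Finset.sum_ite_eq, if_pos (Finset.mem_univ _)]

theorem sum_pow (F : Finset (Rg P)) (p : Rg P → Prop) [DecidablePred p] :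
    (∑ C ∈ F.powerset, if ∀ S ∈ C, p S then (-1 : ℤ) ^ C.card else 0) =
      if ∀ S ∈ F, ¬ p S then 1 else 0 := by
  have h1 : F.powerset.filter (fun C => ∀ S ∈ C, p S) = (F.filter p).powerset := by
    ext C
    simp only [Finset.mem_filter, Finset.mem_powerset, Finset.subset_iff]
    exact ⟨fun h S hS => ⟨h.1 hS, h.2 S hS⟩, fun h => ⟨fun S hS => (h hS).1, fun S hS => (h hS).2⟩⟩
  rw [← Finset.sum_filter, h1, Finset.sum_powerset_neg_one_pow_card]
  simp only [Finset.filter_eq_empty_iff]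

/-- `C` is the cluster of `q` inside `A`. -/
def IsC (q : P) (A C : Finset (Rg P)) : Prop :=
  C ⊆ A ∧ OConn C ∧ q ∈ (C.sup id).1 ∧ ∀ S ∈ A, Ov S (C.sup id) → S ∈ C

theorem isC_one (F : Finset (Rg P)) (q : P) {A : Finset (Rg P)} (hA : A ⊆ F) (x : ℤ) :
    x = (if ∀ S ∈ A, q ∉ S.1 then x else 0) + ∑ C ∈ F.powerset, if IsC q A C then x else 0 := by
  by_cases h : ∀ S ∈ A, q ∉ S.1
  · rw [if_pos h, Finset.sum_eq_zero, add_zero]
    intro C _
    refine if_neg fun hc => ?_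
    obtain ⟨R, hR, h1⟩ := mem_sup_fst.1 hc.2.2.1
    exact h R (hc.1 hR) h1
  · rw [if_neg h, zero_add]
    simp only [not_forall, not_not] at h
    obtain ⟨Y, hY, hq⟩ := h
    obtain ⟨D, h1, h2, h3, h4⟩ := exists_comp hY
    have hD : IsC q A D := ⟨h1, h3, mem_sup_fst.2 ⟨Y, h2, hq⟩, h4⟩
    rw [Finset.sum_eq_single D, if_pos hD]
    · intro C _ hne
      refine if_neg fun hc => hne ?_
      obtain ⟨R, hR, h5⟩ := mem_sup_fst.1 hc.2.2.1
      have h6 : Y ∈ C := hc.2.2.2 Y hY (ov_sup_iff.2 ⟨R, hR, ov_of_mem hq h5⟩)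
      exact Finset.Subset.antisymm
        (sub_of_closed hc.2.1 h6 h2 fun S hS => h4 S (hc.1 hS))
        (sub_of_closed h3 h2 h6 fun S hS => hc.2.2.2 S (h1 hS))
    · intro hn
      exact absurd (Finset.mem_powerset.2 (h1.trans hA)) hn

theorem isC_fib (F : Finset (Rg P)) (q : P) {C : Finset (Rg P)} (hC : C ⊆ F) :
    (∑ A ∈ F.powerset, if IsC q A C then (-1 : ℤ) ^ A.card else 0) =
      if OConn C ∧ q ∈ (C.sup id).1 ∧ Dom F (C.sup id) then (-1 : ℤ) ^ C.card else 0 := by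
  by_cases h : OConn C ∧ q ∈ (C.sup id).1
  · have h1 : (∑ A ∈ F.powerset, if IsC q A C then (-1 : ℤ) ^ A.card else 0) =
        ∑ B ∈ F.powerset, if ∀ S ∈ B, ¬ Ov S (C.sup id) then
          (-1 : ℤ) ^ C.card * (-1 : ℤ) ^ B.card else 0 := by
      rw [← Finset.sum_filter, ← Finset.sum_filter]
      refine Finset.sum_bij' (fun A _ => A \ C) (fun B _ => C ∪ B) ?_ ?_ ?_ ?_ ?_
      · intro A hA
        rw [Finset.mem_filter, Finset.mem_powerset] at hA ⊢
        refine ⟨Finset.sdiff_subset.trans hA.1, fun S hS h2 => ?_⟩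
        rw [Finset.mem_sdiff] at hS
        exact hS.2 (hA.2.2.2.2 S hS.1 h2)
      · intro B hB
        rw [Finset.mem_filter, Finset.mem_powerset] at hB ⊢
        refine ⟨Finset.union_subset hC hB.1, Finset.subset_union_left, h.1, h.2,
          fun S hS h2 => ?_⟩
        exact (Finset.mem_union.1 hS).resolve_right fun h3 => hB.2 S h3 h2
      · intro A hA
        rw [Finset.mem_filter] at hA
        exact Finset.union_sdiff_of_subset hA.2.1
      · intro B hB
        rw [Finset.mem_filter] at hB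
        rw [Finset.union_sdiff_left, Finset.sdiff_eq_self_iff_disjoint, Finset.disjoint_left]
        exact fun S hS hS' => hB.2 S hS (ov_self h.1 h.2 hS')
      · intro A hA
        rw [Finset.mem_filter] at hA
        rw [← pow_add, add_comm, Finset.card_sdiff_add_card_eq_card hA.2.1]
    have h2 := sum_pow F fun S => ¬ Ov S (C.sup id)
    have h3 : ∀ B : Finset (Rg P), (if ∀ S ∈ B, ¬ Ov S (C.sup id) then
        (-1 : ℤ) ^ C.card * (-1 : ℤ) ^ B.card else 0) = (-1 : ℤ) ^ C.card *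
        (if ∀ S ∈ B, ¬ Ov S (C.sup id) then (-1 : ℤ) ^ B.card else 0) := by
      intro B
      split_ifs <;> simp
    rw [h1, Finset.sum_congr rfl fun B _ => h3 B, ← Finset.mul_sum, h2]
    by_cases h4 : Dom F (C.sup id)
    · rw [if_pos fun S hS => not_not.2 (h4 S hS), if_pos ⟨h.1, h.2, h4⟩, mul_one]
    · rw [if_neg fun h5 => h4 fun S hS => not_not.1 (h5 S hS), if_neg fun h5 => h4 h5.2.2, mul_zero]
  · rw [if_neg fun h1 => h ⟨h1.1, h1.2.1⟩]
    exact Finset.sum_eq_zero fun A _ => if_neg fun h1 => h ⟨h1.2.1, h1.2.2.1⟩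

theorem sgn_gen (F : Finset (Rg P)) (h : P) :
    sgnF F h = (if genu F h = ∅ then 1 else 0) -
      ∑ C ∈ (genu F h).powerset.filter (fun C => OConn C ∧ Dom F (C.sup id)),
        (-1 : ℤ) ^ C.card := by
  have hg : genu F h ⊆ F := Finset.filter_subset _ _
  have h1 : (genu F h).powerset.filter (fun C => OConn C ∧ Dom F (C.sup id)) =
      F.powerset.filter (fun C => C ⊆ genu F h ∧ OConn C ∧ Dom F (C.sup id)) := by
    ext C
    simp only [Finset.mem_filter, Finset.mem_powerset]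
    exact ⟨fun h => ⟨h.1.trans hg, h⟩, fun h => h.2⟩
  have h2 := sum_pow F fun S => h ∉ S.1
  have h3 := sum_pow F fun S => S ∈ genu F h
  have h4 : (∀ S ∈ F, ¬ S ∈ genu F h) ↔ genu F h = ∅ :=
    ⟨fun h4 => Finset.eq_empty_of_forall_notMem fun S hS => h4 S (hg hS) hS,
      fun h4 S _ => h4 ▸ Finset.notMem_empty S⟩
  simp only [not_not] at h2
  simp only [h4] at h3
  rw [sgnF, sum_fib, h1, ← h2, ← h3, Finset.sum_filter, Finset.sum_filter,
    ← Finset.sum_sub_distrib, ← Finset.sum_sub_distrib]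
  refine Finset.sum_congr rfl fun C hC => ?_
  rw [Finset.mem_powerset] at hC
  have h5 : h ∉ (C.sup id).1 ↔ ∀ S ∈ C, h ∉ S.1 := by
    rw [mem_sup_fst]
    exact ⟨fun h5 S hS h6 => h5 ⟨S, hS, h6⟩, fun h5 ⟨S, hS, h6⟩ => h5 S hS h6⟩
  by_cases h6 : C ⊆ genu F h
  · have h7 : ∀ S ∈ C, h ∉ S.1 := fun S hS => (Finset.mem_filter.1 (h6 hS)).2.1
    rw [if_pos h7, if_pos fun S hS => h6 hS]
    simp only [h5.2 h7, h6, true_and, not_false_eq_true]
  · rw [if_neg (show ¬ ∀ S ∈ C, S ∈ genu F h from h6), if_neg fun h7 : C ⊆ _ ∧ _ => h6 h7.1]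
    by_cases h7 : ∀ S ∈ C, h ∉ S.1
    · obtain ⟨S, hS, h8⟩ := Finset.not_subset.1 h6
      have h9 : ∀ M ∈ F, Ov S M := fun M hM => by
        by_contra hc
        exact h8 (Finset.mem_filter.2 ⟨hC hS, h7 S hS, M, hM, hc⟩)
      rw [if_pos h7, if_pos ⟨oconn_of_hub hS fun M hM => h9 M (hC hM), h5.2 h7,
        fun M hM => ov_sup_iff.2 ⟨S, hS, ov_symm (h9 M hM)⟩⟩]
      simp
    · rw [if_neg h7, if_neg fun h8 => h7 (h5.1 h8.2.1)]

end Clus

open Clus

/-- Induction along a cluster. -/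
theorem OConn.induction {C : Finset (Rg P)} (hC : OConn C) {Q : Finset (Rg P) → Prop}
    (h1 : ∀ R ∈ C, Q {R})
    (h2 : ∀ D ⊆ C, ∀ R ∈ C, R ∉ D → OConn D → Ov R (D.sup id) → Q D → Q (insert R D)) : Q C := by
  obtain ⟨Y, hY⟩ := hC.1
  obtain ⟨D, hD, hm⟩ := Finset.exists_max_image
    (C.powerset.filter fun D => Y ∈ D ∧ OConn D ∧ Q D)
    Finset.card ⟨{Y}, by simp [hY, oconn_single, h1 Y hY]⟩
  rw [Finset.mem_filter, Finset.mem_powerset] at hD
  have h3 : C ⊆ D := by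
    refine sub_of_closed hC hY hD.2.1 fun S hS h => ?_
    by_contra hc
    have h4 := hm (insert S D) (by
      rw [Finset.mem_filter, Finset.mem_powerset]
      exact ⟨Finset.insert_subset hS hD.1, Finset.mem_insert_of_mem hD.2.1,
        oconn_insert hD.2.2.1 h, h2 D hD.1 S hS hc hD.2.2.1 h hD.2.2.2⟩)
    rw [Finset.card_insert_of_notMem hc] at h4
    omega
  rw [Finset.Subset.antisymm h3 hD.1]
  exact hD.2.2.2

theorem clF_filter (F : Finset (Rg P)) (R : Rg P) : clF F R = clF (F.filter (· ≤ R)) R := by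
  unfold clF
  congr 1
  ext C
  simp only [Finset.mem_filter, Finset.mem_powerset]
  constructor
  · rintro ⟨h1, h2, h3⟩
    exact ⟨fun S hS => Finset.mem_filter.2 ⟨h1 hS, h3 ▸ Finset.le_sup (f := id) hS⟩, h2, h3⟩
  · rintro ⟨h1, h2⟩
    exact ⟨h1.trans (Finset.filter_subset _ _), h2⟩

theorem exists_of_clF_ne {F : Finset (Rg P)} {R : Rg P} (h : clF F R ≠ 0) :
    ∃ C ⊆ F, OConn C ∧ C.sup id = R := by
  obtain ⟨C, hC, -⟩ := Finset.exists_ne_zero_of_sum_ne_zero h
  rw [Finset.mem_filter, Finset.mem_powerset] at hC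
  exact ⟨C, hC⟩

/-- The cluster expansion at a point `q`. -/
theorem cluster_id (F : Finset (Rg P)) (q : P) :
    (if F = ∅ then 1 else 0 : ℤ) = (if ∀ S ∈ F, q ∈ S.1 then 1 else 0) +
      ∑ R ∈ univ.filter (fun R : Rg P => q ∈ R.1), if Dom F R then clF F R else 0 := by
  have h2 := sum_pow F fun S => q ∉ S.1
  simp only [not_not] at h2
  rw [sum_fib, ← h2, ← Finset.sum_powerset_neg_one_pow_card,
    Finset.sum_congr rfl fun A hA => isC_one F q (Finset.mem_powerset.1 hA) _,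
    Finset.sum_add_distrib, Finset.sum_comm, Finset.sum_filter]
  congr 1
  exact Finset.sum_congr rfl fun C hC => isC_fib F q (Finset.mem_powerset.1 hC)

theorem sgnF_of_all {F : Finset (Rg P)} (h : P) (hall : ∀ S ∈ F, ∀ S' ∈ F, Ov S S') :
    sgnF F h = 1 := by
  have h1 : genu F h = ∅ := Finset.filter_eq_empty_iff.2 fun S hS ⟨_, S', hS', h2⟩ =>
    h2 (hall S hS S' hS')
  rw [sgn_gen, if_pos h1, h1, Finset.sum_eq_zero, sub_zero]
  intro C hC
  rw [Finset.mem_filter, Finset.mem_powerset, Finset.subset_empty] at hC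
  exact absurd hC.2.1.1 (hC.1 ▸ Finset.not_nonempty_empty)

theorem sgnF_eq {F : Finset (Rg P)} (hne : ∀ S ∈ F, S.1.Nonempty) (h : P)
    (hall : ¬ ∀ S ∈ F, ∀ S' ∈ F, Ov S S') :
    sgnF F h = - ∑ C ∈ (genu F h).powerset.filter (fun C => OConn C ∧ Dom F (C.sup id)),
      (-1 : ℤ) ^ C.card := by
  have _ := hne
  simp only [not_forall] at hall
  obtain ⟨S, hS, S', hS', h1⟩ := hall
  rw [sgn_gen, if_neg, zero_sub]
  rw [← Ne, ← Finset.nonempty_iff_ne_empty]
  by_cases h2 : h ∈ S.1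
  · exact ⟨S', Finset.mem_filter.2 ⟨hS', fun h3 => h1 (ov_of_mem h2 h3), S, hS,
      fun h3 => h1 (ov_symm h3)⟩⟩
  · exact ⟨S, Finset.mem_filter.2 ⟨hS, h2, S', hS', h1⟩⟩

/-- Cone vertex. -/
theorem sum_cone {F : Finset (Rg P)} (hne : ∀ S ∈ F, S.1.Nonempty) {h : P} {S S' : Rg P}
    (hS : S ∈ F) (hh : h ∉ S.1) (hS' : S' ∈ F) (hd : ¬ Ov S S')
    (hno : ∀ C ⊆ genu F h, OConn C → Ov S (C.sup id) → Ov S' (C.sup id) →
      ∀ M ∈ F, Ov M S → Ov M (C.sup id)) :
    ∑ C ∈ (genu F h).powerset.filter (fun C => OConn C ∧ Dom F (C.sup id)),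
      (-1 : ℤ) ^ C.card = 0 := by
  have _ := hne
  have hg : genu F h ⊆ F := Finset.filter_subset _ _
  have hSg : S ∈ genu F h := Finset.mem_filter.2 ⟨hS, hh, S', hS', hd⟩
  refine Finset.sum_involution (fun C _ => if S ∈ C then C.erase S else insert S C) ?_ ?_ ?_ ?_
  · intro C _
    by_cases h1 : S ∈ C
    · rw [if_pos h1, ← Finset.card_erase_add_one h1, pow_succ]
      ring
    · rw [if_neg h1, Finset.card_insert_of_notMem h1, pow_succ]
      ring
  · intro C _ _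
    by_cases h1 : S ∈ C
    · rw [if_pos h1]
      exact fun h2 => Finset.notMem_erase S C (h2.symm ▸ h1)
    · rw [if_neg h1]
      exact fun h2 => h1 (h2 ▸ Finset.mem_insert_self S C)
  · intro C hC
    rw [Finset.mem_filter, Finset.mem_powerset] at hC ⊢
    obtain ⟨hC, hc, hD⟩ := hC
    by_cases h1 : S ∈ C
    · rw [if_pos h1]
      obtain ⟨Y, hY, h2⟩ := ov_sup_iff.1 (hD S' hS')
      have h3 : Y ∈ C.erase S := Finset.mem_erase.2 ⟨fun h3 => hd (h3 ▸ ov_symm h2), hY⟩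
      obtain ⟨D, h4, h5, h6, h7⟩ := exists_comp h3
      have h8 : Ov S (D.sup id) := by
        by_contra h8
        have h9 : C ⊆ D := sub_of_closed hc hY h5 fun M hM h9 =>
          h7 M (Finset.mem_erase.2 ⟨fun h10 => h8 (h10 ▸ h9), hM⟩) h9
        exact Finset.notMem_erase S C (h4 (h9 h1))
      have h9 := hno D ((h4.trans (Finset.erase_subset _ _)).trans hC) h6 h8
        (ov_sup_iff.2 ⟨Y, h5, h2⟩)
      have h10 : C ⊆ insert S D := by
        refine sub_of_closed hc h1 (Finset.mem_insert_self _ _) fun M hM h10 => ?_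
        by_cases h11 : M = S
        · exact h11 ▸ Finset.mem_insert_self _ _
        · refine Finset.mem_insert_of_mem (h7 M (Finset.mem_erase.2 ⟨h11, hM⟩) ?_)
          obtain ⟨R, hR, h12⟩ := ov_sup_iff.1 h10
          rcases Finset.mem_insert.1 hR with rfl | hR
          · exact h9 M (hg (hC hM)) h12
          · exact ov_sup_iff.2 ⟨R, hR, h12⟩
      have h11 : C.erase S = D := Finset.Subset.antisymm (fun M hM =>
        (Finset.mem_insert.1 (h10 (Finset.mem_of_mem_erase hM))).resolve_left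
          (Finset.ne_of_mem_erase hM)) h4
      refine ⟨(Finset.erase_subset _ _).trans hC, h11 ▸ h6, fun M hM => ?_⟩
      rw [h11]
      obtain ⟨R, hR, h12⟩ := ov_sup_iff.1 (hD M hM)
      rcases Finset.mem_insert.1 (h10 hR) with rfl | hR
      · exact h9 M hM h12
      · exact ov_sup_iff.2 ⟨R, hR, h12⟩
    · rw [if_neg h1]
      refine ⟨Finset.insert_subset hSg hC, oconn_insert hc (hD S hS), fun M hM => ?_⟩
      obtain ⟨R, hR, h2⟩ := ov_sup_iff.1 (hD M hM)
      exact ov_sup_iff.2 ⟨R, Finset.mem_insert_of_mem hR, h2⟩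
  · intro C _
    by_cases h1 : S ∈ C
    · simp only [if_pos h1, if_neg (Finset.notMem_erase S C), Finset.insert_erase h1]
    · simp only [if_neg h1, if_pos (Finset.mem_insert_self S C), Finset.erase_insert h1]

end Pool.Agent.P.MP_48bde8_co
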