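import Pool.Agent.P.MP_48bde8_co.Trans

/-! Task CONTR: contraction of a disc. -/

namespace Pool.Agent.P.MP_48bde8_co

open Equiv Finset
open scoped Classical

variable {P : Type} [Fintype P] {K : Type} [CommRing K] (x z : K)

namespace Amb

variable {A : Amb P} {ρ g : Perm P} {V I : Finset P}

theorem contr_pi (hA : A.OK) (hV : ∀ p ∈ V, A.π p ∈ V) (hρ : ∀ p ∈ A.dt \ V, ρ p = p)
    (hI : Disjoint I (A.dt \ V)) {p : P} (hp : p ∈ A.dt \ V) :
    (A.red ρ V I).π p = A.π p ∧ A.π p ∈ A.dt \ V := by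
  have h1 := hA.2.2 p (mem_sdiff.1 hp).1
  have h2 : A.π p ∈ A.dt \ V :=
    mem_sdiff.2 ⟨h1.1, fun h => (mem_sdiff.1 hp).2 (h1.2.1 ▸ hV _ h)⟩
  have h3 : (A.π * ρ) p = A.π p := by rw [Perm.mul_apply, hρ p hp]
  refine ⟨?_, h2⟩
  show skip (A.π * ρ) I p = A.π p
  rw [skip_one (fun h => disjoint_left.1 hI h hp) (by rw [h3]; exact fun h => disjoint_left.1 hI h h2),
    h3]

omit [Fintype P] in
theorem contr_mem {g : Perm P} {J : Finset P} (hg : ∀ p ∈ J, g p = p) {p : P} :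
    g p ∈ J ↔ p ∈ J :=
  ⟨fun h => g.injective (hg _ h) ▸ h, fun h => (hg p h).symm ▸ h⟩

omit [Fintype P] in
theorem contr_mem' {g : Perm P} {J : Finset P} (hg : ∀ p, p ∉ J → g p = p) {p : P} (hp : p ∈ J) :
    g p ∈ J := by
  by_contra h
  exact h ((g.injective (hg _ h)).symm ▸ hp)

theorem red_ok (hA : A.OK) (hV : ∀ p ∈ V, A.π p ∈ V) (hρU : ∀ p ∈ A.U, ρ p ∈ A.U)
    (hρ : ∀ p ∈ A.dt \ V, ρ p = p) (hI : Disjoint I (A.dt \ V)) : (A.red ρ V I).OK := by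
  refine ⟨fun p hp => ?_, fun p hp => ?_, fun p hp => ?_⟩
  · have hp' : p ∈ A.U \ I := hp
    rw [mem_sdiff] at hp'
    exact mem_sdiff.2 ⟨skip_mem_of_closed I (J := A.U) (fun q hq => hA.1 (ρ q) (hρU q hq)) hp'.1,
      skip_not_mem _ hp'.2⟩
  · have hp' : p ∈ A.dt \ V := hp
    exact mem_sdiff.2 ⟨hA.2.1 (mem_sdiff.1 hp').1, fun h => disjoint_left.1 hI h hp'⟩
  · have hp' : p ∈ A.dt \ V := hp
    obtain ⟨h1, h2⟩ := contr_pi hA hV hρ hI hp'
    obtain ⟨h3, -⟩ := contr_pi hA hV hρ hI h2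
    have h4 := hA.2.2 p (mem_sdiff.1 hp').1
    refine ⟨?_, ?_, ?_⟩
    · rw [h1]; exact h2
    · rw [h1, h3]; exact h4.2.1
    · rw [h1]; exact h4.2.2

/-- Divergent regions away from the removed part. -/
theorem red_div (hA : A.OK) (hV : ∀ p ∈ V, A.π p ∈ V) (hρ : ∀ p ∈ A.dt \ V, ρ p = p)
    (hI : Disjoint I (A.dt \ V)) (g : Perm P) (R : Rg P) :
    (A.red ρ V I).Div g R ↔ A.Div (ρ * g) R ∧ Disjoint R.1 V := by
  have key : (∀ p ∈ R.1, p ∈ A.dt \ V) → R.2 ⊆ R.1 → (∀ p ∈ R.2, ρ (g p) = g p) →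
      (A.Div (ρ * g) R ↔ (A.red ρ V I).Div g R) := fun h1 h2 h3 => by
    have hL : Loc (A.red ρ V I) g A (ρ * g) (Function.Embedding.refl P) R :=
      ⟨fun p hp => (contr_pi hA hV hρ hI (h1 p hp)).1.symm, fun p _ => rfl,
        fun p hp => ⟨fun _ => h1 p hp, fun _ => (mem_sdiff.1 (h1 p hp)).1⟩, fun p hp => h3 p hp⟩
    have := hL.div h2
    rwa [Rg.map_refl] at this
  constructor
  · intro h
    have h1 : ∀ p ∈ R.1, p ∈ A.dt \ V := fun p hp => h.1.1.2.1 hp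
    exact ⟨(key h1 h.1.1.1.2.1 fun p hp => hρ _ (h1 _ (h.1.1.1.2.2 p hp))).2 h,
      disjoint_left.2 fun p hp => (mem_sdiff.1 (h1 p hp)).2⟩
  · rintro ⟨h, hd⟩
    have h1 : ∀ p ∈ R.1, p ∈ A.dt \ V := fun p hp =>
      mem_sdiff.2 ⟨h.1.1.2.1 hp, disjoint_left.1 hd hp⟩
    exact (key h1 h.1.1.1.2.1 fun p hp => ρ.injective (hρ _ (h1 _ (h.1.1.1.2.2 p hp)))).1 h

theorem red_wt (hA : A.OK) (hρ : skip ρ I = 1) (hρU : ∀ p ∈ A.U, ρ p ∈ A.U)
    (hty : ∀ p, A.ty (ρ p) = A.ty p) (hI : I ⊆ A.U) (hg : ∀ p ∈ I, g p = p)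
    (hgU : ∀ p ∈ A.U, g p ∈ A.U) (hgty : ∀ p, A.ty (g p) = A.ty p) (V : Finset P) :
    A.wt (ρ * g) x z A.U = A.wt ρ x z I * (A.red ρ V I).wt g x z (A.U \ I) ∧
      cin (ρ * g) A.U = cin ρ I + cin g (A.U \ I) ∧
      cin (A.π * (ρ * g)) A.U = cin (A.π * ρ) I + cin ((A.red ρ V I).π * g) (A.U \ I) := by
  have key : ∀ (f : Perm P) (J : Finset P), (∀ p ∈ J, (f * g) p ∈ J) →
      cin (f * g) J = cin f (J ∩ I) + cin (skip f I * g) (J \ I) := fun f J hJ => by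
    rw [cin_skip (f * g) I hJ, skip_mul f hg,
      cin_congr (f := f) (g := f * g) fun q hq => by rw [Perm.mul_apply, hg q (mem_inter.1 hq).2]]
  have hUI : A.U ∩ I = I := inter_eq_right.2 hI
  have h1 := key ρ A.U fun p hp => hρU _ (hgU p hp)
  have h2 := key (A.π * ρ) A.U fun p hp => hA.1 _ (hρU _ (hgU p hp))
  have h3 := key ρ (A.U.filter fun p => A.ty p = false) fun p hp => by
    rw [mem_filter] at hp ⊢
    exact ⟨hρU _ (hgU p hp.1), by rw [Perm.mul_apply, hty, hgty, hp.2]⟩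
  rw [hρ, one_mul] at h1 h3
  rw [hUI] at h1 h2
  rw [mul_assoc] at h2
  have e1 : (A.U.filter fun p => A.ty p = false) ∩ I = I.filter fun p => A.ty p = false := by
    ext p
    simp only [mem_inter, mem_filter]
    exact ⟨fun h => ⟨h.2, h.1.2⟩, fun h => ⟨⟨hI h.1, h.2⟩, h.1⟩⟩
  have e2 : (A.U.filter fun p => A.ty p = false) \ I =
      (A.U \ I).filter fun p => A.ty p = false := by
    ext p
    simp only [mem_sdiff, mem_filter]
    tauto
  rw [e1, e2] at h3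
  refine ⟨?_, h1, h2⟩
  have h4 : A.nv (ρ * g) A.U = A.nv ρ I + (A.red ρ V I).nv g (A.U \ I) := h3
  have h5 : A.nf (ρ * g) A.U = A.nf ρ I + (A.red ρ V I).nf g (A.U \ I) := h2
  unfold wt
  rw [h4, h5]
  ring

theorem red_valid (hI : I ⊆ A.U) (hρU : ∀ p, p ∉ A.U → ρ p = p) (hwv : A.WV ρ)
    (hAI : ∀ a, A.ty a = true → (a ∈ I → ρ a ∈ I ∧ ρ a ≠ a) ∧ (a ∉ I → ρ a = a))
    (hg : ∀ p ∈ I, g p = p) (V : Finset P) : A.Valid (ρ * g) ↔ (A.red ρ V I).Valid g := by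
  have hm : ∀ p, p ∉ I → g p ∉ I := fun p hp h => hp ((contr_mem hg).1 h)
  constructor
  · rintro ⟨h1, h2, h3⟩
    have ht : ∀ p, A.ty (g p) = A.ty p := fun p => ((hwv (g p)).1).symm.trans (h1 p).1
    have hfix : ∀ p, p ∉ I → A.ty p = true → ρ (g p) = g p := fun p hp h =>
      (hAI _ ((ht p).trans h)).2 (hm p hp)
    refine ⟨fun p => ⟨ht p, fun h => ?_⟩, fun p hp => ?_, fun p hp h e => ?_⟩
    · by_cases hp : p ∈ I
      · rw [hg p hp, hg p hp]
      · have h4 : ρ (g (ρ (g p))) = p := (h1 p).2 h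
        rwa [hfix p hp h, hfix _ (hm p hp) ((ht p).trans h)] at h4
    · by_cases hI' : p ∈ I
      · exact hg p hI'
      · have h4 : p ∉ A.U := fun h => hp (mem_sdiff.2 ⟨h, hI'⟩)
        exact ρ.injective ((h2 p h4).trans (hρU p h4).symm)
    · have hp' : p ∈ A.U \ I := hp
      rw [mem_sdiff] at hp'
      exact h3 p hp'.1 h ((hfix p hp'.2 h).trans e)
  · rintro ⟨h1, h2, h3⟩
    have ht : ∀ p, A.ty (g p) = A.ty p := fun p => (h1 p).1
    have hfix : ∀ p, p ∉ I → A.ty p = true → ρ (g p) = g p := fun p hp h =>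
      (hAI _ ((ht p).trans h)).2 (hm p hp)
    refine ⟨fun p => ⟨(hwv (g p)).1.trans (ht p), fun h => ?_⟩, fun p hp => ?_, fun p hp h => ?_⟩
    · show ρ (g (ρ (g p))) = p
      by_cases hp : p ∈ I
      · rw [hg p hp, hg _ ((hAI p h).1 hp).1]
        exact (hwv p).2 h
      · rw [hfix p hp h, hfix _ (hm p hp) ((ht p).trans h)]
        exact (h1 p).2 h
    · show ρ (g p) = p
      rw [h2 p fun h => hp (mem_sdiff.1 h).1, hρU p hp]
    · show ρ (g p) ≠ p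
      by_cases hI' : p ∈ I
      · rw [hg p hI']
        exact ((hAI p h).1 hI').2
      · rw [hfix p hI' h]
        exact h3 p (mem_sdiff.2 ⟨hp, hI'⟩) h

theorem red_dgm (hA : A.OK) (hρ : skip ρ I = 1) (hI : I ⊆ A.U) (hρU : ∀ p, p ∉ A.U → ρ p = p)
    (hwv : A.WV ρ) (hAI : ∀ a, A.ty a = true → (a ∈ I → ρ a ∈ I ∧ ρ a ≠ a) ∧ (a ∉ I → ρ a = a))
    (hl1 : ∀ p ∈ I, ∃ q ∈ A.U \ I, Lnk A.π ρ p q)
    (hl2 : ∀ p q, p ∉ I → q ∉ I → Lnk A.π ρ p q → (A.π * ρ).SameCycle p q)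
    (he : cin A.π A.U + cin ρ I + 2 * cin (A.π * ρ) I = cin (A.π * ρ) A.U + I.card)
    (hg : ∀ p ∈ I, g p = p) (V : Finset P) : A.Dgm (ρ * g) ↔ (A.red ρ V I).Dgm g := by
  unfold Dgm
  rw [red_valid hI hρU hwv hAI hg V]
  refine and_congr_right fun hv => and_congr ?_ ?_
  · constructor
    · intro h p hp q hq
      have hp' : p ∈ A.U \ I := hp
      have hq' : q ∈ A.U \ I := hq
      rw [mem_sdiff] at hp' hq'
      exact lnk_reduce hg (E := Lnk (skip (A.π * ρ) I) g) (Relation.EqvGen.is_equivalence _)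
        (fun r _ => Relation.EqvGen.rel _ _ (.inr rfl))
        (fun r s hr hs hl => Lnk.of_sameCycle_left g ((skip_sameCycle hr hs).2 (hl2 r s hr hs hl)))
        hp'.2 hq'.2 (h p hp'.1 q hq'.1)
    · intro h
      have key : ∀ p ∈ A.U, ∃ q ∈ A.U \ I, Lnk A.π (ρ * g) p q := fun p hp => by
        by_cases hp' : p ∈ I
        · obtain ⟨q, hq, hl⟩ := hl1 p hp'
          exact ⟨q, hq, lnk_clo _ hρ hg hl⟩
        · exact ⟨p, mem_sdiff.2 ⟨hp, hp'⟩, Relation.EqvGen.refl _⟩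
      intro p hp q hq
      obtain ⟨p', hp', l1⟩ := key p hp
      obtain ⟨q', hq', l2⟩ := key q hq
      exact Relation.EqvGen.trans _ _ _ l1 (Relation.EqvGen.trans _ _ _
        (lnk_of_skip _ hρ hg (h p' hp' q' hq')) (Relation.EqvGen.symm _ _ l2))
  · have hρU' : ∀ p ∈ A.U, ρ p ∈ A.U := fun p hp => contr_mem' hρU hp
    have hgU : ∀ p ∈ A.U, g p ∈ A.U := fun p hp =>
      contr_mem' (fun q hq => hv.2.1 q fun h => hq (mem_sdiff.1 h).1) hp
    obtain ⟨-, h1, h2⟩ := red_wt (1 : ℤ) 1 hA hρ hρU' (fun p => (hwv p).1) hI hg hgU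
      (fun p => (hv.1 p).1) V
    have h3 := cin_skip (A.π * ρ) I (J := A.U) fun p hp => hA.1 _ (hρU' p hp)
    rw [inter_eq_right.2 hI] at h3
    have h4 := card_sdiff_add_card_eq_card hI
    show cin A.π A.U + cin (ρ * g) A.U + cin (A.π * (ρ * g)) A.U = A.U.card + 2 ↔
      cin (skip (A.π * ρ) I) (A.U \ I) + cin g (A.U \ I) +
        cin ((A.red ρ V I).π * g) (A.U \ I) = (A.U \ I).card + 2
    omega

theorem contr_cf (hc : (ρ, I) ∈ A.CF V) :
    A.WV ρ ∧ (∀ p, p ∉ V → ρ p = p) ∧ skip ρ I = 1 ∧ I ⊆ V := (mem_filter.1 hc).2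

theorem contr_clo (h : skip ρ I = 1) : clo ρ I = ρ := by
  rw [clo, h, inv_one, mul_one]

theorem contr_bet (h : skip ρ I = 1) (V : Finset P) : A.bet ρ (V, I).2 = (A.red ρ V I).π := by
  show skip (A.π * clo ρ I) I = skip (A.π * ρ) I
  rw [contr_clo h]

/-- Contraction of a disc in closed form. -/
theorem con_dgm (hA : A.OK) (hc : (ρ, I) ∈ A.CF V) (hD : A.Disc ρ (V, I))
    (hg : ∀ p ∈ I, g p = p) : A.Dgm (ρ * g) ↔ (A.red ρ V I).Dgm g := by
  obtain ⟨hwv, hfix, hsk, hIV⟩ := contr_cf hc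
  obtain ⟨hR, hconn, he, hb⟩ := hD
  have hclo := contr_clo hsk
  have hVU : V ⊆ A.U := fun p hp => hA.2.1 (hR.2.1 hp)
  have hπV : ∀ p ∈ V, A.π p ∈ V := hR.1.1
  have hρV : ∀ p ∈ V, ρ p ∈ V := fun p hp => contr_mem' hfix hp
  obtain ⟨q, hq⟩ : (V \ I).Nonempty := card_pos.1 hb
  refine red_dgm hA hsk (hIV.trans hVU) (fun p hp => hfix p fun h => hp (hVU h)) hwv
    (fun a ha => ⟨fun h => hR.2.2 a h ha, fun h => ?_⟩) (fun p hp => ?_) (fun p q hp hq hl => ?_)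
    ?_ hg V
  · have := clo_of_A hwv hR (a := a) h ha
    rwa [hclo] at this
  · exact ⟨q, mem_sdiff.2 ⟨hVU (mem_sdiff.1 hq).1, (mem_sdiff.1 hq).2⟩,
      (hconn.2 p (hIV hp) q (mem_sdiff.1 hq).1).lnk⟩
  · by_cases hpV : p ∈ V
    · have hqV : q ∈ V := (hl.mem_of_closed hπV hρV).1 hpV
      have h1 := bet_sameCycle hR.1 hconn he (mem_sdiff.2 ⟨hpV, hp⟩) (mem_sdiff.2 ⟨hqV, hq⟩)
      rw [contr_bet hsk V] at h1
      exact (skip_sameCycle hp hq).1 h1
    · clear hp hq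
      induction hl with
      | rel a b h =>
        rcases h with rfl | rfl
        · exact ⟨1, by simp [hfix a hpV]⟩
        · rw [hfix a hpV]
      | refl a => rfl
      | symm a b h ih => exact (ih fun h' => hpV ((Lnk.mem_of_closed hπV hρV h).1 h')).symm
      | trans a b c h1 _ ih1 ih2 =>
        exact (ih1 hpV).trans (ih2 fun h' => hpV ((Lnk.mem_of_closed hπV hρV h1).2 h'))
  · have hsplit : ∀ f : Perm P, (∀ p ∈ V, f p ∈ V) → (∀ p, f p ∈ V → p ∈ V) →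
        cin f A.U = cin f V + cin f (A.U \ V) := fun f h1 h2 => by
      rw [← cin_union f disjoint_sdiff (fun p hp h => (mem_sdiff.1 h).2 (h1 p hp))
        (fun p hp h => (mem_sdiff.1 hp).2 (h2 p h)), union_sdiff_of_subset hVU]
    have hπ' : ∀ p, A.π p ∈ V → p ∈ V := fun p => (hR.1.mem_iff p).1
    have h1 := hsplit A.π hπV hπ'
    have h2 := hsplit (A.π * ρ) (fun p hp => hπV _ (hρV p hp)) fun p hp => by
      by_contra h
      exact h (hfix p h ▸ hπ' _ hp)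
    have h3 : cin (A.π * ρ) (A.U \ V) = cin A.π (A.U \ V) :=
      cin_congr fun p hp => by rw [Perm.mul_apply, hfix p (mem_sdiff.1 hp).2]
    have h4 := cin_pi_clo hR.1
    have h5 := eps_add_le hR.1 hconn
    have h6 := cmeet_pos (A.π * ρ) ⟨q, hq⟩
    rw [he] at h5
    unfold eps at he
    simp only [hclo] at h4 h5 he
    omega

/-- The outer cycles after a contraction. -/
theorem con_cyc (hA : A.OK) (hc : (ρ, I) ∈ A.CF V) (hD : A.Disc ρ (V, I)) :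
    (∀ l, IsCyc A.π l → (∀ p ∈ l, p ∉ A.dt) → IsCyc (A.red ρ V I).π l) ∧
      ∀ e ∈ V \ I, IsCyc (A.red ρ V I).π (A.blist ρ (V, I) e) := by
  obtain ⟨-, -, hsk, -⟩ := contr_cf hc
  obtain ⟨hR, hconn, he, -⟩ := hD
  rw [← contr_bet hsk V]
  exact ⟨fun l hl h => hl.congr fun p hp => bet_of_not_mem hR.1 fun h' => h p hp (hR.2.1 h'),
    fun e he' => (blist_spec hR.1 hconn he he').1⟩

theorem contr_co_ne {ψ : Perm P} {k : Fin 3} {R : Rg P} (h : A.co ψ k R ≠ 0) : A.Disc ψ R := by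
  by_contra h'
  exact h (if_neg fun e => h' e.1)

theorem contr_term (hA : A.OK) (k : Fin 3) (c : Finset P → Perm P → Prop) (hI : I ⊆ V)
    (hρ : skip ρ I = 1) :
    ∑ g ∈ univ.filter (fun g : Perm P => ∀ p ∈ I, g p = p),
      (if A.Dgm (ρ * g) ∧ Dom (A.atoms (ρ * g)) (V, I) ∧ c I (ρ * g) then
        A.co (ρ * g) k (V, I) • A.wt (ρ * g) x z A.U else 0) =
      if (ρ, I) ∈ A.CF V then A.co ρ k (V, I) • (A.wt ρ x z I *
        ∑ g ∈ (A.red ρ V I).TS.filter (fun g => c I (ρ * g)),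
          (A.red ρ V I).wt g x z (A.red ρ V I).U) else 0 := by
  split_ifs with hc
  swap
  · refine sum_eq_zero fun g hg => ?_
    split_ifs with h
    swap
    · rfl
    by_cases h0 : A.co (ρ * g) k (V, I) = 0
    · rw [h0, zero_smul]
    have hD := contr_co_ne h0
    have h1 : clo (ρ * g) (V, I).2 = ρ := clo_mul hρ (mem_filter.1 hg).2
    refine absurd (mem_filter.2 ⟨mem_univ _, ?_, fun p hp => ?_, hρ, hI⟩) hc
    · have := clo_wv h.1.1.1 hD.1
      rwa [h1] at this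
    · have := clo_of_not_mem hD.1.1 (p := p) hp
      rwa [h1] at this
  have hco : ∀ g : Perm P, (∀ p ∈ I, g p = p) → A.co (ρ * g) k (V, I) = A.co ρ k (V, I) :=
    fun g hg => by
      have hL : Loc A ρ A (ρ * g) (Function.Embedding.refl P) (V, I) :=
        ⟨fun _ _ => rfl, fun _ _ => rfl, fun _ _ => Iff.rfl, fun p hp => congrArg ρ (hg p hp)⟩
      have := hL.co hI k
      rwa [Rg.map_refl] at this
  by_cases h0 : A.co ρ k (V, I) = 0
  · rw [h0, zero_smul]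
    refine sum_eq_zero fun g hg => ?_
    rw [hco g (mem_filter.1 hg).2, h0, zero_smul, ite_self]
  have hD := contr_co_ne h0
  obtain ⟨hwv, hfix, -, -⟩ := contr_cf hc
  have hVU : V ⊆ A.U := fun p hp => hA.2.1 (hD.1.2.1 hp)
  have hgood : ∀ g : Perm P, Dom (A.atoms (ρ * g)) (V, I) ↔ (A.red ρ V I).Good g := fun g => by
    rw [dom_atoms_iff]
    refine forall_congr' fun S => ?_
    rw [red_div hA hD.1.1.1 (fun p hp => hfix p (mem_sdiff.1 hp).2)
      (disjoint_left.2 fun p hp h => (mem_sdiff.1 h).2 (hI hp)) g S, not_and]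
    rfl
  rw [mul_sum, smul_sum, ← sum_filter]
  refine sum_congr ?_ fun g hg => ?_
  · ext g
    simp only [TS, mem_filter, mem_univ, true_and]
    constructor
    · rintro ⟨hg, h1, h2, h3⟩
      exact ⟨⟨(con_dgm hA hc hD hg).1 h1, (hgood g).1 h2⟩, h3⟩
    · rintro ⟨⟨h1, h2⟩, h3⟩
      have hg : ∀ p ∈ I, g p = p := fun p hp => h1.1.2.1 p fun h => (mem_sdiff.1 h).2 hp
      exact ⟨hg, (con_dgm hA hc hD hg).2 h1, (hgood g).2 h2, h3⟩
  · have h1 : (A.red ρ V I).Dgm g := (mem_filter.1 (mem_filter.1 hg).1).2.1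
    have hg' : ∀ p ∈ I, g p = p := fun p hp => h1.1.2.1 p fun h => (mem_sdiff.1 h).2 hp
    rw [hco g hg', (red_wt x z hA hρ
      (fun p hp => contr_mem' (fun q hq => hfix q fun h => hq (hVU h)) hp) (fun p => (hwv p).1)
      (hI.trans hVU) hg'
      (fun p hp => contr_mem' (fun q hq => h1.1.2.1 q fun h => hq (mem_sdiff.1 h).1) hp)
      (fun p => (h1.1.1 p).1) V).1]
    rfl

/-- Summation over diagrams with a chosen disc. -/
theorem con_sum (hA : A.OK) (k : Fin 3) (V : Finset P) (c : Finset P → Perm P → Prop) :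
    ∑ ψ ∈ univ.filter (fun ψ => A.Dgm ψ), ∑ I ∈ V.powerset,
        (if Dom (A.atoms ψ) (V, I) ∧ c I ψ then A.co ψ k (V, I) • A.wt ψ x z A.U else 0) =
      ∑ s ∈ A.CF V, A.co s.1 k (V, s.2) • (A.wt s.1 x z s.2 *
        ∑ g ∈ (A.red s.1 V s.2).TS.filter (fun g => c s.2 (s.1 * g)),
          (A.red s.1 V s.2).wt g x z (A.red s.1 V s.2).U) := by
  rw [sum_filter]
  have e1 : ∀ ψ : Perm P, (if A.Dgm ψ then ∑ I ∈ V.powerset,
      (if Dom (A.atoms ψ) (V, I) ∧ c I ψ then A.co ψ k (V, I) • A.wt ψ x z A.U else 0) else 0) =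
      ∑ I ∈ V.powerset, if A.Dgm ψ ∧ Dom (A.atoms ψ) (V, I) ∧ c I ψ then
        A.co ψ k (V, I) • A.wt ψ x z A.U else 0 := fun ψ => by
    by_cases h : A.Dgm ψ <;> simp [h]
  rw [sum_congr rfl fun ψ _ => e1 ψ, sum_comm]
  have e2 : ∀ F : Perm P × Finset P → K, ∑ s ∈ A.CF V, F s = ∑ I ∈ V.powerset,
      ∑ ρ ∈ univ.filter (fun ρ : Perm P => skip ρ I = 1),
        if (ρ, I) ∈ A.CF V then F (ρ, I) else 0 := fun F => by
    simp only [← sum_filter]
    rw [sum_sigma']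
    refine sum_bij' (fun s _ => ⟨s.2, s.1⟩) (fun s _ => (s.2, s.1)) (fun s hs => ?_)
      (fun s hs => ?_) (fun _ _ => rfl) (fun _ _ => rfl) (fun _ _ => rfl)
    · have := contr_cf (ρ := s.1) (I := s.2) hs
      simp only [mem_sigma, mem_powerset, mem_filter, mem_univ, true_and]
      exact ⟨this.2.2.2, this.2.2.1, hs⟩
    · simp only [mem_sigma, mem_filter] at hs
      exact hs.2.2
  rw [e2]
  refine sum_congr rfl fun I hI => ?_
  rw [sum_clo I]
  refine sum_congr rfl fun ρ hρ => ?_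
  exact contr_term x z hA k c (mem_powerset.1 hI) (mem_filter.1 hρ).2

end Amb

end Pool.Agent.P.MP_48bde8_co
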