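import Pool.Agent.P.MP_48bde8_co.Defs

/-! Task COUNT: labelled counts of rooted maps. -/

namespace Pool.Agent.P.MP_48bde8_co

open Equiv Finset
open scoped Classical

namespace CountAux

theorem iso_refl (M : RMap) : M.Iso M := ⟨Equiv.refl _, fun _ => rfl, fun _ => rfl, rfl⟩

theorem iso_symm {M N : RMap} (h : M.Iso N) : N.Iso M := by
  obtain ⟨e, h1, h2, h3⟩ := h
  refine ⟨e.symm, fun d => ?_, fun d => ?_, ?_⟩
  · rw [symm_apply_eq, h1, apply_symm_apply]
  · rw [symm_apply_eq, h2, apply_symm_apply]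
  · rw [symm_apply_eq, h3]

theorem iso_trans {M N P : RMap} (h : M.Iso N) (h' : N.Iso P) : M.Iso P := by
  obtain ⟨e, h1, h2, h3⟩ := h
  obtain ⟨e', h1', h2', h3'⟩ := h'
  refine ⟨e.trans e', fun d => ?_, fun d => ?_, ?_⟩
  · rw [Equiv.trans_apply, Equiv.trans_apply, h1, h1']
  · rw [Equiv.trans_apply, Equiv.trans_apply, h2, h2']
  · rw [Equiv.trans_apply, h3, h3']

theorem mk_eq_iff {Q : RMap → Prop} (M N : {M : RMap // Q M}) :
    Quot.mk (fun M N : {M : RMap // Q M} => M.1.Iso N.1) M = Quot.mk _ N ↔ M.1.Iso N.1 := by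
  rw [Quot.eq]
  exact Equivalence.eqvGen_iff (r := fun M N : {M : RMap // Q M} => M.1.Iso N.1)
    ⟨fun _ => iso_refl _, iso_symm, iso_trans⟩

theorem iso_conj {n : ℕ} (σ α g : Perm (Fin n)) (r : Fin n) :
    (RMap.mk n σ α r).Iso (RMap.mk n (g * σ * g⁻¹) (g * α * g⁻¹) (g r)) :=
  ⟨g, fun d => by simp, fun d => by simp, rfl⟩

theorem rigid {M : RMap} (hM : M.IsMap) (e : Perm (Fin M.n)) (h1 : ∀ d, e (M.σ d) = M.σ (e d))
    (h2 : ∀ d, e (M.α d) = M.α (e d)) (h3 : e M.root = M.root) : e = 1 := by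
  have key : ∀ d d', Relation.EqvGen (fun a b => b = M.σ a ∨ b = M.α a) d d' →
      (e d = d ↔ e d' = d') := by
    intro d d' h
    induction h with
    | rel a b h =>
      rcases h with rfl | rfl
      · rw [h1, M.σ.injective.eq_iff]
      · rw [h2, M.α.injective.eq_iff]
    | refl => rfl
    | symm _ _ _ ih => exact ih.symm
    | trans _ _ _ _ _ ih ih' => exact ih.trans ih'
  exact Equiv.ext fun d => (key _ d (hM.2.2 _ _)).1 h3

theorem card_stab (k : ℕ) : Nat.card {g : Perm (Fin (k + 1)) // g 0 = 0} = k.factorial := by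
  have : Function.Bijective fun e : Perm (Fin k) =>
      (⟨Perm.decomposeFin.symm (0, e), Perm.decomposeFin_symm_apply_zero 0 e⟩ :
        {g : Perm (Fin (k + 1)) // g 0 = 0}) := by
    constructor
    · intro e e' h
      exact (Prod.mk.inj (Perm.decomposeFin.symm.injective (congrArg Subtype.val h))).2
    · rintro ⟨g, hg⟩
      obtain ⟨⟨p, e⟩, rfl⟩ := Perm.decomposeFin.symm.surjective g
      rw [Perm.decomposeFin_symm_apply_zero] at hg
      subst hg
      exact ⟨e, rfl⟩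
  rw [← Nat.card_congr (Equiv.ofBijective _ this), Nat.card_perm, Nat.card_fin]

theorem sameCycle_iff {A B : Type} (e : A ≃ B) {f : Perm A} {g : Perm B}
    (h : ∀ d, e (f d) = g (e d)) (a b : A) : f.SameCycle a b ↔ g.SameCycle (e a) (e b) := by
  have hg : g = e.permCongrHom f := by
    ext x
    obtain ⟨y, rfl⟩ := e.surjective x
    simp [h]
  refine exists_congr fun i => ?_
  rw [hg, ← map_zpow]
  simp

theorem sameCycle_invol {A : Type} {f : Perm A} (h : ∀ d, f (f d) = d) (a b : A) :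
    f.SameCycle a b ↔ b = a ∨ b = f a := by
  constructor
  · rintro ⟨i, rfl⟩
    have h2 : f ^ (2 : ℤ) = 1 := by
      ext d
      rw [zpow_two]
      exact h d
    rcases Int.even_or_odd' i with ⟨j, rfl | rfl⟩
    · left
      rw [zpow_mul, h2, one_zpow]
      rfl
    · right
      rw [zpow_add, zpow_mul, h2, one_zpow, one_mul, zpow_one]
  · rintro (rfl | rfl)
    · exact Perm.SameCycle.refl _ _
    · exact ⟨1, by simp⟩

theorem card_invol {n : ℕ} {f : Perm (Fin n)} (h : ∀ d, f d ≠ d ∧ f (f d) = d) :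
    2 * Nat.card (Quotient (Perm.SameCycle.setoid f)) = n := by
  have e := card_eq_sum_card_fiberwise (s := (univ : Finset (Fin n)))
    (t := (univ : Finset (Quotient (Perm.SameCycle.setoid f))))
    (f := Quotient.mk (Perm.SameCycle.setoid f)) (fun _ _ => mem_univ _)
  rw [card_univ, Fintype.card_fin, sum_const_nat (m := 2)] at e
  · rw [Nat.card_eq_fintype_card, mul_comm]
    exact e.symm
  · intro c _
    obtain ⟨a, rfl⟩ := Quotient.exists_rep c
    rw [card_eq_two]
    refine ⟨a, f a, (h a).1.symm, ?_⟩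
    ext b
    simp only [mem_filter, mem_univ, true_and, mem_insert, mem_singleton]
    rw [eq_comm, Quotient.eq]
    exact sameCycle_invol (fun d => (h d).2) a b

theorem card_one (n : ℕ) : Nat.card (Quotient (Perm.SameCycle.setoid (1 : Perm (Fin n)))) = n := by
  have : Function.Bijective (Quotient.mk (Perm.SameCycle.setoid (1 : Perm (Fin n)))) :=
    ⟨fun a b h => Perm.sameCycle_one.1 (Quotient.exact h), Quotient.mk_surjective⟩
  rw [← Nat.card_congr (Equiv.ofBijective _ this), Nat.card_fin]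

/-- The darts of a map all of whose faces have degree two. -/
def ww (M : RMap) (x : ℤ × Bool) : Fin M.n :=
  if x.2 then M.α ((M.σ ^ x.1) M.root) else (M.σ ^ x.1) M.root

section Dipole

variable {M : RMap} (hM : M.IsMap)
  (hd : ∀ d, (M.σ * M.α) d ≠ d ∧ (M.σ * M.α) ((M.σ * M.α) d) = d)

include hM hd

theorem al_zpow (i : ℤ) (d : Fin M.n) : M.α ((M.σ ^ i) d) = (M.σ ^ (-i)) (M.α d) := by
  have h : SemiconjBy M.α M.σ M.σ⁻¹ := by
    unfold SemiconjBy
    ext d
    have := (hd (M.α d)).2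
    simp only [Perm.mul_apply, hM.1] at this ⊢
    rw [← this]
    simp
  have := congrArg (fun g : Perm (Fin M.n) => g d) (h.zpow_right i).eq
  simpa [Perm.mul_apply] using this

theorem al_ne (j : ℤ) (d : Fin M.n) : M.α d ≠ (M.σ ^ j) d := by
  intro h
  rcases Int.even_or_odd' j with ⟨i, rfl | rfl⟩
  · refine hM.2.1 ((M.σ ^ i) d) ?_
    rw [al_zpow hM hd, h, ← Perm.mul_apply, ← zpow_add]
    congr 2
    ring
  · refine (hd ((M.σ ^ (i + 1)) d)).1 ?_
    rw [Perm.mul_apply, al_zpow hM hd, h, ← Perm.mul_apply, ← Perm.mul_apply, ← zpow_one_add,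
      ← zpow_add]
    congr 2
    ring

omit hM hd in
theorem ww_sig_false (i : ℤ) : M.σ (ww M (i, false)) = ww M (i + 1, false) := by
  simp only [ww, Bool.false_eq_true, if_false]
  rw [add_comm, zpow_one_add, Perm.mul_apply]

theorem ww_sig_true (i : ℤ) : M.σ (ww M (i, true)) = ww M (i - 1, true) := by
  simp only [ww, if_true]
  rw [al_zpow hM hd, al_zpow hM hd, ← Perm.mul_apply, ← zpow_one_add]
  congr 2
  ring

omit hd in
theorem ww_al (i : ℤ) (t : Bool) : M.α (ww M (i, t)) = ww M (i, !t) := by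
  cases t <;> simp [ww, hM.1]

theorem ww_surj : Function.Surjective (ww M) := by
  have key : ∀ d d', Relation.EqvGen (fun a b => b = M.σ a ∨ b = M.α a) d d' →
      (d ∈ Set.range (ww M) ↔ d' ∈ Set.range (ww M)) := by
    intro d d' h
    induction h with
    | rel a b h =>
      rcases h with rfl | rfl
      · constructor
        · rintro ⟨⟨i, _ | _⟩, rfl⟩
          · exact ⟨_, (ww_sig_false i).symm⟩
          · exact ⟨_, (ww_sig_true hM hd i).symm⟩
        · rintro ⟨⟨i, _ | _⟩, h⟩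
          · refine ⟨(i - 1, false), M.σ.injective ?_⟩
            rw [ww_sig_false, sub_add_cancel, h]
          · refine ⟨(i + 1, true), M.σ.injective ?_⟩
            rw [ww_sig_true hM hd, add_sub_cancel_right, h]
      · constructor
        · rintro ⟨⟨i, t⟩, rfl⟩
          exact ⟨_, (ww_al hM i t).symm⟩
        · rintro ⟨⟨i, t⟩, h⟩
          exact ⟨(i, !t), by rw [← ww_al hM, h, hM.1]⟩
    | refl => rfl
    | symm _ _ _ ih => exact ih.symm
    | trans _ _ _ _ _ ih ih' => exact ih.trans ih'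
  exact fun d => (key _ d (hM.2.2 M.root d)).1 ⟨(0, false), by simp [ww]⟩

theorem ww_eq_iff (x y : ℤ × Bool) : ww M x = ww M y ↔
    x.2 = y.2 ∧ ((MulAction.period M.σ M.root : ℕ) : ℤ) ∣ x.1 - y.1 := by
  have h1 : ∀ i j : ℤ, (M.σ ^ i) M.root = (M.σ ^ j) M.root ↔
      ((MulAction.period M.σ M.root : ℕ) : ℤ) ∣ i - j := by
    intro i j
    rw [← MulAction.zpow_smul_eq_iff_period_dvd, Perm.smul_def, sub_eq_neg_add, zpow_add,
      Perm.mul_apply, zpow_neg, Perm.inv_eq_iff_eq]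
  have h2 : ∀ i j : ℤ, M.α ((M.σ ^ i) M.root) ≠ (M.σ ^ j) M.root := by
    intro i j h
    refine al_ne hM hd (j - i) ((M.σ ^ i) M.root) ?_
    rw [h, ← Perm.mul_apply, ← zpow_add, sub_add_cancel]
  obtain ⟨i, _ | _⟩ := x <;> obtain ⟨j, _ | _⟩ := y
  · simpa [ww] using h1 i j
  · simpa [ww] using (h2 j i).symm
  · simpa [ww] using h2 i j
  · simpa [ww] using h1 i j

theorem period_eq : 2 * MulAction.period M.σ M.root = M.n := by
  have hp : 0 < MulAction.period M.σ M.root :=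
    MulAction.period_pos_of_orderOf_pos (orderOf_pos _) _
  have : Function.Bijective fun x : Fin (MulAction.period M.σ M.root) × Bool =>
      ww M ((x.1 : ℕ), x.2) := by
    constructor
    · rintro ⟨i, s⟩ ⟨j, t⟩ h
      obtain ⟨h1, h2⟩ := (ww_eq_iff hM hd _ _).1 h
      refine Prod.ext (Fin.ext ?_) h1
      have hi := i.2
      have hj := j.2
      have := Int.eq_zero_of_abs_lt_dvd h2 (by
        simp only [abs_lt]
        constructor <;> omega)
      simp only at this ⊢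
      omega
    · intro d
      obtain ⟨⟨i, t⟩, rfl⟩ := ww_surj hM hd d
      have h0 : ((MulAction.period M.σ M.root : ℕ) : ℤ) ≠ 0 := by omega
      have h1 := Int.emod_nonneg i h0
      have h2 := Int.emod_lt_of_pos i (show (0 : ℤ) < (MulAction.period M.σ M.root : ℕ) by omega)
      refine ⟨(⟨(i % (MulAction.period M.σ M.root : ℕ)).toNat, by omega⟩, t),
        (ww_eq_iff hM hd _ _).2 ⟨rfl, ?_⟩⟩
      simp only [Int.toNat_of_nonneg h1]
      exact Int.dvd_emod_sub_self
  have e := Nat.card_congr (Equiv.ofBijective _ this)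
  rw [Nat.card_prod, Nat.card_fin, Nat.card_fin, Nat.card_eq_fintype_card, Fintype.card_bool] at e
  omega

end Dipole

theorem dipole_iso {M N : RMap} (hM : M.IsMap)
    (hd : ∀ d, (M.σ * M.α) d ≠ d ∧ (M.σ * M.α) ((M.σ * M.α) d) = d) (hN : N.IsMap)
    (hd' : ∀ d, (N.σ * N.α) d ≠ d ∧ (N.σ * N.α) ((N.σ * N.α) d) = d) (hn : M.n = N.n) :
    M.Iso N := by
  have hp : MulAction.period M.σ M.root = MulAction.period N.σ N.root := by
    have := period_eq hM hd
    have := period_eq hN hd'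
    omega
  have key : ∀ x y, ww M x = ww M y ↔ ww N x = ww N y := fun x y => by
    rw [ww_eq_iff hM hd, ww_eq_iff hN hd', hp]
  let f : Fin M.n → Fin N.n := fun d => ww N (Function.surjInv (ww_surj hM hd) d)
  have hf : ∀ x, f (ww M x) = ww N x := fun x =>
    (key _ _).1 (Function.surjInv_eq (ww_surj hM hd) _)
  have hb : Function.Bijective f := by
    constructor
    · intro a b h
      obtain ⟨x, rfl⟩ := ww_surj hM hd a
      obtain ⟨y, rfl⟩ := ww_surj hM hd b
      rw [hf, hf] at h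
      exact (key _ _).2 h
    · intro b
      obtain ⟨y, rfl⟩ := ww_surj hN hd' b
      exact ⟨_, hf y⟩
  refine ⟨Equiv.ofBijective f hb, fun d => ?_, fun d => ?_, ?_⟩
  · obtain ⟨⟨i, _ | _⟩, rfl⟩ := ww_surj hM hd d
    · simp only [Equiv.ofBijective_apply, ww_sig_false, hf]
    · simp only [Equiv.ofBijective_apply, ww_sig_true hM hd, ww_sig_true hN hd', hf]
  · obtain ⟨⟨i, t⟩, rfl⟩ := ww_surj hM hd d
    simp only [Equiv.ofBijective_apply, ww_al hM, ww_al hN, hf]
  · simpa [ww] using hf (0, false)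

/-- The vertex rotation of the standard dipole. -/
def dsig (E : ℕ) : Perm (ZMod E × Bool) where
  toFun x := (if x.2 then x.1 - 1 else x.1 + 1, x.2)
  invFun x := (if x.2 then x.1 + 1 else x.1 - 1, x.2)
  left_inv := by rintro ⟨i, _ | _⟩ <;> simp
  right_inv := by rintro ⟨i, _ | _⟩ <;> simp

/-- The edge involution of the standard dipole. -/
def dal (E : ℕ) : Perm (ZMod E × Bool) where
  toFun x := (x.1, !x.2)
  invFun x := (x.1, !x.2)
  left_inv := by rintro ⟨i, t⟩; simp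
  right_inv := by rintro ⟨i, t⟩; simp

theorem dipole_exists (k E : ℕ) (h : k + 1 = 2 * E) : ∃ M : RMap, (M.IsMap ∧
    ∀ d, (M.σ * M.α) d ≠ d ∧ (M.σ * M.α) ((M.σ * M.α) d) = d) ∧ M.n = k + 1 := by
  have : NeZero E := ⟨by omega⟩
  have e : ZMod E × Bool ≃ Fin (k + 1) :=
    Fintype.equivFinOfCardEq (by rw [Fintype.card_prod, ZMod.card, Fintype.card_bool]; omega)
  refine ⟨⟨k + 1, e.permCongr (dsig E), e.permCongr (dal E), 0⟩, ⟨⟨fun d => ?_, fun d => ?_, ?_⟩,
    fun d => ?_⟩, rfl⟩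
  · obtain ⟨⟨i, t⟩, rfl⟩ := e.surjective d
    simp [dal]
  · obtain ⟨⟨i, t⟩, rfl⟩ := e.surjective d
    simp [dal]
  · have k1 : ∀ j : ℕ, Relation.EqvGen
        (fun a b => b = e.permCongr (dsig E) a ∨ b = e.permCongr (dal E) a)
        (e (0, false)) (e (j, false)) := by
      intro j
      induction j with
      | zero => simpa using Relation.EqvGen.refl _
      | succ j ih => exact .trans _ _ _ ih (.rel _ _ (Or.inl (by simp [dsig])))
    have k2 : ∀ d, Relation.EqvGen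
        (fun a b => b = e.permCongr (dsig E) a ∨ b = e.permCongr (dal E) a) (e (0, false)) d := by
      intro d
      obtain ⟨⟨i, t⟩, rfl⟩ := e.surjective d
      obtain ⟨j, rfl⟩ := ZMod.natCast_zmod_surjective i
      cases t
      · exact k1 j
      · exact .trans _ _ _ (k1 j) (.rel _ _ (Or.inr (by simp [dal])))
    exact fun d d' => .trans _ _ _ (.symm _ _ (k2 d)) (k2 d')
  · obtain ⟨⟨i, _ | _⟩, rfl⟩ := e.surjective d <;> simp [dal, dsig]

end CountAux

open CountAux

/-- Labelled maps with a fixed root: `k!` per isomorphism class. -/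
theorem card_labelled (k : ℕ) (Q : RMap → Prop) (hQ : ∀ M, Q M → M.IsMap ∧ M.n = k + 1)
    (hiso : ∀ M N : RMap, M.Iso N → Q M → Q N) :
    (univ.filter fun s : Perm (Fin (k + 1)) × Perm (Fin (k + 1)) =>
        Q (RMap.mk (k + 1) s.1 s.2 0)).card =
      k.factorial * Nat.card (Quot fun M N : {M : RMap // Q M} => M.1.Iso N.1) := by
  let L := {s : Perm (Fin (k + 1)) × Perm (Fin (k + 1)) // Q (RMap.mk (k + 1) s.1 s.2 0)}
  let f : L → Quot fun M N : {M : RMap // Q M} => M.1.Iso N.1 := fun s => Quot.mk _ ⟨_, s.2⟩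
  have hf : Function.Surjective f := by
    rintro ⟨⟨n, σ, α, r⟩, hM⟩
    obtain rfl : n = k + 1 := (hQ _ hM).2
    have h := iso_conj σ α (swap r 0) r
    rw [swap_apply_left] at h
    exact ⟨⟨(_, _), hiso _ _ h hM⟩, (mk_eq_iff _ _).2 (iso_symm h)⟩
  have hc : ∀ (g : {g : Perm (Fin (k + 1)) // g 0 = 0}) (s : L),
      (RMap.mk (k + 1) s.1.1 s.1.2 0).Iso
        (RMap.mk (k + 1) (g.1 * s.1.1 * g.1⁻¹) (g.1 * s.1.2 * g.1⁻¹) 0) := fun g s => by
    have h := iso_conj s.1.1 s.1.2 g.1 0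
    rwa [g.2] at h
  let act : {g : Perm (Fin (k + 1)) // g 0 = 0} → L → L := fun g s =>
    ⟨(g.1 * s.1.1 * g.1⁻¹, g.1 * s.1.2 * g.1⁻¹), hiso _ _ (hc g s) s.2⟩
  have hact : ∀ g s, f (act g s) = f s := fun g s => (mk_eq_iff _ _).2 (iso_symm (hc g s))
  have hb : Function.Bijective fun x : {g : Perm (Fin (k + 1)) // g 0 = 0} ×
      (Quot fun M N : {M : RMap // Q M} => M.1.Iso N.1) => act x.1 (Function.surjInv hf x.2) := by
    constructor
    · rintro ⟨g, c⟩ ⟨g', c'⟩ h
      have e := congrArg f h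
      simp only [hact, Function.surjInv_eq] at e
      subst e
      refine Prod.ext (Subtype.ext ?_) rfl
      beta_reduce at h
      generalize Function.surjInv hf c = s at h
      have e1 : g.1 * s.1.1 * g.1⁻¹ = g'.1 * s.1.1 * g'.1⁻¹ := congrArg (fun x : L => x.1.1) h
      have e2 : g.1 * s.1.2 * g.1⁻¹ = g'.1 * s.1.2 * g'.1⁻¹ := congrArg (fun x : L => x.1.2) h
      have e3 : g'.1⁻¹ * g.1 * s.1.1 = s.1.1 * (g'.1⁻¹ * g.1) := by
        rw [mul_assoc, eq_mul_of_mul_inv_eq e1]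
        group
      have e4 : g'.1⁻¹ * g.1 * s.1.2 = s.1.2 * (g'.1⁻¹ * g.1) := by
        rw [mul_assoc, eq_mul_of_mul_inv_eq e2]
        group
      have := rigid (hQ _ s.2).1 (g'.1⁻¹ * g.1) (fun d => congrArg (fun x : Perm _ => x d) e3)
        (fun d => congrArg (fun x : Perm _ => x d) e4)
        (by rw [Perm.mul_apply, Perm.inv_eq_iff_eq]; exact g.2.trans g'.2.symm)
      exact (inv_mul_eq_one.1 this).symm
    · intro s
      obtain ⟨e, h1, h2, h3⟩ := (mk_eq_iff _ _).1 (Function.surjInv_eq hf (f s))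
      refine ⟨(⟨e, h3⟩, f s), Subtype.ext (Prod.ext ?_ ?_)⟩
      · refine mul_inv_eq_of_eq_mul (Equiv.ext h1)
      · refine mul_inv_eq_of_eq_mul (Equiv.ext h2)
  rw [← card_stab, ← Nat.card_prod, Nat.card_congr (Equiv.ofBijective _ hb),
    Nat.card_eq_fintype_card, Fintype.card_subtype]

theorem RMap.Iso.invariants {M N : RMap} (h : M.Iso N) :
    M.n = N.n ∧ (M.IsMap → N.IsMap) ∧ Nat.card M.Vertex = Nat.card N.Vertex ∧
      Nat.card M.Face = Nat.card N.Face ∧ (M.IsSimple → N.IsSimple) ∧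
      (M.IsFourConnected → N.IsFourConnected) := by
  obtain ⟨e, h1, h2, -⟩ := h
  let ev : M.Vertex ≃ N.Vertex := Quotient.congr e (sameCycle_iff e h1)
  have hev : ∀ d, ev (M.vtx d) = N.vtx (e d) := fun _ => rfl
  have hV : Nat.card M.Vertex = Nat.card N.Vertex := Nat.card_congr ev
  refine ⟨Fin.equiv_iff_eq.1 ⟨e⟩, fun hM => ⟨fun d => ?_, fun d => ?_, fun d d' => ?_⟩, hV,
    Nat.card_congr (Quotient.congr e (sameCycle_iff e fun d => by
      rw [Perm.mul_apply, Perm.mul_apply, h1, h2])),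
    fun hM => ⟨fun d => ?_, fun d d' => ?_⟩, fun hM => ⟨hV ▸ hM.1, fun S hS => ?_⟩⟩
  · obtain ⟨d, rfl⟩ := e.surjective d
    rw [← h2, ← h2, hM.1]
  · obtain ⟨d, rfl⟩ := e.surjective d
    rw [← h2]
    exact e.injective.ne (hM.2.1 d)
  · obtain ⟨d, rfl⟩ := e.surjective d
    obtain ⟨d', rfl⟩ := e.surjective d'
    have := hM.2.2 d d'
    induction this with
    | rel a b h =>
      rcases h with rfl | rfl
      · exact .rel _ _ (Or.inl (h1 a))
      · exact .rel _ _ (Or.inr (h2 a))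
    | refl => exact .refl _
    | symm _ _ _ ih => exact .symm _ _ ih
    | trans _ _ _ _ _ ih ih' => exact .trans _ _ _ ih ih'
  · obtain ⟨d, rfl⟩ := e.surjective d
    rw [← h2, ← hev, ← hev]
    exact ev.injective.ne (hM.1 d)
  · obtain ⟨d, rfl⟩ := e.surjective d
    obtain ⟨d', rfl⟩ := e.surjective d'
    rw [← h2, ← h2, ← hev, ← hev, ← hev, ← hev]
    exact fun a b => congrArg e (hM.2 d d' (ev.injective a) (ev.injective b))
  · have hadj : ∀ u v, M.graph.Adj u v → N.graph.Adj (ev u) (ev v) := by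
      intro u v h
      rw [RMap.graph, SimpleGraph.fromRel_adj] at h ⊢
      refine ⟨ev.injective.ne h.1, h.2.imp ?_ ?_⟩
      · rintro ⟨d, rfl, rfl⟩
        exact ⟨e d, rfl, by rw [← h2, hev]⟩
      · rintro ⟨d, rfl, rfl⟩
        exact ⟨e d, rfl, by rw [← h2, hev]⟩
    have hS' : (ev ⁻¹' S).ncard ≤ 3 := by
      rw [Set.ncard_preimage_of_injective_subset_range ev.injective
        (by rw [ev.surjective.range_eq]; exact Set.subset_univ _)]
      exact hS
    let φ : M.graph.induce (ev ⁻¹' S)ᶜ →g N.graph.induce Sᶜ :=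
      ⟨fun x => ⟨ev x.1, x.2⟩, fun h => hadj _ _ h⟩
    refine (hM.2 _ hS').map φ fun y => ⟨⟨ev.symm y.1, ?_⟩, Subtype.ext (ev.apply_symm_apply _)⟩
    rw [Set.mem_compl_iff, Set.mem_preimage, ev.apply_symm_apply]
    exact y.2

/-- The number of labelled 4-connected maps. -/
theorem card_four (k i j : ℕ) (h : 2 * (i + j) = k + 5) :
    (univ.filter fun s : Perm (Fin (k + 1)) × Perm (Fin (k + 1)) =>
        let M := RMap.mk (k + 1) s.1 s.2 0
        M.IsMap ∧ M.IsPlanar ∧ M.IsSimple ∧ M.IsFourConnected ∧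
          Nat.card M.Vertex = i ∧ Nat.card M.Face = j).card = k.factorial * m i j := by
  have := card_labelled k (fun M => M.IsMap ∧ M.IsPlanar ∧ M.IsSimple ∧ M.IsFourConnected ∧
    Nat.card M.Vertex = i ∧ Nat.card M.Face = j) (fun M hM => ⟨hM.1, by
      obtain ⟨-, h1, -, -, h2, h3⟩ := hM
      rw [RMap.IsPlanar, h2, h3] at h1
      omega⟩) fun M N hMN hM => by
    obtain ⟨a1, a2, a3, a4, a5, a6⟩ := hMN.invariants
    obtain ⟨b1, b2, b3, b4, b5, b6⟩ := hM
    refine ⟨a2 b1, ?_, a5 b3, a6 b4, a3 ▸ b5, a4 ▸ b6⟩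
    rw [RMap.IsPlanar, ← a1, ← a3, ← a4]
    exact b2
  refine Eq.trans (congrArg card ?_) this
  ext s
  refine mem_filter.trans (Iff.trans ?_ (@mem_filter _ _ (_) _ _).symm)
  exact Iff.rfl

/-- Maps all of whose faces have degree two: one rooted map for each number of edges; it is
planar with two vertices. -/
theorem card_dipole (k E : ℕ) (h : k + 1 = 2 * E) :
    (univ.filter fun s : Perm (Fin (k + 1)) × Perm (Fin (k + 1)) =>
        (RMap.mk (k + 1) s.1 s.2 0).IsMap ∧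
          ∀ d, (s.1 * s.2) d ≠ d ∧ (s.1 * s.2) ((s.1 * s.2) d) = d).card = k.factorial := by
  have := card_labelled k (fun M => (M.IsMap ∧
    ∀ d, (M.σ * M.α) d ≠ d ∧ (M.σ * M.α) ((M.σ * M.α) d) = d) ∧ M.n = k + 1)
    (fun M hM => ⟨hM.1.1, hM.2⟩) fun M N hMN hM => by
      refine ⟨⟨hMN.invariants.2.1 hM.1.1, fun d => ?_⟩, hMN.invariants.1 ▸ hM.2⟩
      obtain ⟨e, h1, h2, -⟩ := hMN
      obtain ⟨d, rfl⟩ := e.surjective d
      have := hM.1.2 d
      simp only [Perm.mul_apply, ← h1, ← h2] at this ⊢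
      exact ⟨e.injective.ne this.1, congrArg e this.2⟩
  rw [Nat.card_eq_one_iff_unique.2 ⟨⟨?_⟩, ?_⟩, mul_one] at this
  · refine Eq.trans (congrArg card ?_) this
    ext s
    refine mem_filter.trans (Iff.trans ?_ (@mem_filter _ _ (_) _ _).symm)
    exact and_congr_right fun _ => ⟨fun h => ⟨h, rfl⟩, fun h => h.1⟩
  · rintro ⟨M, hM⟩ ⟨N, hN⟩
    exact Quot.sound (dipole_iso hM.1.1 hM.1.2 hN.1.1 hN.1.2 (hM.2.trans hN.2.symm))
  · obtain ⟨M, hM⟩ := dipole_exists k E h
    exact ⟨Quot.mk _ ⟨M, hM⟩⟩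

theorem dipole_counts (M : RMap) (hM : M.IsMap)
    (hd : ∀ d, (M.σ * M.α) d ≠ d ∧ (M.σ * M.α) ((M.σ * M.α) d) = d) :
    Nat.card M.Vertex = 2 ∧ 2 * Nat.card M.Face = M.n := by
  refine ⟨Nat.card_eq_two_iff.2 ⟨M.vtx M.root, M.vtx (M.α M.root), fun h => ?_, ?_⟩,
    card_invol hd⟩
  · obtain ⟨j, hj⟩ := Quotient.exact h
    exact al_ne hM hd j _ hj.symm
  · refine Set.eq_univ_of_forall fun v => ?_
    obtain ⟨d, rfl⟩ := Quotient.exists_rep v
    obtain ⟨⟨i, _ | _⟩, rfl⟩ := ww_surj hM hd d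
    · exact Or.inl (Quotient.sound (Perm.SameCycle.symm ⟨i, by simp [ww]⟩))
    · exact Or.inr (Quotient.sound (Perm.SameCycle.symm ⟨-i, by simp [ww, al_zpow hM hd]⟩))

/-- The loop. -/
theorem loop_iff (s : Perm (Fin 2) × Perm (Fin 2)) :
    ((RMap.mk 2 s.1 s.2 0).IsMap ∧ Nat.card (RMap.mk 2 s.1 s.2 0).Vertex = 1 ↔
      s = (swap 0 1, swap 0 1)) ∧
    Nat.card (RMap.mk 2 (swap 0 1) (swap 0 1) 0).Face = 2 := by
  have hp : ∀ g : Perm (Fin 2), g = 1 ∨ g = swap 0 1 := by decide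
  have hs : ∀ d : Fin 2, swap (0 : Fin 2) 1 d ≠ d ∧ swap (0 : Fin 2) 1 (swap (0 : Fin 2) 1 d) = d := by
    decide
  refine ⟨⟨fun h => ?_, ?_⟩, ?_⟩
  · obtain ⟨σ, α⟩ := s
    rcases hp α with rfl | rfl
    · exact absurd rfl (h.1.2.1 0)
    rcases hp σ with rfl | rfl
    · have := (card_one 2).symm.trans h.2
      omega
    · rfl
  · rintro rfl
    refine ⟨⟨fun d => (hs d).2, fun d => (hs d).1, fun d d' => ?_⟩, ?_⟩
    · have hh : ∀ d d' : Fin 2, d' = d ∨ d' = swap (0 : Fin 2) 1 d := by decide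
      rcases hh d d' with rfl | h
      · exact .refl _
      · exact .rel _ _ (Or.inl h)
    · have := card_invol hs
      unfold RMap.Vertex
      simp only at this ⊢
      omega
  · unfold RMap.Face
    simp only [swap_mul_self]
    exact card_one 2

end Pool.Agent.P.MP_48bde8_co
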