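import Pool.Agent.P.MP_48bde8_co.D2

/-! Task CPLT: complete rings, fixed points, Lipschitz functions. -/

namespace Pool.Agent.P.MP_48bde8_co

open PowerSeries

theorem cplt_tele {R : Type} [CommRing R] {ε : R} {f : ℕ → R}
    (hf : ∀ N, ε ^ N ∣ f (N + 1) - f N) (N M : ℕ) (h : N ≤ M) : ε ^ N ∣ f M - f N := by
  induction M, h using Nat.le_induction with
  | base => simp
  | succ M hM ih =>
    have : f (M + 1) - f N = (f (M + 1) - f M) + (f M - f N) := by ring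
    rw [this]
    exact dvd_add ((pow_dvd_pow ε hM).trans (hf M)) ih

theorem cpl_powerSeries (k : Type) [CommRing k] : Cpl (X : PowerSeries k) := by
  refine ⟨fun a ha => ?_, fun f hf => ⟨PowerSeries.mk fun n => coeff n (f (n + 1)), fun N => ?_⟩⟩
  · ext n
    simpa using X_pow_dvd_iff.1 (ha (n + 1)) n (Nat.lt_succ_self n)
  · rw [X_pow_dvd_iff]
    intro m hm
    have := X_pow_dvd_iff.1 (cplt_tele hf (m + 1) N hm) m (Nat.lt_succ_self m)
    rw [map_sub] at this ⊢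
    rw [coeff_mk, sub_eq_zero.1 this, sub_self]

theorem cplt_dvd_iff {R : Type} [CommRing R] (a : R) (y : DualNumber R) :
    inD a ∣ y ↔ a ∣ y.fst ∧ a ∣ y.snd := by
  constructor
  · rintro ⟨z, rfl⟩
    refine ⟨⟨z.fst, ?_⟩, ⟨z.snd, ?_⟩⟩ <;> simp [inD]
  · rintro ⟨⟨u, hu⟩, ⟨v, hv⟩⟩
    refine ⟨dn u v, ?_⟩
    ext <;> simp [inD, dn, hu, hv]

theorem Cpl.dual {R : Type} [CommRing R] {ε : R} (h : Cpl ε) : Cpl (inD ε) := by
  refine ⟨fun a ha => ?_, fun f hf => ?_⟩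
  · have h1 : ∀ N, ε ^ N ∣ a.fst ∧ ε ^ N ∣ a.snd := fun N =>
      (cplt_dvd_iff _ _).1 (by rw [map_pow]; exact ha N)
    ext
    · simpa using h.1 _ (fun N => (h1 N).1)
    · simpa using h.1 _ (fun N => (h1 N).2)
  · have h1 : ∀ N, ε ^ N ∣ (f (N + 1) - f N).fst ∧ ε ^ N ∣ (f (N + 1) - f N).snd := fun N =>
      (cplt_dvd_iff _ _).1 (by rw [map_pow]; exact hf N)
    obtain ⟨u, hu⟩ := h.2 (fun N => (f N).fst) (fun N => by simpa using (h1 N).1)
    obtain ⟨v, hv⟩ := h.2 (fun N => (f N).snd) (fun N => by simpa using (h1 N).2)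
    refine ⟨dn u v, fun N => ?_⟩
    rw [← map_pow, cplt_dvd_iff]
    constructor
    · simpa [dn] using hu N
    · simpa [dn] using hv N

theorem Cpl.isUnit {R : Type} [CommRing R] {ε : R} (h : Cpl ε) (y : R) :
    IsUnit (1 + ε * y) := by
  have hd : ∀ N : ℕ, ε ^ N ∣ (-(ε * y)) ^ N := fun N =>
    pow_dvd_pow_of_dvd (Dvd.intro y rfl).neg_right N
  obtain ⟨l, hl⟩ := h.2 (fun N => ∑ i ∈ Finset.range N, (-(ε * y)) ^ i) (fun N => by
    rw [Finset.sum_range_succ, add_sub_cancel_left]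
    exact hd N)
  have h0 : (1 + ε * y) * l - 1 = 0 := h.1 _ (fun N => by
    have hg := mul_neg_geom_sum (-(ε * y)) N
    have : (1 + ε * y) * l - 1 =
        (1 + ε * y) * (l - ∑ i ∈ Finset.range N, (-(ε * y)) ^ i) - (-(ε * y)) ^ N := by
      linear_combination hg
    rw [this]
    exact dvd_sub ((hl N).mul_left _) (hd N))
  exact IsUnit.of_mul_eq_one l (sub_eq_zero.1 h0)

theorem Cpl.isUnit_add {R : Type} [CommRing R] {ε : R} (h : Cpl ε) {u : R} (hu : IsUnit u)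
    (w : R) : IsUnit (u + ε * w) := by
  obtain ⟨v, hv⟩ := hu.exists_right_inv
  have : u + ε * w = u * (1 + ε * (v * w)) := by linear_combination (-(ε * w)) * hv
  rw [this]
  exact hu.mul (h.isUnit _)

/-- The iteration for the fixed point. -/
def cpltSeq {R : Type} [CommRing R] (ε c : R) (g : {δ : R // ε ∣ δ - c} → R) :
    ℕ → {δ : R // ε ∣ δ - c}
  | 0 => ⟨c, by simp⟩
  | n + 1 => ⟨c - ε * g (cpltSeq ε c g n), ⟨-g (cpltSeq ε c g n), by ring⟩⟩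

/-- Fixed point of a contraction of a ball. -/
theorem Cpl.fixed {R : Type} [CommRing R] {ε : R} (h : Cpl ε) (c : R)
    (g : {δ : R // ε ∣ δ - c} → R) (hg : ∀ δ δ', δ.1 - δ'.1 ∣ g δ - g δ') :
    ∃ δ : {δ : R // ε ∣ δ - c}, δ.1 - c + ε * g δ = 0 := by
  have hs : ∀ n, (cpltSeq ε c g (n + 1)).1 = c - ε * g (cpltSeq ε c g n) := fun n => rfl
  have hstep : ∀ N, ε ^ N ∣ (cpltSeq ε c g (N + 1)).1 - (cpltSeq ε c g N).1 := by
    intro N
    induction N with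
    | zero => simp
    | succ N ih =>
      have : (cpltSeq ε c g (N + 1 + 1)).1 - (cpltSeq ε c g (N + 1)).1 =
          -((g (cpltSeq ε c g (N + 1)) - g (cpltSeq ε c g N)) * ε) := by
        rw [hs (N + 1), hs N]; ring
      rw [this, pow_succ]
      exact (mul_dvd_mul_right (ih.trans (hg _ _)) ε).neg_right
  obtain ⟨y, hy⟩ := h.2 (fun N => (cpltSeq ε c g N).1) hstep
  have hyc : ε ∣ y - c := by
    have h1 := hy 1
    rw [pow_one] at h1
    have : y - c = (y - (cpltSeq ε c g 1).1) + ((cpltSeq ε c g 1).1 - c) := by ring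
    rw [this]
    exact dvd_add h1 (cpltSeq ε c g 1).2
  refine ⟨⟨y, hyc⟩, h.1 _ (fun N => ?_)⟩
  have : y - c + ε * g ⟨y, hyc⟩ = (y - (cpltSeq ε c g (N + 1)).1) +
      ε * (g ⟨y, hyc⟩ - g (cpltSeq ε c g N)) := by
    rw [hs N]; ring
  change ε ^ N ∣ y - c + ε * g ⟨y, hyc⟩
  rw [this]
  exact dvd_add ((pow_dvd_pow ε (Nat.le_succ N)).trans (hy (N + 1)))
    (((hy N).trans (hg ⟨y, hyc⟩ (cpltSeq ε c g N))).mul_left _)

/-- Functions with values in the image of `R` that are Lipschitz in the coordinate `π`. -/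
def lipS {R L B : Type} [CommRing R] [CommRing L] (ι : R →+* L) (π : B → R) : Subring (B → L) where
  carrier := {F | ∃ g : B → R, (∀ b, F b = ι (g b)) ∧ ∀ b b', π b - π b' ∣ g b - g b'}
  mul_mem' := by
    rintro _ _ ⟨g, hg, hg'⟩ ⟨h, hh, hh'⟩
    refine ⟨g * h, fun b => by simp [hg, hh], fun b b' => ?_⟩
    have : (g * h) b - (g * h) b' = (g b - g b') * h b + g b' * (h b - h b') := by
      simp only [Pi.mul_apply]; ring
    rw [this]
    exact dvd_add ((hg' b b').mul_right _) ((hh' b b').mul_left _)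
  one_mem' := ⟨1, fun b => by simp, fun b b' => by simp⟩
  add_mem' := by
    rintro _ _ ⟨g, hg, hg'⟩ ⟨h, hh, hh'⟩
    refine ⟨g + h, fun b => by simp [hg, hh], fun b b' => ?_⟩
    have : (g + h) b - (g + h) b' = (g b - g b') + (h b - h b') := by
      simp only [Pi.add_apply]; ring
    rw [this]
    exact dvd_add (hg' b b') (hh' b b')
  zero_mem' := ⟨0, fun b => by simp, fun b b' => by simp⟩
  neg_mem' := by
    rintro _ ⟨g, hg, hg'⟩
    refine ⟨-g, fun b => by simp [hg], fun b b' => ?_⟩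
    have : (-g) b - (-g) b' = -(g b - g b') := by simp only [Pi.neg_apply]; ring
    rw [this]
    exact (hg' b b').neg_right

section Lip

variable {R L B : Type} [CommRing R] [CommRing L] (ι : R →+* L) (π : B → R)

theorem lip_const (a : R) : (fun _ => ι a) ∈ lipS ι π :=
  ⟨fun _ => a, fun _ => rfl, fun _ _ => by simp⟩

theorem lip_coord : (fun b => ι (π b)) ∈ lipS ι π :=
  ⟨π, fun _ => rfl, fun _ _ => dvd_rfl⟩

/-- Inverse of a Lipschitz function with unit values. -/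
theorem lip_inv {g : B → R} (hg : ∀ b b', π b - π b' ∣ g b - g b') (hu : ∀ b, IsUnit (g b)) :
    ∃ h : B → R, (∀ b, g b * h b = 1) ∧ ∀ b b', π b - π b' ∣ h b - h b' := by
  choose h hh using fun b => (hu b).exists_right_inv
  refine ⟨h, hh, fun b b' => ?_⟩
  have : h b - h b' = -(h b * h b') * (g b - g b') := by
    linear_combination h b' * hh b - h b * hh b'
  rw [this]
  exact (hg b b').mul_left _

end Lip

/-- The inverse of `m - 1` at a node with parameter `δ`, over any complete ring: it is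
`ε ^ n * y` with `n = sv i`, and `y` is the inverse of an explicit unit. -/
def sUnit {R : Type} [CommRing R] (ε si : R) (i : Fin 6) (δ : R) : R :=
  ![ε ^ 2 * δ - 1, δ - ε ^ 2, δ - ε ^ 12, si ^ 6 * (1 + ε ^ 4 * δ) - ε ^ 20,
    si ^ 6 * (1 + ε ^ 4 * δ) - ε ^ 20, ε ^ 26 * δ - 1] i

theorem sUnit_spec {Λ : Type} [CommRing Λ] (e : Λˣ) (si : Λ) (i : Fin 6) (δ : Λ) :
    ((e ^ sv i : Λˣ) : Λ) * (mOf e si i δ - 1) = sUnit (e : Λ) si i δ := by
  have hp : ∀ n : ℕ, ((e ^ (n : ℤ) : Λˣ) : Λ) = (e : Λ) ^ n := fun n => by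
    rw [zpow_natCast, Units.val_pow_eq_pow_val]
  have hn : ∀ n : ℕ, (e : Λ) ^ n * ((e ^ (-(n : ℤ)) : Λˣ) : Λ) = 1 := fun n => by
    rw [← hp, ← Units.val_mul, ← zpow_add, add_neg_cancel, zpow_zero, Units.val_one]
  fin_cases i
  · change ((e ^ ((0 : ℕ) : ℤ) : Λˣ) : Λ) * (((e ^ ((2 : ℕ) : ℤ) : Λˣ) : Λ) * δ - 1) =
      (e : Λ) ^ 2 * δ - 1
    rw [hp, hp]; ring
  · change ((e ^ ((2 : ℕ) : ℤ) : Λˣ) : Λ) * (((e ^ (-((2 : ℕ) : ℤ)) : Λˣ) : Λ) * δ - 1) =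
      δ - (e : Λ) ^ 2
    rw [hp]; linear_combination δ * hn 2
  · change ((e ^ ((12 : ℕ) : ℤ) : Λˣ) : Λ) * (((e ^ (-((12 : ℕ) : ℤ)) : Λˣ) : Λ) * δ - 1) =
      δ - (e : Λ) ^ 12
    rw [hp]; linear_combination δ * hn 12
  · change ((e ^ ((20 : ℕ) : ℤ) : Λˣ) : Λ) * (((e ^ (-((20 : ℕ) : ℤ)) : Λˣ) : Λ) *
      (si ^ 6 * (1 + (e : Λ) ^ 4 * δ)) - 1) = si ^ 6 * (1 + (e : Λ) ^ 4 * δ) - (e : Λ) ^ 20
    rw [hp]; linear_combination (si ^ 6 * (1 + (e : Λ) ^ 4 * δ)) * hn 20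
  · change ((e ^ ((20 : ℕ) : ℤ) : Λˣ) : Λ) * (((e ^ (-((20 : ℕ) : ℤ)) : Λˣ) : Λ) *
      (si ^ 6 * (1 + (e : Λ) ^ 4 * δ)) - 1) = si ^ 6 * (1 + (e : Λ) ^ 4 * δ) - (e : Λ) ^ 20
    rw [hp]; linear_combination (si ^ 6 * (1 + (e : Λ) ^ 4 * δ)) * hn 20
  · change ((e ^ ((0 : ℕ) : ℤ) : Λˣ) : Λ) * (((e ^ ((26 : ℕ) : ℤ) : Λˣ) : Λ) * δ - 1) =
      (e : Λ) ^ 26 * δ - 1
    rw [hp, hp]; ring

/-- Near the limit value all relevant quantities are units. -/
theorem node_units {R : Type} [CommRing R] {ε sg si hf : R} (hC : Cpl ε) (hinv : sg * si = 1)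
    (hhf : 2 * hf = 1) (i : Fin 6) {δ : R} (hδ : ε ∣ δ - d0 sg si i) :
    IsUnit (sUnit ε si i δ) ∧ IsUnit (un sg i δ) ∧
      IsUnit (![δ, δ, δ, si ^ 6 * (1 + ε ^ 4 * δ), si ^ 6 * (1 + ε ^ 4 * δ), δ] i) := by
  have hsg : IsUnit sg := IsUnit.of_mul_eq_one si hinv
  have hsi : IsUnit si := IsUnit.of_mul_eq_one sg (by rw [mul_comm]; exact hinv)
  have h2 : IsUnit (2 : R) := IsUnit.of_mul_eq_one hf hhf
  have key : ∀ {u x : R} (w : R), IsUnit u → x = u + ε * w → IsUnit x := by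
    intro u x w hu hx
    rw [hx]
    exact hC.isUnit_add hu w
  obtain ⟨y, hy⟩ := hδ
  fin_cases i
  · change δ - 1 = ε * y at hy
    change IsUnit (ε ^ 2 * δ - 1) ∧ IsUnit (1 : R) ∧ IsUnit δ
    exact ⟨key (ε * δ) isUnit_one.neg (by ring), isUnit_one,
      key y isUnit_one (by linear_combination hy)⟩
  · change δ - 1 = ε * y at hy
    change IsUnit (δ - ε ^ 2) ∧ IsUnit (1 : R) ∧ IsUnit δ
    exact ⟨key (y - ε) isUnit_one (by linear_combination hy), isUnit_one,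
      key y isUnit_one (by linear_combination hy)⟩
  · change δ - si ^ 4 = ε * y at hy
    change IsUnit (δ - ε ^ 12) ∧ IsUnit (1 : R) ∧ IsUnit δ
    exact ⟨key (y - ε ^ 11) (hsi.pow 4) (by linear_combination hy), isUnit_one,
      key y (hsi.pow 4) (by linear_combination hy)⟩
  · change δ - (sg ^ 2 + sg) = ε * y at hy
    change IsUnit (si ^ 6 * (1 + ε ^ 4 * δ) - ε ^ 20) ∧ IsUnit (δ - (sg ^ 2 - sg)) ∧
      IsUnit (si ^ 6 * (1 + ε ^ 4 * δ))
    exact ⟨key (si ^ 6 * ε ^ 3 * δ - ε ^ 19) (hsi.pow 6) (by ring),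
      key y (h2.mul hsg) (by linear_combination hy),
      key (si ^ 6 * ε ^ 3 * δ) (hsi.pow 6) (by ring)⟩
  · change δ - (sg ^ 2 - sg) = ε * y at hy
    change IsUnit (si ^ 6 * (1 + ε ^ 4 * δ) - ε ^ 20) ∧ IsUnit (δ - (sg ^ 2 + sg)) ∧
      IsUnit (si ^ 6 * (1 + ε ^ 4 * δ))
    exact ⟨key (si ^ 6 * ε ^ 3 * δ - ε ^ 19) (hsi.pow 6) (by ring),
      key y (h2.mul hsg).neg (by linear_combination hy),
      key (si ^ 6 * ε ^ 3 * δ) (hsi.pow 6) (by ring)⟩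
  · change δ - -sg ^ 8 = ε * y at hy
    change IsUnit (ε ^ 26 * δ - 1) ∧ IsUnit (1 : R) ∧ IsUnit δ
    exact ⟨key (ε ^ 25 * δ) isUnit_one.neg (by ring), isUnit_one,
      key y (hsg.pow 8).neg (by linear_combination hy)⟩

end Pool.Agent.P.MP_48bde8_co
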