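import Pool.Agent.P.MP_48bde8_co.Atoms
import Pool.Agent.P.MP_48bde8_co.Clus

/-! Task CROSS: overlapping tight regions. -/

namespace Pool.Agent.P.MP_48bde8_co

open Equiv Finset
open scoped Classical

variable {P : Type} [Fintype P]

namespace CrossAux

open Amb

variable {A : Amb P} {ψ : Perm P} {R S : Rg P}

omit [Fintype P] in
theorem mem_inf_snd {p : P} : p ∈ (R ⊓ S).2 ↔ p ∈ R.2 ∧ p ∈ S.2 := by
  rw [Prod.snd_inf, inf_eq_inter, mem_inter]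

omit [Fintype P] in
theorem mem_inf_fst {p : P} : p ∈ (R ⊓ S).1 ↔ p ∈ R.1 ∧ p ∈ S.1 := by
  rw [Prod.fst_inf, inf_eq_inter, mem_inter]

omit [Fintype P] in
theorem mem_join_snd {p : P} : p ∈ (R ⊔ S).2 ↔ p ∈ R.2 ∨ p ∈ S.2 := by
  rw [Prod.snd_sup, sup_eq_union, mem_union]

omit [Fintype P] in
theorem mem_join_fst {p : P} : p ∈ (R ⊔ S).1 ↔ p ∈ R.1 ∨ p ∈ S.1 := by
  rw [Prod.fst_sup, sup_eq_union, mem_union]

omit [Fintype P] in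
theorem ov_symm (h : Ov R S) : Ov S R := fun hd => h hd.symm

omit [Fintype P] in
theorem ov_mono {T : Rg P} (h : Ov R S) (hle : R ≤ T) : Ov T S :=
  fun hd => h (hd.mono_left hle.1)

theorem inv_mem_orb (f : Perm P) (p : P) : f⁻¹ p ∈ orb f p := by
  have h := self_mem_orb f (f⁻¹ p)
  rw [← orb_apply f (f⁻¹ p)] at h
  simpa using h

omit [Fintype P] in
theorem ty_inv (hψ : A.WV ψ) (p : P) : A.ty (ψ⁻¹ p) = A.ty p := by
  rw [← (hψ (ψ⁻¹ p)).1]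
  simp

/-- A common dart of two tight regions has a common internal step at one of its three sites,
one-sided form. -/
theorem dart_half (hA : A.OK) (hψ : A.WV ψ) (hR : A.Tight ψ R) (hS : A.Tight ψ S) {b : P}
    (hbR : b ∈ R.1) (hbS : b ∈ S.1) (hty : A.ty b = false) (ha : A.π b ∉ R.2)
    (h1 : ¬ (b ∈ R.2 ∧ b ∈ S.2)) (h2 : ¬ (ψ⁻¹ b ∈ R.2 ∧ ψ⁻¹ b ∈ S.2)) : False := by
  obtain ⟨_, hpp, hta⟩ := hA.2.2 b (hR.1.1.1.2.1 hbR)
  rw [hty] at hta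
  have hta' : A.ty (A.π b) = true := by simpa using hta
  have h3 := Tight.acut hA hψ hR (hR.1.1.1.1.1 b hbR) hta' ha
  rw [hpp] at h3
  have hb1 : b ∈ R.2 := h3 (self_mem_orb ψ b)
  have hb2 : ψ⁻¹ b ∈ R.2 := h3 (inv_mem_orb ψ b)
  by_cases haS : A.π b ∈ S.2
  · rcases hS.2.2.1 b hbS hty haS with h | h
    · exact h1 ⟨hb1, h⟩
    · exact h2 ⟨hb2, h⟩
  · have h4 := Tight.acut hA hψ hS (hS.1.1.1.1.1 b hbS) hta' haS
    rw [hpp] at h4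
    exact h1 ⟨hb1, h4 (self_mem_orb ψ b)⟩

/-- A step of the region entering a component belongs to the component. -/
theorem inv_mem_comp (hR : A.Pre ψ R) {p q : P} (hq : q ∈ (A.comp ψ R p).1)
    (h : ψ⁻¹ q ∈ R.2) : ψ⁻¹ q ∈ (A.comp ψ R p).2 := by
  refine (mem_comp_snd hR).2 ⟨(mem_comp_step hR h).2 ?_, h⟩
  simpa using hq

/-- Every component of the meet of two tight regions has an internal step. -/
theorem comp_snd_ne (hA : A.OK) (hψ : A.WV ψ) (hR : A.Tight ψ R) (hS : A.Tight ψ S) {p : P}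
    (hp : p ∈ (R ⊓ S).1) : (A.comp ψ (R ⊓ S) p).2 ≠ ∅ := by
  intro h0
  have hM : A.Reg ψ (R ⊓ S) := hR.1.1.1.inf hS.1.1.1
  have hK : A.Reg ψ (A.comp ψ (R ⊓ S) p) := hM.comp p
  have hpK : p ∈ (A.comp ψ (R ⊓ S) p).1 := mem_comp_self hp
  obtain ⟨b, hb, hty⟩ : ∃ b ∈ (A.comp ψ (R ⊓ S) p).1, A.ty b = false := by
    cases h : A.ty p with
    | false => exact ⟨p, hpK, h⟩
    | true =>
      refine ⟨A.π p, hK.1.1 p hpK, ?_⟩
      rw [(hA.2.2 p (hK.2.1 hpK)).2.2, h]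
      rfl
  have hno : ∀ q, q ∉ (A.comp ψ (R ⊓ S) p).2 := fun q hq => by
    rw [h0] at hq
    exact notMem_empty q hq
  obtain ⟨hbR, hbS⟩ := mem_inf_fst.1 ((comp_le (R ⊓ S) p).1 hb)
  have h1 : ¬ (b ∈ R.2 ∧ b ∈ S.2) := fun h =>
    hno b ((mem_comp_snd hM.1).2 ⟨hb, mem_inf_snd.2 h⟩)
  have h2 : ¬ (ψ⁻¹ b ∈ R.2 ∧ ψ⁻¹ b ∈ S.2) := fun h =>
    hno _ (inv_mem_comp hM.1 hb (mem_inf_snd.2 h))
  have h3 : ¬ (A.π b ∈ R.2 ∧ A.π b ∈ S.2) := fun h =>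
    hno _ ((mem_comp_snd hM.1).2 ⟨hK.1.1 b hb, mem_inf_snd.2 h⟩)
  by_cases ha : A.π b ∈ R.2
  · exact dart_half hA hψ hS hR hbS hbR hty (fun h => h3 ⟨ha, h⟩) (fun h => h1 h.symm)
      (fun h => h2 h.symm)
  · exact dart_half hA hψ hR hS hbR hbS hty ha h1 h2

/-- The second tightness condition passes to joins. -/
theorem t2_sup (hR : A.Tight ψ R) (hS : A.Tight ψ S) :
    ∀ b ∈ (R ⊔ S).1, A.ty b = false → A.π b ∈ (R ⊔ S).2 →
      b ∈ (R ⊔ S).2 ∨ ψ⁻¹ b ∈ (R ⊔ S).2 := by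
  intro b _ hty he
  simp only [mem_join_snd] at he ⊢
  rcases he with he | he
  · have := hR.2.2.1 b ((hR.1.1.1.1.mem_iff b).1 (hR.1.1.1.1.2.1 he)) hty he
    tauto
  · have := hS.2.2.1 b ((hS.1.1.1.1.mem_iff b).1 (hS.1.1.1.1.2.1 he)) hty he
    tauto

/-- The third tightness condition passes to joins. -/
theorem t3_sup (hR : A.Tight ψ R) (hS : A.Tight ψ S) (h3 : bd R = 3) (h3' : bd S = 3) :
    ∀ b ∈ (R ⊔ S).1, A.ty b = false → A.π b ∈ (R ⊔ S).2 →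
      ψ⁻¹ b ∈ (R ⊔ S).2 ∨ A.al ψ b ∈ (R ⊔ S).2 := by
  intro b _ hty he
  simp only [mem_join_snd] at he ⊢
  rcases he with he | he
  · have := hR.2.2.2 h3 b ((hR.1.1.1.1.mem_iff b).1 (hR.1.1.1.1.2.1 he)) hty he
    tauto
  · have := hS.2.2.2 h3' b ((hS.1.1.1.1.mem_iff b).1 (hS.1.1.1.1.2.1 he)) hty he
    tauto

end CrossAux

namespace Amb

open CrossAux

variable {A : Amb P} {ψ : Perm P} {R S : Rg P}

/-- A disc component of the meet. -/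
theorem cross_comp (hA : A.OK) (hψ : A.WV ψ) (hR : A.Tight ψ R) (hS : A.Tight ψ S) {p : P}
    (hp : p ∈ (R ⊓ S).1) (he : A.eps ψ (A.comp ψ (R ⊓ S) p) = 1) :
    bd R ≤ bd (A.comp ψ (R ⊓ S) p) ∧ bd S ≤ bd (A.comp ψ (R ⊓ S) p) ∧
      (A.comp ψ (R ⊓ S) p).2 ≠ ∅ := by
  have hne := comp_snd_ne hA hψ hR hS hp
  have hM : A.Reg ψ (R ⊓ S) := hR.1.1.1.inf hS.1.1.1
  have hK : A.Reg ψ (A.comp ψ (R ⊓ S) p) := hM.comp p
  have hb1 := (eps_comp_le hR.1.1.1.1 hR.1.1.2.1 hR.1.1.2.2.2 hM.1 inf_le_left hp).1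
  have hD : A.Disc ψ (A.comp ψ (R ⊓ S) p) := ⟨hK, comp_conn hM.1 hp, he, hb1⟩
  have hle := comp_le (A := A) (ψ := ψ) (R ⊓ S) p
  have hR3 := hR.1.2.1
  have hS3 := hS.1.2.1
  by_cases h3 : 3 ≤ bd (A.comp ψ (R ⊓ S) p)
  · exact ⟨by omega, by omega, hne⟩
  by_cases hf : A.Feat ψ (A.comp ψ (R ⊓ S) p)
  · have hdiv : A.Div ψ (A.comp ψ (R ⊓ S) p) := ⟨hD, by omega, hf⟩
    exact ⟨hR.2.1 _ hdiv (hle.trans inf_le_left), hS.2.1 _ hdiv (hle.trans inf_le_right), hne⟩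
  have h2 := flat_two_le hA hψ hD hf
  obtain ⟨b, hb, hty, hc⟩ := flat_two hA hψ hD hf (by omega)
  rcases hc with hc | ⟨hI, hc⟩
  · exact absurd (by rw [hc]; rfl) hne
  obtain ⟨hal, htal, -⟩ := edge_facts hA hψ hK hb hty hI
  have hA2 : ∀ q ∈ (A.comp ψ (R ⊓ S) p).2, A.ty q = true := by
    intro q hq
    rw [hc] at hq
    have hq' : q = A.π b ∨ q = A.π (A.al ψ b) := by simpa [rQ] using hq
    rcases hq' with rfl | rfl
    · rw [(hA.2.2 b (hK.2.1 hb)).2.2, hty]; rfl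
    · rw [(hA.2.2 _ (hK.2.1 hal)).2.2, htal]; rfl
  have hB : ∀ q ∈ (A.comp ψ (R ⊓ S) p).1, A.ty q = false →
      ¬ (q ∈ R.2 ∧ q ∈ S.2) ∧ ¬ (ψ⁻¹ q ∈ R.2 ∧ ψ⁻¹ q ∈ S.2) := by
    intro q hq htq
    constructor
    · intro h
      have := hA2 q ((mem_comp_snd hM.1).2 ⟨hq, mem_inf_snd.2 h⟩)
      rw [htq] at this
      exact Bool.noConfusion this
    · intro h
      have := hA2 _ (inv_mem_comp hM.1 hq (mem_inf_snd.2 h))
      rw [ty_inv hψ, htq] at this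
      exact Bool.noConfusion this
  obtain ⟨heR, heS⟩ := mem_inf_snd.1 (hle.2 hI)
  obtain ⟨h4, h5, -⟩ := four_step hA hψ hR hS (mem_inf_fst.1 (hle.1 hb)).1 hty heR heS (by
    intro q hq
    simp only [List.mem_cons, List.not_mem_nil, or_false] at hq
    rcases hq with rfl | rfl | rfl | rfl
    · exact (hB _ hb hty).1
    · exact (hB _ hb hty).2
    · exact (hB _ hal htal).1
    · exact (hB _ hal htal).2)
  exact ⟨by omega, by omega, hne⟩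

theorem cross (hA : A.OK) (hψ : A.WV ψ) (hR : A.Tight ψ R) (hS : A.Tight ψ S) (ho : Ov R S)
    (h1 : 1 ≤ bd (R ⊔ S)) :
    A.Div ψ (R ⊔ S) ∧ bd (R ⊔ S) ≤ bd R ∧ bd (R ⊔ S) ≤ bd S ∧
      ∃ p ∈ (R ⊓ S).1, A.Disc ψ (A.comp ψ (R ⊓ S) p) ∧ bd R ≤ bd (A.comp ψ (R ⊓ S) p) ∧
        bd S ≤ bd (A.comp ψ (R ⊓ S) p) ∧ (A.comp ψ (R ⊓ S) p).2 ≠ ∅ := by
  have hM : A.Reg ψ (R ⊓ S) := hR.1.1.1.inf hS.1.1.1
  have hJ : A.Reg ψ (R ⊔ S) := hR.1.1.1.sup hS.1.1.1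
  have hJc : A.RConn ψ (R ⊔ S) := hR.1.1.2.1.sup hS.1.1.2.1 ho
  have he1 := eps_le_one hJ.1 hJc h1
  have hsm := eps_supermod (A := A) (ψ := ψ) R S
  rw [hR.1.1.2.2.1, hS.1.1.2.2.1] at hsm
  have hmod := bd_modular hR.1.1.1.1.2.1 hS.1.1.1.1.2.1
  have hcomp : ∀ p ∈ (R ⊓ S).1, 1 ≤ bd (A.comp ψ (R ⊓ S) p) ∧
      A.eps ψ (A.comp ψ (R ⊓ S) p) ≤ 1 := fun p hp =>
    eps_comp_le hR.1.1.1.1 hR.1.1.2.1 hR.1.1.2.2.2 hM.1 inf_le_left hp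
  have hM1 : A.eps ψ (R ⊓ S) ≤ 1 := by
    by_contra h
    obtain ⟨p, hp, q, hq, hpq, hep, heq⟩ :=
      exists_two_comps hM.1 (fun p hp => (hcomp p hp).2) (by omega)
    have h2 := (cross_comp hA hψ hR hS hp hep).1
    have h3 := (cross_comp hA hψ hR hS hq heq).2.1
    have h4 := bd_comp_add_le hM.1 hpq
    omega
  obtain ⟨p, hp, hep⟩ := exists_comp_eps_one hM.1 (fun p hp => (hcomp p hp).2) (by omega)
  obtain ⟨h2, h3, h4⟩ := cross_comp hA hψ hR hS hp hep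
  have h5 := bd_comp_le hM.1 p
  have hR3 := hR.1.2.1
  refine ⟨⟨⟨hJ, hJc, by omega, h1⟩, by omega, hR.1.2.2.mono le_sup_left⟩, by omega, by omega,
    p, hp, ⟨hM.comp p, comp_conn hM.1 hp, hep, (hcomp p hp).1⟩, h2, h3, h4⟩

end Amb

namespace CrossAux

open Amb

variable {A : Amb P} {ψ : Perm P} {R S : Rg P}

/-- A tight subregion of the join with the least number of cuts, overlapping `R`. -/
theorem t1_half (hA : A.OK) (hψ : A.WV ψ) (hR : A.Tight ψ R) (hS : A.Tight ψ S) (ho : Ov R S)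
    (h1 : 1 ≤ bd (R ⊔ S)) {D : Rg P} (hD : A.Tight ψ D) (hle : D ≤ R ⊔ S) (h2 : bd D ≤ 2)
    (hmin : ∀ D', A.Div ψ D' → D' ≤ R ⊔ S → bd D ≤ bd D') (hDR : Ov D R) :
    bd (R ⊔ S) ≤ bd D := by
  have hJ := (cross hA hψ hR hS ho h1).1
  have hle1 : D ⊔ R ≤ R ⊔ S := sup_le hle le_sup_left
  have hne : (D ⊔ R).1.Nonempty := hR.1.1.2.1.1.mono (le_sup_right : R ≤ D ⊔ R).1
  have hb1 : 1 ≤ bd (D ⊔ R) :=
    bd_pos_of_le hJ.1.1.1 hJ.1.2.1 h1 (hD.1.1.1.1.sup hR.1.1.1.1) hle1 hne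
  obtain ⟨hD1, hb2, -⟩ := cross hA hψ hD hR hDR hb1
  have hT : A.Tight ψ (D ⊔ R) :=
    ⟨hD1, fun D' h h' => hb2.trans (hmin D' h (h'.trans hle1)), t2_sup hD hR,
      fun h => by omega⟩
  have e : D ⊔ R ⊔ S = R ⊔ S := by
    rw [sup_assoc]
    exact sup_eq_right.2 hle
  have h3 := (cross hA hψ hT hS (ov_mono ho le_sup_right) (by rw [e]; exact h1)).2.1
  rw [e] at h3
  omega

end CrossAux

namespace Amb

open CrossAux

variable {A : Amb P} {ψ : Perm P} {R S : Rg P}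

theorem Tight.sup (hA : A.OK) (hψ : A.WV ψ) (hR : A.Tight ψ R) (hS : A.Tight ψ S) (ho : Ov R S)
    (h1 : 1 ≤ bd (R ⊔ S)) : A.Tight ψ (R ⊔ S) := by
  obtain ⟨hJ, hb1, hb2, -⟩ := cross hA hψ hR hS ho h1
  have hR3 := hR.1.2.1
  have hS3 := hS.1.2.1
  refine ⟨hJ, ?_, t2_sup hR hS, fun h => t3_sup hR hS (by omega) (by omega)⟩
  intro D0 hD0 hle0
  by_contra hlt
  obtain ⟨D, hD, hle, hmin⟩ := exists_tight hA hψ hD0 hle0 (by omega)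
  have h0 := hmin D0 hD0 hle0
  obtain ⟨q, hq⟩ := hD.1.1.2.1.1
  rcases mem_join_fst.1 (hle.1 hq) with h | h
  · have := t1_half hA hψ hR hS ho h1 hD hle (by omega) hmin
      (fun hd => disjoint_left.1 hd hq h)
    omega
  · rw [sup_comm] at h1 hle hmin hlt hb1
    have := t1_half hA hψ hS hR (ov_symm ho) h1 hD hle (by omega) hmin
      (fun hd => disjoint_left.1 hd hq h)
    omega

/-- The join of a cluster of atoms that avoids a port in use. -/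
theorem cluster_tight (hA : A.OK) (hψ : A.WV ψ) (hc : A.Conn ψ) {C : Finset (Rg P)}
    (hC : C ⊆ A.atoms ψ) (ho : OConn C) {h : P} (hh : h ∈ A.U) (hh' : h ∉ (C.sup id).1) :
    A.Tight ψ (C.sup id) ∧ ∀ S ∈ C, bd (C.sup id) ≤ bd S := by
  have hat : ∀ R ∈ C, A.Tight ψ R := fun R hR =>
    Atom.tight hA hψ (mem_filter.1 (hC hR)).2
  refine ho.induction (Q := fun D => A.Tight ψ (D.sup id) ∧ ∀ S ∈ D, bd (D.sup id) ≤ bd S)
    ?_ ?_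
  · intro R hR
    rw [sup_singleton]
    refine ⟨hat R hR, fun S hS => ?_⟩
    rw [mem_singleton.1 hS]
    exact le_rfl
  · intro D hD R hR _ _ hov hQ
    rw [sup_insert]
    have hT := hat R hR
    have hJ : A.Reg ψ (R ⊔ D.sup id) := hT.1.1.1.sup hQ.1.1.1.1
    have hle : R ⊔ D.sup id ≤ C.sup id := sup_le (le_sup (f := id) hR) (sup_mono hD)
    have hb1 : 1 ≤ bd (R ⊔ D.sup id) :=
      bd_pos_of_conn hc hJ.1 (hJ.2.1.trans hA.2.1)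
        (hT.1.1.2.1.1.mono (le_sup_left : R ≤ R ⊔ D.sup id).1) hh (fun hm => hh' (hle.1 hm))
    obtain ⟨-, h2, h3, -⟩ := cross hA hψ hT hQ.1 hov hb1
    refine ⟨Tight.sup hA hψ hT hQ.1 hov hb1, fun S hS => ?_⟩
    rcases mem_insert.1 hS with rfl | hS
    · exact h2
    · exact h3.trans (hQ.2 S hS)

theorem co_zero (hA : A.OK) (hψ : A.WV ψ) (hc : A.Conn ψ) {h : P} (hh : h ∈ A.U)
    (hh' : h ∉ R.1) : A.co ψ 0 R = clF (A.atoms ψ) R := by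
  unfold co
  by_cases hd : A.Disc ψ R ∧ bd R ≤ 3
  · rw [if_pos hd]
    rfl
  · rw [if_neg hd]
    by_contra hne
    obtain ⟨C, hC, ho, e⟩ := exists_of_clF_ne (fun h0 => hne h0.symm)
    have hT := (cluster_tight hA hψ hc hC ho hh (by rw [e]; exact hh')).1
    rw [e] at hT
    exact hd ⟨hT.1.1, hT.1.2.1⟩

end Amb

end Pool.Agent.P.MP_48bde8_co
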