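import Pool.Agent.P.MP_48bde8_co.CurveAux

/-! Task CURVE: the resolvent lies on the curve. -/

namespace Pool.Agent.P.MP_48bde8_co

variable {R : Type} [CommRing R]

theorem curve_zero {x z s m f : R} {θ : Fin 10 → R} {τ φ : List Bool → R} (hτ : SDC x z θ τ)
    (h : PR x s θ τ φ) (hm : s * (m - x) = 1) (hf : m * f = -(m * φ []) - (x - z))
    (ha : IsUnit (θ 0)) (hc : IsUnit (θ 2)) (hmu : IsUnit m) :
    curveK x z θ (Kap x z θ τ) (coefT x z θ fun i => τ (w9 i)) f m = 0 := by
  have sR : ∀ w, φ (w ++ [false]) = m * φ w - τ w := fun w => by
    linear_combination (m - x) * h.stR w - (φ (w ++ [false]) - x * φ w + τ w) * hm
  have sL : ∀ w, φ (false :: w) = m * φ w - τ w := fun w => by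
    linear_combination (m - x) * h.stL w - (φ (false :: w) - x * φ w + τ w) * hm
  have t0 : τ [] = z := hτ.nil
  have tBA : τ [false, true] = τ [true, false] := (hτ.rotT false [true]).symm
  have tABA : τ [true, false, true] = τ [true, true, false] := ((hτ.rotT true [false,
    true]).symm).trans (hτ.rotT false [true, true]).symm
  have tBAA : τ [false, true, true] = τ [true, true, false] := (hτ.rotT false [true, true]).symm
  have tBAB : τ [false, true, false] = τ [true, false, false] := (hτ.rotT false [true,
    false]).symm
  have tBBA : τ [false, false, true] = τ [true, false, false] := ((hτ.rotT false [false,
    true]).symm).trans (hτ.rotT false [true, false]).symm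
  have tAABA : τ [true, true, false, true] = τ [true, true, true, false] := (((hτ.rotT true [true,
    false, true]).symm).trans (hτ.rotT true [false, true, true]).symm).trans (hτ.rotT false [true,
    true, true]).symm
  have tABAA : τ [true, false, true, true] = τ [true, true, true, false] := ((hτ.rotT true [false,
    true, true]).symm).trans (hτ.rotT false [true, true, true]).symm
  have tABBA : τ [true, false, false, true] = τ [true, true, false, false] := (((hτ.rotT true
    [false, false, true]).symm).trans (hτ.rotT false [false, true, true]).symm).trans (hτ.rotT
    false [true, true, false]).symm
  have tBAAA : τ [false, true, true, true] = τ [true, true, true, false] := (hτ.rotT false [true,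
    true, true]).symm
  have tBAAB : τ [false, true, true, false] = τ [true, true, false, false] := (hτ.rotT false
    [true, true, false]).symm
  have tBABA : τ [false, true, false, true] = τ [true, false, true, false] := (hτ.rotT false
    [true, false, true]).symm
  have tBABB : τ [false, true, false, false] = τ [true, false, false, false] := (hτ.rotT false
    [true, false, false]).symm
  have tAABBA : τ [true, true, false, false, true] = τ [true, true, true, false, false] :=
    ((((hτ.rotT true [true, false, false, true]).symm).trans (hτ.rotT true [false, false, true,
    true]).symm).trans (hτ.rotT false [false, true, true, true]).symm).trans (hτ.rotT false [true,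
    true, true, false]).symm
  have tABAAB : τ [true, false, true, true, false] = τ [true, true, false, true, false] :=
    ((hτ.rotT true [false, true, true, false]).symm).trans (hτ.rotT false [true, true, false,
    true]).symm
  have tABABA : τ [true, false, true, false, true] = τ [true, true, false, true, false] :=
    ((((hτ.rotT true [false, true, false, true]).symm).trans (hτ.rotT false [true, false, true,
    true]).symm).trans (hτ.rotT true [false, true, true, false]).symm).trans (hτ.rotT false [true,
    true, false, true]).symm
  have tABBAB : τ [true, false, false, true, false] = τ [true, false, true, false, false] :=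
    (((hτ.rotT true [false, false, true, false]).symm).trans (hτ.rotT false [false, true, false,
    true]).symm).trans (hτ.rotT false [true, false, true, false]).symm
  have tABBBA : τ [true, false, false, false, true] = τ [true, true, false, false, false] :=
    ((((hτ.rotT true [false, false, false, true]).symm).trans (hτ.rotT false [false, false, true,
    true]).symm).trans (hτ.rotT false [false, true, true, false]).symm).trans (hτ.rotT false
    [true, true, false, false]).symm
  have tBAABA : τ [false, true, true, false, true] = τ [true, true, false, true, false] :=
    (hτ.rotT false [true, true, false, true]).symm
  have tBAABB : τ [false, true, true, false, false] = τ [true, true, false, false, false] :=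
    (hτ.rotT false [true, true, false, false]).symm
  have tBABAA : τ [false, true, false, true, true] = τ [true, true, false, true, false] :=
    (((hτ.rotT false [true, false, true, true]).symm).trans (hτ.rotT true [false, true, true,
    false]).symm).trans (hτ.rotT false [true, true, false, true]).symm
  have tBABAB : τ [false, true, false, true, false] = τ [true, false, true, false, false] :=
    (hτ.rotT false [true, false, true, false]).symm
  have tBABBA : τ [false, true, false, false, true] = τ [true, false, true, false, false] :=
    ((((hτ.rotT false [true, false, false, true]).symm).trans (hτ.rotT true [false, false, true,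
    false]).symm).trans (hτ.rotT false [false, true, false, true]).symm).trans (hτ.rotT false
    [true, false, true, false]).symm
  have tBABBB : τ [false, true, false, false, false] = τ [true, false, false, false, false] :=
    (hτ.rotT false [true, false, false, false]).symm
  have pB : φ [false] = m * φ [] - τ [] := sR []
  have pAB : φ [true, false] = m * φ [true] - τ [true] := sR [true]
  have pBA : φ [false, true] = m * φ [true] - τ [true] := sL [true]
  have pBB : φ [false, false] = m * φ [false] - τ [false] := sR [false]
  have pAAB : φ [true, true, false] = m * φ [true, true] - τ [true, true] := sR [true, true]
  have pABB : φ [true, false, false] = m * φ [true, false] - τ [true, false] := sR [true, false]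
  have pBAA : φ [false, true, true] = m * φ [true, true] - τ [true, true] := sL [true, true]
  have pBAB : φ [false, true, false] = m * φ [false, true] - τ [false, true] := sR [false, true]
  have pBBA : φ [false, false, true] = m * φ [false, true] - τ [false, true] := sL [false, true]
  have pBBB : φ [false, false, false] = m * φ [false, false] - τ [false, false] := sR [false,
    false]
  have pABBB : φ [true, false, false, false] = m * φ [true, false, false] - τ [true, false, false]
    := sR [true, false, false]
  have pBAAA : φ [false, true, true, true] = m * φ [true, true, true] - τ [true, true, true] := sL
    [true, true, true]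
  have pBAAB : φ [false, true, true, false] = m * φ [false, true, true] - τ [false, true, true] :=
    sR [false, true, true]
  have pBABA : φ [false, true, false, true] = m * φ [true, false, true] - τ [true, false, true] :=
    sL [true, false, true]
  have pBABB : φ [false, true, false, false] = m * φ [false, true, false] - τ [false, true, false]
    := sR [false, true, false]
  have pBAAAB : φ [false, true, true, true, false] = m * φ [false, true, true, true] - τ [false,
    true, true, true] := sR [false, true, true, true]
  have pBAABA : φ [false, true, true, false, true] = m * φ [true, true, false, true] - τ [true,
    true, false, true] := sL [true, true, false, true]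
  have pBAABB : φ [false, true, true, false, false] = m * φ [false, true, true, false] - τ [false,
    true, true, false] := sR [false, true, true, false]
  have pBABAA : φ [false, true, false, true, true] = m * φ [true, false, true, true] - τ [true,
    false, true, true] := sL [true, false, true, true]
  have pBABAB : φ [false, true, false, true, false] = m * φ [false, true, false, true] - τ [false,
    true, false, true] := sR [false, true, false, true]
  have pBABBA : φ [false, true, false, false, true] = m * φ [true, false, false, true] - τ [true,
    false, false, true] := sL [true, false, false, true]
  have pBABBB : φ [false, true, false, false, false] = m * φ [false, true, false, false] - τ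
    [false, true, false, false] := sR [false, true, false, false]
  have pBAABAB : φ [false, true, true, false, true, false] = m * φ [false, true, true, false,
    true] - τ [false, true, true, false, true] := sR [false, true, true, false, true]
  have pBAABBA : φ [false, true, true, false, false, true] = m * φ [true, true, false, false,
    true] - τ [true, true, false, false, true] := sL [true, true, false, false, true]
  have pBAABBB : φ [false, true, true, false, false, false] = m * φ [false, true, true, false,
    false] - τ [false, true, true, false, false] := sR [false, true, true, false, false]
  have pBABAAB : φ [false, true, false, true, true, false] = m * φ [false, true, false, true,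
    true] - τ [false, true, false, true, true] := sR [false, true, false, true, true]
  have pBABABA : φ [false, true, false, true, false, true] = m * φ [true, false, true, false,
    true] - τ [true, false, true, false, true] := sL [true, false, true, false, true]
  have pBABABB : φ [false, true, false, true, false, false] = m * φ [false, true, false, true,
    false] - τ [false, true, false, true, false] := sR [false, true, false, true, false]
  have pBABBAB : φ [false, true, false, false, true, false] = m * φ [false, true, false, false,
    true] - τ [false, true, false, false, true] := sR [false, true, false, false, true]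
  have pBABBBA : φ [false, true, false, false, false, true] = m * φ [true, false, false, false,
    true] - τ [true, false, false, false, true] := sL [true, false, false, false, true]
  have pBABBBB : φ [false, true, false, false, false, false] = m * φ [false, true, false, false,
    false] - τ [false, true, false, false, false] := sR [false, true, false, false, false]
  have eA := h.rA []
  have eAA := h.rA [true]
  have eAAB := h.rA [true, false]
  have eB := h.rB []
  have eBA := h.rB [true]
  have eBAA := h.rB [true, true]
  have eBAB := h.rB [true, false]
  have eBAAB := h.rB [true, true, false]
  have eBABA := h.rB [true, false, true]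
  have eBABB := h.rB [true, false, false]
  have eI := h.rI
  have eR := hτ.sdA [true]
  simp only [splits, insA, insB, List.cons_append, List.nil_append, List.map_cons, List.map_nil,
    List.sum_cons, List.sum_nil, reduceIte, Bool.true_eq_false, Bool.false_eq_true, pB, pAB, pBA,
    pBB, pAAB, pABB, pBAA, pBAB, pBBA, pBBB, pABBB, pBAAA, pBAAB, pBABA, pBABB, pBAAAB, pBAABA,
    pBAABB, pBABAA, pBABAB, pBABBA, pBABBB, pBAABAB, pBAABBA, pBAABBB, pBABAAB, pBABABA, pBABABB,
    pBABBAB, pBABBBA, pBABBBB, t0, tBA, tABA, tBAA, tBAB, tBBA, tAABA, tABAA, tABBA, tBAAA, tBAAB,
    tBABA, tBABB, tAABBA, tABAAB, tABABA, tABBAB, tABBBA, tBAABA, tBAABB, tBABAA, tBABAB, tBABBA,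
    tBABBB] at eA eAA eAAB eB eBA eBAA eBAB eBAAB eBABA eBABB eI eR
  obtain ⟨X, rfl⟩ : ∃ X, f = X + (θ 6 * m ^ 2 + θ 7 * m + θ 8) := ⟨f - _, (sub_add_cancel _ _).symm⟩
  have hid := CurveAux.ident (a := θ 0) (c := θ 2) (p := θ 3) (q := θ 4) (u := θ 5) (d := θ 6) (r
    := θ 7) (v := θ 8) (x := x) (z := z) (m := m) (X := X) (tA := τ [true]) (tAA := τ [true,
    true]) (tAAA := τ [true, true, true]) (tAAAB := τ [true, true, true, false]) (tAAABB := τ
    [true, true, true, false, false]) (tAAB := τ [true, true, false]) (tAABAB := τ [true, true,
    false, true, false]) (tAABB := τ [true, true, false, false]) (tAABBB := τ [true, true, false,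
    false, false]) (tAB := τ [true, false]) (tABAB := τ [true, false, true, false]) (tABABB := τ
    [true, false, true, false, false]) (tABB := τ [true, false, false]) (tABBB := τ [true, false,
    false, false]) (tABBBB := τ [true, false, false, false, false]) (tB := τ [false]) (tBB := τ
    [false, false]) (tBBB := τ [false, false, false]) rfl rfl rfl rfl rfl rfl rfl rfl rfl
  have hel := CurveAux.elim (a := θ 0) (c := θ 2) (p := θ 3) (q := θ 4) (u := θ 5) (d := θ 6) (r
    := θ 7) (v := θ 8) (x := x) (z := z) (m := m) (X := X) (G := φ []) (Y := φ [true]) (gAA := φ
    [true, true]) (gAAA := φ [true, true, true]) (gABA := φ [true, false, true]) (gAABA := φ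
    [true, true, false, true]) (gABBA := φ [true, false, false, true]) (gABAA := φ [true, false,
    true, true]) (gAABBA := φ [true, true, false, false, true]) (gABABA := φ [true, false, true,
    false, true]) (gABBBA := φ [true, false, false, false, true]) (tA := τ [true]) (tAA := τ
    [true, true]) (tAAA := τ [true, true, true]) (tAAAB := τ [true, true, true, false]) (tAAB := τ
    [true, true, false]) (tAABB := τ [true, true, false, false]) (tAB := τ [true, false]) (tABAB
    := τ [true, false, true, false]) (tABB := τ [true, false, false]) (tABBB := τ [true, false,
    false, false]) (tB := τ [false]) (bA := (2 : R) * θ 2 * τ [true, true, false] + θ 6 * τ [true,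
    false, false] + θ 4 * τ [true, true] + θ 7 * τ [true, false] + τ [true] * θ 8) (bAA := (2 : R)
    * θ 2 * τ [true, true, true, false] + θ 6 * τ [true, true, false, false] + θ 4 * τ [true,
    true, true] + θ 7 * τ [true, true, false] + τ [true, true] * θ 8) (bAB := θ 2 * τ [true, true,
    false, false] + θ 2 * τ [true, false, true, false] + θ 6 * τ [true, false, false, false] + θ 4
    * τ [true, true, false] + θ 7 * τ [true, false, false] + τ [true] * z + τ [true, false] * θ 8)
    (bAAB := θ 2 * τ [true, true, true, false, false] + θ 2 * τ [true, true, false, true, false] +
    θ 6 * τ [true, true, false, false, false] + θ 4 * τ [true, true, true, false] + θ 7 * τ [true,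
    true, false, false] + τ [true, true] * z + τ [true, true, false] * θ 8) (bABA := (2 : R) * θ 2
    * τ [true, true, false, true, false] + θ 6 * τ [true, false, true, false, false] + θ 4 * τ
    [true, true, true, false] + θ 7 * τ [true, false, true, false] + τ [true] ^ (2 : ℕ) + τ [true,
    true, false] * θ 8) (bABB := θ 2 * τ [true, true, false, false, false] + θ 2 * τ [true, false,
    true, false, false] + θ 6 * τ [true, false, false, false, false] + θ 4 * τ [true, true, false,
    false] + θ 7 * τ [true, false, false, false] + τ [true] * τ [false] + τ [true, false] * z + τ
    [true, false, false] * θ 8)
    (by linear_combination eA)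
    (by linear_combination eAA)
    (by linear_combination eAAB)
    (by linear_combination eBA - φ [true] * hf)
    (by linear_combination eBAA - φ [true, true] * hf)
    (by linear_combination eBAB - (m * φ [true] - τ [true]) * hf)
    (by linear_combination eBAAB - (m * φ [true, true] - τ [true, true]) * hf)
    (by linear_combination eBABA - φ [true, false, true] * hf)
    (by linear_combination eBABB - (m * (m * φ [true] - τ [true]) - τ [true, false]) * hf)
    (by linear_combination eI)
  have hk : (fun i => τ (w9 i)) = ![τ [true], τ [false], τ [true, true], τ [true, false],
      τ [false, false], τ [true, true, true], τ [true, true, false], τ [true, false, false],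
      τ [false, false, false]] := by
    funext i
    fin_cases i <;> rfl
  rw [hk]
  refine Eq.trans (Eq.trans ?_ hid) (CurveAux.fin hel (by linear_combination hf)
    (by linear_combination eB - (φ [] - X) * hf) (by linear_combination eR))
  unfold curveK coefT Kap
  rfl

end Pool.Agent.P.MP_48bde8_co
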