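import Pool.Agent.P.MP_48bde8_co.D2

/-! Elimination of the auxiliary values of the resolvent functional. -/

namespace Pool.Agent.P.MP_48bde8_co.CurveAux

variable {R : Type} [CommRing R]

/-- The linear coefficient of the interior equation. -/
def J1 (X a c d m p q r tA tB v x z : R) : R :=
  (2 : R) * X * a * c ^ (2 : ℕ) * p * q + (2 : R) * X * a * c ^ (3 : ℕ) * m * p + X * a ^ (2 : ℕ)
    * c * d * m * q - X * a ^ (2 : ℕ) * c * q * r + X * a ^ (2 : ℕ) * c ^ (2 : ℕ) * d * m ^ (2 :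
    ℕ) + X * a ^ (2 : ℕ) * c ^ (2 : ℕ) * v + X * a ^ (2 : ℕ) * d * q ^ (2 : ℕ) + X ^ (2 : ℕ) * a ^
    (2 : ℕ) * c ^ (2 : ℕ) + (3 : R) * a * c * d * m * p * q ^ (2 : ℕ) - a * c * p * q ^ (2 : ℕ) *
    r + (3 : R) * a * c ^ (2 : ℕ) * d * m ^ (2 : ℕ) * p * q - (2 : R) * a * c ^ (2 : ℕ) * m * p *
    q * r + a * c ^ (2 : ℕ) * p * q * v + a * c ^ (3 : ℕ) * d * m ^ (3 : ℕ) * p + a * c ^ (3 : ℕ)
    * m * p * v - a * c ^ (3 : ℕ) * m ^ (2 : ℕ) * p * r - a * c ^ (3 : ℕ) * p * x + a * c ^ (3 :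
    ℕ) * p * z + a * d * p * q ^ (3 : ℕ) + a ^ (2 : ℕ) * c * d * q * z - a ^ (2 : ℕ) * c ^ (2 : ℕ)
    * d * tB - a ^ (2 : ℕ) * c ^ (2 : ℕ) * r * z - (2 : R) * a ^ (2 : ℕ) * c ^ (3 : ℕ) * tA + c ^
    (2 : ℕ) * p ^ (2 : ℕ) * q ^ (2 : ℕ) + (3 : R) * c ^ (3 : ℕ) * m * p ^ (2 : ℕ) * q + (2 : R) *
    c ^ (4 : ℕ) * m ^ (2 : ℕ) * p ^ (2 : ℕ)

/-- The constant coefficient of the interior equation, first part. -/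
def J0 (X a bA bAA bAAB bAB bABA bABB c d m p q r tA tAA tAAA tAAAB tAAB tAABB tAB tABAB tABB tABBB tB u v x z : R) : R :=
  -X * a * c ^ (2 : ℕ) * m * q ^ (2 : ℕ) * z - X * a * c ^ (3 : ℕ) * m * q * tB - (2 : R) * X * a
    * c ^ (3 : ℕ) * m ^ (2 : ℕ) * q * z - X * a * c ^ (4 : ℕ) * m ^ (2 : ℕ) * tB - X * a * c ^ (4
    : ℕ) * m ^ (3 : ℕ) * z + X * a ^ (2 : ℕ) * bA * c ^ (2 : ℕ) + X * a ^ (2 : ℕ) * c * d * m * q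
    * tA + X * a ^ (2 : ℕ) * c ^ (2 : ℕ) * d * m ^ (2 : ℕ) * tA + a * bA * c ^ (2 : ℕ) * p * q + a
    * bA * c ^ (3 : ℕ) * m * p - a * c * d * m * q ^ (3 : ℕ) * tB - (4 : R) * a * c * d * m ^ (2 :
    ℕ) * q ^ (3 : ℕ) * z + a * c * m * q ^ (3 : ℕ) * r * z + a * c ^ (2 : ℕ) * d * m * p * q * tAB
    + a * c ^ (2 : ℕ) * d * m ^ (2 : ℕ) * p * q * tA - (3 : R) * a * c ^ (2 : ℕ) * d * m ^ (2 : ℕ)
    * q ^ (2 : ℕ) * tB - (6 : R) * a * c ^ (2 : ℕ) * d * m ^ (3 : ℕ) * q ^ (2 : ℕ) * z + a * c ^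
    (2 : ℕ) * m * p * q * r * tA + a * c ^ (2 : ℕ) * m * q ^ (2 : ℕ) * r * tB - a * c ^ (2 : ℕ) *
    m * q ^ (2 : ℕ) * v * z + (3 : R) * a * c ^ (2 : ℕ) * m ^ (2 : ℕ) * q ^ (2 : ℕ) * r * z + a *
    c ^ (3 : ℕ) * d * m ^ (2 : ℕ) * p * tAB + a * c ^ (3 : ℕ) * d * m ^ (3 : ℕ) * p * tA - (3 : R)
    * a * c ^ (3 : ℕ) * d * m ^ (3 : ℕ) * q * tB - (4 : R) * a * c ^ (3 : ℕ) * d * m ^ (4 : ℕ) * q
    * z + a * c ^ (3 : ℕ) * m * p * q * tAA - a * c ^ (3 : ℕ) * m * q * tA * u - a * c ^ (3 : ℕ) *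
    m * q * tB * v + a * c ^ (3 : ℕ) * m * q * x * z - a * c ^ (3 : ℕ) * m * q * z ^ (2 : ℕ) - a *
    c ^ (3 : ℕ) * m * q ^ (2 : ℕ) * tAB + a * c ^ (3 : ℕ) * m ^ (2 : ℕ) * p * r * tA + (2 : R) * a
    * c ^ (3 : ℕ) * m ^ (2 : ℕ) * q * r * tB - (2 : R) * a * c ^ (3 : ℕ) * m ^ (2 : ℕ) * q * v * z
    + (3 : R) * a * c ^ (3 : ℕ) * m ^ (3 : ℕ) * q * r * z - a * c ^ (4 : ℕ) * d * m ^ (4 : ℕ) * tB
    - a * c ^ (4 : ℕ) * d * m ^ (5 : ℕ) * z - a * c ^ (4 : ℕ) * m * q * tABB + a * c ^ (4 : ℕ) * m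
    * tB * x - a * c ^ (4 : ℕ) * m * tB * z + a * c ^ (4 : ℕ) * m ^ (2 : ℕ) * p * tAA - a * c ^ (4
    : ℕ) * m ^ (2 : ℕ) * q * tAB - a * c ^ (4 : ℕ) * m ^ (2 : ℕ) * tA * u - a * c ^ (4 : ℕ) * m ^
    (2 : ℕ) * tB * v + a * c ^ (4 : ℕ) * m ^ (2 : ℕ) * x * z - a * c ^ (4 : ℕ) * m ^ (2 : ℕ) * z ^
    (2 : ℕ) + a * c ^ (4 : ℕ) * m ^ (3 : ℕ) * r * tB - a * c ^ (4 : ℕ) * m ^ (3 : ℕ) * v * z + a *
    c ^ (4 : ℕ) * m ^ (4 : ℕ) * r * z - a * c ^ (5 : ℕ) * m ^ (2 : ℕ) * tABB - a * d * m * q ^ (4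
    : ℕ) * z + (2 : R) * a ^ (2 : ℕ) * bA * c * d * m * q - a ^ (2 : ℕ) * bA * c * q * r + a ^ (2
    : ℕ) * bA * c ^ (2 : ℕ) * d * m ^ (2 : ℕ) - a ^ (2 : ℕ) * bA * c ^ (2 : ℕ) * m * r + a ^ (2 :
    ℕ) * bA * c ^ (2 : ℕ) * v + a ^ (2 : ℕ) * bA * d * q ^ (2 : ℕ) - a ^ (2 : ℕ) * bAA * c ^ (3 :
    ℕ) * m + a ^ (2 : ℕ) * bAAB * c ^ (3 : ℕ) - a ^ (2 : ℕ) * bAB * c * d * q - a ^ (2 : ℕ) * bAB
    * c ^ (2 : ℕ) * d * m + a ^ (2 : ℕ) * bAB * c ^ (2 : ℕ) * r + a ^ (2 : ℕ) * bABA * c ^ (3 : ℕ)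
    + a ^ (2 : ℕ) * bABB * c ^ (2 : ℕ) * d - (2 : R) * a ^ (2 : ℕ) * c * d * m * q * r * tAB + a ^
    (2 : ℕ) * c * d * m * q ^ (2 : ℕ) * tAA + a ^ (2 : ℕ) * c * d * m ^ (2 : ℕ) * q * r * tA - a ^
    (2 : ℕ) * c * d ^ (2 : ℕ) * m * q * tABB + a ^ (2 : ℕ) * c * d ^ (2 : ℕ) * m ^ (2 : ℕ) * q *
    tAB + (2 : R) * a ^ (2 : ℕ) * c * d ^ (2 : ℕ) * m ^ (3 : ℕ) * q * tA - a ^ (2 : ℕ) * c * m * q
    * r ^ (2 : ℕ) * tA - a ^ (2 : ℕ) * c ^ (2 : ℕ) * d * m * q * tAAB + (2 : R) * a ^ (2 : ℕ) * c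
    ^ (2 : ℕ) * d * m * r * tABB + a ^ (2 : ℕ) * c ^ (2 : ℕ) * d * m * tA * z + a ^ (2 : ℕ) * c ^
    (2 : ℕ) * d * m * tAB * v + (2 : R) * a ^ (2 : ℕ) * c ^ (2 : ℕ) * d * m ^ (2 : ℕ) * q * tAA -
    a ^ (2 : ℕ) * c ^ (2 : ℕ) * d * m ^ (2 : ℕ) * r * tAB + a ^ (2 : ℕ) * c ^ (2 : ℕ) * d * m ^ (2
    : ℕ) * tA * v + a ^ (2 : ℕ) * c ^ (2 : ℕ) * d ^ (2 : ℕ) * m * tABBB + a ^ (2 : ℕ) * c ^ (2 :
    ℕ) * d ^ (2 : ℕ) * m ^ (4 : ℕ) * tA - a ^ (2 : ℕ) * c ^ (2 : ℕ) * m * q * r * tAA + a ^ (2 :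
    ℕ) * c ^ (2 : ℕ) * m * r * tA * v + a ^ (2 : ℕ) * c ^ (2 : ℕ) * m * r ^ (2 : ℕ) * tAB - a ^ (2
    : ℕ) * c ^ (2 : ℕ) * m ^ (2 : ℕ) * r ^ (2 : ℕ) * tA + (2 : R) * a ^ (2 : ℕ) * c ^ (3 : ℕ) * d
    * m * tAABB + a ^ (2 : ℕ) * c ^ (3 : ℕ) * d * m * tABAB + (3 : R) * a ^ (2 : ℕ) * c ^ (3 : ℕ)
    * m * r * tAAB + a ^ (2 : ℕ) * c ^ (3 : ℕ) * m * tAA * v - (2 : R) * a ^ (2 : ℕ) * c ^ (3 : ℕ)
    * m ^ (2 : ℕ) * r * tAA + (2 : R) * a ^ (2 : ℕ) * c ^ (4 : ℕ) * m * tAAAB - a ^ (2 : ℕ) * c ^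
    (4 : ℕ) * m ^ (2 : ℕ) * tAAA + a ^ (2 : ℕ) * d * m * q ^ (2 : ℕ) * r * tA + a ^ (2 : ℕ) * d ^
    (2 : ℕ) * m * q ^ (2 : ℕ) * tAB + a ^ (2 : ℕ) * d ^ (2 : ℕ) * m ^ (2 : ℕ) * q ^ (2 : ℕ) * tA -
    c ^ (2 : ℕ) * m * p * q ^ (3 : ℕ) * z - c ^ (3 : ℕ) * m * p * q ^ (2 : ℕ) * tB - (4 : R) * c ^
    (3 : ℕ) * m ^ (2 : ℕ) * p * q ^ (2 : ℕ) * z - (3 : R) * c ^ (4 : ℕ) * m ^ (2 : ℕ) * p * q * tB
    - (5 : R) * c ^ (4 : ℕ) * m ^ (3 : ℕ) * p * q * z - (2 : R) * c ^ (5 : ℕ) * m ^ (3 : ℕ) * p *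
    tB - (2 : R) * c ^ (5 : ℕ) * m ^ (4 : ℕ) * p * z

/-- The constant coefficient of the interior equation, second part. -/
def JG (X a c d m p q r tB u v x z : R) : R :=
  X * a * c ^ (2 : ℕ) * m * q ^ (2 : ℕ) + X * a * c ^ (2 : ℕ) * q * u + X * a * c ^ (3 : ℕ) * m *
    u + (2 : R) * X * a * c ^ (3 : ℕ) * m ^ (2 : ℕ) * q + X * a * c ^ (4 : ℕ) * m ^ (3 : ℕ) + (3 :
    R) * a * c * d * m * q ^ (2 : ℕ) * u + (4 : R) * a * c * d * m ^ (2 : ℕ) * q ^ (3 : ℕ) - a * c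
    * m * q ^ (3 : ℕ) * r - a * c * q ^ (2 : ℕ) * r * u + (3 : R) * a * c ^ (2 : ℕ) * d * m ^ (2 :
    ℕ) * q * u + (6 : R) * a * c ^ (2 : ℕ) * d * m ^ (3 : ℕ) * q ^ (2 : ℕ) - (2 : R) * a * c ^ (2
    : ℕ) * m * q * r * u + a * c ^ (2 : ℕ) * m * q ^ (2 : ℕ) * v - (3 : R) * a * c ^ (2 : ℕ) * m ^
    (2 : ℕ) * q ^ (2 : ℕ) * r + a * c ^ (2 : ℕ) * q * u * v + a * c ^ (3 : ℕ) * d * m ^ (3 : ℕ) *
    u + (4 : R) * a * c ^ (3 : ℕ) * d * m ^ (4 : ℕ) * q - a * c ^ (3 : ℕ) * m * q * x + a * c ^ (3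
    : ℕ) * m * u * v + (2 : R) * a * c ^ (3 : ℕ) * m ^ (2 : ℕ) * q * v - a * c ^ (3 : ℕ) * m ^ (2
    : ℕ) * r * u - (3 : R) * a * c ^ (3 : ℕ) * m ^ (3 : ℕ) * q * r + a * c ^ (3 : ℕ) * q * tB - a
    * c ^ (3 : ℕ) * u * x + a * c ^ (3 : ℕ) * u * z + a * c ^ (4 : ℕ) * d * m ^ (5 : ℕ) + a * c ^
    (4 : ℕ) * m * tB - a * c ^ (4 : ℕ) * m ^ (2 : ℕ) * x + a * c ^ (4 : ℕ) * m ^ (3 : ℕ) * v - a *
    c ^ (4 : ℕ) * m ^ (4 : ℕ) * r + a * d * m * q ^ (4 : ℕ) + a * d * q ^ (3 : ℕ) * u + c ^ (2 :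
    ℕ) * m * p * q ^ (3 : ℕ) + c ^ (2 : ℕ) * p * q ^ (2 : ℕ) * u + (3 : R) * c ^ (3 : ℕ) * m * p *
    q * u + (4 : R) * c ^ (3 : ℕ) * m ^ (2 : ℕ) * p * q ^ (2 : ℕ) + (2 : R) * c ^ (4 : ℕ) * m ^ (2
    : ℕ) * p * u + (5 : R) * c ^ (4 : ℕ) * m ^ (3 : ℕ) * p * q + (2 : R) * c ^ (5 : ℕ) * m ^ (4 :
    ℕ) * p

theorem elim {a c p q u d r v x z m X G Y : R} {gAA gAAA gABA gAABA gABBA gABAA gAABBA gABABA gABBBA : R}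
    {bA bAA bAB bAAB bABA bABB : R} {tA tAA tAAA tAAAB tAAB tAABB tAB tABAB tABB tABBB tB : R}
    (hA : G * c * m ^ (2 : ℕ) + G * m * q + G * u + Y * p + a * gAA - c * m * z - c * tB - q * z =
      0)
    (hAA : G * z + Y * c * m ^ (2 : ℕ) + Y * m * q + Y * u + a * gAAA - c * m * tA - c * tAB + gAA
      * p - q * tA = 0)
    (hAAB : G * tB + Y * c * m ^ (3 : ℕ) + Y * m * u + Y * m ^ (2 : ℕ) * q + a * gABAA - c * m *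
      tAB - c * m ^ (2 : ℕ) * tA - c * tABB + gABA * p - m * q * tA - q * tAB - tA * u = 0)
    (hBA : -X * Y * m - bA + c * gAA * m ^ (2 : ℕ) + c * gABA * m - c * m * tAA - d * m * tAB - d
      * m ^ (2 : ℕ) * tA + gAA * m * q - m * r * tA = 0)
    (hBAA : -X * gAA * m - bAA + c * gAAA * m ^ (2 : ℕ) + c * gAABA * m - c * m * tAAA - d * m *
      tAAB - d * m ^ (2 : ℕ) * tAA + gAAA * m * q - m * r * tAA = 0)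
    (hBAB : -X * Y * m ^ (2 : ℕ) + X * m * tA + Y * m * z - bAB + c * gABA * m ^ (2 : ℕ) + c *
      gABBA * m - c * m * tAAB - d * m * tABB - d * m ^ (2 : ℕ) * tAB + gABA * m * q - m * r * tAB
      = 0)
    (hBAAB : -X * gAA * m ^ (2 : ℕ) + X * m * tAA - bAAB + c * gAABA * m ^ (2 : ℕ) + c * gAABBA *
      m - c * m * tAAAB - d * m * tAABB - d * m ^ (2 : ℕ) * tAAB + gAA * m * z + gAABA * m * q - m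
      * r * tAAB = 0)
    (hBABA : -X * gABA * m + Y * m * tA - bABA + c * gABAA * m ^ (2 : ℕ) + c * gABABA * m - c * m
      * tAAAB - d * m * tABAB - d * m ^ (2 : ℕ) * tAAB + gABAA * m * q - m * r * tAAB = 0)
    (hBABB : -X * Y * m ^ (3 : ℕ) + X * m * tAB + X * m ^ (2 : ℕ) * tA + Y * m * tB + Y * m ^ (2 :
      ℕ) * z - bABB + c * gABBA * m ^ (2 : ℕ) + c * gABBBA * m - c * m * tAABB - d * m * tABBB - d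
      * m ^ (2 : ℕ) * tABB + gABBA * m * q - m * r * tABB - m * tA * z = 0)
    (hI : -Y * tA + Y ^ (2 : ℕ) * m + c * gAABBA + c * gABABA + d * gABBBA + gAA * x + gAABA * q +
      gABA * v + gABBA * r = 0) :
    a ^ 2 * c ^ 3 * (m * Y) ^ 2 + J1 X a c d m p q r tA tB v x z * (m * Y) +
      (J0 X a bA bAA bAAB bAB bABA bABB c d m p q r tA tAA tAAA tAAAB tAAB tAABB tAB tABAB tABB tABBB tB u v x z +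
      JG X a c d m p q r tB u v x z * (m * G)) = 0 := by
  unfold J1 J0 JG
  linear_combination a ^ 2 * c ^ 3 * m * hI - (a ^ (2 : ℕ) * c ^ (3 : ℕ)) * hBAAB - (a ^ (2 : ℕ) *
    c ^ (3 : ℕ)) * hBABA - (a ^ (2 : ℕ) * c ^ (2 : ℕ) * d) * hBABB - (-a ^ (2 : ℕ) * c ^ (3 : ℕ) *
    m) * hBAA - (-a * c ^ (3 : ℕ) * m * q - a * c ^ (4 : ℕ) * m ^ (2 : ℕ)) * hAAB - (-a ^ (2 : ℕ)
    * c * d * q - a ^ (2 : ℕ) * c ^ (2 : ℕ) * d * m + a ^ (2 : ℕ) * c ^ (2 : ℕ) * r) * hBAB - (a *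
    c ^ (3 : ℕ) * m ^ (2 : ℕ) * q + a * c ^ (4 : ℕ) * m ^ (3 : ℕ)) * hAA - (X * a ^ (2 : ℕ) * c ^
    (2 : ℕ) + a * c ^ (2 : ℕ) * p * q + a * c ^ (3 : ℕ) * m * p + (2 : R) * a ^ (2 : ℕ) * c * d *
    m * q - a ^ (2 : ℕ) * c * q * r + a ^ (2 : ℕ) * c ^ (2 : ℕ) * d * m ^ (2 : ℕ) - a ^ (2 : ℕ) *
    c ^ (2 : ℕ) * m * r + a ^ (2 : ℕ) * c ^ (2 : ℕ) * v + a ^ (2 : ℕ) * d * q ^ (2 : ℕ)) * hBA -
    (-X * a * c ^ (2 : ℕ) * m * q - X * a * c ^ (3 : ℕ) * m ^ (2 : ℕ) - (3 : R) * a * c * d * m ^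
    (2 : ℕ) * q ^ (2 : ℕ) + a * c * m * q ^ (2 : ℕ) * r - (3 : R) * a * c ^ (2 : ℕ) * d * m ^ (3 :
    ℕ) * q - a * c ^ (2 : ℕ) * m * q * v + (2 : R) * a * c ^ (2 : ℕ) * m ^ (2 : ℕ) * q * r - a * c
    ^ (3 : ℕ) * d * m ^ (4 : ℕ) + a * c ^ (3 : ℕ) * m * x - a * c ^ (3 : ℕ) * m * z - a * c ^ (3 :
    ℕ) * m ^ (2 : ℕ) * v + a * c ^ (3 : ℕ) * m ^ (3 : ℕ) * r - a * d * m * q ^ (3 : ℕ) - c ^ (2 :
    ℕ) * m * p * q ^ (2 : ℕ) - (3 : R) * c ^ (3 : ℕ) * m ^ (2 : ℕ) * p * q - (2 : R) * c ^ (4 : ℕ)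
    * m ^ (3 : ℕ) * p) * hA

theorem ident {a c p q u d r v x z m X N F : R} {b bA bAA bAB bAAB bABA bABB : R}
    {tA tAA tAAA tAAAB tAAABB tAAB tAABAB tAABB tAABBB tAB tABAB tABABB tABB tABBB tABBBB tB tBB tBBB : R}
    (hb : b = (2 : R) * c * tAB + d * tBB + q * tA + r * tB + v * z)
    (hbA : bA = (2 : R) * c * tAAB + d * tABB + q * tAA + r * tAB + tA * v)
    (hbAA : bAA = (2 : R) * c * tAAAB + d * tAABB + q * tAAA + r * tAAB + tAA * v)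
    (hbAB : bAB = c * tAABB + c * tABAB + d * tABBB + q * tAAB + r * tABB + tA * z + tAB * v)
    (hbAAB : bAAB = c * tAAABB + c * tAABAB + d * tAABBB + q * tAAAB + r * tAABB + tAA * z + tAAB
      * v)
    (hbABA : bABA = (2 : R) * c * tAABAB + d * tABABB + q * tAAAB + r * tABAB + tA ^ (2 : ℕ) +
      tAAB * v)
    (hbABB : bABB = c * tAABBB + c * tABABB + d * tABBBB + q * tAABB + r * tABBB + tA * tB + tAB *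
      z + tABB * v)
    (hF : F = m * (X + (d * m ^ 2 + r * m + v)) + (x - z))
    (hN : N = -(X * F) + (b + (2 : R) * c * m * tA + d * m * tB + d * m ^ (2 : ℕ) * z + m * r * z)) :
    curve x z a c p q u d r v
      (-(2 : R) * a * c * d * p * q * r * tBB + (2 : R) * a * c * d * p * q * x * z - (2 : R) * a
        * c * d * p * q * z ^ (2 : ℕ) + (4 : R) * a * c * d * p * q ^ (2 : ℕ) * tAB - (2 : R) * a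
        * c * p * q * r * v * z - (2 : R) * a * c * p * q * r ^ (2 : ℕ) * tB - (2 : R) * a * c * p
        * q ^ (2 : ℕ) * r * tA + (2 : R) * a * c ^ (2 : ℕ) * d * p * q * tABB - (2 : R) * a * c ^
        (2 : ℕ) * d * p * tB * x + (2 : R) * a * c ^ (2 : ℕ) * d * p * tB * z + (2 : R) * a * c ^
        (2 : ℕ) * d * p * tBB * v - (2 : R) * a * c ^ (2 : ℕ) * p * q * r * tAB + (4 : R) * a * c
        ^ (2 : ℕ) * p * q * tA * v + (2 : R) * a * c ^ (2 : ℕ) * p * q ^ (2 : ℕ) * tAA + (2 : R) *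
        a * c ^ (2 : ℕ) * p * r * tB * v - (2 : R) * a * c ^ (2 : ℕ) * p * r * x * z + (2 : R) * a
        * c ^ (2 : ℕ) * p * r * z ^ (2 : ℕ) + (2 : R) * a * c ^ (2 : ℕ) * p * v ^ (2 : ℕ) * z + (4
        : R) * a * c ^ (3 : ℕ) * p * q * tAAB - (4 : R) * a * c ^ (3 : ℕ) * p * tA * x + (4 : R) *
        a * c ^ (3 : ℕ) * p * tA * z + (4 : R) * a * c ^ (3 : ℕ) * p * tAB * v - (4 : R) * a * c ^
        (3 : ℕ) * q * tB * x + (4 : R) * a * c ^ (3 : ℕ) * q * tB * z + (2 : R) * a * d * p * q ^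
        (2 : ℕ) * r * tB + (2 : R) * a * d * p * q ^ (2 : ℕ) * v * z + (2 : R) * a * d * p * q ^
        (3 : ℕ) * tA + (2 : R) * a * d ^ (2 : ℕ) * p * q ^ (2 : ℕ) * tBB - (8 : R) * a ^ (2 : ℕ) *
        c * d * q * r * tABB - (4 : R) * a ^ (2 : ℕ) * c * d * q * tAB * v + (4 : R) * a ^ (2 : ℕ)
        * c * d * q ^ (2 : ℕ) * tAAB + (2 : R) * a ^ (2 : ℕ) * c * d * r * tB * z + (4 : R) * a ^
        (2 : ℕ) * c * d * v * z ^ (2 : ℕ) - (4 : R) * a ^ (2 : ℕ) * c * d ^ (2 : ℕ) * q * tABBB -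
        a ^ (2 : ℕ) * c * d ^ (2 : ℕ) * tB ^ (2 : ℕ) + (4 : R) * a ^ (2 : ℕ) * c * d ^ (2 : ℕ) *
        tBB * z - (4 : R) * a ^ (2 : ℕ) * c * q * r * tA * v - (4 : R) * a ^ (2 : ℕ) * c * q * r ^
        (2 : ℕ) * tAB - (4 : R) * a ^ (2 : ℕ) * c * q ^ (2 : ℕ) * r * tAA - a ^ (2 : ℕ) * c * r ^
        (2 : ℕ) * z ^ (2 : ℕ) - (4 : R) * a ^ (2 : ℕ) * c ^ (2 : ℕ) * d * q * tABAB + (8 : R) * a
        ^ (2 : ℕ) * c ^ (2 : ℕ) * d * r * tABBB + (12 : R) * a ^ (2 : ℕ) * c ^ (2 : ℕ) * d * tAB *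
        z + (8 : R) * a ^ (2 : ℕ) * c ^ (2 : ℕ) * d * tABB * v + (4 : R) * a ^ (2 : ℕ) * c ^ (2 :
        ℕ) * d ^ (2 : ℕ) * tABBBB - (4 : R) * a ^ (2 : ℕ) * c ^ (2 : ℕ) * q * r * tAAB + (4 : R) *
        a ^ (2 : ℕ) * c ^ (2 : ℕ) * q * tAA * v + (8 : R) * a ^ (2 : ℕ) * c ^ (2 : ℕ) * r * tAB *
        v + (4 : R) * a ^ (2 : ℕ) * c ^ (2 : ℕ) * r ^ (2 : ℕ) * tABB + (4 : R) * a ^ (2 : ℕ) * c ^
        (2 : ℕ) * tA * v ^ (2 : ℕ) + (8 : R) * a ^ (2 : ℕ) * c ^ (3 : ℕ) * d * tAABBB + (8 : R) *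
        a ^ (2 : ℕ) * c ^ (3 : ℕ) * d * tABABB + (8 : R) * a ^ (2 : ℕ) * c ^ (3 : ℕ) * q * tAAAB +
        (8 : R) * a ^ (2 : ℕ) * c ^ (3 : ℕ) * r * tAABB + (8 : R) * a ^ (2 : ℕ) * c ^ (3 : ℕ) * r
        * tABAB + (4 : R) * a ^ (2 : ℕ) * c ^ (3 : ℕ) * tAA * z + (16 : R) * a ^ (2 : ℕ) * c ^ (3
        : ℕ) * tAAB * v + (4 : R) * a ^ (2 : ℕ) * c ^ (4 : ℕ) * tAAABB + (12 : R) * a ^ (2 : ℕ) *
        c ^ (4 : ℕ) * tAABAB + (4 : R) * a ^ (2 : ℕ) * d * q ^ (2 : ℕ) * r * tAB + (4 : R) * a ^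
        (2 : ℕ) * d * q ^ (2 : ℕ) * tA * v + (4 : R) * a ^ (2 : ℕ) * d * q ^ (3 : ℕ) * tAA + (4 :
        R) * a ^ (2 : ℕ) * d ^ (2 : ℕ) * q ^ (2 : ℕ) * tABB + c ^ (2 : ℕ) * d * p ^ (2 : ℕ) * q *
        tBB + c ^ (2 : ℕ) * p ^ (2 : ℕ) * q * r * tB + c ^ (2 : ℕ) * p ^ (2 : ℕ) * q * v * z + c ^
        (2 : ℕ) * p ^ (2 : ℕ) * q ^ (2 : ℕ) * tA + (2 : R) * c ^ (3 : ℕ) * p ^ (2 : ℕ) * q * tAB)
      (coef x z a c p q d r v ![tA, tB, tAA, tAB, tBB, tAAA, tAAB, tABB, tBBB])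
      (X + (d * m ^ 2 + r * m + v)) m =
    4 * (a ^ 2 * c ^ 3 * N ^ 2 + (q + 2 * c * m) * J1 X a c d m p q r tA tB v x z * N +
      (q + 2 * c * m) ^ 2 * (J0 X a bA bAA bAAB bAB bABA bABB c d m p q r tA tAA tAAA tAAAB tAAB tAABB tAB tABAB tABB tABBB tB u v x z -
      JG X a c d m p q r tB u v x z * F)) +
      (q + 2 * c * m) ^ 2 * (m * (q + c * m)) * (4 * a * c ^ 3) * (a * tAAA + c * tABB + p * tAA + q * tAB + tA * u + z ^ (2 : ℕ)) := by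
  subst hb hbA hbAA hbAB hbAAB hbABA hbABB hN hF
  simp only [curve, coef, J1, J0, JG, Matrix.cons_val_zero, Matrix.cons_val_one, Matrix.cons_val]
  ring

theorem fin {A m Y G F L N j1 j0 jg w r2 : R} (h : A * (m * Y) ^ 2 + j1 * (m * Y) + (j0 + jg * (m * G)) = 0)
    (hF : F = -(m * G)) (hN : L * (m * Y) - N = 0) (hr : r2 = 0) :
    4 * (A * N ^ 2 + L * j1 * N + L ^ 2 * (j0 - jg * F)) + w * r2 = 0 := by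
  subst hF
  linear_combination 4 * L ^ 2 * h - 4 * (A * (L * (m * Y) + N) + L * j1) * hN + w * hr

end Pool.Agent.P.MP_48bde8_co.CurveAux
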