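import Pool.Agent.P.MP_48bde8_co.CycA

/-! Task CYCB: transpositions and the Euler inequality. -/

namespace Pool.Agent.P.MP_48bde8_co

open Equiv Finset
open scoped Classical

variable {P : Type} [Fintype P]

namespace CycB

theorem apply_mem_orb {f : Perm P} {p q : P} (h : q ∈ orb f p) : f q ∈ orb f p :=
  mem_orb.2 (Perm.sameCycle_apply_right.2 (mem_orb.1 h))

theorem merge {f : Perm P} {a b : P} (h : ¬ f.SameCycle a b) :
    orb (f * swap a b) a = orb f a ∪ orb f b := by
  have ha : (f * swap a b) a = f b := by simp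
  have hb : (f * swap a b) b = f a := by simp
  have ho : ∀ x, x ≠ a → x ≠ b → (f * swap a b) x = f x := fun x h1 h2 => by
    rw [Perm.mul_apply, swap_apply_of_ne_of_ne h1 h2]
  have hbT : b ∈ orb (f * swap a b) a := by
    by_contra hn
    have h1 : orb f (f b) ⊆ orb (f * swap a b) a ∩ orb f b := by
      refine orb_subset_of_closed (mem_inter.2 ⟨?_, apply_mem_orb (self_mem_orb f b)⟩) ?_
      · rw [← ha]; exact apply_mem_orb (self_mem_orb _ a)
      · intro q hq
        rw [mem_inter] at hq ⊢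
        refine ⟨?_, apply_mem_orb hq.2⟩
        rw [← ho q (by rintro rfl; exact h (mem_orb.1 hq.2).symm) (by rintro rfl; exact hn hq.1)]
        exact apply_mem_orb hq.1
    rw [orb_apply] at h1
    exact hn (mem_inter.1 (h1 (self_mem_orb f b))).1
  have hcl : ∀ q ∈ orb (f * swap a b) a, f q ∈ orb (f * swap a b) a := by
    intro q hq
    by_cases h1 : q = a
    · rw [h1, ← hb]; exact apply_mem_orb hbT
    · by_cases h2 : q = b
      · rw [h2, ← ha]; exact apply_mem_orb (self_mem_orb _ a)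
      · rw [← ho q h1 h2]; exact apply_mem_orb hq
  refine Subset.antisymm (orb_subset_of_closed (mem_union_left _ (self_mem_orb f a)) ?_)
    (union_subset (orb_subset_of_closed (self_mem_orb _ a) hcl) (orb_subset_of_closed hbT hcl))
  intro q hq
  by_cases h1 : q = a
  · rw [h1, ha]; exact mem_union_right _ (apply_mem_orb (self_mem_orb f b))
  · by_cases h2 : q = b
    · rw [h2, hb]; exact mem_union_left _ (apply_mem_orb (self_mem_orb f a))
    · rw [ho q h1 h2]
      rcases mem_union.1 hq with h3 | h3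
      · exact mem_union_left _ (apply_mem_orb h3)
      · exact mem_union_right _ (apply_mem_orb h3)

theorem other {f : Perm P} {a b p : P} (h1 : ¬ f.SameCycle p a) (h2 : ¬ f.SameCycle p b) :
    orb (f * swap a b) p = orb f p := by
  refine orb_congr fun q hq => ?_
  rw [Perm.mul_apply, swap_apply_of_ne_of_ne]
  · rintro rfl; exact h1 (mem_orb.1 hq)
  · rintro rfl; exact h2 (mem_orb.1 hq)

theorem split {f : Perm P} {a b : P} (hab : a ≠ b) (h : f.SameCycle a b) :
    ¬ (f * swap a b).SameCycle a b := by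
  have hex : ∃ k : ℕ, (f ^ k) a = b := by
    obtain ⟨k, -, hk⟩ := h.exists_pow_eq'
    exact ⟨k, hk⟩
  have hk := Nat.find_spec hex
  have hmin : ∀ i, i < Nat.find hex → (f ^ i) a ≠ b := fun i hi => Nat.find_min hex hi
  generalize Nat.find hex = k at hk hmin
  have hk0 : 0 < k := by
    rcases Nat.eq_zero_or_pos k with h0 | h0
    · subst h0; exact absurd hk hab
    · exact h0
  have hna : ∀ i, 0 < i → i ≤ k → (f ^ i) a ≠ a := by
    intro i h0 hi e
    refine hmin (k - i) (by omega) ?_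
    have : k = (k - i) + i := by omega
    rw [this, pow_add, Perm.mul_apply, e] at hk
    exact hk
  have h1 : orb (f * swap a b) b ⊆ (Icc 1 k).image fun i => (f ^ i) a := by
    refine orb_subset_of_closed (mem_image.2 ⟨k, mem_Icc.2 ⟨hk0, le_rfl⟩, hk⟩) ?_
    intro q hq
    obtain ⟨i, hi, rfl⟩ := mem_image.1 hq
    rw [mem_Icc] at hi
    rcases eq_or_lt_of_le hi.2 with e | e
    · refine mem_image.2 ⟨1, mem_Icc.2 ⟨le_rfl, hk0⟩, ?_⟩
      rw [e, hk]; simp
    · refine mem_image.2 ⟨i + 1, mem_Icc.2 ⟨by omega, e⟩, ?_⟩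
      rw [Perm.mul_apply, swap_apply_of_ne_of_ne (hna i hi.1 hi.2) (hmin i e), pow_succ',
        Perm.mul_apply]
  intro hs
  obtain ⟨i, hi, e⟩ := mem_image.1 (h1 (mem_orb.2 hs.symm))
  rw [mem_Icc] at hi
  exact hna i hi.1 hi.2 e

omit [Fintype P] in
theorem card_image_le_of_imp (S : Finset P) (F G : P → Finset P)
    (h : ∀ p ∈ S, ∀ q ∈ S, G p = G q → F p = F q) : (S.image F).card ≤ (S.image G).card := by
  refine card_le_card_of_surjOn
    (fun c => if hc : ∃ p ∈ S, G p = c then F hc.choose else ∅) fun x hx => ?_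
  obtain ⟨p, hp, rfl⟩ := mem_image.1 (mem_coe.1 hx)
  have hc : ∃ q ∈ S, G q = G p := ⟨p, hp, rfl⟩
  refine ⟨G p, mem_coe.2 (mem_image_of_mem G hp), ?_⟩
  simp only [dif_pos hc]
  exact h _ hc.choose_spec.1 p hp hc.choose_spec.2

omit [Fintype P] in
theorem lnk_refl (f g : Perm P) (p : P) : Lnk f g p p := Relation.EqvGen.refl p

omit [Fintype P] in
theorem lnk_symm {f g : Perm P} {p q : P} (h : Lnk f g p q) : Lnk f g q p :=
  Relation.EqvGen.symm _ _ h

omit [Fintype P] in
theorem lnk_trans {f g : Perm P} {p q r : P} (h : Lnk f g p q) (h' : Lnk f g q r) :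
    Lnk f g p r := Relation.EqvGen.trans _ _ _ h h'

omit [Fintype P] in
theorem lnk_l (f g : Perm P) (p : P) : Lnk f g p (f p) := Relation.EqvGen.rel _ _ (Or.inl rfl)

omit [Fintype P] in
theorem lnk_r (f g : Perm P) (p : P) : Lnk f g p (g p) := Relation.EqvGen.rel _ _ (Or.inr rfl)

theorem cls_eq_iff {f g : Perm P} {p q : P} :
    (univ.filter fun x => Lnk f g p x) = (univ.filter fun x => Lnk f g q x) ↔ Lnk f g p q := by
  constructor
  · intro h
    have : q ∈ univ.filter fun x => Lnk f g q x := mem_filter.2 ⟨mem_univ _, lnk_refl f g q⟩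
    rw [← h] at this
    exact (mem_filter.1 this).2
  · intro h
    ext x
    simp only [mem_filter, mem_univ, true_and]
    exact ⟨lnk_trans (lnk_symm h), lnk_trans h⟩

theorem lnk_of_sameCycle {f g : Perm P} {p q : P} (h : (f * g).SameCycle p q) : Lnk f g p q := by
  have : orb (f * g) p ⊆ univ.filter fun x => Lnk f g p x := by
    refine orb_subset_of_closed (mem_filter.2 ⟨mem_univ _, lnk_refl f g p⟩) fun x hx => ?_
    exact mem_filter.2 ⟨mem_univ _,
      lnk_trans (mem_filter.1 hx).2 (lnk_trans (lnk_r f g x) (lnk_l f g (g x)))⟩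
  exact (mem_filter.1 (this (mem_orb.2 h))).2

omit [Fintype P] in
theorem lnk_swap {f g : Perm P} {a b p q : P} (h : Lnk f (g * swap a b) p q) :
    Lnk f g p q ∨ ((Lnk f g a p ∨ Lnk f g b p) ∧ (Lnk f g a q ∨ Lnk f g b q)) := by
  induction h with
  | rel x y h =>
    rcases h with h | h
    · exact Or.inl (h ▸ lnk_l f g x)
    · by_cases h1 : x = a
      · subst h1
        refine Or.inr ⟨Or.inl (lnk_refl f g x), Or.inr ?_⟩
        rw [h, Perm.mul_apply, swap_apply_left]; exact lnk_r f g b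
      · by_cases h2 : x = b
        · subst h2
          refine Or.inr ⟨Or.inr (lnk_refl f g x), Or.inl ?_⟩
          rw [h, Perm.mul_apply, swap_apply_right]; exact lnk_r f g a
        · rw [h, Perm.mul_apply, swap_apply_of_ne_of_ne h1 h2]
          exact Or.inl (lnk_r f g x)
  | refl x => exact Or.inl (lnk_refl f g x)
  | symm x y _ ih =>
    rcases ih with h | h
    · exact Or.inl (lnk_symm h)
    · exact Or.inr ⟨h.2, h.1⟩
  | trans x y z _ _ ih1 ih2 =>
    rcases ih1 with h | h <;> rcases ih2 with h' | h'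
    · exact Or.inl (lnk_trans h h')
    · exact Or.inr ⟨h'.1.imp (fun t => lnk_trans t (lnk_symm h))
        (fun t => lnk_trans t (lnk_symm h)), h'.2⟩
    · exact Or.inr ⟨h.1, h.2.imp (fun t => lnk_trans t h') (fun t => lnk_trans t h')⟩
    · exact Or.inr ⟨h.1, h'.2⟩

theorem ncomp_le_of_lnk {f g : Perm P} {a b : P} (h : Lnk f g a b) :
    ncomp f g ≤ ncomp f (g * swap a b) := by
  refine card_image_le_of_imp univ _ _ fun p _ q _ e => cls_eq_iff.2 ?_
  rcases lnk_swap (cls_eq_iff.1 e) with h1 | ⟨h1, h2⟩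
  · exact h1
  · have h3 : Lnk f g a p := h1.elim id (lnk_trans h)
    have h4 : Lnk f g a q := h2.elim id (lnk_trans h)
    exact lnk_trans (lnk_symm h3) h4

theorem ncomp_le_succ (f g : Perm P) (a b : P) : ncomp f g ≤ ncomp f (g * swap a b) + 1 := by
  have h1 : (univ.image fun p => univ.filter fun q => Lnk f g p q) ⊆
      insert (univ.filter fun q => Lnk f g b q)
        ((univ.filter fun p => ¬ Lnk f g b p).image fun p => univ.filter fun q => Lnk f g p q) := by
    intro c hc
    obtain ⟨p, -, rfl⟩ := mem_image.1 hc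
    by_cases h : Lnk f g b p
    · exact mem_insert.2 (Or.inl (cls_eq_iff.2 (lnk_symm h)))
    · exact mem_insert_of_mem (mem_image.2 ⟨p, mem_filter.2 ⟨mem_univ _, h⟩, rfl⟩)
  refine (card_le_card h1).trans ((card_insert_le _ _).trans (Nat.succ_le_succ ?_))
  refine (card_image_le_of_imp _ _ (fun p => univ.filter fun q => Lnk f (g * swap a b) p q)
    fun p hp q hq e => cls_eq_iff.2 ?_).trans
    (card_le_card (image_subset_image (filter_subset _ _)))
  rcases lnk_swap (cls_eq_iff.1 e) with h1 | ⟨h1, h2⟩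
  · exact h1
  · exact lnk_trans (lnk_symm (h1.resolve_right (mem_filter.1 hp).2))
      (h2.resolve_right (mem_filter.1 hq).2)

theorem ncomp_le_one {f g : Perm P} (h : ∀ p q, Lnk f g p q) : ncomp f g ≤ 1 := by
  refine card_le_one.2 fun x hx y hy => ?_
  obtain ⟨p, -, rfl⟩ := mem_image.1 hx
  obtain ⟨q, -, rfl⟩ := mem_image.1 hy
  exact cls_eq_iff.2 (h p q)

theorem cyc_le_ncomp (f : Perm P) : cyc f ≤ ncomp f 1 := by
  refine card_image_le_of_imp univ _ _ fun p _ q _ e => orb_eq_iff.2 ?_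
  have h := cls_eq_iff.1 e
  clear e
  induction h with
  | rel x y h =>
    rcases h with h | h
    · rw [h]; exact Perm.sameCycle_apply_right.2 (Perm.SameCycle.refl f x)
    · rw [h]; exact Perm.SameCycle.refl f x
  | refl x => exact Perm.SameCycle.refl f x
  | symm x y _ ih => exact (ih (mem_univ _) (mem_univ _)).symm
  | trans x y z _ _ ih1 ih2 =>
    exact (ih1 (mem_univ _) (mem_univ _)).trans (ih2 (mem_univ _) (mem_univ _))

theorem cin_not {f : Perm P} {a b : P} (h : ¬ f.SameCycle a b) {U : Finset P}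
    (hU : ∀ p ∈ U, f p ∈ U) (ha : a ∈ U) (hb : b ∈ U) :
    cin (f * swap a b) U + 1 = cin f U := by
  have hA : orb f a ⊆ U := orb_subset_of_closed ha hU
  have hB : orb f b ⊆ U := orb_subset_of_closed hb hU
  have e : ((cycs (f * swap a b)).filter fun c => c ⊆ U) = insert (orb f a ∪ orb f b)
      ((((cycs f).filter fun c => c ⊆ U).erase (orb f a)).erase (orb f b)) := by
    ext c
    simp only [cycs, mem_filter, mem_image, mem_univ, true_and, mem_insert, mem_erase]
    constructor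
    · rintro ⟨⟨p, rfl⟩, hc⟩
      by_cases hp : p ∈ orb f a ∪ orb f b
      · left
        rw [← merge h] at hp ⊢
        exact orb_eq_iff.2 (mem_orb.1 hp).symm
      · have h1 : ¬ f.SameCycle p a := fun t => hp (mem_union_left _ (mem_orb.2 t.symm))
        have h2 : ¬ f.SameCycle p b := fun t => hp (mem_union_right _ (mem_orb.2 t.symm))
        rw [other h1 h2] at hc ⊢
        exact Or.inr ⟨fun t => h2 (orb_eq_iff.1 t), fun t => h1 (orb_eq_iff.1 t), ⟨p, rfl⟩, hc⟩
    · rintro (rfl | ⟨h2, h1, ⟨p, rfl⟩, hc⟩)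
      · exact ⟨⟨a, merge h⟩, union_subset hA hB⟩
      · exact ⟨⟨p, other (fun t => h1 (orb_eq_iff.2 t)) fun t => h2 (orb_eq_iff.2 t)⟩, hc⟩
  have m1 : orb f a ∈ (cycs f).filter fun c => c ⊆ U :=
    mem_filter.2 ⟨mem_image_of_mem _ (mem_univ a), hA⟩
  have m2 : orb f b ∈ ((cycs f).filter fun c => c ⊆ U).erase (orb f a) :=
    mem_erase.2 ⟨fun t => h (orb_eq_iff.1 t).symm,
      mem_filter.2 ⟨mem_image_of_mem _ (mem_univ b), hB⟩⟩
  have m3 : orb f a ∪ orb f b ∉
      (((cycs f).filter fun c => c ⊆ U).erase (orb f a)).erase (orb f b) := by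
    intro t
    have t1 := mem_erase.1 (mem_erase.1 t).2
    obtain ⟨p, -, hp⟩ := mem_image.1 (mem_filter.1 t1.2).1
    refine t1.1 ?_
    have : a ∈ orb f p := hp ▸ mem_union_left _ (self_mem_orb f a)
    rw [← hp]
    exact orb_eq_iff.2 (mem_orb.1 this)
  unfold cin
  rw [e, card_insert_of_notMem m3, card_erase_add_one m2, card_erase_add_one m1]

end CycB

theorem cin_mul_swap_of_not {f : Perm P} {a b : P} (h : ¬ f.SameCycle a b) {U : Finset P}
    (hU : ∀ p ∈ U, f p ∈ U) (ha : a ∈ U) (hb : b ∈ U) : cin (f * swap a b) U + 1 = cin f U :=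
  CycB.cin_not h hU ha hb

theorem cin_mul_swap_of_sameCycle {f : Perm P} {a b : P} (hab : a ≠ b) (h : f.SameCycle a b)
    {U : Finset P} (hU : ∀ p ∈ U, f p ∈ U) (ha : a ∈ U) :
    cin (f * swap a b) U = cin f U + 1 := by
  have hb : b ∈ U := orb_subset_of_closed ha hU (mem_orb.2 h)
  have := CycB.cin_not (CycB.split hab h) (U := U) (fun p hp => by
    rw [Perm.mul_apply]
    refine hU _ ?_
    rw [swap_apply_def]
    split_ifs <;> assumption) ha hb
  rw [mul_assoc, swap_mul_self, mul_one] at this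
  exact this.symm

theorem cyc_mul_swap_of_sameCycle {f : Perm P} {a b : P} (hab : a ≠ b) (h : f.SameCycle a b) :
    cyc (f * swap a b) = cyc f + 1 := by
  rw [← cin_univ, ← cin_univ]
  exact cin_mul_swap_of_sameCycle hab h (fun _ _ => mem_univ _) (mem_univ _)

theorem cyc_mul_swap_of_not {f : Perm P} {a b : P} (h : ¬ f.SameCycle a b) :
    cyc (f * swap a b) + 1 = cyc f := by
  rw [← cin_univ, ← cin_univ]
  exact cin_mul_swap_of_not h (fun _ _ => mem_univ _) (mem_univ _) (mem_univ _)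

theorem CycB.euler_aux (π : Perm P) (n : ℕ) : ∀ ψ : Perm P, Fintype.card P ≤ cyc ψ + n →
    cyc π + cyc ψ + cyc (π * ψ) ≤ Fintype.card P + 2 * ncomp π ψ := by
  have hle : ∀ g : Perm P, cyc g ≤ Fintype.card P := fun g => card_image_le
  have hone : cyc π + cyc (1 : Perm P) + cyc (π * 1) ≤ Fintype.card P + 2 * ncomp π 1 := by
    have h1 := hle 1
    have h2 := CycB.cyc_le_ncomp π
    rw [mul_one]
    omega
  have hstep : ∀ ψ : Perm P, ψ ≠ 1 → ∃ a b, a ≠ b ∧ cyc (ψ * swap a b) = cyc ψ + 1 := by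
    intro ψ hψ
    obtain ⟨a, ha⟩ : ∃ a, a ≠ ψ a := by
      by_contra hn
      push Not at hn
      exact hψ (Equiv.ext fun x => (hn x).symm)
    exact ⟨a, ψ a, ha, cyc_mul_swap_of_sameCycle ha
      (Perm.sameCycle_apply_right.2 (Perm.SameCycle.refl ψ a))⟩
  induction n with
  | zero =>
    intro ψ h
    by_cases hψ : ψ = 1
    · rw [hψ]; exact hone
    · obtain ⟨a, b, -, e⟩ := hstep ψ hψ
      have := hle (ψ * swap a b)
      omega
  | succ n ih =>
    intro ψ h
    by_cases hψ : ψ = 1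
    · rw [hψ]; exact hone
    · obtain ⟨a, b, hab, e⟩ := hstep ψ hψ
      have h1 := ih (ψ * swap a b) (by omega)
      have e1 : ψ * swap a b * swap a b = ψ := by rw [mul_assoc, swap_mul_self, mul_one]
      have e2 : π * (ψ * swap a b) * swap a b = π * ψ := by rw [mul_assoc, e1]
      by_cases hs : (π * (ψ * swap a b)).SameCycle a b
      · have h2 := cyc_mul_swap_of_sameCycle hab hs
        have h3 := CycB.ncomp_le_of_lnk (CycB.lnk_of_sameCycle hs)
        rw [e2] at h2
        rw [e1] at h3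
        omega
      · have h2 := cyc_mul_swap_of_not hs
        have h3 := CycB.ncomp_le_succ π (ψ * swap a b) a b
        rw [e2] at h2
        rw [e1] at h3
        omega

/-- Euler inequality. -/
theorem euler_le (π ψ : Perm P) :
    cyc π + cyc ψ + cyc (π * ψ) ≤ Fintype.card P + 2 * ncomp π ψ :=
  CycB.euler_aux π (Fintype.card P) ψ (Nat.le_add_left _ _)

/-- Euler inequality for an invariant linked set. -/
theorem euler_on {π ψ : Perm P} {V : Finset P} (hπ : ∀ p ∈ V, π p ∈ V) (hψ : ∀ p ∈ V, ψ p ∈ V)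
    (hl : ∀ p ∈ V, ∀ q ∈ V, Lnk π ψ p q) :
    cin π V + cin ψ V + cin (π * ψ) V ≤ V.card + 2 := by
  let π' : Perm {x // x ∈ V} := π.subtypePermOfFintype hπ
  let ψ' : Perm {x // x ∈ V} := ψ.subtypePermOfFintype hψ
  have hV : (univ : Finset {x // x ∈ V}).map (Function.Embedding.subtype _) = V := by
    ext x; simp
  have c : ∀ (g : Perm P) (g' : Perm {x // x ∈ V}), (∀ q, g q.1 = (g' q).1) → cin g V = cyc g' := by
    intro g g' h
    rw [← cin_univ, ← cin_map (Function.Embedding.subtype _) (g := g) fun q _ => h q, hV]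
  have hinv : ∀ g : Perm P, (∀ p ∈ V, g p ∈ V) → ∀ p, g p ∈ V → p ∈ V := fun g hg p hp =>
    orb_subset_of_closed hp hg
      (mem_orb.2 (Perm.sameCycle_apply_left.2 (Perm.SameCycle.refl g p)))
  have key : ∀ p q, Lnk π ψ p q → (p ∈ V ↔ q ∈ V) ∧
      ∀ (hp : p ∈ V) (hq : q ∈ V), Lnk π' ψ' ⟨p, hp⟩ ⟨q, hq⟩ := by
    intro p q h
    induction h with
    | rel x y h =>
      rcases h with rfl | rfl
      · exact ⟨⟨hπ x, hinv π hπ x⟩, fun hp _ => CycB.lnk_l π' ψ' ⟨x, hp⟩⟩
      · exact ⟨⟨hψ x, hinv ψ hψ x⟩, fun hp _ => CycB.lnk_r π' ψ' ⟨x, hp⟩⟩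
    | refl x => exact ⟨Iff.rfl, fun _ _ => CycB.lnk_refl _ _ _⟩
    | symm x y _ ih => exact ⟨ih.1.symm, fun hp hq => CycB.lnk_symm (ih.2 hq hp)⟩
    | trans x y z _ _ ih1 ih2 =>
      exact ⟨ih1.1.trans ih2.1, fun hp hq =>
        CycB.lnk_trans (ih1.2 hp (ih1.1.1 hp)) (ih2.2 (ih1.1.1 hp) hq)⟩
  have h1 : ncomp π' ψ' ≤ 1 :=
    CycB.ncomp_le_one fun p q => (key p.1 q.1 (hl _ p.2 _ q.2)).2 p.2 q.2
  have h2 := euler_le π' ψ'
  rw [Fintype.card_coe] at h2
  rw [c π π' fun _ => rfl, c ψ ψ' fun _ => rfl, c (π * ψ) (π' * ψ') fun _ => rfl]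
  omega

end Pool.Agent.P.MP_48bde8_co
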