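import Pool.Agent.P.MP_48bde8_co.CycA

/-! Task CYCC: first-return permutations. -/

namespace Pool.Agent.P.MP_48bde8_co

open Equiv Finset
open scoped Classical

variable {P : Type} [Fintype P]

namespace CycC

omit [Fintype P] in
theorem ai (f : Perm P) (p : P) : f (f⁻¹ p) = p := by simp

omit [Fintype P] in
theorem ia (f : Perm P) (p : P) : f⁻¹ (f p) = p := by simp

theorem val (f : Perm P) {I : Finset P} {p : P} (h : p ∉ I) :
    skip f I p = (f ^ frT f Iᶜ ⟨p, mem_compl.mpr h⟩) p :=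
  Perm.ofSubtype_apply_of_mem (fr f Iᶜ) (mem_compl.mpr h)

theorem not_mem (f : Perm P) {I : Finset P} {p : P} (h : p ∉ I) : skip f I p ∉ I := by
  rw [val f h]
  exact mem_compl.mp (Nat.find_spec (fr_exists f Iᶜ ⟨p, mem_compl.mpr h⟩)).2

theorem of_sameCycle {f : Perm P} {E : P → P → Prop} (hE : Equivalence E) (h : ∀ p, E p (f p))
    {p q : P} (hs : f.SameCycle p q) : E p q := by
  obtain ⟨k, -, rfl⟩ := hs.exists_pow_eq'
  clear hs
  induction k with
  | zero => exact hE.refl p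
  | succ k ih =>
    rw [pow_succ', Perm.mul_apply]
    exact hE.trans ih (h _)

omit [Fintype P] in
theorem fix_not_mem {g : Perm P} {I : Finset P} (hg : ∀ p ∈ I, g p = p) {p : P} (hp : p ∉ I) :
    g p ∉ I := fun h => hp (g.injective (hg _ h) ▸ h)

omit [Fintype P] in
theorem lnk_equiv (f g : Perm P) : Equivalence (Lnk f g) := Relation.EqvGen.is_equivalence _

omit [Fintype P] in
theorem lnk_left (f g : Perm P) (p : P) : Lnk f g p (f p) := Relation.EqvGen.rel _ _ (Or.inl rfl)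

omit [Fintype P] in
theorem lnk_right (f g : Perm P) (p : P) : Lnk f g p (g p) := Relation.EqvGen.rel _ _ (Or.inr rfl)

omit [Fintype P] in
theorem lnk_le {f g : Perm P} {E : P → P → Prop} (hE : Equivalence E) (h1 : ∀ p, E p (f p))
    (h2 : ∀ p, E p (g p)) {p q : P} (hl : Lnk f g p q) : E p q := by
  induction hl with
  | rel p q h =>
    rcases h with rfl | rfl
    exacts [h1 p, h2 p]
  | refl p => exact hE.refl p
  | symm _ _ _ ih => exact hE.symm ih
  | trans _ _ _ _ _ ih ih' => exact hE.trans ih ih'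

omit [Fintype P] in
theorem eq_iterate (f : P → P) (l : List P) (p z : P) (h : (p :: l).map f = l ++ [z]) :
    p :: l = List.iterate f p (l.length + 1) := by
  induction l generalizing p with
  | nil => rfl
  | cons q l ih =>
    rw [List.map_cons, List.cons_append, List.cons.injEq] at h
    rw [List.length_cons, List.iterate, h.1, ← ih q h.2]

omit [Fintype P] in
theorem map_iterate (f : P → P) (p : P) (n : ℕ) :
    (List.iterate f p n).map f = List.iterate f (f p) n := by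
  induction n generalizing p with
  | zero => rfl
  | succ n ih => rw [List.iterate, List.map_cons, ih, List.iterate]

end CycC

theorem skip_of_mem (f : Perm P) {I : Finset P} {p : P} (h : p ∈ I) : skip f I p = p :=
  Perm.ofSubtype_apply_of_not_mem _ (by simpa using h)

theorem skip_not_mem (f : Perm P) {I : Finset P} {p : P} (h : p ∉ I) : skip f I p ∉ I :=
  CycC.not_mem f h

theorem skip_spec (f : Perm P) {I : Finset P} {p : P} (h : p ∉ I) :
    ∃ k : ℕ, 0 < k ∧ skip f I p = (f ^ k) p ∧ ∀ j, 0 < j → j < k → (f ^ j) p ∈ I := by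
  have hp : p ∈ Iᶜ := mem_compl.mpr h
  refine ⟨frT f Iᶜ ⟨p, hp⟩, (Nat.find_spec (fr_exists f Iᶜ ⟨p, hp⟩)).1, CycC.val f h,
    fun j h0 hj => ?_⟩
  by_contra hc
  exact Nat.find_min (fr_exists f Iᶜ ⟨p, hp⟩) hj ⟨h0, mem_compl.mpr hc⟩

/-- Characterisation of the first return. -/
theorem skip_eq {f : Perm P} {I : Finset P} {p : P} (h : p ∉ I) {k : ℕ} (hk : 0 < k)
    (h1 : (f ^ k) p ∉ I) (h2 : ∀ j, 0 < j → j < k → (f ^ j) p ∈ I) : skip f I p = (f ^ k) p := by
  obtain ⟨k', h0, e, h3⟩ := skip_spec f h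
  rcases lt_trichotomy k k' with hl | hl | hl
  · exact absurd (h3 k hk hl) h1
  · rw [e, hl]
  · exact absurd (e ▸ h2 k' h0 hl) (skip_not_mem f h)

theorem skip_one {f : Perm P} {I : Finset P} {p : P} (h : p ∉ I) (h1 : f p ∉ I) :
    skip f I p = f p :=
  skip_eq h (k := 1) one_pos h1 fun j _ _ => by omega

theorem skip_two {f : Perm P} {I : Finset P} {p : P} (h : p ∉ I) (h1 : f p ∈ I)
    (h2 : f (f p) ∉ I) : skip f I p = f (f p) :=
  skip_eq h (k := 2) two_pos h2 fun j _ _ => by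
    obtain rfl : j = 1 := by omega
    exact h1

theorem skip_three {f : Perm P} {I : Finset P} {p : P} (h : p ∉ I) (h1 : f p ∈ I)
    (h2 : f (f p) ∈ I) (h3 : f (f (f p)) ∉ I) : skip f I p = f (f (f p)) :=
  skip_eq h (k := 3) three_pos h3 fun j _ _ => by
    obtain rfl | rfl : j = 1 ∨ j = 2 := by omega
    exacts [h1, h2]

theorem skip_fixed {f : Perm P} (I : Finset P) {p : P} (h : f p = p) : skip f I p = p := by
  by_cases hp : p ∈ I
  · exact skip_of_mem f hp
  · rw [skip_one hp (by rwa [h]), h]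

theorem skip_empty (f : Perm P) : skip f ∅ = f :=
  Equiv.ext fun p => skip_one (notMem_empty p) (notMem_empty _)

theorem skip_mem_of_closed {f : Perm P} (I : Finset P) {J : Finset P} (hJ : ∀ p ∈ J, f p ∈ J)
    {p : P} (h : p ∈ J) : skip f I p ∈ J := by
  by_cases hp : p ∈ I
  · rwa [skip_of_mem f hp]
  · obtain ⟨k, -, e, -⟩ := skip_spec f hp
    rw [e]
    exact orb_subset_iff.mp (orb_subset_of_closed h hJ) k

theorem skip_sameCycle_self (f : Perm P) (I : Finset P) (p : P) : f.SameCycle p (skip f I p) := by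
  by_cases hp : p ∈ I
  · rw [skip_of_mem f hp]
  · obtain ⟨k, -, e, -⟩ := skip_spec f hp
    rw [e, Perm.sameCycle_pow_right]

theorem skip_sameCycle {f : Perm P} {I : Finset P} {p q : P} (hp : p ∉ I) (hq : q ∉ I) :
    (skip f I).SameCycle p q ↔ f.SameCycle p q := by
  refine ⟨CycC.of_sameCycle (Perm.SameCycle.equivalence f) (skip_sameCycle_self f I), fun h => ?_⟩
  obtain ⟨k, -, e⟩ := h.exists_pow_eq'
  clear h
  induction k using Nat.strong_induction_on generalizing p with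
  | _ k ih =>
    rcases Nat.eq_zero_or_pos k with rfl | hk
    · rw [← e, pow_zero, Perm.one_apply]
    obtain ⟨k', h0, e', h3⟩ := skip_spec f hp
    have hle : k' ≤ k := by
      by_contra hc
      exact hq (e ▸ h3 k hk (by omega))
    rw [← Perm.sameCycle_apply_left]
    refine ih (k - k') (by omega) (skip_not_mem f hp) ?_
    rw [e', ← Perm.mul_apply, ← pow_add, Nat.sub_add_cancel hle, e]

theorem CycC.orb_skip (f : Perm P) {I : Finset P} {p : P} (hp : p ∉ I) :
    orb (skip f I) p = orb f p \ I := by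
  ext q
  rw [mem_sdiff, mem_orb, mem_orb]
  by_cases hq : q ∈ I
  · refine ⟨fun h => ?_, fun h => absurd hq h.2⟩
    exact absurd ((h.eq_of_right (skip_of_mem f hq)) ▸ hq) hp
  · rw [skip_sameCycle hp hq]
    exact (and_iff_left hq).symm

theorem CycC.cin_skip_card (f : Perm P) (I : Finset P) {J : Finset P} (hJ : ∀ p ∈ J, f p ∈ J) :
    cin (skip f I) (J \ I) = ((cycs f).filter fun c => c ⊆ J ∧ ¬ c ⊆ I).card := by
  have key : ∀ c ∈ (cycs f).filter fun c => c ⊆ J ∧ ¬ c ⊆ I, ∃ p, p ∉ I ∧ c = orb f p := by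
    intro c hc
    obtain ⟨hc, -, h2⟩ := mem_filter.mp hc
    obtain ⟨p, -, rfl⟩ := mem_image.mp hc
    obtain ⟨q, hq, hqI⟩ := not_subset.mp h2
    exact ⟨q, hqI, orb_eq_iff.mpr (mem_orb.mp hq)⟩
  symm
  refine card_bij (fun c _ => c \ I) (fun c hc => ?_) (fun c hc c' hc' e => ?_) fun c hc => ?_
  · obtain ⟨p, hp, rfl⟩ := key c hc
    exact mem_filter.mpr ⟨mem_image.mpr ⟨p, mem_univ p, CycC.orb_skip f hp⟩,
      sdiff_subset_sdiff (mem_filter.mp hc).2.1 Subset.rfl⟩
  · obtain ⟨p, hp, rfl⟩ := key c hc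
    obtain ⟨p', -, rfl⟩ := key c' hc'
    have : p ∈ orb f p' \ I := e ▸ mem_sdiff.mpr ⟨self_mem_orb f p, hp⟩
    exact (orb_eq_iff.mpr (mem_orb.mp (mem_sdiff.mp this).1)).symm
  · obtain ⟨hc, h2⟩ := mem_filter.mp hc
    obtain ⟨p, -, rfl⟩ := mem_image.mp hc
    obtain ⟨h3, h4⟩ := mem_sdiff.mp (h2 (self_mem_orb _ p))
    exact ⟨orb f p, mem_filter.mpr ⟨mem_image.mpr ⟨p, mem_univ p, rfl⟩,
      orb_subset_of_closed h3 hJ, fun h => h4 (h (self_mem_orb f p))⟩, (CycC.orb_skip f h4).symm⟩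

/-- Cycles inside an invariant set `J`. -/
theorem cin_skip (f : Perm P) (I : Finset P) {J : Finset P} (hJ : ∀ p ∈ J, f p ∈ J) :
    cin f J = cin f (J ∩ I) + cin (skip f I) (J \ I) := by
  rw [CycC.cin_skip_card f I hJ, cin, cin, ← card_filter_add_card_filter_not (fun c => c ⊆ I),
    filter_filter, filter_filter]
  simp only [subset_inter_iff]

theorem cin_skip_eq_cmeet (f : Perm P) (I : Finset P) {J : Finset P} (hJ : ∀ p ∈ J, f p ∈ J) :
    cin (skip f I) (J \ I) = cmeet f (J \ I) := by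
  rw [CycC.cin_skip_card f I hJ, cmeet]
  refine congrArg card (filter_congr fun c hc => ?_)
  obtain ⟨p, -, rfl⟩ := mem_image.mp hc
  rw [not_disjoint_iff, not_subset]
  constructor
  · rintro ⟨h, q, hq, hqI⟩
    exact ⟨q, hq, mem_sdiff.mpr ⟨h hq, hqI⟩⟩
  · rintro ⟨q, hq, h⟩
    refine ⟨?_, q, hq, (mem_sdiff.mp h).2⟩
    rw [orb_eq_iff.mpr (mem_orb.mp hq)]
    exact orb_subset_of_closed (mem_sdiff.mp h).1 hJ

theorem skip_mul (f : Perm P) {I : Finset P} {g : Perm P} (hg : ∀ p ∈ I, g p = p) :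
    skip (f * g) I = skip f I * g := by
  ext p
  by_cases hp : p ∈ I
  · rw [skip_of_mem _ hp, Perm.mul_apply, hg p hp, skip_of_mem _ hp]
  have hgp := CycC.fix_not_mem hg hp
  obtain ⟨k, h0, e, h3⟩ := skip_spec f hgp
  have key : ∀ j, j < k → ((f * g) ^ (j + 1)) p = (f ^ (j + 1)) (g p) := by
    intro j hj
    induction j with
    | zero => simp
    | succ j ih =>
      rw [pow_succ' (f * g), Perm.mul_apply, ih (by omega), Perm.mul_apply,
        hg _ (h3 _ (by omega) hj), pow_succ' f (j + 1), Perm.mul_apply]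
  have key' : ∀ j, 0 < j → j ≤ k → ((f * g) ^ j) p = (f ^ j) (g p) := by
    intro j h1 h2
    obtain ⟨j, rfl⟩ := Nat.exists_eq_add_one_of_ne_zero h1.ne'
    exact key j h2
  rw [Perm.mul_apply, e, ← key' k h0 le_rfl]
  refine skip_eq hp h0 ?_ fun j h1 h2 => ?_
  · rw [key' k h0 le_rfl, ← e]
    exact skip_not_mem f hgp
  · rw [key' j h1 h2.le]
    exact h3 j h1 h2

/-- Transport along an embedding. -/
theorem skip_map {Q : Type} [Fintype Q] (e : P ↪ Q) {f : Perm P} {g : Perm Q}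
    (h : ∀ p, g (e p) = e (f p)) (I : Finset P) (p : P) :
    skip g (I.map e) (e p) = e (skip f I p) := by
  by_cases hp : p ∈ I
  · rw [skip_of_mem f hp, skip_of_mem g (mem_map_of_mem e hp)]
  obtain ⟨k, h0, e', h3⟩ := skip_spec f hp
  have key : ∀ j : ℕ, (g ^ j) (e p) = e ((f ^ j) p) := by
    intro j
    induction j with
    | zero => rfl
    | succ j ih => rw [pow_succ', Perm.mul_apply, ih, h, pow_succ', Perm.mul_apply]
  rw [e', ← key]
  refine skip_eq (by rwa [mem_map']) h0 ?_ fun j h1 h2 => ?_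
  · rw [key, mem_map', ← e']
    exact skip_not_mem f hp
  · rw [key, mem_map']
    exact h3 j h1 h2

theorem CycC.skip_inv (ψ : Perm P) {I : Finset P} {p : P} (h : p ∈ I) : (skip ψ I)⁻¹ p = p := by
  rw [Perm.inv_eq_iff_eq, skip_of_mem ψ h]

theorem clo_of_mem (ψ : Perm P) {I : Finset P} {p : P} (h : p ∈ I) : clo ψ I p = ψ p := by
  rw [clo, Perm.mul_apply, CycC.skip_inv ψ h]

theorem skip_clo (ψ : Perm P) (I : Finset P) : skip (clo ψ I) I = 1 := by
  rw [clo, skip_mul ψ fun p hp => CycC.skip_inv ψ hp, mul_inv_cancel]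

theorem clo_mul_skip (ψ : Perm P) (I : Finset P) : clo ψ I * skip ψ I = ψ :=
  inv_mul_cancel_right _ _

theorem clo_mul {ρ : Perm P} {I : Finset P} (h : skip ρ I = 1) {g : Perm P}
    (hg : ∀ p ∈ I, g p = p) : clo (ρ * g) I = ρ := by
  rw [clo, skip_mul ρ hg, h, one_mul, mul_inv_cancel_right]

theorem clo_sameCycle (ψ : Perm P) (I : Finset P) (p : P) : ψ.SameCycle p (clo ψ I p) := by
  have := skip_sameCycle_self ψ I ((skip ψ I)⁻¹ p)
  rw [clo, Perm.mul_apply, Perm.sameCycle_apply_right]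
  simpa using this.symm

theorem CycC.exit (ψ : Perm P) {I : Finset P} {x y : P} (k : ℕ) (hy : ψ⁻¹ y ∉ I)
    (hk : ∀ j < k, (ψ ^ j) y ∈ I) (hx : (ψ ^ k) y = x) (hxI : x ∉ I) : clo ψ I x = y := by
  have key : ∀ j : ℕ, (ψ ^ (j + 1)) (ψ⁻¹ y) = (ψ ^ j) y := fun j => by simp [pow_succ]
  have : skip ψ I (ψ⁻¹ y) = x := by
    rw [skip_eq hy (k := k + 1) k.succ_pos (by rwa [key, hx]) fun j h1 h2 => ?_, key, hx]
    obtain ⟨j, rfl⟩ := Nat.exists_eq_add_one_of_ne_zero h1.ne'
    rw [key]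
    exact hk j (by omega)
  rw [clo, Perm.mul_apply, ← this]
  simp

theorem CycC.clo_not_mem (ψ : Perm P) {I : Finset P} {x : P} (hx : x ∉ I) :
    ψ⁻¹ (clo ψ I x) ∉ I ∧
      ∃ k : ℕ, (∀ j < k, (ψ ^ j) (clo ψ I x) ∈ I) ∧ (ψ ^ k) (clo ψ I x) = x := by
  have hq : (skip ψ I)⁻¹ x ∉ I := CycC.fix_not_mem (fun p hp => CycC.skip_inv ψ hp) hx
  rw [clo, Perm.mul_apply]
  refine ⟨by simpa using hq, ?_⟩
  obtain ⟨k, h0, e, h3⟩ := skip_spec ψ hq
  obtain ⟨k, rfl⟩ := Nat.exists_eq_add_one_of_ne_zero h0.ne'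
  refine ⟨k, fun j hj => h3 (j + 1) j.succ_pos (by omega), ?_⟩
  rw [← Perm.mul_apply, ← pow_succ, ← e]
  simp

/-- `clo` depends only on the steps in `I`. -/
theorem clo_congr {ψ ψ' : Perm P} {I : Finset P} (h : ∀ p ∈ I, ψ' p = ψ p) :
    clo ψ' I = clo ψ I := by
  ext x
  by_cases hx : x ∈ I
  · rw [clo_of_mem _ hx, clo_of_mem _ hx, h x hx]
  obtain ⟨h1, k, h2, h3⟩ := CycC.clo_not_mem ψ hx
  have key : ∀ j ≤ k, (ψ' ^ j) (clo ψ I x) = (ψ ^ j) (clo ψ I x) := by
    intro j hj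
    induction j with
    | zero => rfl
    | succ j ih =>
      rw [pow_succ', Perm.mul_apply, ih (by omega), h _ (h2 j hj), pow_succ', Perm.mul_apply]
  refine CycC.exit ψ' k (fun hc => h1 ?_) (fun j hj => ?_) ((key k le_rfl).trans h3) hx
  · have := h _ hc
    rw [CycC.ai] at this
    rwa [this, CycC.ia]
  · rw [key j hj.le]
    exact h2 j hj

/-- The image of an exit is the entry of its run. -/
theorem clo_exit (ψ : Perm P) {I : Finset P} {x y : P} (k : ℕ) (hy : ψ⁻¹ y ∉ I)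
    (hk : ∀ j < k, (ψ ^ j) y ∈ I) (hx : (ψ ^ k) y = x) (hxI : x ∉ I) : clo ψ I x = y :=
  CycC.exit ψ k hy hk hx hxI

theorem clo_not_mem (ψ : Perm P) {I : Finset P} {x : P} (hx : x ∉ I) :
    ψ⁻¹ (clo ψ I x) ∉ I ∧ ∃ k : ℕ, (∀ j < k, (ψ ^ j) (clo ψ I x) ∈ I) ∧ (ψ ^ k) (clo ψ I x) = x :=
  CycC.clo_not_mem ψ hx

theorem clo_fixed (ψ : Perm P) {I : Finset P} {x : P} (hx : x ∉ I) (hx' : ψ⁻¹ x ∉ I) :
    clo ψ I x = x :=
  clo_exit ψ 0 hx' (fun _ h => absurd h (Nat.not_lt_zero _)) rfl hx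

/-- Summation over all permutations with prescribed steps on `I`. -/
theorem sum_steps {M : Type} [AddCommMonoid M] (ρ : Perm P) (I : Finset P) (Φ : Perm P → M) :
    ∑ ψ ∈ univ.filter (fun ψ : Perm P => ∀ p ∈ I, ψ p = ρ p), Φ ψ =
      ∑ g ∈ univ.filter (fun g : Perm P => ∀ p ∈ I, g p = p), Φ (ρ * g) := by
  refine sum_nbij' (fun ψ => ρ⁻¹ * ψ) (fun g => ρ * g) ?_ ?_ ?_ ?_ ?_
  · intro ψ h
    simp only [mem_filter, mem_univ, true_and] at h ⊢
    intro p hp
    rw [Perm.mul_apply, h p hp, CycC.ia]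
  · intro g h
    simp only [mem_filter, mem_univ, true_and] at h ⊢
    intro p hp
    rw [Perm.mul_apply, h p hp]
  · intro ψ _
    simp
  · intro g _
    simp
  · intro ψ _
    simp

/-- Every permutation is uniquely `ρ * g` with `ρ` closed on `I` and `g` fixing `I`. -/
theorem sum_clo {M : Type} [AddCommMonoid M] (I : Finset P) (Φ : Perm P → M) :
    ∑ ψ : Perm P, Φ ψ = ∑ ρ ∈ univ.filter (fun ρ : Perm P => skip ρ I = 1),
      ∑ g ∈ univ.filter (fun g : Perm P => ∀ p ∈ I, g p = p), Φ (ρ * g) := by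
  rw [← sum_product' _ _ fun ρ g : Perm P => Φ (ρ * g)]
  refine sum_nbij' (fun ψ => (clo ψ I, skip ψ I)) (fun x => x.1 * x.2) ?_ ?_ ?_ ?_ ?_
  · intro ψ _
    simp only [mem_product, mem_filter, mem_univ, true_and]
    exact ⟨skip_clo ψ I, fun p hp => skip_of_mem ψ hp⟩
  · intro x _
    exact mem_univ _
  · intro ψ _
    exact clo_mul_skip ψ I
  · intro x h
    simp only [mem_product, mem_filter, mem_univ, true_and] at h
    rw [clo_mul h.1 h.2, skip_mul _ h.2, h.1, one_mul]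
  · intro ψ _
    rw [clo_mul_skip]

theorem CycC.lnk_step (π : Perm P) {ρ g : Perm P} {I : Finset P} (h : skip ρ I = 1)
    (hg : ∀ p ∈ I, g p = p) (p : P) : Lnk π (ρ * g) p (g p) := by
  have := skip_sameCycle_self (ρ * g) I p
  rw [skip_mul ρ hg, h, one_mul] at this
  exact CycC.of_sameCycle (CycC.lnk_equiv _ _) (CycC.lnk_right _ _) this

theorem CycC.lnk_clo (π : Perm P) {ρ g : Perm P} {I : Finset P} (h : skip ρ I = 1)
    (hg : ∀ p ∈ I, g p = p) {p q : P} (hl : Lnk π ρ p q) : Lnk π (ρ * g) p q := by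
  refine CycC.lnk_le (CycC.lnk_equiv _ _) (CycC.lnk_left _ _) (fun p => ?_) hl
  have h1 := CycC.lnk_step π h hg (g⁻¹ p)
  have h2 := CycC.lnk_right π (ρ * g) (g⁻¹ p)
  rw [Perm.mul_apply] at h2
  rw [CycC.ai] at h1 h2
  exact (CycC.lnk_equiv _ _).trans ((CycC.lnk_equiv _ _).symm h1) h2

/-- Links after the reduction are links before it. -/
theorem lnk_of_skip (π : Perm P) {ρ g : Perm P} {I : Finset P} (h : skip ρ I = 1)
    (hg : ∀ p ∈ I, g p = p) {p q : P} (hl : Lnk (skip (π * ρ) I) g p q) : Lnk π (ρ * g) p q := by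
  refine CycC.lnk_le (CycC.lnk_equiv _ _) (fun p => ?_) (CycC.lnk_step π h hg) hl
  refine CycC.lnk_clo π h hg (CycC.of_sameCycle (CycC.lnk_equiv _ _) (fun p => ?_)
    (skip_sameCycle_self (π * ρ) I p))
  exact (CycC.lnk_equiv _ _).trans (CycC.lnk_right π ρ p) (CycC.lnk_left π ρ _)

theorem lnk_clo (π : Perm P) {ρ g : Perm P} {I : Finset P} (h : skip ρ I = 1)
    (hg : ∀ p ∈ I, g p = p) {p q : P} (hl : Lnk π ρ p q) : Lnk π (ρ * g) p q :=
  CycC.lnk_clo π h hg hl

/-- Links before the reduction: `E` is any equivalence relation that contains the steps of `g`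
and the links of `π, ρ` between points off `I`. -/
theorem lnk_reduce {π ρ g : Perm P} {I : Finset P} (hg : ∀ p ∈ I, g p = p) {E : P → P → Prop}
    (hE : Equivalence E) (h1 : ∀ p, p ∉ I → E p (g p))
    (h2 : ∀ p q, p ∉ I → q ∉ I → Lnk π ρ p q → E p q) {p q : P} (hp : p ∉ I) (hq : q ∉ I)
    (hl : Lnk π (ρ * g) p q) : E p q := by
  have L := CycC.lnk_equiv π ρ
  have key : Lnk π ρ p q ∨ ∃ s s', s ∉ I ∧ s' ∉ I ∧ Lnk π ρ p s ∧ Lnk π ρ q s' ∧ E s s' := by
    refine CycC.lnk_le (E := fun p q => Lnk π ρ p q ∨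
      ∃ s s', s ∉ I ∧ s' ∉ I ∧ Lnk π ρ p s ∧ Lnk π ρ q s' ∧ E s s') ⟨fun p => Or.inl (L.refl p),
      ?_, ?_⟩ (fun p => Or.inl (CycC.lnk_left π ρ p)) (fun p => ?_) hl
    · rintro p q (h | ⟨s, s', a, b, c, d, e⟩)
      · exact Or.inl (L.symm h)
      · exact Or.inr ⟨s', s, b, a, d, c, hE.symm e⟩
    · rintro p q r (h | ⟨s, s', a, b, c, d, e⟩) (h' | ⟨t, t', a', b', c', d', e'⟩)
      · exact Or.inl (L.trans h h')
      · exact Or.inr ⟨t, t', a', b', L.trans h c', d', e'⟩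
      · exact Or.inr ⟨s, s', a, b, c, L.trans (L.symm h') d, e⟩
      · exact Or.inr ⟨s, t', a, b', c, d',
          hE.trans e (hE.trans (h2 s' t b a' (L.trans (L.symm d) c')) e')⟩
    · by_cases hp : p ∈ I
      · rw [Perm.mul_apply, hg p hp]
        exact Or.inl (CycC.lnk_right π ρ p)
      · exact Or.inr ⟨p, g p, hp, CycC.fix_not_mem hg hp, L.refl p,
          L.symm (CycC.lnk_right π ρ _), h1 p hp⟩
  rcases key with h | ⟨s, s', a, b, c, d, e⟩
  · exact h2 p q hp hq h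
  · exact hE.trans (h2 p s hp a c) (hE.trans e (hE.symm (h2 q s' hq b d)))

theorem Lnk.mem_of_closed {f g : Perm P} {J : Finset P} (hf : ∀ p ∈ J, f p ∈ J)
    (hg : ∀ p ∈ J, g p ∈ J) {p q : P} (hl : Lnk f g p q) : p ∈ J ↔ q ∈ J := by
  have key : ∀ f : Perm P, (∀ p ∈ J, f p ∈ J) → ∀ p, p ∈ J ↔ f p ∈ J := fun f hf p =>
    ⟨hf p, fun h => orb_subset_of_closed h hf
      (mem_orb.mpr (Perm.sameCycle_apply_left.mpr (Perm.SameCycle.refl f p)))⟩
  exact CycC.lnk_le (E := fun p q => p ∈ J ↔ q ∈ J) ⟨fun _ => Iff.rfl, Iff.symm, Iff.trans⟩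
    (key f hf) (key g hg) hl

theorem Lnk.of_sameCycle_left {f : Perm P} (g : Perm P) {p q : P} (h : f.SameCycle p q) :
    Lnk f g p q :=
  CycC.of_sameCycle (CycC.lnk_equiv _ _) (CycC.lnk_left _ _) h

theorem Lnk.of_sameCycle_right (f : Perm P) {g : Perm P} {p q : P} (h : g.SameCycle p q) :
    Lnk f g p q :=
  CycC.of_sameCycle (CycC.lnk_equiv _ _) (CycC.lnk_right _ _) h

theorem IsCyc.rotate {f : Perm P} {l : List P} (h : IsCyc f l) (k : ℕ) : IsCyc f (l.rotate k) :=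
  ⟨List.nodup_rotate.mpr h.1, by
    rw [List.map_rotate, h.2, List.rotate_rotate, List.rotate_rotate, add_comm]⟩

theorem IsCyc.mem {f : Perm P} {l : List P} (h : IsCyc f l) {p : P} (hp : p ∈ l) : f p ∈ l := by
  rw [← List.mem_rotate (n := 1), ← h.2]
  exact List.mem_map_of_mem hp

theorem IsCyc.orb_eq {f : Perm P} {l : List P} (h : IsCyc f l) {p : P} (hp : p ∈ l) :
    orb f p = l.toFinset := by
  refine Subset.antisymm (orb_subset_of_closed (List.mem_toFinset.mpr hp) fun q hq =>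
    List.mem_toFinset.mpr (h.mem (List.mem_toFinset.mp hq))) fun q hq => ?_
  rw [List.mem_toFinset] at hq
  cases l with
  | nil => simp at hp
  | cons a l =>
    rw [CycC.eq_iterate f l a a (by rw [h.2]; simp), List.mem_iterate] at hp hq
    obtain ⟨i, -, rfl⟩ := hp
    obtain ⟨j, -, rfl⟩ := hq
    rw [mem_orb, Perm.iterate_eq_pow, Perm.iterate_eq_pow, Perm.sameCycle_pow_left,
      Perm.sameCycle_pow_right]

theorem IsCyc.congr {f g : Perm P} {l : List P} (h : IsCyc f l) (hg : ∀ p ∈ l, g p = f p) :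
    IsCyc g l :=
  ⟨h.1, (List.map_congr_left hg).trans h.2⟩

theorem isCyc_iterate (f : Perm P) (p : P) :
    IsCyc f (List.iterate f p (orb f p).card) ∧
      (List.iterate f p (orb f p).card).toFinset = orb f p := by
  have hpos : 0 < Function.minimalPeriod f p :=
    Function.minimalPeriod_pos_of_mem_periodicPts (f.injective.mem_periodicPts p)
  have h1 : IsCyc f (List.iterate f p (Function.minimalPeriod f p)) := by
    constructor
    · rw [← List.range_map_iterate]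
      refine List.nodup_range.map_on fun i hi j hj e => ?_
      exact Function.iterate_injOn_Iio_minimalPeriod (List.mem_range.mp hi)
        (List.mem_range.mp hj) e
    · obtain ⟨m, hm⟩ := Nat.exists_eq_add_one_of_ne_zero hpos.ne'
      have e := Function.iterate_minimalPeriod (f := f) (x := p)
      rw [hm] at e ⊢
      rw [CycC.map_iterate, List.iterate_add, ← Function.iterate_succ_apply, e]
      simp
  have h2 : orb f p = (List.iterate f p (Function.minimalPeriod f p)).toFinset :=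
    h1.orb_eq (List.mem_iterate.mpr ⟨0, hpos, rfl⟩)
  have h3 : (orb f p).card = Function.minimalPeriod f p := by
    rw [h2, List.toFinset_card_of_nodup h1.1, List.length_iterate]
  rw [h3]
  exact ⟨h1, h2.symm⟩

theorem IsCyc.eq_iterate {f : Perm P} {p : P} {l : List P} (h : IsCyc f (p :: l)) :
    p :: l = List.iterate f p (l.length + 1) :=
  CycC.eq_iterate f l p p (by rw [h.2]; simp)

end Pool.Agent.P.MP_48bde8_co
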