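import Pool.Agent.P.MP_48bde8_co.RegA
import Pool.Agent.P.MP_48bde8_co.CycB
import Pool.Agent.P.MP_48bde8_co.CycC

/-! Task REGB: Euler inequality for regions, complements in planar diagrams. -/

namespace Pool.Agent.P.MP_48bde8_co

open Equiv Finset
open scoped Classical

variable {P : Type} [Fintype P]

namespace RegBAux

theorem iterate_map {α : Type} (f : α → α) (a : α) (n : ℕ) :
    List.iterate f (f a) n = (List.iterate f a n).map f := by
  induction n generalizing a with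
  | zero => rfl
  | succ n ih => simp only [List.iterate, List.map_cons, ih]

theorem ty_pow {A : Amb P} {ψ : Perm P} (hψ : A.WV ψ) (p : P) (k : ℕ) :
    A.ty ((ψ ^ k) p) = A.ty p := by
  induction k with
  | zero => rfl
  | succ k ih => rw [pow_succ', Perm.mul_apply, (hψ _).1, ih]

theorem clo_A {A : Amb P} {ψ : Perm P} {R : Rg P} (hψ : A.WV ψ) (hR : A.Reg ψ R) {a : P}
    (ha : a ∉ R.2) (hty : A.ty a = true) : clo ψ R.2 a = a := by
  refine clo_fixed ψ ha fun h => ha ?_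
  have h1 : A.ty (ψ⁻¹ a) = true := by
    rw [← (hψ (ψ⁻¹ a)).1]; simpa using hty
  simpa using (hR.2.2 _ h h1).1

theorem cin_split (f : Perm P) {V I I₂ : Finset P} (hI : I ⊆ V) (hf : ∀ p ∈ I, f p ∈ V)
    (h2 : ∀ p, p ∈ I₂ ↔ p ∉ V ∧ f p ∉ V) :
    cin f I + cin f I₂ + cmeet f (V \ I) = cyc f := by
  rw [← cin_add_cmeet f (V \ I), ← cin_union f (I := I) (J := I₂)
    (disjoint_left.2 fun p hp h => ((h2 p).1 h).1 (hI hp))
    (fun p hp h => ((h2 _).1 h).1 (hf p hp)) (fun p hp h => ((h2 p).1 hp).2 (hI h))]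
  congr 1
  unfold cin
  congr 1
  refine filter_congr fun c hc => ?_
  obtain ⟨p, -, rfl⟩ := mem_image.1 hc
  have hstep : ∀ q ∈ orb f p, f q ∈ orb f p := fun q hq =>
    mem_orb.2 (Perm.sameCycle_apply_right.2 (mem_orb.1 hq))
  constructor
  · intro h q hq
    rw [mem_compl, mem_sdiff]
    rintro ⟨h3, h4⟩
    rcases mem_union.1 (h hq) with h5 | h5
    · exact h4 h5
    · exact ((h2 q).1 h5).1 h3
  · intro h
    have hI' : ∀ q ∈ orb f p, q ∈ V → q ∈ I := fun q hq hV => by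
      by_contra h3
      exact mem_compl.1 (h hq) (mem_sdiff.2 ⟨hV, h3⟩)
    by_cases hex : ∃ q ∈ orb f p, q ∈ V
    · obtain ⟨q, hq, hV⟩ := hex
      have h3 : orb f q ⊆ orb f p ∩ V :=
        orb_subset_of_closed (mem_inter.2 ⟨hq, hV⟩) fun r hr =>
          mem_inter.2 ⟨hstep r (mem_inter.1 hr).1,
            hf r (hI' r (mem_inter.1 hr).1 (mem_inter.1 hr).2)⟩
      rw [← orb_eq_iff.2 (mem_orb.1 hq)] at h3
      intro r hr
      exact mem_union_left _ (hI' r hr (mem_inter.1 (h3 hr)).2)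
    · intro r hr
      exact mem_union_right _ ((h2 r).2
        ⟨fun h3 => hex ⟨r, hr, h3⟩, fun h3 => hex ⟨f r, hstep r hr, h3⟩⟩)

end RegBAux

namespace Amb

variable {A : Amb P} {ψ : Perm P} {R S : Rg P}

theorem clo_of_not_mem (hR : A.Pre ψ R) {p : P} (hp : p ∉ R.1) : clo ψ R.2 p = p := by
  refine clo_fixed ψ (fun h => hp (hR.2.1 h)) fun h => hp ?_
  simpa using hR.2.2 _ h

theorem clo_mem (hR : A.Pre ψ R) {p : P} (hp : p ∈ R.1) : clo ψ R.2 p ∈ R.1 := by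
  by_contra h
  have h1 := (clo ψ R.2).injective (clo_of_not_mem hR h)
  exact h (h1.symm ▸ hp)

theorem clo_wv (hψ : A.WV ψ) (hR : A.Reg ψ R) : A.WV (clo ψ R.2) := by
  intro p
  refine ⟨?_, fun hp => ?_⟩
  · obtain ⟨k, hk⟩ := (clo_sameCycle ψ R.2 p).exists_nat_pow_eq
    rw [← hk]
    exact RegBAux.ty_pow hψ p k
  · by_cases h : p ∈ R.2
    · rw [clo_of_mem ψ h, clo_of_mem ψ (hR.2.2 p h hp).1, (hψ p).2 hp]
    · rw [RegBAux.clo_A hψ hR h hp, RegBAux.clo_A hψ hR h hp]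

theorem clo_of_A (hψ : A.WV ψ) (hR : A.Reg ψ R) {a : P} (ha : a ∉ R.2) (hty : A.ty a = true) :
    clo ψ R.2 a = a := by
  exact RegBAux.clo_A hψ hR ha hty

theorem RL.lnk_clo {p q : P} (h : A.RL ψ R p q) : Lnk A.π (clo ψ R.2) p q := by
  induction h with
  | rel x y h =>
    rcases h with ⟨_, h⟩ | ⟨h1, h⟩
    · exact Relation.EqvGen.rel _ _ (Or.inl h)
    · exact Relation.EqvGen.rel _ _ (Or.inr (by rw [clo_of_mem ψ h1]; exact h))
  | refl x => exact Relation.EqvGen.refl _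
  | symm x y _ ih => exact Relation.EqvGen.symm _ _ ih
  | trans x y z _ _ ih1 ih2 => exact Relation.EqvGen.trans _ _ _ ih1 ih2

theorem rl_clo (hR : A.Pre ψ R) (p : P) : A.RL ψ R p (clo ψ R.2 p) := by
  by_cases h : p ∈ R.2
  · exact Relation.EqvGen.rel _ _ (Or.inr ⟨h, clo_of_mem ψ h⟩)
  · obtain ⟨_, k, hk, e⟩ := clo_not_mem ψ h
    have key : ∀ j, j ≤ k → A.RL ψ R (clo ψ R.2 p) ((ψ ^ j) (clo ψ R.2 p)) := by
      intro j
      induction j with
      | zero => intro _; exact Relation.EqvGen.refl _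
      | succ j ih =>
        intro hj
        refine Relation.EqvGen.trans _ _ _ (ih (by omega))
          (Relation.EqvGen.rel _ _ (Or.inr ⟨hk j (by omega), ?_⟩))
        rw [pow_succ', Perm.mul_apply]
    have := key k le_rfl
    rw [e] at this
    exact Relation.EqvGen.symm _ _ this

theorem cin_clo (hR : A.Pre ψ R) : cin (clo ψ R.2) R.1 = cin ψ R.2 + bd R := by
  rw [cin_skip (clo ψ R.2) R.2 (fun p hp => clo_mem hR hp), inter_eq_right.2 hR.2.1, skip_clo,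
    cin_congr (f := ψ) (fun q hq => clo_of_mem ψ hq), cin_of_fixed 1 (fun _ _ => rfl)]
  rfl

theorem cin_pi_clo (hR : A.Pre ψ R) :
    cin (A.π * clo ψ R.2) R.1 = cin (A.π * ψ) R.2 + cmeet (A.π * clo ψ R.2) (R.1 \ R.2) := by
  have hJ : ∀ p ∈ R.1, (A.π * clo ψ R.2) p ∈ R.1 := fun p hp => hR.1 _ (clo_mem hR hp)
  rw [cin_skip (A.π * clo ψ R.2) R.2 hJ, inter_eq_right.2 hR.2.1, cin_skip_eq_cmeet _ _ hJ,
    cin_congr (f := A.π * ψ) (fun q hq => by
      rw [Perm.mul_apply, Perm.mul_apply, clo_of_mem ψ hq])]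

/-- Euler inequality for a connected pre-region. -/
theorem eps_add_le (hR : A.Pre ψ R) (hc : A.RConn ψ R) :
    A.eps ψ R + cmeet (A.π * clo ψ R.2) (R.1 \ R.2) ≤ 2 := by
  have h := euler_on (π := A.π) (ψ := clo ψ R.2) (V := R.1) hR.1 (fun p hp => clo_mem hR hp)
    (fun p hp q hq => (hc.2 p hp q hq).lnk_clo)
  rw [cin_clo hR, cin_pi_clo hR, ← bd_add_card hR.2.1] at h
  unfold eps
  omega

theorem eps_le_one (hR : A.Pre ψ R) (hc : A.RConn ψ R) (h1 : 1 ≤ bd R) : A.eps ψ R ≤ 1 := by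
  have h := eps_add_le hR hc
  have h2 := cmeet_pos (A.π * clo ψ R.2) (X := R.1 \ R.2) (card_pos.1 h1)
  omega

/-- Components of a subregion of a connected region with a cut. -/
theorem eps_comp_le (hR : A.Pre ψ R) (hc : A.RConn ψ R) (h1 : 1 ≤ bd R) (hS : A.Pre ψ S)
    (hle : S ≤ R) {p : P} (hp : p ∈ S.1) :
    1 ≤ bd (A.comp ψ S p) ∧ A.eps ψ (A.comp ψ S p) ≤ 1 := by
  have h2 := bd_pos_of_le hR hc h1 (hS.comp p) ((comp_le S p).trans hle) ⟨p, mem_comp_self hp⟩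
  exact ⟨h2, eps_le_one (hS.comp p) (comp_conn hS hp) h2⟩

theorem bet_of_not_mem (hR : A.Pre ψ R) {p : P} (hp : p ∉ R.1) : A.bet ψ R.2 p = A.π p := by
  have e : (A.π * clo ψ R.2) p = A.π p := by rw [Perm.mul_apply, clo_of_not_mem hR hp]
  unfold bet
  rw [skip_one (fun h => hp (hR.2.1 h)), e]
  rw [e]
  exact fun h => hp ((hR.mem_iff p).1 (hR.2.1 h))

theorem bet_mem (hR : A.Pre ψ R) {x : P} (hx : x ∈ R.1 \ R.2) : A.bet ψ R.2 x ∈ R.1 \ R.2 := by
  obtain ⟨h1, h2⟩ := mem_sdiff.1 hx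
  have hJ : ∀ p ∈ R.1, (A.π * clo ψ R.2) p ∈ R.1 := fun p hp => hR.1 _ (clo_mem hR hp)
  exact mem_sdiff.2 ⟨skip_mem_of_closed R.2 hJ h1, skip_not_mem _ h2⟩

/-- The cut ports of a disc form one boundary cycle. -/
theorem bet_sameCycle (hR : A.Pre ψ R) (hc : A.RConn ψ R) (he : A.eps ψ R = 1) {x y : P}
    (hx : x ∈ R.1 \ R.2) (hy : y ∈ R.1 \ R.2) : (A.bet ψ R.2).SameCycle x y := by
  have h := eps_add_le hR hc
  have h1 : cmeet (A.π * clo ψ R.2) (R.1 \ R.2) ≤ 1 := by omega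
  exact (skip_sameCycle (mem_sdiff.1 hx).2 (mem_sdiff.1 hy).2).2
    ((cmeet_le_one_iff _ _).1 h1 x hx y hy)

theorem blist_spec (hR : A.Pre ψ R) (hc : A.RConn ψ R) (he : A.eps ψ R = 1) {e : P}
    (hx : e ∈ R.1 \ R.2) : IsCyc (A.bet ψ R.2) (A.blist ψ R e) ∧
      (A.blist ψ R e).toFinset = R.1 \ R.2 ∧ (A.blist ψ R e).length = bd R ∧
      (A.blist ψ R e).head? = some e ∧
      A.blist ψ R (A.bet ψ R.2 e) = (A.blist ψ R e).rotate 1 := by
  have ho : orb (A.bet ψ R.2) e = R.1 \ R.2 :=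
    Subset.antisymm (orb_subset_of_closed hx fun q hq => bet_mem hR hq)
      fun q hq => mem_orb.2 (bet_sameCycle hR hc he hx hq)
  have h := isCyc_iterate (A.bet ψ R.2) e
  rw [ho] at h
  have hb : 0 < bd R := card_pos.2 ⟨e, hx⟩
  refine ⟨h.1, h.2, List.length_iterate _ _ _, ?_, ?_⟩
  · unfold blist
    obtain ⟨n, hn⟩ : ∃ n, bd R = n + 1 := ⟨bd R - 1, by omega⟩
    rw [hn]
    rfl
  · unfold blist
    rw [RegBAux.iterate_map]
    exact h.1.2

/-- Exact Euler relation between a pre-region and its complement. -/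
theorem eps_cpl (hR : A.Pre ψ R) :
    A.eps ψ R + A.eps ψ (cpl ψ R) + Fintype.card P + cmeet ψ (R.1 \ R.2) +
        cmeet (A.π * ψ) (R.1 \ R.2) =
      cyc A.π + cyc ψ + cyc (A.π * ψ) + bd R + bd (cpl ψ R) := by
  have hC : A.Pre ψ (cpl ψ R) := cpl_pre hR
  have h1 : cin A.π R.1 + cin A.π (cpl ψ R).1 = cyc A.π := by
    rw [← cin_univ, ← union_compl R.1]
    refine (cin_union A.π disjoint_compl_right (fun p hp h => ?_) fun p hp h => ?_).symm
    · exact mem_compl.1 h (hR.1 p hp)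
    · exact mem_compl.1 hp ((hR.mem_iff p).1 h)
  have h2 := RegBAux.cin_split ψ (I₂ := (cpl ψ R).2) hR.2.1 hR.2.2 (fun p => by simp [cpl])
  have h3 := RegBAux.cin_split (A.π * ψ) (I₂ := (cpl ψ R).2) hR.2.1
    (fun p hp => hR.1 _ (hR.2.2 p hp)) (fun p => by simp [cpl, hR.mem_iff])
  have h4 := bd_add_card hR.2.1
  have h5 := bd_add_card hC.2.1
  have h6 : R.1.card + (cpl ψ R).1.card = Fintype.card P := card_add_card_compl R.1
  unfold eps
  omega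

theorem eps_cpl_planar (hU : A.U = univ) (hp : A.Planar ψ) (hR : A.Pre ψ R) :
    A.eps ψ R + A.eps ψ (cpl ψ R) + cmeet ψ (R.1 \ R.2) + cmeet (A.π * ψ) (R.1 \ R.2) =
      2 + bd R + bd (cpl ψ R) := by
  have h := eps_cpl hR
  unfold Planar at hp
  rw [hU, cin_univ, cin_univ, cin_univ, card_univ] at hp
  omega

/-- Components of the complement of a connected pre-region in a planar diagram. -/
theorem comp_cpl (hU : A.U = univ) (hc : A.Conn ψ) (hp : A.Planar ψ) (hR : A.Pre ψ R)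
    (hRc : A.RConn ψ R) {p : P} (hpR : p ∉ R.1) :
    let K := A.comp ψ (cpl ψ R) p
    A.eps ψ K = 1 ∧ 1 ≤ bd K ∧ A.RConn ψ (cpl ψ K) ∧ A.eps ψ (cpl ψ K) = 1 ∧
      bd (cpl ψ K) = bd K ∧ R ≤ cpl ψ K ∧ (∀ q ∈ K.1 \ K.2, ψ q ∈ R.1) ∧
      (∀ x ∈ K.1 \ K.2, ∀ y ∈ K.1 \ K.2, ψ.SameCycle x y → x = y) ∧
      (∀ x ∈ K.1 \ K.2, ∀ y ∈ K.1 \ K.2, (A.π * ψ).SameCycle x y → x = y) := by
  intro K
  have hC : A.Pre ψ (cpl ψ R) := cpl_pre hR
  obtain ⟨r, hr⟩ := hRc.1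
  have hsub : ∀ p q, q ∈ (A.comp ψ (cpl ψ R) p).1 → q ∉ R.1 := fun p q hq =>
    mem_compl.1 ((comp_le (cpl ψ R) p).1 hq)
  have hfull : ∀ p, ∀ q ∈ (A.comp ψ (cpl ψ R) p).1 \ (A.comp ψ (cpl ψ R) p).2, ψ q ∈ R.1 := by
    intro p q hq
    obtain ⟨h1, h2⟩ := mem_sdiff.1 hq
    by_contra h
    exact h2 ((mem_comp_snd hC).2 ⟨h1, mem_filter.2 ⟨mem_compl.2 (hsub p q h1), h⟩⟩)
  have hbd : ∀ p, p ∉ R.1 → 1 ≤ bd (A.comp ψ (cpl ψ R) p) := fun p hp =>
    bd_pos_of_conn hc (hC.comp p) (by rw [hU]; exact subset_univ _)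
      ⟨p, mem_comp_self (mem_compl.2 hp)⟩ (h := r) (by rw [hU]; exact mem_univ _)
      fun h => hsub p r h hr
  have hK : A.Pre ψ K := hC.comp p
  have hKc : A.RConn ψ K := comp_conn hC (mem_compl.2 hpR)
  have hb1 : bd (cpl ψ K) = bd K := by
    have h := bd_cpl hK
    rw [filter_eq_empty_iff.2 fun q hq h => hsub p _ h (hfull p q hq), card_empty, add_zero] at h
    exact h
  have hle : R ≤ cpl ψ K := le_cpl hR (disjoint_left.2 fun q hq h => hsub p q h hq)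
  have hcc : A.RConn ψ (cpl ψ K) := by
    refine rconn_of_root (hle.1 hr) fun q hq => ?_
    by_cases hqR : q ∈ R.1
    · exact (hRc.2 r hr q hqR).mono hle
    have hqK : q ∉ K.1 := mem_compl.1 hq
    have hn : ¬ A.RL ψ (cpl ψ R) p q := fun h => hqK (mem_filter.2 ⟨mem_compl.2 hqR, h⟩)
    have hd := comp_disjoint hn
    have hle2 : A.comp ψ (cpl ψ R) q ≤ cpl ψ K := le_cpl (hC.comp q) hd.symm
    obtain ⟨x, hx⟩ := card_pos.1 (hbd q hqR)
    have hx1 := (mem_sdiff.1 hx).1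
    have hx2 := hfull q x hx
    have l1 : A.RL ψ (cpl ψ K) r (ψ x) := (hRc.2 r hr _ hx2).mono hle
    have l2 : A.RL ψ (cpl ψ K) x (ψ x) :=
      Relation.EqvGen.rel _ _ (Or.inr ⟨mem_filter.2 ⟨hle2.1 hx1, fun h => hsub p _ h hx2⟩, rfl⟩)
    have l3 : A.RL ψ (cpl ψ K) x q :=
      ((comp_conn hC (mem_compl.2 hqR)).2 x hx1 q (mem_comp_self (mem_compl.2 hqR))).mono hle2
    exact Relation.EqvGen.trans _ _ _ l1
      (Relation.EqvGen.trans _ _ _ (Relation.EqvGen.symm _ _ l2) l3)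
  have hb : 1 ≤ bd K := hbd p hpR
  have e1 := eps_le_one hK hKc hb
  have e2 := eps_le_one (cpl_pre hK) hcc (hb1 ▸ hb)
  have e3 := eps_cpl_planar hU hp hK
  have e4 : cmeet ψ (K.1 \ K.2) ≤ bd K := cmeet_le _ _
  have e5 : cmeet (A.π * ψ) (K.1 \ K.2) ≤ bd K := cmeet_le _ _
  have e6 : cmeet ψ (K.1 \ K.2) = bd K := by omega
  have e7 : cmeet (A.π * ψ) (K.1 \ K.2) = bd K := by omega
  exact ⟨by omega, hb, hcc, by omega, hb1, hle, hfull p, (cmeet_eq_card_iff _ _).1 e6,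
    (cmeet_eq_card_iff _ _).1 e7⟩

end Amb

end Pool.Agent.P.MP_48bde8_co
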