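import Pool.Agent.P.MP_48bde8_co.Flat
import Pool.Agent.P.MP_48bde8_co.RegB

/-! Task CUTS: small cuts in planar maps. -/

namespace Pool.Agent.P.MP_48bde8_co

open Equiv Finset
open scoped Classical

variable {P : Type} [Fintype P]

namespace CutsAux

open Amb

variable {A : Amb P} {ψ : Perm P} {R : Rg P}

theorem exists_not_mem {V : Finset P} (hp : V ≠ univ) : ∃ h, h ∉ V := by
  by_contra hn
  push Not at hn
  exact hp (eq_univ_iff_forall.2 hn)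

theorem reg_cpl (hc : A.Closed ψ) (hR : A.Pre ψ R) : A.Reg ψ (cpl ψ R) :=
  cpl_reg hc.2.2.2.1 hc.2.2.1 hR (by rw [hc.2.1]; exact subset_univ _)

theorem conn_one (hc : A.Closed ψ) (hR : A.Pre ψ R) (hne : R.1.Nonempty) {h : P} (hh : h ∉ R.1)
    (hb : bd R ≤ 1) : A.RConn ψ R := by
  refine ⟨hne, fun p hp q hq => ?_⟩
  by_contra hn
  have key : ∀ x ∈ R.1, 1 ≤ bd (A.comp ψ R x) := fun x hx =>
    bd_pos_of_conn hc.2.2.2.2.1 (hR.comp x) (by rw [hc.2.2.1]; exact subset_univ _)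
      ⟨x, mem_comp_self hx⟩ (h := h) (by rw [hc.2.2.1]; exact mem_univ _)
      fun h' => hh ((comp_le R x).1 h')
  have a1 := bd_comp_add_le hR hn
  have a2 := key p hp
  have a3 := key q hq
  omega

theorem discs (hc : A.Closed ψ) (hR : A.Pre ψ R) (hRc : A.RConn ψ R) {h : P} (hh : h ∉ R.1)
    (c2 : A.RConn ψ (cpl ψ R)) : A.Disc ψ (cpl ψ R) ∧ A.Disc ψ (cpl ψ (cpl ψ R)) ∧
      bd (cpl ψ (cpl ψ R)) = bd (cpl ψ R) ∧ R ≤ cpl ψ (cpl ψ R) := by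
  have hC := reg_cpl hc hR
  have key := comp_cpl hc.2.2.1 hc.2.2.2.2.1 hc.2.2.2.2.2 hR hRc hh
  simp only [comp_eq_self hC.1 c2 (mem_compl.2 hh)] at key
  obtain ⟨k1, k2, k3, k4, k5, k6, -⟩ := key
  exact ⟨⟨hC, c2, k1, k2⟩, ⟨reg_cpl hc hC.1, k3, k4, k5 ▸ k2⟩, k5, k6⟩

end CutsAux

namespace Amb

variable {A : Amb P} {ψ : Perm P} {R : Rg P}

/-- A proper region with one cut and its complement are divergent. -/
theorem one_cut (hc : A.Closed ψ) (hR : A.Reg ψ R) (hne : R.1.Nonempty)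
    (hp : R.1 ≠ univ) (hb : bd R ≤ 1) :
    A.Div ψ R ∧ A.Div ψ (cpl ψ R) ∧ bd R = 1 ∧ bd (cpl ψ R) = 1 := by
  obtain ⟨r, hr⟩ := hne
  obtain ⟨h, hh⟩ := CutsAux.exists_not_mem hp
  have hC := CutsAux.reg_cpl hc hR.1
  have hb' := bd_cpl hR.1
  have c1 : A.RConn ψ R := CutsAux.conn_one hc hR.1 ⟨r, hr⟩ hh hb
  have c2 : A.RConn ψ (cpl ψ R) := CutsAux.conn_one hc hC.1 ⟨h, mem_compl.2 hh⟩ (h := r)
    (fun h => mem_compl.1 h hr) (by omega)
  obtain ⟨d1, d2, d3, d4⟩ := CutsAux.discs hc hR.1 c1 hh c2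
  have b1 : 1 ≤ bd (cpl ψ R) := d1.2.2.2
  have e : R = cpl ψ (cpl ψ R) := by
    have e1 : R.1 = (cpl ψ (cpl ψ R)).1 := (compl_compl R.1).symm
    have a1 := bd_add_card hR.1.2.1
    have a2 := bd_add_card d2.1.1.2.1
    rw [← e1] at a2
    exact Prod.ext e1 (eq_of_subset_of_card_le d4.2 (by omega))
  rw [← e] at d2
  refine ⟨⟨d2, by omega, ?_⟩, ⟨d1, by omega, ?_⟩, by omega, by omega⟩
  · by_contra hf
    have := flat_two_le hc.1 hc.2.2.2.1.1 d2 hf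
    omega
  · by_contra hf
    have := flat_two_le hc.1 hc.2.2.2.1.1 d1 hf
    omega

/-- Under `H1`, a proper region with at most three cuts is connected. -/
theorem H1.conn (hc : A.Closed ψ) (h1 : A.H1 ψ) (hR : A.Reg ψ R) (hne : R.1.Nonempty)
    (hp : R.1 ≠ univ) (h3 : bd R ≤ 3) : A.RConn ψ R := by
  refine ⟨hne, fun p hp' q hq => ?_⟩
  by_contra h
  have key : ∀ x ∈ R.1, 2 ≤ bd (A.comp ψ R x) := fun x hx =>
    h1 _ (hR.comp x) ⟨x, mem_comp_self hx⟩ fun e =>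
      hp (univ_subset_iff.1 (e ▸ (comp_le R x).1))
  have a1 := bd_comp_add_le hR.1 h
  have a2 := key p hp'
  have a3 := key q hq
  omega

/-- The complement of a proper connected region with at most three cuts is a disc. -/
theorem H1.cpl_disc (hc : A.Closed ψ) (h1 : A.H1 ψ) (hR : A.Reg ψ R) (hRc : A.RConn ψ R)
    (hp : R.1 ≠ univ) (h3 : bd R ≤ 3) :
    A.Disc ψ (cpl ψ R) ∧ A.Disc ψ (cpl ψ (cpl ψ R)) ∧ bd (cpl ψ R) ≤ bd R := by
  obtain ⟨r, hr⟩ := hRc.1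
  obtain ⟨h, hh⟩ := CutsAux.exists_not_mem hp
  have hb' := bd_cpl hR.1
  have c2 : A.RConn ψ (cpl ψ R) := h1.conn hc (CutsAux.reg_cpl hc hR.1) ⟨h, mem_compl.2 hh⟩
    (fun e => mem_compl.1 (show r ∈ (cpl ψ R).1 from e ▸ mem_univ r) hr) (by omega)
  obtain ⟨d1, d2, -⟩ := CutsAux.discs hc hR.1 hRc hh c2
  exact ⟨d1, d2, by omega⟩

end Amb

end Pool.Agent.P.MP_48bde8_co
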