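import Mathlib

/-!
Cycles of permutations of a finite type (fixed points count as cycles), first-return maps,
and the Euler inequality.
-/

namespace Pool.Agent.P.MP_48bde8_co

open Equiv Finset
open scoped Classical

variable {P : Type} [Fintype P]

/-- The cycle of `p`. -/
noncomputable def orb (f : Perm P) (p : P) : Finset P := univ.filter fun q => f.SameCycle p q

/-- The set of cycles. -/
noncomputable def cycs (f : Perm P) : Finset (Finset P) := univ.image (orb f)

/-- The number of cycles. -/
noncomputable def cyc (f : Perm P) : ℕ := (cycs f).card

/-- The number of cycles contained in `I`. -/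
noncomputable def cin (f : Perm P) (I : Finset P) : ℕ := ((cycs f).filter fun c => c ⊆ I).card

/-- The number of cycles meeting `X`. -/
noncomputable def cmeet (f : Perm P) (X : Finset P) : ℕ :=
  ((cycs f).filter fun c => ¬ Disjoint c X).card

/-- The relation generated by two permutations. -/
def Lnk (f g : Perm P) : P → P → Prop := Relation.EqvGen fun p q => q = f p ∨ q = g p

/-- The number of components. -/
noncomputable def ncomp (f g : Perm P) : ℕ :=
  (univ.image fun p => univ.filter fun q => Lnk f g p q).card

theorem fr_exists (f : Perm P) (S : Finset P) (p : S) : ∃ k, 0 < k ∧ (f ^ k) p.1 ∈ S :=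
  ⟨orderOf f, orderOf_pos f, by simp [pow_orderOf_eq_one]⟩

/-- First-return time. -/
noncomputable def frT (f : Perm P) (S : Finset P) (p : S) : ℕ := Nat.find (fr_exists f S p)

/-- First-return map as a function. -/
noncomputable def frF (f : Perm P) (S : Finset P) (p : S) : S :=
  ⟨(f ^ frT f S p) p.1, (Nat.find_spec (fr_exists f S p)).2⟩

theorem frF_injective (f : Perm P) (S : Finset P) : Function.Injective (frF f S) := by
  have key : ∀ p q : S, frF f S p = frF f S q → frT f S p ≤ frT f S q → p = q := by
    intro p q h hle
    have h1 : (f ^ frT f S p) p.1 = (f ^ frT f S q) q.1 := congrArg Subtype.val h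
    obtain ⟨k, hk⟩ := Nat.exists_eq_add_of_le hle
    rw [hk, pow_add, Perm.mul_apply] at h1
    have h2 : p.1 = (f ^ k) q.1 := (f ^ frT f S p).injective h1
    rcases Nat.eq_zero_or_pos k with h0 | h0
    · subst h0; exact Subtype.ext (by simpa using h2)
    · have h3 : frT f S q ≤ k := Nat.find_min' (fr_exists f S q) ⟨h0, h2 ▸ p.2⟩
      have h4 : 0 < frT f S p := (Nat.find_spec (fr_exists f S p)).1
      omega
  intro p q h
  rcases le_total (frT f S p) (frT f S q) with hle | hle
  · exact key p q h hle
  · exact (key q p h.symm hle).symm

/-- First-return permutation of `f` on `S`. -/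
noncomputable def fr (f : Perm P) (S : Finset P) : Perm S :=
  Equiv.ofBijective (frF f S) (Finite.injective_iff_bijective.1 (frF_injective f S))

/-- First return to the complement of `I`, the identity on `I`. -/
noncomputable def skip (f : Perm P) (I : Finset P) : Perm P := Perm.ofSubtype (fr f Iᶜ)

/-- Closing the runs of `I`: agrees with `ψ` on `I`, sends the exit of a run to its entry. -/
noncomputable def clo (ψ : Perm P) (I : Finset P) : Perm P := ψ * (skip ψ I)⁻¹

/-- `l` lists one cycle of `f` in order (or is empty). -/
def IsCyc (f : Perm P) (l : List P) : Prop := l.Nodup ∧ l.map f = l.rotate 1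

end Pool.Agent.P.MP_48bde8_co
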