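import Pool.Agent.P.MP_48bde8_co.Cyc

/-! Task CYCA: basic facts on orbits and cycle counts. -/

namespace Pool.Agent.P.MP_48bde8_co

open Equiv Finset
open scoped Classical

variable {P : Type} [Fintype P]

theorem mem_orb {f : Perm P} {p q : P} : q ∈ orb f p ↔ f.SameCycle p q := by
  simp [orb]

theorem self_mem_orb (f : Perm P) (p : P) : p ∈ orb f p := mem_orb.2 (Perm.SameCycle.refl f p)

theorem orb_eq_iff {f : Perm P} {p q : P} : orb f p = orb f q ↔ f.SameCycle p q := by
  constructor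
  · intro h
    exact mem_orb.1 (h ▸ self_mem_orb f q)
  · intro h
    ext x
    rw [mem_orb, mem_orb]
    exact ⟨fun h' => h.symm.trans h', fun h' => h.trans h'⟩

theorem orb_apply (f : Perm P) (p : P) : orb f (f p) = orb f p :=
  orb_eq_iff.2 (Perm.sameCycle_apply_left.2 (Perm.SameCycle.refl f p))

namespace CycA

theorem mem_orb_pow {f : Perm P} {p q : P} : q ∈ orb f p ↔ ∃ k : ℕ, (f ^ k) p = q := by
  rw [mem_orb]
  constructor
  · intro h
    obtain ⟨k, -, hk⟩ := h.exists_pow_eq'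
    exact ⟨k, hk⟩
  · rintro ⟨k, rfl⟩
    exact ⟨k, by simp⟩

theorem apply_mem {f : Perm P} {p q : P} (h : q ∈ orb f p) : f q ∈ orb f p :=
  mem_orb.2 (Perm.sameCycle_apply_right.2 (mem_orb.1 h))

theorem mem_cycs {f : Perm P} {c : Finset P} : c ∈ cycs f ↔ ∃ p, orb f p = c := by
  simp [cycs]

theorem orb_of_mem {f : Perm P} {p q : P} (h : q ∈ orb f p) : orb f q = orb f p :=
  (orb_eq_iff.2 (mem_orb.1 h)).symm

theorem meet_eq (f : Perm P) (X : Finset P) :
    ((cycs f).filter fun c => ¬ Disjoint c X) = X.image (orb f) := by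
  ext c
  simp only [mem_filter, mem_cycs, mem_image, not_disjoint_iff]
  constructor
  · rintro ⟨⟨p, rfl⟩, q, h1, h2⟩
    exact ⟨q, h2, orb_of_mem h1⟩
  · rintro ⟨q, h, rfl⟩
    exact ⟨⟨q, rfl⟩, q, self_mem_orb f q, h⟩

end CycA

open CycA

theorem orb_subset_iff {f : Perm P} {p : P} {I : Finset P} :
    orb f p ⊆ I ↔ ∀ k : ℕ, (f ^ k) p ∈ I := by
  constructor
  · intro h k
    exact h (mem_orb_pow.2 ⟨k, rfl⟩)
  · intro h q hq
    obtain ⟨k, rfl⟩ := mem_orb_pow.1 hq
    exact h k

theorem orb_subset_of_closed {f : Perm P} {p : P} {I : Finset P} (hp : p ∈ I)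
    (h : ∀ q ∈ I, f q ∈ I) : orb f p ⊆ I := by
  refine orb_subset_iff.2 fun k => ?_
  induction k with
  | zero => simpa using hp
  | succ k ih => rw [pow_succ', Perm.mul_apply]; exact h _ ih

theorem CycA.orb_map' {Q : Type} [Fintype Q] (e : P ↪ Q) {f : Perm P} {g : Perm Q} {p : P}
    (h : ∀ q ∈ orb f p, g (e q) = e (f q)) : orb g (e p) = (orb f p).map e := by
  have key : ∀ k : ℕ, (g ^ k) (e p) = e ((f ^ k) p) := by
    intro k
    induction k with
    | zero => simp
    | succ k ih =>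
      rw [pow_succ', pow_succ', Perm.mul_apply, Perm.mul_apply, ih,
        h _ (mem_orb_pow.2 ⟨k, rfl⟩)]
  ext x
  simp only [mem_map, mem_orb_pow]
  constructor
  · rintro ⟨k, rfl⟩
    exact ⟨_, ⟨k, rfl⟩, (key k).symm⟩
  · rintro ⟨_, ⟨k, rfl⟩, rfl⟩
    exact ⟨k, key k⟩

theorem orb_congr {f g : Perm P} {p : P} (h : ∀ q ∈ orb f p, g q = f q) : orb g p = orb f p := by
  have := orb_map' (Function.Embedding.refl P) (f := f) (g := g) (p := p) h
  simpa using this

theorem cin_congr {f g : Perm P} {I : Finset P} (h : ∀ q ∈ I, g q = f q) :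
    cin g I = cin f I := by
  unfold cin
  congr 1
  ext c
  simp only [mem_filter, mem_cycs]
  constructor
  · rintro ⟨⟨p, rfl⟩, hc⟩
    exact ⟨⟨p, orb_congr fun q hq => (h q (hc hq)).symm⟩, hc⟩
  · rintro ⟨⟨p, rfl⟩, hc⟩
    exact ⟨⟨p, orb_congr fun q hq => h q (hc hq)⟩, hc⟩

theorem cin_mono (f : Perm P) {I J : Finset P} (h : I ⊆ J) : cin f I ≤ cin f J :=
  card_le_card fun _ hc => mem_filter.2 ⟨(mem_filter.1 hc).1, (mem_filter.1 hc).2.trans h⟩

theorem cin_univ (f : Perm P) : cin f univ = cyc f := by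
  unfold cin cyc
  rw [filter_true_of_mem fun c _ => subset_univ c]

theorem cin_empty (f : Perm P) : cin f ∅ = 0 := by
  unfold cin
  rw [card_eq_zero, filter_eq_empty_iff]
  intro c hc h
  obtain ⟨p, rfl⟩ := mem_cycs.1 hc
  exact notMem_empty p (h (self_mem_orb f p))

theorem cin_supermod (f : Perm P) (I J : Finset P) :
    cin f I + cin f J ≤ cin f (I ∪ J) + cin f (I ∩ J) := by
  unfold cin
  rw [← card_union_add_card_inter]
  refine add_le_add (card_le_card fun c hc => ?_) (card_le_card fun c hc => ?_)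
  · simp only [mem_union, mem_filter] at hc ⊢
    rcases hc with h | h
    · exact ⟨h.1, h.2.trans subset_union_left⟩
    · exact ⟨h.1, h.2.trans subset_union_right⟩
  · simp only [mem_inter, mem_filter] at hc ⊢
    exact ⟨hc.1.1, subset_inter hc.1.2 hc.2.2⟩

theorem cin_erase (f : Perm P) {I : Finset P} (p : P) :
    cin f I = cin f (I.erase p) + if orb f p ⊆ I then 1 else 0 := by
  unfold cin
  rw [← card_filter_add_card_filter_not (s := (cycs f).filter fun c => c ⊆ I)
    (fun c => p ∉ c), filter_filter, filter_filter]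
  congr 1
  · congr 1
    ext c
    simp only [mem_filter, subset_erase]
  · split_ifs with h
    · rw [card_eq_one]
      refine ⟨orb f p, ?_⟩
      ext c
      simp only [mem_filter, mem_cycs, not_not, mem_singleton]
      constructor
      · rintro ⟨⟨q, rfl⟩, -, h2⟩
        exact (orb_of_mem h2).symm
      · rintro rfl
        exact ⟨⟨p, rfl⟩, h, self_mem_orb f p⟩
    · rw [card_eq_zero, filter_eq_empty_iff]
      rintro c hc ⟨h1, h2⟩
      obtain ⟨q, rfl⟩ := mem_cycs.1 hc
      rw [not_not] at h2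
      exact h (orb_of_mem h2 ▸ h1)

/-- If `f` never steps from `I` into `J` nor from `J` into `I`. -/
theorem cin_union (f : Perm P) {I J : Finset P} (hd : Disjoint I J)
    (h1 : ∀ p ∈ I, f p ∉ J) (h2 : ∀ p ∈ J, f p ∉ I) : cin f (I ∪ J) = cin f I + cin f J := by
  unfold cin
  rw [← card_union_of_disjoint]
  · congr 1
    ext c
    simp only [mem_union, mem_filter, mem_cycs]
    constructor
    · rintro ⟨⟨p, rfl⟩, hc⟩
      have hcl : ∀ (K L : Finset P), orb f p ⊆ K ∪ L → (∀ q ∈ K, f q ∉ L) → p ∈ K →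
          orb f p ⊆ K := by
        intro K L hs hK hp
        refine (orb_subset_of_closed (I := orb f p ∩ K)
          (mem_inter.2 ⟨self_mem_orb f p, hp⟩) fun q hq => ?_).trans inter_subset_right
        obtain ⟨a, b⟩ := mem_inter.1 hq
        exact mem_inter.2 ⟨apply_mem a, (mem_union.1 (hs (apply_mem a))).resolve_right (hK q b)⟩
      rcases mem_union.1 (hc (self_mem_orb f p)) with h | h
      · exact Or.inl ⟨⟨p, rfl⟩, hcl I J hc h1 h⟩
      · exact Or.inr ⟨⟨p, rfl⟩, hcl J I (union_comm I J ▸ hc) h2 h⟩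
    · rintro (h | h)
      · exact ⟨h.1, h.2.trans subset_union_left⟩
      · exact ⟨h.1, h.2.trans subset_union_right⟩
  · rw [disjoint_left]
    intro c hc hc'
    simp only [mem_filter, mem_cycs] at hc hc'
    obtain ⟨⟨p, rfl⟩, h⟩ := hc
    exact disjoint_left.1 hd (h (self_mem_orb f p)) (hc'.2 (self_mem_orb f p))

theorem cin_add_cmeet (f : Perm P) (X : Finset P) : cin f Xᶜ + cmeet f X = cyc f := by
  unfold cin cmeet cyc
  rw [← card_filter_add_card_filter_not (s := cycs f) (fun c => Disjoint c X)]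
  congr 2
  ext c
  simp only [mem_filter, subset_compl_iff_disjoint_right]

theorem cmeet_le (f : Perm P) (X : Finset P) : cmeet f X ≤ X.card := by
  unfold cmeet
  rw [meet_eq]
  exact card_image_le

theorem cmeet_eq_card_iff (f : Perm P) (X : Finset P) :
    cmeet f X = X.card ↔ ∀ p ∈ X, ∀ q ∈ X, f.SameCycle p q → p = q := by
  unfold cmeet
  rw [meet_eq, card_image_iff]
  constructor
  · intro h p hp q hq hs
    exact h hp hq (orb_eq_iff.2 hs)
  · intro h p hp q hq hs
    exact h p hp q hq (orb_eq_iff.1 hs)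

theorem cmeet_pos (f : Perm P) {X : Finset P} (h : X.Nonempty) : 0 < cmeet f X := by
  unfold cmeet
  rw [meet_eq]
  exact card_pos.2 (h.image _)

theorem cmeet_le_one_iff (f : Perm P) (X : Finset P) :
    cmeet f X ≤ 1 ↔ ∀ p ∈ X, ∀ q ∈ X, f.SameCycle p q := by
  unfold cmeet
  rw [meet_eq, card_le_one]
  constructor
  · intro h p hp q hq
    exact orb_eq_iff.1 (h _ (mem_image_of_mem _ hp) _ (mem_image_of_mem _ hq))
  · intro h a ha b hb
    obtain ⟨p, hp, rfl⟩ := mem_image.1 ha
    obtain ⟨q, hq, rfl⟩ := mem_image.1 hb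
    exact orb_eq_iff.2 (h p hp q hq)

theorem sum_card_orb (f : Perm P) {I : Finset P} (h0 : ∀ p ∈ I, f p ∈ I) :
    ∑ c ∈ (cycs f).filter (fun c => c ⊆ I), c.card = I.card := by
  rw [card_eq_sum_card_fiberwise (s := I) (t := (cycs f).filter fun c => c ⊆ I) (f := orb f)
    fun p hp => mem_filter.2 ⟨mem_cycs.2 ⟨p, rfl⟩, orb_subset_of_closed hp h0⟩]
  refine sum_congr rfl fun c hc => ?_
  obtain ⟨hc1, hc2⟩ := mem_filter.1 hc
  obtain ⟨p, rfl⟩ := mem_cycs.1 hc1
  congr 1
  ext q
  simp only [mem_filter]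
  constructor
  · intro h
    exact ⟨hc2 h, orb_of_mem h⟩
  · rintro ⟨-, h⟩
    exact h ▸ self_mem_orb f q

theorem cin_of_fixed (f : Perm P) {I : Finset P} (h : ∀ p ∈ I, f p = p) :
    cin f I = I.card := by
  rw [← sum_card_orb f (I := I) fun p hp => by rw [h p hp]; exact hp, cin, card_eq_sum_ones]
  refine sum_congr rfl fun c hc => ?_
  obtain ⟨hc1, hc2⟩ := mem_filter.1 hc
  obtain ⟨p, rfl⟩ := mem_cycs.1 hc1
  have hp := h p (hc2 (self_mem_orb f p))
  have : orb f p = {p} := by
    refine Subset.antisymm (orb_subset_of_closed (mem_singleton_self p) fun q hq => ?_) ?_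
    · rw [mem_singleton.1 hq, hp]; exact mem_singleton_self p
    · exact singleton_subset_iff.2 (self_mem_orb f p)
  rw [this, card_singleton]

/-- An invariant set on which `f` is a fixed-point-free involution. -/
theorem two_mul_cin (f : Perm P) {I : Finset P} (h0 : ∀ p ∈ I, f p ∈ I)
    (h1 : ∀ p ∈ I, f (f p) = p) (h2 : ∀ p ∈ I, f p ≠ p) : 2 * cin f I = I.card := by
  rw [← sum_card_orb f h0, cin, mul_comm, ← smul_eq_mul, ← sum_const]
  refine sum_congr rfl fun c hc => ?_
  obtain ⟨hc1, hc2⟩ := mem_filter.1 hc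
  obtain ⟨p, rfl⟩ := mem_cycs.1 hc1
  have hp := hc2 (self_mem_orb f p)
  have : orb f p = {p, f p} := by
    refine Subset.antisymm (orb_subset_of_closed (mem_insert_self _ _) fun q hq => ?_) ?_
    · rcases mem_insert.1 hq with rfl | hq
      · simp
      · rw [mem_singleton.1 hq, h1 p hp]; simp
    · exact insert_subset (self_mem_orb f p)
        (singleton_subset_iff.2 (apply_mem (self_mem_orb f p)))
  rw [this, card_pair (h2 p hp).symm]

/-- Transport of orbits along an embedding. -/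
theorem orb_map {Q : Type} [Fintype Q] (e : P ↪ Q) {f : Perm P} {g : Perm Q} {p : P}
    (h : ∀ q ∈ orb f p, g (e q) = e (f q)) : orb g (e p) = (orb f p).map e := orb_map' e h

theorem cin_map {Q : Type} [Fintype Q] (e : P ↪ Q) {f : Perm P} {g : Perm Q} {I : Finset P}
    (h : ∀ q ∈ I, g (e q) = e (f q)) : cin g (I.map e) = cin f I := by
  unfold cin
  symm
  refine card_bij (fun c _ => c.map e) (fun c hc => ?_) (fun a _ b _ hab => map_injective e hab)
    fun c hc => ?_
  · obtain ⟨hc1, hc2⟩ := mem_filter.1 hc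
    obtain ⟨p, rfl⟩ := mem_cycs.1 hc1
    exact mem_filter.2 ⟨mem_cycs.2 ⟨e p, orb_map e fun q hq => h q (hc2 hq)⟩,
      map_subset_map.2 hc2⟩
  · obtain ⟨hc1, hc2⟩ := mem_filter.1 hc
    obtain ⟨x, rfl⟩ := mem_cycs.1 hc1
    obtain ⟨p, hp, rfl⟩ := mem_map.1 (hc2 (self_mem_orb g x))
    have hsub : orb f p ⊆ I := by
      refine (orb_subset_of_closed (I := I.filter fun q => e q ∈ orb g (e p))
        (mem_filter.2 ⟨hp, self_mem_orb g _⟩) fun q hq => ?_).trans (filter_subset _ _)
      obtain ⟨a, b⟩ := mem_filter.1 hq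
      have h3 : e (f q) ∈ orb g (e p) := h q a ▸ apply_mem b
      exact mem_filter.2 ⟨(mem_map' e).1 (hc2 h3), h3⟩
    exact ⟨orb f p, mem_filter.2 ⟨mem_cycs.2 ⟨p, rfl⟩, hsub⟩,
      (orb_map e fun q hq => h q (hsub hq)).symm⟩

theorem cyc_conj {Q : Type} [Fintype Q] (e : P ≃ Q) (f : Perm P) :
    cyc (e.permCongr f) = cyc f := by
  rw [← cin_univ, ← cin_univ, ← cin_map e.toEmbedding (f := f) (g := e.permCongr f) (I := univ)
    fun q _ => by simp, map_univ_equiv]

theorem cyc_eq_card (f : Perm P) :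
    cyc f = Nat.card (Quotient (Perm.SameCycle.setoid f)) := by
  unfold cyc
  rw [← Nat.card_eq_finsetCard]
  symm
  refine Nat.card_eq_of_bijective (Quotient.lift (fun p => (⟨orb f p, mem_cycs.2 ⟨p, rfl⟩⟩ : cycs f))
    fun a b hab => Subtype.ext (orb_eq_iff.2 hab)) ⟨?_, ?_⟩
  · intro x y
    induction x using Quotient.inductionOn
    induction y using Quotient.inductionOn
    intro h
    exact Quotient.sound (orb_eq_iff.1 (congrArg Subtype.val h))
  · rintro ⟨c, hc⟩
    obtain ⟨p, rfl⟩ := mem_cycs.1 hc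
    exact ⟨Quotient.mk _ p, rfl⟩

end Pool.Agent.P.MP_48bde8_co
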