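import Pool.Agent.P.MP_48bde8_co.MapD

/-! Definitions for the algebraic part of the proof. -/

namespace Pool.Agent.P.MP_48bde8_co

open Finset

section Alg

variable {R : Type} [CommRing R]

/-- The couplings of the nine words in terms of `θ = (a, l, c, p, q, u, d, r, v, κ)`. -/
def gam9 (θ : Fin 10 → R) : Fin 9 → R :=
  ![θ 5, θ 8 + 1 + θ 1 * θ 5, θ 3 + 1, θ 4 + θ 1 * θ 3, θ 7 + θ 1 ^ 2 * θ 3 + 2 * θ 1 * θ 4,
    θ 0, θ 0 * θ 1, θ 2 + θ 0 * θ 1 ^ 2, θ 6 + θ 0 * θ 1 ^ 3 + 3 * θ 2 * θ 1]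

/-- The class of a word of length one to three. -/
def cls (u : List Bool) : Fin 9 :=
  if u.length = 1 then (if u.count true = 1 then 0 else 1)
  else if u.length = 2 then (if u.count true = 2 then 2 else if u.count true = 1 then 3 else 4)
  else if u.count true = 3 then 5 else if u.count true = 2 then 6
  else if u.count true = 1 then 7 else 8

/-- The insertion `a AA + c BB + p A + q B + u` between the words `w` and `y`. -/
def insA (θ : Fin 10 → R) (φ : List Bool → R) (w y : List Bool) : R :=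
  θ 0 * φ (w ++ true :: true :: y) + θ 2 * φ (w ++ false :: false :: y) + θ 3 * φ (w ++ true :: y) +
    θ 4 * φ (w ++ false :: y) + θ 5 * φ (w ++ y)

/-- The insertion `c (AB + BA) + d BB + q A + r B + v` between the words `w` and `y`. -/
def insB (θ : Fin 10 → R) (φ : List Bool → R) (w y : List Bool) : R :=
  θ 2 * φ (w ++ true :: false :: y) + θ 2 * φ (w ++ false :: true :: y) +
    θ 6 * φ (w ++ false :: false :: y) + θ 4 * φ (w ++ true :: y) + θ 7 * φ (w ++ false :: y) +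
    θ 8 * φ (w ++ y)

/-- Loop equations after the shear. -/
structure SDC (x z : R) (θ : Fin 10 → R) (τ : List Bool → R) : Prop where
  nil : τ [] = z
  rotT : ∀ c w, τ (w ++ [c]) = τ (c :: w)
  sdA : ∀ W, ((splits true W).map fun s => τ s.1 * τ s.2).sum + insA θ τ W [] = 0
  sdB : ∀ W, x * τ W + ((splits false W).map fun s => τ (false :: s.1) * τ s.2).sum +
    insB θ τ (false :: W) [] = 0

/-- Auxiliary recursion for the shear. -/
def shrAux (l : R) (τ : List Bool → R) : List Bool → List Bool → R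
  | y, [] => τ y
  | y, true :: w => shrAux l τ (y ++ [true]) w + l * shrAux l τ (y ++ [false]) w
  | y, false :: w => shrAux l τ (y ++ [false]) w

/-- The functional after the substitution `A ↦ A + l B`. -/
def shr (l : R) (τ : List Bool → R) (w : List Bool) : R := shrAux l τ [] w

/-- `cB x τ k w = τ ((B - x) ^ k w)`. -/
def cB (x : R) (τ : List Bool → R) : ℕ → List Bool → R
  | 0, w => τ w
  | k + 1, w => cB x τ k (false :: w) - x * cB x τ k w

/-- `ε`-adically separated and complete. -/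
def Cpl (ε : R) : Prop :=
  (∀ a : R, (∀ N : ℕ, ε ^ N ∣ a) → a = 0) ∧
    ∀ f : ℕ → R, (∀ N, ε ^ N ∣ f (N + 1) - f N) → ∃ y, ∀ N, ε ^ N ∣ y - f N

/-- `φ w = τ ((m - B)⁻¹ w)` with `s = (m - x)⁻¹`. -/
def IsPhi (ε s x : R) (τ φ : List Bool → R) : Prop :=
  ∀ w N, ε ^ N ∣ φ w - ∑ k ∈ range N, cB x τ k w * s ^ (k + 1)

/-- The couplings are small. -/
def Small (ε z : R) (θ : Fin 10 → R) : Prop :=
  ε ^ 2 ∣ z ∧ ε ∣ θ 0 ∧ ε ∣ θ 2 ∧ ε ∣ θ 3 + 1 ∧ ε ∣ θ 4 ∧ ε ∣ θ 5 ∧ ε ∣ θ 6 ∧ ε ∣ θ 7 ∧ ε ∣ θ 8 + 1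

/-- Relations for the resolvent functional. -/
structure PR (x s : R) (θ : Fin 10 → R) (τ φ : List Bool → R) : Prop where
  stR : ∀ w, s * φ (w ++ [false]) = (1 + x * s) * φ w - s * τ w
  stL : ∀ w, s * φ (false :: w) = (1 + x * s) * φ w - s * τ w
  rA : ∀ w, ((splits true w).map fun y => φ y.1 * τ y.2).sum + insA θ φ w [] = 0
  rB : ∀ w, x * φ w + φ [false] * φ w +
    ((splits false w).map fun y => φ (false :: y.1) * τ y.2).sum + insB θ φ (false :: w) [] = 0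
  rI : insB θ φ [true] [false, true] + x * φ [true, true] + φ [false, true] * φ [true] = 0

/-- The constant of the curve in terms of the moments. -/
def Kap (x z : R) (θ : Fin 10 → R) (τ : List Bool → R) : R :=
  let a := θ 0; let c := θ 2; let p := θ 3; let q := θ 4; let d := θ 6; let r := θ 7; let v := θ 8
  let tA := τ [true]
  let tB := τ [false]
  let tAA := τ [true, true]
  let tAB := τ [true, false]
  let tBB := τ [false, false]
  let tAAB := τ [true, true, false]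
  let tABB := τ [true, false, false]
  let tAAAB := τ [true, true, true, false]
  let tAABB := τ [true, true, false, false]
  let tABAB := τ [true, false, true, false]
  let tABBB := τ [true, false, false, false]
  let tAAABB := τ [true, true, true, false, false]
  let tAABAB := τ [true, true, false, true, false]
  let tAABBB := τ [true, true, false, false, false]
  let tABABB := τ [true, false, true, false, false]
  let tABBBB := τ [true, false, false, false, false]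
  (- 2 * a * c * d * p * q * r * tBB + 2 * a * c * d * p * q * x * z - 2 * a * c * d * p * q *
    z ^ 2 + 4 * a * c * d * p * q ^ 2 * tAB - 2 * a * c * p * q * r * v * z - 2 * a * c * p * q
    * r ^ 2 * tB - 2 * a * c * p * q ^ 2 * r * tA + 2 * a * c ^ 2 * d * p * q * tABB - 2 * a * c
    ^ 2 * d * p * tB * x + 2 * a * c ^ 2 * d * p * tB * z + 2 * a * c ^ 2 * d * p * tBB * v - 2
    * a * c ^ 2 * p * q * r * tAB + 4 * a * c ^ 2 * p * q * tA * v + 2 * a * c ^ 2 * p * q ^ 2 *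
    tAA + 2 * a * c ^ 2 * p * r * tB * v - 2 * a * c ^ 2 * p * r * x * z + 2 * a * c ^ 2 * p * r
    * z ^ 2 + 2 * a * c ^ 2 * p * v ^ 2 * z + 4 * a * c ^ 3 * p * q * tAAB - 4 * a * c ^ 3 * p *
    tA * x + 4 * a * c ^ 3 * p * tA * z + 4 * a * c ^ 3 * p * tAB * v - 4 * a * c ^ 3 * q * tB *
    x + 4 * a * c ^ 3 * q * tB * z + 2 * a * d * p * q ^ 2 * r * tB + 2 * a * d * p * q ^ 2 * v
    * z + 2 * a * d * p * q ^ 3 * tA + 2 * a * d ^ 2 * p * q ^ 2 * tBB - 8 * a ^ 2 * c * d * q *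
    r * tABB - 4 * a ^ 2 * c * d * q * tAB * v + 4 * a ^ 2 * c * d * q ^ 2 * tAAB + 2 * a ^ 2 *
    c * d * r * tB * z + 4 * a ^ 2 * c * d * v * z ^ 2 - 4 * a ^ 2 * c * d ^ 2 * q * tABBB - a ^
    2 * c * d ^ 2 * tB ^ 2 + 4 * a ^ 2 * c * d ^ 2 * tBB * z - 4 * a ^ 2 * c * q * r * tA * v -
    4 * a ^ 2 * c * q * r ^ 2 * tAB - 4 * a ^ 2 * c * q ^ 2 * r * tAA - a ^ 2 * c * r ^ 2 * z ^
    2 - 4 * a ^ 2 * c ^ 2 * d * q * tABAB + 8 * a ^ 2 * c ^ 2 * d * r * tABBB + 12 * a ^ 2 * c ^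
    2 * d * tAB * z + 8 * a ^ 2 * c ^ 2 * d * tABB * v + 4 * a ^ 2 * c ^ 2 * d ^ 2 * tABBBB - 4
    * a ^ 2 * c ^ 2 * q * r * tAAB + 4 * a ^ 2 * c ^ 2 * q * tAA * v + 8 * a ^ 2 * c ^ 2 * r *
    tAB * v + 4 * a ^ 2 * c ^ 2 * r ^ 2 * tABB + 4 * a ^ 2 * c ^ 2 * tA * v ^ 2 + 8 * a ^ 2 * c
    ^ 3 * d * tAABBB + 8 * a ^ 2 * c ^ 3 * d * tABABB + 8 * a ^ 2 * c ^ 3 * q * tAAAB + 8 * a ^
    2 * c ^ 3 * r * tAABB + 8 * a ^ 2 * c ^ 3 * r * tABAB + 4 * a ^ 2 * c ^ 3 * tAA * z + 16 * a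
    ^ 2 * c ^ 3 * tAAB * v + 4 * a ^ 2 * c ^ 4 * tAAABB + 12 * a ^ 2 * c ^ 4 * tAABAB + 4 * a ^
    2 * d * q ^ 2 * r * tAB + 4 * a ^ 2 * d * q ^ 2 * tA * v + 4 * a ^ 2 * d * q ^ 3 * tAA + 4 *
    a ^ 2 * d ^ 2 * q ^ 2 * tABB + c ^ 2 * d * p ^ 2 * q * tBB + c ^ 2 * p ^ 2 * q * r * tB + c
    ^ 2 * p ^ 2 * q * v * z + c ^ 2 * p ^ 2 * q ^ 2 * tA + 2 * c ^ 3 * p ^ 2 * q * tAB)

/-- The coefficients of the curve for the moments `μ`. -/
def coefT (x z : R) (θ : Fin 10 → R) (μ : Fin 9 → R) : Fin 5 → R :=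
  coef x z (θ 0) (θ 2) (θ 3) (θ 4) (θ 6) (θ 7) (θ 8) μ

/-- The relations for the moments `μ`. -/
def relT (x z : R) (θ : Fin 10 → R) (μ : Fin 9 → R) : Fin 4 → R :=
  rel x z (θ 0) (θ 2) (θ 3) (θ 4) (θ 5) (θ 6) (θ 7) (θ 8) μ

/-- The curve with given constant and coefficients. -/
def curveK (x z : R) (θ : Fin 10 → R) (κ : R) (k : Fin 5 → R) (f s : R) : R :=
  curve x z (θ 0) (θ 2) (θ 3) (θ 4) (θ 5) (θ 6) (θ 7) (θ 8) κ k f s

/-- The derivative of the curve in `f`. -/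
def cF (x z : R) (θ : Fin 10 → R) (k : Fin 5 → R) (f s : R) : R :=
  let a := θ 0; let c := θ 2; let p := θ 3; let q := θ 4; let u := θ 5
  let d := θ 6; let r := θ 7; let v := θ 8
  let L := q + 2 * c * s
  let w := q + c * s
  let ν := s * w
  let Y := f - (d * s ^ 2 + r * s + v)
  let Z := 2 * a * Y + p * L
  let ρ := a * c * r - a * d * q - c ^ 2 * p
  let ξ := a * c * f - ρ * s
  let g := k 0 - 2 * d * z * ν
  let F1 := s * f + (x - z)
  let F2 := a * c ^ 3 * (x - z) - w * (a * c ^ 2 * f - ρ * L)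
  let Q := a * Y ^ 2 + p * L * Y + (c * s ^ 2 + q * s + u) * L ^ 2
  let M := a * c * q * f + ρ * L * s - 2 * a * c ^ 2 * (x - z)
  4 * s * F2 * Q + (4 * F1 * (F2 * Z - w * a * c ^ 2 * Q) + g * (2 * a * M + Z * a * c * q) +
    L ^ 2 * (2 * a * k 1 + k 3 * (2 * a * ξ + Z * a * c) + k 4 * ν * a * c))

/-- The derivative of the curve in `f`, in terms of the ten unknowns. -/
def cFAt (x z t : R) (θ : Fin 10 → R) (f s : R) : R :=
  cF x z θ (coefT x z θ (shear (θ 1) (mom0 x z t))) f s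

/-- The derivatives of the curve in `κ, k 1, k 2, k 3, k 4, k 0`. -/
def cols (x z : R) (θ : Fin 10 → R) (k : Fin 5 → R) (f s : R) : Fin 6 → R :=
  let a := θ 0; let c := θ 2; let p := θ 3; let q := θ 4
  let d := θ 6; let r := θ 7; let v := θ 8
  let L := q + 2 * c * s
  let w := q + c * s
  let ν := s * w
  let Y := f - (d * s ^ 2 + r * s + v)
  let Z := 2 * a * Y + p * L
  let ρ := a * c * r - a * d * q - c ^ 2 * p
  let ξ := a * c * f - ρ * s
  let g := k 0 - 2 * d * z * ν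
  let M := a * c * q * f + ρ * L * s - 2 * a * c ^ 2 * (x - z)
  ![L ^ 2, L ^ 2 * Z, L ^ 2 * ν, L ^ 2 * Z * ξ, L ^ 2 * ν * ξ, Z * M + 2 * a ^ 2 * c * g]

/-- The dual number `a + b η`. -/
def dn (a b : R) : DualNumber R := TrivSqZeroExt.inl a + TrivSqZeroExt.inr b

/-- The inclusion into the dual numbers. -/
def inD : R →+* DualNumber R := TrivSqZeroExt.inlHom R R

/-- `(f, s)` is a singular point of the curve. -/
def Sing (x z t : R) (θ : Fin 10 → R) (f s : R) : Prop :=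
  ∀ a b : R, curveAt (inD x) (inD z) (inD t) (fun j => inD (θ j)) (dn f a) (dn s b) = 0

/-- The system of 22 equations. -/
def Sys (x z t : R) (θ : Fin 10 → R) (f s : Fin 6 → R) : Prop :=
  (∀ j, relAt x z t θ j = 0) ∧ ∀ i, Sing x z t θ (f i) (s i)

/-- The solution has no first-order deformation. -/
def Rigid (x z t : R) (θ : Fin 10 → R) (f s : Fin 6 → R) : Prop :=
  ∀ (θ' : Fin 10 → R) (f' s' : Fin 6 → R),
    Sys (inD x) (inD z) (inD t) (fun j => dn (θ j) (θ' j)) (fun i => dn (f i) (f' i))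
      (fun i => dn (s i) (s' i)) → θ' = 0 ∧ f' = 0 ∧ s' = 0

/-- The singular point has no first-order deformation. -/
def NonDeg (x z t : R) (θ : Fin 10 → R) (f s : R) : Prop :=
  ∀ f' s' : R, Sing (inD x) (inD z) (inD t) (fun j => inD (θ j)) (dn f f') (dn s s') →
    f' = 0 ∧ s' = 0

/-- The curve as a polynomial in the point. -/
noncomputable def Ecurve (x z t : R) (θ : Fin 10 → R) : MvPolynomial (Fin 2) R :=
  curveAt (MvPolynomial.C x) (MvPolynomial.C z) (MvPolynomial.C t) (fun j => MvPolynomial.C (θ j))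
    (MvPolynomial.X 0) (MvPolynomial.X 1)

/-- The part of the loop equation of the word `c W` that is linear in the couplings. -/
def lin (τ Δ : List Bool → R) (c : Bool) (W : List Bool) : R :=
  (tails.map fun s => Δ (c :: s) * τ ((if c then [] else [false]) ++ W ++ s)).sum

end Alg

section Filt

variable {Λ : Type} [CommRing Λ] (S : Subring Λ) (e : Λˣ)

/-- Valuation at least `n`. -/
def VV (n : ℤ) (f : Λ) : Prop := ∃ g ∈ S, f = ((e ^ n : Λˣ) : Λ) * g

/-- Leading term `c e ^ n`. -/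
def LT (n : ℤ) (c f : Λ) : Prop := c ∈ S ∧ VV S e (n + 1) (f - ((e ^ n : Λˣ) : Λ) * c)

/-- Leading terms of the couplings; `sg` is `σ`, `si` its inverse, `hf` is one half. -/
structure ParLT (sg si hf : Λ) (θ : Fin 10 → Λ) : Prop where
  he : (e : Λ) ∈ S
  hsg : sg ∈ S
  hsi : si ∈ S
  hinv : sg * si = 1
  hhf : hf ∈ S
  hhf2 : 2 * hf = 1
  ha : LT S e 3 (-1) (θ 0)
  hl : VV S e 25 (θ 1)
  hc : LT S e 27 (sg ^ 8) (θ 2)
  hp : LT S e 0 (-1) (θ 3)
  hq : LT S e 1 1 (θ 4)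
  hu : LT S e 1 (-1) (θ 5)
  hd : VV S e 31 (θ 6 + sg ^ 8 * (e : Λ) ^ 26)
  hr : VV S e 11 (θ 7 - sg ^ 2 * (e : Λ) ^ 6 - sg ^ 4 * (e : Λ) ^ 10)
  hv : LT S e 0 (-1) (θ 8)

/-- Valuations of the six nodes. -/
def kx : Fin 6 → ℤ := ![2, -2, -12, -20, -20, 26]

/-- Valuations of `(m - 1)⁻¹`. -/
def sv : Fin 6 → ℤ := ![0, 2, 12, 20, 20, 0]

/-- Unit parts of the nodes. -/
def om (si : Λ) (i : Fin 6) (δ : Λ) : Λ :=
  ![δ, δ, δ, si ^ 6 * (1 + (e : Λ) ^ 4 * δ), si ^ 6 * (1 + (e : Λ) ^ 4 * δ), δ] i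

/-- The node with parameter `δ`. -/
def mOf (si : Λ) (i : Fin 6) (δ : Λ) : Λ := ((e ^ kx i : Λˣ) : Λ) * om e si i δ

/-- Limit values of the parameters. -/
def d0 (sg si : Λ) : Fin 6 → Λ := ![1, 1, si ^ 4, sg ^ 2 + sg, sg ^ 2 - sg, -sg ^ 8]

/-- The cofactor of the simple root. -/
def un (sg : Λ) (i : Fin 6) (δ : Λ) : Λ := ![1, 1, 1, δ - (sg ^ 2 - sg), δ - (sg ^ 2 + sg), 1] i

end Filt

section Conc

variable (k : Type) [Field k]

/-- The field of fractions of the power series ring. -/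
abbrev Lf : Type := FractionRing (PowerSeries k)

/-- The inclusion. -/
noncomputable abbrev io : PowerSeries k →+* Lf k := algebraMap _ _

/-- The uniformiser as a unit. -/
noncomputable def eL : (Lf k)ˣ :=
  Units.mk0 (io k PowerSeries.X) (by simp)

variable {k}

/-- The value of `z`. -/
noncomputable def zO (σ : k) : PowerSeries k := -(PowerSeries.C σ ^ 2 * PowerSeries.X ^ 2)

/-- The data produced by the combinatorial part and the table. -/
structure Setup (σ : k) (τ γ : List Bool → PowerSeries k)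
    (ω : List Bool → List Bool → PowerSeries k) (θ : Fin 10 → PowerSeries k) : Prop where
  hσ : σ ≠ 0
  sd1 : SD1 1 (zO σ) τ γ
  sd2 : ∀ u, u ≠ [] → SD2 1 τ γ u (ω u)
  mom : ∀ i, τ (w9 i) = mom0 1 (zO σ) PowerSeries.X i
  gam : ∀ i, γ (w9 i) = gam9 θ i
  kap : θ 9 = Kap 1 (zO σ) θ (shr (θ 1) τ)
  par : ParLT (io k).range (eL k) (io k (PowerSeries.C σ)) (io k (PowerSeries.C σ⁻¹))
    (io k (PowerSeries.C 2⁻¹)) (fun j => io k (θ j))

/-- The properties of the `i`-th node. -/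
def NodeOK (σ : k) (τ : List Bool → PowerSeries k) (θ : Fin 10 → PowerSeries k) (i : Fin 6)
    (f m : Lf k) : Prop :=
  ∃ (δ s : PowerSeries k) (φ : List Bool → PowerSeries k),
    IsPhi PowerSeries.X s 1 (shr (θ 1) τ) φ ∧
    PowerSeries.X ∣ δ - d0 (PowerSeries.C σ) (PowerSeries.C σ⁻¹) i ∧
    m = mOf (eL k) (io k (PowerSeries.C σ⁻¹)) i (io k δ) ∧ io k s * (m - 1) = 1 ∧
    m * f = -(m * io k (φ [])) - (1 - io k (zO σ)) ∧
    Sing 1 (io k (zO σ)) (io k PowerSeries.X) (fun j => io k (θ j)) f m ∧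
    NonDeg 1 (io k (zO σ)) (io k PowerSeries.X) (fun j => io k (θ j)) f m

end Conc

end Pool.Agent.P.MP_48bde8_co
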