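import Mathlib

/-!
Definitions used in the statement for MP_48bde8_co: rooted 4-connected planar maps, their
generating function `F`, and the explicit polynomial `poly`.
-/

namespace Pool.Agent.P.MP_48bde8_co

open Equiv MvPolynomial

/-- A rooted combinatorial map: darts `Fin n`, vertex rotation `σ`, edge involution `α`,
root dart `root`. -/
structure RMap where
  n : ℕ
  σ : Perm (Fin n)
  α : Perm (Fin n)
  root : Fin n

namespace RMap

variable (M : RMap)

/-- `α` is a fixed-point-free involution and the group generated by `σ, α` is transitive. -/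
def IsMap : Prop :=
  (∀ d, M.α (M.α d) = d) ∧ (∀ d, M.α d ≠ d) ∧
    ∀ d d', Relation.EqvGen (fun a b => b = M.σ a ∨ b = M.α a) d d'

/-- Vertices are the cycles of `σ`. -/
def Vertex : Type := Quotient (Perm.SameCycle.setoid M.σ)

/-- Faces are the cycles of `σ * α`. -/
def Face : Type := Quotient (Perm.SameCycle.setoid (M.σ * M.α))

/-- The vertex of a dart. -/
def vtx (d : Fin M.n) : M.Vertex := Quotient.mk _ d

/-- Genus zero: `V - E + F = 2`, with `n = 2 E` darts. -/
def IsPlanar : Prop := 2 * (Nat.card M.Vertex + Nat.card M.Face) = M.n + 4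

/-- No loops and no multiple edges. -/
def IsSimple : Prop :=
  (∀ d, M.vtx (M.α d) ≠ M.vtx d) ∧
    ∀ d d', M.vtx d = M.vtx d' → M.vtx (M.α d) = M.vtx (M.α d') → d = d'

/-- The underlying graph. -/
def graph : SimpleGraph M.Vertex :=
  SimpleGraph.fromRel fun u v => ∃ d, M.vtx d = u ∧ M.vtx (M.α d) = v

/-- At least five vertices, and connected after deleting any set of at most three vertices. -/
def IsFourConnected : Prop :=
  5 ≤ Nat.card M.Vertex ∧
    ∀ S : Set M.Vertex, S.ncard ≤ 3 → (M.graph.induce Sᶜ).Connected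

/-- Isomorphism of rooted maps. -/
def Iso (M N : RMap) : Prop :=
  ∃ e : Fin M.n ≃ Fin N.n, (∀ d, e (M.σ d) = N.σ (e d)) ∧ (∀ d, e (M.α d) = N.α (e d)) ∧
    e M.root = N.root

end RMap

/-- `m i j` is the number of isomorphism classes of rooted 4-connected simple planar maps with
`i` vertices and `j` faces. -/
noncomputable def m (i j : ℕ) : ℕ :=
  Nat.card (Quot fun M N : {M : RMap // M.IsMap ∧ M.IsPlanar ∧ M.IsSimple ∧ M.IsFourConnected ∧
    Nat.card M.Vertex = i ∧ Nat.card M.Face = j} => M.1.Iso N.1)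

/-- The generating function `F(x,z) = ∑ m i j x^i z^j`. -/
noncomputable def F : MvPowerSeries (Fin 2) ℚ := fun e => (m (e 0) (e 1) : ℚ)

section System

variable {R : Type*} [CommRing R]

/-- The nine moments `A, B, AA, AB, BB, AAA, AAB, ABB, BBB` before the shear. -/
def mom0 (x z t : R) : Fin 9 → R :=
  ![0, x * z, z ^ 2, t * x * z ^ 2, x ^ 2 * z + x * z ^ 2 + t ^ 2 * x ^ 2 * z ^ 2, 0,
    x * z ^ 2 + t ^ 2 * x * z ^ 3,
    t * (2 * x ^ 2 * z ^ 2 + x * z ^ 3) + 2 * t ^ 3 * x ^ 2 * z ^ 3,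
    x ^ 3 * z + 3 * x ^ 2 * z ^ 2 + x * z ^ 3 + 3 * t ^ 2 * (x ^ 3 * z ^ 2 + x ^ 2 * z ^ 3) +
      3 * t ^ 4 * x ^ 3 * z ^ 3 + t ^ 6 * x ^ 3 * z ^ 4]

/-- The nine moments after the shear `A ↦ A + l B`. -/
def shear (l : R) (b : Fin 9 → R) : Fin 9 → R :=
  ![b 0 + l * b 1, b 1, b 2 + 2 * l * b 3 + l ^ 2 * b 4, b 3 + l * b 4, b 4,
    b 5 + 3 * l * b 6 + 3 * l ^ 2 * b 7 + l ^ 3 * b 8, b 6 + 2 * l * b 7 + l ^ 2 * b 8,
    b 7 + l * b 8, b 8]

/-- Four relations between the couplings `a c p q u d r v` and the moments `μ`. -/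
def rel (x z a c p q u d r v : R) (μ : Fin 9 → R) : Fin 4 → R :=
  ![a * μ 2 + c * μ 4 + p * μ 0 + q * μ 1 + u * z,
    a * μ 5 + c * μ 7 + p * μ 2 + q * μ 3 + u * μ 0 + z ^ 2,
    a * μ 6 + c * μ 8 + p * μ 3 + q * μ 4 + u * μ 1,
    2 * c * μ 7 + d * μ 8 + q * μ 3 + r * μ 4 + v * μ 1 + x * z]

/-- The five coefficients of the curve that depend on the moments. -/
def coef (x z a c p q d r v : R) (μ : Fin 9 → R) : Fin 5 → R :=
  let ρ := a * c * r - a * d * q - c ^ 2 * p
  let β := 2 * c * μ 3 + d * μ 4 + q * μ 0 + r * μ 1 + v * z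
  let γ := 2 * c * μ 6 + d * μ 7 + q * μ 2 + r * μ 3 + v * μ 0
  let η := 2 * c * μ 0 + d * μ 1 + r * z
  ![2 * c * β - q * η,
    (c ^ 2 * p - 2 * ρ) * β + 2 * a * c ^ 2 * γ - 2 * a * c * d * (x - z) * z,
    4 * a ^ 2 * c * d * γ + 2 * a * c * d * p * β - 8 * a * c * ρ * μ 2 -
      4 * a * ρ * (r * μ 0 + d * μ 3) - 2 * p * ρ * η + 4 * q * ρ * (q * z + c * μ 1) +
      4 * a * c ^ 3 * z * (2 * x - z),
    η,
    4 * a * d * μ 0 - 8 * c ^ 2 * μ 1 + 2 * (d * p - 2 * c * q) * z]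

/-- The spectral curve, a polynomial in the point `(f, s)`. -/
def curve (x z a c p q u d r v κ : R) (k : Fin 5 → R) (f s : R) : R :=
  let L := q + 2 * c * s
  let w := q + c * s
  let ν := s * w
  let Y := f - (d * s ^ 2 + r * s + v)
  let Z := 2 * a * Y + p * L
  let ρ := a * c * r - a * d * q - c ^ 2 * p
  let ξ := a * c * f - ρ * s
  let g := k 0 - 2 * d * z * ν
  4 * (s * f + (x - z)) * (a * c ^ 3 * (x - z) - w * (a * c ^ 2 * f - ρ * L)) *
      (a * Y ^ 2 + p * L * Y + (c * s ^ 2 + q * s + u) * L ^ 2) +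
    g * (Z * (a * c * q * f + ρ * L * s - 2 * a * c ^ 2 * (x - z)) + a ^ 2 * c * g) +
    L ^ 2 * (κ + k 1 * Z + k 2 * ν + k 3 * Z * ξ + k 4 * ν * ξ + 8 * c * ρ * z * ν ^ 2)

/-- The curve in terms of the ten unknowns `θ = (a, l, c, p, q, u, d, r, v, κ)`. -/
def curveAt (x z t : R) (θ : Fin 10 → R) (f s : R) : R :=
  curve x z (θ 0) (θ 2) (θ 3) (θ 4) (θ 5) (θ 6) (θ 7) (θ 8) (θ 9)
    (coef x z (θ 0) (θ 2) (θ 3) (θ 4) (θ 6) (θ 7) (θ 8) (shear (θ 1) (mom0 x z t))) f s

/-- The four relations in terms of the ten unknowns. -/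
def relAt (x z t : R) (θ : Fin 10 → R) : Fin 4 → R :=
  rel x z (θ 0) (θ 2) (θ 3) (θ 4) (θ 5) (θ 6) (θ 7) (θ 8) (shear (θ 1) (mom0 x z t))

/-- `(1 + t² z) w - out` vanishes at the generating function `w` with edge weight `t²`. -/
def out (x z t : R) (θ : Fin 10 → R) : R :=
  let a := θ 0; let l := θ 1; let c := θ 2; let p := θ 3; let q := θ 4
  let d := θ 6; let r := θ 7
  t ^ 8 * x ^ 2 * z ^ 4 - (1 + t ^ 2 * z) *
    ((q + l * p - t) * (t * x * z ^ 2) + (r + l ^ 2 * p + 2 * l * q) * (t ^ 2 * x ^ 2 * z ^ 2) +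
      a * l * (2 * t ^ 2 * x * z ^ 3) +
      (c + a * l ^ 2) * (t * (2 * x ^ 2 * z ^ 2 + x * z ^ 3) + 6 * t ^ 3 * x ^ 2 * z ^ 3) +
      (d + a * l ^ 3 + 3 * c * l) * (2 * t ^ 2 * (x ^ 3 * z ^ 2 + x ^ 2 * z ^ 3) +
        4 * t ^ 4 * x ^ 3 * z ^ 3 + 2 * t ^ 6 * x ^ 3 * z ^ 4))

end System

/-- Coefficient ring `ℚ[x,z][w]`. -/
abbrev Rw : Type := Polynomial (MvPolynomial (Fin 2) ℚ)

/-- The variable `x` as a constant of the ring of unknowns. -/
noncomputable def xx : MvPolynomial (Fin 22) Rw := C (Polynomial.C (X 0))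

/-- The variable `z` as a constant of the ring of unknowns. -/
noncomputable def zz : MvPolynomial (Fin 22) Rw := C (Polynomial.C (X 1))

/-- The first ten unknowns. -/
noncomputable def th (j : Fin 10) : MvPolynomial (Fin 22) Rw := X ⟨j, by omega⟩

/-- The curve at the `i`-th node, a polynomial in 22 unknowns: the node is the pair of
unknowns `(10 + i, 16 + i)`. -/
noncomputable def node (i : Fin 6) : MvPolynomial (Fin 22) Rw :=
  curveAt xx zz 1 th (X ⟨10 + i, by omega⟩) (X ⟨16 + i, by omega⟩)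

/-- The 22 equations: four relations, and six singular points of the curve. -/
noncomputable def eqn (k : Fin 22) : MvPolynomial (Fin 22) Rw :=
  if h : k.val < 4 then relAt xx zz 1 th ⟨k, h⟩
  else if h : k.val < 10 then node ⟨k - 4, by omega⟩
  else if h : k.val < 16 then pderiv k (node ⟨k - 10, by omega⟩)
  else pderiv k (node ⟨k - 16, by omega⟩)

/-- The output equation `(1 + z) w - out`. -/
noncomputable def eqn0 : MvPolynomial (Fin 22) Rw :=
  (1 + zz) * C Polynomial.X - out xx zz 1 th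

section Macaulay

variable {A : Type*} [CommRing A] {N : ℕ}

/-- Monomials of total degree at most `D` in `N` unknowns. -/
abbrev Mon (N D : ℕ) : Type := {μ : Fin N → Fin (D + 1) // ∑ k, (μ k : ℕ) ≤ D}

/-- The exponent vector of a monomial. -/
noncomputable def Mon.exp {D : ℕ} (μ : Mon N D) : Fin N →₀ ℕ :=
  Finsupp.equivFunOnFinite.symm fun k => (μ.1 k : ℕ)

/-- The row polynomial of the monomial `μ`: `μ / X_k ^ e * f k` for the least `k` with
`X_k ^ e ∣ μ`, and `μ * f0` if there is none. -/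
noncomputable def row (f0 : MvPolynomial (Fin N) A) (f : Fin N → MvPolynomial (Fin N) A)
    (e : ℕ) (μ : Fin N →₀ ℕ) : MvPolynomial (Fin N) A :=
  if h : (Finset.univ.filter fun k => e ≤ μ k).Nonempty then
    monomial (μ - Finsupp.single ((Finset.univ.filter fun k => e ≤ μ k).min' h) e) 1 *
      f ((Finset.univ.filter fun k => e ≤ μ k).min' h)
  else monomial μ 1 * f0

/-- A strict bound for the degrees. -/
noncomputable def degBound (f0 : MvPolynomial (Fin N) A) (f : Fin N → MvPolynomial (Fin N) A) :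
    ℕ := 1 + max f0.totalDegree (Finset.univ.sup fun k => (f k).totalDegree)

/-- The Macaulay matrix of the system `f0, f`. -/
noncomputable def macaulay (f0 : MvPolynomial (Fin N) A) (f : Fin N → MvPolynomial (Fin N) A) :
    Matrix (Mon N ((N + 1) * degBound f0 f)) (Mon N ((N + 1) * degBound f0 f)) A :=
  fun μ ν => coeff ν.exp (row f0 f (degBound f0 f) μ.exp)

/-- The eliminant: the lowest nonzero coefficient of the characteristic polynomial of the
Macaulay matrix. -/
noncomputable def eliminant (f0 : MvPolynomial (Fin N) A) (f : Fin N → MvPolynomial (Fin N) A) :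
    A := (macaulay f0 f).charpoly.trailingCoeff

end Macaulay

/-- The explicit polynomial `P ∈ ℚ[x,z][w]`. -/
noncomputable def poly : Rw := eliminant eqn0 eqn

end Pool.Agent.P.MP_48bde8_co
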