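import Pool.Agent.P.MP_48bde8_co.MapD
import Pool.Agent.P.MP_48bde8_co.CycC

/-! Task DICT: dictionary between rooted maps and closed diagrams. -/

namespace Pool.Agent.P.MP_48bde8_co

open Equiv Finset
open scoped Classical

theorem ambC_ok (n : ℕ) : (ambC n).OK :=
  ⟨fun _ _ => mem_univ _, subset_rfl, fun p _ => ⟨mem_univ _, by
    obtain ⟨d, t⟩ := p
    cases t <;> rfl, rfl⟩⟩

theorem ambC_pi (n : ℕ) (d : Fin n) (t : Bool) : (ambC n).π (d, t) = (d, !t) := rfl

theorem psiOf_true {n : ℕ} (σ α : Perm (Fin n)) (d : Fin n) : psiOf σ α (d, true) = (α d, true) :=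
  rfl

theorem psiOf_false {n : ℕ} (σ α : Perm (Fin n)) (d : Fin n) :
    psiOf σ α (d, false) = (σ d, false) := rfl

theorem psiOf_injective {n : ℕ} {σ α σ' α' : Perm (Fin n)} (h : psiOf σ α = psiOf σ' α') :
    σ = σ' ∧ α = α' := by
  constructor
  · ext1 d
    have := congrArg (fun ψ : Perm (Fin n × Bool) => (ψ (d, false)).1) h
    exact this
  · ext1 d
    have := congrArg (fun ψ : Perm (Fin n × Bool) => (ψ (d, true)).1) h
    exact this

theorem exists_psiOf {n : ℕ} {ψ : Perm (Fin n × Bool)} (h : ∀ p, (ψ p).2 = p.2) :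
    ∃ σ α, ψ = psiOf σ α := by
  have key : ∀ t : Bool, ∃ s : Perm (Fin n), ∀ d, ψ (d, t) = (s d, t) := by
    intro t
    have hi : Function.Injective fun d : Fin n => (ψ (d, t)).1 := by
      intro d d' hd
      have h1 : ψ (d, t) = ψ (d', t) := Prod.ext hd (by rw [h, h])
      exact congrArg Prod.fst (ψ.injective h1)
    exact ⟨Equiv.ofBijective _ (Finite.injective_iff_bijective.1 hi), fun d =>
      Prod.ext rfl (h _)⟩
  obtain ⟨σ, hσ⟩ := key false
  obtain ⟨α, hα⟩ := key true
  refine ⟨σ, α, Equiv.ext fun p => ?_⟩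
  obtain ⟨d, t⟩ := p
  cases t
  · exact hσ d
  · exact hα d

namespace DictA

section gen

variable {P : Type} [Fintype P]

theorem app_orb {f : Perm P} {p q : P} (h : q ∈ orb f p) : f q ∈ orb f p :=
  mem_orb.2 (Perm.sameCycle_apply_right.2 (mem_orb.1 h))

theorem cin_split (f : Perm P) {I J : Finset P} (h : ∀ p, p ∈ J ↔ p ∉ I)
    (h1 : ∀ p ∈ I, f p ∉ J) (h2 : ∀ p ∈ J, f p ∉ I) : cin f univ = cin f I + cin f J := by
  rw [← cin_union f (disjoint_left.2 fun p hp hq => (h p).1 hq hp) h1 h2]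
  congr 1
  ext p
  simp only [mem_univ, mem_union, h, true_iff]
  exact em _

theorem cin_alt (f : Perm P) {I J : Finset P} (h : ∀ p, p ∈ J ↔ p ∉ I)
    (h1 : ∀ p ∈ I, f p ∉ I) : cin f univ = cin (skip f I) J := by
  rw [cin_skip f I fun _ _ => mem_univ _]
  have h2 : cin f (univ ∩ I) = 0 := by
    rw [cin, card_eq_zero, filter_eq_empty_iff]
    intro c hc h
    obtain ⟨p, -, rfl⟩ := mem_image.1 hc
    exact h1 p (mem_inter.1 (h (self_mem_orb _ p))).2
      (mem_inter.1 (h (app_orb (self_mem_orb _ p)))).2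
  rw [h2, zero_add]
  congr 1
  ext p
  simp only [mem_sdiff, mem_univ, true_and, h]

end gen

variable {n : ℕ}

/-- the ports of one type -/
def emb (n : ℕ) (t : Bool) : Fin n ↪ Fin n × Bool :=
  ⟨fun d => (d, t), fun _ _ h => congrArg Prod.fst h⟩

theorem mem_em (t : Bool) (p : Fin n × Bool) : p ∈ univ.map (emb n t) ↔ p.2 = t := by
  constructor
  · intro h
    obtain ⟨d, -, rfl⟩ := mem_map.1 h
    rfl
  · intro h
    exact mem_map.2 ⟨p.1, mem_univ _, Prod.ext rfl h.symm⟩

theorem phi_true (σ α : Perm (Fin n)) (d : Fin n) :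
    ((ambC n).π * psiOf σ α) (d, true) = (α d, false) := rfl

theorem phi_false (σ α : Perm (Fin n)) (d : Fin n) :
    ((ambC n).π * psiOf σ α) (d, false) = (σ d, true) := rfl

theorem cin_B (σ α : Perm (Fin n)) : cin (psiOf σ α) (univ.map (emb n false)) = cyc σ := by
  rw [cin_map (emb n false) (f := σ) fun _ _ => rfl, cin_univ]

theorem cin_A (σ α : Perm (Fin n)) : cin (psiOf σ α) (univ.map (emb n true)) = cyc α := by
  rw [cin_map (emb n true) (f := α) fun _ _ => rfl, cin_univ]

theorem cin_psi (σ α : Perm (Fin n)) : cin (psiOf σ α) univ = cyc α + cyc σ := by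
  rw [cin_split _ (I := univ.map (emb n true)) (J := univ.map (emb n false)), cin_A, cin_B]
  · intro p
    simp only [mem_em]
    cases p.2 <;> simp
  · intro p h2 h3
    obtain ⟨d, -, rfl⟩ := mem_map.1 h2
    exact absurd ((mem_em _ _).1 h3) (by simp [emb, psiOf_true])
  · intro p h2 h3
    obtain ⟨d, -, rfl⟩ := mem_map.1 h2
    exact absurd ((mem_em _ _).1 h3) (by simp [emb, psiOf_false])

theorem cin_phi (σ α : Perm (Fin n)) : cin ((ambC n).π * psiOf σ α) univ = cyc (σ * α) := by
  rw [cin_alt _ (I := univ.map (emb n false)) (J := univ.map (emb n true)),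
    cin_map (emb n true) (f := σ * α), cin_univ]
  · intro d _
    rw [skip_two]
    · rfl
    · rw [mem_em]; simp [emb]
    · rw [mem_em]; rfl
    · rw [mem_em]; simp [emb, phi_true, phi_false]
  · intro p
    simp only [mem_em]
    cases p.2 <;> simp
  · intro p h2 h3
    obtain ⟨d, -, rfl⟩ := mem_map.1 h2
    exact absurd ((mem_em _ _).1 h3) (by simp [emb, phi_false])

theorem cin_pi (n : ℕ) : cin (ambC n).π univ = n := by
  have h := two_mul_cin (ambC n).π (I := univ) (fun _ _ => mem_univ _)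
    (fun p _ => ((ambC_ok n).2.2 p (mem_univ _)).2.1) (fun p _ h => by
      obtain ⟨d, t⟩ := p
      have := congrArg Prod.snd h
      rw [ambC_pi] at this
      simp at this)
  rw [card_univ, Fintype.card_prod, Fintype.card_fin, Fintype.card_bool] at h
  omega

end DictA

variable (M : RMap)

theorem isMap_iff : M.IsMap ↔
    (ambC M.n).Valid (psiOf M.σ M.α) ∧ (ambC M.n).Conn (psiOf M.σ M.α) := by
  constructor
  · rintro ⟨h1, h2, h3⟩
    refine ⟨⟨?_, fun p hp => absurd (mem_univ p) hp, ?_⟩, ?_⟩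
    · rintro ⟨d, t⟩
      cases t
      · exact ⟨rfl, fun h => absurd h (by simp [ambC])⟩
      · exact ⟨rfl, fun _ => Prod.ext (h1 d) rfl⟩
    · rintro ⟨d, t⟩ - ht h
      obtain rfl : t = true := ht
      exact h2 d (congrArg Prod.fst h)
    · have h4 : ∀ d t, Lnk (ambC M.n).π (psiOf M.σ M.α) (d, true) (d, t) := by
        intro d t
        cases t
        · exact CycC.lnk_left _ _ _
        · exact (CycC.lnk_equiv _ _).refl _
      have h5 : ∀ d d', Lnk (ambC M.n).π (psiOf M.σ M.α) (d, true) (d', true) := by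
        intro d d'
        induction h3 d d' with
        | rel a b h =>
          rcases h with rfl | rfl
          · exact (CycC.lnk_equiv _ _).trans (h4 a false)
              ((CycC.lnk_equiv _ _).trans (CycC.lnk_right _ _ (a, false)) ((CycC.lnk_equiv _ _).symm (h4 _ false)))
          · exact CycC.lnk_right _ _ (a, true)
        | refl a => exact (CycC.lnk_equiv _ _).refl _
        | symm a b _ ih => exact (CycC.lnk_equiv _ _).symm ih
        | trans a b c _ _ ih ih' => exact (CycC.lnk_equiv _ _).trans ih ih'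
      rintro ⟨d, t⟩ - ⟨d', t'⟩ -
      exact (CycC.lnk_equiv _ _).trans ((CycC.lnk_equiv _ _).symm (h4 d t)) ((CycC.lnk_equiv _ _).trans (h5 d d') (h4 d' t'))
  · rintro ⟨⟨h1, -, h2⟩, h3⟩
    refine ⟨fun d => congrArg Prod.fst ((h1 (d, true)).2 rfl), fun d h =>
      h2 (d, true) (mem_univ _) rfl (Prod.ext h rfl), fun d d' => ?_⟩
    refine CycC.lnk_le (E := fun p q : Fin M.n × Bool =>
      Relation.EqvGen (fun a b => b = M.σ a ∨ b = M.α a) p.1 q.1)
      ⟨fun _ => .refl _, fun h => .symm _ _ h, fun h h' => .trans _ _ _ h h'⟩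
      (fun _ => .refl _) ?_ (h3 (d, true) (mem_univ _) (d', true) (mem_univ _))
    rintro ⟨a, t⟩
    cases t
    · exact .rel _ _ (Or.inl rfl)
    · exact .rel _ _ (Or.inr rfl)

theorem vtx_eq_iff (d d' : Fin M.n) :
    M.vtx d = M.vtx d' ↔ (psiOf M.σ M.α).SameCycle (d, false) (d', false) := by
  have h1 := orb_map (DictA.emb M.n false) (f := M.σ) (g := psiOf M.σ M.α) (p := d) fun _ _ => rfl
  have h2 : (d', false) ∈ orb (psiOf M.σ M.α) (d, false) ↔ d' ∈ orb M.σ d := by
    change DictA.emb M.n false d' ∈ orb (psiOf M.σ M.α) (DictA.emb M.n false d) ↔ _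
    rw [h1, mem_map']
  rw [← mem_orb, h2, mem_orb]
  exact Quotient.eq

theorem nv_eq : (ambC M.n).nv (psiOf M.σ M.α) univ = Nat.card M.Vertex := by
  have h1 : (univ.filter fun p => (ambC M.n).ty p = false) = univ.map (DictA.emb M.n false) := by
    ext p
    rw [DictA.mem_em, mem_filter]
    exact ⟨fun h => h.2, fun h => ⟨mem_univ _, h⟩⟩
  rw [Amb.nv, h1, DictA.cin_B, cyc_eq_card]
  rfl

theorem nf_eq : (ambC M.n).nf (psiOf M.σ M.α) univ = Nat.card M.Face := by
  rw [Amb.nf, DictA.cin_phi, cyc_eq_card]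
  rfl

theorem isPlanar_iff (h : M.IsMap) : M.IsPlanar ↔ (ambC M.n).Planar (psiOf M.σ M.α) := by
  have h1 := two_mul_cin M.α (I := univ) (fun _ _ => mem_univ _) (fun d _ => h.1 d)
    fun d _ => h.2.1 d
  rw [cin_univ, card_univ, Fintype.card_fin] at h1
  have h2 : Nat.card M.Vertex = cyc M.σ := (cyc_eq_card _).symm
  have h3 : Nat.card M.Face = cyc (M.σ * M.α) := (cyc_eq_card _).symm
  change _ ↔ cin (ambC M.n).π univ + cin (psiOf M.σ M.α) univ +
    cin ((ambC M.n).π * psiOf M.σ M.α) univ = (univ : Finset (Fin M.n × Bool)).card + 2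
  rw [RMap.IsPlanar, h2, h3, DictA.cin_pi, DictA.cin_psi, DictA.cin_phi, card_univ,
    Fintype.card_prod, Fintype.card_fin, Fintype.card_bool]
  omega

theorem dgm_iff : M.IsMap ∧ M.IsPlanar ↔ (ambC M.n).Dgm (psiOf M.σ M.α) := by
  constructor
  · rintro ⟨h1, h2⟩
    exact ⟨((isMap_iff M).1 h1).1, ((isMap_iff M).1 h1).2, (isPlanar_iff M h1).1 h2⟩
  · rintro ⟨h1, h2, h3⟩
    have h4 := (isMap_iff M).2 ⟨h1, h2⟩
    exact ⟨h4, (isPlanar_iff M h4).2 h3⟩

theorem dipole_iff : (ambC M.n).Dipole (psiOf M.σ M.α) ↔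
    ∀ d, (M.σ * M.α) d ≠ d ∧ (M.σ * M.α) ((M.σ * M.α) d) = d := by
  have m0 : ∀ d, (d, true) ∈ orb ((ambC M.n).π * psiOf M.σ M.α) (d, true) :=
    fun d => self_mem_orb _ _
  have m1 : ∀ d, (M.α d, false) ∈ orb ((ambC M.n).π * psiOf M.σ M.α) (d, true) :=
    fun d => DictA.app_orb (m0 d)
  have m2 : ∀ d, (M.σ (M.α d), true) ∈ orb ((ambC M.n).π * psiOf M.σ M.α) (d, true) :=
    fun d => DictA.app_orb (m1 d)
  have m3 : ∀ d, (M.α (M.σ (M.α d)), false) ∈ orb ((ambC M.n).π * psiOf M.σ M.α) (d, true) :=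
    fun d => DictA.app_orb (m2 d)
  have m4 : ∀ d, (M.σ (M.α (M.σ (M.α d))), true) ∈
      orb ((ambC M.n).π * psiOf M.σ M.α) (d, true) := fun d => DictA.app_orb (m3 d)
  simp only [Perm.mul_apply]
  constructor
  · intro h d
    have h1 := h (d, true)
    have h2 : M.σ (M.α d) ≠ d := by
      intro h2
      have h3 : orb ((ambC M.n).π * psiOf M.σ M.α) (d, true) ⊆ {(d, true), (M.α d, false)} := by
        refine orb_subset_of_closed (by simp) fun q hq => ?_
        simp only [mem_insert, mem_singleton] at hq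
        rcases hq with rfl | rfl
        · simp [DictA.phi_true]
        · simp [DictA.phi_false, h2]
      have h4 := (card_le_card h3).trans card_le_two
      omega
    refine ⟨h2, ?_⟩
    by_contra h3
    have h4 : ({(d, true), (M.α d, false), (M.σ (M.α d), true), (M.α (M.σ (M.α d)), false),
        (M.σ (M.α (M.σ (M.α d))), true)} : Finset (Fin M.n × Bool)) ⊆
        orb ((ambC M.n).π * psiOf M.σ M.α) (d, true) := by
      intro q hq
      simp only [mem_insert, mem_singleton] at hq
      rcases hq with rfl | rfl | rfl | rfl | rfl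
      exacts [m0 d, m1 d, m2 d, m3 d, m4 d]
    have h5 := card_le_card h4
    rw [h1, card_insert_of_notMem (by simp [h2.symm, Ne.symm h3]),
      card_insert_of_notMem (by simp [h2.symm]), card_insert_of_notMem (by simp [h2.symm]),
      card_insert_of_notMem (by simp), card_singleton] at h5
    omega
  · intro h
    have key : ∀ d, (orb ((ambC M.n).π * psiOf M.σ M.α) (d, true)).card = 4 := by
      intro d
      obtain ⟨h2, h3⟩ := h d
      have h4 : orb ((ambC M.n).π * psiOf M.σ M.α) (d, true) = {(d, true), (M.α d, false),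
          (M.σ (M.α d), true), (M.α (M.σ (M.α d)), false)} := by
        apply Subset.antisymm
        · refine orb_subset_of_closed (by simp) fun q hq => ?_
          simp only [mem_insert, mem_singleton] at hq
          rcases hq with rfl | rfl | rfl | rfl
          · simp [DictA.phi_true]
          · simp [DictA.phi_false]
          · simp [DictA.phi_true]
          · simp [DictA.phi_false, h3]
        · intro q hq
          simp only [mem_insert, mem_singleton] at hq
          rcases hq with rfl | rfl | rfl | rfl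
          exacts [m0 d, m1 d, m2 d, m3 d]
      rw [h4, card_insert_of_notMem (by simp [h2.symm]),
        card_insert_of_notMem (by simp [h2.symm]), card_insert_of_notMem (by simp),
        card_singleton]
    rintro ⟨d, t⟩
    cases t
    · rw [← orb_apply]
      exact key _
    · exact key d

/-- Summation over diagrams is summation over maps with a fixed root. -/
theorem sum_dgm {K : Type} [AddCommMonoid K] {n : ℕ} (r : Fin n) (Φ : Perm (Fin n × Bool) → K) :
    ∑ ψ ∈ univ.filter (fun ψ => (ambC n).Dgm ψ), Φ ψ =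
      ∑ s ∈ univ.filter (fun s : Perm (Fin n) × Perm (Fin n) =>
        (RMap.mk n s.1 s.2 r).IsMap ∧ (RMap.mk n s.1 s.2 r).IsPlanar), Φ (psiOf s.1 s.2) := by
  symm
  refine Finset.sum_bij (fun s _ => psiOf s.1 s.2) (fun s hs => ?_) (fun s _ s' _ h => ?_)
    (fun ψ hψ => ?_) fun _ _ => rfl
  · exact mem_filter.2 ⟨mem_univ _, (dgm_iff (RMap.mk n s.1 s.2 r)).1 (mem_filter.1 hs).2⟩
  · exact Prod.ext (psiOf_injective h).1 (psiOf_injective h).2
  · have h1 := (mem_filter.1 hψ).2
    obtain ⟨σ, α, rfl⟩ := exists_psiOf (ψ := ψ) fun p => (h1.1.1 p).1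
    exact ⟨(σ, α), mem_filter.2 ⟨mem_univ _, (dgm_iff (RMap.mk n σ α r)).2 h1⟩, rfl⟩

end Pool.Agent.P.MP_48bde8_co
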