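import Pool.Agent.P.MP_48bde8_co.Cross
import Pool.Agent.P.MP_48bde8_co.Cuts

/-! Auxiliary facts for the task DIPOLE. -/

namespace Pool.Agent.P.MP_48bde8_co

open Equiv Finset
open scoped Classical

variable {P : Type} [Fintype P]

namespace Amb

namespace Dip

set_option linter.unusedSectionVars false

variable {A : Amb P} {ψ : Perm P}

theorem ok (hc : A.Closed ψ) : A.OK := hc.1

theorem wv (hc : A.Closed ψ) : A.WV ψ := hc.2.2.2.1.1

theorem dt (hc : A.Closed ψ) (p : P) : p ∈ A.dt := by rw [hc.2.1]; exact mem_univ _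

theorem inU (hc : A.Closed ψ) (p : P) : p ∈ A.U := by rw [hc.2.2.1]; exact mem_univ _

theorem pp (hc : A.Closed ψ) (p : P) : A.π (A.π p) = p := (hc.1.2.2 p (dt hc p)).2.1

theorem typ (hc : A.Closed ψ) (p : P) : A.ty (A.π p) = !A.ty p := (hc.1.2.2 p (dt hc p)).2.2

theorem tys (hc : A.Closed ψ) (p : P) : A.ty (ψ p) = A.ty p := (wv hc p).1

theorem ss (hc : A.Closed ψ) {p : P} (h : A.ty p = true) : ψ (ψ p) = p := (wv hc p).2 h

theorem sne (hc : A.Closed ψ) {p : P} (h : A.ty p = true) : ψ p ≠ p :=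
  hc.2.2.2.1.2.2 p (inU hc p) h

theorem tyA (hc : A.Closed ψ) {b : P} (h : A.ty b = false) : A.ty (A.π b) = true := by
  rw [typ hc, h]; rfl

theorem tyB (hc : A.Closed ψ) {a : P} (h : A.ty a = true) : A.ty (A.π a) = false := by
  rw [typ hc, h]; rfl

theorem ty_al (hc : A.Closed ψ) (b : P) : A.ty (A.al ψ b) = A.ty b := by
  simp [al, typ hc, tys hc]

theorem ty_nx (hc : A.Closed ψ) (b : P) : A.ty (A.nx ψ b) = A.ty b := by
  simp [nx, ty_al hc, tys hc]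

theorem pi_al (hc : A.Closed ψ) (b : P) : A.π (A.al ψ b) = ψ (A.π b) := pp hc _

theorem al_al (hc : A.Closed ψ) {b : P} (h : A.ty b = false) : A.al ψ (A.al ψ b) = b := by
  show A.π (ψ (A.π (A.al ψ b))) = b
  rw [pi_al hc, ss hc (tyA hc h), pp hc]

theorem al_ne (hc : A.Closed ψ) {b : P} (h : A.ty b = false) : A.al ψ b ≠ b := by
  intro e
  apply sne hc (tyA hc h)
  rw [← pi_al hc, e]

theorem al_inj {b c : P} (h : A.al ψ b = A.al ψ c) : b = c :=
  A.π.injective (ψ.injective (A.π.injective h))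

theorem nx_inj {b c : P} (h : A.nx ψ b = A.nx ψ c) : b = c := ψ.injective (al_inj h)

theorem al_nx (hc : A.Closed ψ) {b : P} (h : A.ty b = false) : A.al ψ (A.nx ψ b) = ψ b :=
  al_al hc (by rw [tys hc, h])

theorem nx_eq (b : P) : A.nx ψ b = (A.π * ψ) ((A.π * ψ) b) := rfl

theorem sc_nx (b : P) : (A.π * ψ).SameCycle b (A.nx ψ b) := ⟨2, by rw [zpow_two]; rfl⟩

theorem orb_nx (b : P) : orb (A.π * ψ) (A.nx ψ b) = orb (A.π * ψ) b :=
  (orb_eq_iff.2 (sc_nx b)).symm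

theorem spec (hc : A.Closed ψ) {b : P} (hd : A.DigAt ψ b) :
    A.Atom ψ (A.rDig ψ b) ∧ bd (A.rDig ψ b) = 2 ∧ A.NoA (A.rDig ψ b) ∧
      (A.rDig ψ b).1 = A.dv {b, ψ b, A.nx ψ b, ψ (A.nx ψ b)} ∧ (A.rDig ψ b).1.card = 8 ∧
      (A.rDig ψ b).2 = {b, A.nx ψ b, A.π b, A.π (ψ b), A.π (A.nx ψ b), A.π (ψ (A.nx ψ b))} ∧
      A.al ψ b = ψ (A.nx ψ b) ∧ A.DigAt ψ (A.nx ψ b) ∧ A.rDig ψ (A.nx ψ b) = A.rDig ψ b ∧
      orb (A.π * ψ) b = {b, A.π (ψ b), A.nx ψ b, A.π (ψ (A.nx ψ b))} :=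
  rDig_spec (ok hc) (wv hc) hd fun p _ => dt hc p

theorem dig_reg (hc : A.Closed ψ) {b : P} (hd : A.DigAt ψ b) : A.Reg ψ (A.rDig ψ b) :=
  (spec hc hd).1.1.1.1

/-- B ports of the darts of a set of B ports. -/
theorem mem_dv_B (hc : A.Closed ψ) {s : Finset P} (hs : ∀ q ∈ s, A.ty q = false) {c : P}
    (hB : A.ty c = false) : c ∈ A.dv s ↔ c ∈ s := by
  rw [mem_dv]
  constructor
  · rintro (h | ⟨q, hq, rfl⟩)
    · exact h
    · rw [tyA hc (hs q hq)] at hB; cases hB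
  · exact Or.inl

theorem mem_fst (hc : A.Closed ψ) {b : P} (hd : A.DigAt ψ b) {c : P} (hB : A.ty c = false) :
    c ∈ (A.rDig ψ b).1 ↔
      c = b ∨ c = A.nx ψ b ∨ c = A.al ψ b ∨ c = A.al ψ (A.nx ψ b) := by
  have hs := spec hc hd
  rw [hs.2.2.2.1, mem_dv_B hc _ hB, ← hs.2.2.2.2.2.2.1, ← al_nx hc hd.1]
  · simp only [mem_insert, mem_singleton]; tauto
  · intro q hq
    simp only [mem_insert, mem_singleton] at hq
    rcases hq with rfl | rfl | rfl | rfl <;> simp [tys hc, ty_nx hc, hd.1]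

theorem mem_snd (hc : A.Closed ψ) {b : P} (hd : A.DigAt ψ b) {c : P} (hB : A.ty c = false) :
    c ∈ (A.rDig ψ b).2 ↔ c = b ∨ c = A.nx ψ b := by
  rw [(spec hc hd).2.2.2.2.2.1]
  simp only [mem_insert, mem_singleton]
  constructor
  · rintro (h | h | h | h | h | h)
    · exact Or.inl h
    · exact Or.inr h
    all_goals
      rw [h, typ hc] at hB
      simp [tys hc, ty_nx hc, hd.1] at hB
  · tauto

theorem orb_sub (hc : A.Closed ψ) {b : P} (hd : A.DigAt ψ b) :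
    orb (A.π * ψ) b ⊆ (A.rDig ψ b).2 := by
  rw [(spec hc hd).2.2.2.2.2.1, (spec hc hd).2.2.2.2.2.2.2.2.2]
  intro q hq
  simp only [mem_insert, mem_singleton] at hq ⊢
  tauto

theorem dig_eq (hc : A.Closed ψ) {b c : P} (hb : A.DigAt ψ b) (hB : A.ty c = false)
    (h : c ∈ (A.rDig ψ b).2) : A.rDig ψ c = A.rDig ψ b := by
  rcases (mem_snd hc hb hB).1 h with rfl | rfl
  · rfl
  · exact (spec hc hb).2.2.2.2.2.2.2.2.1

/-- Closed under darts and edges. -/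
def EC (A : Amb P) (ψ : Perm P) (V : Finset P) : Prop :=
  ∀ p ∈ V, A.π p ∈ V ∧ (A.ty p = true → ψ p ∈ V)

theorem ec_of {R : Rg P} (hR : A.Pre ψ R) (hn : A.NoA R) : EC A ψ R.1 :=
  fun p hp => ⟨hR.1 p hp, fun ht => hR.2.2 p (hn p hp ht)⟩

theorem ec_dig (hc : A.Closed ψ) {R : Rg P} (h : A.IsDig ψ R) : EC A ψ R.1 := by
  obtain ⟨b, hb, rfl⟩ := h
  exact ec_of (dig_reg hc hb).1 (spec hc hb).2.2.1

theorem ec_sup {C : Finset (Rg P)} (h : ∀ R ∈ C, EC A ψ R.1) : EC A ψ (C.sup id).1 := by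
  intro p hp
  obtain ⟨R, hR, hpR⟩ := mem_sup_fst.1 hp
  exact ⟨mem_sup_fst.2 ⟨R, hR, (h R hR p hpR).1⟩,
    fun ht => mem_sup_fst.2 ⟨R, hR, (h R hR p hpR).2 ht⟩⟩

theorem EC.al (hc : A.Closed ψ) {V : Finset P} (h : EC A ψ V) {b : P} (hb : b ∈ V)
    (hB : A.ty b = false) : A.al ψ b ∈ V :=
  (h _ ((h _ (h b hb).1).2 (tyA hc hB))).1

theorem EC.exists_B (hc : A.Closed ψ) {V : Finset P} (h : ∀ p ∈ V, A.π p ∈ V) {p : P}
    (hp : p ∈ V) : ∃ b ∈ V, A.ty b = false ∧ (b = p ∨ b = A.π p) := by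
  cases ht : A.ty p
  · exact ⟨p, hp, ht, Or.inl rfl⟩
  · exact ⟨_, h p hp, tyB hc ht, Or.inr rfl⟩

theorem four_le (hc : A.Closed ψ) {V : Finset P} (h : EC A ψ V) (hne : V.Nonempty) :
    4 ≤ V.card := by
  obtain ⟨p, hp⟩ := hne
  obtain ⟨b, hb, hB, -⟩ := EC.exists_B hc (fun p hp => (h p hp).1) hp
  have h1 := h.al hc hb hB
  have hB' : A.ty (A.al ψ b) = false := by rw [ty_al hc, hB]
  have hsub : ({b, A.al ψ b, A.π b, A.π (A.al ψ b)} : Finset P) ⊆ V := by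
    intro q hq
    simp only [mem_insert, mem_singleton] at hq
    rcases hq with rfl | rfl | rfl | rfl
    exacts [hb, h1, (h _ hb).1, (h _ h1).1]
  have n1 : b ≠ A.al ψ b := (al_ne hc hB).symm
  have n2 : ∀ x y, A.ty x = false → A.ty y = false → x ≠ A.π y := by
    intro x y hx hy e
    rw [e, tyA hc hy] at hx; cases hx
  have n3 : A.π b ≠ A.π (A.al ψ b) := fun e => n1 (A.π.injective e)
  have : ({b, A.al ψ b, A.π b, A.π (A.al ψ b)} : Finset P).card = 4 := by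
    rw [card_insert_of_notMem, card_insert_of_notMem, card_pair n3]
    · simp [n2 _ _ hB' hB, n2 _ _ hB' hB']
    · simp [n1, n2 _ _ hB hB, n2 _ _ hB hB']
  exact this ▸ card_le_card hsub

/-- A set of B ports closed under `al` and `nx` contains all B ports. -/
theorem all_B (hc : A.Closed ψ) {W : Finset P} (hW : ∀ b ∈ W, A.ty b = false)
    (h1 : ∀ b ∈ W, A.al ψ b ∈ W) (h2 : ∀ b ∈ W, A.nx ψ b ∈ W) {b : P} (hb : b ∈ W) {c : P}
    (hB : A.ty c = false) : c ∈ W := by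
  have hl : Lnk A.π ψ b c := hc.2.2.2.2.1 b (inU hc b) c (inU hc c)
  rw [← mem_dv_B hc hW hB, ← Lnk.mem_of_closed (J := A.dv W) _ _ hl]
  · exact mem_dv.2 (Or.inl hb)
  · intro p hp
    rcases mem_dv.1 hp with h | ⟨q, hq, rfl⟩
    · exact mem_dv.2 (Or.inr ⟨p, h, rfl⟩)
    · rw [pp hc]; exact mem_dv.2 (Or.inl hq)
  · intro p hp
    rcases mem_dv.1 hp with h | ⟨q, hq, rfl⟩
    · rw [← al_nx hc (hW p h)]; exact mem_dv.2 (Or.inl (h1 _ (h2 _ h)))
    · rw [← pi_al hc]; exact mem_dv.2 (Or.inr ⟨_, h1 _ hq, rfl⟩)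

/-- Few B ports do not exhaust a large map. -/
theorem exists_B_not (hc : A.Closed ψ) (h16 : 16 ≤ Fintype.card P) {W : Finset P}
    (hW : W.card ≤ 7) : ∃ c, A.ty c = false ∧ c ∉ W := by
  have h1 : (A.dv W).card < (univ : Finset P).card := by
    have : (A.dv W).card ≤ W.card + W.card :=
      (card_union_le _ _).trans (Nat.add_le_add_left card_image_le _)
    rw [card_univ]; omega
  obtain ⟨p, -, hp⟩ := exists_mem_notMem_of_card_lt_card h1
  cases ht : A.ty p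
  · exact ⟨p, ht, fun h => hp (mem_dv.2 (Or.inl h))⟩
  · exact ⟨A.π p, tyB hc ht, fun h => hp (mem_dv.2 (Or.inr ⟨_, h, pp hc p⟩))⟩

theorem orb_card (hc : A.Closed ψ) {b : P} (hB : A.ty b = false)
    (h1 : A.nx ψ (A.nx ψ b) = b) (h2 : A.nx ψ b ≠ b) : (orb (A.π * ψ) b).card = 4 := by
  have hB' : A.ty (A.nx ψ b) = false := by rw [ty_nx hc, hB]
  have n2 : ∀ x y, A.ty x = false → A.ty y = false → x ≠ (A.π * ψ) y := by
    intro x y hx hy e
    rw [e, Perm.mul_apply, typ hc, tys hc, hy] at hx; cases hx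
  have hcyc : IsCyc (A.π * ψ) [b, (A.π * ψ) b, A.nx ψ b, (A.π * ψ) (A.nx ψ b)] := by
    refine ⟨?_, ?_⟩
    · have n3 : (A.π * ψ) b ≠ (A.π * ψ) (A.nx ψ b) := fun e => h2 ((A.π * ψ).injective e).symm
      simp only [List.nodup_cons, List.mem_cons, List.not_mem_nil, not_or, or_false,
        not_false_eq_true, List.nodup_nil, and_true]
      exact ⟨⟨n2 _ _ hB hB, h2.symm, n2 _ _ hB hB'⟩, ⟨(n2 _ _ hB' hB).symm, n3⟩, n2 _ _ hB' hB'⟩
    · have : (A.π * ψ) ((A.π * ψ) (A.nx ψ b)) = b := h1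
      simp only [List.map_cons, List.map_nil, this]
      rfl
  rw [hcyc.orb_eq (p := b) (by simp), List.toFinset_card_of_nodup hcyc.1]
  rfl

theorem dipole_of (hc : A.Closed ψ)
    (h : ∀ b, A.ty b = false → A.nx ψ (A.nx ψ b) = b ∧ A.nx ψ b ≠ b) : A.Dipole ψ := by
  intro p
  cases ht : A.ty p
  · exact orb_card hc ht (h p ht).1 (h p ht).2
  · have hB : A.ty ((A.π * ψ) p) = false := by rw [Perm.mul_apply, typ hc, tys hc, ht]; rfl
    rw [← orb_apply]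
    exact orb_card hc hB (h _ hB).1 (h _ hB).2

theorem dip_nx (hd : A.Dipole ψ) (b : P) : A.nx ψ (A.nx ψ b) = b ∧ A.nx ψ b ≠ b := by
  have h := (isCyc_iterate (A.π * ψ) b).1
  rw [hd b] at h
  obtain ⟨h1, h2⟩ := h
  simp only [List.iterate, List.nodup_cons, List.mem_cons, not_or] at h1
  have h3 : List.map (A.π * ψ) [b, (A.π * ψ) b, (A.π * ψ) ((A.π * ψ) b),
      (A.π * ψ) ((A.π * ψ) ((A.π * ψ) b))] = [(A.π * ψ) b, (A.π * ψ) ((A.π * ψ) b),
      (A.π * ψ) ((A.π * ψ) ((A.π * ψ) b)), b] := h2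
  simp only [List.map_cons, List.map_nil, List.cons.injEq, true_and, and_true] at h3
  exact ⟨h3, fun e => h1.1.2.1 e.symm⟩

theorem dip_card (hd : A.Dipole ψ) : 4 * cyc (A.π * ψ) = Fintype.card P := by
  have h := sum_card_orb (A.π * ψ) (I := univ) fun p _ => mem_univ _
  rw [card_univ, filter_true_of_mem fun c _ => subset_univ c] at h
  rw [← h, cyc, sum_const_nat (m := 4), mul_comm]
  intro c hcc
  obtain ⟨p, -, rfl⟩ := mem_image.1 hcc
  exact hd p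

theorem nx_ne_al (hc : A.Closed ψ) (hd : A.Dipole ψ) (h16 : 16 ≤ Fintype.card P) {b : P}
    (hB : A.ty b = false) : A.nx ψ b ≠ A.al ψ b := by
  intro e
  obtain ⟨c, hcB, hn⟩ := exists_B_not hc h16 (W := {b, A.al ψ b})
    (card_le_two.trans (by norm_num))
  refine hn (all_B hc (b := b) ?_ ?_ ?_ (by simp) hcB)
  all_goals
    intro q hq
    simp only [mem_insert, mem_singleton] at hq
    rcases hq with rfl | rfl
  · exact hB
  · rw [ty_al hc, hB]
  · simp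
  · simp [al_al hc hB]
  · simp [e]
  · rw [← e, (dip_nx hd b).1]; simp

theorem digAt (hc : A.Closed ψ) (hd : A.Dipole ψ) (h16 : 16 ≤ Fintype.card P) {b : P}
    (hB : A.ty b = false) : A.DigAt ψ b := by
  have hB' : A.ty (A.nx ψ b) = false := by rw [ty_nx hc, hB]
  have e1 : ψ b = A.al ψ (A.nx ψ b) := (al_nx hc hB).symm
  have e2 : ψ (A.nx ψ b) = A.al ψ b := by rw [← al_nx hc hB', (dip_nx hd b).1]
  have n := nx_ne_al hc hd h16 hB
  refine ⟨hB, (dip_nx hd b).1, ?_⟩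
  rw [e2, e1]
  simp only [List.nodup_cons, List.mem_cons, List.not_mem_nil, not_or, or_false,
    not_false_eq_true, List.nodup_nil, and_true]
  refine ⟨⟨fun e => n ?_, (dip_nx hd b).2.symm, (al_ne hc hB).symm⟩,
    ⟨al_ne hc hB', fun e => (dip_nx hd b).2 (al_inj e)⟩, n⟩
  apply al_inj (A := A) (ψ := ψ)
  rw [al_al hc hB, ← e]

/-- A face that meets the darts of a region and is not internal passes through a cut. -/
theorem exists_cut {R : Rg P} (hR : A.Pre ψ R) {p : P} (hp : p ∈ R.1)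
    (h : ¬ orb (A.π * ψ) p ⊆ R.2) : ¬ Disjoint (orb (A.π * ψ) p) (R.1 \ R.2) := by
  intro hd
  apply h
  have key : orb (A.π * ψ) p ⊆ orb (A.π * ψ) p ∩ R.2 := by
    have hin : ∀ q ∈ orb (A.π * ψ) p, q ∈ R.1 → q ∈ R.2 := by
      intro q hq hq1
      by_contra hn
      exact disjoint_left.1 hd hq (mem_sdiff.2 ⟨hq1, hn⟩)
    refine orb_subset_of_closed (mem_inter.2 ⟨self_mem_orb _ _, hin p (self_mem_orb _ _) hp⟩) ?_
    intro q hq
    obtain ⟨h1, h2⟩ := mem_inter.1 hq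
    have h3 : (A.π * ψ) q ∈ orb (A.π * ψ) p :=
      mem_orb.2 ((mem_orb.1 h1).trans ⟨1, by simp⟩)
    exact mem_inter.2 ⟨h3, hin _ h3 (hR.1 _ (hR.2.2 _ h2))⟩
  exact key.trans inter_subset_right

end Dip

end Amb

end Pool.Agent.P.MP_48bde8_co
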