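import Pool.Agent.P.MP_48bde8_co.Cross
import Pool.Agent.P.MP_48bde8_co.Cuts
import Pool.Agent.P.MP_48bde8_co.DipoleAux

/-! Task DIPOLE: dominating clusters of digons, and dipoles. -/

namespace Pool.Agent.P.MP_48bde8_co

open Equiv Finset
open scoped Classical

variable {P : Type} [Fintype P]

namespace Amb

variable {A : Amb P} {ψ : Perm P} {h : P}

/-- A cluster of digons covers at most one more edge than it has members. -/
theorem card_dig_cluster (hc : A.Closed ψ) {C : Finset (Rg P)} (hC : ∀ R ∈ C, A.IsDig ψ R)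
    (ho : OConn C) : (C.sup id).1.card ≤ 4 * (C.card + 1) ∧ A.NoA (C.sup id) ∧
      C.card ≤ cin (A.π * ψ) (C.sup id).2 := by
  have h8 : ∀ R ∈ C, R.1.card = 8 := by
    intro R hR
    obtain ⟨b, hb, rfl⟩ := hC R hR
    exact (Dip.spec hc hb).2.2.2.2.1
  refine ⟨?_, ?_, ?_⟩
  · refine (ho.induction (Q := fun D => D ⊆ C ∧ (D.sup id).1.card ≤ 4 * (D.card + 1)) ?_ ?_).2
    · intro R hR
      refine ⟨by simpa using hR, ?_⟩
      simp [h8 R hR]
    · intro D hD R hR hRD _ hov ih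
      refine ⟨insert_subset hR hD, ?_⟩
      have e1 := Dip.ec_dig hc (hC R hR)
      have e2 := Dip.ec_sup (C := D) fun S hS => Dip.ec_dig hc (hC S (hD hS))
      have e3 : Dip.EC A ψ (R.1 ∩ (D.sup id).1) := by
        intro p hp
        obtain ⟨p1, p2⟩ := mem_inter.1 hp
        exact ⟨mem_inter.2 ⟨(e1 p p1).1, (e2 p p2).1⟩,
          fun ht => mem_inter.2 ⟨(e1 p p1).2 ht, (e2 p p2).2 ht⟩⟩
      have h4 := Dip.four_le hc e3 (not_disjoint_iff_nonempty_inter.1 hov)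
      have hu := card_union_add_card_inter R.1 (D.sup id).1
      have hs : ((insert R D).sup id).1 = R.1 ∪ (D.sup id).1 := by rw [sup_insert]; rfl
      rw [hs, card_insert_of_notMem hRD]
      have := h8 R hR
      have := ih.2
      omega
  · intro a ha ht
    obtain ⟨R, hR, haR⟩ := mem_sup_fst.1 ha
    obtain ⟨b, hb, rfl⟩ := hC R hR
    exact mem_sup_snd.2 ⟨_, hR, (Dip.spec hc hb).2.2.1 a haR ht⟩
  · obtain ⟨R₀, hR₀⟩ := ho.1
    obtain ⟨b₀, -⟩ := hC R₀ hR₀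
    have : Nonempty P := ⟨b₀⟩
    choose! b hb hb' using hC
    refine card_le_card_of_injOn (fun R => orb (A.π * ψ) (b R)) ?_ ?_
    · intro R hR
      have hR' : R ∈ C := hR
      simp only [coe_filter, Set.mem_ofPred_eq]
      refine ⟨mem_image.2 ⟨_, mem_univ _, rfl⟩, fun q hq => mem_sup_snd.2 ⟨R, hR', ?_⟩⟩
      rw [hb' R hR']
      exact Dip.orb_sub hc (hb R hR') hq
    · intro R hR S hS e
      have hR' : R ∈ C := hR
      have hS' : S ∈ C := hS
      have e' : orb (A.π * ψ) (b R) = orb (A.π * ψ) (b S) := e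
      have := Dip.orb_sub hc (hb S hS') (e' ▸ self_mem_orb (A.π * ψ) (b R))
      rw [hb' R hR', hb' S hS']
      exact Dip.dig_eq hc (hb S hS') (hb R hR').1 this

/-- A dominating cluster of digons avoiding the root. -/
theorem dipole_of_dom (hc : A.Closed ψ) (h1 : A.H1 ψ) {C : Finset (Rg P)}
    (hC : ∀ R ∈ C, A.IsDig ψ R) (ho : OConn C) (hd : Dom (A.atoms ψ) (C.sup id))
    (hh : h ∉ (C.sup id).1) : A.Dipole ψ ∧ Fintype.card P = 4 * (C.card + 2) := by
  obtain ⟨hcard, hnoa, hcin⟩ := card_dig_cluster hc hC ho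
  have hsub : C ⊆ A.atoms ψ := by
    intro R hR
    obtain ⟨b, hb, rfl⟩ := hC R hR
    exact mem_filter.2 ⟨mem_univ _, (Dip.spec hc hb).1⟩
  obtain ⟨ht, hle⟩ := cluster_tight (Dip.ok hc) (Dip.wv hc) hc.2.2.2.2.1 hsub ho (Dip.inU hc h) hh
  have hI : ∀ z, A.ty z = false → z ∈ (C.sup id).2 →
      A.nx ψ z ∈ (C.sup id).2 ∧ A.nx ψ (A.nx ψ z) = z ∧ A.nx ψ z ≠ z := by
    intro z hz hzI
    obtain ⟨R, hR, hzR⟩ := mem_sup_snd.1 hzI
    obtain ⟨b, hb, rfl⟩ := hC R hR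
    have hzd : A.DigAt ψ z := by
      rcases (Dip.mem_snd hc hb hz).1 hzR with rfl | rfl
      exacts [hb, (Dip.spec hc hb).2.2.2.2.2.2.2.1]
    refine ⟨mem_sup_snd.2 ⟨_, hR, ?_⟩, hzd.2.1, ?_⟩
    · rw [← Dip.dig_eq hc hb hz hzR]
      exact (Dip.mem_snd hc hzd (by rw [Dip.ty_nx hc, hz])).2 (Or.inr rfl)
    · intro e
      have := hzd.2.2
      rw [e] at this
      simp at this
  obtain ⟨R₀, hR₀⟩ := ho.1
  have hle2 : bd (C.sup id) ≤ 2 := by
    obtain ⟨b, hb, rfl⟩ := hC R₀ hR₀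
    exact (hle _ hR₀).trans (Dip.spec hc hb).2.1.le
  generalize C.sup id = J at *
  obtain ⟨⟨hreg, hconn, heps, -⟩, -, -⟩ := ht.1
  have hJu : J.1 ≠ univ := fun e => hh (e ▸ mem_univ h)
  have hbd : bd J = 2 := le_antisymm hle2 (h1 J hreg hconn.1 hJu)
  obtain ⟨hK, -, hKle⟩ := H1.cpl_disc hc h1 hreg hconn hJu (by omega)
  have hK2 : bd (cpl ψ J) = 2 := by
    refine le_antisymm (hbd ▸ hKle) (h1 _ hK.1 hK.2.1.1 fun e => ?_)
    obtain ⟨p, hp⟩ := hconn.1
    have : p ∈ (cpl ψ J).1 := e ▸ mem_univ p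
    exact mem_compl.1 this hp
  have hnf : ¬ A.Feat ψ (cpl ψ J) := fun hf =>
    dom_atoms_iff.1 hd _ ⟨hK, by omega, hf⟩ disjoint_compl_left
  have hec : Dip.EC A ψ J.1 := Dip.ec_of hreg.1 hnoa
  obtain ⟨b, hbK, hB, hcase⟩ := flat_two (Dip.ok hc) (Dip.wv hc) hK hnf hK2
  have hmem2 : ∀ p, p ∉ J.1 → p ∉ (cpl ψ J).2 → ψ p ∈ J.1 := by
    intro p hp hp2
    by_contra hn
    exact hp2 (mem_filter.2 ⟨mem_compl.2 hp, hn⟩)
  have hQ : cpl ψ J = A.rQ ψ b := by
    rcases hcase with e | e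
    · exfalso
      have hp : A.π b ∉ J.1 := mem_compl.1 (hK.1.1.1 b hbK)
      have h2 := hmem2 _ hp (by rw [e]; simp [rT])
      have h3 := (hec _ h2).2 (by rw [Dip.tys hc, Dip.tyA hc hB])
      rw [Dip.ss hc (Dip.tyA hc hB)] at h3
      exact hp h3
    · exact e.2
  obtain ⟨-, -, -, q4, qX, -⟩ := rQ_spec (Dip.ok hc) (Dip.wv hc) (Dip.dt hc b) hB (Dip.dt hc _)
    (Dip.sne hc (Dip.tyA hc hB))
  rw [← hQ] at q4 qX
  have hB' : A.ty (A.al ψ b) = false := by rw [Dip.ty_al hc, hB]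
  have hout : ∀ z, A.ty z = false → z ∉ J.1 → z = b ∨ z = A.al ψ b := by
    intro z hz hzJ
    have : z ∈ (A.rQ ψ b).1 := by rw [← hQ]; exact mem_compl.2 hzJ
    rw [rQ, Dip.mem_dv_B hc _ hz] at this
    · simpa using this
    · intro q hq
      simp only [mem_insert, mem_singleton] at hq
      rcases hq with rfl | rfl
      exacts [hB, hB']
  have hcut : ∀ c, (c = b ∨ c = A.al ψ b) → A.ty c = false ∧ c ∉ J.1 ∧ A.nx ψ c ∈ J.1 \ J.2 := by
    intro c hcb
    have hcB : A.ty c = false := by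
      rcases hcb with rfl | rfl
      exacts [hB, hB']
    have h2 : c ∈ (cpl ψ J).1 \ (cpl ψ J).2 := by rw [qX]; simpa using hcb
    obtain ⟨h3, h4⟩ := mem_sdiff.1 h2
    have h5 : c ∉ J.1 := mem_compl.1 h3
    refine ⟨hcB, h5, mem_sdiff.2 ⟨hec.al hc (hmem2 c h5 h4) (by rw [Dip.tys hc, hcB]), fun hn => ?_⟩⟩
    obtain ⟨i1, i2, -⟩ := hI _ (by rw [Dip.ty_nx hc, hcB]) hn
    rw [Dip.nx_inj i2] at i1
    exact h5 (hreg.1.2.1 i1)
  have hne : A.nx ψ b ≠ A.nx ψ (A.al ψ b) := fun e => Dip.al_ne hc hB (Dip.nx_inj e).symm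
  have hX : J.1 \ J.2 = {A.nx ψ b, A.nx ψ (A.al ψ b)} := by
    symm
    apply eq_of_subset_of_card_le
    · intro q hq
      simp only [mem_insert, mem_singleton] at hq
      rcases hq with rfl | rfl
      exacts [(hcut _ (Or.inl rfl)).2.2, (hcut _ (Or.inr rfl)).2.2]
    · rw [card_pair hne]; exact hbd.le
  have hE := eps_cpl_planar hc.2.2.1 hc.2.2.2.2.2 hreg.1
  rw [heps, hK.2.2.1, hbd, hK2] at hE
  have c1 := cmeet_le ψ (J.1 \ J.2)
  have c2 := cmeet_le (A.π * ψ) (J.1 \ J.2)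
  have hbd' : (J.1 \ J.2).card = 2 := hbd
  have c3 : cmeet (A.π * ψ) (J.1 \ J.2) = 2 := by omega
  have c4 := (cmeet_eq_card_iff _ _).1 (c3.trans hbd'.symm)
  have hback : ∀ c, (c = b ∨ c = A.al ψ b) → A.nx ψ (A.nx ψ c) = c := by
    intro c hcb
    obtain ⟨k1, k2, k3⟩ := hcut c hcb
    have k4 : A.ty (A.nx ψ c) = false := by rw [Dip.ty_nx hc, k1]
    have k5 : A.ty (A.nx ψ (A.nx ψ c)) = false := by rw [Dip.ty_nx hc, k4]
    have k6 : A.nx ψ (A.nx ψ c) ∉ J.1 := by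
      intro hn
      by_cases hn2 : A.nx ψ (A.nx ψ c) ∈ J.2
      · obtain ⟨i1, i2, -⟩ := hI _ k5 hn2
        rw [Dip.nx_inj i2] at i1
        exact (mem_sdiff.1 k3).2 i1
      · have := c4 _ k3 _ (mem_sdiff.2 ⟨hn, hn2⟩) (Dip.sc_nx _)
        rw [← Dip.nx_inj this] at k3
        exact k2 (mem_sdiff.1 k3).1
    have k7 := (hcut _ (hout _ k5 k6)).2.2
    exact (Dip.nx_inj (c4 _ k3 _ k7 ((Dip.sc_nx _).trans (Dip.sc_nx _)))).symm
  have hdip : A.Dipole ψ := by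
    apply Dip.dipole_of hc
    intro z hz
    have aux : ∀ c, (c = b ∨ c = A.al ψ b) → A.nx ψ c ≠ c := by
      intro c hcb e
      obtain ⟨-, k2, k3⟩ := hcut c hcb
      rw [e] at k3
      exact k2 (mem_sdiff.1 k3).1
    by_cases hz1 : z ∈ J.1
    · by_cases hz2 : z ∈ J.2
      · exact (hI z hz hz2).2
      · have : z ∈ J.1 \ J.2 := mem_sdiff.2 ⟨hz1, hz2⟩
        rw [hX] at this
        simp only [mem_insert, mem_singleton] at this
        rcases this with rfl | rfl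
        · exact ⟨by rw [hback _ (Or.inl rfl)], fun e => aux _ (Or.inl rfl) (Dip.nx_inj e)⟩
        · exact ⟨by rw [hback _ (Or.inr rfl)], fun e => aux _ (Or.inr rfl) (Dip.nx_inj e)⟩
    · exact ⟨hback z (hout z hz hz1), aux z (hout z hz hz1)⟩
  refine ⟨hdip, ?_⟩
  have d1 := Dip.dip_card hdip
  have d2 := cin_add_cmeet (A.π * ψ) (J.1 \ J.2)
  have d3 : cin (A.π * ψ) J.2 ≤ cin (A.π * ψ) (J.1 \ J.2)ᶜ :=
    cin_mono _ fun q hq => mem_compl.2 fun hn => (mem_sdiff.1 hn).2 hq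
  have d4 : J.1.card + 4 = Fintype.card P := by
    rw [← q4]; exact card_add_card_compl J.1
  omega

theorem dipole_atoms (hc : A.Closed ψ) (hd : A.Dipole ψ) (h16 : 16 ≤ Fintype.card P) {R : Rg P} :
    A.Atom ψ R ↔ A.IsDig ψ R := by
  constructor
  · rintro ⟨hdiv, hmin⟩
    obtain ⟨⟨hreg, hconn, -, hb1⟩, hb3, hf⟩ := id hdiv
    by_cases hface : ∃ b, A.ty b = false ∧ orb (A.π * ψ) b ⊆ R.2
    · obtain ⟨b, hB, hsub⟩ := hface
      rcases face_div (Dip.ok hc) (Dip.wv hc) hreg hconn hb1 hB hsub (hd b).le with h | h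
      · exact absurd h.1 (Dip.dip_nx hd b).2
      · exact ⟨b, h.1, (hmin _ (Dip.spec hc h.1).1.1 h.2).symm⟩
    · exfalso
      push Not at hface
      obtain ⟨b, hB, hv⟩ := hf.cases (Dip.ok hc) (Dip.wv hc) hreg
      have hv : orb ψ b ⊆ R.2 := hv.resolve_right fun h => hface b hB h.1
      have hty : ∀ d ∈ orb ψ b, A.ty d = false := by
        intro d hdb
        have : orb ψ b ⊆ univ.filter fun p => A.ty p = false :=
          orb_subset_of_closed (by simpa using hB) fun q hq => by simpa [Dip.tys hc] using hq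
        simpa using this hdb
      have hall : ∀ c, A.ty c = false → c ∈ orb ψ b ∪ (orb ψ b).image (A.nx ψ) := by
        intro c hcB
        refine Dip.all_B hc (b := b) ?_ ?_ ?_ (mem_union_left _ (self_mem_orb _ _)) hcB
        all_goals
          intro q hq
          rcases mem_union.1 hq with hq | hq
        · exact hty q hq
        · obtain ⟨d, hdb, rfl⟩ := mem_image.1 hq
          rw [Dip.ty_nx hc, hty d hdb]
        · refine mem_union_right _ (mem_image.2 ⟨ψ⁻¹ q, ?_, by simp [nx]⟩)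
          exact mem_orb.2 ((mem_orb.1 hq).trans ⟨-1, by simp⟩)
        · obtain ⟨d, hdb, rfl⟩ := mem_image.1 hq
          rw [Dip.al_nx hc (hty d hdb)]
          exact mem_union_left _ (mem_orb.2 ((mem_orb.1 hdb).trans ⟨1, by simp⟩))
        · exact mem_union_right _ (mem_image_of_mem _ hq)
        · obtain ⟨d, hdb, rfl⟩ := mem_image.1 hq
          rw [(Dip.dip_nx hd d).1]
          exact mem_union_left _ hdb
      have hB2 : ∀ c, A.ty c = false → ¬ Disjoint (orb (A.π * ψ) c) (R.1 \ R.2) := by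
        intro c hcB
        have key : ∀ d ∈ orb ψ b, ¬ Disjoint (orb (A.π * ψ) d) (R.1 \ R.2) := fun d hdb =>
          Dip.exists_cut hreg.1 (hreg.1.2.1 (hv hdb)) (hface d (hty d hdb))
        rcases mem_union.1 (hall c hcB) with hq | hq
        · exact key c hq
        · obtain ⟨d, hdb, rfl⟩ := mem_image.1 hq
          rw [Dip.orb_nx]; exact key d hdb
      have hcm : cmeet (A.π * ψ) (R.1 \ R.2) = cyc (A.π * ψ) := by
        rw [cmeet, cyc, filter_true_of_mem]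
        intro c hcc
        obtain ⟨p, -, rfl⟩ := mem_image.1 hcc
        cases ht : A.ty p
        · exact hB2 p ht
        · rw [← orb_apply]
          exact hB2 _ (by rw [Perm.mul_apply, Dip.typ hc, Dip.tys hc, ht]; rfl)
      have c1 := cmeet_le (A.π * ψ) (R.1 \ R.2)
      have c2 := Dip.dip_card hd
      have c3 : (R.1 \ R.2).card ≤ 3 := hb3
      omega
  · rintro ⟨b, hb, rfl⟩
    exact (Dip.spec hc hb).1

/-- In a dipole with at least four edges, the atoms avoiding the root form a dominating cluster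
of genuine atoms. -/
theorem dipole_cluster (hc : A.Closed ψ) (hd : A.Dipole ψ) (h16 : 16 ≤ Fintype.card P) (h : P) :
    genu (A.atoms ψ) h = (A.atoms ψ).filter (fun R => h ∉ R.1) ∧ OConn (genu (A.atoms ψ) h) ∧
      Dom (A.atoms ψ) ((genu (A.atoms ψ) h).sup id) := by
  have dg : ∀ {b}, A.ty b = false → A.DigAt ψ b := fun hb => Dip.digAt hc hd h16 hb
  have tn : ∀ {b}, A.ty b = false → A.ty (A.nx ψ b) = false := fun hb => by rw [Dip.ty_nx hc, hb]
  have ta : ∀ {b}, A.ty b = false → A.ty (A.al ψ b) = false := fun hb => by rw [Dip.ty_al hc, hb]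
  have nn : ∀ b, A.nx ψ (A.nx ψ b) = b := fun b => (Dip.dip_nx hd b).1
  have aa : ∀ {b}, A.ty b = false → A.al ψ (A.al ψ b) = b := fun hb => Dip.al_al hc hb
  have hat : ∀ R, R ∈ A.atoms ψ ↔ ∃ b, A.ty b = false ∧ R = A.rDig ψ b := by
    intro R
    rw [atoms, mem_filter, dipole_atoms hc hd h16]
    constructor
    · rintro ⟨-, b, hb, rfl⟩
      exact ⟨b, hb.1, rfl⟩
    · rintro ⟨b, hb, rfl⟩
      exact ⟨mem_univ _, b, dg hb, rfl⟩
  have hpre : ∀ {b}, A.ty b = false → A.Pre ψ (A.rDig ψ b) := fun hb => (Dip.dig_reg hc (dg hb)).1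
  have hrn : ∀ {b}, A.ty b = false → A.rDig ψ (A.nx ψ b) = A.rDig ψ b := fun hb =>
    (Dip.spec hc (dg hb)).2.2.2.2.2.2.2.2.1
  have hov : ∀ {b c d}, A.ty b = false → A.ty c = false → d ∈ (A.rDig ψ b).1 →
      d ∈ (A.rDig ψ c).1 → Ov (A.rDig ψ b) (A.rDig ψ c) := fun _ _ h1 h2 hdj =>
    disjoint_left.1 hdj h1 h2
  have hgen : genu (A.atoms ψ) h = (A.atoms ψ).filter (fun R => h ∉ R.1) := by
    refine filter_congr fun S hS => ⟨fun hh => hh.1, fun hh => ⟨hh, ?_⟩⟩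
    obtain ⟨b, hb, rfl⟩ := (hat S).1 hS
    obtain ⟨c, hcB, hcn⟩ := Dip.exists_B_not hc h16 (W := {b, A.nx ψ b, A.al ψ b,
      A.al ψ (A.nx ψ b), A.nx ψ (A.al ψ b), A.nx ψ (A.al ψ (A.nx ψ b))})
      (card_le_six.trans (by norm_num))
    refine ⟨_, (hat _).2 ⟨c, hcB, rfl⟩, fun ho => hcn ?_⟩
    obtain ⟨p, p1, p2⟩ := not_disjoint_iff.1 ho
    obtain ⟨q, hq, hqB, -⟩ := Dip.EC.exists_B hc (V := (A.rDig ψ b).1 ∩ (A.rDig ψ c).1)
      (fun p hp => mem_inter.2 ⟨(hpre hb).1 p (mem_inter.1 hp).1, (hpre hcB).1 p (mem_inter.1 hp).2⟩)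
      (mem_inter.2 ⟨p1, p2⟩)
    obtain ⟨q1, q2⟩ := mem_inter.1 hq
    have hec := Dip.ec_dig hc ⟨b, dg hb, rfl⟩
    have k : c ∈ (A.rDig ψ b).1 ∨ A.nx ψ c ∈ (A.rDig ψ b).1 := by
      rcases (Dip.mem_fst hc (dg hcB) hqB).1 q2 with rfl | rfl | rfl | rfl
      · exact Or.inl q1
      · exact Or.inr q1
      · exact Or.inl (aa hcB ▸ hec.al hc q1 hqB)
      · exact Or.inr (aa (tn hcB) ▸ hec.al hc q1 hqB)
    simp only [mem_insert, mem_singleton]
    rcases k with k | k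
    · have := (Dip.mem_fst hc (dg hb) hcB).1 k
      tauto
    · rcases (Dip.mem_fst hc (dg hb) (tn hcB)).1 k with e | e | e | e
      · exact Or.inr (Or.inl (by rw [← e, nn]))
      · exact Or.inl (Dip.nx_inj e)
      · exact Or.inr (Or.inr (Or.inr (Or.inr (Or.inl (by rw [← e, nn])))))
      · exact Or.inr (Or.inr (Or.inr (Or.inr (Or.inr (by rw [← e, nn])))))
  rw [hgen]
  obtain ⟨g, -, hg, hgh⟩ := Dip.EC.exists_B hc (V := univ) (fun _ _ => mem_univ _) (mem_univ h)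
  set H : Finset P := {g, A.al ψ g, A.nx ψ g, A.nx ψ (A.al ψ g)} with hH
  have mH : ∀ b, b ∈ H ↔ b = g ∨ b = A.al ψ g ∨ b = A.nx ψ g ∨ b = A.nx ψ (A.al ψ g) := by
    intro b; simp [hH]
  have hHn : ∀ b, A.nx ψ b ∈ H ↔ b ∈ H := by
    have : ∀ b ∈ H, A.nx ψ b ∈ H := by
      intro b hb
      rw [mH] at hb ⊢
      rcases hb with rfl | rfl | rfl | rfl <;> simp [nn]
    exact fun b => ⟨fun hb => nn b ▸ this _ hb, this b⟩
  have hHB : ∀ b ∈ H, A.ty b = false := by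
    intro b hb
    rcases (mH b).1 hb with rfl | rfl | rfl | rfl
    exacts [hg, ta hg, tn hg, tn (ta hg)]
  have hroot : ∀ {b}, A.ty b = false → (h ∈ (A.rDig ψ b).1 ↔ b ∈ H) := by
    intro b hb
    have e1 : h ∈ (A.rDig ψ b).1 ↔ g ∈ (A.rDig ψ b).1 := by
      rcases hgh with rfl | rfl
      exacts [Iff.rfl, ((hpre hb).mem_iff h).symm]
    rw [e1, Dip.mem_fst hc (dg hb) hg, mH]
    constructor
    · rintro (rfl | rfl | rfl | rfl) <;> simp [nn, aa hb, aa (tn hb)]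
    · rintro (rfl | rfl | rfl | rfl) <;> simp [nn, aa hg]
  have mF : ∀ {b}, A.ty b = false → b ∉ H →
      A.rDig ψ b ∈ (A.atoms ψ).filter (fun R => h ∉ R.1) := fun hb hn =>
    mem_filter.2 ⟨(hat _).2 ⟨_, hb, rfl⟩, fun hh => hn ((hroot hb).1 hh)⟩
  have hna := fun {b} (hb : A.ty b = false) => Dip.nx_ne_al hc hd h16 hb
  have hnn := fun b => (Dip.dip_nx hd b).2
  have hx : A.al ψ (A.nx ψ g) ≠ A.nx ψ (A.al ψ g) := by
    intro e
    obtain ⟨c, hcB, hn⟩ := Dip.exists_B_not hc h16 (W := H) (card_le_four.trans (by norm_num))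
    refine hn (Dip.all_B hc (b := g) hHB ?_ (fun b hb => (hHn b).2 hb) ((mH g).2 (Or.inl rfl)) hcB)
    intro b hb
    rw [mH] at hb ⊢
    rcases hb with rfl | rfl | rfl | rfl
    · simp
    · simp [aa hg]
    · simp [e]
    · rw [← e, aa (tn hg)]; simp
  have hu : A.al ψ (A.nx ψ g) ∉ H := by
    rw [mH]
    rintro (e | e | e | e)
    · exact hna hg (by rw [← aa (tn hg), e])
    · exact hnn g (Dip.al_inj e)
    · exact Dip.al_ne hc (tn hg) e
    · exact hx e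
  have hv : A.al ψ (A.nx ψ (A.al ψ g)) ∉ H := by
    rw [mH]
    rintro (e | e | e | e)
    · exact hnn (A.al ψ g) (by rw [← aa (tn (ta hg)), e])
    · exact hna (ta hg) (by rw [Dip.al_inj e, aa hg])
    · exact hx (by rw [← e, aa (tn (ta hg))])
    · exact Dip.al_ne hc (tn (ta hg)) e
  have m1 : ∀ {b}, A.ty b = false → b ∈ (A.rDig ψ b).1 := fun hb =>
    (Dip.mem_fst hc (dg hb) hb).2 (Or.inl rfl)
  have m4 : ∀ {b}, A.ty b = false → A.al ψ (A.nx ψ b) ∈ (A.rDig ψ b).1 := fun hb =>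
    (Dip.mem_fst hc (dg hb) (ta (tn hb))).2 (Or.inr (Or.inr (Or.inr rfl)))
  refine ⟨rfl, ⟨⟨_, mF (ta (tn hg)) hu⟩, ?_⟩, ?_⟩
  · set F := (A.atoms ψ).filter (fun R => h ∉ R.1) with hF
    set W : Finset P := univ.filter fun b => A.ty b = false ∧ b ∉ H ∧
      Relation.EqvGen (fun X Y => X ∈ F ∧ Y ∈ F ∧ Ov X Y) (A.rDig ψ (A.al ψ (A.nx ψ g)))
        (A.rDig ψ b) with hW
    have mW : ∀ b, b ∈ W ↔ A.ty b = false ∧ b ∉ H ∧
      Relation.EqvGen (fun X Y => X ∈ F ∧ Y ∈ F ∧ Ov X Y) (A.rDig ψ (A.al ψ (A.nx ψ g)))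
        (A.rDig ψ b) := by
      intro b; simp [hW]
    have w1 : ∀ b ∈ W, A.nx ψ b ∈ W := by
      intro b hb
      rw [mW] at hb ⊢
      exact ⟨tn hb.1, fun hn => hb.2.1 ((hHn b).1 hn), by rw [hrn hb.1]; exact hb.2.2⟩
    have w2 : ∀ b ∈ W, A.al ψ b ∉ H → A.al ψ b ∈ W := by
      intro b hb hn
      rw [mW] at hb ⊢
      refine ⟨ta hb.1, hn, hb.2.2.trans _ _ _ (.rel _ _ ⟨mF hb.1 hb.2.1, mF (ta hb.1) hn, ?_⟩)⟩
      exact hov hb.1 (ta hb.1) ((Dip.mem_fst hc (dg hb.1) (ta hb.1)).2 (Or.inr (Or.inr (Or.inl rfl))))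
        (m1 (ta hb.1))
    have w3 : A.al ψ (A.nx ψ g) ∈ W := (mW _).2 ⟨ta (tn hg), hu, .refl _⟩
    have w4 : A.al ψ (A.nx ψ (A.al ψ g)) ∈ W := by
      by_contra hvW
      have p1 := two_mul_cin ((A.π * ψ) * (A.π * ψ)) (I := W) w1 (fun p _ => nn p)
        (fun p _ => hnn p)
      have p2 := two_mul_cin (A.π * ψ * A.π) (I := W.erase (A.al ψ (A.nx ψ g))) ?_
        (fun p hp => aa ((mW p).1 (mem_of_mem_erase hp)).1)
        (fun p hp => Dip.al_ne hc ((mW p).1 (mem_of_mem_erase hp)).1)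
      · have p3 := card_erase_add_one w3
        omega
      · intro p hp
        obtain ⟨hp1, hp2⟩ := mem_erase.1 hp
        obtain ⟨r1, r2, -⟩ := (mW p).1 hp2
        have e0 : p = A.al ψ (A.al ψ p) := (aa r1).symm
        refine mem_erase.2 ⟨fun e => r2 ?_, w2 p hp2 fun hn => ?_⟩
        · rw [Dip.al_inj (A := A) (ψ := ψ) e]
          exact (mH _).2 (Or.inr (Or.inr (Or.inl rfl)))
        · rcases (mH _).1 hn with e | e | e | e
          · rw [e] at e0
            exact r2 ((mH _).2 (Or.inr (Or.inl e0)))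
          · exact r2 ((mH _).2 (Or.inl (Dip.al_inj e)))
          · rw [e] at e0
            exact hp1 e0
          · rw [e] at e0
            exact hvW (e0 ▸ hp2)
    have hall : ∀ c, A.ty c = false → c ∈ W ∪ H := by
      intro c hcB
      refine Dip.all_B hc (b := g) ?_ ?_ ?_ (mem_union_right _ ((mH g).2 (Or.inl rfl))) hcB
      all_goals
        intro q hq
        rcases mem_union.1 hq with hq | hq
      · exact ((mW q).1 hq).1
      · exact hHB q hq
      · by_cases hn : A.al ψ q ∈ H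
        exacts [mem_union_right _ hn, mem_union_left _ (w2 q hq hn)]
      · rcases (mH q).1 hq with rfl | rfl | rfl | rfl
        · exact mem_union_right _ ((mH _).2 (Or.inr (Or.inl rfl)))
        · exact mem_union_right _ ((mH _).2 (Or.inl (aa hg)))
        · exact mem_union_left _ w3
        · exact mem_union_left _ w4
      · exact mem_union_left _ (w1 q hq)
      · exact mem_union_right _ ((hHn q).2 hq)
    have key : ∀ R ∈ F, Relation.EqvGen (fun X Y => X ∈ F ∧ Y ∈ F ∧ Ov X Y)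
        (A.rDig ψ (A.al ψ (A.nx ψ g))) R := by
      intro R hR
      obtain ⟨r1, r2⟩ := mem_filter.1 hR
      obtain ⟨b, hb, rfl⟩ := (hat R).1 r1
      rcases mem_union.1 (hall b hb) with hq | hq
      · exact ((mW b).1 hq).2.2
      · exact absurd ((hroot hb).2 hq) r2
    exact fun R hR S hS => ((key R hR).symm _ _).trans _ _ _ (key S hS)
  · intro S hS
    obtain ⟨b, hb, rfl⟩ := (hat S).1 hS
    rw [ov_sup_iff]
    by_cases hbH : b ∈ H
    · rcases (mH b).1 hbH with rfl | rfl | rfl | rfl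
      · exact ⟨_, mF (ta (tn hb)) hu, hov hb (ta (tn hb)) (m4 hb) (m1 (ta (tn hb)))⟩
      · exact ⟨_, mF (ta (tn hb)) hv, hov hb (ta (tn hb)) (m4 hb) (m1 (ta (tn hb)))⟩
      · rw [hrn hg]
        exact ⟨_, mF (ta hb) hu, hov hg (ta hb) (m4 hg) (m1 (ta hb))⟩
      · rw [hrn (ta hg)]
        exact ⟨_, mF (ta hb) hv, hov (ta hg) (ta hb) (m4 (ta hg)) (m1 (ta hb))⟩
    · exact ⟨_, mF hb hbH, hov hb hb (m1 hb) (m1 hb)⟩

end Amb

end Pool.Agent.P.MP_48bde8_co
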