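import Pool.Agent.P.MP_48bde8_co.EvalAux

/-! Task EVAL: evaluation of the 22 equations; scaling. -/

namespace Pool.Agent.P.MP_48bde8_co

open MvPolynomial

variable {R : Type} [CommRing R]

namespace EvalAux

theorem eval_node {R' : Type} [CommRing R'] (ψ : Rw →+* R') (P : Fin 22 → R') (i : Fin 6) :
    eval₂ ψ P (node i) = curveAt (ψ (Polynomial.C (X 0))) (ψ (Polynomial.C (X 1))) 1
      (fun j => P ⟨j, by omega⟩) (P ⟨10 + i, by omega⟩) (P ⟨16 + i, by omega⟩) := by
  have := map_curveAt (eval₂Hom ψ P) xx zz 1 th (X ⟨10 + i, by omega⟩) (X ⟨16 + i, by omega⟩)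
  simp only [coe_eval₂Hom, xx, zz, th, eval₂_C, eval₂_X, eval₂_one] at this
  exact this

theorem eval_rel (ψ : Rw →+* R) (P : Fin 22 → R) (j : Fin 4) :
    eval₂ ψ P (relAt xx zz 1 th j) = relAt (ψ (Polynomial.C (X 0))) (ψ (Polynomial.C (X 1))) 1
      (fun j => P ⟨j, by omega⟩) j := by
  have := map_relAt (eval₂Hom ψ P) xx zz 1 th j
  simp only [coe_eval₂Hom, xx, zz, th, eval₂_C, eval₂_X, eval₂_one] at this
  exact this

theorem dnZero {a b : R} : dn a b = 0 ↔ a = 0 ∧ b = 0 := by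
  constructor
  · intro h
    have h1 := congrArg TrivSqZeroExt.fst h
    have h2 := congrArg TrivSqZeroExt.snd h
    simp only [fst_dn, snd_dn, TrivSqZeroExt.fst_zero, TrivSqZeroExt.snd_zero] at h1 h2
    exact ⟨h1, h2⟩
  · rintro ⟨rfl, rfl⟩
    rw [dn_zero, map_zero]

theorem singNode (ψ : Rw →+* R) (P : Fin 22 → R) (i : Fin 6) :
    Sing (ψ (Polynomial.C (X 0))) (ψ (Polynomial.C (X 1))) 1 (fun j => P ⟨j, by omega⟩)
      (P ⟨10 + i, by omega⟩) (P ⟨16 + i, by omega⟩) ↔
    eval₂ ψ P (node i) = 0 ∧ eval₂ ψ P (pderiv ⟨10 + i, by omega⟩ (node i)) = 0 ∧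
      eval₂ ψ P (pderiv ⟨16 + i, by omega⟩ (node i)) = 0 := by
  set k1 : Fin 22 := ⟨10 + i, by omega⟩ with hk1
  set k2 : Fin 22 := ⟨16 + i, by omega⟩ with hk2
  have hne : k1 ≠ k2 := by
    intro h
    have := congrArg Fin.val h
    simp only [hk1, hk2] at this
    omega
  have key : ∀ a b : R, curveAt (inD (ψ (Polynomial.C (X 0)))) (inD (ψ (Polynomial.C (X 1))))
      (inD 1) (fun j : Fin 10 => inD (P ⟨j, by omega⟩)) (dn (P k1) a) (dn (P k2) b) =
      dn (eval₂ ψ P (node i))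
        (eval₂ ψ P (pderiv k1 (node i)) * a + eval₂ ψ P (pderiv k2 (node i)) * b) := by
    intro a b
    let c : Fin 22 → R := Pi.single k1 a + Pi.single k2 b
    have hc1 : c k1 = a := by simp [c, hne]
    have hc2 : c k2 = b := by simp [c, hne.symm]
    have hc0 : ∀ j : Fin 10, c ⟨j, by omega⟩ = 0 := by
      intro j
      have h1 : (⟨j, by omega⟩ : Fin 22) ≠ k1 := by
        intro h
        have := congrArg Fin.val h
        simp only [hk1] at this
        omega
      have h2 : (⟨j, by omega⟩ : Fin 22) ≠ k2 := by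
        intro h
        have := congrArg Fin.val h
        simp only [hk2] at this
        omega
      simp [c, h1, h2]
    have h1 := eval₂_dn ψ (node i) P c
    rw [eval_node] at h1
    simp only [← hk1, ← hk2, hc1, hc2, hc0, dn_zero, RingHom.comp_apply] at h1
    rw [map_one, h1]
    refine congrArg (dn _) ?_
    simp only [c, Pi.add_apply, mul_add, Finset.sum_add_distrib, Pi.single_apply, mul_ite,
      mul_zero, Finset.sum_ite_eq', Finset.mem_univ, if_true]
  unfold Sing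
  simp only [key, dnZero]
  constructor
  · intro h
    refine ⟨(h 0 0).1, ?_, ?_⟩
    · simpa using (h 1 0).2
    · simpa using (h 0 1).2
  · rintro ⟨h0, h1, h2⟩ a b
    simp [h0, h1, h2]

end EvalAux

open EvalAux

theorem eval_eqn (ψ : Rw →+* R) (P : Fin 22 → R) :
    (∀ j, eval₂ ψ P (eqn j) = 0) ↔
      Sys (ψ (Polynomial.C (X 0))) (ψ (Polynomial.C (X 1))) 1 (fun j => P ⟨j, by omega⟩)
        (fun i => P ⟨10 + i, by omega⟩) (fun i => P ⟨16 + i, by omega⟩) := by
  have e1 : ∀ j : Fin 4, eqn ⟨j, by omega⟩ = relAt xx zz 1 th j := by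
    intro j
    unfold eqn
    rw [dif_pos j.2]
  have e2 : ∀ i : Fin 6, eqn ⟨4 + i, by omega⟩ = node i := by
    intro i
    unfold eqn
    rw [dif_neg (by simp), dif_pos (by simp only; omega)]
    exact congrArg node (Fin.ext (by simp))
  have e3 : ∀ i : Fin 6, eqn ⟨10 + i, by omega⟩ = pderiv ⟨10 + i, by omega⟩ (node i) := by
    intro i
    unfold eqn
    rw [dif_neg (by simp only; omega), dif_neg (by simp), dif_pos (by simp only; omega)]
    exact congrArg (fun n => pderiv _ (node n)) (Fin.ext (by simp))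
  have e4 : ∀ i : Fin 6, eqn ⟨16 + i, by omega⟩ = pderiv ⟨16 + i, by omega⟩ (node i) := by
    intro i
    unfold eqn
    rw [dif_neg (by simp only; omega), dif_neg (by simp only; omega), dif_neg (by simp)]
    exact congrArg (fun n => pderiv _ (node n)) (Fin.ext (by simp))
  unfold Sys
  simp only [singNode, ← eval_rel]
  constructor
  · intro h
    refine ⟨fun j => ?_, fun i => ⟨?_, ?_, ?_⟩⟩
    · rw [← e1]; exact h _
    · rw [← e2]; exact h _
    · rw [← e3]; exact h _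
    · rw [← e4]; exact h _
  · rintro ⟨h1, h2⟩ k
    by_cases c1 : k.val < 4
    · have := h1 ⟨k, c1⟩
      rwa [← e1] at this
    by_cases c2 : k.val < 10
    · have := (h2 ⟨k - 4, by omega⟩).1
      rw [← e2] at this
      have hk : k = ⟨4 + (k - 4), by omega⟩ := Fin.ext (by simp only; omega)
      rw [hk]
      exact this
    by_cases c3 : k.val < 16
    · have := (h2 ⟨k - 10, by omega⟩).2.1
      rw [← e3] at this
      have hk : k = ⟨10 + (k - 10), by omega⟩ := Fin.ext (by simp only; omega)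
      rw [hk]
      exact this
    · have := (h2 ⟨k - 16, by omega⟩).2.2
      rw [← e4] at this
      have hk : k = ⟨16 + (k - 16), by omega⟩ := Fin.ext (by simp only; omega)
      rw [hk]
      exact this

theorem eval_eqn0 (ψ : Rw →+* R) (P : Fin 22 → R) :
    eval₂ ψ P eqn0 = (1 + ψ (Polynomial.C (X 1))) * ψ Polynomial.X -
      out (ψ (Polynomial.C (X 0))) (ψ (Polynomial.C (X 1))) 1 (fun j => P ⟨j, by omega⟩) := by
  have := map_out (eval₂Hom ψ P) xx zz 1 th
  simp only [coe_eval₂Hom, xx, zz, th, eval₂_C, eval₂_X, eval₂_one] at this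
  rw [← this]
  simp only [eqn0, eval₂_sub, eval₂_mul, eval₂_add, eval₂_one, eval₂_C, zz, xx]

/-- Scaling weights of the ten unknowns. -/
def wts : Fin 10 → ℤ := ![-1, -1, -3, 0, -1, 1, -4, -2, 0, -5]

/-- The scaled unknowns. -/
def scl (e : Rˣ) (θ : Fin 10 → R) (j : Fin 10) : R := ((e ^ wts j : Rˣ) : R) * θ j

theorem EvalAux.sc_scl (e : Rˣ) (θ : Fin 10 → R) : Sc (e : R) θ (scl e θ) := by
  have key : ∀ (n : ℕ) (a : R), a = (e : R) ^ n * (((e ^ (-(n : ℤ)) : Rˣ) : R) * a) := by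
    intro n a
    rw [← mul_assoc, ← Units.val_pow_eq_pow_val, ← Units.val_mul]
    simp
  constructor
  · simp [scl, wts]
  · simp [scl, wts]
  · exact key 3 (θ 2)
  · simp [scl, wts]
  · simp [scl, wts]
  · simp [scl, wts]
  · exact key 4 (θ 6)
  · exact key 2 (θ 7)
  · simp [scl, wts]
  · exact key 5 (θ 9)

theorem sys_scl (e : Rˣ) (x z t : R) (θ : Fin 10 → R) (f s : Fin 6 → R) :
    Sys ((e : R) ^ 2 * x) ((e : R) ^ 2 * z) t (scl e θ) f (fun i => (e : R) ^ 2 * s i) ↔
      Sys x z (e * t) θ f s :=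
  sys_scl' e.isUnit (sc_scl e θ) x z t f s

theorem out_scl (e : Rˣ) (x z t : R) (θ : Fin 10 → R) :
    out ((e : R) ^ 2 * x) ((e : R) ^ 2 * z) t (scl e θ) = (e : R) ^ 4 * out x z (e * t) θ := by
  obtain ⟨h0, h1, h2, h3, h4, h5, h6, h7, h8, h9⟩ := sc_scl e θ
  exact out_scl' _ x z t θ _ h0 h1 h2 h3 h4 h6 h7

theorem rigid_scl (e : Rˣ) {x z t : R} {θ : Fin 10 → R} {f s : Fin 6 → R}
    (h : Rigid x z (e * t) θ f s) :
    Rigid ((e : R) ^ 2 * x) ((e : R) ^ 2 * z) t (scl e θ) f (fun i => (e : R) ^ 2 * s i) := by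
  intro θ' f' s' H
  let e2 : Rˣ := e ^ 2
  let θ'' : Fin 10 → R := fun j => ((e ^ (-wts j) : Rˣ) : R) * θ' j
  have hθ : scl e θ'' = θ' := by
    funext j
    simp only [scl, θ'']
    rw [← mul_assoc, ← Units.val_mul]
    simp
  let s'' : Fin 6 → R := fun i => ((e2⁻¹ : Rˣ) : R) * s' i
  have hs : ∀ i, s' i = (e : R) ^ 2 * s'' i := by
    intro i
    simp only [s'', e2]
    rw [← mul_assoc, ← Units.val_pow_eq_pow_val, ← Units.val_mul]
    simp
  have hsc : Sc (inD (e : R)) (fun j => dn (θ j) (θ'' j)) (fun j => dn (scl e θ j) (θ' j)) := by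
    obtain ⟨h0, h1, h2, h3, h4, h5, h6, h7, h8, h9⟩ := sc_scl e θ
    obtain ⟨g0, g1, g2, g3, g4, g5, g6, g7, g8, g9⟩ := sc_scl e θ''
    rw [hθ] at g0 g1 g2 g3 g4 g5 g6 g7 g8 g9
    constructor <;> (try simp only [← map_pow, inD_mul_dn]) <;> congr 1
  have H2 := (sys_scl' (e.isUnit.map inD) hsc (inD x) (inD z) (inD t) (fun i => dn (f i) (f' i))
    (fun i => dn (s i) (s'' i))).1 (by
      simp only [← map_pow, inD_mul_dn, ← map_mul, ← hs]
      exact H)
  rw [← map_mul] at H2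
  obtain ⟨r1, r2, r3⟩ := h θ'' f' s'' H2
  refine ⟨?_, r2, ?_⟩
  · rw [← hθ, r1]
    funext j
    simp [scl]
  · funext i
    rw [hs, r3]
    simp

end Pool.Agent.P.MP_48bde8_co
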