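import Pool.Agent.P.MP_48bde8_co.Maps

/-! Auxiliary scaling identities for task EVAL. -/

namespace Pool.Agent.P.MP_48bde8_co.EvalAux

variable {R : Type} [CommRing R]

/-- Weights of the nine moments. -/
def wm : Fin 9 → ℕ := ![3, 4, 4, 5, 6, 5, 6, 7, 8]

/-- Weights of the four relations. -/
def wr : Fin 4 → ℕ := ![3, 4, 5, 4]

/-- Weights of the five coefficients. -/
def wc : Fin 5 → ℕ := ![1, 4, 6, 0, 2]

theorem mom0_scl (E x z t : R) :
    mom0 (E ^ 2 * x) (E ^ 2 * z) t = fun i => E ^ wm i * mom0 x z (E * t) i := by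
  funext i
  fin_cases i <;> simp [mom0, wm] <;> ring

theorem shear_scl (E l : R) (b : Fin 9 → R) :
    shear l (fun i => E ^ wm i * b i) = fun i => E ^ wm i * shear (E * l) b i := by
  funext i
  fin_cases i <;> simp [shear, wm] <;> ring

theorem rel_scl (E x z a c p q u d r v : R) (μ : Fin 9 → R) (j : Fin 4) :
    rel (E ^ 2 * x) (E ^ 2 * z) a c p q (E * u) d r v (fun i => E ^ wm i * μ i) j =
      E ^ wr j * rel x z (E * a) (E ^ 3 * c) p (E * q) u (E ^ 4 * d) (E ^ 2 * r) v μ j := by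
  fin_cases j <;> simp [rel, wm, wr] <;> ring

theorem coef_scl (E x z a c p q d r v : R) (μ : Fin 9 → R) :
    coef x z (E * a) (E ^ 3 * c) p (E * q) (E ^ 4 * d) (E ^ 2 * r) v μ =
      fun j => E ^ wc j *
        coef (E ^ 2 * x) (E ^ 2 * z) a c p q d r v (fun i => E ^ wm i * μ i) j := by
  funext j
  fin_cases j <;> simp [coef, wm, wc] <;> ring

theorem curve_scl (E x z a c p q u d r v κ : R) (k : Fin 5 → R) (f s : R) :
    curve x z (E * a) (E ^ 3 * c) p (E * q) u (E ^ 4 * d) (E ^ 2 * r) v (E ^ 5 * κ)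
      (fun j => E ^ wc j * k j) f s =
      E ^ 7 * curve (E ^ 2 * x) (E ^ 2 * z) a c p q (E * u) d r v κ k f (E ^ 2 * s) := by
  have h0 : wc 0 = 1 := rfl
  have h1 : wc 1 = 4 := rfl
  have h2 : wc 2 = 6 := rfl
  have h3 : wc 3 = 0 := rfl
  have h4 : wc 4 = 2 := rfl
  simp only [curve, h0, h1, h2, h3, h4]
  have hL : E * q + 2 * (E ^ 3 * c) * s = E * (q + 2 * c * (E ^ 2 * s)) := by ring
  have hw : E * q + (E ^ 3 * c) * s = E * (q + c * (E ^ 2 * s)) := by ring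
  have hY : f - (E ^ 4 * d * s ^ 2 + E ^ 2 * r * s + v) =
      f - (d * (E ^ 2 * s) ^ 2 + r * (E ^ 2 * s) + v) := by ring
  have hρ : E * a * (E ^ 3 * c) * (E ^ 2 * r) - E * a * (E ^ 4 * d) * (E * q) -
      (E ^ 3 * c) ^ 2 * p = E ^ 6 * (a * c * r - a * d * q - c ^ 2 * p) := by ring
  rw [hL, hw, hY, hρ]
  generalize q + 2 * c * (E ^ 2 * s) = L
  generalize q + c * (E ^ 2 * s) = w
  generalize f - (d * (E ^ 2 * s) ^ 2 + r * (E ^ 2 * s) + v) = Y
  generalize a * c * r - a * d * q - c ^ 2 * p = ρ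
  ring

theorem out_scl' (E x z t : R) (θ y : Fin 10 → R) (h0 : θ 0 = E * y 0) (h1 : θ 1 = E * y 1)
    (h2 : θ 2 = E ^ 3 * y 2) (h3 : θ 3 = y 3) (h4 : θ 4 = E * y 4) (h6 : θ 6 = E ^ 4 * y 6)
    (h7 : θ 7 = E ^ 2 * y 7) :
    out (E ^ 2 * x) (E ^ 2 * z) t y = E ^ 4 * out x z (E * t) θ := by
  simp only [out, h0, h1, h2, h3, h4, h6, h7]
  ring

/-- The relation between the unknowns `θ` and the scaled unknowns `y`. -/
structure Sc (E : R) (θ y : Fin 10 → R) : Prop where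
  h0 : θ 0 = E * y 0
  h1 : θ 1 = E * y 1
  h2 : θ 2 = E ^ 3 * y 2
  h3 : θ 3 = y 3
  h4 : θ 4 = E * y 4
  h5 : y 5 = E * θ 5
  h6 : θ 6 = E ^ 4 * y 6
  h7 : θ 7 = E ^ 2 * y 7
  h8 : θ 8 = y 8
  h9 : θ 9 = E ^ 5 * y 9

theorem Sc.map {R' : Type} [CommRing R'] (ψ : R →+* R') {E : R} {θ y : Fin 10 → R}
    (h : Sc E θ y) : Sc (ψ E) (fun j => ψ (θ j)) (fun j => ψ (y j)) := by
  obtain ⟨h0, h1, h2, h3, h4, h5, h6, h7, h8, h9⟩ := h
  constructor <;> simp [*]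

theorem relAt_scl {E : R} {θ y : Fin 10 → R} (h : Sc E θ y) (x z t : R) (j : Fin 4) :
    relAt (E ^ 2 * x) (E ^ 2 * z) t y j = E ^ wr j * relAt x z (E * t) θ j := by
  obtain ⟨h0, h1, h2, h3, h4, h5, h6, h7, h8, h9⟩ := h
  simp only [relAt]
  rw [mom0_scl, shear_scl, h5, rel_scl, h0, h1, h2, h3, h4, h6, h7, h8]

theorem curveAt_scl {E : R} {θ y : Fin 10 → R} (h : Sc E θ y) (x z t f s : R) :
    curveAt x z (E * t) θ f s = E ^ 7 * curveAt (E ^ 2 * x) (E ^ 2 * z) t y f (E ^ 2 * s) := by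
  obtain ⟨h0, h1, h2, h3, h4, h5, h6, h7, h8, h9⟩ := h
  simp only [curveAt]
  rw [mom0_scl, shear_scl, h5, ← curve_scl, ← coef_scl, h0, h1, h2, h3, h4, h6, h7, h8, h9]

theorem inD_mul_dn (c a b : R) : inD c * dn a b = dn (c * a) (c * b) := by
  rw [← dn_zero]
  refine TrivSqZeroExt.ext ?_ ?_
  · simp
  · simp

theorem sing_scl {E : R} (hE : IsUnit E) {θ y : Fin 10 → R} (h : Sc E θ y) (x z t f s : R) :
    Sing (E ^ 2 * x) (E ^ 2 * z) t y f (E ^ 2 * s) ↔ Sing x z (E * t) θ f s := by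
  have hD := h.map inD
  have hu : IsUnit ((inD E) ^ 7) := (hE.map inD).pow 7
  have key : ∀ a b : R, curveAt (inD x) (inD z) (inD (E * t)) (fun j => inD (θ j)) (dn f a)
      (dn s b) = inD E ^ 7 * curveAt (inD (E ^ 2 * x)) (inD (E ^ 2 * z)) (inD t)
        (fun j => inD (y j)) (dn f a) (dn (E ^ 2 * s) (E ^ 2 * b)) := by
    intro a b
    rw [map_mul, curveAt_scl hD, ← inD_mul_dn, map_mul, map_mul, map_pow]
  constructor
  · intro H a b
    rw [key, H, mul_zero]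
  · intro H a b
    obtain ⟨b', rfl⟩ : ∃ b', b = E ^ 2 * b' := by
      obtain ⟨u, hu⟩ := hE.pow 2
      exact ⟨(u⁻¹ : Rˣ) * b, by rw [← hu]; simp⟩
    have := H a b'
    rw [key] at this
    exact (hu.mul_right_eq_zero).1 this

theorem sys_scl' {E : R} (hE : IsUnit E) {θ y : Fin 10 → R} (h : Sc E θ y) (x z t : R)
    (f s : Fin 6 → R) :
    Sys (E ^ 2 * x) (E ^ 2 * z) t y f (fun i => E ^ 2 * s i) ↔ Sys x z (E * t) θ f s := by
  unfold Sys
  refine and_congr (forall_congr' fun j => ?_) (forall_congr' fun i => sing_scl hE h x z t _ _)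
  rw [relAt_scl h]
  exact (hE.pow _).mul_right_eq_zero

end Pool.Agent.P.MP_48bde8_co.EvalAux
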