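import Pool.Agent.P.MP_48bde8_co.Maps

/-! Task HESS: a node with a smooth branch and a simple zero of the derivative. -/

namespace Pool.Agent.P.MP_48bde8_co

variable {L : Type} [Field L]

namespace HessA

open MvPolynomial

theorem pderiv_comm (i j : Fin 2) (p : MvPolynomial (Fin 2) L) :
    pderiv i (pderiv j p) = pderiv j (pderiv i p) := by
  induction p using MvPolynomial.induction_on with
  | C a => simp
  | add p q hp hq => simp only [map_add, hp, hq]
  | mul_X p n hp =>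
    simp only [Derivation.leibniz, pderiv_X, smul_eq_mul, map_add, hp, Pi.single_apply]
    split_ifs <;> simp <;> ring

/-- first order formula over the field -/
theorem ev1 (p : MvPolynomial (Fin 2) L) (a0 b0 a1 b1 : L) :
    eval₂ inD ![dn a0 b0, dn a1 b1] p =
      dn (eval ![a0, a1] p) (eval ![a0, a1] (pderiv 0 p) * b0 + eval ![a0, a1] (pderiv 1 p) * b1) := by
  have h := eval₂_dn (RingHom.id L) p ![a0, a1] ![b0, b1]
  rw [RingHom.comp_id, Fin.sum_univ_two] at h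
  have e : (fun i => dn (![a0, a1] i) (![b0, b1] i)) = ![dn a0 b0, dn a1 b1] := by
    funext i
    fin_cases i <;> rfl
  rw [e] at h
  exact h

/-- second order formula over the field -/
theorem ev2 (p : MvPolynomial (Fin 2) L) (A0 B0 A1 B1 : DualNumber L) :
    eval₂ (inD.comp inD) ![dn A0 B0, dn A1 B1] p =
      dn (eval₂ inD ![A0, A1] p)
        (eval₂ inD ![A0, A1] (pderiv 0 p) * B0 + eval₂ inD ![A0, A1] (pderiv 1 p) * B1) := by
  have h := eval₂_dn (inD : L →+* DualNumber L) p ![A0, A1] ![B0, B1]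
  rw [Fin.sum_univ_two] at h
  have e : (fun i => dn (![A0, A1] i) (![B0, B1] i)) = ![dn A0 B0, dn A1 B1] := by
    funext i
    fin_cases i <;> rfl
  rw [e] at h
  exact h

theorem lin {A B C p1 q1 p2 q2 v0 v1 : L} (h1 : A * v0 + B * v1 = 0) (h2 : B * v0 + C * v1 = 0)
    (h3 : (A * p1 + B * q1) * p2 + (B * p1 + C * q1) * q2 = 0) (h4 : A * p1 + B * q1 ≠ 0)
    (h5 : A * p2 + B * q2 ≠ 0) (h6 : q2 ≠ 0) : v0 = 0 ∧ v1 = 0 := by
  have e1 : (A * p1 + B * q1) * (v0 * q2 - v1 * p2) = 0 := by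
    linear_combination (p1 * q2) * h1 + (q1 * q2) * h2 - v1 * h3
  have e2 : v0 * q2 - v1 * p2 = 0 := (mul_eq_zero.1 e1).resolve_left h4
  have e3 : (A * p2 + B * q2) * v1 = 0 := by
    linear_combination q2 * h1 - A * e2
  have e4 : v1 = 0 := (mul_eq_zero.1 e3).resolve_left h5
  refine ⟨?_, e4⟩
  have e5 : v0 * q2 = 0 := by
    rw [e4] at e2
    simpa using e2
  exact (mul_eq_zero.1 e5).resolve_right h6

theorem main (E : MvPolynomial (Fin 2) L) (f0 f1 f2 f3 m0 m1 m2 m3 : L)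
    (h0 : eval₂ (inD.comp inD) ![dn (dn f0 f1) (dn f2 f3), dn (dn m0 m1) (dn m2 m3)] E = 0)
    (h1 : (eval₂ (inD.comp inD) ![dn (dn f0 f1) (dn f2 f3), dn (dn m0 m1) (dn m2 m3)]
      (pderiv 0 E)).fst.fst = 0)
    (h2 : (eval₂ (inD.comp inD) ![dn (dn f0 f1) (dn f2 f3), dn (dn m0 m1) (dn m2 m3)]
      (pderiv 0 E)).fst.snd ≠ 0)
    (h3 : (eval₂ (inD.comp inD) ![dn (dn f0 f1) (dn f2 f3), dn (dn m0 m1) (dn m2 m3)]
      (pderiv 0 E)).snd.fst ≠ 0)
    (h4 : m1 ≠ 0) (h5 : m2 ≠ 0) :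
    (∀ a b : L, eval₂ inD ![dn f0 a, dn m0 b] E = 0) ∧
    ∀ v0 v1 : L, (∀ a b : DualNumber L,
      eval₂ (inD.comp inD) ![dn (dn f0 v0) a, dn (dn m0 v1) b] E = 0) → v0 = 0 ∧ v1 = 0 := by
  rw [ev2, ev1, ev1, ev1] at h0 h1 h2 h3
  have g0 := congrArg (fun y : DualNumber (DualNumber L) => y.fst.fst) h0
  have g1 := congrArg (fun y : DualNumber (DualNumber L) => y.fst.snd) h0
  have g3 := congrArg (fun y : DualNumber (DualNumber L) => y.snd.snd) h0
  simp only [fst_dn, snd_dn, TrivSqZeroExt.fst_zero, TrivSqZeroExt.snd_zero, TrivSqZeroExt.snd_add,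
    TrivSqZeroExt.fst_add, TrivSqZeroExt.fst_mul, DualNumber.snd_mul] at g0 g1 g3 h1 h2 h3
  rw [pderiv_comm 0 1 E] at g3
  have hs : eval ![f0, m0] (pderiv 1 E) = 0 := by
    rw [h1, zero_mul, zero_add] at g1
    exact (mul_eq_zero.1 g1).resolve_right h4
  rw [h1, hs] at g3
  constructor
  · intro a b
    rw [ev1, g0, h1, hs, zero_mul, zero_mul, add_zero, dn_zero, map_zero]
  · intro v0 v1 h
    have k0 := congrArg (fun y : DualNumber (DualNumber L) => y.snd.snd) (h 1 0)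
    have k1 := congrArg (fun y : DualNumber (DualNumber L) => y.snd.snd) (h 0 1)
    simp only [ev2, ev1, snd_dn, TrivSqZeroExt.snd_zero, mul_one, mul_zero, add_zero,
      zero_add] at k0 k1
    rw [pderiv_comm 0 1 E] at k1
    exact lin k0 k1 (p1 := f1) (q1 := m1) (p2 := f2) (q2 := m2) (by linear_combination g3) h2 h3 h5

end HessA

theorem sing_nondeg {x z t : L} {θ : Fin 10 → L} {f m : DualNumber (DualNumber L)}
    (h0 : curveAt (inD (inD x)) (inD (inD z)) (inD (inD t)) (fun j => inD (inD (θ j))) f m = 0)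
    (h1 : (cFAt (inD (inD x)) (inD (inD z)) (inD (inD t)) (fun j => inD (inD (θ j))) f m).fst.fst
      = 0)
    (h2 : (cFAt (inD (inD x)) (inD (inD z)) (inD (inD t)) (fun j => inD (inD (θ j))) f m).fst.snd
      ≠ 0)
    (h3 : (cFAt (inD (inD x)) (inD (inD z)) (inD (inD t)) (fun j => inD (inD (θ j))) f m).snd.fst
      ≠ 0)
    (h4 : m.fst.snd ≠ 0) (h5 : m.snd.fst ≠ 0) :
    Sing x z t θ f.fst.fst m.fst.fst ∧ NonDeg x z t θ f.fst.fst m.fst.fst := by
  have hf : dn (dn f.fst.fst f.fst.snd) (dn f.snd.fst f.snd.snd) = f := by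
    rw [dn_fst_snd, dn_fst_snd, dn_fst_snd]
  have hm : dn (dn m.fst.fst m.fst.snd) (dn m.snd.fst m.snd.snd) = m := by
    rw [dn_fst_snd, dn_fst_snd, dn_fst_snd]
  have e0 := fun F S : DualNumber (DualNumber L) =>
    eval_Ecurve ((inD : DualNumber L →+* _).comp (inD : L →+* _)) x z t θ F S
  have e1 := fun F S : DualNumber (DualNumber L) =>
    eval_pderiv_Ecurve ((inD : DualNumber L →+* _).comp (inD : L →+* _)) x z t θ F S
  simp only [RingHom.comp_apply] at e0 e1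
  rw [← e0] at h0
  rw [← e1] at h1 h2 h3
  have h := HessA.main (Ecurve x z t θ) f.fst.fst f.fst.snd f.snd.fst f.snd.snd m.fst.fst m.fst.snd
    m.snd.fst m.snd.snd (by rw [hf, hm]; exact h0) (by rw [hf, hm]; exact h1)
    (by rw [hf, hm]; exact h2) (by rw [hf, hm]; exact h3) h4 h5
  constructor
  · intro a b
    rw [← eval_Ecurve]
    exact h.1 a b
  · intro v0 v1 hv
    apply h.2 v0 v1
    intro a b
    rw [e0]
    exact hv a b

end Pool.Agent.P.MP_48bde8_co
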