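import Pool.Agent.P.MP_48bde8_co.Filt

/-! Task NODEH: the derivative of the curve near the nodes. -/

namespace Pool.Agent.P.MP_48bde8_co

variable {Λ : Type} [CommRing Λ] {S : Subring Λ} {e : Λˣ} {sg si hf : Λ} {θ : Fin 10 → Λ}

namespace NodeHAux

section Calc

variable {n n' k : ℤ} {f g c c' : Λ}

theorem vm (he : (e : Λ) ∈ S) (h : VV S e n f) (h' : VV S e n' g) (hk : k ≤ n + n') :
    VV S e k (f * g) := (h.mul h').mono he hk

theorem va (he : (e : Λ) ∈ S) (h : VV S e n f) (h' : VV S e n' g) (h1 : k ≤ n) (h2 : k ≤ n') :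
    VV S e k (f + g) := (h.mono he h1).add (h'.mono he h2)

theorem vs (he : (e : Λ) ∈ S) (h : VV S e n f) (h' : VV S e n' g) (h1 : k ≤ n) (h2 : k ≤ n') :
    VV S e k (f - g) := (h.mono he h1).sub (h'.mono he h2)

theorem vp (he : (e : Λ) ∈ S) (h : VV S e n f) (j : ℕ) (hk : k ≤ j * n) : VV S e k (f ^ j) :=
  (h.pow j).mono he hk

theorem two_mem : (2 : Λ) ∈ S := by exact_mod_cast natCast_mem S 2

theorem four_mem : (4 : Λ) ∈ S := by exact_mod_cast natCast_mem S 4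

theorem v2 (h : VV S e n f) : VV S e n (2 * f) := by
  simpa using (VV.of_mem (e := e) (two_mem (S := S))).mul h

theorem v4 (h : VV S e n f) : VV S e n (4 * f) := by
  simpa using (VV.of_mem (e := e) (four_mem (S := S))).mul h

theorem lc (h : LT S e n c f) (hn : n = k) (hc : c = c') : LT S e k c' f := hn ▸ hc ▸ h

theorem lf (h : LT S e n c f) (hg : f = g) : LT S e n c g := hg ▸ h

theorem vf (h : VV S e n f) (hg : f = g) : VV S e n g := hg ▸ h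

theorem lav (he : (e : Λ) ∈ S) (h : LT S e n c f) (h' : VV S e n' g) (hn : n + 1 ≤ n') :
    LT S e n c (f + g) := h.add_vv (h'.mono he hn)

theorem vla (he : (e : Λ) ∈ S) (h' : VV S e n' g) (h : LT S e n c f) (hn : n + 1 ≤ n') :
    LT S e n c (g + f) := LT.vv_add (h'.mono he hn) h

theorem lsv (he : (e : Λ) ∈ S) (h : LT S e n c f) (h' : VV S e n' g) (hn : n + 1 ≤ n') :
    LT S e n c (f - g) := by
  rw [sub_eq_add_neg]; exact lav he h h'.neg hn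

theorem vsl (he : (e : Λ) ∈ S) (h' : VV S e n' g) (h : LT S e n c f) (hn : n + 1 ≤ n') :
    LT S e n (-c) (g - f) := by
  rw [sub_eq_add_neg]; exact vla he h' h.neg hn

theorem fin {F u ui δ d : Λ} (h : LT S e n (u * (δ - d)) F) (hui : ui ∈ S) (hu : u * ui = 1) :
    ∃ U : Λˣ, ∃ g ∈ S, F = U * (δ - d + e * g) := by
  obtain ⟨-, g, hg, hF⟩ := h
  refine ⟨e ^ n * Units.mkOfMulEqOne u ui hu, ui * g, mul_mem hui hg, ?_⟩
  rw [zpow_add_one, Units.val_mul] at hF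
  rw [Units.val_mul, Units.val_mkOfMulEqOne]
  linear_combination hF - ((e ^ n : Λˣ) : Λ) * e * g * hu

end Calc

/-- `L`. -/
def Lq (θ : Fin 10 → Λ) (m : Λ) : Λ := θ 4 + 2 * θ 2 * m

/-- `w`. -/
def wq (θ : Fin 10 → Λ) (m : Λ) : Λ := θ 4 + θ 2 * m

/-- `Y`. -/
def Yq (θ : Fin 10 → Λ) (f m : Λ) : Λ := f - (θ 6 * m ^ 2 + θ 7 * m + θ 8)

/-- `ρ`. -/
def rq (θ : Fin 10 → Λ) : Λ := θ 0 * θ 2 * θ 7 - θ 0 * θ 6 * θ 4 - θ 2 ^ 2 * θ 3

/-- `F₂`. -/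
def Fq (z : Λ) (θ : Fin 10 → Λ) (f m : Λ) : Λ :=
  θ 0 * θ 2 ^ 3 * (1 - z) - wq θ m * (θ 0 * θ 2 ^ 2 * f - rq θ * Lq θ m)

/-- `Q`. -/
def Qn (θ : Fin 10 → Λ) (f m : Λ) : Λ :=
  θ 0 * Yq θ f m ^ 2 + θ 3 * Lq θ m * Yq θ f m + (θ 2 * m ^ 2 + θ 4 * m + θ 5) * Lq θ m ^ 2

section Main

variable {m f c cm cY : Λ} {km kf kY kQ kF n : ℤ}

theorem hz (h : ParLT S e sg si hf θ) : VV S e 2 (-(sg ^ 2 * (e : Λ) ^ 2)) :=
  (vm h.he (VV.of_mem (pow_mem h.hsg 2)) (VV.unit.pow 2) (by norm_num)).neg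

theorem h1z (h : ParLT S e sg si hf θ) : LT S e 0 1 (1 - -(sg ^ 2 * (e : Λ) ^ 2)) :=
  lsv h.he (LT.of_mem (one_mem S)) (hz h) (by norm_num)

theorem hL (h : ParLT S e sg si hf θ) (hm : VV S e km m) (hk : -20 ≤ km) :
    LT S e 1 1 (Lq θ m) :=
  lav h.he h.hq ((v2 (h.hc.vv h.he)).mul hm) (by omega)

theorem hw (h : ParLT S e sg si hf θ) (hm : VV S e km m) (hk : -20 ≤ km) :
    LT S e 1 1 (wq θ m) :=
  lav h.he h.hq ((h.hc.vv h.he).mul hm) (by omega)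

theorem hrL (h : ParLT S e sg si hf θ) (hm : VV S e km m) (hk : -20 ≤ km) :
    LT S e 31 (-sg ^ 8) (rq θ * Lq θ m) :=
  lc (h.rho.1.mul h.he (hL h hm hk)) (by norm_num) (by ring)

theorem hF3 (h : ParLT S e sg si hf θ) :
    VV S e 84 (θ 0 * θ 2 ^ 3 * (1 - -(sg ^ 2 * (e : Λ) ^ 2))) :=
  vm h.he ((h.ha.vv h.he).mul ((h.hc.vv h.he).pow 3)) ((h1z h).vv h.he) (by norm_num)

theorem hF (h : ParLT S e sg si hf θ) (hm : VV S e km m) (hk : -20 ≤ km) (hv : VV S e kf f)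
    (hk' : -25 ≤ kf) : LT S e 32 (-sg ^ 8) (Fq (-(sg ^ 2 * (e : Λ) ^ 2)) θ f m) :=
  lc (vsl h.he (hF3 h) ((hw h hm hk).mul h.he
    (vsl h.he (((h.ha.vv h.he).mul ((h.hc.vv h.he).pow 2)).mul hv) (hrL h hm hk)
      (by push_cast; omega))) (by norm_num)) (by norm_num) (by ring)

theorem hT1 (h : ParLT S e sg si hf θ) (hY : LT S e kY cY (Yq θ f m)) :
    LT S e (3 + 2 * kY) (-cY ^ 2) (θ 0 * Yq θ f m ^ 2) :=
  lc (h.ha.mul h.he (hY.pow h.he 2)) (by push_cast; ring) (by ring)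

theorem hT2 (h : ParLT S e sg si hf θ) (hm : VV S e km m) (hk : -20 ≤ km)
    (hY : LT S e kY cY (Yq θ f m)) : LT S e (1 + kY) (-cY) (θ 3 * Lq θ m * Yq θ f m) :=
  lc ((h.hp.mul h.he (hL h hm hk)).mul h.he hY) (by ring) (by ring)

theorem hT3 (h : ParLT S e sg si hf θ) (hm : LT S e km cm m) (hk : -20 ≤ km) (hk' : km ≤ -1) :
    LT S e (km + 3) cm ((θ 2 * m ^ 2 + θ 4 * m + θ 5) * Lq θ m ^ 2) :=
  lc ((lav h.he (vla h.he ((h.hc.vv h.he).mul ((hm.vv h.he).pow 2)) (h.hq.mul h.he hm)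
    (by push_cast; omega)) (h.hu.vv h.he) (by omega)).mul h.he
    ((hL h (hm.vv h.he) hk).pow h.he 2)) (by push_cast; ring) (by ring)

theorem hT3' (h : ParLT S e sg si hf θ) (hm : VV S e km m) (hk : 0 ≤ km) :
    VV S e 3 ((θ 2 * m ^ 2 + θ 4 * m + θ 5) * Lq θ m ^ 2) :=
  vm h.he (n := 1) (va h.he (va h.he (k := 1) ((h.hc.vv h.he).mul (hm.pow 2))
    ((h.hq.vv h.he).mul hm) (by push_cast; omega) (by omega)) (h.hu.vv h.he) le_rfl le_rfl)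
    (((hL h hm (by omega)).vv h.he).pow 2) (by norm_num)

theorem key (h : ParLT S e sg si hf θ) {cF cQ : Λ} (hm : LT S e km cm m) (hk : -20 ≤ km)
    (hv : VV S e kf f) (hY : VV S e kY (Yq θ f m)) (hQ : LT S e kQ cQ (Qn θ f m))
    (hF1 : VV S e kF (m * f + (1 - -(sg ^ 2 * (e : Λ) ^ 2))))
    (hF2 : LT S e 32 cF (Fq (-(sg ^ 2 * (e : Λ) ^ 2)) θ f m))
    (hn : km + 32 + kQ = n) (hc : 4 * cm * cF * cQ = c)
    (a1 : n + 1 ≤ kF + 35 + kY) (a2 : n + 1 ≤ kF + 33) (a3 : n + 1 ≤ kF + 58 + kQ)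
    (a4 : n + 1 ≤ 43 + kf) (a5 : n + 1 ≤ 43 + km) (a6 : n + 1 ≤ 43 + kY) (a7 : n + 1 ≤ 37) :
    LT S e n c (cFAt 1 (-(sg ^ 2 * (e : Λ) ^ 2)) e θ f m) := by
  have he := h.he
  have ha := h.ha.vv he
  have hc' := h.hc.vv he
  have hq := h.hq.vv he
  have hm' := hm.vv he
  have hL' := (hL h hm' hk).vv he
  have hw' := (hw h hm' hk).vv he
  have hr : VV S e 30 (rq θ) := h.rho.1.vv he
  have k0 : VV S e 9 _ := h.coef 0
  have k1 : VV S e 32 _ := h.coef 1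
  have k3 : VV S e 8 _ := h.coef 3
  have k4 : VV S e 28 _ := h.coef 4
  have hZ : VV S e (min (3 + kY) 1) (2 * θ 0 * Yq θ f m + θ 3 * Lq θ m) :=
    va he ((v2 ha).mul hY) ((h.hp.vv he).mul hL') (by omega) (by omega)
  have hν : VV S e (km + 1) (m * wq θ m) := hm'.mul hw'
  have hξ : VV S e (min (30 + kf) (30 + km)) (θ 0 * θ 2 * f - rq θ * m) :=
    vs he ((ha.mul hc').mul hv) (hr.mul hm') (by omega) (by omega)
  have hg := vs he (k := 9) k0 (((v2 (h.rho.2.1.vv he)).mul (hz h)).mul hν) le_rfl (by omega)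
  have hM : VV S e (min (31 + kf) (min (31 + km) 57)) (θ 0 * θ 2 * θ 4 * f + rq θ * Lq θ m * m -
      2 * θ 0 * θ 2 ^ 2 * (1 - -(sg ^ 2 * (e : Λ) ^ 2))) :=
    vs he (va he (k := min (31 + kf) (31 + km)) (((ha.mul hc').mul hq).mul hv)
      ((hr.mul hL').mul hm') (by omega) (by omega))
      (((v2 ha).mul (hc'.pow 2)).mul ((h1z h).vv he)) (by omega) (by push_cast; omega)
  have r1 := vm he (k := n + 1) (v4 hF1) (vs he (k := min (32 + min (3 + kY) 1) (58 + kQ))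
    ((hF2.vv he).mul hZ) (((hw'.mul ha).mul (hc'.pow 2)).mul (hQ.vv he)) (by omega)
    (by push_cast; omega)) (by omega)
  have r2 := vm he (k := n + 1) hg (va he (k := n - 8) ((v2 ha).mul hM)
    (((hZ.mul ha).mul hc').mul hq) (by omega) (by omega)) (by omega)
  have r3 := vm he (k := n + 1) (hL'.pow 2) (va he (k := n - 1) (va he (k := n - 1)
    ((v2 ha).mul k1) (k3.mul (va he (k := n - 9) ((v2 ha).mul hξ) ((hZ.mul ha).mul hc')
      (by omega) (by omega))) (by omega) (by omega)) (((k4.mul hν).mul ha).mul hc') le_rfl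
    (by omega)) (by push_cast; omega)
  have r0 : LT S e n c (4 * m * Fq (-(sg ^ 2 * (e : Λ) ^ 2)) θ f m * Qn θ f m) :=
    lc ((((LT.of_mem four_mem).mul he hm).mul he hF2).mul he hQ) (by omega) hc
  exact r0.add_vv ((r1.add r2).add r3)

theorem prep (h : ParLT S e sg si hf θ) {ω y G : Λ} {kG : ℤ} (hy : y ∈ S) (hω : ω * y = 1)
    (hG : VV S e kG G) (hm : VV S e km (((e ^ km : Λˣ) : Λ) * ω)) (hk : -km + 1 ≤ kG)
    (hf' : ((e ^ km : Λˣ) : Λ) * ω * f =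
      -(((e ^ km : Λˣ) : Λ) * ω * G) - (1 - -(sg ^ 2 * (e : Λ) ^ 2))) :
    LT S e (-km) (-y) f ∧ VV S e (km + kG)
      (((e ^ km : Λˣ) : Λ) * ω * f + (1 - -(sg ^ 2 * (e : Λ) ^ 2))) := by
  have h1 : ((e ^ km : Λˣ) : Λ) * ((e ^ (-km) : Λˣ) : Λ) = 1 := by
    rw [← Units.val_mul, ← zpow_add, add_neg_cancel, zpow_zero, Units.val_one]
  refine ⟨lf (lc (vsl h.he hG.neg ((h1z h).mul h.he (LT.zpow_mul (n := -km) hy)) (by omega))
    (by ring) (by ring)) ?_, vf (hm.mul hG).neg (by linear_combination -hf')⟩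
  linear_combination (-((e ^ (-km) : Λˣ) : Λ) * y) * hf' +
    (f + G) * ω * y * h1 + (f + G) * hω

theorem hD (h : ParLT S e sg si hf θ) (hm : VV S e km m) : VV S e (26 + 2 * km) (θ 6 * m ^ 2) :=
  vm h.he (h.rho.2.1.vv h.he) (hm.pow 2) (by push_cast; omega)

theorem hY0 (h : ParLT S e sg si hf θ) (hm : VV S e km m) (hk : 0 ≤ km) (hv : LT S e kf c f)
    (hk' : kf ≤ -1) : LT S e kf c (Yq θ f m) :=
  lsv h.he hv (va h.he (k := 0) (va h.he (k := 0) (hD h hm) ((h.rho.2.2.vv h.he).mul hm)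
    (by omega) (by omega)) (h.hv.vv h.he) le_rfl le_rfl) (by omega)

variable {δ y G : Λ}

theorem node0 (h : ParLT S e sg si hf θ) (hδ : δ ∈ S) (hy : y ∈ S) (hω : δ * y = 1)
    (hG : VV S e 2 G) (hm : m = ((e ^ (2 : ℤ) : Λˣ) : Λ) * δ)
    (hf' : m * f = -(m * G) - (1 - -(sg ^ 2 * (e : Λ) ^ 2))) :
    ∃ U : Λˣ, ∃ g ∈ S, cFAt 1 (-(sg ^ 2 * (e : Λ) ^ 2)) e θ f m = U * (δ - 1 + e * g) := by
  subst hm
  have he := h.he
  have hm : LT S e 2 δ _ := LT.zpow_mul hδ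
  obtain ⟨hv, hF1⟩ := prep h hy hω hG (hm.vv he) (by norm_num) hf'
  have hY := hY0 h (hm.vv he) (by norm_num) hv (by norm_num)
  have hQ : LT S e (-1) _ (Qn θ f _) := lav he ((lc (hT1 h hY) (k := -1) (by norm_num) rfl).add
    (lc (hT2 h (hm.vv he) (by norm_num) hY) (by norm_num) rfl)) (hT3' h (hm.vv he) (by norm_num))
    (by norm_num)
  refine fin (u := -4 * sg ^ 8 * y) (ui := -(hf ^ 2 * si ^ 8 * δ))
    (key h hm (by norm_num) (hv.vv he) (hY.vv he) hQ hF1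
      (hF h (hm.vv he) (by norm_num) (hv.vv he) (by norm_num)) rfl ?_ (by norm_num) (by norm_num)
      (by norm_num) (by norm_num) (by norm_num) (by norm_num) (by norm_num))
    (neg_mem (mul_mem (mul_mem (pow_mem h.hhf 2) (pow_mem h.hsi 8)) hδ)) ?_
  · linear_combination (4 * sg ^ 8 * y) * hω
  · have h1 : (2 * hf) ^ 2 * (sg * si) ^ 8 * (δ * y) = 1 := by rw [h.hhf2, h.hinv, hω]; ring
    linear_combination h1

theorem node1 (h : ParLT S e sg si hf θ) (hδ : δ ∈ S) (hy : y ∈ S) (hω : δ * y = 1)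
    (hG : VV S e 4 G) (hm : m = ((e ^ (-2 : ℤ) : Λˣ) : Λ) * δ)
    (hf' : m * f = -(m * G) - (1 - -(sg ^ 2 * (e : Λ) ^ 2))) :
    ∃ U : Λˣ, ∃ g ∈ S, cFAt 1 (-(sg ^ 2 * (e : Λ) ^ 2)) e θ f m = U * (δ - 1 + e * g) := by
  subst hm
  have he := h.he
  have hm : LT S e (-2) δ _ := LT.zpow_mul hδ
  obtain ⟨hv, hF1⟩ := prep h hy hω hG (hm.vv he) (by norm_num) hf'
  have hY : LT S e 0 _ (Yq θ f _) := vsl he (hv.vv he) (vla he (va he (k := 1) (hD h (hm.vv he))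
    ((h.rho.2.2.vv he).mul (hm.vv he)) (by norm_num) (by norm_num)) h.hv (by norm_num))
    (by norm_num)
  have hQ : LT S e 1 _ (Qn θ f _) := (lc (vla he ((hT1 h hY).vv he)
    (hT2 h (hm.vv he) (by norm_num) hY) (by norm_num)) (k := 1) (by norm_num) rfl).add
    (lc (hT3 h hm (by norm_num) (by norm_num)) (by norm_num) rfl)
  refine fin (u := -4 * sg ^ 8 * δ) (ui := -(hf ^ 2 * si ^ 8 * y))
    (key h hm (by norm_num) (hv.vv he) (hY.vv he) hQ hF1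
      (hF h (hm.vv he) (by norm_num) (hv.vv he) (by norm_num)) rfl ?_ (by norm_num) (by norm_num)
      (by norm_num) (by norm_num) (by norm_num) (by norm_num) (by norm_num))
    (neg_mem (mul_mem (mul_mem (pow_mem h.hhf 2) (pow_mem h.hsi 8)) hy)) ?_
  · ring
  · have h1 : (2 * hf) ^ 2 * (sg * si) ^ 8 * (δ * y) = 1 := by rw [h.hhf2, h.hinv, hω]; ring
    linear_combination h1

theorem node2 (h : ParLT S e sg si hf θ) (hδ : δ ∈ S) (hy : y ∈ S) (hω : δ * y = 1)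
    (hG : VV S e 14 G) (hm : m = ((e ^ (-12 : ℤ) : Λˣ) : Λ) * δ)
    (hf' : m * f = -(m * G) - (1 - -(sg ^ 2 * (e : Λ) ^ 2))) :
    ∃ U : Λˣ, ∃ g ∈ S, cFAt 1 (-(sg ^ 2 * (e : Λ) ^ 2)) e θ f m = U * (δ - si ^ 4 + e * g) := by
  subst hm
  have he := h.he
  have hm : LT S e (-12) δ _ := LT.zpow_mul hδ
  obtain ⟨hv, hF1⟩ := prep h hy hω hG (hm.vv he) (by norm_num) hf'
  have hY : LT S e (6 + -12) _ (Yq θ f _) := vsl he (hv.vv he) (lav he (vla he (hD h (hm.vv he))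
    (h.rho.2.2.mul he hm) (by norm_num)) (h.hv.vv he) (by norm_num)) (by norm_num)
  have hQ : LT S e (-9) _ (Qn θ f _) := (lc (lav he (hT1 h hY)
    ((hT2 h (hm.vv he) (by norm_num) hY).vv he) (by norm_num)) (k := -9) (by norm_num) rfl).add
    (lc (hT3 h hm (by norm_num) (by norm_num)) (by norm_num) rfl)
  refine fin (u := 4 * sg ^ 12 * δ ^ 2) (ui := hf ^ 2 * si ^ 12 * y ^ 2)
    (key h hm (by norm_num) (hv.vv he) (hY.vv he) hQ hF1
      (hF h (hm.vv he) (by norm_num) (hv.vv he) (by norm_num)) rfl ?_ (by norm_num) (by norm_num)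
      (by norm_num) (by norm_num) (by norm_num) (by norm_num) (by norm_num))
    (mul_mem (mul_mem (pow_mem h.hhf 2) (pow_mem h.hsi 12)) (pow_mem hy 2)) ?_
  · have h1 : (sg * si) ^ 4 = 1 := by rw [h.hinv]; ring
    linear_combination (4 * sg ^ 8 * δ ^ 2) * h1
  · have h1 : (2 * hf) ^ 2 * (sg * si) ^ 12 * (δ * y) ^ 2 = 1 := by
      rw [h.hhf2, h.hinv, hω]; ring
    linear_combination h1

theorem node5 (h : ParLT S e sg si hf θ) (hδ : δ ∈ S) (hy : y ∈ S) (hω : δ * y = 1)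
    (hG : VV S e 2 G) (hm : m = ((e ^ (26 : ℤ) : Λˣ) : Λ) * δ)
    (hf' : m * f = -(m * G) - (1 - -(sg ^ 2 * (e : Λ) ^ 2))) :
    ∃ U : Λˣ, ∃ g ∈ S, cFAt 1 (-(sg ^ 2 * (e : Λ) ^ 2)) e θ f m =
      U * (δ - -sg ^ 8 + e * g) := by
  subst hm
  have he := h.he
  have hm : LT S e 26 δ _ := LT.zpow_mul hδ
  obtain ⟨hv, hF1⟩ := prep h hy hω hG (hm.vv he) (by norm_num) hf'
  have hY := hY0 h (hm.vv he) (by norm_num) hv (by norm_num)
  have hQ : LT S e (-49) _ (Qn θ f _) := lav he (lc (lav he (hT1 h hY)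
    ((hT2 h (hm.vv he) (by norm_num) hY).vv he) (by norm_num)) (k := -49) (by norm_num) rfl)
    (hT3' h (hm.vv he) (by norm_num)) (by norm_num)
  have hF2 : LT S e 32 _ (Fq (-(sg ^ 2 * (e : Λ) ^ 2)) θ f _) :=
    vsl he (hF3 h) (lc ((hw h (hm.vv he) (by norm_num)).mul he
      ((lc ((h.ha.mul he (h.hc.pow he 2)).mul he hv) (k := 31) (by norm_num) rfl).sub
        (hrL h (hm.vv he) (by norm_num)))) (k := 32) (by norm_num) rfl) (by norm_num)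
  refine fin (u := 4 * sg ^ 8 * y ^ 2) (ui := hf ^ 2 * si ^ 8 * δ ^ 2)
    (key h hm (by norm_num) (hv.vv he) (hY.vv he) hQ hF1 hF2 rfl ?_ (by norm_num) (by norm_num)
      (by norm_num) (by norm_num) (by norm_num) (by norm_num) (by norm_num))
    (mul_mem (mul_mem (pow_mem h.hhf 2) (pow_mem h.hsi 8)) (pow_mem hδ 2)) ?_
  · linear_combination (4 * sg ^ 16 * y ^ 2) * hω
  · have h1 : (2 * hf) ^ 2 * (sg * si) ^ 8 * (δ * y) ^ 2 = 1 := by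
      rw [h.hhf2, h.hinv, hω]; ring
    linear_combination h1

theorem node34 (h : ParLT S e sg si hf θ) (hδ : δ ∈ S) (hy : y ∈ S)
    (hω : si ^ 6 * (1 + (e : Λ) ^ 4 * δ) * y = 1) {d d' y' : Λ} (hy' : y' ∈ S)
    (hU : (δ - d') * y' = 1) (hd : (δ - d') * (δ - d) = (δ - sg ^ 2) ^ 2 - sg ^ 2)
    (hG : VV S e 22 G) (hm : m = ((e ^ (-20 : ℤ) : Λˣ) : Λ) * (si ^ 6 * (1 + (e : Λ) ^ 4 * δ)))
    (hf' : m * f = -(m * G) - (1 - -(sg ^ 2 * (e : Λ) ^ 2))) :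
    ∃ U : Λˣ, ∃ g ∈ S, cFAt 1 (-(sg ^ 2 * (e : Λ) ^ 2)) e θ f m = U * (δ - d + e * g) := by
  have he := h.he
  have hs6 : si ^ 6 ∈ S := pow_mem h.hsi 6
  have hm1 : LT S e (-20) (si ^ 6) m := by
    rw [hm]
    refine (LT.zpow_mul (mul_mem hs6 (add_mem (one_mem S) (mul_mem (pow_mem he 4) hδ)))).congr hs6
      (vf (vm he (VV.unit.pow 4) (VV.of_mem (mul_mem hs6 hδ)) (by norm_num)) (by ring))
  obtain ⟨hv, hF1⟩ := prep h hy hω hG (hm ▸ hm1.vv he) (by norm_num) (hm ▸ hf')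
  rw [← hm] at hF1
  have hX : LT S e (-10) (si ^ 2 - si ^ 4 * δ) (θ 6 * m ^ 2 + θ 7 * m) := by
    have hmem : si ^ 2 - si ^ 4 * δ ∈ S :=
      sub_mem (pow_mem h.hsi 2) (mul_mem (pow_mem h.hsi 4) hδ)
    have h2 : VV S e (-6) (((e ^ (-6 : ℤ) : Λˣ) : Λ) * (si ^ 2 * δ - si ^ 4 * δ ^ 2)) :=
      ⟨_, sub_mem (mul_mem (pow_mem h.hsi 2) hδ) (mul_mem (pow_mem h.hsi 4) (pow_mem hδ 2)), rfl⟩
    refine lf (lav he (LT.zpow_mul (n := -10) hmem) (va he (k := -9) h2 (va he (k := -9)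
      (h.hd.mul ((hm1.vv he).pow 2)) (h.hr.mul (hm1.vv he)) (by norm_num) (by norm_num))
      (by norm_num) le_rfl) (by norm_num)) ?_
    obtain ⟨E, hE⟩ : ∃ E : Λ, E = ((e⁻¹ : Λˣ) : Λ) := ⟨_, rfl⟩
    have hz : ∀ j : ℕ, ((e ^ (-(j : ℤ)) : Λˣ) : Λ) = E ^ j := fun j => by
      rw [zpow_neg, zpow_natCast, ← inv_pow, Units.val_pow_eq_pow_val, hE]
    have e1 : E * e = 1 := by rw [hE]; simp
    have e20 : ((e ^ (-20 : ℤ) : Λˣ) : Λ) = E ^ 20 := hz 20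
    have e10 : ((e ^ (-10 : ℤ) : Λˣ) : Λ) = E ^ 10 := hz 10
    have e6 : ((e ^ (-6 : ℤ) : Λˣ) : Λ) = E ^ 6 := hz 6
    rw [e20] at hm
    rw [e10, e6]
    have hp : ∀ j : ℕ, (E * e) ^ j = 1 := fun j => by rw [e1, one_pow]
    have hs : ∀ j : ℕ, (sg * si) ^ j = 1 := fun j => by rw [h.hinv, one_pow]
    have a1 : sg ^ 8 * (e : Λ) ^ 26 * m ^ 2 = si ^ 4 * E ^ 14 * (1 + (e : Λ) ^ 4 * δ) ^ 2 := by
      have : sg ^ 8 * (e : Λ) ^ 26 * m ^ 2 =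
        (sg * si) ^ 8 * (E * e) ^ 26 * (si ^ 4 * E ^ 14 * (1 + (e : Λ) ^ 4 * δ) ^ 2) := by
        rw [hm]; ring
      rw [this, hp, hs, one_mul, one_mul]
    have a2 : sg ^ 2 * (e : Λ) ^ 6 * m = si ^ 4 * E ^ 14 * (1 + (e : Λ) ^ 4 * δ) := by
      have : sg ^ 2 * (e : Λ) ^ 6 * m =
        (sg * si) ^ 2 * (E * e) ^ 6 * (si ^ 4 * E ^ 14 * (1 + (e : Λ) ^ 4 * δ)) := by
        rw [hm]; ring
      rw [this, hp, hs, one_mul, one_mul]
    have a3 : sg ^ 4 * (e : Λ) ^ 10 * m = si ^ 2 * E ^ 10 * (1 + (e : Λ) ^ 4 * δ) := by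
      have : sg ^ 4 * (e : Λ) ^ 10 * m =
        (sg * si) ^ 4 * (E * e) ^ 10 * (si ^ 2 * E ^ 10 * (1 + (e : Λ) ^ 4 * δ)) := by
        rw [hm]; ring
      rw [this, hp, hs, one_mul, one_mul]
    linear_combination a1 - a2 - a3 + (si ^ 4 * E ^ 10 * δ - si ^ 2 * E ^ 6 * δ) * hp 4 +
      si ^ 4 * E ^ 6 * δ ^ 2 * hp 8
  have hY : LT S e (-10) _ (Yq θ f m) :=
    vsl he (hv.vv he) (lav he hX (h.hv.vv he) (by norm_num)) (by norm_num)
  have hQ : LT S e (-17) _ (Qn θ f m) := (lc (lav he (hT1 h hY)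
    ((hT2 h (hm1.vv he) (by norm_num) hY).vv he) (by norm_num)) (k := -17) (by norm_num) rfl).add
    (lc (hT3 h hm1 (by norm_num) (by norm_num)) (by norm_num) rfl)
  refine fin (u := 4 * si ^ 6 * (δ - d')) (ui := hf ^ 2 * sg ^ 6 * y')
    (key h hm1 (by norm_num) (hv.vv he) (hY.vv he) hQ hF1
      (hF h (hm1.vv he) (by norm_num) (hv.vv he) (by norm_num)) rfl ?_ (by norm_num) (by norm_num)
      (by norm_num) (by norm_num) (by norm_num) (by norm_num) (by norm_num))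
    (mul_mem (mul_mem (pow_mem h.hhf 2) (pow_mem h.hsg 6)) hy') ?_
  · have hs : ∀ j : ℕ, (sg * si) ^ j = 1 := fun j => by rw [h.hinv, one_pow]
    linear_combination (-4 * si ^ 6) * hd + 4 * si ^ 6 * (sg ^ 4 * hs 4 - 2 * sg ^ 2 * δ * hs 6 +
      δ ^ 2 * hs 8 - sg ^ 2 * hs 6)
  · have h1 : (2 * hf) ^ 2 * (sg * si) ^ 6 * ((δ - d') * y') = 1 := by
      rw [h.hhf2, h.hinv, hU]; ring
    linear_combination h1

end Main

end NodeHAux

open NodeHAux in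
theorem cF_node (h : ParLT S e sg si hf θ) (i : Fin 6) {δ G f : Λ} (hδ : δ ∈ S)
    (hω : ∃ y ∈ S, om e si i δ * y = 1) (hU : ∃ y ∈ S, un sg i δ * y = 1)
    (hG : VV S e (2 + sv i) G)
    (hf' : mOf e si i δ * f = -(mOf e si i δ * G) - (1 - -(sg ^ 2 * (e : Λ) ^ 2))) :
    ∃ U : Λˣ, ∃ g ∈ S, cFAt 1 (-(sg ^ 2 * (e : Λ) ^ 2)) e θ f (mOf e si i δ) =
      U * (δ - d0 sg si i + e * g) := by
  obtain ⟨y, hy, hω⟩ := hω
  obtain ⟨y', hy', hU⟩ := hU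
  fin_cases i
  · exact node0 h hδ hy hω hG rfl hf'
  · exact node1 h hδ hy hω hG rfl hf'
  · exact node2 h hδ hy hω hG rfl hf'
  · exact node34 h hδ hy hω (d := sg ^ 2 + sg) (d' := sg ^ 2 - sg) hy' hU (by ring) hG rfl hf'
  · exact node34 h hδ hy hω (d := sg ^ 2 - sg) (d' := sg ^ 2 + sg) hy' hU (by ring) hG rfl hf'
  · exact node5 h hδ hy hω hG rfl hf'

end Pool.Agent.P.MP_48bde8_co
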