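import Pool.Agent.P.MP_48bde8_co.D2

/-! Task PHI: the resolvent functional. -/

namespace Pool.Agent.P.MP_48bde8_co

open Finset

variable {R : Type} [CommRing R] {ε x z s : R} {θ : Fin 10 → R} {τ φ : List Bool → R}

namespace PhiA

theorem rot (h : SDC x z θ τ) (y w : List Bool) : τ (y ++ w) = τ (w ++ y) := by
  induction y generalizing w with
  | nil => simp
  | cons c y ih => rw [List.cons_append, ← h.rotT, List.append_assoc, ih]; simp

theorem cyc (h : SDC x z θ τ) (k : ℕ) (w : List Bool) :
    cB x τ k (w ++ [false]) = cB x τ k (false :: w) := by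
  induction k generalizing w with
  | zero => exact h.rotT _ _
  | succ k ih => rw [cB, cB, ← List.cons_append, ih, ih]

theorem sum_sub {α : Type} (l : List α) (f g : α → R) (a : R) :
    (l.map fun y => f y - a * g y).sum = (l.map f).sum - a * (l.map g).sum := by
  induction l with
  | nil => simp
  | cons y l ih => simp only [List.map_cons, List.sum_cons, ih]; ring

theorem idA (h : SDC x z θ τ) (k : ℕ) (w : List Bool) :
    ((splits true w).map fun y => cB x τ k y.1 * τ y.2).sum + insA θ (cB x τ k) w [] = 0 := by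
  induction k generalizing w with
  | zero => exact h.sdA w
  | succ k ih =>
    have h1 := ih (false :: w)
    have h2 := ih w
    simp only [splits, Bool.false_eq_true, if_false, List.nil_append, List.map_map,
      Function.comp_def, insA, List.cons_append] at h1
    simp only [cB, sub_mul, mul_assoc, sum_sub, insA] at h2 ⊢
    linear_combination h1 - x * h2

theorem idB (h : SDC x z θ τ) (pre : List Bool)
    (hp : ∀ w, splits false (pre ++ w) = (splits false w).map fun y => (pre ++ y.1, y.2))
    (k : ℕ) (w : List Bool) :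
    x * cB x τ k (w ++ pre) +
      ((splits false w).map fun y => cB x τ k (y.1 ++ false :: pre) * τ y.2).sum +
      insB θ (cB x τ k) w (false :: pre) +
      ∑ i ∈ range k, cB x τ i (false :: pre) * cB x τ (k - 1 - i) w = 0 := by
  induction k generalizing w with
  | zero =>
    have h1 := h.sdB (pre ++ w)
    have e : ∀ y, τ (false :: (pre ++ y)) = τ (y ++ false :: pre) := fun y =>
      rot h (false :: pre) y
    simp only [hp, List.map_map, Function.comp_def, insB, List.cons_append, List.append_assoc,
      e, rot h pre w, List.nil_append, List.append_nil] at h1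
    simpa only [cB, insB, range_zero, sum_empty, add_zero] using h1
  | succ k ih =>
    have h1 := ih (false :: w)
    have h2 := ih w
    have h3 : ∑ i ∈ range k, cB x τ i (false :: pre) * cB x τ (k + 1 - 1 - i) w =
        ∑ i ∈ range k, cB x τ i (false :: pre) * cB x τ (k - 1 - i) (false :: w) -
          x * ∑ i ∈ range k, cB x τ i (false :: pre) * cB x τ (k - 1 - i) w := by
      rw [mul_sum, ← sum_sub_distrib]
      refine sum_congr rfl fun i hi => ?_
      rw [show k + 1 - 1 - i = k - 1 - i + 1 by have := mem_range.1 hi; omega, cB]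
      ring
    rw [sum_range_succ, h3, show k + 1 - 1 - k = 0 by omega]
    simp only [splits, if_true, List.map_map, Function.comp_def, insB, List.cons_append,
      List.nil_append, List.map_cons, List.sum_cons] at h1
    simp only [cB, sub_mul, mul_assoc, sum_sub, insB] at h2 ⊢
    linear_combination h1 - x * h2

theorem idB0 (h : SDC x z θ τ) (k : ℕ) (w : List Bool) :
    x * cB x τ k w + ((splits false w).map fun y => cB x τ k (false :: y.1) * τ y.2).sum +
      insB θ (cB x τ k) (false :: w) [] +
      ∑ i ∈ range k, cB x τ i [false] * cB x τ (k - 1 - i) w = 0 := by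
  have h1 := idB h [] (by simp) k w
  have e : ∀ y, cB x τ k (w ++ (y ++ [false])) = cB x τ k (false :: (w ++ y)) := fun y => by
    rw [← List.append_assoc, cyc h]
  have e1 := e [true, false]
  have e2 := e [false, true]
  have e3 := e [false, false]
  have e4 := e [true]
  have e5 := e [false]
  simp only [List.cons_append, List.nil_append] at e1 e2 e3 e4 e5
  simp only [insB, List.append_nil, e1, e2, e3, e4, e5, cyc h] at h1
  simpa only [insB, List.cons_append, List.append_nil] using h1

theorem splits_len (c : Bool) (W : List Bool) : ∀ y ∈ splits c W, y.2.length < W.length := by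
  induction W with
  | nil => simp [splits]
  | cons d W ih =>
    intro y hy
    rw [splits, List.mem_append, List.mem_map] at hy
    rcases hy with hy | ⟨y', hy, rfl⟩
    · split_ifs at hy
      · rw [List.mem_singleton.1 hy]; simp
      · simp at hy
    · exact (ih y' hy).trans (by simp)

theorem dvd_map {α : Type} {a : R} {l : List α} {f : α → R} (h : ∀ y ∈ l, a ∣ f y) :
    a ∣ (l.map f).sum :=
  List.dvd_sum fun _ hy => by
    obtain ⟨y, h1, rfl⟩ := List.mem_map.1 hy
    exact h y h1

theorem tau_step (h : SDC x z θ τ) (hs : Small ε z θ) (n : ℕ) (hz : ε ^ (n + 1) ∣ z)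
    (h0 : ∀ w, ε ^ n ∣ τ w) (w : List Bool) : ε ^ (n + 1) ∣ τ w := by
  obtain ⟨-, t0, t2, t3, t4, t5, t6, t7, t8⟩ := hs
  have m : ∀ {a : R} (w : List Bool), ε ∣ a → ε ^ (n + 1) ∣ a * τ w := fun w ha => by
    rw [pow_succ']; exact mul_dvd_mul ha (h0 w)
  induction hl : w.length using Nat.strong_induction_on generalizing w with
  | _ l ih =>
    subst hl
    match w, ih with
    | [], _ => rwa [h.nil]
    | true :: W, ih =>
      have h1 := h.sdA W
      have h2 : ε ^ (n + 1) ∣ ((splits true W).map fun s => τ s.1 * τ s.2).sum :=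
        dvd_map fun y hy => (ih _ ((splits_len _ _ y hy).trans (by simp)) _ rfl).mul_left _
      have e : τ (true :: W) = ((splits true W).map fun s => τ s.1 * τ s.2).sum +
          θ 0 * τ (W ++ [true, true]) + θ 2 * τ (W ++ [false, false]) +
          (θ 3 + 1) * τ (W ++ [true]) + θ 4 * τ (W ++ [false]) + θ 5 * τ (W ++ []) := by
        rw [← h.rotT, insA] at *
        linear_combination -h1
      rw [e]
      exact ((((h2.add (m _ t0)).add (m _ t2)).add (m _ t3)).add (m _ t4)).add (m _ t5)
    | false :: W, ih =>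
      have h1 := h.sdB W
      have h2 : ε ^ (n + 1) ∣ ((splits false W).map fun s => τ (false :: s.1) * τ s.2).sum :=
        dvd_map fun y hy => (ih _ ((splits_len _ _ y hy).trans (by simp)) _ rfl).mul_left _
      have e : τ (false :: W) = x * τ W +
          ((splits false W).map fun s => τ (false :: s.1) * τ s.2).sum +
          θ 2 * τ (false :: W ++ [true, false]) + θ 2 * τ (false :: W ++ [false, true]) +
          θ 6 * τ (false :: W ++ [false, false]) + θ 4 * τ (false :: W ++ [true]) +
          θ 7 * τ (false :: W ++ [false]) + (θ 8 + 1) * τ (false :: W) := by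
        rw [insB, List.append_nil] at h1
        linear_combination -h1
      rw [e]
      exact ((((((((ih _ (by simp) W rfl).mul_left x).add h2).add (m _ t2)).add (m _ t2)).add
        (m _ t6)).add (m _ t4)).add (m _ t7)).add (m _ t8)

theorem lim (hC : Cpl ε) (h : IsPhi ε s x τ φ) (hb : ∀ k w, ε ^ (k + 2) ∣ cB x τ k w)
    (L : (List Bool → R) → R) (hL : IsLinearMap R L) (b : R) (u w : List Bool)
    (hid : ∀ k, L (cB x τ k) + b * ∑ i ∈ range k, cB x τ i u * cB x τ (k - 1 - i) w = 0) :
    L φ + b * (φ u * φ w) = 0 := by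
  refine hC.1 _ fun N => ?_
  choose e he using fun w => h w (N + 1)
  have e1 : φ = ∑ k ∈ range (N + 1), s ^ (k + 1) • cB x τ k + ε ^ (N + 1) • e := by
    funext y
    simp only [Pi.add_apply, Finset.sum_apply, Pi.smul_apply, smul_eq_mul, ← he y, mul_comm]
    ring
  have e2 : L φ = ∑ k ∈ range (N + 1), s ^ (k + 1) * L (cB x τ k) + ε ^ (N + 1) * L e := by
    have := congrArg (hL.mk' L) e1
    simpa only [map_add, map_sum, map_smul, IsLinearMap.mk'_apply, smul_eq_mul] using this
  have e3 : ∑ k ∈ range (N + 1), s ^ (k + 1) * ∑ i ∈ range k, cB x τ i u * cB x τ (k - 1 - i) w =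
      ∑ i ∈ range N, cB x τ i u * s ^ (i + 1) *
        ∑ j ∈ range (N - i), cB x τ j w * s ^ (j + 1) := by
    rw [sum_range_succ', range_zero, sum_empty, mul_zero, add_zero]
    simp only [mul_sum]
    rw [← sum_range_diag_flip N fun i j => cB x τ i u * s ^ (i + 1) * (cB x τ j w * s ^ (j + 1))]
    refine sum_congr rfl fun k _ => sum_congr rfl fun i hi => ?_
    obtain ⟨j, rfl⟩ := Nat.exists_eq_add_of_le (Nat.lt_succ_iff.1 (mem_range.1 hi))
    rw [show i + j + 1 - 1 - i = j by omega, show i + j - i = j by omega]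
    ring
  have e4 : ∑ k ∈ range (N + 1), s ^ (k + 1) * L (cB x τ k) + b * ∑ k ∈ range (N + 1),
      s ^ (k + 1) * ∑ i ∈ range k, cB x τ i u * cB x τ (k - 1 - i) w = 0 := by
    rw [mul_sum, ← sum_add_distrib]
    exact sum_eq_zero fun k _ => by linear_combination s ^ (k + 1) * hid k
  have d1 : ε ^ N ∣ ∑ i ∈ range N, cB x τ i u * s ^ (i + 1) *
      (φ w - ∑ j ∈ range (N - i), cB x τ j w * s ^ (j + 1)) := dvd_sum fun i hi => by
    refine (pow_dvd_pow ε (by omega : N ≤ i + 2 + (N - i))).trans ?_
    rw [pow_add]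
    exact mul_dvd_mul ((hb i u).mul_right _) (h w _)
  simp only [mul_sub, sum_sub_distrib, ← sum_mul, ← e3] at d1
  have e5 : L φ + b * (φ u * φ w) = ε ^ N * (ε * L e) +
      b * ((φ u - ∑ k ∈ range N, cB x τ k u * s ^ (k + 1)) * φ w +
        ((∑ k ∈ range N, cB x τ k u * s ^ (k + 1)) * φ w - ∑ k ∈ range (N + 1),
          s ^ (k + 1) * ∑ i ∈ range k, cB x τ i u * cB x τ (k - 1 - i) w)) := by
    linear_combination e2 + e4
  rw [e5]
  exact (dvd_mul_right _ _).add ((((h u N).mul_right _).add d1).mul_left b)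

theorem st (hC : Cpl ε) (h : IsPhi ε s x τ φ) (w y : List Bool)
    (hy : ∀ k, cB x τ k y = cB x τ k (false :: w)) :
    s * φ y = (1 + x * s) * φ w - s * τ w := by
  refine sub_eq_zero.1 (hC.1 _ fun N => ?_)
  have e1 : s * ∑ k ∈ range N, cB x τ k y * s ^ (k + 1) =
      ∑ k ∈ range N, cB x τ (k + 1) w * s ^ (k + 1 + 1) +
        x * s * ∑ k ∈ range N, cB x τ k w * s ^ (k + 1) := by
    rw [mul_sum, mul_sum, ← sum_add_distrib]
    exact sum_congr rfl fun k _ => by rw [hy, cB]; ring
  have d1 := (pow_dvd_pow ε N.le_succ).trans (h w (N + 1))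
  rw [sum_range_succ', cB] at d1
  have e2 : s * φ y - ((1 + x * s) * φ w - s * τ w) =
      s * (φ y - ∑ k ∈ range N, cB x τ k y * s ^ (k + 1)) -
      x * s * (φ w - ∑ k ∈ range N, cB x τ k w * s ^ (k + 1)) -
      (φ w - (∑ k ∈ range N, cB x τ (k + 1) w * s ^ (k + 1 + 1) + τ w * s ^ (0 + 1))) := by
    linear_combination e1
  rw [e2]
  exact (((h y N).mul_left _).sub ((h w N).mul_left _)).sub d1

theorem ex_lim (hC : Cpl ε) (a : ℕ → R) (ha : ∀ k, ε ^ k ∣ a k) :
    ∃ y, ∀ N, ε ^ N ∣ y - ∑ k ∈ range N, a k :=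
  hC.2 _ fun N => by rw [sum_range_succ, add_sub_cancel_left]; exact ha N

end PhiA

open PhiA

theorem cB_dvd (h : SDC x z θ τ) (hs : Small ε z θ) (k : ℕ) (w : List Bool) :
    ε ^ (k + 2) ∣ cB x τ k w := by
  have h1 := tau_step h hs 0 ((pow_dvd_pow ε (by norm_num)).trans hs.1) fun _ => by simp
  have h2 := tau_step h hs 1 hs.1 h1
  obtain ⟨-, -, t2, -, t4, -, t6, t7, t8⟩ := hs
  induction k using Nat.strong_induction_on generalizing w with
  | _ k ih =>
    cases k with
    | zero => exact h2 w
    | succ k =>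
      have m : ∀ {a : R} (w : List Bool), ε ∣ a → ε ^ (k + 1 + 2) ∣ a * cB x τ k w :=
        fun w ha => by
          rw [show k + 1 + 2 = k + 2 + 1 by omega, pow_succ']
          exact mul_dvd_mul ha (ih k k.lt_succ_self w)
      have h3 := idB0 h k w
      have e : cB x τ (k + 1) w =
          ((splits false w).map fun y => cB x τ k (false :: y.1) * τ y.2).sum +
          θ 2 * cB x τ k (false :: w ++ [true, false]) +
          θ 2 * cB x τ k (false :: w ++ [false, true]) +
          θ 6 * cB x τ k (false :: w ++ [false, false]) + θ 4 * cB x τ k (false :: w ++ [true]) +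
          θ 7 * cB x τ k (false :: w ++ [false]) + (θ 8 + 1) * cB x τ k (false :: w) +
          ∑ i ∈ range k, cB x τ i [false] * cB x τ (k - 1 - i) w := by
        rw [insB, List.append_nil] at h3
        rw [cB]
        linear_combination -h3
      rw [e]
      refine (((((((dvd_map fun y _ => ?_).add (m _ t2)).add (m _ t2)).add (m _ t6)).add
        (m _ t4)).add (m _ t7)).add (m _ t8)).add (dvd_sum fun i hi => ?_)
      · rw [mul_comm]
        exact m _ (by simpa using h1 y.2)
      · have := mem_range.1 hi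
        rw [show k + 1 + 2 = i + 2 + (k - 1 - i + 2) by omega, pow_add]
        exact mul_dvd_mul (ih i (by omega) _) (ih _ (by omega) _)

theorem phi_exists (hC : Cpl ε) (hb : ∀ k w, ε ^ (k + 2) ∣ cB x τ k w) (s : R) :
    ∃ φ, IsPhi ε s x τ φ := by
  choose φ h using fun w => ex_lim hC (fun k => cB x τ k w * s ^ (k + 1)) fun k =>
    ((pow_dvd_pow ε (by omega)).trans (hb k w)).mul_right _
  exact ⟨φ, h⟩

theorem IsPhi.unique (hC : Cpl ε) {φ' : List Bool → R} (h : IsPhi ε s x τ φ)
    (h' : IsPhi ε s x τ φ') : φ = φ' := by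
  funext w
  refine sub_eq_zero.1 (hC.1 _ fun N => ?_)
  simpa using (h w N).sub (h' w N)

theorem IsPhi.pr (hC : Cpl ε) (hτ : SDC x z θ τ) (hb : ∀ k w, ε ^ (k + 2) ∣ cB x τ k w)
    (h : IsPhi ε s x τ φ) : PR x s θ τ φ := by
  refine ⟨fun w => st hC h w _ fun k => PhiA.cyc hτ k w, fun w => st hC h w _ fun _ => rfl,
    fun w => ?_, fun w => ?_, ?_⟩
  · have := lim hC h hb
      (fun f => ((splits true w).map fun y => f y.1 * τ y.2).sum + insA θ f w [])
      ⟨fun f g => ?_, fun a f => ?_⟩ 0 [] [] fun k => by simpa using idA hτ k w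
    · simpa using this
    · simp only [insA, Pi.add_apply, add_mul, List.sum_map_add]; ring
    · simp only [insA, Pi.smul_apply, smul_eq_mul, mul_assoc, List.sum_map_mul_left]; ring
  · have := lim hC h hb
      (fun f => x * f w + ((splits false w).map fun y => f (false :: y.1) * τ y.2).sum +
        insB θ f (false :: w) [])
      ⟨fun f g => ?_, fun a f => ?_⟩ 1 [false] w fun k => by simpa using idB0 hτ k w
    · linear_combination this
    · simp only [insB, Pi.add_apply, add_mul, List.sum_map_add]; ring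
    · simp only [insB, Pi.smul_apply, smul_eq_mul, mul_assoc, List.sum_map_mul_left]; ring
  · have := lim hC h hb (fun f => x * f [true, true] + insB θ f [true] [false, true])
      ⟨fun f g => ?_, fun a f => ?_⟩ 1 [false, true] [true] fun k => by
        simpa [splits] using idB hτ [true] (by simp [splits]) k [true]
    · linear_combination this
    · simp only [insB, Pi.add_apply]; ring
    · simp only [insB, Pi.smul_apply, smul_eq_mul]; ring

/-- `φ [] = ε ^ 2 * s * G s` with a Lipschitz function `G`. -/
theorem phi_nil (hC : Cpl ε) (hb : ∀ k w, ε ^ (k + 2) ∣ cB x τ k w) :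
    ∃ G : R → R, (∀ s φ, IsPhi ε s x τ φ → φ [] = ε ^ 2 * s * G s) ∧
      ∀ s s', s - s' ∣ G s - G s' := by
  choose c hc using fun k => hb k []
  choose G hG using fun s : R => ex_lim hC (fun k => ε ^ k * (c k * s ^ k)) fun k =>
    dvd_mul_right _ _
  refine ⟨G, fun s φ h => sub_eq_zero.1 (hC.1 _ fun N => ?_), fun s s' => ?_⟩
  · have e : ∑ k ∈ range N, cB x τ k [] * s ^ (k + 1) =
        ε ^ 2 * s * ∑ k ∈ range N, ε ^ k * (c k * s ^ k) := by
      rw [mul_sum]
      exact sum_congr rfl fun k _ => by rw [hc]; ring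
    have d := (h [] N).sub ((hG s N).mul_left (ε ^ 2 * s))
    rwa [e, mul_sub, sub_sub_sub_cancel_right] at d
  · choose d hd using fun k => sub_dvd_pow_sub_pow s s' k
    obtain ⟨H, hH⟩ := ex_lim hC (fun k => ε ^ k * (c k * d k)) fun k => dvd_mul_right _ _
    refine ⟨H, sub_eq_zero.1 (hC.1 _ fun N => ?_)⟩
    have e : ∑ k ∈ range N, ε ^ k * (c k * s ^ k) - ∑ k ∈ range N, ε ^ k * (c k * s' ^ k) =
        (s - s') * ∑ k ∈ range N, ε ^ k * (c k * d k) := by
      rw [mul_sum, ← sum_sub_distrib]
      exact sum_congr rfl fun k _ => by linear_combination ε ^ k * c k * hd k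
    have e2 : G s - G s' - (s - s') * H = G s - ∑ k ∈ range N, ε ^ k * (c k * s ^ k) -
        (G s' - ∑ k ∈ range N, ε ^ k * (c k * s' ^ k)) -
        (s - s') * (H - ∑ k ∈ range N, ε ^ k * (c k * d k)) := by
      linear_combination e
    rw [e2]
    exact ((hG s N).sub (hG s' N)).sub ((hH N).mul_left _)

end Pool.Agent.P.MP_48bde8_co
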