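import Pool.Agent.P.MP_48bde8_co.D2

/-! Task SHEAR: change of letters and first-order deformations of the loop equations. -/

namespace Pool.Agent.P.MP_48bde8_co

open Finset

variable {R : Type} [CommRing R]

namespace ShearAux

theorem aux_eq (l : R) (τ : List Bool → R) (y w : List Bool) :
    shrAux l τ y w = shr l (fun W => τ (y ++ W)) w := by
  unfold shr
  suffices h : ∀ (w y y' : List Bool) (τ : List Bool → R),
      shrAux l τ (y ++ y') w = shrAux l (fun W => τ (y ++ W)) y' w by
    simpa using h w y [] τ
  intro w
  induction w with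
  | nil => intro y y' τ; rfl
  | cons c w ih =>
    intro y y' τ
    cases c
    · simp only [shrAux, List.append_assoc, ih]
    · simp only [shrAux, List.append_assoc, ih]

theorem shr_nil (l : R) (F : List Bool → R) : shr l F [] = F [] := rfl

theorem shr_true (l : R) (F : List Bool → R) (w : List Bool) : shr l F (true :: w) =
    shr l (fun W => F (true :: W)) w + l * shr l (fun W => F (false :: W)) w := by
  rw [shr, shrAux, aux_eq, aux_eq]
  rfl

theorem shr_false (l : R) (F : List Bool → R) (w : List Bool) :
    shr l F (false :: w) = shr l (fun W => F (false :: W)) w := by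
  rw [shr, shrAux, aux_eq]
  rfl

theorem shr_add (l : R) (F G : List Bool → R) (w : List Bool) :
    shr l (fun W => F W + G W) w = shr l F w + shr l G w := by
  induction w generalizing F G with
  | nil => rfl
  | cons c w ih =>
    cases c
    · simp only [shr_false, ih]
    · simp only [shr_true, ih]; ring

theorem shr_mul (l a : R) (F : List Bool → R) (w : List Bool) :
    shr l (fun W => a * F W) w = a * shr l F w := by
  induction w generalizing F with
  | nil => rfl
  | cons c w ih =>
    cases c
    · simp only [shr_false, ih]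
    · simp only [shr_true, ih]; ring

theorem shr_mul' (l a : R) (F : List Bool → R) (w : List Bool) :
    shr l (fun W => F W * a) w = shr l F w * a := by
  simp only [mul_comm _ a, shr_mul]

theorem shr_zero (l : R) (w : List Bool) : shr l (fun _ => 0) w = 0 := by
  simpa using shr_mul l 0 (fun _ => 0) w

theorem shr_append (l : R) (F : List Bool → R) (w s : List Bool) :
    shr l F (w ++ s) = shr l (fun W => shr l (fun W' => F (W ++ W')) s) w := by
  induction w generalizing F with
  | nil => rfl
  | cons c w ih =>
    cases c
    · simp only [List.cons_append, shr_false, ih]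
    · simp only [List.cons_append, shr_true, ih]

/-- The extension in two arguments. -/
def shr2 (l : R) (G : List Bool → List Bool → R) (a b : List Bool) : R :=
  shr l (fun A => shr l (G A) b) a

theorem sum_lin {α : Type} (S : List α) (f g : α → R) (l : R) :
    (S.map fun s => f s + l * g s).sum = (S.map f).sum + l * (S.map g).sum := by
  rw [List.sum_map_add, List.sum_map_mul_left]

theorem shr2_true (l : R) (G : List Bool → List Bool → R) (a b : List Bool) :
    shr2 l G (true :: a) b = shr2 l (fun A => G (true :: A)) a b +
      l * shr2 l (fun A => G (false :: A)) a b := shr_true _ _ _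

theorem shr2_false (l : R) (G : List Bool → List Bool → R) (a b : List Bool) :
    shr2 l G (false :: a) b = shr2 l (fun A => G (false :: A)) a b := shr_false _ _ _

theorem shr2_nil (l : R) (G : List Bool → List Bool → R) (b : List Bool) :
    shr2 l G [] b = shr l (G []) b := rfl

theorem sp_same (c : Bool) (G : List Bool → List Bool → R) (W : List Bool) :
    ((splits c (c :: W)).map fun s => G s.1 s.2).sum =
      G [] W + ((splits c W).map fun s => G (c :: s.1) s.2).sum := by
  simp [splits, Function.comp_def]

theorem sp_tf (G : List Bool → List Bool → R) (W : List Bool) :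
    ((splits true (false :: W)).map fun s => G s.1 s.2).sum =
      ((splits true W).map fun s => G (false :: s.1) s.2).sum := by
  simp [splits, Function.comp_def]

theorem sp_ft (G : List Bool → List Bool → R) (W : List Bool) :
    ((splits false (true :: W)).map fun s => G s.1 s.2).sum =
      ((splits false W).map fun s => G (true :: s.1) s.2).sum := by
  simp [splits, Function.comp_def]

theorem shr_spA (l : R) (G : List Bool → List Bool → R) (w : List Bool) :
    shr l (fun W => ((splits true W).map fun s => G s.1 s.2).sum) w =
      ((splits true w).map fun s => shr2 l G s.1 s.2).sum := by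
  induction w generalizing G with
  | nil => simp [shr_nil, splits]
  | cons c w ih =>
    cases c
    · rw [shr_false, sp_tf]
      simp only [sp_tf, shr2_false]
      exact ih fun A => G (false :: A)
    · rw [shr_true, sp_same]
      simp only [sp_tf, sp_same, shr2_true, shr2_nil, shr_add, sum_lin]
      rw [ih fun A => G (false :: A), ih fun A => G (true :: A)]
      ring

theorem shr_spB (l : R) (G : List Bool → List Bool → R) (w : List Bool) :
    shr l (fun W => ((splits false W).map fun s => G s.1 s.2).sum) w =
      ((splits false w).map fun s => shr2 l G s.1 s.2).sum +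
        l * ((splits true w).map fun s => shr2 l G s.1 s.2).sum := by
  induction w generalizing G with
  | nil => simp [shr_nil, splits]
  | cons c w ih =>
    cases c
    · rw [shr_false, sp_tf, sp_same]
      simp only [sp_same, shr2_false, shr2_nil, shr_add]
      rw [ih fun A => G (false :: A)]
      ring
    · rw [shr_true, sp_same, sp_ft]
      simp only [sp_ft, sp_same, shr2_true, shr2_nil, shr_add, sum_lin]
      rw [ih fun A => G (false :: A), ih fun A => G (true :: A)]
      ring

theorem shr2_prod (l : R) (F G : List Bool → R) (a b : List Bool) :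
    shr2 l (fun A B => F A * G B) a b = shr l F a * shr l G b := by
  unfold shr2
  simp only [shr_mul, shr_mul']

theorem shr_rot {τ : List Bool → R} (h : ∀ c w, τ (w ++ [c]) = τ (c :: w)) (l : R) (c : Bool)
    (w : List Bool) : shr l τ (w ++ [c]) = shr l τ (c :: w) := by
  cases c
  · simp only [shr_append, shr_false, shr_nil, h]
  · simp only [shr_append, shr_true, shr_nil, h, shr_add, shr_mul]

theorem rot5 {Λ : Type} (f : List Bool → Λ) (h : ∀ c w, f (w ++ [c]) = f (c :: w)) :
    f [false, true] = f [true, false] ∧ f [true, false, true] = f [true, true, false] ∧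
      f [false, true, true] = f [true, true, false] ∧
      f [false, false, true] = f [true, false, false] ∧
      f [false, true, false] = f [true, false, false] :=
  ⟨h true [false], h true [true, false], (h true [false, true]).trans (h true [true, false]),
    h true [false, false], (h false [false, true]).trans (h true [false, false])⟩

end ShearAux

open ShearAux

theorem sdc_of_sd1 {x z : R} {τ γ : List Bool → R} (h : SD1 x z τ γ) {θ : Fin 10 → R}
    (hγ : ∀ i, γ (w9 i) = gam9 θ i) : SDC x z θ (shr (θ 1) τ) := by
  obtain ⟨r1, r2, r3, r4, r5⟩ := rot5 γ h.rotG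
  have g0 : γ [true] = θ 5 := hγ 0
  have g1 : γ [false] = θ 8 + 1 + θ 1 * θ 5 := hγ 1
  have g2 : γ [true, true] = θ 3 + 1 := hγ 2
  have g3 : γ [true, false] = θ 4 + θ 1 * θ 3 := hγ 3
  have g4 : γ [false, false] = θ 7 + θ 1 ^ 2 * θ 3 + 2 * θ 1 * θ 4 := hγ 4
  have g5 : γ [true, true, true] = θ 0 := hγ 5
  have g6 : γ [true, true, false] = θ 0 * θ 1 := hγ 6
  have g7 : γ [true, false, false] = θ 2 + θ 0 * θ 1 ^ 2 := hγ 7
  have g8 : γ [false, false, false] = θ 6 + θ 0 * θ 1 ^ 3 + 3 * θ 2 * θ 1 := hγ 8
  have hA : ∀ w, ((splits true w).map fun s => shr (θ 1) τ s.1 * shr (θ 1) τ s.2).sum +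
      insA θ (shr (θ 1) τ) w [] = 0 := by
    intro w
    have e : shr (θ 1) (fun W => τ (W ++ [true])) w = _ :=
      congrArg (fun F => shr (θ 1) F w) (funext fun W => (h.rotT true W).trans (h.sdA W))
    rw [shr_add, shr_spA (θ 1) fun A B => τ A * τ B] at e
    simp only [shr2_prod, tails, List.map_cons, List.map_nil, List.sum_cons, List.sum_nil,
      shr_add, shr_mul, add_zero, r2, g0, g2, g3, g5, g6, g7] at e
    simp only [insA, shr_append, shr_true, shr_false, shr_nil, shr_add, shr_mul]
    linear_combination -e
  refine ⟨h.nil, shr_rot h.rotT _, hA, fun w => ?_⟩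
  have e : shr (θ 1) (fun W => τ (false :: W ++ [])) w = _ :=
    congrArg (fun F => shr (θ 1) F w) (funext fun W =>
      (congrArg τ (List.append_nil (false :: W))).trans (h.sdB W))
  rw [shr_add, shr_add, shr_spB (θ 1) fun A B => τ (false :: A) * τ B] at e
  simp only [shr2_prod, tails, List.map_cons, List.map_nil, List.sum_cons, List.sum_nil,
    shr_add, shr_mul, add_zero, r1, r3, r4, r5, g1, g3, g4, g6, g7, g8] at e
  have e2 := hA (false :: w)
  rw [sp_tf fun a b => shr (θ 1) τ a * shr (θ 1) τ b] at e2
  simp only [insA, shr_append, shr_true, shr_false, shr_nil, shr_add, shr_mul] at e2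
  simp only [insB, shr_append, shr_true, shr_false, shr_nil, shr_add, shr_mul]
  linear_combination -e - θ 1 * e2

theorem shr_w9 {τ : List Bool → R} (h : ∀ c w, τ (w ++ [c]) = τ (c :: w)) (l : R) (i : Fin 9) :
    shr l τ (w9 i) = shear l (fun j => τ (w9 j)) i := by
  obtain ⟨r1, r2, r3, r4, r5⟩ := rot5 τ h
  fin_cases i <;> simp [w9, shear, shr_true, shr_false, shr_nil, r1, r2, r3, r4, r5] <;> ring

theorem SDC.rel {x z : R} {θ : Fin 10 → R} {τ : List Bool → R} (h : SDC x z θ τ) (j : Fin 4) :
    relT x z θ (fun i => τ (w9 i)) j = 0 := by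
  obtain ⟨r1, r2, r3, r4, r5⟩ := rot5 τ h.rotT
  have e0 := h.sdA []
  have e1 := h.sdA [true]
  have e2 := h.sdA [false]
  have e3 := h.sdB []
  simp [splits, insA, insB, h.nil, r1, r3, r4, r5] at e0 e1 e2 e3
  fin_cases j
  · simp [relT, Pool.Agent.P.MP_48bde8_co.rel, w9]
    linear_combination e0
  · simp [relT, Pool.Agent.P.MP_48bde8_co.rel, w9]
    linear_combination e1
  · simp [relT, Pool.Agent.P.MP_48bde8_co.rel, w9]
    linear_combination e2
  · simp [relT, Pool.Agent.P.MP_48bde8_co.rel, w9]
    linear_combination e3

theorem cls_w9 (i : Fin 9) : cls (w9 i) = i := by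
  fin_cases i <;> rfl

theorem cls_rot (c : Bool) (w : List Bool) : cls (w ++ [c]) = cls (c :: w) := by
  have h1 : (w ++ [c]).length = (c :: w).length := by simp
  have h2 : (w ++ [c]).count true = (c :: w).count true := by
    simp [List.count_cons]
  unfold cls
  rw [h1, h2]

/-- A rotation invariant function on short words is determined by the nine values. -/
theorem rot_cls {τ : List Bool → R} (h : ∀ c w, τ (w ++ [c]) = τ (c :: w)) {u : List Bool}
    (hu : u ∈ words) : τ u = τ (w9 (cls u)) := by
  obtain ⟨r1, r2, r3, r4, r5⟩ := rot5 τ h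
  simp only [words, tails, List.map_cons, List.map_nil, List.cons_append, List.nil_append,
    List.mem_cons, List.not_mem_nil, or_false] at hu
  rcases hu with rfl | rfl | rfl | rfl | rfl | rfl | rfl | rfl | rfl | rfl | rfl | rfl | rfl | rfl
  exacts [rfl, rfl, rfl, rfl, rfl, r2, rfl, rfl, r1, rfl, r3, r5, r4, rfl]

namespace ShearAux

theorem dn_add (a b c d : R) : dn a b + dn c d = dn (a + c) (b + d) := by
  ext <;> simp [dn]

theorem dn_mul (a b c d : R) : dn a b * dn c d = dn (a * c) (a * d + b * c) := by
  ext <;> simp [dn]

theorem inD_eq (a : R) : inD a = dn a 0 := by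
  ext <;> simp [dn, inD]

theorem dn_sum {α : Type} (S : List α) (f g : α → R) :
    (S.map fun s => dn (f s) (g s)).sum = dn (S.map f).sum (S.map g).sum := by
  induction S with
  | nil => ext <;> simp [dn]
  | cons s S ih => simp only [List.map_cons, List.sum_cons, ih, dn_add]

theorem comb {U A : Type} (L : List U) (c : U → R) (S : List A) (f : U → A → R) :
    (L.map fun u => c u * (S.map fun s => f u s).sum).sum =
      (S.map fun s => (L.map fun u => c u * f u s).sum).sum := by
  induction L with
  | nil => simp
  | cons u L ih =>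
    simp only [List.map_cons, List.sum_cons, ih, List.sum_map_add, List.sum_map_mul_left]

theorem lastA (D : Fin 9 → R) (F : List Bool → R) :
    (words.map fun u => D (cls u) * ((splits true u).map fun s => F (s.2 ++ s.1)).sum).sum =
      (tails.map fun s => (((w9 (cls (true :: s))).length : R) * D (cls (true :: s))) * F s).sum := by
  simp [words, tails, splits, cls, w9]
  ring

theorem lastB (D : Fin 9 → R) (F : List Bool → R) :
    (words.map fun u => D (cls u) * ((splits false u).map fun s => F (s.2 ++ s.1)).sum).sum =
      (tails.map fun s =>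
        (((w9 (cls (false :: s))).length : R) * D (cls (false :: s))) * F s).sum := by
  simp [words, tails, splits, cls, w9]
  ring

theorem words_len : ∀ u ∈ words, u ≠ [] ∧ (w9 (cls u)).length = u.length := by decide

theorem w9_pos (i : Fin 9) : (w9 i).length ≠ 0 := by fin_cases i <;> simp [w9]

end ShearAux

variable [Algebra ℚ R]

/-- The variation of the one-boundary function. -/
def varT (ω : List Bool → List Bool → R) (Δ : Fin 9 → R) (w : List Bool) : R :=
  (words.map fun u => (u.length : ℚ)⁻¹ • (Δ (cls u) * ω u w)).sum

theorem sd1_dual {x z : R} {τ γ : List Bool → R} {ω : List Bool → List Bool → R}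
    (h1 : SD1 x z τ γ) (h2 : ∀ u, u ≠ [] → SD2 x τ γ u (ω u)) (Δ : Fin 9 → R) :
    SD1 (inD x) (inD z) (fun w => dn (τ w) (varT ω Δ w)) (fun u => dn (γ u) (Δ (cls u))) := by
  obtain ⟨D, hD⟩ : ∃ D : Fin 9 → R, ∀ i, D i = ((w9 i).length : ℚ)⁻¹ • Δ i := ⟨_, fun _ => rfl⟩
  have hΔ : ∀ i, ((w9 i).length : R) * D i = Δ i := by
    intro i
    have h0 : ((w9 i).length : ℚ) ≠ 0 := Nat.cast_ne_zero.2 (w9_pos i)
    rw [hD, ← nsmul_eq_mul, ← Nat.cast_smul_eq_nsmul ℚ, smul_smul, mul_inv_cancel₀ h0, one_smul]
  have hv : ∀ w, varT ω Δ w = (words.map fun u => D (cls u) * ω u w).sum := by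
    intro w
    unfold varT
    refine congrArg List.sum (List.map_congr_left fun u hu => ?_)
    rw [hD, (words_len u hu).2, smul_mul_assoc]
  have hc : ∀ {w : List Bool} {F : List Bool → R}, (∀ u, u ≠ [] → ω u w = F u) →
      varT ω Δ w = (words.map fun u => D (cls u) * F u).sum := by
    intro w F hF
    rw [hv]
    exact congrArg List.sum (List.map_congr_left fun u hu => by rw [hF u (words_len u hu).1])
  have hl : ∀ (a : R) (f : List Bool → R), (words.map fun u => D (cls u) * (a * f u)).sum =
      a * (words.map fun u => D (cls u) * f u).sum := by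
    intro a f
    simp only [mul_left_comm (D _), List.sum_map_mul_left]
  have hr : ∀ (a : R) (f : List Bool → R), (words.map fun u => D (cls u) * (f u * a)).sum =
      (words.map fun u => D (cls u) * f u).sum * a := by
    intro a f
    simp only [← mul_assoc, List.sum_map_mul_right]
  refine ⟨?_, fun c w => ?_, fun c w => ?_, fun W => ?_, fun W => ?_⟩
  · rw [h1.nil, hc fun u hu => (h2 u hu).nil, inD_eq]
    simp
  · rw [h1.rotT, hc fun u hu => (h2 u hu).rotT c w, ← hv]
  · rw [h1.rotG, cls_rot]
  · simp only [dn_mul, dn_sum, dn_add]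
    rw [← h1.sdA, hc fun u hu => (h2 u hu).sdA W]
    congr 1
    simp only [mul_add, List.sum_map_add, List.append_assoc]
    rw [lastA D fun s => τ (W ++ s), comb, comb, comb]
    simp only [hΔ, hv, hl, hr]
    ring
  · simp only [inD_eq, dn_mul, dn_sum, dn_add]
    rw [← h1.sdB, hc fun u hu => (h2 u hu).sdB W]
    congr 1
    simp only [mul_add, List.sum_map_add, List.append_assoc]
    rw [lastB D fun s => τ (false :: W ++ s), comb, comb, comb]
    simp only [hΔ, hv, hl, hr]
    ring

end Pool.Agent.P.MP_48bde8_co
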