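import Pool.Agent.P.MP_48bde8_co.Param
import Pool.Agent.P.MP_48bde8_co.Phi
import Pool.Agent.P.MP_48bde8_co.Curve
import Pool.Agent.P.MP_48bde8_co.Cplt
import Pool.Agent.P.MP_48bde8_co.NodeH
import Pool.Agent.P.MP_48bde8_co.Hess
import Pool.Agent.P.MP_48bde8_co.Shear

/-! Task EXIST: existence of the six nodes. -/

namespace Pool.Agent.P.MP_48bde8_co

open PowerSeries

namespace Exist

section Gen

variable {R Λ : Type} [CommRing R] [CommRing Λ]

theorem sv_cast (i : Fin 6) : ((sv i).toNat : ℤ) = sv i := by fin_cases i <;> rfl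

theorem map_sUnit (χ : R →+* Λ) (ε si : R) (i : Fin 6) (δ : R) :
    χ (sUnit ε si i δ) = sUnit (χ ε) (χ si) i (χ δ) := by
  fin_cases i <;> simp [sUnit]

theorem sUnit_mem {S : Subring Λ} {e si δ : Λ} (he : e ∈ S) (hsi : si ∈ S) (hδ : δ ∈ S)
    (i : Fin 6) : sUnit e si i δ ∈ S := by
  have h3 : si ^ 6 * (1 + e ^ 4 * δ) - e ^ 20 ∈ S :=
    sub_mem (mul_mem (pow_mem hsi 6) (add_mem (one_mem S) (mul_mem (pow_mem he 4) hδ)))
      (pow_mem he 20)
  fin_cases i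
  · exact sub_mem (mul_mem (pow_mem he 2) hδ) (one_mem S)
  · exact sub_mem hδ (pow_mem he 2)
  · exact sub_mem hδ (pow_mem he 12)
  · exact h3
  · exact h3
  · exact sub_mem (mul_mem (pow_mem he 26) hδ) (one_mem S)

theorem om_mem {S : Subring Λ} {e : Λˣ} {si δ : Λ} (he : (e : Λ) ∈ S) (hsi : si ∈ S)
    (hδ : δ ∈ S) (i : Fin 6) : om e si i δ ∈ S := by
  have h3 : si ^ 6 * (1 + (e : Λ) ^ 4 * δ) ∈ S :=
    mul_mem (pow_mem hsi 6) (add_mem (one_mem S) (mul_mem (pow_mem he 4) hδ))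
  fin_cases i
  exacts [hδ, hδ, hδ, h3, h3, hδ]

theorem un_mem {S : Subring Λ} {sg δ : Λ} (hsg : sg ∈ S) (hδ : δ ∈ S) (i : Fin 6) :
    un sg i δ ∈ S := by
  fin_cases i
  exacts [one_mem S, one_mem S, one_mem S, sub_mem hδ (sub_mem (pow_mem hsg 2) hsg),
    sub_mem hδ (add_mem (pow_mem hsg 2) hsg), one_mem S]

/-- The unit part of a node before inverting the uniformiser. -/
def omO (ε si : R) (i : Fin 6) (δ : R) : R :=
  ![δ, δ, δ, si ^ 6 * (1 + ε ^ 4 * δ), si ^ 6 * (1 + ε ^ 4 * δ), δ] i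

theorem map_omO {R' : Type} [CommRing R'] (χ : R →+* R') (ε si : R) (i : Fin 6) (δ : R) :
    χ (omO ε si i δ) = omO (χ ε) (χ si) i (χ δ) := by
  fin_cases i <;> simp [omO]

theorem om_eq (e : Λˣ) (si : Λ) (i : Fin 6) (δ : Λ) : om e si i δ = omO (e : Λ) si i δ := rfl

theorem s_spec (χ : R →+* Λ) {ε si δ y : R} {e : Λˣ} (he : χ ε = e) (i : Fin 6)
    (hy : sUnit ε si i δ * y = 1) :
    χ (ε ^ (sv i).toNat * y) * (mOf e (χ si) i (χ δ) - 1) = 1 := by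
  have h1 := sUnit_spec e (χ si) i (χ δ)
  rw [← sv_cast, zpow_natCast, Units.val_pow_eq_pow_val, ← he, ← map_sUnit] at h1
  have h2 := congrArg χ hy
  rw [map_mul, map_one] at h2
  rw [map_mul, map_pow]
  linear_combination χ y * h1 + h2

/-- The derivative of the curve along the physical branch. -/
theorem core {S : Subring Λ} {e : Λˣ} {sg si hf : Λ} {θ : Fin 10 → Λ}
    (h : ParLT S e sg si hf θ) (i : Fin 6) {δ G y G0 : Λ} (hδ : δ ∈ S)
    (hω : ∃ y ∈ S, om e si i δ * y = 1) (hU : ∃ y ∈ S, un sg i δ * y = 1) (hy : y ∈ S)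
    (hG0 : G0 ∈ S) (hG : G = (e : Λ) ^ 2 * ((e : Λ) ^ (sv i).toNat * y) * G0) :
    IsUnit (mOf e si i δ) ∧ ∃ f,
      mOf e si i δ * f = -(mOf e si i δ * G) - (1 - -(sg ^ 2 * (e : Λ) ^ 2)) ∧
      ∃ U : Λˣ, ∃ g ∈ S, cFAt 1 (-(sg ^ 2 * (e : Λ) ^ 2)) e θ f (mOf e si i δ) =
        U * (δ - d0 sg si i + e * g) := by
  have hm : IsUnit (mOf e si i δ) := by
    obtain ⟨w, -, hw⟩ := hω
    exact (Units.isUnit _).mul (IsUnit.of_mul_eq_one w hw)
  obtain ⟨n, hn⟩ := hm.exists_right_inv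
  have hf' : mOf e si i δ * (-G - (1 - -(sg ^ 2 * (e : Λ) ^ 2)) * n) =
      -(mOf e si i δ * G) - (1 - -(sg ^ 2 * (e : Λ) ^ 2)) := by
    linear_combination (-(1 - -(sg ^ 2 * (e : Λ) ^ 2))) * hn
  refine ⟨hm, _, hf', cF_node h i hδ hω hU ⟨y * G0, mul_mem hy hG0, ?_⟩ hf'⟩
  have h2 : (2 : ℤ) + sv i = ((2 + (sv i).toNat : ℕ) : ℤ) := by rw [Nat.cast_add, sv_cast]; rfl
  rw [hG, h2, zpow_natCast, Units.val_pow_eq_pow_val]
  ring

theorem lip_unit {B : Type} {ι : R →+* Λ} (hι : Function.Injective ι) {π : B → R} {F : B → Λ}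
    (hF : F ∈ lipS ι π) (hu : ∀ b, ∃ u : R, IsUnit u ∧ F b = ι u) :
    ∃ y : B → R, (∀ b b', π b - π b' ∣ y b - y b') ∧ F * (fun b => ι (y b)) = 1 := by
  obtain ⟨g, hg, hg'⟩ := hF
  obtain ⟨y, hy, hy'⟩ := lip_inv π hg' fun b => by
    obtain ⟨u, h1, h2⟩ := hu b
    rw [hg] at h2
    rwa [hι h2]
  refine ⟨y, hy', funext fun b => ?_⟩
  show F b * ι (y b) = 1
  rw [hg, ← map_mul, hy, map_one]

/-- The double dual numbers. -/
def DD (R : Type) [CommRing R] : Type := DualNumber (DualNumber R)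

instance : CommRing (DD R) := (inferInstance : CommRing (DualNumber (DualNumber R)))

/-- The inclusion into the double dual numbers. -/
def in2 : R →+* DD R := (inD.comp inD : R →+* DualNumber (DualNumber R))

/-- The projection from the double dual numbers. -/
def pr2 : DD R →+* R := (fstD.comp fstD : DualNumber (DualNumber R) →+* R)

/-- The first infinitesimal component. -/
def fs : DD R →+ R where
  toFun y := TrivSqZeroExt.snd (TrivSqZeroExt.fst (show DualNumber (DualNumber R) from y))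
  map_zero' := rfl
  map_add' _ _ := rfl

/-- The second infinitesimal component. -/
def sf : DD R →+ R where
  toFun y := TrivSqZeroExt.fst (TrivSqZeroExt.snd (show DualNumber (DualNumber R) from y))
  map_zero' := rfl
  map_add' _ _ := rfl

theorem pr2_in2 (a : R) : pr2 (in2 a) = a := rfl

theorem fs_in2 (a : R) : fs (in2 a) = 0 := rfl

theorem sf_in2 (a : R) : sf (in2 a) = 0 := rfl

theorem isUnit_of_pr2 {y : DD R} (h : IsUnit (pr2 y)) : IsUnit y :=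
  (TrivSqZeroExt.isUnit_iff_isUnit_fst (R := DualNumber R) (M := DualNumber R)).2
    ((TrivSqZeroExt.isUnit_iff_isUnit_fst (R := R) (M := R)).2 h)

theorem cpl_in2 {ε : R} (h : Cpl ε) : Cpl (in2 ε) := h.dual.dual

theorem exists_var (δ : R) : ∃ D : DD R, pr2 D = δ ∧ fs D = 1 ∧ sf D = 1 := by
  refine ⟨(dn (dn δ 1) (dn 1 0) : DualNumber (DualNumber R)), ?_, ?_, ?_⟩
  · show (dn (dn δ 1) (dn 1 0)).fst.fst = δ
    simp
  · show (dn (dn δ 1) (dn 1 0)).fst.snd = 1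
    simp
  · show (dn (dn δ 1) (dn 1 0)).snd.fst = 1
    simp

theorem exists_chi (ψ : R →+* Λ) :
    ∃ χ : DD R →+* DD Λ, (∀ y, pr2 (χ y) = ψ (pr2 y)) ∧ (∀ y, fs (χ y) = ψ (fs y)) ∧
      (∀ y, sf (χ y) = ψ (sf y)) ∧ ∀ a, χ (in2 a) = in2 (ψ a) := by
  obtain ⟨χ1, h1⟩ := exists_mapD ψ 1
  obtain ⟨χ, h2⟩ := exists_mapD χ1 1
  have k1 : ∀ y, (χ1 y).fst = ψ y.fst ∧ (χ1 y).snd = ψ y.snd := fun y => by
    rw [← dn_fst_snd y, h1]; simp
  have k2 : ∀ y, (χ y).fst = χ1 y.fst ∧ (χ y).snd = χ1 y.snd := fun y => by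
    rw [← dn_fst_snd y, h2]; simp
  refine ⟨χ, fun y => ?_, fun y => ?_, fun y => ?_, fun a => ?_⟩
  · exact (congrArg TrivSqZeroExt.fst (k2 y).1).trans (k1 _).1
  · exact (congrArg TrivSqZeroExt.snd (k2 y).1).trans (k1 _).2
  · exact (congrArg TrivSqZeroExt.fst (k2 y).2).trans (k1 _).1
  · show χ (inD (inD a)) = inD (inD (ψ a))
    rw [← dn_zero (inD a), h2, map_zero, mul_zero, dn_zero, ← dn_zero a, h1,
      map_zero, mul_zero, dn_zero]

theorem fs_aux (y w : DualNumber (DualNumber R)) :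
    (y * w).fst.snd = y.fst.fst * w.fst.snd + y.fst.snd * w.fst.fst := by
  rw [TrivSqZeroExt.fst_mul, DualNumber.snd_mul]

theorem sf_aux (y w : DualNumber (DualNumber R)) :
    (y * w).snd.fst = y.fst.fst * w.snd.fst + y.snd.fst * w.fst.fst := by
  rw [DualNumber.snd_mul, TrivSqZeroExt.fst_add, TrivSqZeroExt.fst_mul, TrivSqZeroExt.fst_mul]

theorem fs_mul (y w : DD R) : fs (y * w) = pr2 y * fs w + fs y * pr2 w := fs_aux y w

theorem sf_mul (y w : DD R) : sf (y * w) = pr2 y * sf w + sf y * pr2 w := sf_aux y w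

theorem sing_dd {L : Type} [Field L] {x z t : L} {θ : Fin 10 → L} {f m : DD L}
    (h0 : curveAt (in2 x) (in2 z) (in2 t) (fun j => in2 (θ j)) f m = 0)
    (h1 : pr2 (cFAt (in2 x) (in2 z) (in2 t) (fun j => in2 (θ j)) f m) = 0)
    (h2 : fs (cFAt (in2 x) (in2 z) (in2 t) (fun j => in2 (θ j)) f m) ≠ 0)
    (h3 : sf (cFAt (in2 x) (in2 z) (in2 t) (fun j => in2 (θ j)) f m) ≠ 0)
    (h4 : fs m ≠ 0) (h5 : sf m ≠ 0) :
    Sing x z t θ (pr2 f) (pr2 m) ∧ NonDeg x z t θ (pr2 f) (pr2 m) := by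
  have key : ∀ (w : DD L) (w' : DualNumber (DualNumber L)), w = w' →
      pr2 w = w'.fst.fst ∧ fs w = w'.fst.snd ∧ sf w = w'.snd.fst := by
    rintro w _ rfl
    exact ⟨rfl, rfl, rfl⟩
  have t0 : curveAt (in2 x) (in2 z) (in2 t) (fun j => in2 (θ j)) f m =
      curveAt (R := DualNumber (DualNumber L)) (inD (inD x)) (inD (inD z)) (inD (inD t))
        (fun j => inD (inD (θ j))) f m := rfl
  have t1 : cFAt (in2 x) (in2 z) (in2 t) (fun j => in2 (θ j)) f m =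
      cFAt (R := DualNumber (DualNumber L)) (inD (inD x)) (inD (inD z)) (inD (inD t))
        (fun j => inD (inD (θ j))) f m := rfl
  obtain ⟨k1, k2, k3⟩ := key _ _ t1
  exact sing_nondeg (f := f) (m := m) (t0.symm.trans h0) (k1.symm.trans h1)
    (fun hc => h2 (k2.trans hc)) (fun hc => h3 (k3.trans hc)) h4 h5

/-- The node is an affine function of the parameter. -/
theorem mOf_aff (e : Λˣ) {si : Λ} (hsi : IsUnit si) (i : Fin 6) :
    ∃ A B : Λ, IsUnit B ∧ ∀ D : DD Λ,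
      mOf (Units.map (in2 (R := Λ)).toMonoidHom e) (in2 si) i D = in2 A + in2 B * D := by
  have he : ∀ n : ℤ, (((Units.map (in2 (R := Λ)).toMonoidHom e) ^ n :
      (DD Λ)ˣ) : DD Λ) = in2 ((e ^ n : Λˣ) : Λ) :=
    fun n => by rw [← map_zpow]; rfl
  have h1 : ∀ i : Fin 6, (∀ (R : Type) [CommRing R] (ε s D : R), omO ε s i D = D) ∨
      ∀ (R : Type) [CommRing R] (ε s D : R), omO ε s i D = s ^ 6 * (1 + ε ^ 4 * D) := by
    intro i
    fin_cases i
    exacts [Or.inl fun _ _ _ _ _ => rfl, Or.inl fun _ _ _ _ _ => rfl, Or.inl fun _ _ _ _ _ => rfl,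
      Or.inr fun _ _ _ _ _ => rfl, Or.inr fun _ _ _ _ _ => rfl, Or.inl fun _ _ _ _ _ => rfl]
  rcases h1 i with h | h
  · refine ⟨0, ((e ^ kx i : Λˣ) : Λ), Units.isUnit _, fun D => ?_⟩
    rw [mOf, om_eq, h, he, map_zero, zero_add]
  · refine ⟨((e ^ kx i : Λˣ) : Λ) * si ^ 6, ((e ^ kx i : Λˣ) : Λ) * si ^ 6 * (e : Λ) ^ 4,
      ((Units.isUnit _).mul (hsi.pow 6)).mul ((Units.isUnit e).pow 4), fun D => ?_⟩
    have h2 : ((Units.map (in2 (R := Λ)).toMonoidHom e :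
      (DD Λ)ˣ) : DD Λ) = in2 (e : Λ) := rfl
    rw [mOf, om_eq, h, he, h2]
    simp only [map_mul, map_pow]
    ring

/-- From a root of the derivative to a nondegenerate singular point. -/
theorem node_gen {O L : Type} [CommRing O] [Field L] {ι : O →+* L} (hι : Function.Injective ι)
    {ε sg si hf' z : O} {eL : Lˣ} (heL : ι ε = eL) (hC : Cpl ε) (hinv : sg * si = 1)
    (hhf : 2 * hf' = 1) (hzL : ι z = -(ι sg ^ 2 * (eL : L) ^ 2)) {θ : Fin 10 → O}
    {τ φ : List Bool → O} (hτ : SDC 1 z θ τ) (hsm : Small ε z θ)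
    (hpa : ParLT ι.range eL (ι sg) (ι si) (ι hf') fun j => ι (θ j))
    (hloc : ∀ y ∈ ι.range, IsUnit (1 + (eL : L) * y)) (hkap : θ 9 = Kap 1 z θ τ)
    (hmom : ∀ j, τ (w9 j) = shear (θ 1) (mom0 1 z ε) j) (i : Fin 6) {δ s : O} {f : L}
    (hφ : IsPhi ε s 1 τ φ) (hδ : ε ∣ δ - d0 sg si i)
    (hs : ι s * (mOf eL (ι si) i (ι δ) - 1) = 1)
    (hf : mOf eL (ι si) i (ι δ) * f = -(mOf eL (ι si) i (ι δ) * ι (φ [])) - (1 - ι z))
    (hcF : cFAt 1 (ι z) (ι ε) (fun j => ι (θ j)) f (mOf eL (ι si) i (ι δ)) = 0) :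
    Sing 1 (ι z) (ι ε) (fun j => ι (θ j)) f (mOf eL (ι si) i (ι δ)) ∧
      NonDeg 1 (ι z) (ι ε) (fun j => ι (θ j)) f (mOf eL (ι si) i (ι δ)) := by
  have hC2 := cpl_in2 hC
  have hτ2 := hτ.map in2
  have hb2 := cB_dvd hτ2 (hsm.map in2)
  obtain ⟨G0, hG0, -⟩ := phi_nil hC2 hb2
  obtain ⟨χ, c1, c2, c3, c4⟩ := exists_chi ι
  obtain ⟨D, hpD, hD1, hD2⟩ := exists_var δ
  have hun := node_units hC hinv hhf i hδ
  obtain ⟨y1, hy1⟩ : ∃ y, omO (in2 ε) (in2 si) i D * y = 1 :=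
    (isUnit_of_pr2 (by rw [map_omO, pr2_in2, pr2_in2, hpD]; exact hun.2.2)).exists_right_inv
  obtain ⟨y2, hy2⟩ : ∃ y, un (in2 sg) i D * y = 1 :=
    (isUnit_of_pr2 (by rw [map_un, pr2_in2, hpD]; exact hun.2.1)).exists_right_inv
  obtain ⟨y, hy⟩ : ∃ y, sUnit (in2 ε) (in2 si) i D * y = 1 :=
    (isUnit_of_pr2 (by rw [map_sUnit, pr2_in2, pr2_in2, hpD]; exact hun.1)).exists_right_inv
  obtain ⟨φ2, hφ2⟩ := phi_exists hC2 hb2 (in2 ε ^ (sv i).toNat * y)
  have hpar := hpa.map (in2 (R := L)) (S' := χ.range) (by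
    rintro _ ⟨a, rfl⟩
    exact ⟨in2 a, c4 a⟩)
  obtain ⟨A0, B0, hB0, haff⟩ := mOf_aff eL (si := ι si)
    ((IsUnit.of_mul_eq_one_right _ hinv).map _) i
  set e : (DD L)ˣ := Units.map (in2 (R := L)).toMonoidHom eL with he
  have hee : (e : DD L) = in2 (ι ε) := by rw [heL]; rfl
  have hχe : χ (in2 ε) = e := by rw [c4, hee]
  obtain ⟨hmu, f2, hf2, U, _, ⟨g, rfl⟩, hU⟩ := core hpar i (δ := χ D) (G := χ (φ2 []))
    (y := χ y) (G0 := χ (G0 (in2 ε ^ (sv i).toNat * y))) ⟨D, rfl⟩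
    ⟨χ y1, ⟨y1, rfl⟩, by rw [om_eq, ← hχe, ← c4, ← map_omO, ← map_mul, hy1, map_one]⟩
    ⟨χ y2, ⟨y2, rfl⟩, by rw [← c4, ← map_un, ← map_mul, hy2, map_one]⟩ ⟨y, rfl⟩ ⟨_, rfl⟩
    (by rw [hG0 _ _ hφ2, ← hχe]; simp only [map_mul, map_pow])
  have hs2 := s_spec χ hχe i hy
  rw [c4] at hs2
  set m2 := mOf e (in2 (ι si)) i (χ D) with hm2
  set m := mOf eL (ι si) i (ι δ) with hm
  have hz : -(in2 (ι sg) ^ 2 * (e : DD L) ^ 2) = in2 (ι z) := by
    rw [hzL]; simp only [map_neg, map_mul, map_pow]; rfl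
  rw [hz] at hf2 hU
  rw [hee] at hU
  have hpm : pr2 m2 = m := by
    have h1 : Units.map (pr2 (R := L)).toMonoidHom e = eL := Units.ext rfl
    rw [hm2, map_mOf, h1, pr2_in2, c1, hpD]
  have hps : pr2 (in2 ε ^ (sv i).toNat * y) = s := by
    have h1 := congrArg pr2 hs2
    rw [map_mul, map_sub, map_one, hpm, c1] at h1
    refine hι ?_
    linear_combination ι s * h1 - ι (pr2 (in2 ε ^ (sv i).toNat * y)) * hs
  have hpφ : (fun w => pr2 (φ2 w)) = φ := by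
    have h1 := hφ2.map pr2
    simp only [pr2_in2, hps] at h1
    exact h1.unique hC hφ
  have hm0 : m ≠ 0 := by rw [← hpm]; exact (hmu.map pr2).ne_zero
  have hpf : pr2 f2 = f := by
    have h1 := congrArg pr2 hf2
    rw [map_mul, map_sub, map_sub, map_neg, map_mul, hpm, c1, map_one, pr2_in2,
      congrFun hpφ [], ← hf] at h1
    exact mul_left_cancel₀ hm0 h1
  have hunits := hpa.units hloc
  have h0 : curveAt (in2 1) (in2 (ι z)) (in2 (ι ε)) (fun j => in2 (ι (θ j))) f2 m2 = 0 := by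
    let ψ : O →+* DD L := in2.comp ι
    have hpr := (hφ2.pr hC2 hτ2 hb2).map χ
    simp only [c4] at hpr
    have h1 := curve_zero (f := f2) (m := m2) (hτ.map ψ) hpr
      (by rw [map_one]; exact hs2) (by rw [map_one]; exact hf2) (hunits.1.map in2)
      (hunits.2.1.map in2) hmu
    rw [← map_Kap, ← hkap] at h1
    have h2 : (fun i => ψ (τ (w9 i))) = shear (ψ (θ 1)) (mom0 (ψ 1) (ψ z) (ψ ε)) := by
      funext j
      rw [hmom, map_shear]
      simp only [map_mom0]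
    rw [h2, map_one] at h1
    rw [curveAt_eq, map_one]
    exact h1
  have hU' : cFAt (in2 1) (in2 (ι z)) (in2 (ι ε)) (fun j => in2 (ι (θ j))) f2 m2 =
      U * (χ D - in2 (d0 (ι sg) (ι si) i) + in2 (ι ε) * χ g) := by
    rw [map_one, map_d0]; exact hU
  have h1 : pr2 (cFAt (in2 1) (in2 (ι z)) (in2 (ι ε)) (fun j => in2 (ι (θ j))) f2 m2) = 0 := by
    rw [map_cFAt]
    simp only [pr2_in2, hpf, hpm]
    exact hcF
  have hU0 : pr2 (U : DD L) ≠ 0 := (U.isUnit.map pr2).ne_zero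
  set W := χ D - in2 (d0 (ι sg) (ι si) i) + in2 (ι ε) * χ g with hW
  have hW0 : pr2 W = 0 := by
    rw [hU', map_mul] at h1
    exact (mul_eq_zero.1 h1).resolve_left hU0
  have hW1 : fs W = 1 + (eL : L) * ι (fs g) := by
    rw [hW, map_add, map_sub, fs_mul, c2, c2, hD1, fs_in2, fs_in2, pr2_in2, heL, map_one]
    ring
  have hW2 : sf W = 1 + (eL : L) * ι (sf g) := by
    rw [hW, map_add, map_sub, sf_mul, c3, c3, hD2, sf_in2, sf_in2, pr2_in2, heL, map_one]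
    ring
  have hfin := sing_dd h0 h1
    (by
      rw [hU', fs_mul, hW0, hW1, mul_zero, add_zero]
      exact mul_ne_zero hU0 (hloc _ ⟨_, rfl⟩).ne_zero)
    (by
      rw [hU', sf_mul, hW0, hW2, mul_zero, add_zero]
      exact mul_ne_zero hU0 (hloc _ ⟨_, rfl⟩).ne_zero)
    (by
      rw [hm2, haff, map_add, fs_mul, fs_in2, fs_in2, pr2_in2, c2, hD1]
      simpa using hB0.ne_zero)
    (by
      rw [hm2, haff, map_add, sf_mul, sf_in2, sf_in2, pr2_in2, c3, hD2]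
      simpa using hB0.ne_zero)
  rwa [hpf, hpm] at hfin

end Gen

variable {k : Type} [Field k] [Algebra ℚ k] {σ : k}

omit [Algebra ℚ k] in
theorem io_inj : Function.Injective (io k) := IsFractionRing.injective _ _

omit [Algebra ℚ k] in
theorem io_z (σ : k) : io k (zO σ) = -(io k (C σ) ^ 2 * (eL k : Lf k) ^ 2) := by
  simp [zO, eL]

omit [Algebra ℚ k] in
theorem sg_si (hσ : σ ≠ 0) : (C σ : PowerSeries k) * C σ⁻¹ = 1 := by
  rw [← map_mul, mul_inv_cancel₀ hσ, map_one]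

theorem two_hf : (2 : PowerSeries k) * C 2⁻¹ = 1 := by
  have : CharZero k := algebraRat.charZero k
  rw [show (2 : PowerSeries k) = C 2 from (map_ofNat C 2).symm, ← map_mul,
    mul_inv_cancel₀ two_ne_zero, map_one]

end Exist

open Exist

variable {k : Type} [Field k] [Algebra ℚ k] {σ : k} {τ γ : List Bool → PowerSeries k}
  {ω : List Bool → List Bool → PowerSeries k} {θ : Fin 10 → PowerSeries k}

/-- A root of the derivative along the physical branch. -/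
theorem Setup.root (h : Setup σ τ γ ω θ) (i : Fin 6) :
    ∃ (δ s : PowerSeries k) (φ : List Bool → PowerSeries k) (f : Lf k),
      IsPhi X s 1 (shr (θ 1) τ) φ ∧ X ∣ δ - d0 (C σ) (C σ⁻¹) i ∧
      io k s * (mOf (eL k) (io k (C σ⁻¹)) i (io k δ) - 1) = 1 ∧
      mOf (eL k) (io k (C σ⁻¹)) i (io k δ) * f =
        -(mOf (eL k) (io k (C σ⁻¹)) i (io k δ) * io k (φ [])) - (1 - io k (zO σ)) ∧
      cFAt 1 (io k (zO σ)) (io k X) (fun j => io k (θ j)) f
        (mOf (eL k) (io k (C σ⁻¹)) i (io k δ)) = 0 := by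
  have hC := cpl_powerSeries k
  have hb := cB_dvd (sdc_of_sd1 h.sd1 h.gam) h.small
  obtain ⟨G0, hG0, hG0'⟩ := phi_nil hC hb
  let B := {δ : PowerSeries k // X ∣ δ - d0 (C σ) (C σ⁻¹) i}
  let c : Lf k →+* (B → Lf k) := Pi.constRingHom B (Lf k)
  let S : Subring (B → Lf k) := lipS (io k) (Subtype.val : B → PowerSeries k)
  have hpar := h.par.map c (S' := S) (by
    rintro _ ⟨a, rfl⟩
    exact lip_const _ _ a)
  set e : (B → Lf k)ˣ := Units.map c.toMonoidHom (eL k) with he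
  let D : B → Lf k := fun b => io k b.1
  have hD : D ∈ S := lip_coord _ _
  have hun := fun b : B => node_units hC (sg_si h.hσ) two_hf i b.2
  obtain ⟨y1, hy1, hy1'⟩ := lip_unit io_inj (om_mem hpar.he hpar.hsi hD i) fun b =>
    ⟨omO X (C σ⁻¹) i b.1, (hun b).2.2, by
      rw [map_omO, om_eq]
      exact map_omO (Pi.evalRingHom (fun _ : B => Lf k) b) _ _ i D⟩
  obtain ⟨y2, hy2, hy2'⟩ := lip_unit io_inj (un_mem hpar.hsg hD i) fun b =>
    ⟨un (C σ) i b.1, (hun b).2.1, by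
      rw [map_un]
      exact map_un (Pi.evalRingHom (fun _ : B => Lf k) b) _ i D⟩
  have hsU : ∀ b : B, sUnit (e : B → Lf k) (c (io k (C σ⁻¹))) i D b =
      io k (sUnit X (C σ⁻¹) i b.1) := fun b => by
    rw [map_sUnit]
    exact map_sUnit (Pi.evalRingHom (fun _ : B => Lf k) b) _ _ i D
  obtain ⟨y, hy, hy'⟩ := lip_unit io_inj (sUnit_mem hpar.he hpar.hsi hD i) fun b =>
    ⟨sUnit X (C σ⁻¹) i b.1, (hun b).1, hsU b⟩
  have hyb : ∀ b : B, sUnit X (C σ⁻¹) i b.1 * y b = 1 := fun b => by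
    have h1 : sUnit (e : B → Lf k) (c (io k (C σ⁻¹))) i D b * io k (y b) = 1 := congrFun hy' b
    rw [hsU, ← map_mul, ← map_one (io k)] at h1
    exact io_inj h1
  let s : B → PowerSeries k := fun b => X ^ (sv i).toNat * y b
  have hs : ∀ b b' : B, b.1 - b'.1 ∣ G0 (s b) - G0 (s b') := fun b b' => by
    refine Dvd.dvd.trans ?_ (hG0' _ _)
    show b.1 - b'.1 ∣ X ^ (sv i).toNat * y b - X ^ (sv i).toNat * y b'
    rw [← mul_sub]
    exact (hy b b').mul_left _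
  obtain ⟨-, f, hf, U, g, ⟨g0, hg0, hg0'⟩, hcF⟩ := core hpar i (y := fun b => io k (y b))
    (G0 := fun b => io k (G0 (s b))) hD ⟨_, ⟨y1, fun _ => rfl, hy1⟩, hy1'⟩
    ⟨_, ⟨y2, fun _ => rfl, hy2⟩, hy2'⟩ ⟨y, fun _ => rfl, hy⟩ ⟨fun b => G0 (s b), fun _ => rfl, hs⟩ rfl
  obtain ⟨b, hb0⟩ := hC.fixed _ g0 hg0'
  obtain ⟨φ, hφ⟩ := phi_exists hC hb (s b)
  let ev : (B → Lf k) →+* Lf k := Pi.evalRingHom (fun _ : B => Lf k) b
  have hev : Units.map ev.toMonoidHom e = eL k := Units.ext rfl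
  have hm : ev (mOf e (c (io k (C σ⁻¹))) i D) = mOf (eL k) (io k (C σ⁻¹)) i (io k b.1) := by
    rw [map_mOf, hev]; rfl
  have hz : ev (-(c (io k (C σ)) ^ 2 * (e : B → Lf k) ^ 2)) = io k (zO σ) := by
    rw [io_z]; rfl
  refine ⟨b.1, s b, φ, ev f, hφ, b.2, s_spec (io k) rfl i (hyb b), ?_, ?_⟩
  · have h1 := congrArg ev hf
    rw [map_mul, map_sub, map_sub, map_neg, map_mul, hm, hz, map_one] at h1
    rw [h1, hG0 _ _ hφ]
    simp only [s, map_mul, map_pow]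
    rfl
  · have h1 := congrArg ev hcF
    rw [map_cFAt, hm, hz, map_one, map_mul, map_add, map_sub, map_d0, map_mul] at h1
    have h2 := congrArg (io k) hb0
    rw [map_add, map_sub, map_d0, map_mul, map_zero, ← hg0] at h2
    exact h1.trans (by
      have h3 : ev D - d0 (ev (c (io k (C σ)))) (ev (c (io k (C σ⁻¹)))) i +
        ev (e : B → Lf k) * ev g = 0 := h2
      rw [h3, mul_zero])

theorem Setup.node (h : Setup σ τ γ ω θ) (i : Fin 6) : ∃ f m, NodeOK σ τ θ i f m := by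
  obtain ⟨δ, s, φ, f, hφ, hδ, hs, hf, hcF⟩ := h.root i
  have hfin := node_gen io_inj (eL := eL k) rfl (cpl_powerSeries k) (sg_si h.hσ) two_hf (io_z σ)
    (sdc_of_sd1 h.sd1 h.gam) h.small h.par loc_range h.kap
    (fun j => by rw [shr_w9 h.sd1.rotT]; simp only [h.mom]) i hφ hδ hs hf hcF
  exact ⟨f, _, δ, s, φ, hφ, hδ, rfl, hs, hf, hfin.1, hfin.2⟩

end Pool.Agent.P.MP_48bde8_co
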