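import Pool.Agent.P.MP_48bde8_co.Grp
import Pool.Agent.P.MP_48bde8_co.Cross
import Pool.Agent.P.MP_48bde8_co.Dict

/-! Task EXTR: the signed generating function of rooted maps in terms of the model. -/

namespace Pool.Agent.P.MP_48bde8_co

open Equiv Finset PowerSeries
open scoped Classical

variable {K : Type} [CommRing K] [Algebra ℚ K] (x z : K)

namespace Extr

variable {P : Type} [Fintype P] {A : Amb P} {h : P}

omit [Fintype P] in
theorem ne_pi (hA : A.OK) (hh : h ∈ A.dt) : h ≠ A.π h := fun e => by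
  have := (hA.2.2 h hh).2.2
  rw [← e] at this
  simp at this

theorem mem_D {p : P} : p ∈ univ \ {h, A.π h} ↔ p ≠ h ∧ p ≠ A.π h := by simp

theorem closed_D (hA : A.OK) (hd : A.dt = univ) :
    ∀ p ∈ univ \ {h, A.π h}, A.π p ∈ univ \ {h, A.π h} := by
  intro p hp
  rw [mem_D] at hp ⊢
  refine ⟨fun e => hp.2 ?_, fun e => hp.1 (A.π.injective e)⟩
  rw [← e, (hA.2.2 p (hd ▸ mem_univ _)).2.1]

theorem sub_D (hA : A.OK) (hd : A.dt = univ) {V : Finset P} (hV : ∀ p ∈ V, A.π p ∈ V)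
    (hh : h ∉ V) : V ⊆ univ \ {h, A.π h} := by
  intro p hp
  refine mem_D.2 ⟨fun e => hh (e ▸ hp), fun e => hh ?_⟩
  have := hV p hp
  rwa [e, (hA.2.2 h (hd ▸ mem_univ _)).2.1] at this

theorem card_D (hA : A.OK) (hd : A.dt = univ) {k : ℕ} (hk : Fintype.card P = 2 * (k + 1)) :
    (univ \ {h, A.π h} : Finset P).card = 2 * k := by
  rw [card_sdiff_of_subset (subset_univ _), card_pair (ne_pi hA (hd ▸ mem_univ _)), card_univ]
  omega

theorem first (hA : A.OK) (hd : A.dt = univ) (hU : A.U = univ) (ht : A.ty h = true) {k : ℕ}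
    (hk : Fintype.card P = 2 * (k + 1)) :
    ∑ ψ ∈ univ.filter (fun ψ => A.Dgm ψ),
        (if ∀ S ∈ A.atoms ψ, h ∈ S.1 then 1 else 0 : ℤ) • A.wt ψ x z A.U =
      (k.factorial : K) * coeff k (tau x z [true, false]) := by
  let B : Amb P := ⟨A.π, A.ty, univ \ {h, A.π h}, A.U⟩
  have hh : h ∈ A.dt := hd ▸ mem_univ _
  have hdiv : ∀ ψ R, B.Div ψ R ↔ A.Div ψ R ∧ h ∉ R.1 := by
    intro ψ R
    constructor
    · rintro ⟨⟨⟨h1, h2, h3⟩, h4⟩, h5⟩
      exact ⟨⟨⟨⟨h1, hd ▸ subset_univ _, h3⟩, h4⟩, h5⟩, fun e => (mem_D.1 (h2 e)).1 rfl⟩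
    · rintro ⟨⟨⟨⟨h1, -, h3⟩, h4⟩, h5⟩, h6⟩
      exact ⟨⟨⟨h1, sub_D hA hd h1.1 h6, h3⟩, h4⟩, h5⟩
  have hgood : ∀ ψ, B.Good ψ ↔ ∀ S ∈ A.atoms ψ, h ∈ S.1 := by
    intro ψ
    constructor
    · intro hg S hS
      by_contra hn
      exact hg S ((hdiv ψ S).2 ⟨(mem_filter.1 hS).2.1, hn⟩)
    · intro hg R hR
      obtain ⟨h1, h2⟩ := (hdiv ψ R).1 hR
      obtain ⟨S, hS, hle⟩ := Amb.exists_atom_le h1
      exact h2 (hle.1 (hg S (mem_filter.2 ⟨mem_univ _, hS⟩)))
  have hLA : B.LA [h, A.π h] [] := by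
    refine ⟨⟨hA.1, fun p _ => hU ▸ mem_univ p, fun p hp =>
      ⟨closed_D hA hd p hp, (hA.2.2 p (hd ▸ mem_univ _)).2⟩⟩,
      ⟨by simpa using ne_pi hA hh, ?_⟩, ⟨List.nodup_nil, rfl⟩, List.disjoint_nil_right _,
      fun p => ?_⟩
    · show [A.π h, A.π (A.π h)] = [A.π h, h]
      rw [(hA.2.2 h hh).2.1]
    · show p ∈ A.U ∧ p ∉ univ \ {h, A.π h} ↔ _
      rw [hU, mem_D]
      simp only [mem_univ, true_and, List.mem_cons, List.not_mem_nil, or_false]
      tauto
  have e := T_eq x z hLA (by simp) (n := k) (card_D hA hd hk)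
  have e2 : [h, A.π h].map B.ty = [true, false] := by
    show [A.ty h, A.ty (A.π h)] = _
    rw [(hA.2.2 h hh).2.2, ht]
    rfl
  rw [e2] at e
  refine Eq.trans ?_ e
  rw [Amb.T, Amb.TS, sum_filter, sum_filter]
  refine sum_congr rfl fun ψ _ => ?_
  have e3 : B.Dgm ψ ↔ A.Dgm ψ := Iff.rfl
  have e4 : B.wt ψ x z B.U = A.wt ψ x z A.U := rfl
  rw [e3, hgood, e4]
  by_cases h1 : A.Dgm ψ <;> by_cases h2 : ∀ S ∈ A.atoms ψ, h ∈ S.1
  · rw [if_pos h1, if_pos h2, if_pos ⟨h1, h2⟩, one_smul]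
  · rw [if_pos h1, if_neg h2, if_neg fun h => h2 h.2, zero_smul]
  · rw [if_neg h1, if_neg fun h => h1 h.1]
  · rw [if_neg h1, if_neg fun h => h1 h.1]

/-- The weight of a boundary word. -/
noncomputable def ff (k : ℕ) (u : List Bool) (j : ℕ) : K :=
  (u.length : ℚ)⁻¹ • (((k + 1 - j).factorial : K) * coeff (k + 1 - j) (tau x z u))

theorem red_T (hA : A.OK) (hd : A.dt = univ) {k : ℕ} (hk : Fintype.card P = 2 * (k + 1))
    {ρ : Perm P} {V I : Finset P} (hc : (ρ, I) ∈ A.CF V) (hD : A.Disc ρ (V, I)) :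
    (A.red ρ V I).T x z = ∑ e ∈ V \ I, ff x z k ((A.blist ρ (V, I) e).map A.ty) (V.card / 2) := by
  obtain ⟨j, hj, -⟩ := exists_emb_darts hA (V := V) hD.1.2.1 hD.1.1.1
  have hb : 1 ≤ (V \ I).card := hD.2.2.2
  have h1 : ∀ e ∈ V \ I, ff x z k ((A.blist ρ (V, I) e).map A.ty) (V.card / 2) =
      (((V \ I).card : ℚ)⁻¹) • (A.red ρ V I).T x z := by
    intro e he
    obtain ⟨a1, a2, ⟨l, a3⟩, -, a5⟩ := Amb.con_ports hA hc hD he
    have hLA : (A.red ρ V I).LA (A.blist ρ (V, I) e) [] :=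
      ⟨a1, (Amb.con_cyc hA hc hD).2 e he, ⟨List.nodup_nil, rfl⟩, List.disjoint_nil_right _,
        fun p => by
          rw [a5, hd]
          simp⟩
    rw [hd, card_univ, hk, hj] at a2
    have e1 := T_eq x z hLA (by rw [a3]; simp) (n := k + 1 - j) (by omega)
    rw [ff, hj, Nat.mul_div_cancel_left _ two_pos, e1, List.length_map, Amb.blist,
      List.length_iterate]
    rfl
  rw [sum_congr rfl h1, sum_const, ← Nat.cast_smul_eq_nsmul ℚ, smul_smul,
    mul_inv_cancel₀ (Nat.cast_ne_zero.2 (by omega)), one_smul]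

theorem second (hA : A.OK) (hd : A.dt = univ) (hU : A.U = univ) {k : ℕ}
    (hk : Fintype.card P = 2 * (k + 1)) :
    ∑ ψ ∈ univ.filter (fun ψ => A.Dgm ψ),
        (∑ R ∈ univ.filter (fun R : Rg P => h ∉ R.1),
          if Dom (A.atoms ψ) R then clF (A.atoms ψ) R else 0) • A.wt ψ x z A.U =
      (words.map fun u => ∑ j ∈ range (k + 1),
        ((k.choose j * j.factorial : ℕ) : K) * coeff j (gen x z 0 u) * ff x z k u j).sum := by
  rw [← Amb.conv_sum x z hA (D := univ \ {h, A.π h}) (fun p _ => hd ▸ mem_univ p)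
    (closed_D hA hd)
    (card_D hA hd hk) 0 (ff x z k)]
  have h1 : ∀ ψ ∈ univ.filter (fun ψ => A.Dgm ψ),
      (∑ R ∈ univ.filter (fun R : Rg P => h ∉ R.1),
          if Dom (A.atoms ψ) R then clF (A.atoms ψ) R else 0) • A.wt ψ x z A.U =
      ∑ V ∈ (univ \ {h, A.π h}).powerset.filter (fun V => ∀ p ∈ V, A.π p ∈ V), ∑ I ∈ V.powerset,
        if Dom (A.atoms ψ) (V, I) ∧ True then A.co ψ 0 (V, I) • A.wt ψ x z A.U else 0 := by
    intro ψ hψ
    have hψ' : A.Dgm ψ := (mem_filter.1 hψ).2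
    have e := Amb.sum_regions 0 ψ (D := univ \ {h, A.π h})
      (fun R => Dom (A.atoms ψ) R ∧ h ∉ R.1) (A.wt ψ x z A.U)
      fun R hR hc => sub_D hA hd hR.1.1 hc.2
    refine Eq.trans ?_ (e.trans ?_)
    · rw [sum_smul, sum_filter]
      refine sum_congr rfl fun R _ => ?_
      by_cases h1 : h ∈ R.1
      · rw [if_neg (not_not.2 h1), if_neg fun hc => hc.2 h1]
      · rw [if_pos h1]
        by_cases h2 : Dom (A.atoms ψ) R
        · rw [if_pos h2, if_pos ⟨h2, h1⟩,
            Amb.co_zero hA hψ'.1.1 hψ'.2.1 (h := h) (hU ▸ mem_univ _) h1]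
        · rw [if_neg h2, if_neg fun hc => h2 hc.1, zero_smul]
    · refine sum_congr rfl fun V hV => sum_congr rfl fun I _ => ?_
      have h3 : h ∉ V := fun e => (mem_D.1 (mem_powerset.1 (mem_filter.1 hV).1 e)).1 rfl
      by_cases h2 : Dom (A.atoms ψ) (V, I)
      · rw [if_pos ⟨h2, h3⟩, if_pos ⟨h2, trivial⟩]
      · rw [if_neg fun hc => h2 hc.1, if_neg fun hc => h2 hc.1]
  rw [sum_congr rfl h1, sum_comm]
  refine sum_congr rfl fun V _ => ?_
  have e := Amb.con_sum x z hA 0 V fun _ _ => True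
  rw [← Amb.G_group x z 0 V fun u => ff x z k u (V.card / 2)]
  refine Eq.trans ?_ (e.trans ?_)
  · refine sum_congr rfl fun ψ _ => sum_congr rfl fun I _ => ?_
    congr
  · refine sum_congr rfl fun s hs => ?_
    by_cases h0 : A.co s.1 0 (V, s.2) = 0
    · rw [h0, zero_smul, zero_smul]
    have hD : A.Disc s.1 (V, s.2) := by
      by_contra h1
      exact h0 (if_neg fun h => h1 h.1)
    rw [← red_T x z hA hd hk hs hD, Amb.T]
    congr 3
    ext g
    simp only [mem_filter, and_true]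

theorem total (hA : A.OK) (hd : A.dt = univ) (hU : A.U = univ) (ht : A.ty h = true) {k : ℕ}
    (hk : Fintype.card P = 2 * (k + 1)) (s : Finset (Perm P)) (hs : ∀ ψ, ψ ∈ s ↔ A.Dgm ψ) :
    ∑ ψ ∈ s, sgnF (A.atoms ψ) h • A.wt ψ x z A.U =
      (k.factorial : K) * coeff k (tau x z [true, false]) -
      (words.map fun u => ∑ j ∈ range (k + 1),
        ((k.choose j * j.factorial : ℕ) : K) * coeff j (gen x z 0 u) * ff x z k u j).sum := by
  obtain rfl : s = univ.filter (fun ψ => A.Dgm ψ) := by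
    ext ψ
    rw [hs, mem_filter]
    simp only [mem_univ, true_and]
  rw [← first x z hA hd hU ht hk, ← second x z (h := h) hA hd hU hk, ← sum_sub_distrib]
  refine sum_congr rfl fun ψ _ => ?_
  rw [← sub_smul, sgnF]

theorem conv (k : ℕ) (u : List Bool) (g : PowerSeries K) :
    ((k.factorial : ℚ)⁻¹) • ∑ j ∈ range (k + 1),
        ((k.choose j * j.factorial : ℕ) : K) * coeff j g * ff x z k u j =
      coeff (k + 1) ((u.length : ℚ)⁻¹ • (g * (X * derivative K (tau x z u)))) := by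
  have e0 : ∀ (q : ℚ) (f : PowerSeries K), coeff (k + 1) (q • f) = q • coeff (k + 1) f :=
    fun q f => rfl
  rw [e0, coeff_mul, Nat.sum_antidiagonal_eq_sum_range_succ_mk, sum_range_succ _ (k + 1),
    Nat.sub_self, coeff_zero_X_mul, mul_zero, add_zero, smul_sum, smul_sum]
  refine sum_congr rfl fun j hj => ?_
  have hj' : j ≤ k := Nat.lt_succ_iff.1 (mem_range.1 hj)
  have e1 : k + 1 - j = k - j + 1 := by omega
  have e2 : ((k.choose j * j.factorial : ℕ) : K) * ((k - j + 1).factorial : K) =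
      (k.factorial : K) * (((k - j : ℕ) : K) + 1) := by
    rw [Nat.factorial_succ, ← Nat.choose_mul_factorial_mul_factorial hj']
    push_cast
    ring
  simp only [ff, e1, coeff_succ_X_mul, coeff_derivative]
  rw [mul_smul_comm, smul_comm]
  congr 1
  apply TEmbA.fact_cancel k
  rw [TEmbA.fact_mul]
  linear_combination (coeff j g * coeff (k - j + 1) (tau x z u)) * e2

end Extr

theorem Sg_eq : Sg x z = X * tau x z [true, false] -
    (words.map fun u => (u.length : ℚ)⁻¹ • (gen x z 0 u * (X * derivative K (tau x z u)))).sum :=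
  by
  ext n
  rw [map_sub, map_list_sum, List.map_map, Sg, coeff_mk]
  rcases n with _ | k
  · rw [coeff_zero_X_mul, List.sum_eq_zero, sub_zero]
    intro y hy
    obtain ⟨u, -, rfl⟩ := List.mem_map.1 hy
    have e0 : ∀ (q : ℚ) (f : PowerSeries K), coeff 0 (q • f) = q • coeff 0 f := fun q f => rfl
    rw [Function.comp_apply, e0, mul_left_comm, coeff_zero_X_mul, smul_zero]
  · have hk : Fintype.card (Fin (k + 1) × Bool) = 2 * (k + 1) := by simp [mul_comm]
    have e1 := Extr.total x z (A := ambC (k + 1)) (h := (0, true)) (ambC_ok _) rfl rfl rfl hk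
      (univ.filter fun ψ => (ambC (k + 1)).Dgm ψ) fun ψ => by
        simp only [mem_filter, mem_univ, true_and]
    have e3 : (words.map (coeff (k + 1) ∘ fun u => (u.length : ℚ)⁻¹ •
        (gen x z 0 u * (X * derivative K (tau x z u))))).sum = ((k.factorial : ℚ)⁻¹) •
        (words.map fun u => ∑ j ∈ range (k + 1), ((k.choose j * j.factorial : ℕ) : K) *
          coeff j (gen x z 0 u) * Extr.ff x z k u j).sum := by
      rw [List.smul_sum, List.map_map]
      exact congrArg List.sum (List.map_congr_left fun u _ => (Extr.conv x z k u _).symm)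
    rw [e3, coeff_succ_X_mul]
    apply TEmbA.fact_cancel k
    rw [mul_sub, TEmbA.fact_mul, TEmbA.fact_mul]
    exact e1

end Pool.Agent.P.MP_48bde8_co
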