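import Pool.Agent.P.MP_48bde8_co.D2

/-! Task FILT: calculus of valuations and leading terms. -/

namespace Pool.Agent.P.MP_48bde8_co

variable {Λ : Type} [CommRing Λ] {S : Subring Λ} {e : Λˣ} {n n' : ℤ} {f g c c' : Λ}

theorem FiltA.zadd (n n' : ℤ) :
    ((e ^ (n + n') : Λˣ) : Λ) = ((e ^ n : Λˣ) : Λ) * ((e ^ n' : Λˣ) : Λ) := by
  rw [zpow_add, Units.val_mul]

theorem FiltA.zsucc (n : ℤ) : ((e ^ (n + 1) : Λˣ) : Λ) = ((e ^ n : Λˣ) : Λ) * (e : Λ) := by
  rw [FiltA.zadd, zpow_one]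

theorem VV.of_mem (h : f ∈ S) : VV S e 0 f := ⟨f, h, by simp⟩

theorem VV.zero : VV S e n 0 := ⟨0, S.zero_mem, by simp⟩

theorem VV.mono (he : (e : Λ) ∈ S) (h : VV S e n f) (hn : n' ≤ n) : VV S e n' f := by
  obtain ⟨g, hg, rfl⟩ := h
  obtain ⟨k, rfl⟩ := Int.le.dest hn
  refine ⟨(e : Λ) ^ k * g, S.mul_mem (S.pow_mem he k) hg, ?_⟩
  rw [FiltA.zadd, zpow_natCast, Units.val_pow_eq_pow_val, mul_assoc]

theorem VV.add (h : VV S e n f) (h' : VV S e n g) : VV S e n (f + g) := by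
  obtain ⟨a, ha, rfl⟩ := h
  obtain ⟨b, hb, rfl⟩ := h'
  exact ⟨a + b, S.add_mem ha hb, by ring⟩

theorem VV.neg (h : VV S e n f) : VV S e n (-f) := by
  obtain ⟨a, ha, rfl⟩ := h
  exact ⟨-a, S.neg_mem ha, by ring⟩

theorem VV.sub (h : VV S e n f) (h' : VV S e n g) : VV S e n (f - g) := by
  rw [sub_eq_add_neg]
  exact h.add h'.neg

theorem VV.mul (h : VV S e n f) (h' : VV S e n' g) : VV S e (n + n') (f * g) := by
  obtain ⟨a, ha, rfl⟩ := h
  obtain ⟨b, hb, rfl⟩ := h'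
  exact ⟨a * b, S.mul_mem ha hb, by rw [FiltA.zadd]; ring⟩

theorem VV.pow (h : VV S e n f) (k : ℕ) : VV S e (k * n) (f ^ k) := by
  induction k with
  | zero => simpa using VV.of_mem S.one_mem
  | succ k ih =>
    have h1 := ih.mul h
    rw [pow_succ]
    convert h1 using 1
    push_cast
    ring

theorem VV.natCast (k : ℕ) : VV S e 0 (k : Λ) := VV.of_mem (natCast_mem S k)

theorem VV.unit : VV S e 1 (e : Λ) := ⟨1, S.one_mem, by simp⟩

theorem LT.vv (he : (e : Λ) ∈ S) (h : LT S e n c f) : VV S e n f := by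
  have h1 : VV S e n (f - ((e ^ n : Λˣ) : Λ) * c) := h.2.mono he (by omega)
  have h2 : VV S e n (((e ^ n : Λˣ) : Λ) * c) := ⟨c, h.1, rfl⟩
  simpa using h1.add h2

theorem LT.of_vv (h : VV S e (n + 1) f) : LT S e n 0 f := ⟨S.zero_mem, by simpa using h⟩

theorem LT.of_mem (h : c ∈ S) : LT S e 0 c c := ⟨h, by simpa using VV.zero⟩

theorem LT.unit : LT S e 1 1 (e : Λ) := ⟨S.one_mem, by simpa using VV.zero⟩

theorem LT.zpow_mul (h : c ∈ S) : LT S e n c (((e ^ n : Λˣ) : Λ) * c) :=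
  ⟨h, by simpa using VV.zero⟩

theorem LT.add (h : LT S e n c f) (h' : LT S e n c' g) : LT S e n (c + c') (f + g) := by
  refine ⟨S.add_mem h.1 h'.1, ?_⟩
  have := h.2.add h'.2
  convert this using 1
  ring

theorem LT.add_vv (h : LT S e n c f) (h' : VV S e (n + 1) g) : LT S e n c (f + g) := by
  simpa using h.add (LT.of_vv h')

theorem LT.vv_add (h' : VV S e (n + 1) g) (h : LT S e n c f) : LT S e n c (g + f) := by
  rw [add_comm]
  exact h.add_vv h'

theorem LT.neg (h : LT S e n c f) : LT S e n (-c) (-f) := by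
  refine ⟨S.neg_mem h.1, ?_⟩
  have := h.2.neg
  convert this using 1
  ring

theorem LT.sub (h : LT S e n c f) (h' : LT S e n c' g) : LT S e n (c - c') (f - g) := by
  rw [sub_eq_add_neg, sub_eq_add_neg]
  exact h.add h'.neg

theorem LT.mul (he : (e : Λ) ∈ S) (h : LT S e n c f) (h' : LT S e n' c' g) :
    LT S e (n + n') (c * c') (f * g) := by
  refine ⟨S.mul_mem h.1 h'.1, ?_⟩
  have h1 : VV S e (n + 1 + n') _ := h.2.mul (h'.vv he)
  have h2 : VV S e (n + (n' + 1)) _ := (show VV S e n _ from ⟨c, h.1, rfl⟩).mul h'.2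
  rw [show n + 1 + n' = n + n' + 1 by ring] at h1
  rw [show n + (n' + 1) = n + n' + 1 by ring] at h2
  have := h1.add h2
  convert this using 1
  rw [FiltA.zadd]
  ring

theorem LT.pow (he : (e : Λ) ∈ S) (h : LT S e n c f) (k : ℕ) : LT S e (k * n) (c ^ k) (f ^ k) := by
  induction k with
  | zero => simpa using LT.of_mem S.one_mem
  | succ k ih =>
    have h1 := ih.mul he h
    rw [pow_succ, pow_succ]
    convert h1 using 1
    push_cast
    ring

theorem LT.congr (h : LT S e n c f) (hc : c' ∈ S) (h' : VV S e 1 (c - c')) : LT S e n c' f := by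
  refine ⟨hc, ?_⟩
  have h1 : VV S e (n + 1) _ :=
    (show VV S e n ((e ^ n : Λˣ) : Λ) from ⟨1, S.one_mem, by simp⟩).mul h'
  have := h.2.add h1
  convert this using 1
  ring

theorem LT.isUnit (hloc : ∀ y ∈ S, IsUnit (1 + (e : Λ) * y)) (h : LT S e n c f) {c' : Λ}
    (hc : c' ∈ S) (hcc : c * c' = 1) : IsUnit f := by
  obtain ⟨-, g, hg, h2⟩ := h
  have h3 : f = ((e ^ n : Λˣ) : Λ) * c * (1 + (e : Λ) * (c' * g)) := by
    rw [FiltA.zsucc] at h2
    linear_combination h2 - ((e ^ n : Λˣ) : Λ) * (e : Λ) * g * hcc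
  rw [h3]
  exact ((Units.isUnit _).mul (IsUnit.of_mul_eq_one c' hcc)).mul (hloc _ (S.mul_mem hc hg))

theorem FiltA.addm (he : (e : Λ) ∈ S) (h : VV S e n f) (h' : VV S e n' g) :
    VV S e (min n n') (f + g) :=
  (h.mono he (min_le_left _ _)).add (h'.mono he (min_le_right _ _))

theorem FiltA.subm (he : (e : Λ) ∈ S) (h : VV S e n f) (h' : VV S e n' g) :
    VV S e (min n n') (f - g) :=
  (h.mono he (min_le_left _ _)).sub (h'.mono he (min_le_right _ _))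

theorem FiltA.vz {sg : Λ} (hsg : sg ∈ S) : VV S e 2 (-(sg ^ 2 * (e : Λ) ^ 2)) := by
  have h1 := ((VV.of_mem (e := e) hsg).pow 2).mul ((VV.unit (S := S) (e := e)).pow 2)
  norm_num at h1
  exact h1.neg

theorem FiltA.mom (he : (e : Λ) ∈ S) {l z t : Λ} (hl : VV S e 25 l) (hz : VV S e 2 z)
    (ht : VV S e 1 t) (i : Fin 9) :
    VV S e (![27, 2, 4, 5, 2, 29, 4, 5, 2] i) (shear l (mom0 1 z t) i) := by
  have h0 : VV S e 100 (0 : Λ) := VV.zero
  have h1 : VV S e 0 (1 : Λ) := VV.of_mem S.one_mem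
  have h2 : VV S e 0 (2 : Λ) := VV.of_mem (ofNat_mem S 2)
  have h3 : VV S e 0 (3 : Λ) := VV.of_mem (ofNat_mem S 3)
  fin_cases i
  all_goals
    simp only [shear, mom0, Fin.zero_eta, Fin.mk_one, Fin.reduceFinMk, Matrix.cons_val]
    apply VV.mono he
    · repeat' with_reducible first
        | exact h0 | exact h1 | exact h2 | exact h3 | exact hl | exact hz | exact ht
        | apply FiltA.addm he | apply FiltA.subm he | apply VV.mul | apply VV.pow
    · norm_num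

/-- Valuations of the moments and of the coefficients. -/
theorem ParLT.mom {sg si hf : Λ} {θ : Fin 10 → Λ} (h : ParLT S e sg si hf θ) (i : Fin 9) :
    VV S e (![27, 2, 4, 5, 2, 29, 4, 5, 2] i)
      (shear (θ 1) (mom0 1 (-(sg ^ 2 * (e : Λ) ^ 2)) e) i) :=
  FiltA.mom h.he h.hl (FiltA.vz h.hsg) VV.unit i

theorem FiltA.epow (k : ℕ) (h : c ∈ S) : LT S e k c (c * (e : Λ) ^ k) := by
  have := LT.zpow_mul (e := e) (n := k) h
  rwa [zpow_natCast, Units.val_pow_eq_pow_val, mul_comm] at this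

theorem ParLT.rho {sg si hf : Λ} {θ : Fin 10 → Λ} (h : ParLT S e sg si hf θ) :
    LT S e 30 (-sg ^ 8) (θ 0 * θ 2 * θ 7 - θ 0 * θ 6 * θ 4 - θ 2 ^ 2 * θ 3) ∧
      LT S e 26 (-sg ^ 8) (θ 6) ∧ LT S e 6 (sg ^ 2) (θ 7) := by
  have he := h.he
  have hd : LT S e 26 (-sg ^ 8) (θ 6) := by
    have h1 : LT S e 26 (sg ^ 8) (sg ^ 8 * (e : Λ) ^ 26) := FiltA.epow 26 (S.pow_mem h.hsg 8)
    have h2 := LT.vv_add (h.hd.mono he (by norm_num)) h1.neg
    simpa using h2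
  have hr : LT S e 6 (sg ^ 2) (θ 7) := by
    have h1 : LT S e 6 (sg ^ 2) (sg ^ 2 * (e : Λ) ^ 6) := FiltA.epow 6 (S.pow_mem h.hsg 2)
    have h3 : LT S e 10 (sg ^ 4) (sg ^ 4 * (e : Λ) ^ 10) := FiltA.epow 10 (S.pow_mem h.hsg 4)
    have h2 := LT.vv_add ((h.hr.mono he (by norm_num)).add ((h3.vv he).mono he (by norm_num))) h1
    convert h2 using 1
    ring
  refine ⟨?_, hd, hr⟩
  have h1 : VV S e (30 + 1) (θ 0 * θ 2 * θ 7) :=
    (((h.ha.vv he).mul (h.hc.vv he)).mul (hr.vv he)).mono he (by norm_num)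
  have h2 : VV S e (30 + 1) (θ 2 ^ 2 * θ 3) :=
    (((h.hc.vv he).pow 2).mul (h.hp.vv he)).mono he (by norm_num)
  have h3 := ((h.ha.mul he hd).mul he h.hq).neg
  have h4 : LT S e 30 (-sg ^ 8) (-(θ 0 * θ 6 * θ 4)) := by
    have h6 : -sg ^ 8 = -(-1 * -sg ^ 8 * 1) := by ring
    rw [h6]
    exact h3
  have h5 := LT.vv_add (h1.sub h2) h4
  convert h5 using 1
  ring

theorem FiltA.coef (he : (e : Λ) ∈ S) {z a c p q d r v : Λ} {μ : Fin 9 → Λ} (hz : VV S e 2 z)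
    (ha : VV S e 3 a) (hc : VV S e 27 c) (hp : VV S e 0 p) (hq : VV S e 1 q) (hd : VV S e 26 d)
    (hr : VV S e 6 r) (hv : VV S e 0 v)
    (hμ : ∀ i, VV S e (![27, 2, 4, 5, 2, 29, 4, 5, 2] i) (μ i)) (j : Fin 5) :
    VV S e (![9, 32, 34, 8, 28] j) (coef 1 z a c p q d r v μ j) := by
  have h1 : VV S e 0 (1 : Λ) := VV.of_mem S.one_mem
  have h2 : VV S e 0 (2 : Λ) := VV.of_mem (ofNat_mem S 2)
  have h4 : VV S e 0 (4 : Λ) := VV.of_mem (ofNat_mem S 4)
  have h8 : VV S e 0 (8 : Λ) := VV.of_mem (ofNat_mem S 8)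
  have m0 : VV S e 27 (μ 0) := hμ 0
  have m1 : VV S e 2 (μ 1) := hμ 1
  have m2 : VV S e 4 (μ 2) := hμ 2
  have m3 : VV S e 5 (μ 3) := hμ 3
  have m4 : VV S e 2 (μ 4) := hμ 4
  have m6 : VV S e 4 (μ 6) := hμ 6
  have m7 : VV S e 5 (μ 7) := hμ 7
  fin_cases j
  all_goals
    simp only [Pool.Agent.P.MP_48bde8_co.coef, Fin.zero_eta, Fin.mk_one, Fin.reduceFinMk,
      Matrix.cons_val]
    apply VV.mono he
    · repeat' with_reducible first
        | exact h1 | exact h2 | exact h4 | exact h8 | exact hz | exact ha | exact hc | exact hp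
        | exact hq | exact hd | exact hr | exact hv | exact m0 | exact m1 | exact m2 | exact m3
        | exact m4 | exact m6 | exact m7
        | apply FiltA.addm he | apply FiltA.subm he | apply VV.mul | apply VV.pow
    · norm_num

theorem ParLT.coef {sg si hf : Λ} {θ : Fin 10 → Λ} (h : ParLT S e sg si hf θ) (j : Fin 5) :
    VV S e (![9, 32, 34, 8, 28] j) (coefT 1 (-(sg ^ 2 * (e : Λ) ^ 2)) θ
      (shear (θ 1) (mom0 1 (-(sg ^ 2 * (e : Λ) ^ 2)) e)) j) :=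
  FiltA.coef h.he (FiltA.vz h.hsg) (h.ha.vv h.he) (h.hc.vv h.he) (h.hp.vv h.he) (h.hq.vv h.he)
    (h.rho.2.1.vv h.he) (h.rho.2.2.vv h.he) (h.hv.vv h.he) h.mom j

theorem ParLT.units {sg si hf : Λ} {θ : Fin 10 → Λ} (h : ParLT S e sg si hf θ)
    (hloc : ∀ y ∈ S, IsUnit (1 + (e : Λ) * y)) :
    IsUnit (θ 0) ∧ IsUnit (θ 2) ∧ IsUnit (θ 4) ∧
      IsUnit (θ 0 * θ 2 * θ 7 - θ 0 * θ 6 * θ 4 - θ 2 ^ 2 * θ 3) ∧
      IsUnit (4 * θ 2 ^ 3 + θ 0 * θ 6 ^ 2) := by
  have he := h.he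
  have h8 : sg ^ 8 * si ^ 8 = 1 := by rw [← mul_pow, h.hinv, one_pow]
  refine ⟨h.ha.isUnit hloc (S.neg_mem S.one_mem) (by ring),
    h.hc.isUnit hloc (S.pow_mem h.hsi 8) h8, h.hq.isUnit hloc S.one_mem (by ring),
    h.rho.1.isUnit hloc (S.neg_mem (S.pow_mem h.hsi 8)) (by rw [neg_mul_neg, h8]), ?_⟩
  have h1 := h.ha.mul he (h.rho.2.1.pow he 2)
  have h2 : VV S e (3 + ((2 : ℕ) : ℤ) * 26 + 1) (4 * θ 2 ^ 3) :=
    ((VV.of_mem (ofNat_mem S 4)).mul ((h.hc.vv he).pow 3)).mono he (by norm_num)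
  refine (LT.vv_add h2 h1).isUnit hloc (S.neg_mem (S.pow_mem (S.pow_mem h.hsi 8) 2)) ?_
  have h16 : (sg ^ 8 * si ^ 8) ^ 2 = 1 := by rw [h8, one_pow]
  linear_combination h16

theorem FiltA.sum {ι : Type} (s : Finset ι) {c f : ι → Λ} (h : ∀ i ∈ s, LT S e n (c i) (f i)) :
    LT S e n (∑ i ∈ s, c i) (∑ i ∈ s, f i) := by
  classical
  induction s using Finset.induction_on with
  | empty => simpa using LT.of_vv VV.zero
  | insert a s ha ih =>
    rw [Finset.sum_insert ha, Finset.sum_insert ha]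
    exact (h a (Finset.mem_insert_self _ _)).add (ih fun i hi => h i (Finset.mem_insert_of_mem hi))

theorem FiltA.prod (he : (e : Λ) ∈ S) {ι : Type} (s : Finset ι) {m : ι → ℤ} {c f : ι → Λ}
    (h : ∀ i ∈ s, LT S e (m i) (c i) (f i)) :
    LT S e (∑ i ∈ s, m i) (∏ i ∈ s, c i) (∏ i ∈ s, f i) := by
  classical
  induction s using Finset.induction_on with
  | empty => simpa using LT.of_mem S.one_mem
  | insert a s ha ih =>
    rw [Finset.sum_insert ha, Finset.prod_insert ha, Finset.prod_insert ha]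
    exact (h a (Finset.mem_insert_self _ _)).mul he
      (ih fun i hi => h i (Finset.mem_insert_of_mem hi))

/-- A matrix whose scaled residue matrix is invertible has trivial kernel. -/
theorem ker_of_LT {N : ℕ} (he : (e : Λ) ∈ S) (hloc : ∀ y ∈ S, IsUnit (1 + (e : Λ) * y))
    (r w : Fin N → ℤ) (M ρ : Matrix (Fin N) (Fin N) Λ)
    (h : ∀ i j, LT S e (r i + w j) (ρ i j) (M i j)) {c' : Λ} (hc : c' ∈ S) (hdet : ρ.det * c' = 1)
    {y : Fin N → Λ} (hy : M.mulVec y = 0) : y = 0 := by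
  have h1 : LT S e (∑ i, r i + ∑ i, w i) ρ.det M.det := by
    rw [Matrix.det_apply', Matrix.det_apply']
    refine FiltA.sum _ fun σ _ => ?_
    have h2 := FiltA.prod he Finset.univ (m := fun i => r (σ i) + w i) (c := fun i => ρ (σ i) i)
      (f := fun i => M (σ i) i) fun i _ => h (σ i) i
    rw [Finset.sum_add_distrib, Equiv.sum_comp σ r] at h2
    have h3 := (LT.of_mem (e := e) (intCast_mem S ((Equiv.Perm.sign σ : ℤˣ) : ℤ))).mul he h2
    rwa [zero_add] at h3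
  have h2 : IsUnit M.det := h1.isUnit hloc hc hdet
  have h3 : M.det • y = 0 := by
    have := congrArg (M.adjugate.mulVec) hy
    rwa [Matrix.mulVec_mulVec, Matrix.adjugate_mul, Matrix.mulVec_zero, Matrix.smul_mulVec,
      Matrix.one_mulVec] at this
  exact (h2.smul_eq_zero).1 h3

end Pool.Agent.P.MP_48bde8_co
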