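import Pool.Agent.P.MP_48bde8_co.D2

/-! Task PSI: the specialisations to one-variable series. -/

namespace Pool.Agent.P.MP_48bde8_co

open PowerSeries Finset

variable {k : Type} [Field k] [Algebra ℚ k] {σ : k}

namespace Psi

theorem indep (hσ : Transcendental ℚ σ) (s : Finset ℕ) (c : ℕ → ℚ)
    (h : ∑ j ∈ s, algebraMap ℚ k (c j) * (-σ ^ 2) ^ j = 0) : ∀ j ∈ s, c j = 0 := by
  have hw : Transcendental ℚ (-σ ^ 2) := fun hc =>
    hσ.pow (n := 2) (by norm_num) (by simpa using hc.neg)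
  have h1 := transcendental_iff.1 hw (∑ j ∈ s, Polynomial.monomial j (c j)) (by
    rw [map_sum]
    simpa only [Polynomial.aeval_monomial] using h)
  intro j hj
  have h2 := congrArg (fun p => Polynomial.coeff p j) h1
  simpa [Polynomial.coeff_monomial, hj] using h2

/-- Collapsing a series whose coefficients are mapped to series. -/
noncomputable def col {A : Type} [CommRing A] (φ : A →+* PowerSeries k) :
    PowerSeries A →+* PowerSeries k where
  toFun f := mk fun N => ∑ p ∈ antidiagonal N, coeff p.2 (φ (coeff p.1 f))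
  map_one' := by
    ext N
    rw [coeff_mk, Finset.sum_eq_single (0, N)]
    · simp
    · intro p hp hne
      have : p.1 ≠ 0 := by
        intro h0
        rw [HasAntidiagonal.mem_antidiagonal] at hp
        exact hne (Prod.ext h0 (by simpa [h0] using hp))
      simp [coeff_one, this]
    · simp
  map_mul' f g := by
    ext N
    simp only [coeff_mk, coeff_mul, map_sum, map_mul, Finset.sum_mul_sum, Finset.sum_sigma']
    refine Finset.sum_bij'
      (fun x _ => ⟨(x.2.1.1 + x.2.2.1, x.2.1.2 + x.2.2.2), (x.2.1.1, x.2.2.1), (x.2.1.2, x.2.2.2)⟩)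
      (fun x _ => ⟨(x.2.1.1 + x.2.2.1, x.2.1.2 + x.2.2.2), (x.2.1.1, x.2.2.1), (x.2.1.2, x.2.2.2)⟩)
      ?_ ?_ ?_ ?_ ?_
    · rintro ⟨⟨a, b⟩, ⟨c, d⟩, ⟨e, f⟩⟩ h
      simp only [mem_sigma, HasAntidiagonal.mem_antidiagonal, and_true] at h ⊢
      omega
    · rintro ⟨⟨a, b⟩, ⟨c, d⟩, ⟨e, f⟩⟩ h
      simp only [mem_sigma, HasAntidiagonal.mem_antidiagonal, and_true] at h ⊢
      omega
    · rintro ⟨⟨a, b⟩, ⟨c, d⟩, ⟨e, f⟩⟩ h
      simp only [mem_sigma, HasAntidiagonal.mem_antidiagonal] at h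
      obtain ⟨-, rfl, rfl⟩ := h
      rfl
    · rintro ⟨⟨a, b⟩, ⟨c, d⟩, ⟨e, f⟩⟩ h
      simp only [mem_sigma, HasAntidiagonal.mem_antidiagonal] at h
      obtain ⟨-, rfl, rfl⟩ := h
      rfl
    · rintro ⟨⟨a, b⟩, ⟨c, d⟩, ⟨e, f⟩⟩ h
      rfl
  map_zero' := by ext N; simp
  map_add' f g := by ext N; simp [Finset.sum_add_distrib]

theorem coeff_col {A : Type} [CommRing A] (φ : A →+* PowerSeries k) (f : PowerSeries A) (N : ℕ) :
    coeff N (col φ f) = ∑ p ∈ antidiagonal N, coeff p.2 (φ (coeff p.1 f)) :=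
  coeff_mk N fun N => ∑ p ∈ antidiagonal N, coeff p.2 (φ (coeff p.1 f))

theorem zO_pow (σ : k) (j : ℕ) : zO σ ^ j = C ((-σ ^ 2) ^ j) * X ^ (2 * j) := by
  have : zO σ = C (-σ ^ 2) * X ^ 2 := by simp [zO]
  rw [this, mul_pow, ← map_pow, ← pow_mul]

/-- Evaluation of a polynomial at `zO σ`. -/
noncomputable def ev (σ : k) : Polynomial ℚ →+* PowerSeries k :=
  Polynomial.eval₂RingHom ((C : k →+* PowerSeries k).comp (algebraMap ℚ k)) (zO σ)

theorem coeff_ev (σ : k) (P : Polynomial ℚ) (b : ℕ) :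
    coeff b (ev σ P) =
      if 2 ∣ b then algebraMap ℚ k (P.coeff (b / 2)) * (-σ ^ 2) ^ (b / 2) else 0 := by
  induction P using Polynomial.induction_on' with
  | add p q hp hq =>
    rw [map_add, map_add, hp, hq]
    split_ifs
    · rw [Polynomial.coeff_add, map_add, add_mul]
    · simp
  | monomial n a =>
    have : ev σ (Polynomial.monomial n a) =
        C (algebraMap ℚ k a * (-σ ^ 2) ^ n) * X ^ (2 * n) := by
      simp only [ev, Polynomial.coe_eval₂RingHom, Polynomial.eval₂_monomial, zO_pow,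
        RingHom.comp_apply, map_mul, mul_assoc]
    rw [this, coeff_C_mul, coeff_X_pow, Polynomial.coeff_monomial]
    by_cases h : b = 2 * n
    · subst h
      simp
    · rw [if_neg h, mul_zero]
      split_ifs with h1 h2
      · omega
      · simp
      · rfl

theorem coeff_col_ev (σ : k) (f : PowerSeries (Polynomial ℚ)) (N : ℕ) :
    coeff N (col (ev σ) f) =
      ∑ j ∈ range (N / 2 + 1), algebraMap ℚ k ((coeff (N - 2 * j) f).coeff j) * (-σ ^ 2) ^ j := by
  rw [coeff_col]
  simp only [coeff_ev]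
  rw [← Finset.sum_filter]
  refine Finset.sum_bij' (fun p _ => p.2 / 2) (fun j _ => (N - 2 * j, 2 * j)) ?_ ?_ ?_ ?_ ?_
  · rintro ⟨a, b⟩ h
    simp only [mem_filter, HasAntidiagonal.mem_antidiagonal, mem_range] at h ⊢
    omega
  · intro j h
    simp only [mem_filter, HasAntidiagonal.mem_antidiagonal, mem_range] at h ⊢
    omega
  · rintro ⟨a, b⟩ h
    simp only [mem_filter, HasAntidiagonal.mem_antidiagonal, Prod.mk.injEq] at h ⊢
    omega
  · intro j _
    simp
  · rintro ⟨a, b⟩ h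
    simp only [mem_filter, HasAntidiagonal.mem_antidiagonal] at h
    have : N - 2 * (b / 2) = a := by omega
    simp only [this]

/-- The exponent with given entries. -/
noncomputable def ex (i j : ℕ) : Fin 2 →₀ ℕ := Finsupp.single 0 i + Finsupp.single 1 j

theorem ex0 (i j : ℕ) : ex i j 0 = i := by simp [ex]

theorem ex1 (i j : ℕ) : ex i j 1 = j := by simp [ex]

theorem ex_eq (d : Fin 2 →₀ ℕ) : ex (d 0) (d 1) = d := by
  ext i
  fin_cases i
  · exact ex0 _ _
  · exact ex1 _ _

/-- The substituted values. -/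
noncomputable def av (σ : k) : Fin 2 → MvPowerSeries Unit k :=
  ![(X ^ 2 : PowerSeries k), (X ^ 2 * zO σ : PowerSeries k)]

theorem has_av (σ : k) : MvPowerSeries.HasSubst (av σ) := by
  refine MvPowerSeries.hasSubst_of_constantCoeff_zero fun s => ?_
  fin_cases s
  · change constantCoeff (X ^ 2 : PowerSeries k) = 0
    simp
  · change constantCoeff (X ^ 2 * zO σ : PowerSeries k) = 0
    simp

/-- The second specialisation. -/
noncomputable def psi2 (σ : k) : MvPowerSeries (Fin 2) ℚ →+* PowerSeries k :=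
  (MvPowerSeries.substAlgHom (R := ℚ) (has_av σ)).toRingHom

theorem coeff_psi2 (σ : k) (f : MvPowerSeries (Fin 2) ℚ) (N : ℕ) :
    coeff N (psi2 σ f) = ∑ j ∈ range (N + 1), algebraMap ℚ k
      (if 2 ∣ N ∧ 4 * j ≤ N then MvPowerSeries.coeff (ex (N / 2 - 2 * j) j) f else 0) *
        (-σ ^ 2) ^ j := by
  have h1 : coeff N (psi2 σ f) = ∑ᶠ d : Fin 2 →₀ ℕ, MvPowerSeries.coeff d f •
      (if N = 2 * d 0 + 4 * d 1 then (-σ ^ 2) ^ (d 1) else 0) := by
    have h0 : psi2 σ f = MvPowerSeries.subst (av σ) f :=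
      MvPowerSeries.substAlgHom_apply (has_av σ) f
    rw [h0]
    refine (MvPowerSeries.coeff_subst (has_av σ) f (Finsupp.single () N)).trans ?_
    refine finsum_congr fun d => ?_
    congr 1
    rw [Finsupp.prod_fintype _ _ (fun _ => pow_zero _), Fin.prod_univ_two]
    change coeff N (((X : PowerSeries k) ^ 2) ^ d 0 * (X ^ 2 * zO σ) ^ d 1) = _
    have : ((X : PowerSeries k) ^ 2) ^ d 0 * (X ^ 2 * zO σ) ^ d 1 =
        C ((-σ ^ 2) ^ d 1) * X ^ (2 * d 0 + 4 * d 1) := by
      rw [mul_pow, zO_pow]; ring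
    rw [this, coeff_C_mul, coeff_X_pow]
    split_ifs <;> simp
  rw [h1, finsum_eq_sum_of_support_subset
    (s := (range (N + 1)).image fun j => ex (N / 2 - 2 * j) j)]
  · rw [Finset.sum_image fun a _ b _ hab => by
      simpa [ex1] using congrArg (fun d : Fin 2 →₀ ℕ => d 1) hab]
    refine Finset.sum_congr rfl fun j _ => ?_
    rw [ex0, ex1]
    by_cases h : 2 ∣ N ∧ 4 * j ≤ N
    · rw [if_pos h, if_pos (by omega), Algebra.smul_def]
    · rw [if_neg h, if_neg (by omega)]
      simp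
  · intro d hd
    have h2 : N = 2 * d 0 + 4 * d 1 := by
      by_contra hc
      simp [hc] at hd
    refine Finset.mem_coe.2 (Finset.mem_image.2 ⟨d 1, by rw [mem_range]; omega, ?_⟩)
    rw [show N / 2 - 2 * d 1 = d 0 by omega, ex_eq]

theorem m_zero {i : ℕ} (hi : i < 5) (j : ℕ) : m i j = 0 := by
  unfold m
  have : IsEmpty {M : RMap // M.IsMap ∧ M.IsPlanar ∧ M.IsSimple ∧ M.IsFourConnected ∧
      Nat.card M.Vertex = i ∧ Nat.card M.Face = j} :=
    ⟨fun M => by have := M.2.2.2.2.1.1; have := M.2.2.2.2.2.1; omega⟩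
  exact Nat.card_of_isEmpty

theorem coeff_Ft (n j : ℕ) : (coeff n (Ft (1 : Polynomial ℚ) Polynomial.X)).coeff j =
    if 2 ∣ n ∧ 2 * j ≤ n + 4 then (m ((n + 4) / 2 - j) j : ℚ) else 0 := by
  rw [Ft, coeff_mk, Polynomial.finsetSum_coeff]
  have h1 : ∀ ij : ℕ × ℕ, ((m ij.1 ij.2 : Polynomial ℚ) * 1 ^ ij.1 * Polynomial.X ^ ij.2).coeff j =
      if j = ij.2 then (m ij.1 ij.2 : ℚ) else 0 := by
    intro ij
    rw [one_pow, mul_one, ← Polynomial.C_eq_natCast, Polynomial.coeff_C_mul_X_pow]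
  simp only [h1]
  split_ifs with h
  · rw [Finset.sum_eq_single ((n + 4) / 2 - j, j)]
    · simp
    · rintro ⟨a, b⟩ hab hne
      simp only [mem_filter, mem_product, mem_range] at hab
      rw [if_neg]
      intro hj
      exact hne (Prod.ext (by simp only at hj ⊢; omega) hj.symm)
    · intro hc
      exact absurd (by simp only [mem_filter, mem_product, mem_range]; omega) hc
  · refine Finset.sum_eq_zero ?_
    rintro ⟨a, b⟩ hab
    simp only [mem_filter, mem_product, mem_range] at hab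
    rw [if_neg]
    intro hj
    simp only at hj
    omega

end Psi

theorem exists_psi1 (hσ : Transcendental ℚ σ) :
    ∃ Ψ : PowerSeries (Polynomial ℚ) →+* PowerSeries k, Function.Injective Ψ ∧ Ψ X = X ∧
      Ψ (C Polynomial.X) = zO σ ∧ ∀ f N, coeff N (Ψ f) =
        ∑ j ∈ range (N / 2 + 1), algebraMap ℚ k ((coeff (N - 2 * j) f).coeff j) * (-σ ^ 2) ^ j := by
  refine ⟨Psi.col (Psi.ev σ), ?_, ?_, ?_, Psi.coeff_col_ev σ⟩
  · rw [injective_iff_map_eq_zero]
    intro f hf
    ext n j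
    have h1 := Psi.coeff_col_ev σ f (n + 2 * j)
    rw [hf, map_zero] at h1
    have h2 := Psi.indep hσ _ (fun i => (coeff (n + 2 * j - 2 * i) f).coeff i) h1.symm j
      (by rw [mem_range]; omega)
    simpa using h2
  · ext N
    rw [Psi.coeff_col]
    rcases N with _ | N
    · simp
    · rw [Finset.sum_eq_single (1, N)]
      · simp [coeff_one, coeff_X]
      · intro p hp hne
        have : p.1 ≠ 1 := by
          intro h0
          rw [HasAntidiagonal.mem_antidiagonal] at hp
          exact hne (Prod.ext h0 (by simp only; omega))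
        simp [coeff_X, this]
      · intro hc
        exact absurd (by rw [HasAntidiagonal.mem_antidiagonal]; omega) hc
  · ext N
    rw [Psi.coeff_col, Finset.sum_eq_single (0, N)]
    · simp [Psi.ev]
    · intro p hp hne
      have : p.1 ≠ 0 := by
        intro h0
        rw [HasAntidiagonal.mem_antidiagonal] at hp
        exact hne (Prod.ext h0 (by simpa [h0] using hp))
      simp [coeff_C, this]
    · simp

theorem exists_psi2 (hσ : Transcendental ℚ σ) :
    ∃ Ψ : MvPowerSeries (Fin 2) ℚ →+* PowerSeries k, Function.Injective Ψ ∧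
      Ψ (MvPowerSeries.X 0) = X ^ 2 ∧ Ψ (MvPowerSeries.X 1) = X ^ 2 * zO σ ∧
      ∀ Ψ₁ : PowerSeries (Polynomial ℚ) →+* PowerSeries k, (∀ f N, coeff N (Ψ₁ f) =
        ∑ j ∈ range (N / 2 + 1), algebraMap ℚ k ((coeff (N - 2 * j) f).coeff j) * (-σ ^ 2) ^ j) →
        Ψ F = X ^ 4 * Ψ₁ (Ft (1 : Polynomial ℚ) Polynomial.X) := by
  refine ⟨Psi.psi2 σ, ?_, MvPowerSeries.substAlgHom_X (Psi.has_av σ) 0,
    MvPowerSeries.substAlgHom_X (Psi.has_av σ) 1, fun Ψ₁ h₁ => ?_⟩
  · rw [injective_iff_map_eq_zero]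
    intro f hf
    ext d
    have h1 := Psi.coeff_psi2 σ f (2 * d 0 + 4 * d 1)
    rw [hf, map_zero] at h1
    have h2 := Psi.indep hσ _ _ h1.symm (d 1) (by rw [mem_range]; omega)
    rw [if_pos (by omega), show (2 * d 0 + 4 * d 1) / 2 - 2 * d 1 = d 0 by omega, Psi.ex_eq] at h2
    simpa using h2
  · ext N
    have hF : ∀ i j, MvPowerSeries.coeff (Psi.ex i j) F = (m i j : ℚ) := by
      intro i j
      change (m (Psi.ex i j 0) (Psi.ex i j 1) : ℚ) = _
      rw [Psi.ex0, Psi.ex1]
    rw [Psi.coeff_psi2, coeff_X_pow_mul']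
    simp only [hF]
    split_ifs with h4
    · rw [h₁]
      symm
      refine Finset.sum_subset_zero_on_sdiff ?_ ?_ ?_
      · intro j hj
        rw [mem_range] at hj ⊢
        omega
      · intro j hj
        rw [mem_sdiff, mem_range, mem_range] at hj
        split_ifs with h
        · rw [Psi.m_zero (by omega)]
          simp
        · simp
      · intro j hj
        rw [mem_range] at hj
        rw [Psi.coeff_Ft]
        by_cases h : 2 ∣ N ∧ 4 * j ≤ N
        · rw [if_pos h, if_pos (by omega),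
            show (N - 4 - 2 * j + 4) / 2 - j = N / 2 - 2 * j by omega]
        · rw [if_neg h, if_neg (by omega)]
    · refine Finset.sum_eq_zero fun j _ => ?_
      split_ifs with h
      · rw [Psi.m_zero (by omega)]
        simp
      · simp

end Pool.Agent.P.MP_48bde8_co
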