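import Pool.Agent.P.MP_48bde8_co.Maps

/-! Task MOM: first-order variations. -/

namespace Pool.Agent.P.MP_48bde8_co

variable {R : Type} [CommRing R]

namespace MomA

/-- Three dual numbers with the same first component, the third one being the difference. -/
def T (X Y Z : DualNumber R) : Prop := X.fst = Z.fst ∧ Y.fst = Z.fst ∧ X.snd - Y.snd = Z.snd

variable {X Y Z X' Y' Z' : DualNumber R}

theorem T.add (h : T X Y Z) (h' : T X' Y' Z') : T (X + X') (Y + Y') (Z + Z') := by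
  obtain ⟨h1, h2, h3⟩ := h
  obtain ⟨h4, h5, h6⟩ := h'
  refine ⟨by simp [h1, h4], by simp [h2, h5], ?_⟩
  simp only [TrivSqZeroExt.snd_add]
  linear_combination h3 + h6

theorem T.sub (h : T X Y Z) (h' : T X' Y' Z') : T (X - X') (Y - Y') (Z - Z') := by
  obtain ⟨h1, h2, h3⟩ := h
  obtain ⟨h4, h5, h6⟩ := h'
  refine ⟨by simp [h1, h4], by simp [h2, h5], ?_⟩
  simp only [TrivSqZeroExt.snd_sub]
  linear_combination h3 - h6

theorem T.mul (h : T X Y Z) (h' : T X' Y' Z') : T (X * X') (Y * Y') (Z * Z') := by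
  obtain ⟨h1, h2, h3⟩ := h
  obtain ⟨h4, h5, h6⟩ := h'
  refine ⟨by simp [h1, h4], by simp [h2, h5], ?_⟩
  simp only [DualNumber.snd_mul, h1, h2, h4, h5]
  linear_combination Z'.fst * h3 + Z.fst * h6

theorem T.const (a : R) : T (inD a) (inD a) (inD a) := ⟨rfl, rfl, by simp⟩

theorem T.pow (h : T X Y Z) (k : ℕ) : T (X ^ k) (Y ^ k) (Z ^ k) := by
  induction k with
  | zero => simpa using T.const (1 : R)
  | succ k ih => simpa only [pow_succ] using ih.mul h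

theorem T.num (k : ℕ) [k.AtLeastTwo] :
    T (R := R) (OfNat.ofNat k) (OfNat.ofNat k) (OfNat.ofNat k) := by
  simpa only [map_ofNat] using T.const (OfNat.ofNat k : R)

theorem T.same (X : DualNumber R) : T X X (inD X.fst) := ⟨by simp, by simp, by simp⟩

theorem T.dif (a b c : R) : T (dn a b) (dn a c) (dn a (b - c)) := ⟨by simp, by simp, by simp⟩

theorem T.left (a b : R) : T (dn a b) (inD a) (dn a b) := ⟨by simp, by simp, by simp⟩

theorem T.right (a b : R) : T (dn a b) (dn a b) (inD a) := ⟨by simp, by simp, by simp⟩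

theorem curveK_T (x z : R) {θ₁ θ₂ θ₃ : Fin 10 → DualNumber R} {k₁ k₂ k₃ : Fin 5 → DualNumber R}
    {κ₁ κ₂ κ₃ f₁ f₂ f₃ s₁ s₂ s₃ : DualNumber R} (hθ : ∀ j, T (θ₁ j) (θ₂ j) (θ₃ j))
    (hk : ∀ j, T (k₁ j) (k₂ j) (k₃ j)) (hκ : T κ₁ κ₂ κ₃) (hf : T f₁ f₂ f₃) (hs : T s₁ s₂ s₃) :
    T (curveK (inD x) (inD z) θ₁ κ₁ k₁ f₁ s₁) (curveK (inD x) (inD z) θ₂ κ₂ k₂ f₂ s₂)
      (curveK (inD x) (inD z) θ₃ κ₃ k₃ f₃ s₃) := by
  have h2 := T.num (R := R) 2
  have h4 := T.num (R := R) 4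
  have h8 := T.num (R := R) 8
  simp only [curveK, curve]
  repeat' with_reducible first
    | exact hκ | exact hf | exact hs | exact hθ _ | exact hk _ | exact T.const _ | exact h2
    | exact h4 | exact h8 | apply T.add | apply T.sub | apply T.mul | apply T.pow

theorem coefT_T (x z : R) {θ₁ θ₂ θ₃ : Fin 10 → DualNumber R} {k₁ k₂ k₃ : Fin 9 → DualNumber R}
    (hθ : ∀ j, T (θ₁ j) (θ₂ j) (θ₃ j)) (hk : ∀ j, T (k₁ j) (k₂ j) (k₃ j)) (i : Fin 5) :
    T (coefT (inD x) (inD z) θ₁ k₁ i) (coefT (inD x) (inD z) θ₂ k₂ i)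
      (coefT (inD x) (inD z) θ₃ k₃ i) := by
  have h2 := T.num (R := R) 2
  have h4 := T.num (R := R) 4
  have h8 := T.num (R := R) 8
  fin_cases i
  all_goals
    simp only [coefT, coef, Fin.zero_eta, Fin.mk_one, Fin.reduceFinMk, Matrix.cons_val]
    repeat' with_reducible first
      | exact hθ _ | exact hk _ | exact T.const _ | exact h2
      | exact h4 | exact h8 | apply T.add | apply T.sub | apply T.mul | apply T.pow

theorem relT_T (x z : R) {θ₁ θ₂ θ₃ : Fin 10 → DualNumber R} {k₁ k₂ k₃ : Fin 9 → DualNumber R}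
    (hθ : ∀ j, T (θ₁ j) (θ₂ j) (θ₃ j)) (hk : ∀ j, T (k₁ j) (k₂ j) (k₃ j)) (i : Fin 4) :
    T (relT (inD x) (inD z) θ₁ k₁ i) (relT (inD x) (inD z) θ₂ k₂ i)
      (relT (inD x) (inD z) θ₃ k₃ i) := by
  have h2 := T.num (R := R) 2
  fin_cases i
  all_goals
    simp only [relT, rel, Fin.zero_eta, Fin.mk_one, Fin.reduceFinMk, Matrix.cons_val]
    repeat' with_reducible first
      | exact hθ _ | exact hk _ | exact T.const _ | exact h2
      | apply T.add | apply T.sub | apply T.mul | apply T.pow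

theorem shear_T {l₁ l₂ l₃ : DualNumber R} {k₁ k₂ k₃ : Fin 9 → DualNumber R}
    (hl : T l₁ l₂ l₃) (hk : ∀ j, T (k₁ j) (k₂ j) (k₃ j)) (i : Fin 9) :
    T (shear l₁ k₁ i) (shear l₂ k₂ i) (shear l₃ k₃ i) := by
  have h2 := T.num (R := R) 2
  have h3 := T.num (R := R) 3
  fin_cases i
  all_goals
    simp only [shear, Fin.zero_eta, Fin.mk_one, Fin.reduceFinMk, Matrix.cons_val]
    repeat' with_reducible first
      | exact hl | exact hk _ | exact h2 | exact h3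
      | apply T.add | apply T.sub | apply T.mul | apply T.pow

theorem fst_num (k : ℕ) [k.AtLeastTwo] :
    (OfNat.ofNat k : DualNumber R).fst = (OfNat.ofNat k : R) := by
  rw [← map_ofNat (inD (R := R)) k, fst_inD]

theorem snd_num (k : ℕ) [k.AtLeastTwo] : (OfNat.ofNat k : DualNumber R).snd = 0 := by
  rw [← map_ofNat (inD (R := R)) k, snd_inD]

theorem fst2 : (2 : DualNumber R).fst = 2 := fst_num 2
theorem fst3 : (3 : DualNumber R).fst = 3 := fst_num 3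
theorem fst4 : (4 : DualNumber R).fst = 4 := fst_num 4
theorem fst8 : (8 : DualNumber R).fst = 8 := fst_num 8
theorem snd2 : (2 : DualNumber R).snd = 0 := snd_num 2
theorem snd3 : (3 : DualNumber R).snd = 0 := snd_num 3
theorem snd4 : (4 : DualNumber R).snd = 0 := snd_num 4
theorem snd8 : (8 : DualNumber R).snd = 0 := snd_num 8

theorem snd_sq (X : DualNumber R) : (X ^ 2).snd = 2 * X.fst * X.snd := by
  rw [pow_two, DualNumber.snd_mul]
  ring

theorem snd_cube (X : DualNumber R) : (X ^ 3).snd = 3 * X.fst ^ 2 * X.snd := by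
  rw [pow_succ, DualNumber.snd_mul, snd_sq, TrivSqZeroExt.fst_pow]
  ring

theorem snd_cols (x z : R) (θ : Fin 10 → R) (κ κ' f s : R) (k k' : Fin 5 → R) :
    (curveK (inD x) (inD z) (fun j => inD (θ j)) (dn κ κ') (fun j => dn (k j) (k' j)) (inD f)
      (inD s)).snd = ∑ j, cols x z θ k f s j * ![κ', k' 1, k' 2, k' 3, k' 4, k' 0] j := by
  simp only [curveK, curve, cols, Fin.sum_univ_six, Matrix.cons_val, TrivSqZeroExt.snd_add,
    TrivSqZeroExt.snd_sub, DualNumber.snd_mul, snd_sq, snd_cube, TrivSqZeroExt.fst_add,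
    TrivSqZeroExt.fst_sub, TrivSqZeroExt.fst_mul, TrivSqZeroExt.fst_pow, fst_dn, snd_dn, fst_inD,
    snd_inD, fst2, fst4, fst8, snd2, snd4, snd8, mul_zero, zero_mul, add_zero, zero_add, sub_zero,
    sub_self]
  ring

end MomA

open MomA

/-- Two first-order deformations of a singular point with the same couplings. -/
theorem var_cols {x z : R} {θ : Fin 10 → DualNumber R} {κ κ₁ κ₂ f f₁ f₂ s s₁ s₂ : R}
    {k k₁ k₂ : Fin 5 → R}
    (h1 : curveK (inD x) (inD z) θ (dn κ κ₁) (fun j => dn (k j) (k₁ j)) (dn f f₁) (dn s s₁) = 0)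
    (h2 : curveK (inD x) (inD z) θ (dn κ κ₂) (fun j => dn (k j) (k₂ j)) (dn f f₂) (dn s s₂) = 0)
    (hs : ∀ a b, curveK (inD x) (inD z) (fun j => inD (θ j).fst) (inD κ) (fun j => inD (k j))
      (dn f a) (dn s b) = 0) :
    ∑ j, cols x z (fun j => (θ j).fst) k f s j *
      ![κ₁ - κ₂, k₁ 1 - k₂ 1, k₁ 2 - k₂ 2, k₁ 3 - k₂ 3, k₁ 4 - k₂ 4, k₁ 0 - k₂ 0] j = 0 := by
  have e1 := (curveK_T x z (fun j => T.same (θ j)) (fun j => T.dif (k j) (k₁ j) (k₂ j))
    (T.dif κ κ₁ κ₂) (T.dif f f₁ f₂) (T.dif s s₁ s₂)).2.2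
  have e2 := (curveK_T x z (fun j => T.const (θ j).fst) (fun j => T.left (k j) (k₁ j - k₂ j))
    (T.left κ (κ₁ - κ₂)) (T.right f (f₁ - f₂)) (T.right s (s₁ - s₂))).2.2
  rw [h1, h2] at e1
  rw [hs, ← e1, snd_cols x z (fun j => (θ j).fst) κ (κ₁ - κ₂) f s k (fun j => k₁ j - k₂ j)] at e2
  rw [← e2]
  simp

theorem MomA.lin {a c p q u d r v : R} {D : Fin 9 → R} (h2 : IsUnit (2 : R))
    (ha : IsUnit a) (hc : IsUnit c) (hρ : IsUnit (a * c * r - a * d * q - c ^ 2 * p))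
    (hd : IsUnit (4 * c ^ 3 + a * d ^ 2))
    (k0 : 2 * c * (2 * c * D 3 + d * D 4 + q * D 0 + r * D 1) - q * (2 * c * D 0 + d * D 1) = 0)
    (k1 : (c ^ 2 * p - 2 * (a * c * r - a * d * q - c ^ 2 * p)) *
      (2 * c * D 3 + d * D 4 + q * D 0 + r * D 1) +
      2 * a * c ^ 2 * (2 * c * D 6 + d * D 7 + q * D 2 + r * D 3 + v * D 0) = 0)
    (k2 : 4 * a ^ 2 * c * d * (2 * c * D 6 + d * D 7 + q * D 2 + r * D 3 + v * D 0) +
      2 * a * c * d * p * (2 * c * D 3 + d * D 4 + q * D 0 + r * D 1) -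
      8 * a * c * (a * c * r - a * d * q - c ^ 2 * p) * D 2 -
      4 * a * (a * c * r - a * d * q - c ^ 2 * p) * (r * D 0 + d * D 3) -
      2 * p * (a * c * r - a * d * q - c ^ 2 * p) * (2 * c * D 0 + d * D 1) +
      4 * q * (a * c * r - a * d * q - c ^ 2 * p) * (c * D 1) = 0)
    (k3 : 2 * c * D 0 + d * D 1 = 0) (k4 : 4 * a * d * D 0 - 8 * c ^ 2 * D 1 = 0)
    (r0 : a * D 2 + c * D 4 + p * D 0 + q * D 1 = 0)
    (r1 : a * D 5 + c * D 7 + p * D 2 + q * D 3 + u * D 0 = 0)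
    (r2 : a * D 6 + c * D 8 + p * D 3 + q * D 4 + u * D 1 = 0)
    (r3 : 2 * c * D 7 + d * D 8 + q * D 3 + r * D 4 + v * D 1 = 0) : D = 0 := by
  generalize a * c * r - a * d * q - c ^ 2 * p = ρ at hρ k1 k2
  have d0 : D 0 = 0 := ((h2.mul h2).mul hd).mul_right_eq_zero.1 (by
    linear_combination 8 * c ^ 2 * k3 + d * k4)
  have d1 : D 1 = 0 := ((h2.mul h2).mul hd).mul_right_eq_zero.1 (by
    linear_combination 4 * a * d * k3 - 2 * c * k4)
  simp only [d0, d1, mul_zero, add_zero, sub_zero, zero_add] at k0 k1 k2 r0 r1 r2 r3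
  have b0 : 2 * c * D 3 + d * D 4 = 0 := (h2.mul hc).mul_right_eq_zero.1 k0
  have g0 : 2 * c * D 6 + d * D 7 + q * D 2 + r * D 3 = 0 :=
    ((h2.mul ha).mul (hc.pow 2)).mul_right_eq_zero.1 (by
      linear_combination k1 - (c ^ 2 * p - 2 * ρ) * b0)
  have e0 : 2 * c * D 2 + d * D 3 = 0 := (((h2.mul h2).mul ha).mul hρ).mul_right_eq_zero.1 (by
    linear_combination -k2 + 4 * a ^ 2 * c * d * g0 + 2 * a * c * d * p * b0)
  have d2 : D 2 = 0 := hd.mul_right_eq_zero.1 (by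
    linear_combination 2 * c ^ 2 * e0 - c * d * b0 + d ^ 2 * r0)
  have d4 : D 4 = 0 := hc.mul_right_eq_zero.1 (by linear_combination r0 - a * d2)
  have d3 : D 3 = 0 := (h2.mul hc).mul_right_eq_zero.1 (by linear_combination b0 - d * d4)
  simp only [d2, d3, d4, mul_zero, add_zero] at g0 r1 r2 r3
  have d6 : D 6 = 0 := hd.mul_right_eq_zero.1 (by
    linear_combination 2 * c ^ 2 * g0 - c * d * r3 + d ^ 2 * r2)
  have d8 : D 8 = 0 := hc.mul_right_eq_zero.1 (by linear_combination r2 - a * d6)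
  have d7 : D 7 = 0 := (h2.mul hc).mul_right_eq_zero.1 (by linear_combination r3 - d * d8)
  have d5 : D 5 = 0 := ha.mul_right_eq_zero.1 (by linear_combination r1 - c * d7)
  funext i
  fin_cases i
  exacts [d0, d1, d2, d3, d4, d5, d6, d7, d8]

theorem mom_inj {x z : R} {θ : Fin 10 → DualNumber R} {μ μ₁ μ₂ : Fin 9 → R} (h2 : IsUnit (2 : R))
    (ha : IsUnit (θ 0).fst) (hc : IsUnit (θ 2).fst)
    (hρ : IsUnit ((θ 0).fst * (θ 2).fst * (θ 7).fst - (θ 0).fst * (θ 6).fst * (θ 4).fst -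
      (θ 2).fst ^ 2 * (θ 3).fst))
    (hd : IsUnit (4 * (θ 2).fst ^ 3 + (θ 0).fst * (θ 6).fst ^ 2))
    (hk : ∀ j, (coefT (inD x) (inD z) θ (fun i => dn (μ i) (μ₁ i)) j).snd =
      (coefT (inD x) (inD z) θ (fun i => dn (μ i) (μ₂ i)) j).snd)
    (hr₁ : ∀ j, relT (inD x) (inD z) θ (fun i => dn (μ i) (μ₁ i)) j = 0)
    (hr₂ : ∀ j, relT (inD x) (inD z) θ (fun i => dn (μ i) (μ₂ i)) j = 0) : μ₁ = μ₂ := by
  have ek : ∀ j, (coefT (inD x) (inD z) (fun j => inD (θ j).fst)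
      (fun i => dn (μ i) (μ₁ i - μ₂ i)) j).snd = 0 := fun j => by
    rw [← (coefT_T x z (fun j => T.same (θ j)) (fun j => T.dif (μ j) (μ₁ j) (μ₂ j)) j).2.2, hk j,
      sub_self]
  have er : ∀ j, (relT (inD x) (inD z) (fun j => inD (θ j).fst)
      (fun i => dn (μ i) (μ₁ i - μ₂ i)) j).snd = 0 := fun j => by
    rw [← (relT_T x z (fun j => T.same (θ j)) (fun j => T.dif (μ j) (μ₁ j) (μ₂ j)) j).2.2, hr₁ j,
      hr₂ j, sub_self]
  have k0 := ek 0
  have k1 := ek 1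
  have k2 := ek 2
  have k3 := ek 3
  have k4 := ek 4
  have r0 := er 0
  have r1 := er 1
  have r2 := er 2
  have r3 := er 3
  simp only [coefT, coef, relT, rel, Matrix.cons_val, TrivSqZeroExt.snd_add,
    TrivSqZeroExt.snd_sub, DualNumber.snd_mul, snd_sq, snd_cube, TrivSqZeroExt.fst_add,
    TrivSqZeroExt.fst_sub, TrivSqZeroExt.fst_mul, TrivSqZeroExt.fst_pow, fst_dn, snd_dn, fst_inD,
    snd_inD, fst2, fst4, fst8, snd2, snd4, snd8, mul_zero, zero_mul, add_zero, zero_add, sub_zero,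
    sub_self] at k0 k1 k2 k3 k4 r0 r1 r2 r3
  have := MomA.lin (D := fun i => μ₁ i - μ₂ i) h2 ha hc hρ hd k0 k1 k2 k3 k4
    r0 r1 r2 r3
  funext i
  exact sub_eq_zero.1 (congrFun this i)

theorem shear_inj {l : DualNumber R} {b b₁ b₂ : Fin 9 → R}
    (h : ∀ i, (shear l (fun j => dn (b j) (b₁ j)) i).snd =
      (shear l (fun j => dn (b j) (b₂ j)) i).snd) : b₁ = b₂ := by
  have ek : ∀ i, (shear (inD l.fst) (fun j => dn (b j) (b₁ j - b₂ j)) i).snd = 0 := fun i => by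
    rw [← (shear_T (T.same l) (fun j => T.dif (b j) (b₁ j) (b₂ j)) i).2.2, h i, sub_self]
  have k0 := ek 0
  have k1 := ek 1
  have k2 := ek 2
  have k3 := ek 3
  have k4 := ek 4
  have k5 := ek 5
  have k6 := ek 6
  have k7 := ek 7
  have k8 := ek 8
  simp only [shear, Matrix.cons_val, TrivSqZeroExt.snd_add,
    DualNumber.snd_mul, snd_sq, snd_cube, TrivSqZeroExt.fst_mul, TrivSqZeroExt.fst_pow, fst_dn,
    snd_dn, fst_inD, snd_inD, fst2, fst3, snd2, snd3, mul_zero, zero_mul, add_zero]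
    at k0 k1 k2 k3 k4 k5 k6 k7 k8
  simp only [k1, k4, k8, mul_zero, add_zero] at k0 k2 k3 k5 k6 k7
  simp only [k3, k7, mul_zero, add_zero] at k2 k5 k6
  simp only [k6, mul_zero, add_zero] at k5
  funext i
  rw [← sub_eq_zero]
  fin_cases i
  exacts [k0, k1, k2, k3, k4, k5, k6, k7, k8]

theorem gam9_inj {θ θ' : Fin 10 → R} (ha : ∀ y, θ 0 * y = 0 → y = 0)
    (h : ∀ i, (gam9 (fun j => dn (θ j) (θ' j)) i).snd = 0) (j : Fin 10) (hj : j ≠ 9) : θ' j = 0 := by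
  have k0 := h 0
  have k1 := h 1
  have k2 := h 2
  have k3 := h 3
  have k4 := h 4
  have k5 := h 5
  have k6 := h 6
  have k7 := h 7
  have k8 := h 8
  simp only [gam9, Matrix.cons_val, TrivSqZeroExt.snd_add, TrivSqZeroExt.snd_one,
    DualNumber.snd_mul, snd_sq, snd_cube, TrivSqZeroExt.fst_mul, TrivSqZeroExt.fst_pow, fst_dn,
    snd_dn, fst2, fst3, snd2, snd3, zero_mul, add_zero]
    at k0 k1 k2 k3 k4 k5 k6 k7 k8
  have k9 : θ' 1 = 0 := ha _ (by simpa only [k5, zero_mul, add_zero] using k6)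
  simp only [k0, k2, k5, k9, mul_zero, zero_mul, add_zero] at k1 k3 k4 k7 k8
  simp only [k3, k7, mul_zero, zero_mul, add_zero] at k4 k8
  fin_cases j
  exacts [k5, k9, k7, k2, k3, k0, k8, k4, k1, absurd rfl hj]

end Pool.Agent.P.MP_48bde8_co
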