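import Pool.Agent.P.MP_48bde8_co.Filt

/-! Task NODEC: the six nodes impose independent conditions. -/

namespace Pool.Agent.P.MP_48bde8_co

variable {Λ : Type} [CommRing Λ] {S : Subring Λ} {e : Λˣ} {sg si hf : Λ} {θ : Fin 10 → Λ}

namespace NodeC

/-- The quantity `L`. -/
def nL (θ : Fin 10 → Λ) (m : Λ) : Λ := θ 4 + 2 * θ 2 * m

/-- The quantity `ν`. -/
def nV (θ : Fin 10 → Λ) (m : Λ) : Λ := m * (θ 4 + θ 2 * m)

/-- The quantity `Y`. -/
def nY (θ : Fin 10 → Λ) (f m : Λ) : Λ := f - (θ 6 * m ^ 2 + θ 7 * m + θ 8)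

/-- The quantity `Z`. -/
def nZ (θ : Fin 10 → Λ) (f m : Λ) : Λ := 2 * θ 0 * nY θ f m + θ 3 * nL θ m

/-- The quantity `ρ`. -/
def nR (θ : Fin 10 → Λ) : Λ := θ 0 * θ 2 * θ 7 - θ 0 * θ 6 * θ 4 - θ 2 ^ 2 * θ 3

/-- The quantity `ξ`. -/
def nX (θ : Fin 10 → Λ) (f m : Λ) : Λ := θ 0 * θ 2 * f - nR θ * m

/-- The cofactor of `Z` in the new last column. -/
def nI (θ : Fin 10 → Λ) (z f m : Λ) : Λ :=
  θ 0 * θ 2 * f * (θ 4 ^ 2 + nL θ m ^ 2) +
    -(2 * θ 2 * nR θ * nL θ m * m ^ 2 + 2 * θ 0 * θ 2 ^ 2 * (1 - z) * θ 4)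

/-- The columns after the change of the last one. -/
def colN (θ : Fin 10 → Λ) (z k f m : Λ) : Fin 6 → Λ :=
  ![nL θ m ^ 2, nL θ m ^ 2 * nZ θ f m, nL θ m ^ 2 * nV θ m, nL θ m ^ 2 * nZ θ f m * nX θ f m,
    nL θ m ^ 2 * nV θ m * nX θ f m,
    nZ θ f m * nI θ z f m + 2 * θ 0 ^ 2 * θ 2 * θ 4 * (k - 2 * θ 6 * z * nV θ m)]

variable {n n' km : ℤ} {c c' f m k z g : Λ}

theorem cast (h : LT S e n c f) (hn : n = n') (hc : c = c') : LT S e n' c' f := hn ▸ hc ▸ h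

theorem two_mem : (2 : Λ) ∈ S := one_add_one_eq_two (R := Λ) ▸ S.add_mem S.one_mem S.one_mem

theorem v2 : VV S e 0 (2 : Λ) := VV.of_mem two_mem

theorem zr (he : (e : Λ) ∈ S) (h : VV S e n g) (hn : n' + 1 ≤ n) : LT S e n' 0 g :=
  LT.of_vv (h.mono he hn)

theorem lM (hc : c ∈ S) (h : VV S e 1 (g - c)) (n : ℤ) : LT S e n c (((e ^ n : Λˣ) : Λ) * g) :=
  ⟨hc, by
    rw [← mul_sub]
    exact VV.mul ⟨1, S.one_mem, (mul_one _).symm⟩ h⟩

theorem lInv (hc : c' ∈ S) (hcc : c * c' = 1) (h : VV S e 1 (g - c)) {y : Λ} (hy : y ∈ S)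
    (hg : g * y = 1) : VV S e 1 (y - c') := by
  rw [show y - c' = -(y * c' * (g - c)) by linear_combination c' * hg - y * hcc]
  exact ((VV.of_mem (S.mul_mem hy hc)).mul h).neg

theorem fval {G y : Λ} (hg : g * y = 1)
    (h : ((e ^ n : Λˣ) : Λ) * g * f = -(((e ^ n : Λˣ) : Λ) * g * G) - (1 - z)) :
    f = -G + -((1 - z) * (((e ^ (-n) : Λˣ) : Λ) * y)) := by
  have h1 : ((e ^ (-n) : Λˣ) : Λ) * ((e ^ n : Λˣ) : Λ) = 1 := by
    rw [← Units.val_mul, ← zpow_add, neg_add_cancel, zpow_zero, Units.val_one]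
  linear_combination (((e ^ (-n) : Λˣ) : Λ) * y) * h - (f + G) * (g * y * h1 + hg)

section

variable (h : ParLT S e sg si hf θ)
include h

theorem vz : VV S e 2 (-(sg ^ 2 * (e : Λ) ^ 2)) :=
  ((VV.of_mem (S.pow_mem h.hsg 2)).mul (VV.unit.pow 2)).neg

theorem lz (hz : VV S e 2 z) : LT S e 0 1 (1 - z) := by
  rw [sub_eq_add_neg]
  exact (LT.of_mem S.one_mem).add_vv (hz.neg.mono h.he (by decide))

theorem lL (hm : VV S e km m) (hk : -20 ≤ km) : LT S e 1 1 (nL θ m) :=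
  h.hq.add_vv (((v2.mul (h.hc.vv h.he)).mul hm).mono h.he (by omega))

theorem lL2 (hm : VV S e km m) (hk : -20 ≤ km) : LT S e 2 1 (nL θ m ^ 2) :=
  cast ((lL h hm hk).pow h.he 2) rfl (one_pow 2)

theorem lV (hm : LT S e km c m) (hk : -20 ≤ km) : LT S e (km + 1) c (nV θ m) :=
  cast (hm.mul h.he (h.hq.add_vv (((h.hc.vv h.he).mul (hm.vv h.he)).mono h.he (by omega)))) rfl
    (mul_one c)

theorem vP (hm : VV S e km m) (h1 : n ≤ 26 + 2 * km) (h2 : n ≤ 6 + km) (h3 : n ≤ 0) :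
    VV S e n (θ 6 * m ^ 2 + θ 7 * m + θ 8) :=
  ((((h.rho.2.1.vv h.he).mul (hm.pow 2)).mono h.he h1).add
    (((h.rho.2.2.vv h.he).mul hm).mono h.he h2)).add ((h.hv.vv h.he).mono h.he h3)

theorem lY (hf : LT S e n c f) (hm : VV S e km m) (h1 : n + 1 ≤ 26 + 2 * km) (h2 : n + 1 ≤ 6 + km)
    (h3 : n + 1 ≤ 0) : LT S e n c (nY θ f m) := by
  rw [nY, sub_eq_add_neg]
  exact hf.add_vv (vP h hm h1 h2 h3).neg

theorem lP (hm : VV S e km m) (hk : -20 ≤ km) : LT S e 1 (-1) (θ 3 * nL θ m) :=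
  cast (h.hp.mul h.he (lL h hm hk)) rfl (mul_one _)

theorem lA (hY : LT S e n c g) : LT S e (3 + n) (-2 * c) (2 * θ 0 * g) :=
  cast (((LT.of_mem two_mem).mul h.he h.ha).mul h.he hY) rfl (by ring)

theorem lZ (hY : LT S e n c (nY θ f m)) (hm : VV S e km m) (hk : -20 ≤ km) (hn : n ≤ -3) :
    LT S e (3 + n) (-2 * c) (nZ θ f m) :=
  (lA h hY).add_vv (((lP h hm hk).vv h.he).mono h.he (by omega))

theorem lB (hf : LT S e n c f) : LT S e (30 + n) (-(sg ^ 8 * c)) (θ 0 * θ 2 * f) :=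
  cast ((h.ha.mul h.he h.hc).mul h.he hf) rfl (by ring)

theorem vB (hf : VV S e n f) : VV S e (30 + n) (θ 0 * θ 2 * f) :=
  ((h.ha.vv h.he).mul (h.hc.vv h.he)).mul hf

theorem vX (hf : VV S e n f) (hm : VV S e km m) (h1 : n' ≤ 30 + n) (h2 : n' ≤ 30 + km) :
    VV S e n' (nX θ f m) :=
  ((vB h hf).mono h.he h1).sub (((h.rho.1.vv h.he).mul hm).mono h.he h2)

theorem lQ (hm : VV S e km m) (hk : -20 ≤ km) : LT S e 2 2 (θ 4 ^ 2 + nL θ m ^ 2) :=
  cast ((h.hq.pow h.he 2).add (lL2 h hm hk)) rfl (by ring)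

theorem vJ (hz : VV S e 2 z) (hm : VV S e km m) (hk : -20 ≤ km) (h1 : n ≤ 58 + 2 * km)
    (h2 : n ≤ 58) :
    VV S e n (-(2 * θ 2 * nR θ * nL θ m * m ^ 2 + 2 * θ 0 * θ 2 ^ 2 * (1 - z) * θ 4)) :=
  ((((((v2.mul (h.hc.vv h.he)).mul (h.rho.1.vv h.he)).mul ((lL h hm hk).vv h.he)).mul
    (hm.pow 2)).mono h.he h1).add (((((v2.mul (h.ha.vv h.he)).mul ((h.hc.vv h.he).pow 2)).mul
      ((lz h hz).vv h.he)).mul (h.hq.vv h.he)).mono h.he h2)).neg

theorem vI (hz : VV S e 2 z) (hf : VV S e n f) (hm : VV S e km m) (hk : -20 ≤ km)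
    (h0 : n' ≤ 30 + n + 2) (h1 : n' ≤ 58 + 2 * km) (h2 : n' ≤ 58) : VV S e n' (nI θ z f m) :=
  (((vB h hf).mul ((lQ h hm hk).vv h.he)).mono h.he h0).add (vJ h hz hm hk h1 h2)

theorem vG (hz : VV S e 2 z) (hk0 : VV S e 9 k) (hm : LT S e km c m) (hk : -20 ≤ km) :
    VV S e 43 (2 * θ 0 ^ 2 * θ 2 * θ 4 * (k - 2 * θ 6 * z * nV θ m)) :=
  (((v2.mul ((h.ha.vv h.he).pow 2)).mul (h.hc.vv h.he)).mul (h.hq.vv h.he)).mul
    (hk0.sub ((((v2.mul (h.rho.2.1.vv h.he)).mul hz).mul ((lV h hm hk).vv h.he)).mono h.he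
      (by omega)))

theorem rowV (hz : VV S e 2 z) (hk0 : VV S e 9 k) (hm : LT S e km c m) (hk : -20 ≤ km)
    {a b d : ℤ} (hZ : VV S e a (nZ θ f m)) (hX : VV S e b (nX θ f m))
    (hI : VV S e d (nI θ z f m)) (hd : a + d ≤ 43) (j : Fin 6) :
    VV S e (![2, 2 + a, 2 + (km + 1), 2 + a + b, 2 + (km + 1) + b, a + d] j) (colN θ z k f m j) := by
  have h1 := (lL2 h (hm.vv h.he) hk).vv h.he
  have h2 := h1.mul ((lV h hm hk).vv h.he)
  fin_cases j
  exacts [h1, h1.mul hZ, h2, (h1.mul hZ).mul hX, h2.mul hX,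
    (hZ.mul hI).add ((vG h hz hk0 hm hk).mono h.he hd)]

theorem hpow (n : ℕ) : sg ^ n * si ^ n = 1 := by rw [← mul_pow, h.hinv, one_pow]

variable (hz : VV S e 2 z) (hk0 : VV S e 9 k)
include hz hk0

theorem row0 (hm : LT S e 2 1 m) (hf : LT S e (-2) (-1) f) (j : Fin 6) :
    LT S e (0 + ![2, 3, -2, 22, 10, 24] j) (![1, 1, 0, 0, 0, 0] j) (colN θ z k f m j) := by
  have m0 := hm.vv h.he
  have f0 := hf.vv h.he
  have hZ : LT S e 1 1 (nZ θ f m) := cast ((lA h (lY h hf m0 (by decide) (by decide)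
    (by decide))).add (lP h m0 (by decide))) rfl (by ring)
  have hv := rowV h hz hk0 hm (by decide) (hZ.vv h.he)
    (vX h (n' := 28) f0 m0 (by decide) (by decide))
    (vI h (n' := 30) hz f0 m0 (by decide) (by decide) (by decide) (by decide)) (by decide)
  have h1 := lL2 h m0 (by decide)
  fin_cases j
  exacts [h1, cast (h1.mul h.he hZ) rfl (mul_one _), zr h.he (hv 2) (by decide),
    zr h.he (hv 3) (by decide), zr h.he (hv 4) (by decide), zr h.he (hv 5) (by decide)]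

theorem row1 (hm : LT S e (-2) 1 m) (f0 : VV S e 2 f) (j : Fin 6) :
    LT S e (0 + ![2, 3, -2, 22, 10, 24] j) (![1, -1, 0, 0, 0, 0] j) (colN θ z k f m j) := by
  have m0 := hm.vv h.he
  have hY : VV S e 0 (nY θ f m) :=
    (f0.mono h.he (by decide)).sub (vP h m0 (by decide) (by decide) (by decide))
  have hZ : LT S e 1 (-1) (nZ θ f m) :=
    LT.vv_add (((v2.mul (h.ha.vv h.he)).mul hY).mono h.he (by decide)) (lP h m0 (by decide))
  have hv := rowV h hz hk0 hm (by decide) (hZ.vv h.he)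
    (vX h (n' := 28) f0 m0 (by decide) (by decide))
    (vI h (n' := 34) hz f0 m0 (by decide) (by decide) (by decide) (by decide)) (by decide)
  have h1 := lL2 h m0 (by decide)
  fin_cases j
  exacts [h1, cast (h1.mul h.he hZ) rfl (one_mul _), zr h.he (hv 2) (by decide),
    zr h.he (hv 3) (by decide), zr h.he (hv 4) (by decide), zr h.he (hv 5) (by decide)]

theorem row2 (hm : LT S e (-12) c m) (f0 : VV S e 12 f) (j : Fin 6) :
    LT S e (-7 + ![2, 3, -2, 22, 10, 24] j) (![0, 0, c, 0, 0, 0] j) (colN θ z k f m j) := by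
  have m0 := hm.vv h.he
  have hY : VV S e (-6) (nY θ f m) :=
    (f0.mono h.he (by decide)).sub (vP h m0 (by decide) (by decide) (by decide))
  have hZ : VV S e (-3) (nZ θ f m) :=
    ((v2.mul (h.ha.vv h.he)).mul hY).add (((lP h m0 (by decide)).vv h.he).mono h.he (by decide))
  have hv := rowV h hz hk0 hm (by decide) hZ (vX h (n' := 18) f0 m0 (by decide) (by decide))
    (vI h (n' := 34) hz f0 m0 (by decide) (by decide) (by decide) (by decide)) (by decide)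
  fin_cases j
  exacts [zr h.he (hv 0) (by decide), zr h.he (hv 1) (by decide),
    cast ((lL2 h m0 (by decide)).mul h.he (lV h hm (by decide))) rfl (one_mul _),
    zr h.he (hv 3) (by decide), zr h.he (hv 4) (by decide), zr h.he (hv 5) (by decide)]

theorem row3 {δ d t : Λ} (hd : d ∈ S) (hδ : VV S e 1 (δ - d)) (ht : d = sg ^ 2 + t * sg)
    (hme : m = ((e ^ (-20 : ℤ) : Λˣ) : Λ) * (si ^ 6 * (1 + (e : Λ) ^ 4 * δ))) (f0 : VV S e 20 f)
    (j : Fin 6) : LT S e (-17 + ![2, 3, -2, 22, 10, 24] j) (![0, 0, 0, -2 * t * si, si ^ 4, 0] j)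
      (colN θ z k f m j) := by
  have s0 : ∀ n : ℕ, VV S e 0 (si ^ n) := fun n => VV.of_mem (S.pow_mem h.hsi n)
  have d0 : VV S e 0 δ := sub_add_cancel δ d ▸ (hδ.mono h.he (by decide)).add (VV.of_mem hd)
  have hm : LT S e (-20) (si ^ 6) m := hme ▸ lM (S.pow_mem h.hsi 6) (by
    rw [mul_one_add, add_sub_cancel_left]
    exact ((s0 6).mul ((VV.unit.pow 4).mul d0)).mono h.he (by decide)) _
  have m0 := hm.vv h.he
  have e1 : ((e ^ (-10 : ℤ) : Λˣ) : Λ) = ((e ^ (-20 : ℤ) : Λˣ) : Λ) * (e : Λ) ^ 10 := by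
    rw [← Units.val_pow_eq_pow_val, ← Units.val_mul, ← zpow_natCast, ← zpow_add]
    rfl
  have e2 : ((e ^ (-20 : ℤ) : Λˣ) : Λ) * (e : Λ) ^ 20 = 1 := by
    rw [← Units.val_pow_eq_pow_val, ← Units.val_mul, ← zpow_natCast, ← zpow_add]
    exact congrArg Units.val (zpow_zero e)
  have hY : LT S e (-10) (si ^ 4 * d - si ^ 2) (nY θ f m) := by
    rw [show nY θ f m = ((e ^ (-10 : ℤ) : Λˣ) : Λ) *
        ((si ^ 4 * δ - si ^ 2) * (1 + (e : Λ) ^ 4 * δ)) +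
        (f - θ 8 - (θ 6 + sg ^ 8 * (e : Λ) ^ 26) * m ^ 2 -
          (θ 7 - sg ^ 2 * (e : Λ) ^ 6 - sg ^ 4 * (e : Λ) ^ 10) * m) by
      rw [nY, e1, hme]
      generalize ((e ^ (-20 : ℤ) : Λˣ) : Λ) = E at e2
      linear_combination (si ^ 4 * (e : Λ) ^ 6 * E * (1 + (e : Λ) ^ 4 * δ) ^ 2) *
        (E * (e : Λ) ^ 20 * hpow h 8 + e2) + E * (1 + (e : Λ) ^ 4 * δ) *
        (-(si ^ 4 * (e : Λ) ^ 6) * hpow h 2 - si ^ 2 * (e : Λ) ^ 10 * hpow h 4)]
    refine (lM (S.sub_mem (S.mul_mem (S.pow_mem h.hsi 4) hd) (S.pow_mem h.hsi 2)) ?_ _).add_vv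
      ((((f0.mono h.he (by decide)).sub ((h.hv.vv h.he).mono h.he (by decide))).sub
        (h.hd.mul (m0.pow 2))).sub (h.hr.mul m0))
    rw [show (si ^ 4 * δ - si ^ 2) * (1 + (e : Λ) ^ 4 * δ) - (si ^ 4 * d - si ^ 2) =
      si ^ 4 * (δ - d) + (si ^ 4 * δ - si ^ 2) * ((e : Λ) ^ 4 * δ) by ring]
    exact ((s0 4).mul hδ).add (((((s0 4).mul d0).sub (s0 2)).mul
      ((VV.unit.pow 4).mul d0)).mono h.he (by decide))
  have hZ := lZ h hY m0 (by decide) (by decide)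
  have hX : LT S e 10 (sg ^ 2) (nX θ f m) := by
    rw [nX, sub_eq_add_neg]
    exact LT.vv_add ((vB h f0).mono h.he (by decide))
      (cast (h.rho.1.mul h.he hm).neg rfl (by linear_combination sg ^ 2 * hpow h 6))
  have hv := rowV h hz hk0 hm (by decide) (hZ.vv h.he) (hX.vv h.he)
    (vI h (n' := 18) hz f0 m0 (by decide) (by decide) (by decide) (by decide)) (by decide)
  have h1 := lL2 h m0 (by decide)
  fin_cases j
  exacts [zr h.he (hv 0) (by decide), zr h.he (hv 1) (by decide), zr h.he (hv 2) (by decide),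
    cast (c' := -2 * t * si) ((h1.mul h.he hZ).mul h.he hX) rfl (by
      rw [ht]
      linear_combination (-2) * (hpow h 4 - hpow h 2 + t * si * hpow h 3)),
    cast (c' := si ^ 4) ((h1.mul h.he (lV h hm (by decide))).mul h.he hX) rfl
      (by linear_combination si ^ 4 * hpow h 2), zr h.he (hv 5) (by decide)]

theorem row5 (hm : LT S e 26 c m) (hf : LT S e (-26) (si ^ 8) f) (j : Fin 6) :
    LT S e (-41 + ![2, 3, -2, 22, 10, 24] j) (![0, 0, 0, 0, 0, 4 * si ^ 8] j)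
      (colN θ z k f m j) := by
  have m0 := hm.vv h.he
  have f0 := hf.vv h.he
  have hZ := lZ h (lY h hf m0 (by decide) (by decide) (by decide)) m0 (by decide) (by decide)
  have hI : LT S e 6 (-2) (nI θ z f m) :=
    (cast ((lB h hf).mul h.he (lQ h m0 (by decide))) rfl
      (by linear_combination (-2) * hpow h 8)).add_vv
      (vJ h hz m0 (by decide) (by decide) (by decide))
  have hv := rowV h hz hk0 hm (by decide) (hZ.vv h.he)
    (vX h (n' := 4) f0 m0 (by decide) (by decide)) (hI.vv h.he) (by decide)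
  fin_cases j
  exacts [zr h.he (hv 0) (by decide), zr h.he (hv 1) (by decide), zr h.he (hv 2) (by decide),
    zr h.he (hv 3) (by decide), zr h.he (hv 4) (by decide),
    (cast (c' := 4 * si ^ 8) (hZ.mul h.he hI) rfl (by ring)).add_vv
      ((vG h hz hk0 hm (by decide)).mono h.he (by decide))]

end

theorem det6 (s : Λ) : Matrix.det (Matrix.of ![![1, 1, 0, 0, 0, 0], ![1, -1, 0, 0, 0, 0],
    ![0, 0, s ^ 4, 0, 0, 0], ![0, 0, 0, -2 * 1 * s, s ^ 4, 0], ![0, 0, 0, -2 * -1 * s, s ^ 4, 0],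
    ![0, 0, 0, 0, 0, 4 * s ^ 8]]) = 32 * s ^ 17 := by
  simp [Matrix.det_succ_row_zero, Fin.sum_univ_succ, Fin.succAbove]
  ring

end NodeC

open NodeC in
theorem vand (h : ParLT S e sg si hf θ) (hloc : ∀ y ∈ S, IsUnit (1 + (e : Λ) * y))
    {δ G f : Fin 6 → Λ} (hδ : ∀ i, VV S e 1 (δ i - d0 sg si i))
    (hω : ∀ i, ∃ y ∈ S, om e si i (δ i) * y = 1) (hG : ∀ i, VV S e (2 + sv i) (G i))
    (hf' : ∀ i, mOf e si i (δ i) * f i =
      -(mOf e si i (δ i) * G i) - (1 - -(sg ^ 2 * (e : Λ) ^ 2))) {y : Fin 6 → Λ}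
    (hy : ∀ i, ∑ j, cols 1 (-(sg ^ 2 * (e : Λ) ^ 2)) θ (coefT 1 (-(sg ^ 2 * (e : Λ) ^ 2)) θ
      (shear (θ 1) (mom0 1 (-(sg ^ 2 * (e : Λ) ^ 2)) e))) (f i) (mOf e si i (δ i)) j * y j = 0) :
    y = 0 := by
  have hz := vz h
  have hk0 := h.coef 0
  generalize coefT 1 (-(sg ^ 2 * (e : Λ) ^ 2)) θ
    (shear (θ 1) (mom0 1 (-(sg ^ 2 * (e : Λ) ^ 2)) e)) = k at hk0 hy
  generalize -(sg ^ 2 * (e : Λ) ^ 2) = z at hz hf' hy
  choose u hu hu' using hω
  have hff : ∀ i, f i = -G i + -((1 - z) * (((e ^ (-kx i) : Λˣ) : Λ) * u i)) :=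
    fun i => fval (hu' i) (hf' i)
  have fv : ∀ i, -kx i ≤ 2 + sv i → VV S e (-kx i) (f i) := fun i hi => hff i ▸
    ((hG i).neg.mono h.he hi).add ((((lz h hz).vv h.he).mul ⟨_, hu i, rfl⟩).neg.mono h.he
      (zero_add _).ge)
  have fl : ∀ i c c', c' ∈ S → c * c' = 1 → VV S e 1 (om e si i (δ i) - c) →
      -kx i + 1 ≤ 2 + sv i → LT S e (-kx i) (-c') (f i) := fun i c c' h1 h2 h3 hi => hff i ▸
    LT.vv_add ((hG i).neg.mono h.he hi) (cast ((lz h hz).mul h.he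
      (lM h1 (lInv h1 h2 h3 (hu i) (hu' i)) _)).neg (zero_add _) (by rw [one_mul]))
  obtain ⟨q, hq⟩ := (h.units hloc).2.2.1.exists_right_inv
  have s8 := S.pow_mem h.hsg 8
  have s2 := S.pow_mem h.hsg 2
  have key := ker_of_LT h.he hloc ![0, 0, -7, -17, -17, -41] ![2, 3, -2, 22, 10, 24]
    (Matrix.of fun i => colN θ z (k 0) (f i) (mOf e si i (δ i))) _ (fun i => ?_)
    (S.mul_mem (S.pow_mem h.hhf 5) (S.pow_mem h.hsg 17)) (by
      rw [det6 si]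
      linear_combination (2 * hf) ^ 5 * hpow h 17 +
        (1 + 2 * hf + (2 * hf) ^ 2 + (2 * hf) ^ 3 + (2 * hf) ^ 4) * h.hhf2)
    (y := ![y 0, y 1, y 2, y 3 - y 5 * q, y 4, y 5 * q]) (funext fun i => ?_)
  · have k5 : y 5 * q = 0 := congrFun key 5
    have k3 : y 3 - y 5 * q = 0 := congrFun key 3
    have h5 : y 5 = 0 := by linear_combination θ 4 * k5 - y 5 * hq
    have h3 : y 3 = 0 := by linear_combination k3 + q * h5
    funext i
    fin_cases i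
    exacts [congrFun key 0, congrFun key 1, congrFun key 2, h3, congrFun key 4, h5]
  · fin_cases i
    exacts [row0 h hz hk0 (lM S.one_mem (hδ 0) _)
        (fl 0 1 1 S.one_mem (one_mul 1) (hδ 0) (by decide)),
      row1 h hz hk0 (lM S.one_mem (hδ 1) _) (fv 1 (by decide)),
      row2 h hz hk0 (lM (S.pow_mem h.hsi 4) (hδ 2) _) (fv 2 (by decide)),
      row3 h hz hk0 (S.add_mem s2 h.hsg) (hδ 3) (by ring) rfl (fv 3 (by decide)),
      row3 h hz hk0 (S.sub_mem s2 h.hsg) (hδ 4) (by ring) rfl (fv 4 (by decide)),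
      row5 h hz hk0 (lM (S.neg_mem s8) (hδ 5) _) (cast (fl 5 (-sg ^ 8) (-si ^ 8)
        (S.neg_mem (S.pow_mem h.hsi 8)) (by linear_combination hpow h 8) (hδ 5) (by decide)) rfl
        (neg_neg _))]
  · have h1 := hy i
    simp only [Matrix.mulVec, dotProduct, Matrix.of_apply, Pi.zero_apply]
    generalize mOf e si i (δ i) = m at h1 ⊢
    simp only [Fin.sum_univ_six, cols, colN, nI, nX, nR, nZ, nY, nV, nL, Matrix.cons_val] at h1 ⊢
    linear_combination h1 + (y 5 * ((2 * θ 0 * (f i - (θ 6 * m ^ 2 + θ 7 * m + θ 8)) +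
      θ 3 * (θ 4 + 2 * θ 2 * m)) * (θ 0 * θ 2 * θ 4 * f i +
        (θ 0 * θ 2 * θ 7 - θ 0 * θ 6 * θ 4 - θ 2 ^ 2 * θ 3) * (θ 4 + 2 * θ 2 * m) * m -
        2 * θ 0 * θ 2 ^ 2 * (1 - z)) +
      2 * θ 0 ^ 2 * θ 2 * (k 0 - 2 * θ 6 * z * (m * (θ 4 + θ 2 * m))))) * hq

end Pool.Agent.P.MP_48bde8_co
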