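import Pool.Agent.P.MP_48bde8_co.Param
import Pool.Agent.P.MP_48bde8_co.Phi
import Pool.Agent.P.MP_48bde8_co.Curve
import Pool.Agent.P.MP_48bde8_co.Cplt
import Pool.Agent.P.MP_48bde8_co.NodeC
import Pool.Agent.P.MP_48bde8_co.Mom
import Pool.Agent.P.MP_48bde8_co.Shear

/-! Task RIGID: the solution has no first-order deformation. -/

namespace Pool.Agent.P.MP_48bde8_co

open PowerSeries

namespace RigidAux

section Gen

variable {R R' : Type} [CommRing R] [CommRing R']

theorem eq_dn {y : DualNumber R} {a : R} (h : y.fst = a) : y = dn a y.snd := by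
  rw [← h, dn_fst_snd]

theorem kap_congr (x z : R) {θ θ' : Fin 10 → R} (τ : List Bool → R)
    (h : ∀ j, j ≠ 9 → θ j = θ' j) : Kap x z θ τ = Kap x z θ' τ := by
  unfold Kap
  rw [h 0 (by decide), h 2 (by decide), h 3 (by decide), h 4 (by decide), h 6 (by decide),
    h 7 (by decide), h 8 (by decide)]

theorem isUnit_dual {y : DualNumber R} (h : IsUnit y.fst) : IsUnit y :=
  TrivSqZeroExt.isUnit_iff_isUnit_fst.2 h

theorem small_dual {ε z : R} {θ θ' : Fin 10 → R} (h : Small ε z θ) (hθ : ∀ j, ε ∣ θ' j) :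
    Small (inD ε) (inD z) (fun j => dn (θ j) (θ' j)) := by
  obtain ⟨h0, h1, h2, h3, h4, h5, h6, h7, h8⟩ := h
  refine ⟨by rw [← map_pow]; exact map_dvd _ h0, ?_, ?_, ?_, ?_, ?_, ?_, ?_, ?_⟩ <;>
    rw [cplt_dvd_iff] <;> simp [*]

theorem map_sUnit (ψ : R →+* R') (ε si : R) (i : Fin 6) (δ : R) :
    ψ (sUnit ε si i δ) = sUnit (ψ ε) (ψ si) i (ψ δ) := by
  fin_cases i <;> simp [sUnit]

theorem om_eq (ψ : R →+* R') {ε : R} {e : R'ˣ} (he : (e : R') = ψ ε) (si : R) (i : Fin 6)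
    (δ : R) : om e (ψ si) i (ψ δ) =
      ψ (![δ, δ, δ, si ^ 6 * (1 + ε ^ 4 * δ), si ^ 6 * (1 + ε ^ 4 * δ), δ] i) := by
  fin_cases i <;> simp [om, he]

theorem fst_shear (l : DualNumber R) (b b' : Fin 9 → R) (i : Fin 9) :
    (shear l (fun j => dn (b j) (b' j)) i).fst = shear l.fst b i := by
  simpa using map_shear fstD l (fun j => dn (b j) (b' j)) i

theorem fst_coefT (x z : R) (θ : Fin 10 → DualNumber R) (μ μ' : Fin 9 → R) (j : Fin 5) :
    (coefT (inD x) (inD z) θ (fun i => dn (μ i) (μ' i)) j).fst =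
      coefT x z (fun j => (θ j).fst) μ j := by
  simpa using map_coefT fstD (inD x) (inD z) θ (fun i => dn (μ i) (μ' i)) j

theorem mom0_inD (x z t : R) :
    mom0 (inD x) (inD z) (inD t) = fun j => dn (mom0 x z t j) ((0 : Fin 9 → R) j) := by
  funext j
  rw [Pi.zero_apply, dn_zero, map_mom0 (R' := DualNumber R) inD]

theorem sing_curveK {x z t : R} {θ : Fin 10 → R} {f s : R} (h : Sing x z t θ f s) (a b : R) :
    curveK (inD x) (inD z) (fun j => inD (θ j)) (inD (θ 9))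
      (fun j => inD (coefT x z θ (shear (θ 1) (mom0 x z t)) j)) (dn f a) (dn s b) = 0 := by
  have h1 := h a b
  rw [curveAt_eq] at h1
  simp only [map_coefT (R' := DualNumber R) inD, map_shear (R' := DualNumber R) inD,
    map_mom0 (R' := DualNumber R) inD]
  exact h1

end Gen

variable {k : Type} [Field k] {σ : k}

theorem eL_val : (eL k : Lf k) = io k X := rfl

theorem io_zO : io k (zO σ) = -(io k (C σ) ^ 2 * (eL k : Lf k) ^ 2) := by
  simp [zO, eL_val]

theorem io_inj : Function.Injective (io k) := IsFractionRing.injective _ _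

end RigidAux

open RigidAux

variable {k : Type} [Field k] [Algebra ℚ k] {σ : k} {τ γ : List Bool → PowerSeries k}
  {ω : List Bool → List Bool → PowerSeries k} {θ : Fin 10 → PowerSeries k}

theorem Setup.sys (h : Setup σ τ γ ω θ) {f m : Fin 6 → Lf k}
    (hn : ∀ i, NodeOK σ τ θ i (f i) (m i)) :
    Sys 1 (io k (zO σ)) (io k X) (fun j => io k (θ j)) f m := by
  refine ⟨fun j => ?_, fun i => ?_⟩
  · have h1 := (sdc_of_sd1 h.sd1 h.gam).rel j
    simp only [shr_w9 h.sd1.rotT, h.mom] at h1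
    have h2 := map_relAt (io k) 1 (zO σ) X θ j
    rw [map_one] at h2
    rw [← h2, relAt_eq]
    exact (congrArg (io k) h1).trans (map_zero _)
  · obtain ⟨_, _, _, _, _, _, _, _, h1, _⟩ := hn i
    exact h1

omit [Algebra ℚ k] in
/-- The six nodes impose independent conditions. -/
theorem RigidAux.indep (h : Setup σ τ γ ω θ) {f m : Fin 6 → Lf k}
    (hn : ∀ i, NodeOK σ τ θ i (f i) (m i)) :
    (∀ i, IsUnit (m i)) ∧ ∀ y : Fin 6 → Lf k,
      (∀ i, ∑ j, cols 1 (io k (zO σ)) (fun j => io k (θ j))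
        (coefT 1 (io k (zO σ)) (fun j => io k (θ j))
          (shear (io k (θ 1)) (mom0 1 (io k (zO σ)) (io k X)))) (f i) (m i) j * y j = 0) →
      y = 0 := by
  choose δ s φ h1 h2 h3 h4 h5 _ _ using hn
  have hinv : (C σ : PowerSeries k) * C σ⁻¹ = 1 := by
    rw [← map_mul, mul_inv_cancel₀ h.hσ, map_one]
  have hhf : (2 : PowerSeries k) * C 2⁻¹ = 1 := io_inj (by
    rw [map_mul, map_ofNat, map_one]; exact h.par.hhf2)
  have hu := fun i => node_units (cpl_powerSeries k) hinv hhf i (h2 i)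
  have hω : ∀ i, ∃ y ∈ (io k).range, om (eL k) (io k (C σ⁻¹)) i (io k (δ i)) * y = 1 := by
    intro i
    obtain ⟨v, hv⟩ := (hu i).2.2.exists_right_inv
    exact ⟨io k v, ⟨v, rfl⟩, by rw [om_eq (io k) eL_val, ← map_mul, hv, map_one]⟩
  refine ⟨fun i => ?_, fun y hy => ?_⟩
  · obtain ⟨y, -, hy⟩ := hω i
    rw [h3 i, mOf]
    exact (Units.isUnit _).mul (IsUnit.of_mul_eq_one y hy)
  obtain ⟨G, hG, -⟩ := phi_nil (cpl_powerSeries k) (cB_dvd (sdc_of_sd1 h.sd1 h.gam) h.small)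
  refine vand h.par loc_range (δ := fun i => io k (δ i)) (G := fun i => io k (φ i []))
    (f := f) (fun i => ?_) hω (fun i => ?_) (fun i => ?_) (fun i => ?_)
  · rw [← map_d0 (io k), ← map_sub]
    exact (vv_iff_dvd 1 _).2 (by simpa using h2 i)
  · obtain ⟨v, hv⟩ := (hu i).1.exists_right_inv
    have e1 := sUnit_spec (eL k) (io k (C σ⁻¹)) i (io k (δ i))
    rw [eL_val, ← map_sUnit (io k), ← h3 i] at e1
    have e2 : io k (sUnit X (C σ⁻¹) i (δ i)) * io k v = 1 := by rw [← map_mul, hv, map_one]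
    have e3 : io k (s i) = ((eL k ^ sv i : (Lf k)ˣ) : Lf k) * io k v := by
      linear_combination (-(io k (s i) * io k v)) * e1 - io k (s i) * e2 +
        ((eL k ^ sv i : (Lf k)ˣ) : Lf k) * io k v * h4 i
    refine ⟨io k (v * G (s i)), ⟨_, rfl⟩, ?_⟩
    rw [hG _ _ (h1 i), zpow_add, Units.val_mul, map_mul, map_mul, map_mul, e3, map_pow,
      show (2 : ℤ) = ((2 : ℕ) : ℤ) from rfl, zpow_natCast, Units.val_pow_eq_pow_val, eL_val]
    ring
  · rw [← h3 i, ← io_zO]; exact h5 i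
  · rw [← h3 i, ← io_zO]; exact hy i

/-- Deformations with small integral variation of the couplings. -/
theorem Setup.rigid_aux (h : Setup σ τ γ ω θ)
    (hvar : ∀ Δ : Fin 9 → PowerSeries k, (∀ i, varT ω Δ (w9 i) = 0) → Δ = 0)
    {f m : Fin 6 → Lf k} (hn : ∀ i, NodeOK σ τ θ i (f i) (m i)) (θ' : Fin 10 → PowerSeries k)
    (hθ : ∀ j, X ∣ θ' j) (f' m' : Fin 6 → Lf k)
    (hs : Sys (inD 1) (inD (io k (zO σ))) (inD (io k X)) (fun j => dn (io k (θ j)) (io k (θ' j)))
      (fun i => dn (f i) (f' i)) (fun i => dn (m i) (m' i))) : θ' = 0 := by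
  obtain ⟨hmu, hind⟩ := indep h hn
  obtain ⟨ua, uc, -, uρ, ud⟩ := h.par.units loc_range
  choose δ s φ h1 _ _ h4 h5 h6 _ using hn
  obtain ⟨χ, hχ⟩ := exists_mapD (io k) 1
  simp only [one_mul] at hχ
  have hχi : ∀ a, χ (inD a) = inD (io k a) := fun a => by
    rw [← dn_zero, hχ, map_zero, dn_zero]
  obtain ⟨Δ, hΔ⟩ : ∃ Δ : Fin 9 → PowerSeries k,
      ∀ i, Δ i = (gam9 (fun j => dn (θ j) (θ' j)) i).snd := ⟨_, fun _ => rfl⟩
  have sd := sd1_dual h.sd1 h.sd2 Δ
  have sdc : SDC (inD 1) (inD (zO σ)) (fun j => dn (θ j) (θ' j))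
      (shr (dn (θ 1) (θ' 1)) fun w => dn (τ w) (varT ω Δ w)) := by
    refine sdc_of_sd1 sd (θ := fun j => dn (θ j) (θ' j)) fun i => ?_
    rw [cls_w9, hΔ, h.gam]
    exact (eq_dn (by simpa using map_gam9 fstD (fun j => dn (θ j) (θ' j)) i)).symm
  obtain ⟨T, hT⟩ : ∃ T, T = shr (dn (θ 1) (θ' 1)) fun w => dn (τ w) (varT ω Δ w) := ⟨_, rfl⟩
  have Tfst : ∀ w, (T w).fst = shr (θ 1) τ w := fun w => by
    simpa [hT] using map_shr fstD (dn (θ 1) (θ' 1)) (fun w => dn (τ w) (varT ω Δ w)) w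
  have χfst : ∀ y, (χ y).fst = io k y.fst := fun y => by
    conv_lhs => rw [← dn_fst_snd y, hχ, fst_dn]
  have Tw9 : ∀ i, χ (T (w9 i)) = shear (dn (io k (θ 1)) (io k (θ' 1)))
      (fun j => dn (mom0 1 (io k (zO σ)) (io k X) j) (io k (varT ω Δ (w9 j)))) i := fun i => by
    rw [hT, shr_w9 sd.rotT, map_shear]
    simp only [hχ, h.mom, map_mom0, map_one]
  rw [← hT] at sdc
  have hC := (cpl_powerSeries k).dual
  have hb := cB_dvd sdc (small_dual h.small hθ)
  have sdcL := sdc.map χ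
  simp only [hχ, hχi] at sdcL
  rw [map_one (io k)] at sdcL
  -- the two families of moments
  obtain ⟨μ, hμ⟩ : ∃ μ, μ = shear (io k (θ 1)) (mom0 1 (io k (zO σ)) (io k X)) := ⟨_, rfl⟩
  obtain ⟨μ₁, hμ₁⟩ : ∃ μ₁ : Fin 9 → Lf k, ∀ i, χ (T (w9 i)) = dn (μ i) (μ₁ i) :=
    ⟨_, fun i => eq_dn (by rw [Tw9, fst_shear, fst_dn, hμ])⟩
  obtain ⟨μ₂, hμ₂⟩ : ∃ μ₂ : Fin 9 → Lf k, shear (dn (io k (θ 1)) (io k (θ' 1)))
      (mom0 (inD 1) (inD (io k (zO σ))) (inD (io k X))) = fun i => dn (μ i) (μ₂ i) :=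
    ⟨_, funext fun i => eq_dn (by rw [mom0_inD, fst_shear, fst_dn, hμ])⟩
  obtain ⟨κ₁, hκ₁⟩ : ∃ κ₁, Kap (inD 1) (inD (io k (zO σ)))
      (fun j => dn (io k (θ j)) (io k (θ' j))) (fun w => χ (T w)) = dn (io k (θ 9)) κ₁ := by
    refine ⟨_, eq_dn ?_⟩
    have e1 := map_Kap fstD (inD 1) (inD (io k (zO σ)))
      (fun j => dn (io k (θ j)) (io k (θ' j))) (fun w => χ (T w))
    simp only [fstD_apply, fst_inD, fst_dn, χfst, Tfst] at e1
    rw [e1, h.kap, map_Kap, map_one]
  have hk : ∀ ν : Fin 9 → Lf k, coefT (inD 1) (inD (io k (zO σ)))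
      (fun j => dn (io k (θ j)) (io k (θ' j))) (fun i => dn (μ i) (ν i)) = fun j =>
        dn (coefT 1 (io k (zO σ)) (fun j => io k (θ j)) μ j)
          (coefT (inD 1) (inD (io k (zO σ))) (fun j => dn (io k (θ j)) (io k (θ' j)))
            (fun i => dn (μ i) (ν i)) j).snd := fun ν =>
    funext fun j => eq_dn (by rw [fst_coefT]; simp only [fst_dn])
  have hy := hind _ fun i => by
    obtain ⟨φD, hφ⟩ := phi_exists hC hb (inD (s i))
    have e1 : (fun w => (φD w).fst) = φ i := by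
      have e2 := hφ.map fstD
      simp only [fstD_apply, fst_inD, Tfst] at e2
      exact e2.unique (cpl_powerSeries k) (h1 i)
    have pr := (hφ.pr hC sdc hb).map χ
    simp only [hχ, hχi] at pr
    rw [map_one (io k)] at pr
    obtain ⟨v, hv⟩ := (hmu i).exists_right_inv
    have c1 := curve_zero (m := inD (m i))
      (f := -χ (φD []) - (inD 1 - inD (io k (zO σ))) * inD v) sdcL pr
      (by rw [← map_sub, ← map_mul, h4 i, map_one])
      (by
        have := congrArg inD hv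
        rw [map_mul, map_one] at this
        linear_combination (-(inD 1 - inD (io k (zO σ)))) * this)
      (isUnit_dual (by simpa using ua)) (isUnit_dual (by simpa using uc)) ((hmu i).map _)
    have e3 : (-χ (φD []) - (inD 1 - inD (io k (zO σ))) * inD v).fst = f i := by
      have e4 : (φD []).fst = φ i [] := congrFun e1 []
      simp only [TrivSqZeroExt.fst_sub, TrivSqZeroExt.fst_neg, TrivSqZeroExt.fst_mul, fst_inD,
        χfst, e4]
      linear_combination (-v) * h5 i + (f i + io k (φ i [])) * hv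
    rw [eq_dn e3, hκ₁, ← dn_zero (m i)] at c1
    simp only [hμ₁] at c1
    rw [hk] at c1
    have c2 := (hs.2 i).zero
    rw [curveAt_eq] at c2
    simp only [hμ₂] at c2
    rw [hk] at c2
    have c3 := var_cols c1 c2 fun a b => by
      simp only [fst_dn, hμ]
      exact sing_curveK (h6 i) a b
    simp only [fst_dn, hμ] at c3
    exact c3
  have y0 := sub_eq_zero.1 (congrFun hy 0)
  have hμ12 : μ₁ = μ₂ := by
    refine mom_inj (x := 1) (z := io k (zO σ)) (μ := μ)
      (θ := fun j => dn (io k (θ j)) (io k (θ' j)))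
      (IsUnit.of_mul_eq_one _ h.par.hhf2) (by simpa using ua) (by simpa using uc)
      (by simpa using uρ) (by simpa using ud) (fun j => ?_) (fun j => ?_) (fun j => ?_)
    · rw [hμ]
      fin_cases j
      · exact sub_eq_zero.1 (congrFun hy 5)
      · exact sub_eq_zero.1 (congrFun hy 1)
      · exact sub_eq_zero.1 (congrFun hy 2)
      · exact sub_eq_zero.1 (congrFun hy 3)
      · exact sub_eq_zero.1 (congrFun hy 4)
    · have := sdcL.rel j
      simpa only [hμ₁] using this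
    · have := hs.1 j
      rw [relAt_eq] at this
      simpa only [hμ₂] using this
  have hv0 := shear_inj (l := dn (io k (θ 1)) (io k (θ' 1)))
    (b := mom0 1 (io k (zO σ)) (io k X)) (b₁ := fun j => io k (varT ω Δ (w9 j))) (b₂ := 0)
    fun i => by rw [← Tw9, ← mom0_inD, hμ₁, hμ₂, hμ12]
  have hΔ0 : Δ = 0 := hvar Δ fun i => io_inj (by simpa using congrFun hv0 i)
  have ha0 : θ 0 ≠ 0 := fun hc => by simp [hc] at ua
  have h9 : ∀ j, j ≠ 9 → θ' j = 0 :=
    gam9_inj (fun y hy => (mul_eq_zero.1 hy).resolve_left ha0) fun i => by rw [← hΔ, hΔ0]; rfl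
  have hT0 : ∀ w, χ (T w) = inD (io k (shr (θ 1) τ w)) := fun w => by
    have e1 : ∀ w, varT ω Δ w = 0 := fun w => by simp [varT, hΔ0]
    rw [hT, h9 1 (by decide), ← hχi, map_shr (R' := DualNumber (PowerSeries k)) inD]
    simp only [e1, dn_zero]
  have hκ0 : κ₁ = 0 := by
    rw [kap_congr _ _ _ (θ' := fun j => inD (io k (θ j)))
      fun j hj => by rw [h9 j hj, map_zero, dn_zero]] at hκ₁
    simp only [hT0] at hκ₁
    rw [← map_Kap (R' := DualNumber (Lf k)) inD] at hκ₁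
    simpa using (congrArg TrivSqZeroExt.snd hκ₁).symm
  funext j
  by_cases hj : j = 9
  · subst hj
    exact io_inj (by rw [← y0, hκ0]; simp)
  · exact h9 j hj

theorem Setup.rigid (h : Setup σ τ γ ω θ)
    (hvar : ∀ Δ : Fin 9 → PowerSeries k, (∀ i, varT ω Δ (w9 i) = 0) → Δ = 0)
    {f m : Fin 6 → Lf k} (hn : ∀ i, NodeOK σ τ θ i (f i) (m i)) :
    Rigid 1 (io k (zO σ)) (io k X) (fun j => io k (θ j)) f m := by
  intro θ' f' s' hs
  obtain ⟨b, hb⟩ := IsLocalization.exist_integer_multiples (nonZeroDivisors (PowerSeries k))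
    (S := Lf k) Finset.univ θ'
  choose t ht using fun j => hb j (Finset.mem_univ j)
  obtain ⟨χ, hχ⟩ := exists_mapD (RingHom.id (Lf k)) (io k (X * (b : PowerSeries k)))
  simp only [RingHom.id_apply] at hχ
  have hχi : ∀ a, χ (inD a) = inD a := fun a => by rw [← dn_zero, hχ, mul_zero]
  have e1 : ∀ j, io k (X * (b : PowerSeries k)) * θ' j = io k (X * t j) := fun j => by
    rw [map_mul, map_mul, ht j, Algebra.smul_def, mul_assoc]
  have hs' := hs.map χ
  simp only [hχ, hχi, e1] at hs'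
  have h0 := h.rigid_aux hvar hn (fun j => X * t j) (fun j => Dvd.intro _ rfl) _ _ hs'
  have hc : io k (X * (b : PowerSeries k)) ≠ 0 := fun hc =>
    mul_ne_zero X_ne_zero (nonZeroDivisors.coe_ne_zero b) (io_inj (hc.trans (map_zero _).symm))
  have hθ : θ' = 0 := funext fun j => by
    have e2 : X * t j = 0 := congrFun h0 j
    have e3 := e1 j
    rw [e2, map_zero] at e3
    exact (mul_eq_zero.1 e3).resolve_left hc
  have hnd : ∀ i, f' i = 0 ∧ s' i = 0 := fun i => by
    obtain ⟨_, _, _, _, _, _, _, _, _, h1⟩ := hn i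
    refine h1 _ _ ?_
    have := hs.2 i
    simpa only [hθ, Pi.zero_apply, dn_zero] using this
  exact ⟨hθ, funext fun i => (hnd i).1, funext fun i => (hnd i).2⟩

end Pool.Agent.P.MP_48bde8_co
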