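import Pool.Agent.P.MP_48bde8_co.PartI
import Pool.Agent.P.MP_48bde8_co.Exist
import Pool.Agent.P.MP_48bde8_co.Rigid
import Pool.Agent.P.MP_48bde8_co.Canny
import Pool.Agent.P.MP_48bde8_co.Eval
import Pool.Agent.P.MP_48bde8_co.Psi

/-! Task FINAL: assembly. -/

namespace Pool.Agent.P.MP_48bde8_co

theorem poly_ne_zero : poly ≠ 0 := eliminant_ne_zero _ _

namespace FinalA

open MvPolynomial

/-- The 22 unknowns from the three blocks. -/
def glue {L : Type} (θ : Fin 10 → L) (f s : Fin 6 → L) (j : Fin 22) : L :=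
  if h : j.val < 10 then θ ⟨j, h⟩
  else if h : j.val < 16 then f ⟨j - 10, by omega⟩ else s ⟨j - 16, by omega⟩

theorem glue_1 {L : Type} (θ : Fin 10 → L) (f s : Fin 6 → L) (j : Fin 10) :
    glue θ f s ⟨j, by omega⟩ = θ j := by
  simp [glue]

theorem glue_2 {L : Type} (θ : Fin 10 → L) (f s : Fin 6 → L) (i : Fin 6) :
    glue θ f s ⟨10 + i, by omega⟩ = f i := by
  have h : 10 + i.val < 16 := by omega
  simp [glue, h]

theorem glue_3 {L : Type} (θ : Fin 10 → L) (f s : Fin 6 → L) (i : Fin 6) :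
    glue θ f s ⟨16 + i, by omega⟩ = s i := by
  have h : ¬ 16 + i.val < 10 := by omega
  simp [glue, h]

theorem core {L : Type} [Field L] (φ : MvPolynomial (Fin 2) ℚ →+* L) (w : L) {x z : L}
    (hx : φ (X 0) = x) (hz : φ (X 1) = z) {θ : Fin 10 → L} {f s : Fin 6 → L}
    (hs : Sys x z 1 θ f s) (hr : Rigid x z 1 θ f s) (ho : (1 + z) * w = out x z 1 θ)
    (h1 : 1 + z ≠ 0) : Polynomial.eval₂ φ w poly = 0 := by
  refine canny φ w (glue θ f s) eqn0 eqn ?_ ?_ ?_
  · rw [eval_eqn0]
    simp only [Polynomial.coe_eval₂RingHom, Polynomial.eval₂_C, Polynomial.eval₂_X, hx, hz, glue_1]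
    rw [ho, sub_self]
  · rw [eval_eqn]
    simpa only [Polynomial.coe_eval₂RingHom, Polynomial.eval₂_C, hx, hz, glue_1, glue_2, glue_3]
      using hs
  · intro w' P' h0 h
    rw [eval_eqn] at h
    rw [eval_eqn0] at h0
    simp only [Polynomial.coe_eval₂RingHom, Polynomial.eval₂_C, Polynomial.eval₂_X,
      RingHom.comp_apply, hx, hz, glue_1, glue_2, glue_3] at h h0
    rw [← map_one (inD (R := L))] at h h0
    obtain ⟨a1, a2, a3⟩ := hr _ _ _ h
    have b1 : ∀ j : Fin 10, P' ⟨j, by omega⟩ = 0 := fun j => congrFun a1 j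
    have b2 : ∀ j : Fin 6, P' ⟨10 + j, by omega⟩ = 0 := fun j => congrFun a2 j
    have b3 : ∀ j : Fin 6, P' ⟨16 + j, by omega⟩ = 0 := fun j => congrFun a3 j
    refine ⟨?_, funext fun j => ?_⟩
    · simp only [b1, dn_zero] at h0
      rw [← map_out, ← map_add] at h0
      have h2 := congrArg TrivSqZeroExt.snd h0
      simp only [TrivSqZeroExt.snd_sub, TrivSqZeroExt.snd_mul, fst_inD, snd_inD, snd_dn, fst_dn,
        smul_zero, add_zero, sub_zero, TrivSqZeroExt.snd_zero, smul_eq_mul] at h2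
      exact (mul_eq_zero.1 h2).resolve_left h1
    · by_cases c1 : j.val < 10
      · exact b1 ⟨j, c1⟩
      · by_cases c2 : j.val < 16
        · have := b2 ⟨j - 10, by omega⟩
          rwa [show (⟨10 + (j.val - 10), by omega⟩ : Fin 22) = j from Fin.ext (by simp; omega)]
            at this
        · have := b3 ⟨j - 16, by omega⟩
          rwa [show (⟨16 + (j.val - 16), by omega⟩ : Fin 22) = j from Fin.ext (by simp; omega)]
            at this

theorem main {k : Type} [Field k] [Algebra ℚ k] {σ : k} (hσ : Transcendental ℚ σ) :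
    Polynomial.aeval F poly = 0 := by
  have h0 : σ ≠ 0 := by
    rintro rfl
    exact hσ isAlgebraic_zero
  obtain ⟨Ψ₁, i1, x1, z1, c1⟩ := exists_psi1 hσ
  obtain ⟨Ψ₂, i2, x2, z2, c2⟩ := exists_psi2 hσ
  have hI := partI (1 : Polynomial ℚ) Polynomial.X
  obtain ⟨θ, hS⟩ := exists_setup h0 hI Ψ₁ x1 z1 c1
  choose f m hn using hS.node
  have hs := hS.sys hn
  have hr := hS.rigid (var_inj hI Ψ₁ i1) hn
  have he : (eL k : Lf k) * 1 = io k PowerSeries.X := by simp [eL]
  have he' : (eL k : Lf k) = io k PowerSeries.X := by simp [eL]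
  rw [← he] at hs hr
  have ho := congrArg Ψ₁ hI.out
  rw [map_outG, outG_eq _ _ _ hS.gam] at ho
  replace ho := congrArg (io k) ho
  rw [map_out] at ho
  simp only [map_mul, map_add, map_one, map_pow, x1, z1] at ho
  have key := core ((io k).comp (Ψ₂.comp (algebraMap (MvPolynomial (Fin 2) ℚ)
      (MvPowerSeries (Fin 2) ℚ)))) (io k (Ψ₂ F)) (x := (eL k : Lf k) ^ 2 * 1)
    (z := (eL k : Lf k) ^ 2 * io k (zO σ))
    (by simp [MvPowerSeries.algebraMap_apply', x2, he'])
    (by simp [MvPowerSeries.algebraMap_apply', z2, he'])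
    ((sys_scl (eL k) _ _ _ _ _ _).2 hs) (rigid_scl (eL k) hr)
    (by
      rw [out_scl, he, ← ho, c2 Ψ₁ c1, he']
      simp only [map_mul, map_pow]
      ring)
    (by
      rw [he', ← map_pow, ← map_mul, ← map_one (io k), ← map_add]
      intro h
      have h2 := congrArg PowerSeries.constantCoeff
        ((map_eq_zero_iff _ (IsFractionRing.injective _ _)).1 h)
      simp at h2)
  apply i2
  apply IsFractionRing.injective (PowerSeries k) (Lf k)
  rw [map_zero, map_zero, Polynomial.aeval_def, Polynomial.hom_eval₂, Polynomial.hom_eval₂]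
  exact key

end FinalA

theorem aeval_poly : Polynomial.aeval F poly = 0 :=
  @FinalA.main (RatFunc ℚ) _ (_) RatFunc.X (RatFunc.transcendental_X (K := ℚ))

end Pool.Agent.P.MP_48bde8_co
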