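import Pool.Agent.P.MP_48bde8_co.PFour
import Pool.Agent.P.MP_48bde8_co.Clus

/-! Task GOALB: the signed count vanishes unless the genuine atoms are digons. -/

namespace Pool.Agent.P.MP_48bde8_co

open Equiv Finset
open scoped Classical

variable {P : Type} [Fintype P]

namespace GoalBAux

variable {A : Amb P} {ψ : Perm P} {h : P}

omit [Fintype P] in
theorem ov_symm {R S : Rg P} (h : Ov R S) : Ov S R := fun h' => h h'.symm

theorem mem_atoms {R : Rg P} : R ∈ A.atoms ψ ↔ A.Atom ψ R := by simp [Amb.atoms]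

theorem ty_orb (hψ : A.WV ψ) {b q : P} (hq : q ∈ orb ψ b) : A.ty q = A.ty b := by
  obtain ⟨k, -, rfl⟩ := (mem_orb.1 hq).exists_pow_eq'
  exact RegBAux.ty_pow hψ b k

theorem orb_eq_of_mem {b q : P} (hq : q ∈ orb ψ b) : orb ψ q = orb ψ b :=
  (orb_eq_iff.2 (mem_orb.1 hq)).symm

/-- Two stars with a common port coincide. -/
theorem star_eq (hc : A.Closed ψ) {b b' : P} (hb : A.ty b = false) (hb' : A.ty b' = false)
    (h1 : h ∈ (A.rStar ψ b).1) (h2 : h ∈ (A.rStar ψ b').1) : A.rStar ψ b = A.rStar ψ b' := by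
  have hψ : A.WV ψ := hc.2.2.2.1.1
  have hπ : ∀ p, A.ty (A.π p) = !A.ty p := fun p =>
    (hc.1.2.2 p (by rw [hc.2.1]; exact mem_univ p)).2.2
  have e : orb ψ b = orb ψ b' := by
    rcases Amb.mem_dv.1 h1 with h1 | ⟨q, hq, e1⟩ <;> rcases Amb.mem_dv.1 h2 with h2 | ⟨q', hq', e2⟩
    · rw [← orb_eq_of_mem h1, ← orb_eq_of_mem h2]
    · have := hπ q'
      rw [e2, ty_orb hψ h1, ty_orb hψ hq', hb, hb'] at this
      simp at this
    · have := hπ q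
      rw [e1, ty_orb hψ h2, ty_orb hψ hq, hb, hb'] at this
      simp at this
    · have : q = q' := A.π.injective (e1.trans e2.symm)
      rw [← orb_eq_of_mem hq, ← orb_eq_of_mem hq', this]
  unfold Amb.rStar
  rw [e]

/-- A port of a star that lies in a region gives a port of the vertex in the region. -/
theorem star_port {M : Rg P} (hM : A.Pre ψ M) {b p : P} (hp : p ∈ (A.rStar ψ b).1) :
    ∃ q ∈ orb ψ b, (q ∈ M.1 ↔ p ∈ M.1) := by
  rcases Amb.mem_dv.1 hp with hp | ⟨q, hq, rfl⟩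
  · exact ⟨p, hp, Iff.rfl⟩
  · exact ⟨q, hq, (hM.mem_iff q).symm⟩

/-- The configuration of step 2 is impossible. -/
theorem star_false (hc : A.Closed ψ) {M R : Rg P} (hM : A.Disc ψ M) (h2 : bd M = 2) {b c : P}
    (o : Ov (A.rStar ψ b) M) (hh : h ∈ (A.rStar ψ b).1) (hh' : h ∉ M.1)
    (d : ¬ Ov (A.rStar ψ b) R) (c1 : c ∈ R.1) (c2 : c ∈ M.1) (c3 : A.ty c = false)
    (c4 : A.π c ∈ M.2) (c5 : ψ⁻¹ c ∉ M.2) (c6 : A.al ψ c ∉ M.2) (c7 : A.al ψ c ∈ R.1) : False := by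
  have hψ : A.WV ψ := hc.2.2.2.1.1
  have hP : A.Pre ψ M := hM.1.1
  have hd : ∀ q ∈ orb ψ b, q ∉ R.1 := fun q hq hq' =>
    d fun h' => disjoint_left.1 h' (Amb.mem_dv.2 (Or.inl hq)) hq'
  obtain ⟨p, p1, p2⟩ := not_disjoint_iff.1 o
  obtain ⟨q, q1, q2⟩ := star_port hP p1
  obtain ⟨q', q1', q2'⟩ := star_port hP hh
  have hx : ∃ x ∈ orb ψ b, x ∈ M.1 ∧ x ∉ M.2 := by
    by_contra hne
    push Not at hne
    have := orb_subset_of_closed (f := ψ) (I := orb ψ b ∩ M.1) (mem_inter.2 ⟨q1, q2.2 p2⟩)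
      fun r hr => mem_inter.2 ⟨by
        rw [← orb_eq_of_mem (mem_inter.1 hr).1, ← orb_apply]
        exact self_mem_orb _ _, hP.2.2 r (hne r (mem_inter.1 hr).1 (mem_inter.1 hr).2)⟩
    rw [orb_eq_of_mem q1] at this
    exact hh' (q2'.1 (mem_inter.1 (this q1')).2)
  obtain ⟨x, x1, x2, x3⟩ := hx
  have hne : x ≠ A.al ψ c := fun e => hd x x1 (e ▸ c7)
  have a1 : A.al ψ c ∈ M.1 := (Amb.edge_facts hc.1 hψ hM.1 c2 c3 c4).1
  have hX : ({x, A.al ψ c} : Finset P) = M.1 \ M.2 := by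
    refine eq_of_subset_of_card_le ?_ ?_
    · intro r hr
      rcases mem_insert.1 hr with rfl | hr
      · exact mem_sdiff.2 ⟨x2, x3⟩
      · rw [mem_singleton.1 hr]
        exact mem_sdiff.2 ⟨a1, c6⟩
    · rw [card_pair hne]
      exact h2.le
  have hex : ∃ k : ℕ, (ψ ^ k) c ∉ M.2 := by
    by_contra hn
    push Not at hn
    refine c5 (orb_subset_iff.2 hn (mem_orb.2 ?_))
    exact ⟨-1, by simp⟩
  have k1 := Nat.find_spec hex
  have k2 : ∀ j < Nat.find hex, (ψ ^ j) c ∈ M.2 := fun j hj => not_not.1 (Nat.find_min hex hj)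
  generalize Nat.find hex = k at k1 k2
  have k3 : (ψ ^ k) c ∈ M.1 := by
    cases k with
    | zero => simpa using c2
    | succ k =>
      rw [pow_succ', Perm.mul_apply]
      exact hP.2.2 _ (k2 k (Nat.lt_succ_self k))
  have k4 : (ψ ^ k) c ∈ ({x, A.al ψ c} : Finset P) := hX ▸ mem_sdiff.2 ⟨k3, k1⟩
  rcases mem_insert.1 k4 with e | e
  · refine hd c ?_ c1
    rw [← orb_eq_of_mem x1, ← e]
    exact mem_orb.2 (Perm.SameCycle.symm ⟨k, by simp⟩)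
  rw [mem_singleton] at e
  have e1 : clo ψ M.2 (A.al ψ c) = c := clo_exit ψ k c5 k2 e c6
  have e2 : (A.π * clo ψ M.2) (A.al ψ c) = A.π c := by rw [Perm.mul_apply, e1]
  have e3 : (A.π * clo ψ M.2) (A.π c) = A.al ψ c := by
    rw [Perm.mul_apply, clo_of_mem ψ c4]
    rfl
  have e4 : A.bet ψ M.2 (A.al ψ c) = A.al ψ c := by
    unfold Amb.bet
    rw [skip_two c6 (e2 ▸ c4) (by rw [e2, e3]; exact c6), e2, e3]
  exact hne ((Amb.bet_sameCycle hP hM.2.1 hM.2.2.1 (mem_sdiff.2 ⟨a1, c6⟩)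
    (mem_sdiff.2 ⟨x2, x3⟩)).eq_of_left e4).symm

end GoalBAux

namespace Amb

open GoalBAux

variable {A : Amb P} {ψ : Perm P} {h : P}

/-- Step 0. -/
theorem h1_of_dom (hc : A.Closed ψ) {C : Finset (Rg P)} (hC : C ⊆ A.atoms ψ) (ho : OConn C)
    (hd : Dom (A.atoms ψ) (C.sup id)) (hh : h ∉ (C.sup id).1) : A.H1 ψ := by
  have hψ : A.WV ψ := hc.2.2.2.1.1
  have hU : ∀ p, p ∈ A.U := fun p => by rw [hc.2.2.1]; exact mem_univ p
  intro R hR hne hp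
  by_contra hb
  obtain ⟨d1, d2, b1, b2⟩ := one_cut hc hR hne hp (by omega)
  obtain ⟨K, k1, k2, k3⟩ : ∃ K, A.Div ψ K ∧ bd K = 1 ∧ h ∉ K.1 := by
    by_cases e : h ∈ R.1
    · exact ⟨_, d2, b2, fun e' => mem_compl.1 e' e⟩
    · exact ⟨_, d1, b1, e⟩
  obtain ⟨D, t1, t2, t3⟩ := exists_tight hc.1 hψ k1 le_rfl (by omega)
  have t4 := t3 K k1 le_rfl
  have hJ := (cluster_tight hc.1 hψ hc.2.2.2.2.1 hC ho (hU h) hh).1
  rw [dom_atoms_iff] at hd
  generalize C.sup id = J at hd hh hJ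
  have hh2 : h ∉ (D ⊔ J).1 := fun e => by
    rcases mem_union.1 e with e | e
    · exact k3 (t2.1 e)
    · exact hh e
  have hn : (D ⊔ J).1.Nonempty := t1.1.1.2.1.1.mono subset_union_left
  obtain ⟨c1, c2, -⟩ := cross hc.1 hψ t1 hJ (hd D t1.1) (bd_pos_of_conn hc.2.2.2.2.1
    (t1.1.1.1.1.sup hJ.1.1.1.1) (fun p _ => hU p) hn (hU h) hh2)
  obtain ⟨-, d3, -⟩ := one_cut hc c1.1.1 hn (fun e => hh2 (e ▸ mem_univ h)) (by omega)
  exact hd _ d3 (disjoint_left.2 fun p p1 p2 => mem_compl.1 p1 (mem_union_right _ p2))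

/-- Steps 1 to 3: a nonzero sum forces all genuine atoms avoiding the root to be digons. -/
theorem digons_of_sum_ne (hc : A.Closed ψ)
    (hs : ∑ C ∈ (genu (A.atoms ψ) h).powerset.filter
      (fun C => OConn C ∧ Dom (A.atoms ψ) (C.sup id)), (-1 : ℤ) ^ C.card ≠ 0) :
    ∀ R ∈ genu (A.atoms ψ) h, A.IsDig ψ R := by
  have hψ : A.WV ψ := hc.2.2.2.1.1
  have hU : h ∈ A.U := by rw [hc.2.2.1]; exact mem_univ h
  have hdt : ∀ s : Finset P, s ⊆ A.dt := fun s => by rw [hc.2.1]; exact subset_univ s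
  have hg : ∀ {R}, R ∈ genu (A.atoms ψ) h ↔
      A.Atom ψ R ∧ h ∉ R.1 ∧ ∃ S, A.Atom ψ S ∧ ¬ Ov R S := by
    intro R
    simp only [genu, mem_filter, mem_atoms]
  have hsub : ∀ C ⊆ genu (A.atoms ψ) h, C ⊆ A.atoms ψ ∧ h ∉ (C.sup id).1 := fun C hC =>
    ⟨fun R hR => mem_atoms.2 (hg.1 (hC hR)).1, fun e => by
      obtain ⟨R, hR, e'⟩ := mem_sup_fst.1 e
      exact (hg.1 (hC hR)).2.1 e'⟩
  have h1 : A.H1 ψ := by
    obtain ⟨C, hC⟩ := nonempty_of_sum_ne_zero hs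
    obtain ⟨c1, c2, c3⟩ := mem_filter.1 hC
    exact h1_of_dom hc (hsub C (mem_powerset.1 c1)).1 c2 c3 (hsub C (mem_powerset.1 c1)).2
  have key : ∀ S S', A.Atom ψ S → h ∉ S.1 → A.Atom ψ S' → ¬ Ov S S' →
      ∃ M M' T, A.Tight ψ M ∧ h ∉ M.1 ∧ Ov S M ∧ Ov S' M ∧ A.Atom ψ M' ∧ Ov M' S ∧ ¬ Ov M' M ∧
        A.Atom ψ T ∧ ¬ Ov M' T := by
    intro S S' s1 s2 s3 s4
    by_contra hn
    refine hs (sum_cone (fun R hR => (mem_atoms.1 hR).1.1.2.1.1) (mem_atoms.2 s1) s2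
      (mem_atoms.2 s3) s4 fun C hC ho o1 o2 M' m1 m2 => ?_)
    by_contra m3
    obtain ⟨T, hT⟩ := ho.1
    exact hn ⟨_, M', T, (cluster_tight hc.1 hψ hc.2.2.2.2.1 (hsub C hC).1 ho hU (hsub C hC).2).1,
      (hsub C hC).2, o1, o2, mem_atoms.1 m1, m2, m3, (hg.1 (hC hT)).1,
      fun e => m3 (ov_sup_iff.2 ⟨T, hT, e⟩)⟩
  have step1 : ∀ b T, A.ty b = false → (orb ψ b).card ≤ 3 → A.Atom ψ T →
      ¬ Ov (A.rStar ψ b) T → h ∈ (A.rStar ψ b).1 := by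
    intro b T b1 b2 t1 t2
    by_contra hh
    obtain ⟨M, M', -, m1, -, m3, -, m5, m6, m7, -⟩ :=
      key _ T (rStar_atom hc.1 hψ b1 (hdt _) b2) hh t1 t2
    exact m7 (star_unsplit hc.1 hψ b1 (hdt _) b2 (m5.tight hc.1 hψ) m1 m6 (ov_symm m3))
  have noA : ∀ R T, A.Atom ψ R → h ∉ R.1 → A.Atom ψ T → ¬ Ov R T → A.NoA R := by
    intro R T r1 r2 t1 t2
    rcases r1.noA_or_star hc.1 hψ with e | ⟨b, -, b1, rfl, b2⟩
    · exact e
    · exact absurd (step1 b T b1 b2 t1 t2) r2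
  have hp : ∀ R M : Rg P, h ∉ R.1 → h ∉ M.1 → R.1 ∪ M.1 ≠ univ := fun R M r m e => by
    rcases mem_union.1 (e ▸ mem_univ h) with e' | e'
    · exact r e'
    · exact m e'
  have step2 : ∀ b T, A.ty b = false → (orb ψ b).card ≤ 3 → A.Atom ψ T →
      Ov (A.rStar ψ b) T := by
    intro b R b1 b2 r1
    by_contra d
    have hh := step1 b R b1 b2 r1 d
    have hR : h ∉ R.1 := fun e => d fun h' => disjoint_left.1 h' hh e
    have hS := rStar_atom hc.1 hψ b1 (hdt _) b2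
    have d' : ¬ Ov R (A.rStar ψ b) := fun e => d (ov_symm e)
    obtain ⟨M, M', T, m1, m2, m3, m4, m5, m6, m7, m8, m9⟩ := key R _ r1 hR hS d'
    have hM' : A.NoA M' := by
      rcases m5.noA_or_star hc.1 hψ with e | ⟨b', -, b1', rfl, b2'⟩
      · exact e
      · rw [← star_eq hc b1 b1' hh (step1 b' T b1' b2' m8 m9)] at m6
        exact absurd m6 d
    obtain ⟨-, f1, c, c1, c2, c3, c4, c5, c6, c7⟩ := pfour hc h1 r1 (noA R _ r1 hR hS d') m1 m5 hM'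
      (hS.tight hc.1 hψ) m3 (ov_symm m6) m4 (fun e => m7 (ov_symm e)) d' (hp R M hR m2)
    exact star_false hc m1.1.1 f1 m4 hh m2 d c1 c2 c3 c4 c5 c6 c7
  intro R hR
  obtain ⟨r1, r2, S, s1, s2⟩ := hg.1 hR
  obtain ⟨M, M', T, m1, m2, m3, m4, m5, m6, m7, m8, m9⟩ := key R S r1 r2 s1 s2
  have hM' : A.NoA M' := by
    rcases m5.noA_or_star hc.1 hψ with e | ⟨b', -, b1', rfl, b2'⟩
    · exact e
    · exact absurd (step2 b' T b1' b2' m8) m9
  exact (pfour hc h1 r1 (noA R S r1 r2 s1 s2) m1 m5 hM' (s1.tight hc.1 hψ) m3 (ov_symm m6) m4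
    (fun e => m7 (ov_symm e)) s2 (hp R M r2 m2)).1

end Amb

end Pool.Agent.P.MP_48bde8_co
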