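import Pool.Agent.P.MP_48bde8_co.Atoms
import Pool.Agent.P.MP_48bde8_co.Dict

/-! Task GOALC1: simple 4-connected maps have no two disjoint atoms. -/

namespace Pool.Agent.P.MP_48bde8_co

open Equiv Finset
open scoped Classical

namespace GoalC1

variable (M : RMap)

theorem vtx_sigma (d : Fin M.n) : M.vtx (M.σ d) = M.vtx d :=
  Quotient.sound (Perm.sameCycle_apply_left.2 (Perm.SameCycle.refl _ _))

theorem mem_orb_iff (d e : Fin M.n) :
    (e, false) ∈ orb (psiOf M.σ M.α) (d, false) ↔ M.vtx d = M.vtx e := by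
  rw [mem_orb, vtx_eq_iff]

theorem sep (hM : M.IsMap) (h4 : M.IsFourConnected) {S : Set M.Vertex} (hS : S.ncard ≤ 3)
    (Q : M.Vertex → Prop) (hQ : ∀ d, M.vtx d ∉ S → M.vtx (M.α d) ∉ S → Q (M.vtx d) →
      Q (M.vtx (M.α d))) {u v : M.Vertex} (hu : u ∉ S) (hv : v ∉ S) (h : Q u) : Q v := by
  obtain ⟨w⟩ := (h4.2 S hS).preconnected ⟨u, hu⟩ ⟨v, hv⟩
  have key : ∀ (x y : (Sᶜ : Set M.Vertex)) (_ : (M.graph.induce Sᶜ).Walk x y), Q x.1 → Q y.1 := by
    intro x y w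
    induction w with
    | nil => exact id
    | @cons a b c hab _ ih =>
      intro ha
      refine ih ?_
      have h1 : M.graph.Adj a.1 b.1 := hab
      obtain ⟨-, ⟨d, e1, e2⟩ | ⟨d, e1, e2⟩⟩ := (SimpleGraph.fromRel_adj _ _ _).1 h1
      · rw [← e2]
        exact hQ d (e1 ▸ a.2) (e2 ▸ b.2) (e1 ▸ ha)
      · have := hQ (M.α d) (e2 ▸ a.2) (by rw [hM.1, e1]; exact b.2) (e2 ▸ ha)
        rwa [hM.1, e1] at this
  exact key _ _ w h

theorem deg (hM : M.IsMap) (hs : M.IsSimple) (h4 : M.IsFourConnected) (d : Fin M.n) :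
    ¬ (orb (psiOf M.σ M.α) (d, false)).card ≤ 3 := by
  intro h3
  have : Finite M.Vertex := Quotient.finite _
  set S : Set M.Vertex := (fun p : Fin M.n × Bool => M.vtx (M.α p.1)) ''
    ((orb (psiOf M.σ M.α) (d, false)).filter fun p => p.2 = false : Finset _) with hSd
  have hS : S.ncard ≤ 3 := by
    refine (Set.ncard_image_le (Finset.finite_toSet _)).trans ?_
    rw [Set.ncard_coe_finset]
    exact (card_filter_le _ _).trans h3
  have hv : M.vtx d ∉ S := by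
    rintro ⟨⟨e, t⟩, h1, h2⟩
    obtain ⟨h1, rfl⟩ := mem_filter.1 (mem_coe.1 h1)
    exact hs.1 e (h2.trans ((mem_orb_iff M d e).1 h1))
  obtain ⟨w, hw⟩ : ∃ w, w ∉ insert (M.vtx d) S := by
    by_contra hc
    push Not at hc
    have h1 : (Set.univ : Set M.Vertex).ncard ≤ (insert (M.vtx d) S).ncard :=
      Set.ncard_le_ncard (fun w _ => hc w)
    have h2 := Set.ncard_insert_le (M.vtx d) S
    have h5 := h4.1
    rw [Set.ncard_univ] at h1
    omega
  rw [Set.mem_insert_iff, not_or] at hw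
  refine hw.1 (sep M hM h4 hS (fun x => x = M.vtx d) (fun e _ h2 h => absurd ?_ h2) hv hw.2 rfl)
  exact ⟨(e, false), mem_coe.2 (mem_filter.2 ⟨(mem_orb_iff M d e).2 h.symm, rfl⟩), rfl⟩

theorem nx_eq (d : Fin M.n) :
    (ambC M.n).nx (psiOf M.σ M.α) (d, false) = (M.α (M.σ d), false) := by
  simp only [Amb.nx, Amb.al, psiOf_false, ambC_pi, Bool.not_false, psiOf_true, Bool.not_true]

theorem inner (hM : M.IsMap) (hs : M.IsSimple) {R : Rg (Fin M.n × Bool)}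
    (hR : (ambC M.n).Div (psiOf M.σ M.α) R) :
    ∃ d, orb (psiOf M.σ M.α) (d, false) ⊆ R.2 := by
  have hψ := ((isMap_iff M).1 hM).1.1
  obtain ⟨⟨d, t⟩, hty, h⟩ := Amb.Feat.cases (ambC_ok _) hψ hR.1.1 hR.2.2
  obtain rfl : t = false := hty
  rcases h with h | h
  · exact ⟨d, h⟩
  exfalso
  rcases Amb.face_div (ambC_ok _) hψ hR.1.1 hR.1.2.1 hR.1.2.2.2 rfl h.1 h.2 with h1 | h1
  · have h2 := h1.1
    rw [nx_eq] at h2
    refine hs.1 (M.σ d) ?_
    have h3 : M.α (M.σ d) = d := (Prod.ext_iff.1 h2).1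
    rw [h3, vtx_sigma]
  · obtain ⟨⟨-, h2, h3⟩, -⟩ := h1
    rw [nx_eq, nx_eq] at h2
    have h4 : M.α (M.σ (M.α (M.σ d))) = d := (Prod.ext_iff.1 h2).1
    have h5 : M.α d = M.σ (M.α (M.σ d)) := by
      conv_lhs => rw [← h4, hM.1]
    have h6 : d = M.σ d := hs.2 d (M.σ d) (vtx_sigma M d).symm (by rw [h5, vtx_sigma])
    rw [psiOf_false, ← h6] at h3
    simp at h3

end GoalC1

open GoalC1 in
theorem all_ov_of_four (M : RMap) (hM : M.IsMap) (hs : M.IsSimple) (h4 : M.IsFourConnected) :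
    ∀ S ∈ (ambC M.n).atoms (psiOf M.σ M.α), ∀ S' ∈ (ambC M.n).atoms (psiOf M.σ M.α), Ov S S' := by
  intro R hR R' hR' hd
  have hR : (ambC M.n).Atom (psiOf M.σ M.α) R := (mem_filter.1 hR).2
  have hR' : (ambC M.n).Atom (psiOf M.σ M.α) R' := (mem_filter.1 hR').2
  have hψ := ((isMap_iff M).1 hM).1.1
  have hA : (ambC M.n).NoA R := by
    rcases Amb.Atom.noA_or_star (ambC_ok _) hψ hR with h | ⟨⟨d, t⟩, -, hty, -, h⟩
    · exact h
    · obtain rfl : t = false := hty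
      exact absurd h (deg M hM hs h4 d)
  obtain ⟨d₁, h1⟩ := inner M hM hs hR.1
  obtain ⟨d₂, h2⟩ := inner M hM hs hR'.1
  obtain ⟨hπ, hI, hψI⟩ := hR.1.1.1.1
  have hI' := hR'.1.1.1.1.2.1
  set S : Set M.Vertex := (fun p : Fin M.n × Bool => M.vtx p.1) '' (R.1 \ R.2 : Finset _) with hSd
  have hS : S.ncard ≤ 3 := by
    refine (Set.ncard_image_le (Finset.finite_toSet _)).trans ?_
    rw [Set.ncard_coe_finset]
    refine le_trans (le_of_eq ?_) hR.1.2.1
    unfold bd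
    congr 1
    ext p
    simp only [mem_sdiff]
  have hcut : ∀ v ∈ S, ∃ e, (e, false) ∈ R.1 ∧ (e, false) ∉ R.2 ∧ M.vtx e = v := by
    rintro v ⟨⟨e, t⟩, h, rfl⟩
    obtain ⟨h3, h5⟩ := mem_sdiff.1 (mem_coe.1 h)
    cases t
    · exact ⟨e, h3, h5, rfl⟩
    · exact absurd (hA _ h3 rfl) h5
  have hfar : ∀ e, M.vtx e = M.vtx d₂ → (e, false) ∉ R.1 := fun e he h =>
    disjoint_left.1 hd h (hI' (h2 ((mem_orb_iff M d₂ e).2 he.symm)))
  have hv1 : M.vtx d₁ ∉ S := fun h => by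
    obtain ⟨e, -, h5, h6⟩ := hcut _ h
    exact h5 (h1 ((mem_orb_iff M d₁ e).2 h6.symm))
  have hv2 : M.vtx d₂ ∉ S := fun h => by
    obtain ⟨e, h5, -, h6⟩ := hcut _ h
    exact hfar e h6 h5
  obtain ⟨e, h5, h6⟩ := sep M hM h4 hS (fun x => ∃ e, M.vtx e = x ∧ (e, false) ∈ R.1)
    (fun d hd1 _ ⟨e, he, heR⟩ => by
      have h7 : orb (psiOf M.σ M.α) (e, false) ⊆
          R.1.filter fun p => p.2 = false ∧ M.vtx p.1 = M.vtx d := by
        refine orb_subset_of_closed (mem_filter.2 ⟨heR, rfl, he⟩) ?_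
        rintro ⟨c, t⟩ hc
        obtain ⟨c1, rfl, c3⟩ := mem_filter.1 hc
        have c4 : (c, false) ∈ R.2 := by
          by_contra c5
          exact hd1 ⟨(c, false), mem_coe.2 (mem_sdiff.2 ⟨c1, c5⟩), c3⟩
        refine mem_filter.2 ⟨hψI _ c4, ?_⟩
        rw [psiOf_false]
        exact ⟨rfl, (vtx_sigma M c).trans c3⟩
      have h8 : (d, false) ∈ R.1 := (mem_filter.1 (h7 ((mem_orb_iff M e d).2 he))).1
      have h9 := hπ _ h8
      rw [ambC_pi] at h9
      have h10 := hψI _ (hA _ h9 rfl)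
      rw [Bool.not_false, psiOf_true] at h10
      have h11 := hπ _ h10
      rw [ambC_pi] at h11
      exact ⟨M.α d, rfl, h11⟩) hv1 hv2 ⟨d₁, rfl, hI (h1 (self_mem_orb _ _))⟩
  exact hfar e h5 h6

theorem all_ov_of_loop (M : RMap) (hM : M.IsMap) (h2 : M.n = 2) (h1 : Nat.card M.Vertex = 1) :
    ∀ S ∈ (ambC M.n).atoms (psiOf M.σ M.α), ∀ S' ∈ (ambC M.n).atoms (psiOf M.σ M.α), Ov S S' := by
  have hσ : ∀ d, M.σ d ≠ d := by
    intro d hd
    have : Subsingleton M.Vertex := (Nat.card_eq_one_iff_unique.1 h1).1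
    have h3 : M.σ.SameCycle d (M.α d) := Quotient.exact (Subsingleton.elim (M.vtx d) (M.vtx (M.α d)))
    exact hM.2.1 d (h3.eq_of_left hd).symm
  have key : ∀ R ∈ (ambC M.n).atoms (psiOf M.σ M.α), (M.root, false) ∈ R.1 := by
    intro R hR
    have hR : (ambC M.n).Atom (psiOf M.σ M.α) R := (mem_filter.1 hR).2
    obtain ⟨hπ, hI, hψI⟩ := hR.1.1.1.1
    have hb : ∀ d t, (d, t) ∈ R.1 → (d, false) ∈ R.1 := by
      intro d t h
      cases t
      · exact h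
      · have := hπ _ h
        rwa [ambC_pi] at this
    obtain ⟨⟨d, t⟩, hp⟩ : ∃ p, p ∈ R.2 := by
      obtain ⟨p, h | h⟩ := hR.1.2.2
      · exact ⟨p, h.2 (self_mem_orb _ _)⟩
      · exact ⟨p, h.1 (self_mem_orb _ _)⟩
    obtain ⟨e, he, hne⟩ : ∃ e, (e, t) ∈ R.1 ∧ e ≠ d := by
      have := hψI _ hp
      cases t
      · rw [psiOf_false] at this
        exact ⟨_, this, hσ d⟩
      · rw [psiOf_true] at this
        exact ⟨_, this, hM.2.1 d⟩
    have h3 : M.root = d ∨ M.root = e := by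
      have a1 := M.root.2
      have a2 := d.2
      have a3 := e.2
      have a4 : e.1 ≠ d.1 := fun h => hne (Fin.ext h)
      rw [Fin.ext_iff, Fin.ext_iff]
      omega
    rcases h3 with h3 | h3
    · rw [h3]; exact hb d t (hI hp)
    · rw [h3]; exact hb e t he
  intro R hR R' hR' hd
  exact disjoint_left.1 hd (key R hR) (key R' hR')

end Pool.Agent.P.MP_48bde8_co
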