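import Pool.Agent.P.MP_48bde8_co.Cuts

/-! Task GOALC2: maps without two disjoint divergent regions, in terms of ports. -/

namespace Pool.Agent.P.MP_48bde8_co

open Equiv Finset
open scoped Classical

variable {P : Type} [Fintype P]

namespace Amb

variable {A : Amb P} {ψ : Perm P}

namespace C2

theorem pp (hc : A.Closed ψ) (p : P) : A.π (A.π p) = p :=
  (hc.1.2.2 p (hc.2.1 ▸ mem_univ p)).2.1

theorem tp (hc : A.Closed ψ) (p : P) : A.ty (A.π p) = !A.ty p :=
  (hc.1.2.2 p (hc.2.1 ▸ mem_univ p)).2.2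

theorem wv (hc : A.Closed ψ) : A.WV ψ := hc.2.2.2.1.1

theorem ts (hc : A.Closed ψ) (p : P) : A.ty (ψ p) = A.ty p := (wv hc p).1

theorem ss (hc : A.Closed ψ) {p : P} (h : A.ty p = true) : ψ (ψ p) = p := (wv hc p).2 h

theorem sne (hc : A.Closed ψ) {p : P} (h : A.ty p = true) : ψ p ≠ p :=
  hc.2.2.2.1.2.2 p (hc.2.2.1 ▸ mem_univ p) h

theorem mdt (hc : A.Closed ψ) (p : P) : p ∈ A.dt := hc.2.1 ▸ mem_univ p

theorem tal (hc : A.Closed ψ) (p : P) : A.ty (A.al ψ p) = A.ty p := by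
  rw [al, tp hc, ts hc, tp hc, Bool.not_not]

theorem tnx (hc : A.Closed ψ) (p : P) : A.ty (A.nx ψ p) = A.ty p := by
  rw [nx, tal hc, ts hc]

theorem pal (hc : A.Closed ψ) (p : P) : A.π (A.al ψ p) = ψ (A.π p) := by
  rw [al, pp hc]

theorem alal (hc : A.Closed ψ) {b : P} (hb : A.ty b = false) : A.al ψ (A.al ψ b) = b := by
  rw [al, pal hc, ss hc (by rw [tp hc, hb]; rfl), pp hc]

theorem alne (hc : A.Closed ψ) {b : P} (hb : A.ty b = false) : A.al ψ b ≠ b := fun h => by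
  have h1 := pal hc b
  rw [h] at h1
  exact sne hc (by rw [tp hc, hb]; rfl) h1.symm

theorem torb (hc : A.Closed ψ) {p q : P} (h : q ∈ orb ψ p) : A.ty q = A.ty p := by
  have := orb_subset_of_closed (f := ψ) (p := p) (I := univ.filter fun x => A.ty x = A.ty p)
    (by simp) (fun x hx => by simpa [ts hc] using hx) h
  simpa using this

theorem memB (hc : A.Closed ψ) {s : Finset P} (hs : ∀ q ∈ s, A.ty q = false) {x : P}
    (hx : A.ty x = false) (h : x ∈ A.dv s) : x ∈ s := by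
  rcases mem_dv.1 h with h | ⟨q, hq, rfl⟩
  · exact h
  · rw [tp hc, hs q hq] at hx
    exact absurd hx (by decide)

theorem not_ov (R : Rg P) : ¬ Ov R (cpl ψ R) := fun h => h disjoint_compl_right

theorem creg (hc : A.Closed ψ) {R : Rg P} (hR : A.Pre ψ R) : A.Reg ψ (cpl ψ R) :=
  cpl_reg hc.2.2.2.1 hc.2.2.1 hR fun p _ => mdt hc p

theorem rq (hc : A.Closed ψ) {b : P} (hb : A.ty b = false) :
    A.Disc ψ (A.rQ ψ b) ∧ bd (A.rQ ψ b) = 2 ∧ ¬ A.Feat ψ (A.rQ ψ b) ∧ (A.rQ ψ b).1.card = 4 ∧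
      (A.rQ ψ b).1 \ (A.rQ ψ b).2 = {b, A.al ψ b} ∧ A.rQ ψ (A.al ψ b) = A.rQ ψ b :=
  rQ_spec hc.1 (wv hc) (mdt hc b) hb (mdt hc _) (sne hc (by rw [tp hc, hb]; rfl))

/-- Components of a complement have at least two cuts. -/
theorem comp_two (hc : A.Closed ψ) (h1 : A.H1 ψ) {W : Rg P} (hW : A.Pre ψ W)
    (hne : W.1.Nonempty) {p : P} (hp : p ∈ (cpl ψ W).1) : 2 ≤ bd (A.comp ψ (cpl ψ W) p) := by
  obtain ⟨w, hw⟩ := hne
  refine h1 _ ((creg hc hW).comp p) ⟨p, mem_comp_self hp⟩ fun e => ?_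
  have : w ∈ (cpl ψ W).1 := (comp_le (cpl ψ W) p).1 (e ▸ mem_univ w)
  exact mem_compl.1 this hw

theorem two_comps (hc : A.Closed ψ) (h1 : A.H1 ψ) {W : Rg P} (hW : A.Pre ψ W)
    (hne : W.1.Nonempty) (h2 : 2 ≤ A.eps ψ (cpl ψ W)) :
    ∃ p ∈ (cpl ψ W).1, ∃ q ∈ (cpl ψ W).1, ¬ A.RL ψ (cpl ψ W) p q ∧
      A.Disc ψ (A.comp ψ (cpl ψ W) p) ∧ A.Disc ψ (A.comp ψ (cpl ψ W) q) := by
  have hC := creg hc hW
  obtain ⟨p, hp, q, hq, hpq, e1, e2⟩ := exists_two_comps hC.1 (fun p hp =>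
    eps_le_one (hC.1.comp p) (comp_conn hC.1 hp)
      (le_trans one_le_two (comp_two hc h1 hW hne hp))) h2
  exact ⟨p, hp, q, hq, hpq,
    ⟨hC.comp p, comp_conn hC.1 hp, e1, le_trans one_le_two (comp_two hc h1 hW hne hp)⟩,
    ⟨hC.comp q, comp_conn hC.1 hq, e2, le_trans one_le_two (comp_two hc h1 hW hne hq)⟩⟩

/-- Two components that carry all cuts are everything. -/
theorem eq_sup {C : Rg P} (hC : A.Pre ψ C) (h1 : ∀ r ∈ C.1, 1 ≤ bd (A.comp ψ C r)) {p q : P}
    (hpq : ¬ A.RL ψ C p q) (hb : bd C ≤ bd (A.comp ψ C p) + bd (A.comp ψ C q)) :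
    C = A.comp ψ C p ⊔ A.comp ψ C q := by
  have hd := comp_disjoint hpq
  have e : ((A.comp ψ C p).1 \ (A.comp ψ C p).2) ∪ ((A.comp ψ C q).1 \ (A.comp ψ C q).2) =
      C.1 \ C.2 := by
    refine eq_of_subset_of_card_le (union_subset (RegA.cut_comp p) (RegA.cut_comp q)) ?_
    rw [card_union_of_disjoint (hd.mono sdiff_subset sdiff_subset)]
    exact hb
  have key : ∀ r ∈ C.1, r ∈ (A.comp ψ C p).1 ∨ r ∈ (A.comp ψ C q).1 := by
    intro r hr
    obtain ⟨x, hx⟩ := card_pos.1 (h1 r hr)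
    have hrx : A.RL ψ C r x := (mem_filter.1 (mem_sdiff.1 hx).1).2
    have hx' := RegA.cut_comp r hx
    rw [← e, mem_union] at hx'
    rcases hx' with h | h
    · exact Or.inl (mem_filter.2 ⟨hr, .trans _ _ _ (mem_filter.1 (mem_sdiff.1 h).1).2
        (.symm _ _ hrx)⟩)
    · exact Or.inr (mem_filter.2 ⟨hr, .trans _ _ _ (mem_filter.1 (mem_sdiff.1 h).1).2
        (.symm _ _ hrx)⟩)
  refine le_antisymm (Prod.le_def.2 ⟨fun r hr => mem_union.2 (key r hr),
    fun r hr => mem_union.2 ?_⟩) (sup_le (comp_le C p) (comp_le C q))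
  exact (key r (hC.2.1 hr)).imp (fun h => (mem_comp_snd hC).2 ⟨h, hr⟩)
    fun h => (mem_comp_snd hC).2 ⟨h, hr⟩

theorem orb_small (f : Perm P) (p : P) (h : (orb f p).card ≤ 5) :
    f p = p ∨ f (f p) = p ∨ f (f (f p)) = p ∨ f (f (f (f p))) = p ∨
      f (f (f (f (f p)))) = p := by
  have h0 : 0 < (orb f p).card := card_pos.2 ⟨p, self_mem_orb f p⟩
  have h1 := (isCyc_iterate f p).1.2
  generalize (orb f p).card = n at h h0 h1
  interval_cases n <;> simp [List.iterate] at h1 <;> simp [h1]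

theorem orb_two {f : Perm P} {p : P} (h : f (f p) = p) : (orb f p).card ≤ 2 := by
  refine le_trans (card_le_card (orb_subset_of_closed (I := {p, f p}) (by simp) ?_)) card_le_two
  intro q hq
  simp only [mem_insert, mem_singleton] at hq ⊢
  rcases hq with rfl | rfl
  · exact Or.inr rfl
  · exact Or.inl h

theorem orb_four {f : Perm P} {p : P} (h : f (f (f (f p))) = p) : (orb f p).card ≤ 4 := by
  refine le_trans (card_le_card (orb_subset_of_closed (I := {p, f p, f (f p), f (f (f p))})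
    (by simp) ?_)) card_le_four
  intro q hq
  simp only [mem_insert, mem_singleton] at hq ⊢
  rcases hq with rfl | rfl | rfl | rfl <;> simp [h]

theorem sc_nx (b : P) : (A.π * ψ).SameCycle b (A.nx ψ b) :=
  mem_orb.1 (FlatAux.phi_phi (A := A) (ψ := ψ) b ▸
    FlatAux.mem_orb_apply (FlatAux.mem_orb_apply (self_mem_orb _ b)))

end C2

open C2

theorem h1_of_all (hc : A.Closed ψ) (hN : ∀ S S', A.Div ψ S → A.Div ψ S' → Ov S S') : A.H1 ψ := by
  intro R hR hne hp
  by_contra h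
  obtain ⟨d1, d2, -⟩ := one_cut hc hR hne hp (by omega)
  exact not_ov R (hN _ _ d1 d2)

/-- Either the map is the loop, or it has no loop. -/
theorem no_loop (hc : A.Closed ψ) (hN : ∀ S S', A.Div ψ S → A.Div ψ S' → Ov S S') {b : P}
    (hty : A.ty b = false) (hl : ψ.SameCycle b (A.al ψ b)) : Fintype.card P = 4 := by
  have h1 := h1_of_all hc hN
  obtain ⟨hD, hb, -, h4, hX, -⟩ := rq hc hty
  by_contra hne
  have hp : (A.rQ ψ b).1 ≠ univ := fun e => hne (by rw [← h4, e, card_univ])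
  have hpre := hD.1.1
  have e := eps_cpl_planar hc.2.2.1 hc.2.2.2.2.2 hpre
  have c1 : cmeet ψ ((A.rQ ψ b).1 \ (A.rQ ψ b).2) ≤ 1 := by
    rw [hX, cmeet_le_one_iff]
    intro p hp q hq
    simp only [mem_insert, mem_singleton] at hp hq
    rcases hp with rfl | rfl <;> rcases hq with rfl | rfl
    exacts [.refl _ _, hl, hl.symm, .refl _ _]
  have c2 : cmeet (A.π * ψ) ((A.rQ ψ b).1 \ (A.rQ ψ b).2) ≤ bd (A.rQ ψ b) := cmeet_le _ _
  have c3 := bd_cpl hpre
  have c4 : 2 ≤ bd (cpl ψ (A.rQ ψ b)) := by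
    refine h1 _ (creg hc hpre) (nonempty_iff_ne_empty.2 fun e => hp (compl_eq_empty_iff _ |>.1 e))
      fun e => ?_
    obtain ⟨w, hw⟩ := hD.2.1.1
    exact mem_compl.1 (show w ∈ (cpl ψ (A.rQ ψ b)).1 from e ▸ mem_univ w) hw
  have c5 := hD.2.2.1
  obtain ⟨p, hp, q, hq, hpq, -, -⟩ := two_comps hc h1 hpre hD.2.1.1 (by omega)
  have := comp_two hc h1 hpre hD.2.1.1 hp
  have := comp_two hc h1 hpre hD.2.1.1 hq
  have := bd_comp_add_le (cpl_pre hpre) hpq
  omega

theorem deg_ge (hc : A.Closed ψ) (hN : ∀ S S', A.Div ψ S → A.Div ψ S' → Ov S S')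
    (hl : ∀ b, A.ty b = false → ¬ ψ.SameCycle b (A.al ψ b)) {b : P} (hty : A.ty b = false) :
    4 ≤ (orb ψ b).card := by
  by_contra h
  have hB : ∀ q ∈ orb ψ b, A.ty q = false := fun q hq => (torb hc hq).trans hty
  obtain ⟨hD, hb, hF, -⟩ := rStar_spec hc.1 (wv hc) hty fun p _ => mdt hc p
  have hp : (A.rStar ψ b).1 ≠ univ := fun e =>
    hl b hty (mem_orb.1 (memB hc hB ((tal hc b).trans hty)
      (show A.al ψ b ∈ (A.rStar ψ b).1 from e ▸ mem_univ _)))
  obtain ⟨d1, -, d2⟩ := (h1_of_all hc hN).cpl_disc hc hD.1 hD.2.1 hp (by omega)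
  have hf : ¬ A.Feat ψ (cpl ψ (A.rStar ψ b)) := fun hf =>
    not_ov _ (hN _ _ ⟨hD, by omega, hF⟩ ⟨d1, by omega, hf⟩)
  obtain ⟨c, hc1, hc2⟩ := flat_cut hc.1 (wv hc) d1.1 d1.2.1.1 hf
  obtain ⟨k1, k2⟩ := mem_sdiff.1 hc1
  have k3 : ψ c ∈ (A.rStar ψ b).1 := by
    by_contra k
    exact k2 (mem_filter.2 ⟨k1, k⟩)
  have k4 : ψ c ∈ orb ψ b := memB hc hB ((ts hc c).trans hc2) k3
  have k5 : c ∈ orb ψ b := (RegA.closed_iff (fun _ => FlatAux.mem_orb_apply) c).1 k4
  exact mem_compl.1 k1 (mem_dv.2 (Or.inl k5))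

theorem face_ge (hc : A.Closed ψ) (hN : ∀ S S', A.Div ψ S → A.Div ψ S' → Ov S S')
    (hl : ∀ b, A.ty b = false → ¬ ψ.SameCycle b (A.al ψ b)) (p : P) :
    6 ≤ (orb (A.π * ψ) p).card := by
  have tphi : ∀ q, A.ty ((A.π * ψ) q) = !A.ty q := fun q => by
    rw [Perm.mul_apply, tp hc, ts hc]
  suffices H : ∀ b, A.ty b = false → 6 ≤ (orb (A.π * ψ) b).card by
    cases h : A.ty p
    · exact H p h
    · rw [← orb_apply]
      exact H _ (by rw [tphi, h]; rfl)
  intro b hty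
  by_contra h
  have hdeg : ∀ c, A.ty c = false → c ≠ ψ c := fun c hc' e => by
    have := deg_ge hc hN hl hc'
    have := orb_two (f := ψ) (p := c) (by rw [← e, ← e])
    omega
  have hn1 : A.nx ψ b ≠ b := fun e => by
    have e' : A.al ψ b = ψ b := by
      conv_lhs => rw [← e, nx, alal hc ((ts hc b).trans hty)]
    exact hl b hty (e' ▸ mem_orb.1 (FlatAux.mem_orb_apply (self_mem_orb ψ b)))
  have hn2 : A.nx ψ (A.nx ψ b) = b := by
    rcases orb_small (A.π * ψ) b (by omega) with e | e | e | e | e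
    · have := congrArg A.ty e
      simp only [tphi, Bool.not_eq_self] at this
    · exact absurd e hn1
    · have := congrArg A.ty e
      simp only [tphi, Bool.not_not, Bool.not_eq_self] at this
    · exact e
    · have := congrArg A.ty e
      simp only [tphi, Bool.not_not, Bool.not_eq_self] at this
  have t2 : A.ty (A.nx ψ b) = false := (tnx hc b).trans hty
  have hd : A.DigAt ψ b := by
    refine ⟨hty, hn2, ?_⟩
    have a1 : b ≠ ψ (A.nx ψ b) := fun e => alne hc hty (by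
      conv_lhs => rw [e]
      exact hn2)
    have a2 : ψ b ≠ A.nx ψ b := (alne hc ((ts hc b).trans hty)).symm
    simp [hdeg b hty, hn1.symm, a1, a2, hdeg _ t2]
  obtain ⟨hA, hb, -, hV, -⟩ := rDig_spec hc.1 (wv hc) hd fun p _ => mdt hc p
  have hdis : Disjoint (orb ψ b) (orb ψ (A.nx ψ b)) := by
    rw [disjoint_left]
    intro x h1 h2
    refine hl (ψ b) ((ts hc b).trans hty) ?_
    exact (Perm.sameCycle_apply_left.2 (mem_orb.1 h1)).trans (mem_orb.1 h2).symm
  have key : ∀ s : Finset P, (∀ q ∈ s, A.ty q = false) → s.card ≤ 2 →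
      (A.rDig ψ b).1ᶜ ⊆ A.dv s → False := by
    intro s hs h2 hsub
    have h8 : orb ψ b ∪ orb ψ (A.nx ψ b) ⊆ {b, ψ b, A.nx ψ b, ψ (A.nx ψ b)} ∪ s := by
      intro x hx
      have tx : A.ty x = false := by
        rcases mem_union.1 hx with h | h
        exacts [(torb hc h).trans hty, (torb hc h).trans t2]
      by_cases hxR : x ∈ (A.rDig ψ b).1
      · rw [hV] at hxR
        refine mem_union_left _ (memB hc (fun q hq => ?_) tx hxR)
        simp only [mem_insert, mem_singleton] at hq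
        rcases hq with rfl | rfl | rfl | rfl <;> simp [ts hc, hty, t2]
      · exact mem_union_right _ (memB hc hs tx (hsub (mem_compl.2 hxR)))
    have c1 := card_le_card h8
    rw [card_union_of_disjoint hdis] at c1
    have c2 := card_union_le ({b, ψ b, A.nx ψ b, ψ (A.nx ψ b)} : Finset P) s
    have c3 : ({b, ψ b, A.nx ψ b, ψ (A.nx ψ b)} : Finset P).card ≤ 4 := card_le_four
    have := deg_ge hc hN hl hty
    have := deg_ge hc hN hl t2
    omega
  by_cases hp : (A.rDig ψ b).1 = univ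
  · exact key ∅ (by simp) (by simp) (by simp [hp])
  obtain ⟨d1, -, d2⟩ := (h1_of_all hc hN).cpl_disc hc hA.1.1.1 hA.1.1.2.1 hp (by omega)
  have hf : ¬ A.Feat ψ (cpl ψ (A.rDig ψ b)) := fun hf =>
    not_ov _ (hN _ _ hA.1 ⟨d1, by omega, hf⟩)
  have d3 := flat_two_le hc.1 (wv hc) d1 hf
  obtain ⟨c, -, tc, e | ⟨-, e⟩⟩ := flat_two hc.1 (wv hc) d1 hf (by omega)
  · exact key {c} (by simpa using tc) (by simp) (congrArg Prod.fst e).le
  · exact key {c, A.al ψ c} (by simp [tal hc, tc]) card_le_two (congrArg Prod.fst e).le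

theorem six_le_nv (hc : A.Closed ψ) (hN : ∀ S S', A.Div ψ S → A.Div ψ S' → Ov S S')
    (hl : ∀ b, A.ty b = false → ¬ ψ.SameCycle b (A.al ψ b)) (hne : Nonempty P) :
    6 ≤ A.nv ψ univ := by
  have _ := hne
  set B : Finset P := univ.filter fun p => A.ty p = false with hB
  set T : Finset P := univ.filter fun p => A.ty p = true with hT
  have hU : T ∪ B = univ := by
    ext p
    cases h : A.ty p <;> simp [hT, hB, h]
  have hd : Disjoint T B := by
    rw [disjoint_left]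
    intro p h1 h2
    simp only [hT, hB, mem_filter, mem_univ, true_and] at h1 h2
    simp [h1] at h2
  have e1 : T.card = B.card := by
    rw [← card_image_of_injective B A.π.injective]
    congr 1
    ext p
    simp only [hT, hB, mem_filter, mem_univ, true_and, mem_image]
    refine ⟨fun h => ⟨A.π p, by rw [tp hc, h]; rfl, pp hc p⟩, ?_⟩
    rintro ⟨q, hq, rfl⟩
    rw [tp hc, hq]; rfl
  have e2 : T.card + B.card = (univ : Finset P).card := by
    rw [← card_union_of_disjoint hd, hU]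
  have e3 : 2 * cin A.π univ = (univ : Finset P).card :=
    two_mul_cin A.π (fun _ _ => mem_univ _) (fun p _ => pp hc p) fun p _ e => by
      have := tp hc p
      rw [e] at this
      simp at this
  have e4 : 2 * cin ψ T = T.card :=
    two_mul_cin ψ (fun p hp => by simpa [hT, ts hc] using hp)
      (fun p hp => ss hc (mem_filter.1 hp).2) fun p hp => sne hc (mem_filter.1 hp).2
  have e5 : cin ψ univ = cin ψ T + cin ψ B := by
    rw [← hU]
    refine cin_union ψ hd (fun p hp => ?_) fun p hp => ?_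
    · simpa [hT, hB, ts hc] using hp
    · simpa [hT, hB, ts hc] using hp
  have e6 : 4 * cin ψ B ≤ B.card := by
    rw [← sum_card_orb ψ (I := B) fun p hp => by simpa [hB, ts hc] using hp, cin, mul_comm,
      ← smul_eq_mul]
    refine card_nsmul_le_sum _ _ _ fun c hc' => ?_
    obtain ⟨h1, h2⟩ := mem_filter.1 hc'
    obtain ⟨p, -, rfl⟩ := mem_image.1 h1
    exact deg_ge hc hN hl (mem_filter.1 (h2 (self_mem_orb ψ p))).2
  have e7 : 6 * cin (A.π * ψ) univ ≤ (univ : Finset P).card := by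
    rw [← sum_card_orb (A.π * ψ) (I := univ) fun p _ => mem_univ _, cin, mul_comm, ← smul_eq_mul]
    refine card_nsmul_le_sum _ _ _ fun c hc' => ?_
    obtain ⟨p, -, rfl⟩ := mem_image.1 (mem_filter.1 hc').1
    exact face_ge hc hN hl p
  have e8 := hc.2.2.2.2.2
  rw [Planar, hc.2.2.1] at e8
  change 6 ≤ cin ψ B
  omega

theorem no_multi (hc : A.Closed ψ) (hN : ∀ S S', A.Div ψ S → A.Div ψ S' → Ov S S')
    (hl : ∀ b, A.ty b = false → ¬ ψ.SameCycle b (A.al ψ b)) {b c : P} (hb : A.ty b = false)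
    (h1 : ψ.SameCycle b c) (h2 : ψ.SameCycle (A.al ψ b) (A.al ψ c)) : b = c := by
  by_contra hbc
  have H := h1_of_all hc hN
  have tc : A.ty c = false := (torb hc (mem_orb.2 h1)).trans hb
  have tb' : A.ty (A.al ψ b) = false := (tal hc b).trans hb
  have tc' : A.ty (A.al ψ c) = false := (tal hc c).trans tc
  have hv := hl b hb
  have hdeg : ∀ x, A.ty x = false → ψ (ψ x) ≠ x := fun x hx e => by
    have := deg_ge hc hN hl hx
    have := orb_two e
    omega
  have hdeg1 : ∀ x, A.ty x = false → ψ x ≠ x := fun x hx e => hdeg x hx (by rw [e, e])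
  have hface : ∀ x, A.nx ψ (A.nx ψ x) ≠ x := fun x e => by
    have := face_ge hc hN hl x
    have := orb_four (f := A.π * ψ) (p := x) e
    omega
  obtain ⟨D1, b1, -, -, X1, -⟩ := rq hc hb
  obtain ⟨D2, b2, -, -, X2, -⟩ := rq hc tc
  have hdis : Disjoint (A.rQ ψ b).1 (A.rQ ψ c).1 := by
    have k : ∀ x, A.ty x = false → x ∈ (A.rQ ψ b).1 → x ∈ (A.rQ ψ c).1 → False := by
      intro x tx m1 m2
      have m1 := memB hc (by simp [hb, tb']) tx m1
      have m2 := memB hc (by simp [tc, tc']) tx m2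
      simp only [mem_insert, mem_singleton] at m1 m2
      rcases m1 with rfl | rfl <;> rcases m2 with e | e
      · exact hbc e
      · exact hv (e ▸ h2.symm)
      · exact hv (e ▸ h1)
      · exact hbc (by rw [← alal hc hb, e, alal hc tc])
    rw [disjoint_left]
    intro x m1 m2
    cases tx : A.ty x
    · exact k x tx m1 m2
    · exact k (A.π x) (by rw [tp hc, tx]; rfl) (D1.1.1.1 x m1) (D2.1.1.1 x m2)
  set W := A.rQ ψ b ⊔ A.rQ ψ c with hW
  have hR : A.Reg ψ W := D1.1.sup D2.1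
  have hne : W.1.Nonempty := D1.2.1.1.mono subset_union_left
  have eW : A.eps ψ W = 2 := by
    rw [hW, eps_sup_disjoint D1.1.1 D2.1.1 hdis, D1.2.2.1, D2.2.2.1]; rfl
  have bW : bd W = 4 := by
    have e := bd_modular D1.1.1.2.1 D2.1.1.2.1
    have e0 : bd (A.rQ ψ b ⊓ A.rQ ψ c) = 0 := by
      rw [bd, show (A.rQ ψ b ⊓ A.rQ ψ c).1 = ∅ from disjoint_iff_inter_eq_empty.1 hdis]
      simp
    rw [← hW] at e
    omega
  have mV : ∀ x, A.ty x = false →
      (x ∈ W.1 ↔ x = b ∨ x = A.al ψ b ∨ x = c ∨ x = A.al ψ c) := by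
    intro x tx
    constructor
    · intro h
      rcases mem_union.1 h with m | m
      · have m := memB hc (by simp [hb, tb']) tx m
        simp only [mem_insert, mem_singleton] at m
        tauto
      · have m := memB hc (by simp [tc, tc']) tx m
        simp only [mem_insert, mem_singleton] at m
        tauto
    · rintro (rfl | rfl | rfl | rfl)
      · exact mem_union_left _ (mem_dv.2 (Or.inl (by simp)))
      · exact mem_union_left _ (mem_dv.2 (Or.inl (by simp)))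
      · exact mem_union_right _ (mem_dv.2 (Or.inl (by simp)))
      · exact mem_union_right _ (mem_dv.2 (Or.inl (by simp)))
  have mA : ∀ x ∈ W.1, A.ty x = true → x ∈ W.2 := by
    intro x hx tx
    rcases mem_union.1 hx with m | m
    · exact mem_union_left _ (FlatAux.rQ_A hb tb' m tx)
    · exact mem_union_right _ (FlatAux.rQ_A tc tc' m tx)
  have mI : ∀ x ∈ W.2, A.ty x = true := by
    intro x hx
    rcases mem_union.1 hx with m | m <;>
      simp only [rQ, mem_insert, mem_singleton] at m <;>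
      rcases m with rfl | rfl <;> simp [tp hc, hb, tb', tc, tc']
  have mX : ∀ x, x ∈ W.1 \ W.2 ↔ x ∈ W.1 ∧ A.ty x = false := by
    intro x
    rw [mem_sdiff]
    refine and_congr_right fun hx => ⟨fun h => ?_, fun h h' => by simp [mI x h'] at h⟩
    cases tx : A.ty x
    · rfl
    · exact absurd (mA x hx tx) h
  have mal : ∀ x ∈ W.1, A.ty x = false → A.al ψ x ∈ W.1 := fun x hx tx =>
    hR.1.1 _ (hR.1.2.2 _ (mA _ (hR.1.1 x hx) (by rw [tp hc, tx]; rfl)))
  have vtx : ∀ x ∈ W.1, A.ty x = false →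
      (ψ.SameCycle b x ∧ (x = b ∨ x = c)) ∨
        (ψ.SameCycle (A.al ψ b) x ∧ (x = A.al ψ b ∨ x = A.al ψ c)) := by
    intro x hx tx
    rcases (mV x tx).1 hx with rfl | rfl | rfl | rfl
    · exact Or.inl ⟨.refl _ _, Or.inl rfl⟩
    · exact Or.inr ⟨.refl _ _, Or.inl rfl⟩
    · exact Or.inl ⟨h1, Or.inr rfl⟩
    · exact Or.inr ⟨h2, Or.inr rfl⟩
  have cψ : cmeet ψ (W.1 \ W.2) ≤ 2 := by
    rw [cmeet, CycA.meet_eq]
    refine le_trans (card_le_card (t := {orb ψ b, orb ψ (A.al ψ b)}) fun o ho => ?_) card_le_two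
    obtain ⟨x, hx, rfl⟩ := mem_image.1 ho
    obtain ⟨m1, m2⟩ := (mX x).1 hx
    rcases vtx x m1 m2 with h | h
    · simp [orb_eq_iff.2 h.1]
    · simp [orb_eq_iff.2 h.1]
  -- at most one internal B step per vertex
  have one : ∀ x ∈ W.1, ∀ y ∈ W.1, A.ty x = false → ψ x ∈ W.1 → ψ y ∈ W.1 →
      ψ.SameCycle x y → x = y := by
    intro x hx y hy tx hx' hy' hs
    have ty' : A.ty y = false := (torb hc (mem_orb.2 hs)).trans tx
    have s1 : ψ.SameCycle x (ψ x) := Perm.sameCycle_apply_right.2 (.refl _ _)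
    have s2 : ψ.SameCycle x (ψ y) := Perm.sameCycle_apply_right.2 hs
    have n1 := hdeg1 x tx
    have n2 := hdeg1 y ty'
    have n3 := hdeg x tx
    by_contra hxy
    have fin : ∀ u v : P, (x = u ∨ x = v) → (y = u ∨ y = v) → (ψ x = u ∨ ψ x = v) →
        (ψ y = u ∨ ψ y = v) → False := by
      intro u v a1 a2 a3 a4
      have e1 : ψ x = y := by
        rcases a1 with a1 | a1 <;> rcases a2 with a2 | a2 <;> rcases a3 with a3 | a3 <;>
          first
            | exact a3.trans a2.symm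
            | exact absurd (a3.trans a1.symm) n1
            | exact absurd (a1.trans a2.symm) hxy
      have e2 : ψ y = x := by
        rcases a1 with a1 | a1 <;> rcases a2 with a2 | a2 <;> rcases a4 with a4 | a4 <;>
          first
            | exact a4.trans a1.symm
            | exact absurd (a4.trans a2.symm) n2
            | exact absurd (a1.trans a2.symm) hxy
      exact n3 (by rw [e1, e2])
    rcases vtx x hx tx with k | k
    · have q : ∀ z ∈ W.1, ψ.SameCycle x z → z = b ∨ z = c := fun z hz s =>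
        ((vtx z hz ((torb hc (mem_orb.2 s)).trans tx)).resolve_right fun h =>
          hv ((k.1.trans s).trans h.1.symm)).2
      exact fin _ _ k.2 (q y hy hs) (q _ hx' s1) (q _ hy' s2)
    · have q : ∀ z ∈ W.1, ψ.SameCycle x z → z = A.al ψ b ∨ z = A.al ψ c := fun z hz s =>
        ((vtx z hz ((torb hc (mem_orb.2 s)).trans tx)).resolve_left fun h =>
          hv (h.1.trans (k.1.trans s).symm)).2
      exact fin _ _ k.2 (q y hy hs) (q _ hx' s1) (q _ hy' s2)
  have c3 := bd_cpl hR.1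
  have cφ : cmeet (A.π * ψ) (W.1 \ W.2) ≤ bd (cpl ψ W) := by
    have e0 := card_filter_add_card_filter_not (s := W.1 \ W.2) fun p => ψ p ∈ W.1
    have e1 : cmeet (A.π * ψ) (W.1 \ W.2) ≤
        ((W.1 \ W.2).filter fun p => ¬ ψ p ∈ W.1).card := by
      rw [cmeet, CycA.meet_eq]
      refine le_trans (card_le_card fun o ho => ?_) (card_image_le (f := orb (A.π * ψ)))
      obtain ⟨x, hx, rfl⟩ := mem_image.1 ho
      obtain ⟨m1, m2⟩ := (mX x).1 hx
      have step : ∀ y ∈ W.1, A.ty y = false → ψ y ∈ W.1 → A.nx ψ y ∈ W.1 := fun y _ ty' h =>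
        mal _ h ((ts hc y).trans ty')
      have use : ∀ y ∈ W.1, A.ty y = false → ψ y ∉ W.1 → (A.π * ψ).SameCycle x y →
          orb (A.π * ψ) x ∈ image (orb (A.π * ψ)) ((W.1 \ W.2).filter fun p => ¬ ψ p ∈ W.1) :=
        fun y a1 a2 a3 a4 => mem_image.2 ⟨y, mem_filter.2 ⟨(mX y).2 ⟨a1, a2⟩, a3⟩,
          orb_eq_iff.2 a4.symm⟩
      have t1 := (tnx hc x).trans m2
      have t2 := (tnx hc (A.nx ψ x)).trans t1
      by_cases q0 : ψ x ∈ W.1
      swap
      · exact use x m1 m2 q0 (.refl _ _)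
      have n1 := step x m1 m2 q0
      by_cases q1 : ψ (A.nx ψ x) ∈ W.1
      swap
      · exact use _ n1 t1 q1 (sc_nx x)
      have n2 := step _ n1 t1 q1
      by_cases q2 : ψ (A.nx ψ (A.nx ψ x)) ∈ W.1
      swap
      · exact use _ n2 t2 q2 ((sc_nx x).trans (sc_nx _))
      exfalso
      have d01 : x ≠ A.nx ψ x := fun e => hface x (by rw [← e, ← e])
      have d12 : A.nx ψ x ≠ A.nx ψ (A.nx ψ x) := fun e => d01 (FlatAux.nx_inj e)
      have d02 : x ≠ A.nx ψ (A.nx ψ x) := (hface x).symm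
      rcases vtx _ m1 m2 with a | a <;> rcases vtx _ n1 t1 with a' | a' <;>
        rcases vtx _ n2 t2 with a'' | a'' <;>
        first
          | exact d01 (one _ m1 _ n1 m2 q0 q1 (a.1.symm.trans a'.1))
          | exact d12 (one _ n1 _ n2 t1 q1 q2 (a'.1.symm.trans a''.1))
          | exact d02 (one _ m1 _ n2 m2 q0 q2 (a.1.symm.trans a''.1))
    have e2 : (W.1 \ W.2).card = bd W := rfl
    omega
  have eu := eps_cpl_planar hc.2.2.1 hc.2.2.2.2.2 hR.1
  obtain ⟨p, hp, q, hq, hpq, Dp, Dq⟩ := two_comps hc H hR.1 hne (by omega)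
  have bp := comp_two hc H hR.1 hne hp
  have bq := comp_two hc H hR.1 hne hq
  have bpq := bd_comp_add_le (cpl_pre hR.1) hpq
  have hC := cpl_pre hR.1
  have esum := eps_sup_disjoint (hC.comp p) (hC.comp q) (comp_disjoint hpq)
  rw [← eq_sup hC (fun r hr => le_trans one_le_two (comp_two hc H hR.1 hne hr)) hpq (by omega),
    Dp.2.2.1, Dq.2.2.1] at esum
  have c4 : cmeet (A.π * ψ) (W.1 \ W.2) = (W.1 \ W.2).card := by
    have e2 : (W.1 \ W.2).card = bd W := rfl
    omega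
  rw [cmeet_eq_card_iff] at c4
  have fin : ∀ r, A.Disc ψ (A.comp ψ (cpl ψ W) r) → bd (A.comp ψ (cpl ψ W) r) = 2 →
      A.Feat ψ (A.comp ψ (cpl ψ W) r) := by
    intro r D b2
    by_contra hf
    have cut : ∀ x ∈ (A.comp ψ (cpl ψ W) r).1, x ∉ (A.comp ψ (cpl ψ W) r).2 →
        x ∉ W.1 ∧ ψ x ∈ W.1 := by
      intro x k1 k2
      obtain ⟨k3, k4⟩ := mem_sdiff.1 (RegA.cut_comp r (mem_sdiff.2 ⟨k1, k2⟩))
      refine ⟨mem_compl.1 k3, ?_⟩
      by_contra k
      exact k4 (mem_filter.2 ⟨k3, k⟩)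
    obtain ⟨d, hd, td, e | ⟨-, e⟩⟩ := flat_two hc.1 (wv hc) D hf b2
    · have ta : A.ty (A.π d) = true := by rw [tp hc, td]; rfl
      obtain ⟨k1, k2⟩ := cut _ (D.1.1.1 d hd) (by rw [e]; simp [rT])
      have := hR.1.2.2 _ (mA _ k2 ((ts hc _).trans ta))
      rw [ss hc ta] at this
      exact k1 this
    · have hI : ∀ x ∈ (A.comp ψ (cpl ψ W) r).2, A.ty x = true := by
        intro x hx
        rw [e] at hx
        simp only [rQ, mem_insert, mem_singleton] at hx
        rcases hx with rfl | rfl <;> simp [tp hc, tal hc, td]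
      have td' : A.ty (A.al ψ d) = false := (tal hc d).trans td
      have hd' : A.al ψ d ∈ (A.comp ψ (cpl ψ W) r).1 := by
        rw [e]; exact mem_dv.2 (Or.inl (by simp))
      obtain ⟨k1, -⟩ := cut d hd fun h => by simp [hI d h] at td
      obtain ⟨-, k2⟩ := cut _ hd' fun h => by simp [hI _ h] at td'
      obtain ⟨y, rfl⟩ := ψ.surjective d
      have ty' : A.ty y = false := (ts hc y).symm.trans td
      have hy : y ∈ W.1 := by
        by_contra k
        have k3 : y ∈ (cpl ψ W).2 := mem_filter.2 ⟨mem_compl.2 k, k1⟩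
        have := hI y ((mem_comp_snd hC).2 ⟨(mem_comp_step hC k3).2 hd, k3⟩)
        simp [this] at ty'
      have k5 : A.nx ψ (A.nx ψ y) ∈ W.1 := mal _ k2 ((ts hc _).trans td')
      exact hface y (c4 _ ((mX _).2 ⟨hy, ty'⟩) _
        ((mX _).2 ⟨k5, by rw [tnx hc, tnx hc, ty']⟩) ((sc_nx y).trans (sc_nx _))).symm
  exact hN _ _ ⟨Dp, by omega, fin p Dp (by omega)⟩ ⟨Dq, by omega, fin q Dq (by omega)⟩
    (comp_disjoint hpq)

/-- Vertex cuts: `S` is a union of at most three vertices; two B ports off `S` are linked by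
steps that do not start in `S`. -/
theorem no_cut (hc : A.Closed ψ) (hN : ∀ S S', A.Div ψ S → A.Div ψ S' → Ov S S') {S : Finset P}
    (hS : ∀ p ∈ S, A.ty p = false ∧ ψ p ∈ S) (h3 : cin ψ S ≤ 3) {b c : P} (hb : A.ty b = false)
    (hc' : A.ty c = false) (hbS : b ∉ S) (hcS : c ∉ S) : A.RL ψ (univ, Sᶜ) b c := by
  by_contra h
  have hT : A.Pre ψ (univ, Sᶜ) := ⟨fun _ _ => mem_univ _, subset_univ _, fun _ _ => mem_univ _⟩
  have cl : ∀ x, ψ x ∈ S ↔ x ∈ S := RegA.closed_iff fun p hp => (hS p hp).2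
  have hR := hT.comp b
  have hcR : c ∉ (A.comp ψ (univ, Sᶜ) b).1 := fun k => h (mem_filter.1 k).2
  obtain ⟨k1, k2, k3, k4, k5, k6, k7, k8, -⟩ := comp_cpl hc.2.2.1 hc.2.2.2.2.1 hc.2.2.2.2.2 hR
    (comp_conn hT (mem_univ b)) hcR
  set R := A.comp ψ (univ, Sᶜ) b with hRd
  set K := A.comp ψ (cpl ψ R) c with hKd
  have hK : A.Reg ψ K := (creg hc hR).comp c
  have cutS : ∀ q ∈ K.1, q ∉ K.2 → q ∈ S := by
    intro q h1 h2
    by_contra k
    have := (mem_comp_step hT (p := b) (q := q) (mem_compl.2 k)).2 (k7 q (mem_sdiff.2 ⟨h1, h2⟩))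
    exact mem_compl.1 ((comp_le (cpl ψ R) c).1 h1) this
  have hb3 : bd K ≤ cin ψ S := by
    refine card_le_card_of_injOn (orb ψ) (fun q hq => ?_) fun x hx y hy e =>
      k8 x hx y hy (orb_eq_iff.1 e)
    obtain ⟨h1, h2⟩ := mem_sdiff.1 hq
    exact mem_filter.2 ⟨mem_image.2 ⟨q, mem_univ _, rfl⟩,
      orb_subset_of_closed (cutS q h1 h2) fun p hp => (hS p hp).2⟩
  have hcK : c ∈ K.1 := mem_comp_self (mem_compl.2 hcR)
  have fK : A.Feat ψ K := by
    refine ⟨c, Or.inl ⟨hc', (orb_subset_of_closed (I := K.2 \ S) ?_ fun x hx => ?_).trans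
      sdiff_subset⟩⟩
    · exact mem_sdiff.2 ⟨by_contra fun k => hcS (cutS c hcK k), hcS⟩
    · obtain ⟨h1, h2⟩ := mem_sdiff.1 hx
      have h3 : ψ x ∉ S := fun k => h2 ((cl x).1 k)
      exact mem_sdiff.2 ⟨by_contra fun k => h3 (cutS _ (hK.1.2.2 x h1) k), h3⟩
  have fR : A.Feat ψ R := by
    refine ⟨b, Or.inl ⟨hb, orb_subset_of_closed ?_ fun x hx => ?_⟩⟩
    · exact (mem_comp_snd hT).2 ⟨mem_comp_self (mem_univ b), mem_compl.2 hbS⟩
    · have h2 := ((mem_comp_snd hT).1 hx).2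
      exact (mem_comp_snd hT).2 ⟨hR.2.2 x hx,
        mem_compl.2 fun k => mem_compl.1 h2 ((cl x).1 k)⟩
  exact not_ov K (hN _ _
    ⟨⟨hK, comp_conn (cpl_pre hR) (mem_compl.2 hcR), k1, k2⟩, by omega, fK⟩
    ⟨⟨creg hc hK.1, k3, k4, by omega⟩, by omega, fR.mono k6⟩)

end Amb

end Pool.Agent.P.MP_48bde8_co
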