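import Pool.Agent.P.MP_48bde8_co.GoalC1
import Pool.Agent.P.MP_48bde8_co.GoalC2

/-! Task GOALC3: characterisation of maps without two disjoint atoms. -/

namespace Pool.Agent.P.MP_48bde8_co

open Equiv Finset
open scoped Classical

namespace GoalC3Aux

theorem al_eq {n : ℕ} (σ α : Perm (Fin n)) (d : Fin n) :
    (ambC n).al (psiOf σ α) (d, false) = (α d, false) := by
  rw [Amb.al, ambC_pi n d, Bool.not_false, psiOf_true, ambC_pi n (α d), Bool.not_true]

theorem vtx_sigma (M : RMap) (d : Fin M.n) : M.vtx (M.σ d) = M.vtx d :=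
  Quotient.sound (Perm.SameCycle.rfl.apply_left)

theorem vtx_surj (M : RMap) (v : M.Vertex) : ∃ d, M.vtx d = v := Quotient.exists_rep v

theorem fin_vertex (M : RMap) : Finite M.Vertex :=
  Finite.of_surjective M.vtx (vtx_surj M)

theorem cin_le_of {P β : Type} [Fintype P] (f : Perm P) (I : Finset P) (T : Finset β)
    (g : β → Finset P) (h : ∀ p, orb f p ⊆ I → ∃ v ∈ T, g v = orb f p) : cin f I ≤ T.card := by
  refine le_trans (card_le_card fun c hc => ?_) (card_image_le (f := g))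
  obtain ⟨h1, h2⟩ := mem_filter.1 hc
  obtain ⟨p, -, rfl⟩ := mem_image.1 h1
  exact mem_image.2 (h p h2)

theorem mem_compl_of {P : Type} [Fintype P] {I : Finset P} {p : P} (h : p ∈ Iᶜ) : p ∉ I :=
  mem_compl.1 h

theorem cin_le (M : RMap) (S : Set M.Vertex) :
    cin (psiOf M.σ M.α) (univ.filter fun p : Fin M.n × Bool => p.2 = false ∧ M.vtx p.1 ∈ S) ≤
      S.ncard := by
  have := fin_vertex M
  rw [Set.ncard_eq_toFinset_card S]
  refine cin_le_of _ _ _ (fun v =>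
    univ.filter fun p : Fin M.n × Bool => p.2 = false ∧ M.vtx p.1 = v) ?_
  rintro ⟨d, t⟩ h2
  obtain ⟨h3, h4⟩ := (mem_filter.1 (h2 (self_mem_orb _ _))).2
  dsimp only at h3 h4
  subst h3
  refine ⟨M.vtx d, (Set.Finite.mem_toFinset _).2 h4, ?_⟩
  ext ⟨e, s⟩
  simp only [mem_filter, mem_univ, true_and]
  constructor
  · rintro ⟨rfl, h5⟩
    exact mem_orb.2 ((vtx_eq_iff M d e).1 h5.symm)
  · intro h5
    obtain ⟨h6, -⟩ := (mem_filter.1 (h2 h5)).2
    dsimp only at h6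
    subst h6
    exact ⟨rfl, ((vtx_eq_iff M d e).2 (mem_orb.1 h5)).symm⟩

theorem reach (M : RMap) (hM : M.IsMap) (hs : ∀ d, M.vtx (M.α d) ≠ M.vtx d) (S : Set M.Vertex)
    {d d' : Fin M.n} (hd : M.vtx d ∈ Sᶜ) (hd' : M.vtx d' ∈ Sᶜ) {I : Finset (Fin M.n × Bool)}
    (h : (ambC M.n).RL (psiOf M.σ M.α) (univ, I) (d, false) (d', false))
    (hI : ∀ e, (e, false) ∈ I → M.vtx e ∈ Sᶜ) :
    (M.graph.induce Sᶜ).Reachable ⟨_, hd⟩ ⟨_, hd'⟩ := by
  obtain ⟨Q, hQ⟩ : ∃ Q : Fin M.n → Prop, ∀ e, Q e ↔ ∃ w : ↥Sᶜ,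
      (M.graph.induce Sᶜ).Reachable ⟨_, hd⟩ w ∧ (w.1 = M.vtx e ∨ w.1 = M.vtx (M.α e)) :=
    ⟨_, fun _ => Iff.rfl⟩
  have h1 : ∀ e (he : M.vtx e ∈ Sᶜ), Q e ↔ (M.graph.induce Sᶜ).Reachable ⟨_, hd⟩ ⟨_, he⟩ := by
    intro e he
    rw [hQ]
    refine ⟨?_, fun h => ⟨_, h, Or.inl rfl⟩⟩
    rintro ⟨⟨w, hw⟩, h2, h3 | h3⟩
    · dsimp only at h3
      subst h3
      exact h2
    · dsimp only at h3
      subst h3
      refine h2.trans (SimpleGraph.Adj.reachable ?_)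
      have h4 : M.graph.Adj (M.vtx (M.α e)) (M.vtx e) := by
        rw [RMap.graph, SimpleGraph.fromRel_adj]
        exact ⟨hs e, Or.inr ⟨e, rfl, rfl⟩⟩
      exact h4
  have h2 : ∀ p q, (ambC M.n).RL (psiOf M.σ M.α) (univ, I) p q → (Q p.1 ↔ Q q.1) := by
    intro p q hpq
    induction hpq with
    | rel x y h =>
      obtain ⟨e, t⟩ := x
      rcases h with ⟨-, rfl⟩ | ⟨h3, rfl⟩
      · rw [ambC_pi]
      · cases t
        · have h4 : M.vtx e ∈ Sᶜ := hI e h3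
          rw [psiOf_false, h1 e h4, h1 (M.σ e) (by rw [vtx_sigma]; exact h4)]
          simp only [vtx_sigma]
        · rw [psiOf_true, hQ, hQ]
          simp only [hM.1 e, or_comm]
    | refl x => exact Iff.rfl
    | symm x y _ ih => exact ih.symm
    | trans x y z _ _ ih ih' => exact ih.trans ih'
  exact (h1 d' hd').1 ((h2 _ _ h).1 ((h1 d hd).2 (SimpleGraph.Reachable.refl _)))

end GoalC3Aux

open GoalC3Aux in
theorem all_ov_iff (M : RMap) (hM : M.IsMap) (hp : M.IsPlanar) :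
    (∀ S ∈ (ambC M.n).atoms (psiOf M.σ M.α), ∀ S' ∈ (ambC M.n).atoms (psiOf M.σ M.α), Ov S S') ↔
      (M.IsSimple ∧ M.IsFourConnected) ∨ (M.n = 2 ∧ Nat.card M.Vertex = 1) := by
  refine ⟨fun h => ?_, fun h => h.elim (fun h => all_ov_of_four M hM h.1 h.2)
    fun h => all_ov_of_loop M hM h.1 h.2⟩
  have hc : (ambC M.n).Closed (psiOf M.σ M.α) := ⟨ambC_ok _, rfl, rfl, (dgm_iff M).1 ⟨hM, hp⟩⟩
  have hN : ∀ S S', (ambC M.n).Div (psiOf M.σ M.α) S → (ambC M.n).Div (psiOf M.σ M.α) S' →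
      Ov S S' := by
    intro S S' hS hS' hd
    obtain ⟨T, h1, h2⟩ := Amb.exists_atom_le hS
    obtain ⟨T', h3, h4⟩ := Amb.exists_atom_le hS'
    exact h T (mem_filter.2 ⟨mem_univ _, h1⟩) T' (mem_filter.2 ⟨mem_univ _, h3⟩)
      (hd.mono h2.1 h4.1)
  by_cases hl : ∀ b, (ambC M.n).ty b = false →
      ¬ (psiOf M.σ M.α).SameCycle b ((ambC M.n).al (psiOf M.σ M.α) b)
  · have hs : ∀ d, M.vtx (M.α d) ≠ M.vtx d := fun d hd =>
      hl (d, false) rfl (by rw [al_eq]; exact (vtx_eq_iff M _ _).1 hd.symm)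
    have h6 := Amb.six_le_nv hc hN hl ⟨(M.root, true)⟩
    rw [nv_eq] at h6
    refine Or.inl ⟨⟨hs, fun d d' h1 h2 => ?_⟩, by omega, fun S hS => ?_⟩
    · exact congrArg Prod.fst (Amb.no_multi hc hN hl (b := (d, false)) (c := (d', false)) rfl
        ((vtx_eq_iff M _ _).1 h1) (by rw [al_eq, al_eq]; exact (vtx_eq_iff M _ _).1 h2))
    · have := fin_vertex M
      have hne : Sᶜ.Nonempty := by
        rw [Set.nonempty_compl]
        rintro rfl
        rw [Set.ncard_univ] at hS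
        omega
      have := hne.to_subtype
      refine ⟨fun ⟨u, hu⟩ ⟨v, hv⟩ => ?_⟩
      obtain ⟨d, rfl⟩ := vtx_surj M u
      obtain ⟨d', rfl⟩ := vtx_surj M v
      refine reach M hM hs S hu hv (Amb.no_cut hc hN (b := (d, false)) (c := (d', false)) ?_
        ((cin_le M S).trans hS) rfl rfl (fun h => hu (mem_filter.1 h).2.2)
        fun h => hv (mem_filter.1 h).2.2)
        fun e he h5 => mem_compl_of he (mem_filter.2 ⟨mem_univ _, rfl, h5⟩)
      rintro ⟨e, t⟩ he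
      obtain ⟨h1, h2⟩ := (mem_filter.1 he).2
      dsimp only at h1 h2
      subst h1
      rw [psiOf_false]
      exact ⟨rfl, mem_filter.2 ⟨mem_univ _, rfl, by rw [vtx_sigma]; exact h2⟩⟩
  · push Not at hl
    obtain ⟨⟨d, t⟩, h1, h2⟩ := hl
    obtain rfl : t = false := h1
    have h4 := Amb.no_loop hc hN rfl h2
    rw [Fintype.card_prod, Fintype.card_fin, Fintype.card_bool] at h4
    rw [al_eq, ← vtx_eq_iff] at h2
    have h5 : ({d, M.α d} : Finset (Fin M.n)) = univ :=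
      eq_univ_of_card _ (by rw [card_pair (hM.2.1 d).symm, Fintype.card_fin]; omega)
    refine Or.inr ⟨by omega, Nat.card_eq_one_iff_exists.2 ⟨M.vtx d, fun v => ?_⟩⟩
    obtain ⟨e, rfl⟩ := vtx_surj M v
    have h6 : e ∈ ({d, M.α d} : Finset (Fin M.n)) := h5 ▸ mem_univ e
    rcases mem_insert.1 h6 with rfl | h6
    · rfl
    · rw [mem_singleton.1 h6, h2]

end Pool.Agent.P.MP_48bde8_co
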