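import Pool.Agent.P.MP_48bde8_co.Maps
import Pool.Agent.P.MP_48bde8_co.Shear

/-! Task GRAM: the linear systems at level zero. -/

namespace Pool.Agent.P.MP_48bde8_co

open PowerSeries

set_option linter.unusedSimpArgs false in
theorem gram {R : Type} [CommRing R] {z : R} {τ Δ : List Bool → R} (h : SD1 1 z τ fun _ => 0)
    (hΔ : ∀ c w, Δ (w ++ [c]) = Δ (c :: w))
    (hl : ∀ i, lin τ Δ (w9 i).headI (w9 i).tail = 0) (i : Fin 9) : z ^ 11 * Δ (w9 i) = 0 := by
  have hA : ∀ W, τ (true :: W) = ((splits true W).map fun s => τ s.1 * τ s.2).sum := fun W => by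
    simpa using h.sdA W
  have hB : ∀ W, τ (false :: W) =
      τ W + ((splits false W).map fun s => τ (false :: s.1) * τ s.2).sum := fun W => by
    simpa using h.sdB W
  have t0 : τ [] = z := h.nil
  have r1 : Δ [false, true] = Δ [true, false] := hΔ true [false]
  have r2 : Δ [true, false, true] = Δ [true, true, false] := hΔ true [true, false]
  have r4 : Δ [false, true, true] = Δ [true, true, false] := (hΔ true [false, true]).trans r2
  have r5 : Δ [false, false, true] = Δ [true, false, false] := hΔ true [false, false]
  have r6 : Δ [false, true, false] = Δ [true, false, false] := (hΔ false [false, true]).trans r5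
  have tA : τ [true] = 0 := by
    rw [hA]
    simp only [splits, List.map_cons, List.map_nil, List.nil_append, List.cons_append,
        List.append_nil, List.sum_cons, List.sum_nil, if_true, if_false, Bool.true_eq_false,
        Bool.false_eq_true]
  have tB : τ [false] = z := by
    rw [hB]
    simp only [splits, List.map_cons, List.map_nil, List.nil_append, List.cons_append,
        List.append_nil, List.sum_cons, List.sum_nil, if_true, if_false, Bool.true_eq_false,
        Bool.false_eq_true, t0]
    ring
  have tAA : τ [true, true] = z ^ 2 := by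
    rw [hA]
    simp only [splits, List.map_cons, List.map_nil, List.nil_append, List.cons_append,
        List.append_nil, List.sum_cons, List.sum_nil, if_true, if_false, Bool.true_eq_false,
        Bool.false_eq_true, t0]
    ring
  have tAB : τ [true, false] = 0 := by
    rw [hA]
    simp only [splits, List.map_cons, List.map_nil, List.nil_append, List.cons_append,
        List.append_nil, List.sum_cons, List.sum_nil, if_true, if_false, Bool.true_eq_false,
        Bool.false_eq_true]
  have tBA : τ [false, true] = 0 := by
    rw [hB]
    simp only [splits, List.map_cons, List.map_nil, List.nil_append, List.cons_append,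
        List.append_nil, List.sum_cons, List.sum_nil, if_true, if_false, Bool.true_eq_false,
        Bool.false_eq_true, tA]
    ring
  have tBB : τ [false, false] = z + z ^ 2 := by
    rw [hB]
    simp only [splits, List.map_cons, List.map_nil, List.nil_append, List.cons_append,
        List.append_nil, List.sum_cons, List.sum_nil, if_true, if_false, Bool.true_eq_false,
        Bool.false_eq_true, t0, tB]
    ring
  have tBAA : τ [false, true, true] = z ^ 2 := by
    rw [hB]
    simp only [splits, List.map_cons, List.map_nil, List.nil_append, List.cons_append,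
        List.append_nil, List.sum_cons, List.sum_nil, if_true, if_false, Bool.true_eq_false,
        Bool.false_eq_true, tAA]
    ring
  have tBAB : τ [false, true, false] = 0 := by
    rw [hB]
    simp only [splits, List.map_cons, List.map_nil, List.nil_append, List.cons_append,
        List.append_nil, List.sum_cons, List.sum_nil, if_true, if_false, Bool.true_eq_false,
        Bool.false_eq_true, t0, tAB, tBA]
    ring
  have tBBA : τ [false, false, true] = 0 := by
    rw [hB]
    simp only [splits, List.map_cons, List.map_nil, List.nil_append, List.cons_append,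
        List.append_nil, List.sum_cons, List.sum_nil, if_true, if_false, Bool.true_eq_false,
        Bool.false_eq_true, tA, tB, tBA]
    ring
  have tBBB : τ [false, false, false] = z + 3 * z ^ 2 + z ^ 3 := by
    rw [hB]
    simp only [splits, List.map_cons, List.map_nil, List.nil_append, List.cons_append,
        List.append_nil, List.sum_cons, List.sum_nil, if_true, if_false, Bool.true_eq_false,
        Bool.false_eq_true, t0, tB, tBB]
    ring
  have tAAA : τ [true, true, true] = 0 := by
    rw [hA]
    simp only [splits, List.map_cons, List.map_nil, List.nil_append, List.cons_append,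
        List.append_nil, List.sum_cons, List.sum_nil, if_true, if_false, Bool.true_eq_false,
        Bool.false_eq_true, t0, tA]
    ring
  have tAAB : τ [true, true, false] = z ^ 2 := by
    rw [hA]
    simp only [splits, List.map_cons, List.map_nil, List.nil_append, List.cons_append,
        List.append_nil, List.sum_cons, List.sum_nil, if_true, if_false, Bool.true_eq_false,
        Bool.false_eq_true, t0, tB]
    ring
  have tABA : τ [true, false, true] = z ^ 2 := by
    rw [hA]
    simp only [splits, List.map_cons, List.map_nil, List.nil_append, List.cons_append,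
        List.append_nil, List.sum_cons, List.sum_nil, if_true, if_false, Bool.true_eq_false,
        Bool.false_eq_true, t0, tB]
    ring
  have tABB : τ [true, false, false] = 0 := by
    rw [hA]
    simp only [splits, List.map_cons, List.map_nil, List.nil_append, List.cons_append,
        List.append_nil, List.sum_cons, List.sum_nil, if_true, if_false, Bool.true_eq_false,
        Bool.false_eq_true]
  have tBBAA : τ [false, false, true, true] = z ^ 2 + z ^ 3 := by
    rw [hB]
    simp only [splits, List.map_cons, List.map_nil, List.nil_append, List.cons_append,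
        List.append_nil, List.sum_cons, List.sum_nil, if_true, if_false, Bool.true_eq_false,
        Bool.false_eq_true, tAA, tB, tBAA]
    ring
  have tBBAB : τ [false, false, true, false] = 0 := by
    rw [hB]
    simp only [splits, List.map_cons, List.map_nil, List.nil_append, List.cons_append,
        List.append_nil, List.sum_cons, List.sum_nil, if_true, if_false, Bool.true_eq_false,
        Bool.false_eq_true, t0, tAB, tB, tBAB, tBBA]
    ring
  have tBBBA : τ [false, false, false, true] = 0 := by
    rw [hB]
    simp only [splits, List.map_cons, List.map_nil, List.nil_append, List.cons_append,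
        List.append_nil, List.sum_cons, List.sum_nil, if_true, if_false, Bool.true_eq_false,
        Bool.false_eq_true, tA, tB, tBA, tBB, tBBA]
    ring
  have tBBBB : τ [false, false, false, false] = z + 6 * z ^ 2 + 6 * z ^ 3 + z ^ 4 := by
    rw [hB]
    simp only [splits, List.map_cons, List.map_nil, List.nil_append, List.cons_append,
        List.append_nil, List.sum_cons, List.sum_nil, if_true, if_false, Bool.true_eq_false,
        Bool.false_eq_true, t0, tB, tBB, tBBB]
    ring
  have tAAAA : τ [true, true, true, true] = 2 * z ^ 3 := by
    rw [hA]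
    simp only [splits, List.map_cons, List.map_nil, List.nil_append, List.cons_append,
        List.append_nil, List.sum_cons, List.sum_nil, if_true, if_false, Bool.true_eq_false,
        Bool.false_eq_true, t0, tA, tAA]
    ring
  have tAAAB : τ [true, true, true, false] = 0 := by
    rw [hA]
    simp only [splits, List.map_cons, List.map_nil, List.nil_append, List.cons_append,
        List.append_nil, List.sum_cons, List.sum_nil, if_true, if_false, Bool.true_eq_false,
        Bool.false_eq_true, t0, tA, tAB, tB]
    ring
  have tAABA : τ [true, true, false, true] = 0 := by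
    rw [hA]
    simp only [splits, List.map_cons, List.map_nil, List.nil_append, List.cons_append,
        List.append_nil, List.sum_cons, List.sum_nil, if_true, if_false, Bool.true_eq_false,
        Bool.false_eq_true, t0, tAB, tBA]
    ring
  have tAABB : τ [true, true, false, false] = z ^ 2 + z ^ 3 := by
    rw [hA]
    simp only [splits, List.map_cons, List.map_nil, List.nil_append, List.cons_append,
        List.append_nil, List.sum_cons, List.sum_nil, if_true, if_false, Bool.true_eq_false,
        Bool.false_eq_true, t0, tBB]
    ring
  have tABAA : τ [true, false, true, true] = 0 := by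
    rw [hA]
    simp only [splits, List.map_cons, List.map_nil, List.nil_append, List.cons_append,
        List.append_nil, List.sum_cons, List.sum_nil, if_true, if_false, Bool.true_eq_false,
        Bool.false_eq_true, t0, tA, tB, tBA]
    ring
  have tABAB : τ [true, false, true, false] = z ^ 2 := by
    rw [hA]
    simp only [splits, List.map_cons, List.map_nil, List.nil_append, List.cons_append,
        List.append_nil, List.sum_cons, List.sum_nil, if_true, if_false, Bool.true_eq_false,
        Bool.false_eq_true, tB]
    ring
  have tABBA : τ [true, false, false, true] = z ^ 2 + z ^ 3 := by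
    rw [hA]
    simp only [splits, List.map_cons, List.map_nil, List.nil_append, List.cons_append,
        List.append_nil, List.sum_cons, List.sum_nil, if_true, if_false, Bool.true_eq_false,
        Bool.false_eq_true, t0, tBB]
    ring
  have tABBB : τ [true, false, false, false] = 0 := by
    rw [hA]
    simp only [splits, List.map_cons, List.map_nil, List.nil_append, List.cons_append,
        List.append_nil, List.sum_cons, List.sum_nil, if_true, if_false, Bool.true_eq_false,
        Bool.false_eq_true]
  have tBBBAA : τ [false, false, false, true, true] = z ^ 2 + 3 * z ^ 3 + z ^ 4 := by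
    rw [hB]
    simp only [splits, List.map_cons, List.map_nil, List.nil_append, List.cons_append,
        List.append_nil, List.sum_cons, List.sum_nil, if_true, if_false, Bool.true_eq_false,
        Bool.false_eq_true, tAA, tB, tBAA, tBB, tBBAA]
    ring
  have tBBBAB : τ [false, false, false, true, false] = 0 := by
    rw [hB]
    simp only [splits, List.map_cons, List.map_nil, List.nil_append, List.cons_append,
        List.append_nil, List.sum_cons, List.sum_nil, if_true, if_false, Bool.true_eq_false,
        Bool.false_eq_true, t0, tAB, tB, tBAB, tBB, tBBAB, tBBBA]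
    ring
  have tBBBBA : τ [false, false, false, false, true] = 0 := by
    rw [hB]
    simp only [splits, List.map_cons, List.map_nil, List.nil_append, List.cons_append,
        List.append_nil, List.sum_cons, List.sum_nil, if_true, if_false, Bool.true_eq_false,
        Bool.false_eq_true, tA, tB, tBA, tBB, tBBA, tBBB, tBBBA]
    ring
  have tBBBBB : τ [false, false, false, false, false] = z + 10 * z ^ 2 + 20 * z ^ 3 + 10 * z ^ 4
      + z ^ 5 := by
    rw [hB]
    simp only [splits, List.map_cons, List.map_nil, List.nil_append, List.cons_append,
        List.append_nil, List.sum_cons, List.sum_nil, if_true, if_false, Bool.true_eq_false,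
        Bool.false_eq_true, t0, tB, tBB, tBBB, tBBBB]
    ring
  have e0 : (z) * Δ [true] + (z) * Δ [true, false] + (z ^ 2) * Δ [true, true, true] + (z + z ^
      2) * Δ [true, false, false] = 0 := by
    have e : lin τ Δ true [] = 0 := hl 0
    simp only [lin, tails, splits, List.map_cons, List.map_nil, List.nil_append,
        List.cons_append, List.append_nil, List.sum_cons, List.sum_nil, if_true, if_false,
        Bool.true_eq_false, Bool.false_eq_true, r2, t0, tA, tAA, tAB, tB, tBA, tBB] at e
    linear_combination e
  have e1 : (z) * Δ [false] + (z + z ^ 2) * Δ [false, false] + (z ^ 2) * Δ [true, true, false] +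
      (z + 3 * z ^ 2 + z ^ 3) * Δ [false, false, false] = 0 := by
    have e : lin τ Δ false [] = 0 := hl 1
    simp only [lin, tails, splits, List.map_cons, List.map_nil, List.nil_append,
        List.cons_append, List.append_nil, List.sum_cons, List.sum_nil, if_true, if_false,
        Bool.true_eq_false, Bool.false_eq_true, r1, r4, r5, r6, tB, tBA, tBAA, tBAB, tBB, tBBA,
        tBBB] at e
    linear_combination e
  have e2 : (z ^ 2) * Δ [true, true] + (2 * z ^ 2) * Δ [true, true, false] = 0 := by
    have e : lin τ Δ true [true] = 0 := hl 2
    simp only [lin, tails, splits, List.map_cons, List.map_nil, List.nil_append,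
        List.cons_append, List.append_nil, List.sum_cons, List.sum_nil, if_true, if_false,
        Bool.true_eq_false, Bool.false_eq_true, r2, tA, tAA, tAAA, tAAB, tAB, tABA, tABB] at e
    linear_combination e
  have e3 : (z) * Δ [true] + (z + z ^ 2) * Δ [true, false] + (z ^ 2) * Δ [true, true, true] + (z
      + 3 * z ^ 2 + z ^ 3) * Δ [true, false, false] = 0 := by
    have e : lin τ Δ true [false] = 0 := hl 3
    simp only [lin, tails, splits, List.map_cons, List.map_nil, List.nil_append,
        List.cons_append, List.append_nil, List.sum_cons, List.sum_nil, if_true, if_false,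
        Bool.true_eq_false, Bool.false_eq_true, r2, tB, tBA, tBAA, tBAB, tBB, tBBA, tBBB] at e
    linear_combination e
  have e4 : (z + z ^ 2) * Δ [false] + (z + 3 * z ^ 2 + z ^ 3) * Δ [false, false] + (z ^ 2 + z ^
      3) * Δ [true, true, false] + (z + 6 * z ^ 2 + 6 * z ^ 3 + z ^ 4) * Δ [false, false, false] = 0
      := by
    have e : lin τ Δ false [false] = 0 := hl 4
    simp only [lin, tails, splits, List.map_cons, List.map_nil, List.nil_append,
        List.cons_append, List.append_nil, List.sum_cons, List.sum_nil, if_true, if_false,
        Bool.true_eq_false, Bool.false_eq_true, r1, r4, r5, r6, tBB, tBBA, tBBAA, tBBAB, tBBB,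
        tBBBA, tBBBB] at e
    linear_combination e
  have e5 : (z ^ 2) * Δ [true] + (z ^ 2) * Δ [true, false] + (2 * z ^ 3) * Δ [true, true, true]
      + (z ^ 2 + z ^ 3) * Δ [true, false, false] = 0 := by
    have e : lin τ Δ true [true, true] = 0 := hl 5
    simp only [lin, tails, splits, List.map_cons, List.map_nil, List.nil_append,
        List.cons_append, List.append_nil, List.sum_cons, List.sum_nil, if_true, if_false,
        Bool.true_eq_false, Bool.false_eq_true, r2, tAA, tAAA, tAAAA, tAAAB, tAAB, tAABA, tAABB]
        at e
    linear_combination e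
  have e6 : (z ^ 2) * Δ [true, true] + (2 * z ^ 2 + z ^ 3) * Δ [true, true, false] = 0 := by
    have e : lin τ Δ true [true, false] = 0 := hl 6
    simp only [lin, tails, splits, List.map_cons, List.map_nil, List.nil_append,
        List.cons_append, List.append_nil, List.sum_cons, List.sum_nil, if_true, if_false,
        Bool.true_eq_false, Bool.false_eq_true, r2, tAB, tABA, tABAA, tABAB, tABB, tABBA, tABBB]
        at e
    linear_combination e
  have e7 : (z + z ^ 2) * Δ [true] + (z + 3 * z ^ 2 + z ^ 3) * Δ [true, false] + (z ^ 2 + z ^ 3)
      * Δ [true, true, true] + (z + 6 * z ^ 2 + 6 * z ^ 3 + z ^ 4) * Δ [true, false, false] = 0 :=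
      by
    have e : lin τ Δ true [false, false] = 0 := hl 7
    simp only [lin, tails, splits, List.map_cons, List.map_nil, List.nil_append,
        List.cons_append, List.append_nil, List.sum_cons, List.sum_nil, if_true, if_false,
        Bool.true_eq_false, Bool.false_eq_true, r2, tBB, tBBA, tBBAA, tBBAB, tBBB, tBBBA, tBBBB]
        at e
    linear_combination e
  have e8 : (z + 3 * z ^ 2 + z ^ 3) * Δ [false] + (z + 6 * z ^ 2 + 6 * z ^ 3 + z ^ 4) * Δ
      [false, false] + (z ^ 2 + 3 * z ^ 3 + z ^ 4) * Δ [true, true, false] + (z + 10 * z ^ 2 + 20 *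
      z ^ 3 + 10 * z ^ 4 + z ^ 5) * Δ [false, false, false] = 0 := by
    have e : lin τ Δ false [false, false] = 0 := hl 8
    simp only [lin, tails, splits, List.map_cons, List.map_nil, List.nil_append,
        List.cons_append, List.append_nil, List.sum_cons, List.sum_nil, if_true, if_false,
        Bool.true_eq_false, Bool.false_eq_true, r1, r4, r5, r6, tBBB, tBBBA, tBBBAA, tBBBAB, tBBBB,
        tBBBBA, tBBBBB] at e
    linear_combination e
  fin_cases i
  · show z ^ 11 * Δ [true] = 0
    linear_combination (z ^ 8 + z ^ 9 + 2 * z ^ 10) * e0 + (-2 * z ^ 8 - 2 * z ^ 9) * e3 + (-z ^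
        9) * e5 + (z ^ 8) * e7
  · show z ^ 11 * Δ [false] = 0
    linear_combination (z ^ 8 + 3 * z ^ 9 + 6 * z ^ 10 + 3 * z ^ 11 + z ^ 12) * e1 + (z ^ 9) *
        e2 + (-2 * z ^ 8 - 5 * z ^ 9 - 5 * z ^ 10 - 2 * z ^ 11) * e4 + (-z ^ 9) * e6 + (z ^ 8 + z ^
        9 + z ^ 10) * e8
  · show z ^ 11 * Δ [true, true] = 0
    linear_combination (2 * z ^ 8 + z ^ 9) * e2 + (-2 * z ^ 8) * e6
  · show z ^ 11 * Δ [true, false] = 0
    linear_combination (-2 * z ^ 8 - 2 * z ^ 9) * e0 + (4 * z ^ 8 + 5 * z ^ 9 + z ^ 10) * e3 +
        (-2 * z ^ 8 - z ^ 9) * e7
  · show z ^ 11 * Δ [false, false] = 0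
    linear_combination (-2 * z ^ 8 - 5 * z ^ 9 - 5 * z ^ 10 - 2 * z ^ 11) * e1 + (4 * z ^ 8 + 9
        * z ^ 9 + 4 * z ^ 10) * e4 + (-2 * z ^ 8 - 2 * z ^ 9) * e8
  · show z ^ 11 * Δ [true, true, true] = 0
    linear_combination (-z ^ 9) * e0 + (z ^ 8) * e5
  · show z ^ 11 * Δ [true, true, false] = 0
    linear_combination (-z ^ 8) * e2 + (z ^ 8) * e6
  · show z ^ 11 * Δ [true, false, false] = 0
    linear_combination (z ^ 8) * e0 + (-2 * z ^ 8 - z ^ 9) * e3 + (z ^ 8) * e7
  · show z ^ 11 * Δ [false, false, false] = 0
    linear_combination (z ^ 8 + z ^ 9 + z ^ 10) * e1 + (-2 * z ^ 8 - 2 * z ^ 9) * e4 + (z ^ 8) * e8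

namespace GramAux

variable {R R' : Type} [CommRing R] [CommRing R'] [Algebra ℚ R] [Algebra ℚ R']

theorem map_varT (ψ : R →+* R') (ω : List Bool → List Bool → R) (Δ : Fin 9 → R)
    (w : List Bool) :
    ψ (varT ω Δ w) = varT (fun u y => ψ (ω u y)) (fun j => ψ (Δ j)) w := by
  unfold varT
  rw [map_list_sum, List.map_map]
  congr 1
  refine List.map_congr_left fun u _ => ?_
  simp only [Function.comp_apply, map_rat_smul, map_mul]

theorem varT_lin (ω : List Bool → List Bool → R) (Δ : Fin 9 → R) (w : List Bool) :
    varT ω Δ w = ∑ j, varT ω (Pi.single j 1) w * Δ j := by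
  unfold varT
  generalize words = l
  induction l with
  | nil => simp
  | cons u l ih =>
    simp only [List.map_cons, List.sum_cons, add_mul, Finset.sum_add_distrib, ih]
    congr 1
    rw [Finset.sum_eq_single (cls u)]
    · simp [mul_comm]
    · intro j _ hj
      simp [Pi.single_eq_of_ne hj.symm]
    · simp

/-- The matrix of the variation of the nine moments. -/
noncomputable def mat (ω : List Bool → List Bool → R) : Matrix (Fin 9) (Fin 9) R :=
  fun i j => varT ω (Pi.single j 1) (w9 i)

theorem mat_mulVec (ω : List Bool → List Bool → R) (Δ : Fin 9 → R) (i : Fin 9) :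
    (mat ω).mulVec Δ i = varT ω Δ (w9 i) := (varT_lin ω Δ (w9 i)).symm

theorem map_det_mat (ψ : R →+* R') (ω : List Bool → List Bool → R) :
    ψ (mat ω).det = (mat fun u y => ψ (ω u y)).det := by
  rw [RingHom.map_det]
  congr 1
  ext i j
  simp only [RingHom.mapMatrix_apply, Matrix.map_apply, mat, map_varT]
  congr 1
  funext k
  by_cases hk : k = j
  · subst hk
    simp
  · simp [Pi.single_eq_of_ne hk]

omit [Algebra ℚ R] in
theorem snd_list_sum (l : List (DualNumber R)) : l.sum.snd = (l.map TrivSqZeroExt.snd).sum := by
  induction l with
  | nil => simp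
  | cons a l ih => simp [ih]

theorem splits_len (c : Bool) (W : List Bool) :
    ∀ s ∈ splits c W, s.1.length + s.2.length + 1 = W.length := by
  induction W with
  | nil => simp [splits]
  | cons d W ih =>
    intro s hs
    rw [splits, List.mem_append, List.mem_map] at hs
    rcases hs with hs | ⟨t, ht, rfl⟩
    · split_ifs at hs
      · rw [List.mem_singleton] at hs
        subst hs
        simp
      · simp at hs
    · have := ih t ht
      simp only [List.length_cons]
      omega

theorem mem_words {u : List Bool} (h0 : u ≠ []) (h : u.length ≤ 3) : u ∈ words := by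
  match u, h0, h with
  | [a], _, _ => revert a; decide
  | [a, b], _, _ => revert a b; decide
  | [a, b, c], _, _ => revert a b c; decide
  | _ :: _ :: _ :: _ :: _, _, h => simp only [List.length_cons] at h; omega

theorem ker_zero {z : R} {τ : List Bool → R} {ω : List Bool → List Bool → R}
    (h1 : SD1 1 z τ fun _ => 0) (h2 : ∀ u, u ≠ [] → SD2 1 τ (fun _ => 0) u (ω u))
    (v : Fin 9 → R) (hv : ∀ i, varT ω v (w9 i) = 0) (i : Fin 9) : z ^ 11 * v i = 0 := by
  have D := sd1_dual h1 h2 v
  have hrot : ∀ c w, varT ω v (w ++ [c]) = varT ω v (c :: w) := fun c w => by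
    simpa only [snd_dn] using congrArg TrivSqZeroExt.snd (D.rotT c w)
  have hV : ∀ u : List Bool, u.length ≤ 3 → varT ω v u = 0 := by
    intro u hu
    by_cases h0 : u = []
    · subst h0
      simpa only [snd_dn, snd_inD] using congrArg TrivSqZeroExt.snd D.nil
    · rw [rot_cls hrot (mem_words h0 hu), hv]
  have hA : ∀ W : List Bool, W.length ≤ 2 → lin τ (fun u => v (cls u)) true W = 0 := by
    intro W hW
    have e := congrArg TrivSqZeroExt.snd (D.sdA W)
    simp only [TrivSqZeroExt.snd_add, snd_list_sum, List.map_map, Function.comp_def,
      DualNumber.snd_mul, fst_dn, snd_dn, zero_mul, zero_add] at e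
    rw [hV _ (by simp only [List.length_cons]; omega), List.sum_eq_zero, zero_add] at e
    · exact e.symm
    · intro y hy
      obtain ⟨s, hs, rfl⟩ := List.mem_map.1 hy
      have := splits_len _ _ s hs
      rw [hV s.1 (by omega), hV s.2 (by omega), mul_zero, zero_mul, add_zero]
  have hB : ∀ W : List Bool, W.length ≤ 2 → lin τ (fun u => v (cls u)) false W = 0 := by
    intro W hW
    have e := congrArg TrivSqZeroExt.snd (D.sdB W)
    simp only [TrivSqZeroExt.snd_add, snd_list_sum, List.map_map, Function.comp_def,
      DualNumber.snd_mul, fst_dn, snd_dn, snd_inD, zero_mul, zero_add, add_zero] at e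
    rw [hV _ (by simp only [List.length_cons]; omega), hV W (by omega), List.sum_eq_zero, mul_zero, zero_add,
      zero_add] at e
    · exact e.symm
    · intro y hy
      obtain ⟨s, hs, rfl⟩ := List.mem_map.1 hy
      have := splits_len _ _ s hs
      rw [hV (false :: s.1) (by simp only [List.length_cons]; omega), hV s.2 (by omega), mul_zero,
        zero_mul, add_zero]
  have hg := gram h1 (Δ := fun u => v (cls u)) (fun c w => by simp only [cls_rot]) (fun j => by
    fin_cases j
    exacts [hA _ (by decide), hB _ (by decide), hA _ (by decide), hA _ (by decide),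
      hB _ (by decide), hA _ (by decide), hA _ (by decide), hA _ (by decide), hB _ (by decide)]) i
  simpa only [cls_w9] using hg

end GramAux

open GramAux in
/-- The variation of the nine moments determines the variation of the couplings. -/
theorem var_inj {τ γ : List Bool → PowerSeries (Polynomial ℚ)}
    {ω : List Bool → List Bool → PowerSeries (Polynomial ℚ)}
    (h : PartI (1 : Polynomial ℚ) Polynomial.X τ γ ω) {O : Type} [CommRing O] [IsDomain O]
    [Algebra ℚ O] (Ψ : PowerSeries (Polynomial ℚ) →+* O) (hΨ : Function.Injective Ψ)
    (Δ : Fin 9 → O) (h0 : ∀ i, varT (fun u w => Ψ (ω u w)) Δ (w9 i) = 0) : Δ = 0 := by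
  have hγ : (fun w => constantCoeff (γ w)) = fun _ => (0 : Polynomial ℚ) := funext h.const
  have h1 := h.sd1.map (constantCoeff (R := Polynomial ℚ))
  have h2 := fun u hu => (h.sd2 u hu).map (constantCoeff (R := Polynomial ℚ))
  rw [hγ] at h1 h2
  simp only [constantCoeff_C] at h1 h2
  have hd0 : (mat fun u y => constantCoeff (ω u y)).det ≠ 0 := by
    intro hc
    obtain ⟨v, hv0, hv⟩ := Matrix.exists_mulVec_eq_zero_iff.2 hc
    refine hv0 (funext fun i => ?_)
    have h3 := ker_zero h1 h2 v (fun j => by rw [← mat_mulVec, hv]; rfl) i
    exact (mul_eq_zero.1 h3).resolve_left (pow_ne_zero _ Polynomial.X_ne_zero)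
  have hd : (mat ω).det ≠ 0 := fun hc => hd0 (by rw [← map_det_mat, hc, map_zero])
  have hd1 : (mat fun u w => Ψ (ω u w)).det ≠ 0 := by
    rw [← map_det_mat]
    exact (map_ne_zero_iff Ψ hΨ).2 hd
  exact Matrix.eq_zero_of_mulVec_eq_zero hd1 (funext fun i => (mat_mulVec _ Δ i).trans (h0 i))

end Pool.Agent.P.MP_48bde8_co
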