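import Pool.Agent.P.MP_48bde8_co.Trans

/-! Task TEMB: invariance of the partition functions. -/

namespace Pool.Agent.P.MP_48bde8_co

open Equiv Finset
open scoped Classical

variable {P Q : Type} [Fintype P] [Fintype Q] {K : Type} [CommRing K] (x z : K)

set_option linter.unusedSectionVars false

namespace TEmbA

omit [Fintype Q] in
theorem via_surj (e : P ↪ Q) (φ : Perm Q) (h : ∀ q, q ∉ univ.map e → φ q = q) :
    ∃ ψ : Perm P, ψ.viaEmbedding e = φ := by
  have h1 : ∀ p, ∃ p', e p' = φ (e p) := by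
    intro p
    by_contra h0
    have h2 := h (φ (e p)) (by simpa using h0)
    exact h0 ⟨p, (φ.injective h2).symm⟩
  choose f hf using h1
  have hi : Function.Injective f := fun p p' h2 =>
    e.injective (φ.injective (by rw [← hf, ← hf, h2]))
  refine ⟨Equiv.ofBijective f (Finite.injective_iff_bijective.1 hi), Equiv.ext fun q => ?_⟩
  by_cases hq : q ∈ Set.range e
  · obtain ⟨p, rfl⟩ := hq
    rw [Perm.viaEmbedding_apply]
    exact hf p
  · rw [Perm.viaEmbedding_apply_of_notMem _ _ _ hq, h q (by simpa using hq)]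

omit [Fintype P] [Fintype Q] in
theorem via_inj (e : P ↪ Q) {ψ ψ' : Perm P} (h : ψ.viaEmbedding e = ψ'.viaEmbedding e) :
    ψ = ψ' :=
  Equiv.ext fun p => e.injective (by
    rw [← Perm.viaEmbedding_apply, ← Perm.viaEmbedding_apply, h])

omit [Fintype Q] in
theorem via_out (e : P ↪ Q) (ψ : Perm P) {q : Q} (h : q ∉ univ.map e) :
    ψ.viaEmbedding e q = q :=
  Perm.viaEmbedding_apply_of_notMem _ _ _ (by simpa using h)

variable {A : Amb P} {B : Amb Q} {e : P ↪ Q}

theorem wv_iff (hty : ∀ p, B.ty (e p) = A.ty p) (ψ : Perm P) :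
    B.WV (ψ.viaEmbedding e) ↔ A.WV ψ := by
  constructor
  · intro h p
    have := h (e p)
    simpa only [Perm.viaEmbedding_apply, hty, e.injective.eq_iff] using this
  · intro h q
    by_cases hq : q ∈ univ.map e
    · obtain ⟨p, -, rfl⟩ := mem_map.1 hq
      simpa only [Perm.viaEmbedding_apply, hty, e.injective.eq_iff] using h p
    · simp [via_out e ψ hq]

theorem lnk_iff (hpi : ∀ p, B.π (e p) = e (A.π p)) (ψ : Perm P) (p p' : P) :
    Lnk B.π (ψ.viaEmbedding e) (e p) (e p') ↔ Lnk A.π ψ p p' := by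
  constructor
  · have key : ∀ q q', Lnk B.π (ψ.viaEmbedding e) q q' →
        ∀ p p', q = e p → q' = e p' → Lnk A.π ψ p p' := by
      intro q q' h
      induction h with
      | rel q q' h =>
        rintro p p' rfl rfl
        rw [hpi, Perm.viaEmbedding_apply] at h
        exact .rel _ _ (h.imp (fun h => e.injective h) fun h => e.injective h)
      | refl q =>
        rintro p p' rfl h
        rw [e.injective h]
        exact .refl _
      | symm q q' _ ih => exact fun p p' h1 h2 => .symm _ _ (ih p' p h2 h1)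
      | trans q r q' h1 _ ih1 ih2 =>
        rintro p p' rfl rfl
        have h3 := (Lnk.mem_of_closed (J := univ.map e) (fun q hq => by
          obtain ⟨p, -, rfl⟩ := mem_map.1 hq
          rw [hpi]; exact mem_map_of_mem _ (mem_univ _)) (fun q hq => by
          obtain ⟨p, -, rfl⟩ := mem_map.1 hq
          rw [Perm.viaEmbedding_apply]; exact mem_map_of_mem _ (mem_univ _)) h1).1
          (mem_map_of_mem _ (mem_univ _))
        obtain ⟨r', -, rfl⟩ := mem_map.1 h3
        exact .trans _ _ _ (ih1 _ _ rfl rfl) (ih2 _ _ rfl rfl)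
    exact fun h => key _ _ h p p' rfl rfl
  · intro h
    induction h with
    | rel q q' h =>
      refine .rel _ _ ?_
      rw [hpi, Perm.viaEmbedding_apply]
      exact h.imp (congrArg e) (congrArg e)
    | refl q => exact .refl _
    | symm q q' _ ih => exact .symm _ _ ih
    | trans q r q' _ _ ih1 ih2 => exact .trans _ _ _ ih1 ih2

theorem loc (hpi : ∀ p, B.π (e p) = e (A.π p)) (hty : ∀ p, B.ty (e p) = A.ty p)
    (hdt : ∀ p, e p ∈ B.dt ↔ p ∈ A.dt) (ψ : Perm P) (R : Rg P) :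
    Loc A ψ B (ψ.viaEmbedding e) e R :=
  ⟨fun p _ => hpi p, fun p _ => hty p, fun p _ => hdt p,
    fun p _ => Perm.viaEmbedding_apply _ _ p⟩

theorem pre_univ (A : Amb P) (ψ : Perm P) (I : Finset P) : A.Pre ψ (univ, I) :=
  ⟨fun _ _ => mem_univ _, subset_univ _, fun _ _ => mem_univ _⟩

theorem ts_iff (hA : A.U = univ) (hB : B.dt ⊆ B.U) (hU : B.U = univ.map e)
    (hpi : ∀ p, B.π (e p) = e (A.π p)) (hty : ∀ p, B.ty (e p) = A.ty p)
    (hdt : ∀ p, e p ∈ B.dt ↔ p ∈ A.dt) (ψ : Perm P) :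
    ψ.viaEmbedding e ∈ B.TS ↔ ψ ∈ A.TS := by
  simp only [Amb.TS, mem_filter, mem_univ, true_and]
  refine and_congr (and_congr (and_congr (wv_iff hty ψ) ?_) (and_congr ?_ ?_)) ?_
  · rw [hA, hU]
    refine ⟨fun h => ⟨fun p hp => absurd (mem_univ p) hp, fun p _ hp h0 => ?_⟩,
      fun h => ⟨fun q hq => via_out e ψ hq, fun q hq hp h0 => ?_⟩⟩
    · exact h.2 (e p) (mem_map_of_mem _ (mem_univ _)) (by rwa [hty])
        (by rw [Perm.viaEmbedding_apply, h0])
    · obtain ⟨p, -, rfl⟩ := mem_map.1 hq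
      rw [Perm.viaEmbedding_apply] at h0
      exact h.2 p (mem_univ _) (by rwa [← hty]) (e.injective h0)
  · unfold Amb.Conn
    rw [hA, hU]
    refine ⟨fun h p _ p' _ => (lnk_iff hpi ψ p p').1
      (h _ (mem_map_of_mem _ (mem_univ _)) _ (mem_map_of_mem _ (mem_univ _))),
      fun h q hq q' hq' => ?_⟩
    obtain ⟨p, -, rfl⟩ := mem_map.1 hq
    obtain ⟨p', -, rfl⟩ := mem_map.1 hq'
    exact (lnk_iff hpi ψ p p').2 (h _ (mem_univ _) _ (mem_univ _))
  · unfold Amb.Planar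
    rw [hA, hU, card_map, cin_map e (f := A.π) fun q _ => hpi q,
      cin_map e (f := ψ) fun q _ => Perm.viaEmbedding_apply _ _ q,
      cin_map e (f := A.π * ψ) fun q _ => by
        rw [Perm.mul_apply, Perm.viaEmbedding_apply, hpi, Perm.mul_apply]]
  · refine ⟨fun h R hR => h _ (((loc hpi hty hdt ψ R).div hR.1.1.1.2.1).2 hR), fun h T hT => ?_⟩
    have h1 : T.1 ⊆ univ.map e := hU ▸ hT.1.1.2.1.trans hB
    obtain ⟨S, -, rfl⟩ := exists_map_of_le (e := e) (R := (univ, univ)) (T := T)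
      ⟨h1, hT.1.1.1.2.1.trans h1⟩
    exact h S (((loc hpi hty hdt ψ S).div (map_subset_map.1 hT.1.1.1.2.1)).1 hT)

theorem emb_darts {A : Amb P} (hA : A.OK) {V : Finset P} (hV : V ⊆ A.dt)
    (hc : ∀ p ∈ V, A.π p ∈ V) : V.card = 2 * (V.filter fun p => A.ty p = true).card ∧
      ∃ e : Fin (V.filter fun p => A.ty p = true).card × Bool ↪ P,
      V = univ.map e ∧ (∀ p, A.π (e p) = e ((ambC _).π p)) ∧ ∀ p, A.ty (e p) = p.2 := by
  let f := (V.filter fun p => A.ty p = true).equivFin.symm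
  have f1 : ∀ i, (f i).1 ∈ V := fun i => (mem_filter.1 (f i).2).1
  have f2 : ∀ i, A.ty (f i).1 = true := fun i => (mem_filter.1 (f i).2).2
  let g : Fin (V.filter fun p => A.ty p = true).card × Bool → P :=
    fun p => if p.2 then (f p.1).1 else A.π (f p.1).1
  have g1 : ∀ p, A.ty (g p) = p.2 := by
    rintro ⟨i, _ | _⟩
    · simp [g, (hA.2.2 _ (hV (f1 i))).2.2, f2]
    · simp [g, f2]
  have gi : Function.Injective g := by
    rintro ⟨i, b⟩ ⟨j, c⟩ h
    obtain rfl : b = c := (g1 (i, b)).symm.trans ((congrArg A.ty h).trans (g1 (j, c)))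
    cases b
    · simp only [g, Bool.false_eq_true, if_false] at h
      rw [f.injective (Subtype.ext (A.π.injective h))]
    · simp only [g, if_true] at h
      rw [f.injective (Subtype.ext h)]
  have hV' : V = univ.map ⟨g, gi⟩ := by
    ext p
    simp only [mem_map, mem_univ, true_and, Function.Embedding.coeFn_mk]
    constructor
    · intro hp
      cases hp' : A.ty p
      · have h1 := hA.2.2 p (hV hp)
        refine ⟨(f.symm ⟨A.π p, mem_filter.2 ⟨hc p hp, by rw [h1.2.2, hp']; rfl⟩⟩, false), ?_⟩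
        simp [g, h1.2.1]
      · exact ⟨(f.symm ⟨p, mem_filter.2 ⟨hp, hp'⟩⟩, true), by simp [g]⟩
    · rintro ⟨⟨i, _ | _⟩, rfl⟩
      · exact hc _ (f1 i)
      · exact f1 i
  refine ⟨?_, ⟨g, gi⟩, hV', ?_, g1⟩
  · have := congrArg card hV'
    rw [card_map, card_univ, Fintype.card_prod, Fintype.card_fin, Fintype.card_bool] at this
    omega
  · rintro ⟨i, _ | _⟩
    · exact (hA.2.2 _ (hV (f1 i))).2.1
    · rfl

theorem val_finRotate {m : ℕ} (i : Fin m) : (finRotate m i).1 = (i.1 + 1) % m := by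
  cases m with
  | zero => exact i.elim0
  | succ k => simp [Fin.val_add]

omit [Fintype P] in
theorem cyc_get {f : Perm P} {l : List P} (h : IsCyc f l) {m : ℕ} (hm : m = l.length)
    (i : Fin m) : f (l[i.1]'(hm ▸ i.2)) = l[(finRotate m i).1]'(hm ▸ (finRotate m i).2) := by
  subst hm
  have := List.getElem_of_eq h.2 (i := i.1) (by simp)
  rw [List.getElem_map, List.getElem_rotate] at this
  simp only [this, val_finRotate]

omit [Fintype P] in
theorem cyc_ofFn {f : Perm P} {m : ℕ} (g : Fin m → P) (hg : Function.Injective g)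
    (h : ∀ i, f (g i) = g (finRotate m i)) : IsCyc f (List.ofFn g) := by
  refine ⟨List.nodup_ofFn.2 hg, List.ext_getElem (by simp) fun i h1 h2 => ?_⟩
  rw [List.getElem_map, List.getElem_rotate, List.getElem_ofFn, List.getElem_ofFn, h]
  congr 1
  ext
  rw [val_finRotate]
  simp only [List.length_ofFn]

theorem fact_mul [Algebra ℚ K] (n : ℕ) (a : K) :
    (n.factorial : K) * ((n.factorial : ℚ)⁻¹ • a) = a := by
  rw [← nsmul_eq_mul, ← Nat.cast_smul_eq_nsmul ℚ, smul_smul,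
    mul_inv_cancel₀ (Nat.cast_ne_zero.2 n.factorial_ne_zero), one_smul]

theorem fact_cancel [Algebra ℚ K] (n : ℕ) {a b : K}
    (h : (n.factorial : K) * a = (n.factorial : K) * b) : a = b := by
  rw [← fact_mul n a, ← fact_mul n b, mul_smul_comm, mul_smul_comm, h]

end TEmbA

open TEmbA

theorem TS_emb {A : Amb P} {B : Amb Q} (hA : A.U = univ) (hB : B.dt ⊆ B.U) (e : P ↪ Q)
    (hU : B.U = univ.map e) (hpi : ∀ p, B.π (e p) = e (A.π p)) (hty : ∀ p, B.ty (e p) = A.ty p)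
    (hdt : ∀ p, e p ∈ B.dt ↔ p ∈ A.dt) (c : Perm Q → Prop) :
    ∑ φ ∈ B.TS.filter c, B.wt φ x z B.U =
      ∑ ψ ∈ A.TS.filter (fun ψ => c (ψ.viaEmbedding e)), A.wt ψ x z A.U := by
  symm
  refine sum_bij (fun ψ _ => ψ.viaEmbedding e) (fun ψ h => ?_) (fun _ _ _ _ h => via_inj e h)
    (fun φ h => ?_) fun ψ _ => ?_
  · rw [mem_filter] at h ⊢
    exact ⟨(ts_iff hA hB hU hpi hty hdt ψ).2 h.1, h.2⟩
  · rw [mem_filter] at h
    obtain ⟨ψ, rfl⟩ := via_surj e φ (hU ▸ (mem_filter.1 h.1).2.1.1.2.1)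
    exact ⟨ψ, mem_filter.2 ⟨(ts_iff hA hB hU hpi hty hdt ψ).1 h.1, h.2⟩, rfl⟩
  · rw [hA, hU]
    exact ((loc hpi hty hdt ψ (univ, univ)).wt x z (pre_univ A ψ _)).symm

theorem T_emb {A : Amb P} {B : Amb Q} (hA : A.U = univ) (hB : B.dt ⊆ B.U) (e : P ↪ Q)
    (hU : B.U = univ.map e) (hpi : ∀ p, B.π (e p) = e (A.π p)) (hty : ∀ p, B.ty (e p) = A.ty p)
    (hdt : ∀ p, e p ∈ B.dt ↔ p ∈ A.dt) : B.T x z = A.T x z := by
  have := TS_emb x z hA hB e hU hpi hty hdt fun _ => True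
  rw [sum_filter, sum_filter] at this
  simp only [if_true] at this
  exact this

theorem G_emb {A : Amb P} {B : Amb Q} (e : P ↪ Q) (hpi : ∀ p, B.π (e p) = e (A.π p))
    (hty : ∀ p, B.ty (e p) = A.ty p) (hdt : ∀ p, e p ∈ B.dt ↔ p ∈ A.dt) (k : Fin 3)
    (u : List Bool) : B.G x z k (univ.map e) u = A.G x z k univ u := by
  symm
  have hs : ∀ (ψ : Perm P) (I : Finset P),
      skip (ψ.viaEmbedding e) (I.map e) = 1 ↔ skip ψ I = 1 := by
    intro ψ I
    have h1 := skip_map e (f := ψ) (g := ψ.viaEmbedding e)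
      (fun p => Perm.viaEmbedding_apply _ _ p) I
    refine ⟨fun h => Equiv.ext fun p => e.injective (by rw [← h1, h]; rfl),
      fun h => Equiv.ext fun q => ?_⟩
    by_cases hq : q ∈ univ.map e
    · obtain ⟨p, -, rfl⟩ := mem_map.1 hq
      rw [h1, h]; rfl
    · exact skip_fixed _ (via_out e ψ hq)
  refine sum_bij (fun c _ => (c.1.viaEmbedding e, c.2.map e)) (fun c h => ?_)
    (fun c _ c' _ h => ?_) (fun c h => ?_) fun c _ => ?_
  · simp only [Amb.CF, mem_filter, mem_univ, true_and] at h ⊢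
    exact ⟨(wv_iff hty _).2 h.1, fun q hq => via_out e _ hq, (hs _ _).2 h.2.2.1,
      map_subset_map.2 (subset_univ _)⟩
  · rw [Prod.mk.injEq] at h
    exact Prod.ext (via_inj e h.1) (map_injective e h.2)
  · obtain ⟨φ, J⟩ := c
    simp only [Amb.CF, mem_filter, mem_univ, true_and] at h
    obtain ⟨ψ, rfl⟩ := via_surj e φ h.2.1
    obtain ⟨I, -, rfl⟩ := subset_map_iff.1 h.2.2.2
    refine ⟨(ψ, I), ?_, rfl⟩
    simp only [Amb.CF, mem_filter, mem_univ, true_and]
    exact ⟨(wv_iff hty _).1 h.1, fun p hp => absurd trivial hp, (hs _ _).1 h.2.2.1, subset_univ _⟩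
  · have hl := loc hpi hty hdt c.1 (univ, c.2)
    have hb : ∀ p, (B.blist (c.1.viaEmbedding e) (univ.map e, c.2.map e) (e p)).map B.ty =
        (A.blist c.1 (univ, c.2) p).map A.ty := fun p => by
      have := hl.blist (pre_univ A c.1 c.2) (mem_univ p)
      refine (congrArg (List.map B.ty) this).trans ?_
      rw [List.map_map]
      exact List.map_congr_left fun q _ => hty q
    refine sum_bij (fun p _ => e p) (fun p h => ?_) (fun _ _ _ _ h => e.injective h)
      (fun q h => ?_) fun p _ => ?_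
    · simp only [mem_filter, mem_sdiff, mem_univ, true_and, mem_map', hb] at h ⊢
      exact h
    · obtain ⟨p, -, rfl⟩ := mem_map.1 (mem_sdiff.1 (mem_filter.1 h).1).1
      refine ⟨p, ?_, rfl⟩
      simp only [mem_filter, mem_sdiff, mem_univ, true_and, mem_map', hb] at h ⊢
      exact h
    · rw [← hl.co (subset_univ _) k, ← hl.wt x z (pre_univ A c.1 c.2)]
      rfl

/-- A `π`-closed set of dart ports is a copy of the standard set of darts. -/
theorem exists_emb_darts {A : Amb P} (hA : A.OK) {V : Finset P} (hV : V ⊆ A.dt)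
    (hc : ∀ p ∈ V, A.π p ∈ V) : ∃ n : ℕ, V.card = 2 * n ∧ ∃ e : Fin n × Bool ↪ P,
      V = univ.map e ∧ (∀ p, A.π (e p) = e ((ambC n).π p)) ∧ ∀ p, A.ty (e p) = p.2 := ⟨_, emb_darts hA hV hc⟩

theorem exists_emb_std {A : Amb P} {l₁ l₂ : List P} (h : A.LA l₁ l₂) {n : ℕ}
    (hn : A.dt.card = 2 * n) : ∃ e : SP (l₁.map A.ty) (l₂.map A.ty) n ↪ P,
      A.U = univ.map e ∧ (∀ p, A.π (e p) = e ((ambS _ _ n).π p)) ∧
      (∀ p, A.ty (e p) = (ambS _ _ n).ty p) ∧ (∀ p, e p ∈ A.dt ↔ p ∈ (ambS _ _ n).dt) ∧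
      ∀ p, e p ∈ l₂ ↔ ∃ j, p = .inl (.inr j) := by
  obtain ⟨hA, c1, c2, hd, hm⟩ := h
  obtain ⟨n', h1, d, hd1, hd2, hd3⟩ := exists_emb_darts hA (subset_refl _)
    fun p hp => (hA.2.2 p hp).1
  obtain rfl : n' = n := by omega
  let g : SP (l₁.map A.ty) (l₂.map A.ty) n' → P :=
    Sum.elim (Sum.elim (fun i => l₁[i.1]'(List.length_map A.ty ▸ i.2))
      (fun i => l₂[i.1]'(List.length_map A.ty ▸ i.2))) d
  have m1 : ∀ i, g (.inl (.inl i)) ∈ l₁ := fun i => List.getElem_mem _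
  have m2 : ∀ i, g (.inl (.inr i)) ∈ l₂ := fun i => List.getElem_mem _
  have m3 : ∀ i, g (.inr i) ∈ A.dt := fun i => hd1 ▸ mem_map_of_mem _ (mem_univ _)
  have n1 : ∀ p ∈ l₁, p ∉ A.dt := fun p hp => ((hm p).2 (.inl hp)).2
  have n2 : ∀ p ∈ l₂, p ∉ A.dt := fun p hp => ((hm p).2 (.inr hp)).2
  have gi : Function.Injective g := by
    rintro ((i | i) | i) ((j | j) | j) h
    · rw [Fin.ext ((List.Nodup.getElem_inj_iff c1.1).1 h)]
    · exact absurd (h ▸ m1 i) fun h' => hd h' (m2 j)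
    · exact absurd (m3 j) (h ▸ n1 _ (m1 i))
    · exact absurd (h ▸ m1 j) fun h' => hd h' (m2 i)
    · rw [Fin.ext ((List.Nodup.getElem_inj_iff c2.1).1 h)]
    · exact absurd (m3 j) (h ▸ n2 _ (m2 i))
    · exact absurd (m3 i) (h ▸ n1 _ (m1 j))
    · exact absurd (m3 i) (h ▸ n2 _ (m2 j))
    · rw [d.injective h]
  refine ⟨⟨g, gi⟩, ?_, ?_, ?_, ?_, ?_⟩
  · ext p
    simp only [mem_map, mem_univ, true_and, Function.Embedding.coeFn_mk]
    constructor
    · intro hp
      by_cases h2 : p ∈ A.dt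
      · obtain ⟨i, -, rfl⟩ := mem_map.1 (hd1 ▸ h2)
        exact ⟨.inr i, rfl⟩
      · rcases (hm p).1 ⟨hp, h2⟩ with h3 | h3 <;> obtain ⟨i, hi, rfl⟩ := List.getElem_of_mem h3
        · exact ⟨.inl (.inl ⟨i, by simpa using hi⟩), rfl⟩
        · exact ⟨.inl (.inr ⟨i, by simpa using hi⟩), rfl⟩
    · rintro ⟨(i | i) | i, rfl⟩
      exacts [((hm _).2 (.inl (m1 i))).1, ((hm _).2 (.inr (m2 i))).1, hA.2.1 (m3 i)]
  · rintro ((i | i) | i)
    exacts [cyc_get c1 (List.length_map _) i, cyc_get c2 (List.length_map _) i, hd2 i]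
  · rintro ((i | i) | i)
    exacts [(List.getElem_map A.ty).symm, (List.getElem_map A.ty).symm, hd3 i]
  · rintro ((i | i) | i)
    · exact iff_of_false (n1 _ (m1 i)) (by simp [ambS])
    · exact iff_of_false (n2 _ (m2 i)) (by simp [ambS])
    · exact iff_of_true (m3 i) (mem_map_of_mem _ (mem_univ _))
  · rintro ((i | i) | i)
    · exact iff_of_false (fun h' => hd (m1 i) h') (by simp)
    · exact iff_of_true (m2 i) ⟨i, rfl⟩
    · exact iff_of_false (fun h' => n2 _ h' (m3 i)) (by simp)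

theorem Nb_eq {A : Amb P} {l₁ l₂ : List P} (h : A.LA l₁ l₂) (hn : A.dt = ∅) :
    ∑ g ∈ A.TS.filter (fun g => ∀ p ∈ l₂, g p ∉ l₂), A.wt g x z A.U =
      Nb x z (l₁.map A.ty) (l₂.map A.ty) := by
  obtain ⟨e, h1, h2, h3, h4, h5⟩ := exists_emb_std h (n := 0) (by rw [hn]; rfl)
  have := TS_emb x z (A := ambS _ _ 0) rfl h.1.2.1 e h1 h2 h3 h4 fun g => ∀ p ∈ l₂, g p ∉ l₂
  refine Eq.trans ?_ (this.trans ?_)
  · exact sum_congr (filter_congr_decidable _ _ _).symm fun _ _ => rfl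
  refine sum_congr ?_ fun _ _ => rfl
  ext ψ
  simp only [mem_filter]
  refine and_congr_right fun _ => ⟨fun H j j' h0 => ?_, fun H p hp h0 => ?_⟩
  · refine H (e _) ((h5 _).2 ⟨j, rfl⟩) ?_
    rw [Perm.viaEmbedding_apply, h0]
    exact (h5 _).2 ⟨j', rfl⟩
  · obtain ⟨p', -, rfl⟩ := mem_map.1 (h1 ▸ ((h.2.2.2.2 p).2 (.inr hp)).1)
    rw [Perm.viaEmbedding_apply] at h0
    obtain ⟨j, rfl⟩ := (h5 _).1 hp
    obtain ⟨j', h6⟩ := (h5 _).1 h0
    exact H j j' h6

variable [Algebra ℚ K]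

theorem T_eq {A : Amb P} {l₁ l₂ : List P} (h : A.LA l₁ l₂) (hne : l₁ ≠ []) {n : ℕ}
    (hn : A.dt.card = 2 * n) :
    A.T x z = (n.factorial : K) * PowerSeries.coeff n (tau2 x z (l₁.map A.ty) (l₂.map A.ty)) :=
  by
  obtain ⟨e, h1, h2, h3, h4, -⟩ := exists_emb_std h hn
  rw [tau2, if_neg (by simpa using hne), PowerSeries.coeff_mk, fact_mul]
  exact T_emb x z (A := ambS _ _ n) rfl h.1.2.1 e h1 h2 h3 h4

theorem G_eq {A : Amb P} (hA : A.OK) {V : Finset P} (hV : V ⊆ A.dt) (hc : ∀ p ∈ V, A.π p ∈ V)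
    {n : ℕ} (hn : V.card = 2 * n) (k : Fin 3) (u : List Bool) :
    A.G x z k V u = (n.factorial : K) * PowerSeries.coeff n (gen x z k u) := by
  obtain ⟨n', h1, e, h2, h3, h4⟩ := exists_emb_darts hA hV hc
  obtain rfl : n' = n := by omega
  rw [gen, PowerSeries.coeff_mk, fact_mul, h2]
  exact G_emb x z (A := ambC n') e h3 h4
    (fun p => iff_of_true (hV (h2 ▸ mem_map_of_mem _ (mem_univ _))) (mem_univ _)) k u

theorem ambS_LA (w u : List Bool) (n : ℕ) : ∃ l₁ l₂ : List (SP w u n),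
    (ambS w u n).LA l₁ l₂ ∧ l₁.map (ambS w u n).ty = w ∧ l₂.map (ambS w u n).ty = u ∧
      (ambS w u n).dt.card = 2 * n ∧ (ambS w u n).U = univ := by
  refine ⟨List.ofFn fun i => .inl (.inl i), List.ofFn fun i => .inl (.inr i),
    ⟨⟨fun _ _ => mem_univ _, subset_univ _, fun p hp => ?_⟩,
      cyc_ofFn _ (fun i j h => by simpa using h) fun _ => rfl,
      cyc_ofFn _ (fun i j h => by simpa using h) fun _ => rfl, ?_, ?_⟩, ?_, ?_, ?_, rfl⟩
  · obtain ⟨⟨i, b⟩, -, rfl⟩ := mem_map.1 hp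
    refine ⟨mem_map_of_mem _ (mem_univ ((ambC n).π (i, b))), ?_, rfl⟩
    cases b <;> rfl
  · intro p h1 h2
    obtain ⟨i, rfl⟩ := List.mem_ofFn.1 h1
    simp at h2
  · rintro ((i | i) | i) <;> simp [ambS]
  · rw [List.map_ofFn]; exact List.ofFn_get w
  · rw [List.map_ofFn]; exact List.ofFn_get u
  · simp [ambS, mul_comm]

theorem tau2_rot (c : Bool) (w u : List Bool) : tau2 x z (w ++ [c]) u = tau2 x z (c :: w) u :=
  by
  ext n
  obtain ⟨l₁, l₂, h, h1, h2, h3, -⟩ := ambS_LA (c :: w) u n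
  have hne : l₁ ≠ [] := by rintro rfl; simp at h1
  have h' : (ambS (c :: w) u n).LA (l₁.rotate 1) l₂ :=
    ⟨h.1, h.2.1.rotate 1, h.2.2.1, fun p hp => h.2.2.2.1 (List.mem_rotate.1 hp), fun p => by
      rw [List.mem_rotate]; exact h.2.2.2.2 p⟩
  have e1 := T_eq x z h hne h3
  have e2 := T_eq x z h' (by simpa using hne) h3
  rw [List.map_rotate, h1, h2, List.rotate_cons_succ, List.rotate_zero] at e2
  rw [h1, h2] at e1
  exact fact_cancel n (e2.symm.trans e1)

theorem gen_rot (k : Fin 3) (c : Bool) (w : List Bool) : gen x z k (w ++ [c]) = gen x z k (c :: w) :=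
  by
  ext n
  rw [gen, gen, PowerSeries.coeff_mk, PowerSeries.coeff_mk]
  congr 1
  refine sum_congr rfl fun d _ => ?_
  by_cases h0 : (ambC n).co d.1 k (univ, d.2) = 0
  · simp [h0]
  have hD : (ambC n).Disc d.1 (univ, d.2) := by
    by_contra h1
    exact h0 (if_neg fun h => h1 h.1)
  symm
  refine sum_equiv ((ambC n).bet d.1 d.2) (fun p => ?_) fun _ _ => rfl
  have hm := fun q hq => Amb.bet_mem (x := q) hD.1.1 hq
  have hr := fun hp => (Amb.blist_spec (e := p) hD.1.1 hD.2.1 hD.2.2.1 hp).2.2.2.2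
  have hc : w ++ [c] = (c :: w).rotate 1 := by rw [List.rotate_cons_succ, List.rotate_zero]
  rw [mem_filter, mem_filter]
  refine ⟨fun h => ⟨hm p h.1, by rw [hr h.1, List.map_rotate, h.2, hc]⟩, fun h => ?_⟩
  have hp := Perm.perm_symm_on_of_perm_on_finset hm h.1
  erw [Equiv.symm_apply_apply] at hp
  refine ⟨hp, List.rotate_injective 1 ?_⟩
  have h2 := h.2
  rw [hr hp, List.map_rotate, hc] at h2
  exact h2

/-- The number of `π`-closed sets of dart ports of a given size. -/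
theorem sum_closed_sets {A : Amb P} (hA : A.OK) {D : Finset P} (hD : D ⊆ A.dt)
    (hc : ∀ p ∈ D, A.π p ∈ D) {n : ℕ} (hn : D.card = 2 * n) (f : ℕ → K) :
    ∑ V ∈ D.powerset.filter (fun V => ∀ p ∈ V, A.π p ∈ V), f (V.card / 2) =
      ∑ j ∈ range (n + 1), (n.choose j : K) * f j := by
  have h1 : (D.filter fun p => A.ty p = true).card = n := by
    have := (emb_darts hA hD hc).1
    omega
  have h2 := sum_powerset_apply_card f (x := D.filter fun p => A.ty p = true)
  simp only [h1, nsmul_eq_mul] at h2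
  rw [← h2]
  refine sum_nbij' (fun V => V.filter fun p => A.ty p = true) A.dv (fun V hV => ?_)
    (fun T hT => ?_) (fun V hV => ?_) (fun T hT => ?_) fun V hV => ?_
  · simp only [mem_filter, mem_powerset] at hV ⊢
    exact filter_subset_filter _ hV.1
  · simp only [mem_filter, mem_powerset] at hT ⊢
    have h3 : T ⊆ D := hT.trans (filter_subset _ _)
    refine ⟨fun p hp => ?_, fun p hp => ?_⟩
    · rcases Amb.mem_dv.1 hp with h | ⟨q, h, rfl⟩
      exacts [h3 h, hc q (h3 h)]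
    · rcases Amb.mem_dv.1 hp with h | ⟨q, h, rfl⟩
      · exact Amb.mem_dv.2 (.inr ⟨p, h, rfl⟩)
      · exact Amb.mem_dv.2 (.inl (by rwa [(hA.2.2 q (hD (h3 h))).2.1]))
  · simp only [mem_filter, mem_powerset] at hV
    ext p
    rw [Amb.mem_dv]
    refine ⟨?_, fun hp => ?_⟩
    · rintro (h | ⟨q, h, rfl⟩)
      exacts [(mem_filter.1 h).1, hV.2 q (mem_filter.1 h).1]
    · have h3 := hA.2.2 p (hD (hV.1 hp))
      cases hp' : A.ty p
      · exact .inr ⟨A.π p, mem_filter.2 ⟨hV.2 p hp, by rw [h3.2.2, hp']; rfl⟩, h3.2.1⟩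
      · exact .inl (mem_filter.2 ⟨hp, hp'⟩)
  · simp only [mem_powerset] at hT
    ext p
    rw [mem_filter, Amb.mem_dv]
    refine ⟨?_, fun hp => ⟨.inl hp, (mem_filter.1 (hT hp)).2⟩⟩
    rintro ⟨h | ⟨q, h, rfl⟩, h3⟩
    · exact h
    · have h4 := mem_filter.1 (hT h)
      rw [(hA.2.2 q (hD h4.1)).2.2, h4.2] at h3
      exact absurd h3 (by decide)
  · simp only [mem_filter, mem_powerset] at hV
    rw [(emb_darts hA (hV.1.trans hD) hV.2).1, Nat.mul_div_cancel_left _ two_pos]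

end Pool.Agent.P.MP_48bde8_co
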