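import Pool.Agent.P.MP_48bde8_co.MapD
import Pool.Agent.P.MP_48bde8_co.Contr
import Pool.Agent.P.MP_48bde8_co.TEmb

/-! Task GRP: grouping the contracted discs by their boundary words. -/

namespace Pool.Agent.P.MP_48bde8_co

open Equiv Finset PowerSeries
open scoped Classical

variable {P : Type} [Fintype P] {K : Type} [CommRing K] (x z : K)

theorem mem_words {u : List Bool} : u ∈ words ↔ 1 ≤ u.length ∧ u.length ≤ 3 := by
  rcases u with _ | ⟨a, _ | ⟨b, _ | ⟨c, _ | ⟨d, l⟩⟩⟩⟩
  · decide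
  · cases a <;> decide
  · cases a <;> cases b <;> decide
  · cases a <;> cases b <;> cases c <;> decide
  · simp [words, tails]

namespace Grp

theorem sum_words (g : List Bool → K) : (words.map g).sum = ∑ u ∈ words.toFinset, g u :=
  (List.sum_toFinset g (by decide)).symm

theorem co_ne {A : Amb P} {ψ : Perm P} {k : Fin 3} {R : Rg P} (h : A.co ψ k R ≠ 0) :
    A.Disc ψ R ∧ bd R ≤ 3 := by
  by_contra hc
  exact h (if_neg hc)

theorem co_one_ne {A : Amb P} {ψ : Perm P} {R : Rg P} (h : A.co ψ 1 R ≠ 0) : R.2 = ∅ := by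
  by_contra hc
  apply h
  unfold Amb.co
  split_ifs <;> rfl

theorem mem_CF {A : Amb P} {V : Finset P} {c : Perm P × Finset P} : c ∈ A.CF V ↔
    A.WV c.1 ∧ (∀ p, p ∉ V → c.1 p = p) ∧ skip c.1 c.2 = 1 ∧ c.2 ⊆ V := by
  rw [Amb.CF, mem_filter, and_iff_right (mem_univ _)]

theorem disc_one : (ambC 1).Disc 1 (univ, ∅) := by
  refine ⟨⟨⟨fun _ _ => mem_univ _, empty_subset _, fun _ _ => mem_univ _⟩, subset_rfl,
    fun _ h => absurd h (notMem_empty _)⟩, ⟨univ_nonempty, ?_⟩, ?_, ?_⟩
  · have h1 : (ambC 1).RL 1 (univ, ∅) (0, true) (0, false) :=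
      Relation.EqvGen.rel _ _ (Or.inl ⟨mem_univ _, rfl⟩)
    rintro ⟨i, a⟩ - ⟨j, b⟩ -
    rw [Subsingleton.elim i 0, Subsingleton.elim j 0]
    cases a <;> cases b
    · exact Relation.EqvGen.refl _
    · exact Relation.EqvGen.symm _ _ h1
    · exact h1
    · exact Relation.EqvGen.refl _
  · have h1 := two_mul_cin (ambC 1).π (I := univ) (fun _ _ => mem_univ _)
      (by rintro ⟨i, a⟩ -; cases a <;> rfl) (by rintro ⟨i, a⟩ -; cases a <;> simp [ambC])
    rw [card_univ, Fintype.card_prod, Fintype.card_fin, Fintype.card_bool] at h1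
    simp only [Amb.eps, cin_empty, card_empty]
    omega
  · simp [bd]

theorem G_one_gen (A : Amb P) (V : Finset P) (u : List Bool) : A.G x z 1 V u =
    ∑ e ∈ V, if (List.iterate A.π e V.card).map A.ty = u then (A.co 1 1 (V, ∅) : K) else 0 := by
  rw [Amb.G, Finset.sum_eq_single (1, ∅)]
  · have h2 : A.wt 1 x z ∅ = 1 := by
      simp only [Amb.wt, Amb.nv, Amb.nf, filter_empty, cin_empty, pow_zero, mul_one]
    simp only [h2, Amb.blist, bd, Amb.bet, clo, skip_empty, inv_one, mul_one, sdiff_empty,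
      sum_filter, zsmul_one]
  · intro c hc hne
    refine Finset.sum_eq_zero fun e _ => ?_
    by_cases h : A.co c.1 1 (V, c.2) = 0
    · rw [h, zero_smul]
    · have h1 : c.2 = ∅ := co_one_ne h
      have h2 := (mem_CF.1 hc).2.2.1
      rw [h1, skip_empty] at h2
      exact absurd (Prod.ext h2 h1) hne
  · intro hc
    refine absurd (mem_CF.2 ⟨fun p => ⟨rfl, fun _ => rfl⟩, fun _ _ => rfl, ?_, ?_⟩) hc
    · dsimp only
      rw [skip_empty]
    · exact empty_subset _

theorem co_one_of {A : Amb P} {V : Finset P} (h : A.Disc 1 (V, ∅)) (h2 : V.card ≤ 3) :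
    A.co 1 1 (V, ∅) = 1 := by
  unfold Amb.co
  rw [if_pos ⟨h, by simpa [bd] using h2⟩, if_pos rfl]
  rfl

theorem co_one_card {A : Amb P} {V : Finset P} (h : A.co 1 1 (V, ∅) ≠ 0) :
    1 ≤ V.card ∧ V.card ≤ 3 := by
  obtain ⟨h2, h3⟩ := co_ne h
  have h4 := h2.2.2.2
  simp only [bd, sdiff_empty] at h3 h4
  exact ⟨h4, h3⟩

theorem G_one (n : ℕ) (u : List Bool) : (ambC n).G x z 1 univ u =
    if n = 1 ∧ (u = [true, false] ∨ u = [false, true]) then 1 else 0 := by
  have hb : (univ : Finset (Fin n × Bool)).card = n * 2 := by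
    rw [card_univ, Fintype.card_prod, Fintype.card_fin, Fintype.card_bool]
  rw [G_one_gen]
  by_cases hn : n = 1
  · subst hn
    rw [co_one_of disc_one (by omega), hb]
    have h3 : ∀ e : Fin 1 × Bool,
        (List.iterate (ambC 1).π e (1 * 2)).map (ambC 1).ty = [e.2, !e.2] := fun e => rfl
    simp only [h3, Fintype.sum_prod_type, Fintype.sum_bool, Fin.sum_univ_one, Bool.not_true,
      Bool.not_false, true_and, Int.cast_one]
    by_cases h4 : u = [true, false]
    · simp [h4]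
    · by_cases h5 : u = [false, true]
      · simp [h5]
      · rw [if_neg fun h => h4 h.symm, if_neg fun h => h5 h.symm, if_neg (not_or.2 ⟨h4, h5⟩),
          add_zero]
  · have h1 : (ambC n).co 1 1 (univ, ∅) = 0 := by
      by_contra h
      have := co_one_card h
      omega
    rw [if_neg fun h => hn h.1, h1]
    simp

end Grp

open Grp

namespace Amb

variable {A : Amb P}

theorem G_group (k : Fin 3) (V : Finset P) (f : List Bool → K) :
    ∑ s ∈ A.CF V, A.co s.1 k (V, s.2) • (A.wt s.1 x z s.2 *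
        ∑ e ∈ V \ s.2, f ((A.blist s.1 (V, s.2) e).map A.ty)) =
      (words.map fun u => A.G x z k V u * f u).sum := by
  rw [sum_words]
  simp only [G, Finset.sum_mul]
  rw [Finset.sum_comm]
  refine Finset.sum_congr rfl fun s _ => ?_
  by_cases h : A.co s.1 k (V, s.2) = 0
  · simp only [h, zero_smul, zero_mul, Finset.sum_const_zero]
  · obtain ⟨h1, h2⟩ := co_ne h
    rw [← Finset.sum_fiberwise_of_maps_to (t := words.toFinset)
      (g := fun e => (A.blist s.1 (V, s.2) e).map A.ty), Finset.mul_sum, Finset.smul_sum]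
    · refine Finset.sum_congr rfl fun u _ => ?_
      rw [Finset.mul_sum, Finset.smul_sum]
      refine Finset.sum_congr rfl fun e he => ?_
      rw [(Finset.mem_filter.1 he).2, smul_mul_assoc]
    · intro e he
      have h3 := (blist_spec h1.1.1 h1.2.1 h1.2.2.1 (e := e) he).2.2.1
      rw [List.mem_toFinset, mem_words, List.length_map, h3]
      exact ⟨h1.2.2.2, h2⟩

/-- Rewriting a sum over all regions as a sum over closed sets of darts and internal steps. -/
theorem sum_regions (k : Fin 3) (ψ : Perm P) {D : Finset P} (c : Rg P → Prop) (y : K)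
    (hD : ∀ R, A.Reg ψ R → c R → R.1 ⊆ D) :
    ∑ R : Rg P, (if c R then A.co ψ k R • y else 0) =
      ∑ V ∈ D.powerset.filter (fun V => ∀ p ∈ V, A.π p ∈ V), ∑ I ∈ V.powerset,
        if c (V, I) then A.co ψ k (V, I) • y else 0 := by
  have h1 : ∀ R : Rg P, ¬ (A.Reg ψ R ∧ c R) → (if c R then A.co ψ k R • y else 0) = 0 := by
    intro R h
    by_cases h2 : c R
    · have h3 : A.co ψ k R = 0 := by
        by_contra h3
        exact h ⟨(co_ne h3).1.1, h2⟩
      rw [if_pos h2, h3, zero_smul]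
    · exact if_neg h2
  rw [Fintype.sum_prod_type, ← Finset.sum_subset (Finset.subset_univ
    (D.powerset.filter (fun V => ∀ p ∈ V, A.π p ∈ V)))]
  · refine Finset.sum_congr rfl fun V _ => (Finset.sum_subset (Finset.subset_univ _) ?_).symm
    exact fun I _ hI => h1 _ fun h => hI (Finset.mem_powerset.2 h.1.1.2.1)
  · exact fun V _ hV => Finset.sum_eq_zero fun I _ => h1 _ fun h =>
      hV (Finset.mem_filter.2 ⟨Finset.mem_powerset.2 (hD _ h.1 h.2), h.1.1.1⟩)

/-- The outer cycles and the number of darts after a contraction. -/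
theorem con_ports (hA : A.OK) {ρ : Perm P} {V I : Finset P} (hc : (ρ, I) ∈ A.CF V)
    (hD : A.Disc ρ (V, I)) {e : P} (he : e ∈ V \ I) :
    (A.red ρ V I).OK ∧ (A.red ρ V I).dt.card + V.card = A.dt.card ∧
      (∃ l, A.blist ρ (V, I) e = e :: l) ∧ (∀ p ∈ A.blist ρ (V, I) e, p ∈ A.dt) ∧
      ∀ p, (p ∈ (A.red ρ V I).U ∧ p ∉ (A.red ρ V I).dt) ↔
        ((p ∈ A.U ∧ p ∉ A.dt) ∨ p ∈ A.blist ρ (V, I) e) := by
  obtain ⟨-, hfix, -, hI⟩ := mem_CF.1 hc
  have hV : V ⊆ A.dt := hD.1.2.1
  obtain ⟨-, h1, -, h2, -⟩ := blist_spec hD.1.1 hD.2.1 hD.2.2.1 (e := e) he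
  have h3 : ∀ p, p ∈ A.blist ρ (V, I) e ↔ p ∈ V ∧ p ∉ I := fun p => by
    rw [← List.mem_toFinset, h1, Finset.mem_sdiff]
  refine ⟨red_ok hA hD.1.1.1 (fun p hp => ?_) (fun p hp => hfix p (Finset.mem_sdiff.1 hp).2)
    (Finset.disjoint_left.2 fun p hp hp' => (Finset.mem_sdiff.1 hp').2 (hI hp)),
    Finset.card_sdiff_add_card_eq_card hV, List.head?_eq_some_iff.1 h2,
    fun p hp => hV ((h3 p).1 hp).1, fun p => ?_⟩
  · by_cases h4 : ρ p ∈ V
    · exact hA.2.1 (hV h4)
    · have h5 : ρ p = p := ρ.injective (hfix _ h4)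
      rwa [h5]
  · simp only [red, Finset.mem_sdiff, h3]
    have h4 : p ∈ I → p ∈ V := fun h => hI h
    have h5 : p ∈ V → p ∈ A.dt := fun h => hV h
    have h6 : p ∈ A.dt → p ∈ A.U := fun h => hA.2.1 h
    tauto

variable [Algebra ℚ K]

theorem conv_sum (hA : A.OK) {D : Finset P} (hD : D ⊆ A.dt) (hc : ∀ p ∈ D, A.π p ∈ D) {n : ℕ}
    (hn : D.card = 2 * n) (k : Fin 3) (f : List Bool → ℕ → K) :
    ∑ V ∈ D.powerset.filter (fun V => ∀ p ∈ V, A.π p ∈ V),
        (words.map fun u => A.G x z k V u * f u (V.card / 2)).sum =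
      (words.map fun u => ∑ j ∈ range (n + 1),
        ((n.choose j * j.factorial : ℕ) : K) * coeff j (gen x z k u) * f u j).sum := by
  simp only [sum_words]
  rw [Finset.sum_comm]
  refine Finset.sum_congr rfl fun u _ => ?_
  have h1 := sum_closed_sets hA hD hc hn
    fun j => (j.factorial : K) * coeff j (gen x z k u) * f u j
  simp only [Nat.cast_mul, mul_assoc] at h1 ⊢
  rw [← h1]
  refine Finset.sum_congr rfl fun V hV => ?_
  rw [Finset.mem_filter, Finset.mem_powerset] at hV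
  obtain ⟨j, hj, -⟩ := exists_emb_darts hA (hV.1.trans hD) hV.2
  rw [G_eq x z hA (hV.1.trans hD) hV.2 hj, hj, Nat.mul_div_cancel_left j two_pos, mul_assoc]

end Amb

variable [Algebra ℚ K]

theorem gen_const (k : Fin 3) (u : List Bool) : constantCoeff (gen x z k u) = 0 := by
  rw [← coeff_zero_eq_constantCoeff_apply, gen, coeff_mk, Amb.G, Finset.sum_eq_zero, smul_zero]
  exact fun c _ => Finset.sum_eq_zero fun e _ => e.1.elim0

theorem gen_one (u : List Bool) :
    gen x z 1 u = if u = [true, false] ∨ u = [false, true] then X else 0 := by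
  ext n
  rw [gen, coeff_mk, G_one]
  by_cases h : u = [true, false] ∨ u = [false, true]
  · rw [if_pos h, coeff_X]
    by_cases hn : n = 1
    · simp [hn, h]
    · simp [hn]
  · simp [h]

end Pool.Agent.P.MP_48bde8_co
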