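import Pool.Agent.P.MP_48bde8_co.KapAux2

/-! Classification of rooted featureless discs. -/

namespace Pool.Agent.P.MP_48bde8_co.Kap

open Equiv Finset

variable {m n : ℕ}

/-- Ports of a list of darts. -/
def lf (v : Fin m → Pt n) (q : Pt m) : Pt n := cond q.2 ((ambC n).π (v q.1)) (v q.1)

@[simp] theorem lf_true (v : Fin m → Pt n) (i : Fin m) : lf v (i, true) = (ambC n).π (v i) := rfl

@[simp] theorem lf_false (v : Fin m → Pt n) (i : Fin m) : lf v (i, false) = v i := rfl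

theorem pi_pi (p : Pt n) : (ambC n).π ((ambC n).π p) = p := by
  obtain ⟨i, c⟩ := p
  simp

theorem pi_snd (p : Pt n) : ((ambC n).π p).2 = !p.2 := rfl

/-- `t` is a copy of the model `(ρ₀, I₀)` with some root. -/
def Cp (t : Tri n) (ρ₀ : Perm (Pt m)) (I₀ : Finset (Pt m)) : Prop :=
  ∃ g : Fin m ≃ Fin n, ∃ e, e ∉ I₀ ∧ t = tr g (ρ₀, I₀, e)

theorem model {ρ : Perm (Pt n)} {I : Finset (Pt n)} {r : Pt n} (hs : skip ρ I = 1) (he : r ∉ I)
    (v : Fin m → Pt n)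
    (h1 : ∀ i, (v i).2 = false) (h2 : (List.ofFn v).Nodup)
    (h3 : ∀ p, ∃ j, v j = p ∨ (ambC n).π (v j) = p) {ρ₀ : Perm (Pt m)} {I₀ : Finset (Pt m)}
    (h₀ : skip ρ₀ I₀ = 1) (hI : ∀ p, p ∈ I ↔ ∃ q ∈ I₀, lf v q = p)
    (h4 : ∀ q ∈ I₀, ρ (lf v q) = lf v (ρ₀ q)) : Cp (ρ, I, r) ρ₀ I₀ := by
  obtain ⟨g, hg⟩ := mk_equiv v h1 (List.nodup_ofFn.1 h2) fun i => by
    obtain ⟨j, h | h⟩ := h3 (i, false)
    · exact ⟨j, h⟩
    · have := congrArg Prod.snd h
      rw [pi_snd, h1] at this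
      simp at this
  have e : ∀ q, lf v q = E g q := fun ⟨i, c⟩ => by cases c <;> simp [hg]
  have hI' : ∀ p, E g p ∈ I ↔ p ∈ I₀ := fun p => by simp [hI, e]
  refine ⟨g, _, fun h => he ?_, iso_of (t := (ρ, I, r)) g h₀ hs hI' fun p hp => by
    rw [← e, ← e]; exact h4 p hp⟩
  simpa using (hI' _).2 h

section Cases

variable {ρ : Perm (Pt n)} {I : Finset (Pt n)} {e b : Pt n}

theorem wv_snd (h : (ambC n).WV ρ) (p : Pt n) : (ρ p).2 = p.2 := (h p).1

theorem al_snd (h : (ambC n).WV ρ) (p : Pt n) : ((ambC n).al ρ p).2 = p.2 := by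
  rw [Amb.al, pi_snd, wv_snd h, pi_snd, Bool.not_not]

theorem nx_snd (h : (ambC n).WV ρ) (p : Pt n) : ((ambC n).nx ρ p).2 = p.2 := by
  rw [Amb.nx, al_snd h, wv_snd h]

theorem st1 (p : Pt n) : ρ ((ambC n).π p) = (ambC n).π ((ambC n).al ρ p) := by
  rw [Amb.al, pi_pi]

theorem st2 (h : (ambC n).WV ρ) {p : Pt n} (hp : p.2 = false) :
    ρ ((ambC n).π ((ambC n).al ρ p)) = (ambC n).π p := by
  rw [← st1]
  exact (h _).2 (by rw [ty_apply, pi_snd, hp]; rfl)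

theorem split_eq {R : Rg (Pt n)} (hR : (univ, I) = R) : (∀ p, p ∈ R.1) ∧ ∀ p, p ∈ I ↔ p ∈ R.2 := by
  subst hR
  exact ⟨mem_univ, fun _ => Iff.rfl⟩

theorem case1 (h : In (ambC n) ρ I) (he : e ∉ I) (hb : b.2 = false)
    (hR : (univ, I) = (ambC n).rT b) : Cp (ρ, I, e) ρ1 I1 := by
  obtain ⟨h1, h2⟩ := split_eq hR
  refine model h.2.1 he ![b] (by simpa using hb) (by simp) (fun p => ?_) in1.1.2.1 (fun p => ?_)
    (fun q hq => absurd hq (notMem_empty q))
  · have := h1 p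
    simp only [Amb.rT, Amb.mem_dv, mem_singleton, exists_eq_left] at this
    simpa [eq_comm] using this
  · rw [h2]
    simp [Amb.rT, I1]

theorem case2 (h : In (ambC n) ρ I) (he : e ∉ I) (hb : b.2 = false) (hi : (ambC n).π b ∈ I)
    (hR : (univ, I) = (ambC n).rQ ρ b) : Cp (ρ, I, e) ρ2 I2 := by
  obtain ⟨h1, h2⟩ := split_eq hR
  have h3 := (Amb.edge_facts (ambC_OK n) h.1 h.2.2.1.1 (mem_univ b) hb hi).2.2.2.2.2.1
  refine model h.2.1 he ![b, (ambC n).al ρ b] (by simp [Fin.forall_fin_succ, al_snd h.1, hb])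
    (by simpa using h3.symm) (fun p => ?_) in2.1.2.1 (fun p => ?_) ?_
  · have := h1 p
    simp only [Amb.rQ, Amb.mem_dv, mem_singleton, mem_insert, exists_eq_or_imp,
      exists_eq_left] at this
    simp only [Fin.exists_fin_succ, Matrix.cons_val_zero, Matrix.cons_val_succ, @eq_comm _ _ p]
      at this ⊢
    tauto
  · rw [h2]
    simp [Amb.rQ, I2, eq_comm]
  · simp only [I2, mem_insert, mem_singleton, forall_eq_or_imp, forall_eq]
    exact ⟨st1 b, st2 h.1 hb⟩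

theorem case3 (h : In (ambC n) ρ I) (he : e ∉ I) (hb : b.2 = false) (hn : b ≠ ρ b)
    (hR : (univ, I) = (ambC n).rS ρ b) : Cp (ρ, I, e) ρ3 I3 := by
  obtain ⟨h1, h2⟩ := split_eq hR
  refine model h.2.1 he ![b, ρ b] (by simp [Fin.forall_fin_succ, wv_snd h.1, hb])
    (by simpa using hn) (fun p => ?_) in3.1.2.1 (fun p => ?_) ?_
  · have := h1 p
    simp only [Amb.rS, Amb.mem_dv, mem_singleton, mem_insert, exists_eq_or_imp,
      exists_eq_left] at this
    simp only [Fin.exists_fin_succ, Matrix.cons_val_zero, Matrix.cons_val_succ, @eq_comm _ _ p]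
      at this ⊢
    tauto
  · rw [h2]
    simp [Amb.rS, I3, eq_comm]
  · simp only [I3, mem_singleton, forall_eq]
    rfl

theorem case4 (h : In (ambC n) ρ I) (he : e ∉ I) (hb : b.2 = false)
    (hn : [b, ρ b, (ambC n).nx ρ b].Nodup)
    (hR : (univ, I) = (ambC n).rS ρ b ⊔ (ambC n).rQ ρ (ρ b)) : Cp (ρ, I, e) ρ4 I4 := by
  obtain ⟨h1, h2⟩ := split_eq hR
  refine model h.2.1 he ![b, ρ b, (ambC n).nx ρ b]
    (by simp [Fin.forall_fin_succ, wv_snd h.1, nx_snd h.1, hb])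
    (by simpa using hn) (fun p => ?_) in4.1.2.1 (fun p => ?_) ?_
  · have := h1 p
    simp only [Amb.rS, Amb.rQ, Prod.fst_sup, sup_eq_union, mem_union, Amb.mem_dv, mem_singleton,
      mem_insert, exists_eq_or_imp, exists_eq_left] at this
    simp only [Fin.exists_fin_succ, Matrix.cons_val_zero, Matrix.cons_val_succ, @eq_comm _ _ p,
      Amb.nx] at this ⊢
    tauto
  · rw [h2]
    simp [Amb.rS, Amb.rQ, I4, Amb.nx, eq_comm]
  · simp only [I4, mem_insert, mem_singleton, forall_eq_or_imp, forall_eq]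
    exact ⟨rfl, st1 _, st2 h.1 ((wv_snd h.1 b).trans hb)⟩

theorem case5 (h : In (ambC n) ρ I) (he : e ∉ I) (hb : b.2 = false)
    (hn : [b, ρ b, (ambC n).al ρ b].Nodup)
    (hR : (univ, I) = (ambC n).rS ρ b ⊔ (ambC n).rQ ρ b) : Cp (ρ, I, e) ρ5 I5 := by
  obtain ⟨h1, h2⟩ := split_eq hR
  refine model h.2.1 he ![b, ρ b, (ambC n).al ρ b]
    (by simp [Fin.forall_fin_succ, wv_snd h.1, al_snd h.1, hb])
    (by simpa using hn) (fun p => ?_) in5.1.2.1 (fun p => ?_) ?_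
  · have := h1 p
    simp only [Amb.rS, Amb.rQ, Prod.fst_sup, sup_eq_union, mem_union, Amb.mem_dv, mem_singleton,
      mem_insert, exists_eq_or_imp, exists_eq_left] at this
    simp only [Fin.exists_fin_succ, Matrix.cons_val_zero, Matrix.cons_val_succ, @eq_comm _ _ p]
      at this ⊢
    tauto
  · rw [h2]
    simp [Amb.rS, Amb.rQ, I5, eq_comm]
  · simp only [I5, mem_insert, mem_singleton, forall_eq_or_imp, forall_eq]
    exact ⟨rfl, st1 _, st2 h.1 hb⟩

theorem case6 (h : In (ambC n) ρ I) (he : e ∉ I) (hb : b.2 = false)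
    (hn : [b, ρ b, (ambC n).al ρ b, (ambC n).nx ρ b].Nodup)
    (hR : (univ, I) = (ambC n).rS ρ b ⊔ (ambC n).rQ ρ b ⊔ (ambC n).rQ ρ (ρ b)) :
    Cp (ρ, I, e) ρ6 I6 := by
  obtain ⟨h1, h2⟩ := split_eq hR
  refine model h.2.1 he ![b, ρ b, (ambC n).al ρ b, (ambC n).nx ρ b]
    (by simp [Fin.forall_fin_succ, wv_snd h.1, al_snd h.1, nx_snd h.1, hb])
    (by simpa using hn) (fun p => ?_) in6.1.2.1 (fun p => ?_) ?_
  · have := h1 p
    simp only [Amb.rS, Amb.rQ, Prod.fst_sup, sup_eq_union, mem_union, Amb.mem_dv, mem_singleton,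
      mem_insert, exists_eq_or_imp, exists_eq_left] at this
    simp only [Fin.exists_fin_succ, Matrix.cons_val_zero, Matrix.cons_val_succ, @eq_comm _ _ p,
      Amb.nx] at this ⊢
    tauto
  · rw [h2]
    simp only [Amb.rS, Amb.rQ, I6, Amb.nx, Prod.snd_sup, sup_eq_union, mem_union, mem_singleton,
      mem_insert, exists_eq_or_imp, exists_eq_left, lf_true, lf_false, @eq_comm _ _ p]
    simp only [Matrix.cons_val, or_assoc]
  · simp only [I6, mem_insert, mem_singleton, forall_eq_or_imp, forall_eq]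
    exact ⟨rfl, st1 _, st2 h.1 hb, st1 _, st2 h.1 ((wv_snd h.1 b).trans hb)⟩

theorem case7 (h : In (ambC n) ρ I) (he : e ∉ I) (hn : (ambC n).TriAt ρ b)
    (hR : (univ, I) = (ambC n).rTri ρ b) : Cp (ρ, I, e) ρ7 I7 := by
  obtain ⟨h1, h2⟩ := split_eq hR
  obtain ⟨r1, r2, r3, -⟩ := Amb.rTri_spec (ambC_OK n) h.1 hn fun p _ => mem_univ p
  have hb : b.2 = false := hn.1
  refine model h.2.1 he ![b, ρ b, (ambC n).nx ρ b, ρ ((ambC n).nx ρ b),
      (ambC n).nx ρ ((ambC n).nx ρ b), ρ ((ambC n).nx ρ ((ambC n).nx ρ b))]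
    (by simp [Fin.forall_fin_succ, wv_snd h.1, nx_snd h.1, hb])
    (by simpa using hn.2.2) (fun p => ?_) in7.1.2.1 (fun p => ?_) ?_
  · have := h1 p
    rw [r1] at this
    simp only [Amb.mem_dv, mem_singleton, mem_insert, exists_eq_or_imp, exists_eq_left] at this
    simp only [Fin.exists_fin_succ, Matrix.cons_val_zero, Matrix.cons_val_succ, @eq_comm _ _ p]
      at this ⊢
    tauto
  · rw [h2, r2]
    simp only [I7, mem_singleton, mem_insert, exists_eq_or_imp, exists_eq_left, lf_true, lf_false,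
      @eq_comm _ _ p]
    simp only [Matrix.cons_val]
  · simp only [I7, mem_insert, mem_singleton, forall_eq_or_imp, forall_eq]
    refine ⟨rfl, rfl, rfl, (st1 b).trans (congrArg _ r3), st1 _,
      st2 h.1 ((wv_snd h.1 b).trans hb), st1 _,
      st2 h.1 (by rw [wv_snd h.1, nx_snd h.1, hb]), ?_⟩
    exact (congrArg (fun q => ρ ((ambC n).π q)) r3.symm).trans (st2 h.1 hb)

theorem sup_inst {P : Type} {i j : DecidableEq P} (R S : Finset P × Finset P) :
    (letI := i; R ⊔ S) = (letI := j; R ⊔ S) := by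
  rw [Subsingleton.elim i j]

theorem classify (h : In (ambC n) ρ I) (he : e ∉ I) :
    Cp (ρ, I, e) ρ1 I1 ∨ Cp (ρ, I, e) ρ2 I2 ∨ Cp (ρ, I, e) ρ3 I3 ∨ Cp (ρ, I, e) ρ4 I4 ∨
      Cp (ρ, I, e) ρ5 I5 ∨ Cp (ρ, I, e) ρ6 I6 ∨ Cp (ρ, I, e) ρ7 I7 := by
  have h2 := Amb.flat_two_le (ambC_OK n) h.1 h.2.2.1 h.2.2.2.2
  rcases Nat.eq_or_lt_of_le h2 with h3 | h3
  · obtain ⟨b, -, hb, hR | ⟨hi, hR⟩⟩ := Amb.flat_two (ambC_OK n) h.1 h.2.2.1 h.2.2.2.2 h3.symm
    · exact .inl (case1 h he hb hR)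
    · exact .inr (.inl (case2 h he hb hi hR))
  · obtain ⟨b, -, hb, hR | hR | hR | hR | hR⟩ :=
      Amb.flat_three (ambC_OK n) h.1 h.2.2.1 h.2.2.2.2 (le_antisymm h.2.2.2.1 h3)
    · exact .inr (.inr (.inl (case3 h he hb hR.1 hR.2)))
    · exact .inr (.inr (.inr (.inl (case4 h he hb hR.1 (hR.2.trans (sup_inst _ _))))))
    · exact .inr (.inr (.inr (.inr (.inl (case5 h he hb hR.1 (hR.2.trans (sup_inst _ _)))))))
    · exact .inr (.inr (.inr (.inr (.inr (.inl (case6 h he hb hR.1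
        (hR.2.trans ((sup_inst _ _).trans (congrArg (· ⊔ _) (sup_inst _ _))))) )))))
    · exact .inr (.inr (.inr (.inr (.inr (.inr (case7 h he hR.1 hR.2))))))

end Cases

/-- `t` is a copy of the rooted model `s`. -/
def Rt (t : Tri n) (s : Tri m) : Prop := ∃ g : Fin m ≃ Fin n, t = tr g s

theorem Rt.card {t : Tri n} {s : Tri m} (h : Rt t s) : n = m := by
  obtain ⟨g, -⟩ := h
  simpa using (Fintype.card_congr g).symm

theorem wd_of {u : List Bool} {ρ₀ : Perm (Pt m)} {I₀ : Finset (Pt m)} {e : Pt m}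
    {g : Fin m ≃ Fin n} (h₀ : In (ambC m) ρ₀ I₀) (h : tr g (ρ₀, I₀, e) ∈ TT (ambC n) u) :
    u = wd (ambC m) ρ₀ I₀ e :=
  ((mem_TT.1 h).2.2.symm).trans (wd_tr g h₀ e)

theorem master {u : List Bool} {t : Tri n} (h : t ∈ TT (ambC n) u) :
    (u = [true, false] ∧ Rt t (ρ1, I1, (0, true))) ∨
    (u = [false, false] ∧ Rt t (ρ2, I2, (0, false))) ∨
    (u = [true, true, false] ∧ Rt t (ρ3, I3, (0, true))) ∨
    (u = [true, false, false] ∧ (Rt t (ρ4, I4, (0, true)) ∨ Rt t (ρ5, I5, (1, true)))) ∨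
    (u = [false, false, false] ∧ ((∃ e, e ∉ I6 ∧ Rt t (ρ6, I6, e)) ∨ Rt t (ρ7, I7, (1, false)))) ∨
    u ∈ [[false, true], [true, false, true], [false, true, true], [false, false, true],
      [false, true, false]] := by
  obtain ⟨ρ, I, r⟩ := t
  have h' := mem_TT.1 h
  rcases classify h'.1 h'.2.1 with ⟨g, e, he, ht⟩ | ⟨g, e, he, ht⟩ | ⟨g, e, he, ht⟩ |
    ⟨g, e, he, ht⟩ | ⟨g, e, he, ht⟩ | ⟨g, e, he, ht⟩ | ⟨g, e, he, ht⟩ <;> rw [ht] at h ⊢
  · have hu := wd_of in1.1 h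
    have : e = (0, true) ∨ e = (0, false) := by clear h ht hu; revert e; decide
    rcases this with rfl | rfl <;> rw [wd1] at hu
    · exact .inl ⟨hu, g, rfl⟩
    · simp [hu]
  · obtain ⟨g', hg⟩ := root2 he
    exact .inr (.inl ⟨(wd_of in2.1 h).trans (wd2 he), g'.trans g, by rw [hg, tr_trans]⟩)
  · have hu := wd_of in3.1 h
    have : e = (0, true) ∨ e = (1, true) ∨ e = (1, false) := by clear h ht hu; revert e; decide
    rcases this with rfl | rfl | rfl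
    · exact .inr (.inr (.inl ⟨hu.trans wd3.1, g, rfl⟩))
    · simp [hu, wd3.2.1]
    · simp [hu, wd3.2.2]
  · have hu := wd_of in4.1 h
    have : e = (0, true) ∨ e = (2, false) ∨ e = (1, false) := by clear h ht hu; revert e; decide
    rcases this with rfl | rfl | rfl
    · exact .inr (.inr (.inr (.inl ⟨hu.trans wd4.1, .inl ⟨g, rfl⟩⟩)))
    · simp [hu, wd4.2.1]
    · simp [hu, wd4.2.2]
  · have hu := wd_of in5.1 h
    have : e = (1, true) ∨ e = (1, false) ∨ e = (2, false) := by clear h ht hu; revert e; decide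
    rcases this with rfl | rfl | rfl
    · exact .inr (.inr (.inr (.inl ⟨hu.trans wd5.1, .inr ⟨g, rfl⟩⟩)))
    · simp [hu, wd5.2.1]
    · simp [hu, wd5.2.2]
  · exact .inr (.inr (.inr (.inr (.inl ⟨(wd_of in6.1 h).trans (wd6 he), .inl ⟨e, he, g, rfl⟩⟩))))
  · obtain ⟨g', hg⟩ := root7 he
    exact .inr (.inr (.inr (.inr (.inl ⟨(wd_of in7.1 h).trans (wd7 he),
      .inr ⟨g'.trans g, by rw [hg, tr_trans]⟩⟩))))

end Pool.Agent.P.MP_48bde8_co.Kap
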