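import Pool.Agent.P.MP_48bde8_co.Flat
import Pool.Agent.P.MP_48bde8_co.TEmb
import Pool.Agent.P.MP_48bde8_co.KapAux3

/-! Task KAP: labelled count of the featureless discs. -/

namespace Pool.Agent.P.MP_48bde8_co

open Equiv Finset PowerSeries
open scoped Classical

variable {K : Type} [CommRing K] [Algebra ℚ K] (x z : K)

namespace Kap

theorem gen_zero {u : List Bool} (h : ∀ n, ∀ t, t ∉ TT (ambC n) u) : gen x z 2 u = 0 := by
  ext n
  rw [coeff_gen_zero x z (h n), map_zero]

theorem gen_one {u : List Bool} {m : ℕ} {ρ : Perm (Pt m)} {I : Finset (Pt m)} {e : Pt m}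
    (hc : Chk ρ I 0) (hi : In (ambC m) ρ I ∧ cin ((ambC m).π * ρ) I = 0) (he : e ∉ I)
    (hw : wd (ambC m) ρ I e = u) (h : ∀ n, ∀ t ∈ TT (ambC n) u, Rt t (ρ, I, e)) :
    gen x z 2 u = X ^ m := by
  ext n
  rw [coeff_X_pow]
  split_ifs with hn
  · subst hn
    rw [coeff_gen_one x z (ρ, I, e) (mem_TT.2 ⟨hi.1, he, hw⟩) (h n), wt_model x z hc hi.2,
      pow_zero]
  · exact coeff_gen_zero x z fun t ht => hn (h n t ht).card

theorem tr_pi {n : ℕ} {g : Fin n ≃ Fin n} {s s' : Tri n} (h : tr g s = s') (p : Pt n) :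
    E g p ∈ s'.2.1 ↔ p ∈ s.2.1 := by
  subst h
  simp [tr]

end Kap

open Kap

theorem kap_A : gen x z 2 [true] = 0 := gen_zero x z fun _ _ h => by simpa using master h
theorem kap_B : gen x z 2 [false] = 0 := gen_zero x z fun _ _ h => by simpa using master h
theorem kap_AA : gen x z 2 [true, true] = 0 := gen_zero x z fun _ _ h => by simpa using master h
theorem kap_AAA : gen x z 2 [true, true, true] = 0 :=
  gen_zero x z fun _ _ h => by simpa using master h
theorem kap_AB : gen x z 2 [true, false] = X :=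
  (gen_one x z chk1 in1 (by decide) (wd1 true) fun _ _ h => by simpa using master h).trans
    (pow_one _)
theorem kap_BB : gen x z 2 [false, false] = X ^ 2 :=
  gen_one x z chk2 in2 (e := (0, false)) (by decide) (wd2 (by decide)) fun _ _ h => by
    simpa using master h
theorem kap_AAB : gen x z 2 [true, true, false] = X ^ 2 :=
  gen_one x z chk3 in3 (by decide) wd3.1 fun _ _ h => by simpa using master h
theorem kap_ABB : gen x z 2 [true, false, false] = 2 * X ^ 3 := by
  have h : ∀ n, ∀ t ∈ TT (ambC n) [true, false, false],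
      Rt t (ρ4, I4, (0, true)) ∨ Rt t (ρ5, I5, (1, true)) := fun _ _ h => by
    simpa using master h
  have hne : ((ρ4, I4, (0, true)) : Tri 3) ≠ (ρ5, I5, (1, true)) := fun h =>
    absurd (congrArg (fun t => t.2.2) h) (by decide)
  ext n
  rw [two_mul, map_add, coeff_X_pow]
  split_ifs with hn
  · subst hn
    rw [coeff_gen x z {(ρ4, I4, (0, true)), (ρ5, I5, (1, true))} ?_ ?_ ?_, sum_pair hne,
      wt_model x z chk4 in4.2, wt_model x z chk5 in5.2, pow_zero]
    · simp only [mem_insert, mem_singleton, forall_eq_or_imp, forall_eq]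
      exact ⟨mem_TT.2 ⟨in4.1, by decide, wd4.1⟩, mem_TT.2 ⟨in5.1, by decide, wd5.1⟩⟩
    · intro t ht
      rcases h 3 t ht with h | h
      · exact ⟨_, mem_insert_self _ _, h⟩
      · exact ⟨_, mem_insert_of_mem (mem_singleton_self _), h⟩
    · simp only [mem_insert, mem_singleton, forall_eq_or_imp, forall_eq]
      refine ⟨⟨fun _ _ => trivial, fun g hg => ?_⟩, fun g hg => ?_, fun _ _ => trivial⟩
      · have h1 : g 0 = 1 := congrArg (fun t => t.2.2.1) hg
        have h2 := tr_pi hg (0, false)
        rw [E_apply, h1] at h2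
        exact absurd h2 (by decide)
      · have h1 : g 1 = 0 := congrArg (fun t => t.2.2.1) hg
        have h2 := tr_pi hg (1, false)
        rw [E_apply, h1] at h2
        exact absurd h2 (by decide)
  · rw [add_zero]
    exact coeff_gen_zero x z fun t ht => (h n t ht).elim (fun h => hn h.card) fun h => hn h.card
theorem kap_BBB : gen x z 2 [false, false, false] = 3 * X ^ 4 + X ^ 6 * C z := by
  have h : ∀ n, ∀ t ∈ TT (ambC n) [false, false, false],
      (∃ e, e ∉ I6 ∧ Rt t (ρ6, I6, e)) ∨ Rt t (ρ7, I7, (1, false)) := fun n t h => by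
    rcases master h with h | h | h | h | h | h
    · simp at h
    · simp at h
    · simp at h
    · simp at h
    · exact h.2
    · simp at h
  ext n
  have e3 : (3 : K⟦X⟧) = C 3 := rfl
  rw [map_add, e3, coeff_C_mul, coeff_mul_C, coeff_X_pow, coeff_X_pow]
  by_cases h4 : n = 4
  · subst h4
    rw [coeff_gen x z (I6ᶜ.image fun e => (ρ6, I6, e)) ?_ ?_ ?_,
      sum_image fun _ _ _ _ h => congrArg (fun t => t.2.2) h]
    · have : (I6ᶜ : Finset (Pt 4)).card = 3 := by decide
      simp [wt_model x z chk6 in6.2, this]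
    · intro t ht
      obtain ⟨e, he, rfl⟩ := mem_image.1 ht
      exact mem_TT.2 ⟨in6.1, mem_compl.1 he, wd6 (mem_compl.1 he)⟩
    · intro t ht
      rcases h 4 t ht with ⟨e, he, h⟩ | h
      · exact ⟨_, mem_image_of_mem _ (mem_compl.2 he), h⟩
      · exact absurd h.card (by decide)
    · intro s hs s' hs' g hg
      obtain ⟨e, he, rfl⟩ := mem_image.1 hs
      obtain ⟨e', he', rfl⟩ := mem_image.1 hs'
      have h1 : (g 0, false) ∈ I6 := (tr_pi hg (0, false)).2 (show (0, false) ∈ I6 by decide)
      have h2 : ∀ i, (i, false) ∈ I6 → i = 0 := by decide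
      have h3 := fix_of_fix in6.1 (congrArg Prod.fst hg) (e := (0, false))
        (by rw [E_apply, h2 _ h1])
      rwa [h3, tr_refl] at hg
  · by_cases h6 : n = 6
    · subst h6
      rw [coeff_gen_one x z (ρ7, I7, (1, false)) (mem_TT.2 ⟨in7.1, by decide, wd7 (by decide)⟩)
        fun t ht => ?_, wt_model x z chk7 in7.2]
      · simp
      · rcases h 6 t ht with ⟨e, -, h⟩ | h
        · exact absurd h.card (by decide)
        · exact h
    · rw [if_neg h4, if_neg h6, mul_zero, zero_mul, add_zero]
      exact coeff_gen_zero x z fun t ht =>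
        (h n t ht).elim (fun ⟨_, _, h⟩ => h4 h.card) fun h => h6 h.card

end Pool.Agent.P.MP_48bde8_co
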