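import Pool.Agent.P.MP_48bde8_co.Flat
import Pool.Agent.P.MP_48bde8_co.TEmb

/-! Orbit counting for rooted featureless discs. -/

namespace Pool.Agent.P.MP_48bde8_co.Kap

open Equiv Finset

section Gen

open scoped Classical

variable {P : Type} [Fintype P]

/-- A featureless disc on all ports, in closed form. -/
def In (A : Amb P) (ρ : Perm P) (I : Finset P) : Prop :=
  A.WV ρ ∧ skip ρ I = 1 ∧ A.Disc ρ (univ, I) ∧ bd ((univ, I) : Rg P) ≤ 3 ∧ ¬ A.Feat ρ (univ, I)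

/-- The boundary word. -/
noncomputable def wd (A : Amb P) (ρ : Perm P) (I : Finset P) (e : P) : List Bool :=
  (A.blist ρ (univ, I) e).map A.ty

@[irreducible] noncomputable def TT (A : Amb P) (u : List Bool) : Finset (Perm P × Finset P × P) :=
  univ.filter fun t => In A t.1 t.2.1 ∧ t.2.2 ∉ t.2.1 ∧ wd A t.1 t.2.1 t.2.2 = u

theorem mem_TT {A : Amb P} {u : List Bool} {t : Perm P × Finset P × P} :
    t ∈ TT A u ↔ In A t.1 t.2.1 ∧ t.2.2 ∉ t.2.1 ∧ wd A t.1 t.2.1 t.2.2 = u := by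
  simp [TT]

theorem G_two {K : Type} [CommRing K] (x z : K) (A : Amb P) (u : List Bool) :
    A.G x z 2 univ u = ∑ t ∈ TT A u, A.wt t.1 x z t.2.1 := by
  unfold Amb.G Amb.CF TT
  rw [sum_filter, sum_filter, Fintype.sum_prod_type, Fintype.sum_prod_type]
  refine sum_congr rfl fun ρ _ => ?_
  rw [Fintype.sum_prod_type]
  refine sum_congr rfl fun I _ => ?_
  dsimp only
  split_ifs with h
  · rw [sum_filter, ← sum_filter, sum_filter, ← Finset.compl_eq_univ_sdiff]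
    rw [← sum_filter_add_sum_filter_not univ (fun e => e ∈ I)]
    rw [sum_eq_zero (s := univ.filter fun e => e ∈ I) fun e he => if_neg fun h' =>
      h'.2.1 (mem_filter.1 he).2, zero_add]
    have : (univ.filter fun e => e ∉ I) = Iᶜ := by ext; simp
    rw [this]
    refine sum_congr rfl fun e he => ?_
    have he' : e ∉ I := mem_compl.1 he
    unfold Amb.co
    by_cases h1 : (A.blist ρ (univ, I) e).map A.ty = u
    · rw [if_pos h1]
      by_cases h2 : A.Disc ρ (univ, I) ∧ bd ((univ, I) : Rg P) ≤ 3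
      · rw [if_pos h2]
        by_cases h3 : A.Feat ρ (univ, I)
        · have h4 : ¬ (In A ρ I ∧ e ∉ I ∧ wd A ρ I e = u) := fun h' => h'.1.2.2.2.2 h3
          rw [if_neg h4]
          simp [h3]
        · have h4 : In A ρ I ∧ e ∉ I ∧ wd A ρ I e = u :=
            ⟨⟨h.1, h.2.2.1, h2.1, h2.2, h3⟩, he', h1⟩
          rw [if_pos h4]
          simp [h3]
      · rw [if_neg h2, if_neg fun h' => h2 ⟨h'.1.2.2.1, h'.1.2.2.2.1⟩, zero_smul]
    · rw [if_neg h1, if_neg fun h' => h1 h'.2.2]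
  · symm
    exact sum_eq_zero fun e _ => if_neg fun h' =>
      h ⟨h'.1.1, fun p hp => absurd (mem_univ p) hp, h'.1.2.1, subset_univ _⟩

theorem skip_inv {ρ : Perm P} {I : Finset P} (h1 : ∀ p, ρ (ρ p) = p)
    (h2 : ∀ p, p ∉ I → ρ p = p ∨ ρ p ∈ I) : skip ρ I = 1 := by
  ext p
  by_cases hp : p ∈ I
  · rw [skip_of_mem ρ hp]; rfl
  · rcases h2 p hp with h | h
    · rw [skip_fixed I h]; rfl
    · rw [skip_two hp h (by rwa [h1]), h1]; rfl

theorem clo_self {ρ : Perm P} {I : Finset P} (h : skip ρ I = 1) : clo ρ I = ρ := by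
  simp [clo, h]

theorem cin_eq_closed {f : Perm P} {I J : Finset P} (hJ : J ⊆ I) (N : ℕ)
    (h : ∀ p, p ∉ J → ∃ k < N, f^[k] p ∉ I) : cin f I = cin f J := by
  unfold cin
  congr 1
  refine filter_congr fun c hc => ⟨fun h1 p hp => ?_, fun h1 => h1.trans hJ⟩
  obtain ⟨q, -, rfl⟩ := mem_image.1 hc
  by_contra hpJ
  obtain ⟨k, -, hk⟩ := h p hpJ
  have h2 : orb f p ⊆ I := by rw [← orb_eq_iff.2 (mem_orb.1 hp)]; exact h1
  exact hk (by simpa [Perm.iterate_eq_pow] using orb_subset_iff.1 h2 k)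

theorem orb_of_closed {f : Perm P} {J : Finset P} {p : P} (hp : p ∈ J) (h0 : ∀ q ∈ J, f q ∈ J)
    (N : ℕ) (h : ∀ q ∈ J, ∃ k < N, f^[k] p = q) : orb f p = J := by
  refine subset_antisymm (orb_subset_of_closed hp h0) fun q hq => ?_
  obtain ⟨k, -, hk⟩ := h q hq
  exact mem_orb.2 ⟨k, by simpa [Perm.iterate_eq_pow] using hk⟩

theorem cin_orb (f : Perm P) (p : P) : cin f (orb f p) = 1 := by
  unfold cin
  rw [card_eq_one]
  refine ⟨orb f p, ?_⟩
  ext c
  simp only [mem_filter, mem_singleton, cycs, mem_image, mem_univ, true_and]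
  constructor
  · rintro ⟨⟨q, rfl⟩, h⟩
    exact (orb_eq_iff.2 (mem_orb.1 (h (self_mem_orb f q)))).symm
  · rintro rfl
    exact ⟨⟨p, rfl⟩, subset_rfl⟩

theorem bd_univ (I : Finset P) : bd ((univ, I) : Rg P) + I.card = Fintype.card P :=
  bd_add_card (R := (univ, I)) (subset_univ _)

theorem wd_length {A : Amb P} {ρ : Perm P} {I : Finset P} (h : In A ρ I) {e : P} (he : e ∉ I) :
    (wd A ρ I e).length = bd ((univ, I) : Rg P) := by
  rw [wd, List.length_map]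
  exact (Amb.blist_spec h.2.2.1.1.1 h.2.2.1.2.1 h.2.2.1.2.2.1
    (mem_sdiff.2 ⟨mem_univ e, he⟩)).2.2.1

theorem wd_false {A : Amb P} {ρ : Perm P} {I : Finset P} (h : In A ρ I) {e : P} (he : e ∉ I)
    (hc : ∀ p, p ∉ I → A.ty p = false) :
    wd A ρ I e = List.replicate (bd ((univ, I) : Rg P)) false := by
  rw [List.eq_replicate_iff]
  refine ⟨wd_length h he, fun c hc' => ?_⟩
  obtain ⟨p, hp, rfl⟩ := List.mem_map.1 hc'
  have h1 := (Amb.blist_spec h.2.2.1.1.1 h.2.2.1.2.1 h.2.2.1.2.2.1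
    (mem_sdiff.2 ⟨mem_univ e, he⟩)).2.1
  have h2 : p ∈ (univ : Finset P) \ I := by
    have := List.mem_toFinset.2 hp
    rwa [h1] at this
  exact hc p (mem_sdiff.1 h2).2

theorem bet_val {A : Amb P} {ρ : Perm P} {I : Finset P} (hs : skip ρ I = 1) {p q : P}
    (hp : p ∉ I) (hq : q ∉ I) (k : ℕ) (h1 : (fun r => A.π (ρ r))^[k + 1] p = q)
    (h2 : ∀ j < k, (fun r => A.π (ρ r))^[j + 1] p ∈ I) : A.bet ρ I p = q := by
  have e : ∀ j, ((A.π * ρ) ^ j) p = (fun r => A.π (ρ r))^[j] p := fun j => by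
    rw [← Perm.iterate_eq_pow]; rfl
  unfold Amb.bet
  rw [clo_self hs, skip_eq hp (Nat.succ_pos k) (by rw [e, h1]; exact hq) fun j hj hjk => ?_, e, h1]
  obtain ⟨j, rfl⟩ := Nat.exists_eq_succ_of_ne_zero hj.ne'
  rw [e]
  exact h2 j (by omega)

theorem wd_two {A : Amb P} {ρ : Perm P} {I : Finset P} (h : bd ((univ, I) : Rg P) = 2) {p q : P}
    (h1 : A.bet ρ I p = q) : wd A ρ I p = [A.ty p, A.ty q] := by
  simp [wd, Amb.blist, h, List.iterate, h1]

theorem wd_three {A : Amb P} {ρ : Perm P} {I : Finset P} (h : bd ((univ, I) : Rg P) = 3)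
    {p q r : P} (h1 : A.bet ρ I p = q) (h2 : A.bet ρ I q = r) :
    wd A ρ I p = [A.ty p, A.ty q, A.ty r] := by
  simp [wd, Amb.blist, h, List.iterate, h1, h2]

theorem eq_of_steps {ρ ρ' : Perm P} {I : Finset P} (h : skip ρ I = 1) (h' : skip ρ' I = 1)
    (hs : ∀ p ∈ I, ρ' p = ρ p) : ρ' = ρ := by
  rw [← clo_self h, ← clo_self h', clo_congr hs]

end Gen

abbrev Pt (n : ℕ) : Type := Fin n × Bool

abbrev Tri (n : ℕ) : Type := Perm (Pt n) × Finset (Pt n) × Pt n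

variable {m n : ℕ}

/-- Relabelling of darts. -/
def E (g : Fin m ≃ Fin n) : Pt m ≃ Pt n := Equiv.prodCongr g (Equiv.refl _)

@[simp] theorem E_apply (g : Fin m ≃ Fin n) (i : Fin m) (c : Bool) : E g (i, c) = (g i, c) := rfl

@[simp] theorem pi_apply (i : Fin n) (c : Bool) : (ambC n).π (i, c) = (i, !c) := rfl

@[simp] theorem ty_apply (p : Pt n) : (ambC n).ty p = p.2 := rfl

/-- Transport of a rooted triple. -/
def tr (g : Fin m ≃ Fin n) (t : Tri m) : Tri n :=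
  ((E g).permCongr t.1, t.2.1.map (E g).toEmbedding, E g t.2.2)

theorem ambC_OK (n : ℕ) : (ambC n).OK :=
  ⟨fun _ _ => mem_univ _, subset_univ _, fun ⟨_, c⟩ _ => ⟨mem_univ _, by simp, by simp⟩⟩

theorem loc_tr (g : Fin m ≃ Fin n) (ρ : Perm (Pt m)) (I : Finset (Pt m)) :
    Loc (ambC m) ρ (ambC n) ((E g).permCongr ρ) (E g).toEmbedding (univ, I) :=
  ⟨fun ⟨_, _⟩ _ => rfl, fun ⟨_, _⟩ _ => rfl, fun _ _ => by simp [ambC],
    fun _ _ => by simp⟩

theorem map_tr (g : Fin m ≃ Fin n) (I : Finset (Pt m)) :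
    Rg.map (E g).toEmbedding ((univ, I) : Rg (Pt m)) = (univ, I.map (E g).toEmbedding) := by
  simp [Rg.map]

theorem skip_tr (g : Fin m ≃ Fin n) {ρ : Perm (Pt m)} {I : Finset (Pt m)} (h : skip ρ I = 1) :
    skip ((E g).permCongr ρ) (I.map (E g).toEmbedding) = 1 := by
  ext1 p
  obtain ⟨q, rfl⟩ := (E g).surjective p
  have := skip_map (E g).toEmbedding (f := ρ) (g := (E g).permCongr ρ) (fun p => by simp) I q
  rw [h] at this
  exact this

theorem In_tr (g : Fin m ≃ Fin n) {ρ : Perm (Pt m)} {I : Finset (Pt m)} (h : In (ambC m) ρ I) :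
    In (ambC n) ((E g).permCongr ρ) (I.map (E g).toEmbedding) := by
  have hl := loc_tr g ρ I
  refine ⟨fun p => ?_, skip_tr g h.2.1, ?_, ?_, ?_⟩
  · obtain ⟨q, rfl⟩ := (E g).surjective p
    have h1 := h.1 q
    simp only [Equiv.permCongr_apply, Equiv.symm_apply_apply]
    exact ⟨h1.1, fun h2 => by rw [h1.2 h2]⟩
  · rw [← map_tr]; exact (hl.disc (subset_univ _)).2 h.2.2.1
  · rw [← map_tr, bd_map]; exact h.2.2.2.1
  · rw [← map_tr, hl.feat h.2.2.1.1.1]; exact h.2.2.2.2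

theorem wd_tr (g : Fin m ≃ Fin n) {ρ : Perm (Pt m)} {I : Finset (Pt m)} (h : In (ambC m) ρ I)
    (e : Pt m) : wd (ambC n) ((E g).permCongr ρ) (I.map (E g).toEmbedding) (E g e) =
      wd (ambC m) ρ I e := by
  have := (loc_tr g ρ I).blist h.2.2.1.1.1 (mem_univ e)
  rw [map_tr] at this
  unfold wd
  erw [this]
  rw [List.map_map]
  rfl

theorem tr_mem (g : Fin m ≃ Fin n) {u : List Bool} {t : Tri m} (h : t ∈ TT (ambC m) u) :
    tr g t ∈ TT (ambC n) u := by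
  rw [mem_TT] at h ⊢
  exact ⟨In_tr g h.1, by simpa [tr] using h.2.1, (wd_tr g h.1 _).trans h.2.2⟩

theorem tr_trans {k : ℕ} (g : Fin m ≃ Fin n) (g' : Fin n ≃ Fin k) (t : Tri m) :
    tr g' (tr g t) = tr (g.trans g') t := by
  refine Prod.ext ?_ (Prod.ext ?_ rfl)
  · ext1 p; rfl
  · simp only [tr, Finset.map_map]; rfl

theorem tr_refl (t : Tri m) : tr (Equiv.refl _) t = t := by
  refine Prod.ext ?_ (Prod.ext ?_ rfl)
  · ext1 p; rfl
  · exact Finset.map_refl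

theorem tr_eq (g : Fin m ≃ Fin n) {t : Tri m} {s : Tri n}
    (h1 : ∀ p, s.1 (E g p) = E g (t.1 p)) (h2 : ∀ p, E g p ∈ s.2.1 ↔ p ∈ t.2.1)
    (h3 : E g t.2.2 = s.2.2) : s = tr g t := by
  refine Prod.ext ?_ (Prod.ext ?_ h3.symm)
  · ext1 p
    obtain ⟨q, rfl⟩ := (E g).surjective p
    simp [tr, h1]
  · ext p
    obtain ⟨q, rfl⟩ := (E g).surjective p
    simp [tr, h2]

theorem fix_of_fix {g : Fin n ≃ Fin n} {ρ : Perm (Pt n)} {I : Finset (Pt n)}
    (h : In (ambC n) ρ I) (h1 : (E g).permCongr ρ = ρ) {e : Pt n} (he : E g e = e) :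
    g = Equiv.refl _ := by
  have h2 : ∀ p, ρ (E g p) = E g (ρ p) := fun p => by
    conv_lhs => rw [← h1]
    simp
  have h3 : ∀ p, p ∈ univ.filter fun p => E g p = p := fun p => by
    have a1 : ∀ q ∈ univ.filter fun p => E g p = p,
        (ambC n).π q ∈ univ.filter fun p => E g p = p := fun ⟨i, c⟩ hq => by
      simp only [mem_filter, mem_univ, true_and, pi_apply, E_apply, Prod.mk.injEq,
        and_true] at hq ⊢
      exact hq
    have a2 : ∀ q ∈ univ.filter fun p => E g p = p, ρ q ∈ univ.filter fun p => E g p = p :=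
      fun q hq => by
        simp only [mem_filter, mem_univ, true_and] at hq ⊢
        rw [← h2, hq]
    exact (Lnk.mem_of_closed a1 a2 (h.2.2.1.2.1.2 e (mem_univ _) p (mem_univ _)).lnk).1
      (by simpa using he)
  ext i
  have := h3 (i, false)
  simp only [mem_filter, mem_univ, true_and, E_apply, Prod.mk.injEq, and_true] at this
  simp [this]

variable {K : Type} [CommRing K] [Algebra ℚ K] (x z : K)

theorem coeff_gen {u : List Bool} (L : Finset (Tri n)) (h1 : ∀ t ∈ L, t ∈ TT (ambC n) u)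
    (h2 : ∀ t ∈ TT (ambC n) u, ∃ s ∈ L, ∃ g : Fin n ≃ Fin n, t = tr g s)
    (h3 : ∀ s ∈ L, ∀ s' ∈ L, ∀ g : Fin n ≃ Fin n, tr g s = s' → s = s') :
    PowerSeries.coeff n (gen x z 2 u) = ∑ s ∈ L, (ambC n).wt s.1 x z s.2.1 := by
  have key : ∑ q ∈ L ×ˢ (univ : Finset (Perm (Fin n))), (ambC n).wt q.1.1 x z q.1.2.1 =
      ∑ t ∈ TT (ambC n) u, (ambC n).wt t.1 x z t.2.1 := by
    refine sum_bij (fun q _ => tr q.2 q.1) (fun q hq => tr_mem _ (h1 _ (mem_product.1 hq).1))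
      (fun q hq q' hq' e => ?_) (fun t ht => ?_) fun q hq => ?_
    · have e1 : tr (q.2.trans q'.2.symm) q.1 = q'.1 := by
        rw [← tr_trans, e, tr_trans, Equiv.self_trans_symm, tr_refl]
      have e2 := h3 _ (mem_product.1 hq).1 _ (mem_product.1 hq').1 _ e1
      rw [← e2] at e1
      have e3 := fix_of_fix (mem_TT.1 (h1 _ (mem_product.1 hq).1)).1 (congrArg Prod.fst e1)
        (congrArg (fun t => t.2.2) e1)
      refine Prod.ext e2 ?_
      ext1 i
      have := congrArg (fun g : Fin n ≃ Fin n => q'.2 (g i)) e3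
      simpa using this
    · obtain ⟨s, hs, g, rfl⟩ := h2 t ht
      exact ⟨(s, g), mem_product.2 ⟨hs, mem_univ _⟩, rfl⟩
    · have h4 := (mem_TT.1 (h1 _ (mem_product.1 hq).1)).1
      exact ((loc_tr q.2 q.1.1 q.1.2.1).wt x z h4.2.2.1.1.1).symm
  rw [gen, PowerSeries.coeff_mk, G_two, ← key, sum_product, smul_sum]
  refine sum_congr rfl fun s _ => ?_
  dsimp only
  rw [sum_const, card_univ, Fintype.card_perm, Fintype.card_fin, ← Nat.cast_smul_eq_nsmul ℚ,
    smul_smul, inv_mul_cancel₀ (by exact_mod_cast n.factorial_ne_zero), one_smul]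

theorem coeff_gen_zero {u : List Bool} (h : ∀ t, t ∉ TT (ambC n) u) :
    PowerSeries.coeff n (gen x z 2 u) = 0 := by
  rw [coeff_gen x z ∅ (by simp) (fun t ht => absurd ht (h t)) (by simp), sum_empty]

theorem coeff_gen_one {u : List Bool} (s : Tri n) (h1 : s ∈ TT (ambC n) u)
    (h2 : ∀ t ∈ TT (ambC n) u, ∃ g : Fin n ≃ Fin n, t = tr g s) :
    PowerSeries.coeff n (gen x z 2 u) = (ambC n).wt s.1 x z s.2.1 := by
  rw [coeff_gen x z {s} (by simpa using h1) (by simpa using h2) (by simp), sum_singleton]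

theorem mk_equiv (v : Fin m → Pt n) (h1 : ∀ i, (v i).2 = false) (h2 : Function.Injective v)
    (h3 : ∀ i, ∃ j, v j = (i, false)) : ∃ g : Fin m ≃ Fin n, ∀ i, v i = (g i, false) := by
  refine ⟨Equiv.ofBijective (fun i => (v i).1) ⟨fun i j h => h2 (Prod.ext h ?_), fun i => ?_⟩,
    fun i => Prod.ext rfl (h1 i)⟩
  · rw [h1, h1]
  · obtain ⟨j, hj⟩ := h3 i
    exact ⟨j, congrArg Prod.fst hj⟩

theorem iso_of (g : Fin m ≃ Fin n) {ρ₀ : Perm (Pt m)} {I₀ : Finset (Pt m)} {t : Tri n}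
    (h₀ : skip ρ₀ I₀ = 1) (h : skip t.1 t.2.1 = 1) (hI : ∀ p, E g p ∈ t.2.1 ↔ p ∈ I₀)
    (hs : ∀ p ∈ I₀, t.1 (E g p) = E g (ρ₀ p)) : t = tr g (ρ₀, I₀, (E g).symm t.2.2) := by
  have h1 : t.2.1 = I₀.map (E g).toEmbedding := by
    ext p
    obtain ⟨q, rfl⟩ := (E g).surjective p
    simp [hI]
  refine Prod.ext ?_ (Prod.ext h1 (by simp [tr]))
  refine eq_of_steps (I := t.2.1) (by rw [h1]; exact skip_tr g h₀) h fun p hp => ?_
  obtain ⟨q, rfl⟩ := (E g).surjective p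
  simp [tr, hs q ((hI q).1 hp)]

end Pool.Agent.P.MP_48bde8_co.Kap
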