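import Pool.Agent.P.MP_48bde8_co.KapAux1

/-! The seven models of featureless discs. -/

namespace Pool.Agent.P.MP_48bde8_co.Kap

open Equiv Finset

variable {n : ℕ}

theorem bd_eq (I : Finset (Pt n)) {k : ℕ} (h : k + I.card = 2 * n) :
    bd ((univ, I) : Rg (Pt n)) = k := by
  have := bd_univ I
  rw [Fintype.card_prod, Fintype.card_fin, Fintype.card_bool] at this
  omega

theorem conn_model {ρ : Perm (Pt n)} {I : Finset (Pt n)} (hn : 0 < n)
    (a5 : ∀ i : Fin n, i.val = 0 ∨ ∃ p ∈ I, (p.1 = i ∧ (ρ p).1 < i) ∨ ((ρ p).1 = i ∧ p.1 < i)) :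
    (ambC n).RConn ρ (univ, I) := by
  have h1 : ∀ p q : Pt n, p.1 = q.1 → (ambC n).RL ρ (univ, I) p q := by
    rintro ⟨i, c⟩ ⟨j, d⟩ rfl
    by_cases h : c = d
    · subst h; exact Relation.EqvGen.refl _
    · refine Relation.EqvGen.rel _ _ (Or.inl ⟨mem_univ _, ?_⟩)
      cases c <;> cases d <;> simp_all
  have h2 : ∀ k : ℕ, ∀ q : Pt n, q.1.val = k → (ambC n).RL ρ (univ, I) (⟨0, hn⟩, false) q := by
    intro k
    induction k using Nat.strong_induction_on with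
    | _ k ih =>
      intro q hq
      rcases a5 q.1 with h | ⟨p, hp, h | h⟩
      · exact h1 _ _ (Fin.ext h.symm)
      · have s : (ambC n).RL ρ (univ, I) p (ρ p) := Relation.EqvGen.rel _ _ (Or.inr ⟨hp, rfl⟩)
        exact ((ih _ (hq ▸ h.2) (ρ p) rfl).trans _ _ _ (s.symm _ _)).trans _ _ _ (h1 _ _ h.1)
      · have s : (ambC n).RL ρ (univ, I) p (ρ p) := Relation.EqvGen.rel _ _ (Or.inr ⟨hp, rfl⟩)
        exact ((ih _ (hq ▸ h.2) p rfl).trans _ _ _ s).trans _ _ _ (h1 _ _ h.1)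
  exact Amb.rconn_of_root (mem_univ _) fun q _ => h2 _ q rfl

/-- The decidable part of the data of a model. -/
def Chk (ρ : Perm (Pt n)) (I : Finset (Pt n)) (F : ℕ) : Prop :=
  (∀ p, ρ (ρ p) = p) ∧ (∀ p, (ρ p).2 = p.2) ∧ (∀ p, p ∉ I → ρ p = p ∨ ρ p ∈ I) ∧
  (∀ p ∈ I, p.2 = true → ρ p ∈ I ∧ ρ p ≠ p) ∧
  (∀ i : Fin n, i.val = 0 ∨ ∃ p ∈ I, (p.1 = i ∧ (ρ p).1 < i) ∨ ((ρ p).1 = i ∧ p.1 < i)) ∧
  (∀ p ∈ I, p.2 = false → ρ p ∉ I) ∧
  2 * n + (I.filter fun p => p.2 = true).card + 2 * F = 2 * I.card + 2 ∧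
  I.card < 2 * n ∧ 2 * n ≤ I.card + 3

theorem In_model {ρ : Perm (Pt n)} {I : Finset (Pt n)} {F : ℕ} (h : Chk ρ I F)
    (hc : cin ((ambC n).π * ρ) I = F)
    (hF : ∀ p, orb ((ambC n).π * ρ) p ⊆ I → 4 < (orb ((ambC n).π * ρ) p).card) :
    In (ambC n) ρ I := by
  obtain ⟨a1, a2, a3, a4, a5, a6, a7, a8, a9⟩ := h
  have hb := bd_eq I (k := 2 * n - I.card) (by omega)
  refine ⟨fun p => ⟨a2 p, fun _ => a1 p⟩, skip_inv a1 a3,
    ⟨⟨⟨fun _ _ => mem_univ _, subset_univ _, fun _ _ => mem_univ _⟩, subset_univ _, a4⟩,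
      conn_model (by omega) a5, ?_, by omega⟩, by omega, ?_⟩
  · have e1 := two_mul_cin (ambC n).π (I := univ) (fun _ _ => mem_univ _)
      (fun ⟨_, _⟩ _ => by simp) (fun ⟨_, _⟩ _ => by simp)
    rw [card_univ, Fintype.card_prod, Fintype.card_fin, Fintype.card_bool] at e1
    have e2 : cin ρ I = cin ρ (I.filter fun p => p.2 = true) :=
      cin_eq_closed (filter_subset _ _) 2 fun p hp => by
        by_cases h1 : p ∈ I
        · exact ⟨1, by omega, a6 p h1 (by simpa [h1] using hp)⟩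
        · exact ⟨0, by omega, h1⟩
    have e3 := two_mul_cin ρ (I := I.filter fun p => p.2 = true)
      (fun p hp => mem_filter.2 ⟨(a4 p (mem_filter.1 hp).1 (mem_filter.1 hp).2).1,
        (a2 p).trans (mem_filter.1 hp).2⟩) (fun p _ => a1 p)
      (fun p hp => (a4 p (mem_filter.1 hp).1 (mem_filter.1 hp).2).2)
    unfold Amb.eps
    dsimp only
    omega
  · rintro ⟨p, ⟨h1, h2⟩ | ⟨h1, h2⟩⟩
    · exact a6 p (h2 (self_mem_orb ρ p)) h1
        (h2 (by rw [← orb_apply]; exact self_mem_orb ρ _))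
    · exact absurd (hF p h1) (by omega)

theorem wt_model {K : Type} [CommRing K] (x z : K) {ρ : Perm (Pt n)} {I : Finset (Pt n)} {F : ℕ}
    (h : Chk ρ I F) (hc : cin ((ambC n).π * ρ) I = F) : (ambC n).wt ρ x z I = z ^ F := by
  have e : (ambC n).nv ρ I = 0 := by
    unfold Amb.nv
    rw [cin_eq_closed (J := ∅) (empty_subset _) 2 fun p _ => ?_, cin_empty]
    by_cases h1 : p ∈ I ∧ p.2 = false
    · exact ⟨1, by omega, fun h2 => h.2.2.2.2.2.1 p h1.1 h1.2 (mem_filter.1 h2).1⟩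
    · exact ⟨0, by omega, fun h2 => h1 (mem_filter.1 h2)⟩
  rw [Amb.wt, e, Amb.nf, hc, pow_zero, one_mul]

/-- The face map as a plain function. -/
def fc (ρ : Perm (Pt n)) (p : Pt n) : Pt n := ((ρ p).1, !(ρ p).2)

theorem fc_eq (ρ : Perm (Pt n)) : ⇑((ambC n).π * ρ) = fc ρ := rfl

theorem fc_mem {ρ : Perm (Pt n)} {I : Finset (Pt n)} {p : Pt n}
    (h : orb ((ambC n).π * ρ) p ⊆ I) (k : ℕ) : (fc ρ)^[k] p ∈ I := by
  rw [← fc_eq, Perm.iterate_eq_pow]
  exact orb_subset_iff.1 h k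

theorem In_zero {ρ : Perm (Pt n)} {I : Finset (Pt n)} (h : Chk ρ I 0)
    (h0 : ∀ p, ∃ k < 4, (fc ρ)^[k] p ∉ I) :
    In (ambC n) ρ I ∧ cin ((ambC n).π * ρ) I = 0 := by
  have hc : cin ((ambC n).π * ρ) I = 0 := by
    rw [cin_eq_closed (J := ∅) (empty_subset _) 4 fun p _ => h0 p, cin_empty]
  refine ⟨In_model h hc fun p hp => ?_, hc⟩
  obtain ⟨k, -, hk⟩ := h0 p
  exact absurd (fc_mem hp k) hk

theorem bet_fc {ρ : Perm (Pt n)} {I : Finset (Pt n)} (h : In (ambC n) ρ I) {p q : Pt n} (k : ℕ)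
    (hp : p ∉ I ∧ q ∉ I ∧ (fc ρ)^[k + 1] p = q ∧ ∀ j < k, (fc ρ)^[j + 1] p ∈ I) :
    (ambC n).bet ρ I p = q := bet_val h.2.1 hp.1 hp.2.1 k hp.2.2.1 hp.2.2.2

/-- An involution given by tables for the A ports and the B ports. -/
def mk (a b : Fin n → Fin n) (ha : ∀ i, a (a i) = i) (hb : ∀ i, b (b i) = i) : Perm (Pt n) :=
  Function.Involutive.toPerm (fun p => (if p.2 = true then a p.1 else b p.1, p.2))
    fun ⟨i, c⟩ => by cases c <;> simp [ha, hb]

def ρ1 : Perm (Pt 1) := mk ![0] ![0] (by decide) (by decide)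
def I1 : Finset (Pt 1) := ∅
def ρ2 : Perm (Pt 2) := mk ![1, 0] ![0, 1] (by decide) (by decide)
def I2 : Finset (Pt 2) := {(0, true), (1, true)}
def ρ3 : Perm (Pt 2) := mk ![0, 1] ![1, 0] (by decide) (by decide)
def I3 : Finset (Pt 2) := {(0, false)}
def ρ4 : Perm (Pt 3) := mk ![0, 2, 1] ![1, 0, 2] (by decide) (by decide)
def I4 : Finset (Pt 3) := {(0, false), (1, true), (2, true)}
def ρ5 : Perm (Pt 3) := mk ![2, 1, 0] ![1, 0, 2] (by decide) (by decide)
def I5 : Finset (Pt 3) := {(0, false), (0, true), (2, true)}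
def ρ6 : Perm (Pt 4) := mk ![2, 3, 0, 1] ![1, 0, 2, 3] (by decide) (by decide)
def I6 : Finset (Pt 4) := {(0, false), (0, true), (2, true), (1, true), (3, true)}
def ρ7 : Perm (Pt 6) := mk ![5, 2, 1, 4, 3, 0] ![1, 0, 3, 2, 5, 4] (by decide) (by decide)
def I7 : Finset (Pt 6) := {(0, false), (2, false), (4, false), (0, true), (1, true), (2, true),
  (3, true), (4, true), (5, true)}
def J7 : Finset (Pt 6) := {(0, false), (1, true), (2, false), (3, true), (4, false), (5, true)}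

theorem chk1 : Chk ρ1 I1 0 :=
  ⟨by decide, by decide, by decide, by decide, by decide, by decide, by decide, by decide,
    by decide⟩
theorem chk2 : Chk ρ2 I2 0 :=
  ⟨by decide, by decide, by decide, by decide, by decide, by decide, by decide, by decide,
    by decide⟩
theorem chk3 : Chk ρ3 I3 0 :=
  ⟨by decide, by decide, by decide, by decide, by decide, by decide, by decide, by decide,
    by decide⟩
theorem chk4 : Chk ρ4 I4 0 :=
  ⟨by decide, by decide, by decide, by decide, by decide, by decide, by decide, by decide,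
    by decide⟩
theorem chk5 : Chk ρ5 I5 0 :=
  ⟨by decide, by decide, by decide, by decide, by decide, by decide, by decide, by decide,
    by decide⟩
theorem chk6 : Chk ρ6 I6 0 :=
  ⟨by decide, by decide, by decide, by decide, by decide, by decide, by decide, by decide,
    by decide⟩
theorem chk7 : Chk ρ7 I7 1 :=
  ⟨by decide, by decide, by decide, by decide, by decide, by decide, by decide, by decide,
    by decide⟩

theorem in1 : In (ambC 1) ρ1 I1 ∧ cin ((ambC 1).π * ρ1) I1 = 0 := In_zero chk1 (by decide)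
theorem in2 : In (ambC 2) ρ2 I2 ∧ cin ((ambC 2).π * ρ2) I2 = 0 := In_zero chk2 (by decide)
theorem in3 : In (ambC 2) ρ3 I3 ∧ cin ((ambC 2).π * ρ3) I3 = 0 := In_zero chk3 (by decide)
theorem in4 : In (ambC 3) ρ4 I4 ∧ cin ((ambC 3).π * ρ4) I4 = 0 := In_zero chk4 (by decide)
theorem in5 : In (ambC 3) ρ5 I5 ∧ cin ((ambC 3).π * ρ5) I5 = 0 := In_zero chk5 (by decide)
theorem in6 : In (ambC 4) ρ6 I6 ∧ cin ((ambC 4).π * ρ6) I6 = 0 := In_zero chk6 (by decide)

theorem in7 : In (ambC 6) ρ7 I7 ∧ cin ((ambC 6).π * ρ7) I7 = 1 := by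
  have h1 : ∀ p ∈ J7, orb ((ambC 6).π * ρ7) p = J7 := fun p hp =>
    orb_of_closed hp (by rw [fc_eq]; decide) 6 (by rw [fc_eq]; revert p; decide)
  have h2 : ∀ p, p ∉ J7 → ∃ k < 4, (fc ρ7)^[k] p ∉ I7 := by decide
  have hc : cin ((ambC 6).π * ρ7) I7 = 1 := by
    rw [cin_eq_closed (J := J7) (by decide) 4 h2, ← h1 (0, false) (by decide), cin_orb]
  refine ⟨In_model chk7 hc fun p hp => ?_, hc⟩
  by_cases h : p ∈ J7
  · rw [h1 p h]; decide
  · obtain ⟨k, -, hk⟩ := h2 p h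
    exact absurd (fc_mem hp k) hk

theorem wd1 (c : Bool) : wd (ambC 1) ρ1 I1 (0, c) = [c, !c] :=
  wd_two (bd_eq I1 (by decide)) (q := (0, !c)) (bet_fc in1.1 0 (by revert c; decide))

theorem wd2 {e : Pt 2} (he : e ∉ I2) : wd (ambC 2) ρ2 I2 e = [false, false] := by
  rw [wd_false in2.1 he (by decide), bd_eq I2 (k := 2) (by decide)]; rfl

theorem wd3 : wd (ambC 2) ρ3 I3 (0, true) = [true, true, false] ∧
    wd (ambC 2) ρ3 I3 (1, true) = [true, false, true] ∧
    wd (ambC 2) ρ3 I3 (1, false) = [false, true, true] := by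
  have b1 : (ambC 2).bet ρ3 I3 (0, true) = (1, true) := bet_fc in3.1 1 (by decide)
  have b2 : (ambC 2).bet ρ3 I3 (1, true) = (1, false) := bet_fc in3.1 0 (by decide)
  have b3 : (ambC 2).bet ρ3 I3 (1, false) = (0, true) := bet_fc in3.1 0 (by decide)
  have h := bd_eq I3 (k := 3) (by decide)
  exact ⟨wd_three h b1 b2, wd_three h b2 b3, wd_three h b3 b1⟩

theorem wd4 : wd (ambC 3) ρ4 I4 (0, true) = [true, false, false] ∧
    wd (ambC 3) ρ4 I4 (2, false) = [false, false, true] ∧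
    wd (ambC 3) ρ4 I4 (1, false) = [false, true, false] := by
  have b1 : (ambC 3).bet ρ4 I4 (0, true) = (2, false) := bet_fc in4.1 2 (by decide)
  have b2 : (ambC 3).bet ρ4 I4 (2, false) = (1, false) := bet_fc in4.1 1 (by decide)
  have b3 : (ambC 3).bet ρ4 I4 (1, false) = (0, true) := bet_fc in4.1 0 (by decide)
  have h := bd_eq I4 (k := 3) (by decide)
  exact ⟨wd_three h b1 b2, wd_three h b2 b3, wd_three h b3 b1⟩

theorem wd5 : wd (ambC 3) ρ5 I5 (1, true) = [true, false, false] ∧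
    wd (ambC 3) ρ5 I5 (1, false) = [false, false, true] ∧
    wd (ambC 3) ρ5 I5 (2, false) = [false, true, false] := by
  have b1 : (ambC 3).bet ρ5 I5 (1, true) = (1, false) := bet_fc in5.1 0 (by decide)
  have b2 : (ambC 3).bet ρ5 I5 (1, false) = (2, false) := bet_fc in5.1 1 (by decide)
  have b3 : (ambC 3).bet ρ5 I5 (2, false) = (1, true) := bet_fc in5.1 2 (by decide)
  have h := bd_eq I5 (k := 3) (by decide)
  exact ⟨wd_three h b1 b2, wd_three h b2 b3, wd_three h b3 b1⟩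

theorem wd6 {e : Pt 4} (he : e ∉ I6) : wd (ambC 4) ρ6 I6 e = [false, false, false] := by
  rw [wd_false in6.1 he (by decide), bd_eq I6 (k := 3) (by decide)]; rfl

theorem wd7 {e : Pt 6} (he : e ∉ I7) : wd (ambC 6) ρ7 I7 e = [false, false, false] := by
  rw [wd_false in7.1 he (by decide), bd_eq I7 (k := 3) (by decide)]; rfl

/-- Automorphisms. -/
def s2 : Fin 2 ≃ Fin 2 := ⟨![1, 0], ![1, 0], by decide, by decide⟩
def s7 : Fin 6 ≃ Fin 6 := ⟨![2, 3, 4, 5, 0, 1], ![4, 5, 0, 1, 2, 3], by decide, by decide⟩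

theorem root2 {e : Pt 2} (he : e ∉ I2) : ∃ g, (ρ2, I2, e) = tr g (ρ2, I2, (0, false)) := by
  have : e = (0, false) ∨ e = (1, false) := by revert e; decide
  rcases this with rfl | rfl
  · exact ⟨_, (tr_refl _).symm⟩
  · exact ⟨s2, tr_eq s2 (by decide) (by decide) (by decide)⟩

theorem root7 {e : Pt 6} (he : e ∉ I7) : ∃ g, (ρ7, I7, e) = tr g (ρ7, I7, (1, false)) := by
  have : e = (1, false) ∨ e = (3, false) ∨ e = (5, false) := by revert e; decide
  rcases this with rfl | rfl | rfl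
  · exact ⟨_, (tr_refl _).symm⟩
  · exact ⟨s7, tr_eq s7 (by decide) (by decide) (by decide)⟩
  · exact ⟨s7.symm, tr_eq s7.symm (by decide) (by decide) (by decide)⟩

end Pool.Agent.P.MP_48bde8_co.Kap
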