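import Pool.Agent.P.MP_48bde8_co.Cyc

/-!
Port diagrams and their regions.

Ports `P`; objects are the cycles of `π`; a port has type `true` (A, edge port) or `false`
(B, vertex port); `dt` is the set of ports of darts (a dart is a 2-cycle of `π` with one port of
each type); `U` is the set of ports in use.  A wiring `ψ` pairs the A ports (edges) and permutes
the B ports (vertices); faces are the cycles of `π * ψ`.
A region is a pair `(V, I)`: a set of ports closed under `π` and a set of ports whose forward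
`ψ`-step is internal.
-/

namespace Pool.Agent.P.MP_48bde8_co

open Equiv Finset
open scoped Classical

/-- The ambient data. -/
structure Amb (P : Type) where
  π : Perm P
  ty : P → Bool
  dt : Finset P
  U : Finset P

/-- Regions are pairs of finite sets, with the product order. -/
abbrev Rg (P : Type) : Type := Finset P × Finset P

variable {P : Type} [Fintype P]

/-- Number of cut ports. -/
noncomputable def bd (R : Rg P) : ℕ := (R.1 \ R.2).card

/-- Full region on the complement. -/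
noncomputable def cpl (ψ : Perm P) (R : Rg P) : Rg P :=
  (R.1ᶜ, R.1ᶜ.filter fun p => ψ p ∉ R.1)

/-- Two regions overlap. -/
def Ov (R S : Rg P) : Prop := ¬ Disjoint R.1 S.1

/-- A nonempty family connected by overlaps. -/
def OConn (C : Finset (Rg P)) : Prop :=
  C.Nonempty ∧ ∀ R ∈ C, ∀ S ∈ C, Relation.EqvGen (fun X Y => X ∈ C ∧ Y ∈ C ∧ Ov X Y) R S

/-- Every member of `F` overlaps `R`. -/
def Dom (F : Finset (Rg P)) (R : Rg P) : Prop := ∀ S ∈ F, Ov S R

/-- Cluster coefficient. -/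
noncomputable def clF (F : Finset (Rg P)) (R : Rg P) : ℤ :=
  ∑ C ∈ F.powerset.filter (fun C => OConn C ∧ C.sup id = R), (-1) ^ C.card

/-- The signed count attached to a root port `h`. -/
noncomputable def sgnF (F : Finset (Rg P)) (h : P) : ℤ :=
  (if ∀ S ∈ F, h ∈ S.1 then 1 else 0) -
    ∑ R ∈ univ.filter (fun R : Rg P => h ∉ R.1), if Dom F R then clF F R else 0

/-- Members avoiding `h` that are disjoint from some member. -/
noncomputable def genu (F : Finset (Rg P)) (h : P) : Finset (Rg P) :=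
  F.filter fun S => h ∉ S.1 ∧ ∃ S' ∈ F, ¬ Ov S S'

namespace Amb

variable (A : Amb P) (ψ : Perm P)

/-- Well-formed ambient data. -/
def OK : Prop :=
  (∀ p ∈ A.U, A.π p ∈ A.U) ∧ A.dt ⊆ A.U ∧
    ∀ p ∈ A.dt, A.π p ∈ A.dt ∧ A.π (A.π p) = p ∧ A.ty (A.π p) = !A.ty p

/-- Type preserving, involutive on A ports. -/
def WV : Prop := ∀ p, A.ty (ψ p) = A.ty p ∧ (A.ty p = true → ψ (ψ p) = p)

/-- A complete wiring of `U`. -/
def Valid : Prop := A.WV ψ ∧ (∀ p, p ∉ A.U → ψ p = p) ∧ ∀ p ∈ A.U, A.ty p = true → ψ p ≠ p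

def Conn : Prop := ∀ p ∈ A.U, ∀ q ∈ A.U, Lnk A.π ψ p q

def Planar : Prop := cin A.π A.U + cin ψ A.U + cin (A.π * ψ) A.U = A.U.card + 2

/-- Valid, connected and planar. -/
def Dgm : Prop := A.Valid ψ ∧ A.Conn ψ ∧ A.Planar ψ

/-- The B port of the other dart of the edge. -/
def al (b : P) : P := A.π (ψ (A.π b))

def Pre (R : Rg P) : Prop := (∀ p ∈ R.1, A.π p ∈ R.1) ∧ R.2 ⊆ R.1 ∧ ∀ p ∈ R.2, ψ p ∈ R.1

def Reg (R : Rg P) : Prop :=
  A.Pre ψ R ∧ R.1 ⊆ A.dt ∧ ∀ p ∈ R.2, A.ty p = true → ψ p ∈ R.2 ∧ ψ p ≠ p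

/-- Euler characteristic of a region. -/
noncomputable def eps (R : Rg P) : ℤ :=
  (cin A.π R.1 : ℤ) + cin ψ R.2 + cin (A.π * ψ) R.2 - R.2.card

def Step (R : Rg P) (p q : P) : Prop := (p ∈ R.1 ∧ q = A.π p) ∨ (p ∈ R.2 ∧ q = ψ p)

def RL (R : Rg P) : P → P → Prop := Relation.EqvGen (A.Step ψ R)

def RConn (R : Rg P) : Prop := R.1.Nonempty ∧ ∀ p ∈ R.1, ∀ q ∈ R.1, A.RL ψ R p q

/-- The component of `p`. -/
noncomputable def comp (R : Rg P) (p : P) : Rg P :=
  (R.1.filter fun q => A.RL ψ R p q, R.2.filter fun q => A.RL ψ R p q)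

def Disc (R : Rg P) : Prop := A.Reg ψ R ∧ A.RConn ψ R ∧ A.eps ψ R = 1 ∧ 1 ≤ bd R

/-- An internal vertex, or an internal face of degree at most two. -/
def Feat (R : Rg P) : Prop :=
  ∃ p, (A.ty p = false ∧ orb ψ p ⊆ R.2) ∨ (orb (A.π * ψ) p ⊆ R.2 ∧ (orb (A.π * ψ) p).card ≤ 4)

def Div (R : Rg P) : Prop := A.Disc ψ R ∧ bd R ≤ 3 ∧ A.Feat ψ R

def Atom (R : Rg P) : Prop := A.Div ψ R ∧ ∀ S, A.Div ψ S → S ≤ R → S = R

noncomputable def atoms : Finset (Rg P) := univ.filter fun R => A.Atom ψ R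

def Good : Prop := ∀ R, ¬ A.Div ψ R

def Tight (R : Rg P) : Prop :=
  A.Div ψ R ∧ (∀ S, A.Div ψ S → S ≤ R → bd R ≤ bd S) ∧
    (∀ b ∈ R.1, A.ty b = false → A.π b ∈ R.2 → b ∈ R.2 ∨ ψ⁻¹ b ∈ R.2) ∧
    (bd R = 3 → ∀ b ∈ R.1, A.ty b = false → A.π b ∈ R.2 → ψ⁻¹ b ∈ R.2 ∨ A.al ψ b ∈ R.2)

/-- No cut port of type A. -/
def NoA (R : Rg P) : Prop := ∀ a ∈ R.1, A.ty a = true → a ∈ R.2

/-- The darts of a set of ports. -/
noncomputable def dv (s : Finset P) : Finset P := s ∪ s.image A.π

/-- A single dart. -/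
noncomputable def rT (p : P) : Rg P := (A.dv {p}, ∅)

/-- A single edge, given by a B port. -/
noncomputable def rQ (b : P) : Rg P := (A.dv {b, A.al ψ b}, {A.π b, A.π (A.al ψ b)})

/-- The darts of a vertex. -/
noncomputable def rStar (b : P) : Rg P := (A.dv (orb ψ b), orb ψ b)

/-- The step from `b` to `ψ b`. -/
noncomputable def rS (b : P) : Rg P := (A.dv {b, ψ b}, {b})

/-- The next B port along the face. -/
def nx (b : P) : P := A.al ψ (ψ b)

/-- A face of degree one. -/
noncomputable def rLoop (b : P) : Rg P := A.rS ψ b ⊔ A.rQ ψ b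

/-- A face of degree two. -/
noncomputable def rDig (b : P) : Rg P :=
  A.rS ψ b ⊔ A.rQ ψ (ψ b) ⊔ A.rS ψ (A.nx ψ b) ⊔ A.rQ ψ b

/-- A face of degree three. -/
noncomputable def rTri (b : P) : Rg P :=
  A.rS ψ b ⊔ A.rQ ψ (ψ b) ⊔ A.rS ψ (A.nx ψ b) ⊔ A.rQ ψ (ψ (A.nx ψ b)) ⊔
    A.rS ψ (A.nx ψ (A.nx ψ b)) ⊔ A.rQ ψ b

/-- `b` is a corner of a face of degree two with four distinct darts. -/
def DigAt (b : P) : Prop :=
  A.ty b = false ∧ A.nx ψ (A.nx ψ b) = b ∧ [b, ψ b, A.nx ψ b, ψ (A.nx ψ b)].Nodup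

/-- `b` is a corner of a face of degree three with six distinct darts. -/
def TriAt (b : P) : Prop :=
  A.ty b = false ∧ A.nx ψ (A.nx ψ (A.nx ψ b)) = b ∧
    [b, ψ b, A.nx ψ b, ψ (A.nx ψ b), A.nx ψ (A.nx ψ b), ψ (A.nx ψ (A.nx ψ b))].Nodup

def IsDig (R : Rg P) : Prop := ∃ b, A.DigAt ψ b ∧ R = A.rDig ψ b

def IsStar (R : Rg P) : Prop := ∃ b, A.ty b = false ∧ R = A.rStar ψ b

/-- A planar map: all ports belong to darts. -/
def Closed : Prop := A.OK ∧ A.dt = univ ∧ A.U = univ ∧ A.Dgm ψ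

/-- No proper region has fewer than two cuts. -/
def H1 : Prop := ∀ R, A.Reg ψ R → R.1.Nonempty → R.1 ≠ univ → 2 ≤ bd R

/-- All faces have degree two. -/
def Dipole : Prop := ∀ p, (orb (A.π * ψ) p).card = 4

/-- Boundary permutation of a region with internal steps `I`. -/
noncomputable def bet (I : Finset P) : Perm P := skip (A.π * clo ψ I) I

/-- The cut ports in boundary order, from `e`. -/
noncomputable def blist (R : Rg P) (e : P) : List P := List.iterate (A.bet ψ R.2) e (bd R)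

/-- Internal vertices. -/
noncomputable def nv (I : Finset P) : ℕ := cin ψ (I.filter fun p => A.ty p = false)

/-- Internal faces. -/
noncomputable def nf (I : Finset P) : ℕ := cin (A.π * ψ) I

/-- The three local coefficients: cluster coefficient, single dart, featureless disc. -/
noncomputable def co (k : Fin 3) (R : Rg P) : ℤ :=
  if A.Disc ψ R ∧ bd R ≤ 3 then
    ![clF (A.atoms ψ) R, if R.2 = ∅ then 1 else 0, if A.Feat ψ R then 0 else 1] k
  else 0

/-- The ambient after removing the ports `I` along `ρ` and the darts `V`. -/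
noncomputable def red (ρ : Perm P) (V I : Finset P) : Amb P :=
  ⟨skip (A.π * ρ) I, A.ty, A.dt \ V, A.U \ I⟩

/-- The ambient restricted to `W`. -/
noncomputable def res (W : Finset P) : Amb P := ⟨A.π, A.ty, A.dt ∩ W, A.U ∩ W⟩

/-- The ports in use that are not dart ports form the cycles `l₁`, `l₂` of `π`. -/
def LA (l₁ l₂ : List P) : Prop :=
  A.OK ∧ IsCyc A.π l₁ ∧ IsCyc A.π l₂ ∧ l₁.Disjoint l₂ ∧
    ∀ p, (p ∈ A.U ∧ p ∉ A.dt) ↔ (p ∈ l₁ ∨ p ∈ l₂)

section Weights

variable {K : Type} [CommRing K] (x z : K)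

/-- Weight of the cycles inside `I`. -/
noncomputable def wt (I : Finset P) : K := x ^ A.nv ψ I * z ^ A.nf ψ I

/-- Good diagrams. -/
noncomputable def TS : Finset (Perm P) := univ.filter fun ψ => A.Dgm ψ ∧ A.Good ψ

/-- Partition function. -/
noncomputable def T : K := ∑ ψ ∈ A.TS, A.wt ψ x z A.U

/-- Partition function with a prescribed step. -/
noncomputable def Tq (p q : P) : K := ∑ ψ ∈ A.TS.filter (fun ψ => ψ p = q), A.wt ψ x z A.U

/-- Closed forms of regions on the darts `V`. -/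
noncomputable def CF (V : Finset P) : Finset (Perm P × Finset P) :=
  univ.filter fun c => A.WV c.1 ∧ (∀ p, p ∉ V → c.1 p = p) ∧ skip c.1 c.2 = 1 ∧ c.2 ⊆ V

/-- Sum over closed forms on `V` with a marked cut port and boundary word `u`. -/
noncomputable def G (k : Fin 3) (V : Finset P) (u : List Bool) : K :=
  ∑ c ∈ A.CF V, ∑ _e ∈ (V \ c.2).filter (fun e => (A.blist c.1 (V, c.2) e).map A.ty = u),
    A.co c.1 k (V, c.2) • A.wt c.1 x z c.2

end Weights

end Amb

/-- The ambient with `n` darts only. -/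
def ambC (n : ℕ) : Amb (Fin n × Bool) :=
  ⟨Equiv.prodCongr (Equiv.refl _) ⟨not, not, Bool.not_not, Bool.not_not⟩, Prod.snd, univ, univ⟩

/-- Ports of the standard ambient. -/
abbrev SP (w u : List Bool) (n : ℕ) : Type := (Fin w.length ⊕ Fin u.length) ⊕ (Fin n × Bool)

/-- The standard ambient: outer objects with words `w`, `u`, and `n` darts. -/
noncomputable def ambS (w u : List Bool) (n : ℕ) : Amb (SP w u n) :=
  ⟨Equiv.sumCongr (Equiv.sumCongr (finRotate _) (finRotate _)) (ambC n).π,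
    Sum.elim (Sum.elim w.get u.get) Prod.snd, univ.map Function.Embedding.inr, univ⟩

section Series

variable {K : Type} [CommRing K] [Algebra ℚ K] (x z : K)

/-- Two-boundary series (`u = []` means one boundary). -/
noncomputable def tau2 (w u : List Bool) : PowerSeries K :=
  if w = [] then (if u = [] then PowerSeries.C z else 0)
  else PowerSeries.mk fun n => ((n.factorial : ℚ)⁻¹) • (ambS w u n).T x z

/-- One-boundary series. -/
noncomputable def tau (w : List Bool) : PowerSeries K := tau2 x z w []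

/-- Generating series of the local coefficients. -/
noncomputable def gen (k : Fin 3) (u : List Bool) : PowerSeries K :=
  PowerSeries.mk fun n => ((n.factorial : ℚ)⁻¹) • (ambC n).G x z k univ u

/-- Wirings of two outer objects without darts in which no step joins two ports of the second. -/
noncomputable def Nb (w u : List Bool) : K :=
  ∑ ψ ∈ (ambS w u 0).TS.filter (fun ψ => ∀ j j', ψ (.inl (.inr j)) ≠ .inl (.inr j')),
    (ambS w u 0).wt ψ x z univ

/-- The couplings. -/
noncomputable def gam (u : List Bool) : PowerSeries K := gen x z 0 u + gen x z 1 u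

end Series

end Pool.Agent.P.MP_48bde8_co
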