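import Pool.Agent.P.MP_48bde8_co.Defs
import Pool.Agent.P.MP_48bde8_co.Reg

/-! Rooted maps as port diagrams; the algebraic interface between the two parts of the proof. -/

namespace Pool.Agent.P.MP_48bde8_co

open Equiv Finset
open scoped Classical

/-- The wiring of a pair of permutations of the darts. -/
def psiOf {n : ℕ} (σ α : Perm (Fin n)) : Perm (Fin n × Bool) :=
  Equiv.prodCongrLeft fun t => cond t α σ

/-- All decompositions `W = W₁ c W₂`. -/
def splits (c : Bool) : List Bool → List (List Bool × List Bool)
  | [] => []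
  | d :: W => (if d = c then [([], W)] else []) ++ (splits c W).map fun s => (d :: s.1, s.2)

/-- Words of length at most two. -/
def tails : List (List Bool) :=
  [[], [true], [false], [true, true], [true, false], [false, true], [false, false]]

/-- Words of length one to three. -/
def words : List (List Bool) := tails.map (true :: ·) ++ tails.map (false :: ·)

/-- The nine words `A, B, AA, AB, BB, AAA, AAB, ABB, BBB`. -/
def w9 : Fin 9 → List Bool :=
  ![[true], [false], [true, true], [true, false], [false, false], [true, true, true],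
    [true, true, false], [true, false, false], [false, false, false]]

section SD

variable {Λ : Type} [CommRing Λ]

/-- Loop equations for one boundary. -/
structure SD1 (x z : Λ) (τ γ : List Bool → Λ) : Prop where
  nil : τ [] = z
  rotT : ∀ c w, τ (w ++ [c]) = τ (c :: w)
  rotG : ∀ c w, γ (w ++ [c]) = γ (c :: w)
  sdA : ∀ W, τ (true :: W) = ((splits true W).map fun s => τ s.1 * τ s.2).sum +
    (tails.map fun s => γ (true :: s) * τ (W ++ s)).sum
  sdB : ∀ W, τ (false :: W) = x * τ W + ((splits false W).map fun s => τ (false :: s.1) * τ s.2).sum +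
    (tails.map fun s => γ (false :: s) * τ (false :: W ++ s)).sum

/-- Loop equations for two boundaries; `ω` is the two-boundary function with second word `u`. -/
structure SD2 (x : Λ) (τ γ : List Bool → Λ) (u : List Bool) (ω : List Bool → Λ) : Prop where
  nil : ω [] = 0
  rotT : ∀ c w, ω (w ++ [c]) = ω (c :: w)
  sdA : ∀ W, ω (true :: W) =
    ((splits true W).map fun s => τ s.1 * ω s.2 + ω s.1 * τ s.2).sum +
    (tails.map fun s => γ (true :: s) * ω (W ++ s)).sum +
    ((splits true u).map fun s => τ (W ++ s.2 ++ s.1)).sum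
  sdB : ∀ W, ω (false :: W) = x * ω W +
    ((splits false W).map fun s => τ (false :: s.1) * ω s.2 + ω (false :: s.1) * τ s.2).sum +
    (tails.map fun s => γ (false :: s) * ω (false :: W ++ s)).sum +
    ((splits false u).map fun s => τ (false :: W ++ s.2 ++ s.1)).sum

/-- The output in terms of the couplings. -/
def outG (x z t : Λ) (γ : List Bool → Λ) : Λ :=
  t ^ 8 * x ^ 2 * z ^ 4 - (1 + t ^ 2 * z) *
    ((γ [true, false] - t) * (t * x * z ^ 2) + γ [false, false] * (t ^ 2 * x ^ 2 * z ^ 2) +
      γ [true, true, false] * (2 * t ^ 2 * x * z ^ 3) +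
      γ [true, false, false] * (t * (2 * x ^ 2 * z ^ 2 + x * z ^ 3) + 6 * t ^ 3 * x ^ 2 * z ^ 3) +
      γ [false, false, false] * (2 * t ^ 2 * (x ^ 3 * z ^ 2 + x ^ 2 * z ^ 3) +
        4 * t ^ 4 * x ^ 3 * z ^ 3 + 2 * t ^ 6 * x ^ 3 * z ^ 4))

end SD

section Series

variable {K : Type} [CommRing K] [Algebra ℚ K] (x z : K)

/-- The generating function of 4-connected maps with weight `t` per dart. -/
noncomputable def Ft : PowerSeries K :=
  PowerSeries.mk fun n => ∑ ij ∈ (range (n + 5) ×ˢ range (n + 5)).filter
    (fun ij => 2 * (ij.1 + ij.2) = n + 4), (m ij.1 ij.2 : K) * x ^ ij.1 * z ^ ij.2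

/-- The signed generating function of rooted maps. -/
noncomputable def Sg : PowerSeries K :=
  PowerSeries.mk fun n => match n with
    | 0 => 0
    | k + 1 => ((k.factorial : ℚ)⁻¹) •
        ∑ ψ ∈ univ.filter (fun ψ => (ambC (k + 1)).Dgm ψ),
          sgnF ((ambC (k + 1)).atoms ψ) (0, true) • (ambC (k + 1)).wt ψ x z univ

/-- The result of the first part. -/
structure PartI (τ γ : List Bool → PowerSeries K) (ω : List Bool → List Bool → PowerSeries K) :
    Prop where
  sd1 : SD1 (PowerSeries.C x) (PowerSeries.C z) τ γ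
  sd2 : ∀ u, u ≠ [] → SD2 (PowerSeries.C x) τ γ u (ω u)
  const : ∀ u, PowerSeries.constantCoeff (γ u) = 0
  mom : ∀ i, τ (w9 i) = mom0 (PowerSeries.C x) (PowerSeries.C z) PowerSeries.X i
  out : (1 + PowerSeries.X ^ 2 * PowerSeries.C z) * Ft x z =
    outG (PowerSeries.C x) (PowerSeries.C z) PowerSeries.X γ

end Series

end Pool.Agent.P.MP_48bde8_co
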