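import Pool.Agent.P.MP_48bde8_co.D2

/-! Task MAPS: compatibility with ring homomorphisms. -/

namespace Pool.Agent.P.MP_48bde8_co

open Finset

variable {R R' : Type} [CommRing R] [CommRing R'] (ψ : R →+* R')

theorem map_mom0 (x z t : R) (i : Fin 9) : ψ (mom0 x z t i) = mom0 (ψ x) (ψ z) (ψ t) i := by
  fin_cases i <;> simp [mom0, map_ofNat]

theorem map_shear (l : R) (b : Fin 9 → R) (i : Fin 9) :
    ψ (shear l b i) = shear (ψ l) (fun j => ψ (b j)) i := by
  fin_cases i <;> simp [shear, map_ofNat]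

theorem map_gam9 (θ : Fin 10 → R) (i : Fin 9) : ψ (gam9 θ i) = gam9 (fun j => ψ (θ j)) i := by
  fin_cases i <;> simp [gam9, map_ofNat]

theorem map_coefT (x z : R) (θ : Fin 10 → R) (μ : Fin 9 → R) (i : Fin 5) :
    ψ (coefT x z θ μ i) = coefT (ψ x) (ψ z) (fun j => ψ (θ j)) (fun j => ψ (μ j)) i := by
  fin_cases i <;> simp [coefT, coef, map_ofNat]

theorem map_relT (x z : R) (θ : Fin 10 → R) (μ : Fin 9 → R) (i : Fin 4) :
    ψ (relT x z θ μ i) = relT (ψ x) (ψ z) (fun j => ψ (θ j)) (fun j => ψ (μ j)) i := by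
  fin_cases i <;> simp [relT, rel, map_ofNat]

theorem map_curveK (x z : R) (θ : Fin 10 → R) (κ : R) (k : Fin 5 → R) (f s : R) :
    ψ (curveK x z θ κ k f s) =
      curveK (ψ x) (ψ z) (fun j => ψ (θ j)) (ψ κ) (fun j => ψ (k j)) (ψ f) (ψ s) := by
  simp only [curveK, curve, map_add, map_sub, map_mul, map_pow, map_ofNat]

theorem curveAt_eq (x z t : R) (θ : Fin 10 → R) (f s : R) : curveAt x z t θ f s =
    curveK x z θ (θ 9) (coefT x z θ (shear (θ 1) (mom0 x z t))) f s :=
  rfl

theorem relAt_eq (x z t : R) (θ : Fin 10 → R) :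
    relAt x z t θ = relT x z θ (shear (θ 1) (mom0 x z t)) :=
  rfl

theorem map_curveAt (x z t : R) (θ : Fin 10 → R) (f s : R) : ψ (curveAt x z t θ f s) =
    curveAt (ψ x) (ψ z) (ψ t) (fun j => ψ (θ j)) (ψ f) (ψ s) := by
  simp only [curveAt_eq, map_curveK, map_coefT, map_shear, map_mom0]

theorem map_relAt (x z t : R) (θ : Fin 10 → R) (i : Fin 4) :
    ψ (relAt x z t θ i) = relAt (ψ x) (ψ z) (ψ t) (fun j => ψ (θ j)) i := by
  simp only [relAt_eq, map_relT, map_shear, map_mom0]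

theorem map_out (x z t : R) (θ : Fin 10 → R) :
    ψ (out x z t θ) = out (ψ x) (ψ z) (ψ t) (fun j => ψ (θ j)) := by
  simp only [out, map_add, map_sub, map_mul, map_pow, map_ofNat, map_one]

theorem map_outG (x z t : R) (γ : List Bool → R) :
    ψ (outG x z t γ) = outG (ψ x) (ψ z) (ψ t) (fun u => ψ (γ u)) := by
  simp only [outG, map_add, map_sub, map_mul, map_pow, map_ofNat, map_one]

theorem outG_eq (x z t : R) {γ : List Bool → R} {θ : Fin 10 → R} (h : ∀ i, γ (w9 i) = gam9 θ i) :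
    outG x z t γ = out x z t θ := by
  have h3 : γ [true, false] = θ 4 + θ 1 * θ 3 := h 3
  have h4 : γ [false, false] = θ 7 + θ 1 ^ 2 * θ 3 + 2 * θ 1 * θ 4 := h 4
  have h6 : γ [true, true, false] = θ 0 * θ 1 := h 6
  have h7 : γ [true, false, false] = θ 2 + θ 0 * θ 1 ^ 2 := h 7
  have h8 : γ [false, false, false] = θ 6 + θ 0 * θ 1 ^ 3 + 3 * θ 2 * θ 1 := h 8
  simp only [outG, out, h3, h4, h6, h7, h8]

theorem map_cF (x z : R) (θ : Fin 10 → R) (k : Fin 5 → R) (f s : R) :
    ψ (cF x z θ k f s) = cF (ψ x) (ψ z) (fun j => ψ (θ j)) (fun j => ψ (k j)) (ψ f) (ψ s) := by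
  simp only [cF, map_add, map_sub, map_mul, map_pow, map_ofNat]

theorem map_cFAt (x z t : R) (θ : Fin 10 → R) (f s : R) :
    ψ (cFAt x z t θ f s) = cFAt (ψ x) (ψ z) (ψ t) (fun j => ψ (θ j)) (ψ f) (ψ s) := by
  simp only [cFAt, map_cF, map_coefT, map_shear, map_mom0]

theorem map_Kap (x z : R) (θ : Fin 10 → R) (τ : List Bool → R) :
    ψ (Kap x z θ τ) = Kap (ψ x) (ψ z) (fun j => ψ (θ j)) (fun w => ψ (τ w)) := by
  simp only [Kap, map_add, map_sub, map_mul, map_pow, map_neg, map_ofNat]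

theorem map_shr (l : R) (τ : List Bool → R) (w : List Bool) :
    ψ (shr l τ w) = shr (ψ l) (fun y => ψ (τ y)) w := by
  have h : ∀ w y, ψ (shrAux l τ y w) = shrAux (ψ l) (fun y => ψ (τ y)) y w := by
    intro w
    induction w with
    | nil => intro y; rfl
    | cons c w ih =>
      intro y
      cases c
      · simp only [shrAux, ih]
      · simp only [shrAux, map_add, map_mul, ih]
  exact h w []

theorem map_cB (x : R) (τ : List Bool → R) (k : ℕ) (w : List Bool) :
    ψ (cB x τ k w) = cB (ψ x) (fun y => ψ (τ y)) k w := by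
  induction k generalizing w with
  | zero => rfl
  | succ k ih => simp only [cB, map_sub, map_mul, ih]

theorem SD1.map {x z : R} {τ γ : List Bool → R} (h : SD1 x z τ γ) :
    SD1 (ψ x) (ψ z) (fun w => ψ (τ w)) (fun w => ψ (γ w)) := by
  refine ⟨congrArg ψ h.nil, fun c w => congrArg ψ (h.rotT c w),
    fun c w => congrArg ψ (h.rotG c w), fun W => ?_, fun W => ?_⟩
  · simpa only [map_add, map_mul, map_list_sum, List.map_map, Function.comp_def] using
      congrArg ψ (h.sdA W)
  · simpa only [map_add, map_mul, map_list_sum, List.map_map, Function.comp_def] using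
      congrArg ψ (h.sdB W)

theorem SD2.map {x : R} {τ γ ω : List Bool → R} {u : List Bool} (h : SD2 x τ γ u ω) :
    SD2 (ψ x) (fun w => ψ (τ w)) (fun w => ψ (γ w)) u (fun w => ψ (ω w)) := by
  refine ⟨by simpa only [map_zero] using congrArg ψ h.nil, fun c w => congrArg ψ (h.rotT c w),
    fun W => ?_, fun W => ?_⟩
  · simpa only [map_add, map_mul, map_list_sum, List.map_map, Function.comp_def] using
      congrArg ψ (h.sdA W)
  · simpa only [map_add, map_mul, map_list_sum, List.map_map, Function.comp_def] using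
      congrArg ψ (h.sdB W)

theorem SDC.map {x z : R} {θ : Fin 10 → R} {τ : List Bool → R} (h : SDC x z θ τ) :
    SDC (ψ x) (ψ z) (fun j => ψ (θ j)) (fun w => ψ (τ w)) := by
  refine ⟨congrArg ψ h.nil, fun c w => congrArg ψ (h.rotT c w), fun W => ?_, fun W => ?_⟩
  · simpa only [insA, map_add, map_mul, map_zero, map_list_sum, List.map_map, Function.comp_def]
      using congrArg ψ (h.sdA W)
  · simpa only [insB, map_add, map_mul, map_zero, map_list_sum, List.map_map, Function.comp_def]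
      using congrArg ψ (h.sdB W)

theorem PR.map {x s : R} {θ : Fin 10 → R} {τ φ : List Bool → R} (h : PR x s θ τ φ) :
    PR (ψ x) (ψ s) (fun j => ψ (θ j)) (fun w => ψ (τ w)) (fun w => ψ (φ w)) := by
  refine ⟨fun w => ?_, fun w => ?_, fun w => ?_, fun w => ?_, ?_⟩
  · simpa only [map_add, map_sub, map_mul, map_one] using congrArg ψ (h.stR w)
  · simpa only [map_add, map_sub, map_mul, map_one] using congrArg ψ (h.stL w)
  · simpa only [insA, map_add, map_mul, map_zero, map_list_sum, List.map_map, Function.comp_def]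
      using congrArg ψ (h.rA w)
  · simpa only [insB, map_add, map_mul, map_zero, map_list_sum, List.map_map, Function.comp_def]
      using congrArg ψ (h.rB w)
  · simpa only [insB, map_add, map_mul, map_zero] using congrArg ψ h.rI

theorem IsPhi.map {ε s x : R} {τ φ : List Bool → R} (h : IsPhi ε s x τ φ) :
    IsPhi (ψ ε) (ψ s) (ψ x) (fun w => ψ (τ w)) (fun w => ψ (φ w)) := by
  intro w N
  simpa only [map_sub, map_pow, map_sum, map_mul, map_cB] using map_dvd ψ (h w N)

theorem Small.map {ε z : R} {θ : Fin 10 → R} (h : Small ε z θ) :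
    Small (ψ ε) (ψ z) (fun j => ψ (θ j)) := by
  obtain ⟨h0, h1, h2, h3, h4, h5, h6, h7, h8⟩ := h
  exact ⟨by simpa only [map_pow] using map_dvd ψ h0, map_dvd ψ h1, map_dvd ψ h2,
    by simpa only [map_add, map_one] using map_dvd ψ h3, map_dvd ψ h4, map_dvd ψ h5,
    map_dvd ψ h6, map_dvd ψ h7, by simpa only [map_add, map_one] using map_dvd ψ h8⟩

theorem Maps.map_unit (e : Rˣ) (n : ℤ) :
    ψ ((e ^ n : Rˣ) : R) = (((Units.map ψ.toMonoidHom e) ^ n : R'ˣ) : R') := by
  rw [← map_zpow]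
  rfl

theorem VV.map {S : Subring R} {S' : Subring R'} (hS : ∀ g ∈ S, ψ g ∈ S') {e : Rˣ} {n : ℤ} {f : R}
    (h : VV S e n f) : VV S' (Units.map ψ.toMonoidHom e) n (ψ f) := by
  obtain ⟨g, hg, rfl⟩ := h
  exact ⟨ψ g, hS g hg, by rw [map_mul, Maps.map_unit]⟩

theorem ParLT.map {S : Subring R} {S' : Subring R'} (hS : ∀ g ∈ S, ψ g ∈ S') {e : Rˣ}
    {sg si hf : R} {θ : Fin 10 → R} (h : ParLT S e sg si hf θ) :
    ParLT S' (Units.map ψ.toMonoidHom e) (ψ sg) (ψ si) (ψ hf) (fun j => ψ (θ j)) := by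
  have hL : ∀ {n : ℤ} {c f : R}, LT S e n c f →
      LT S' (Units.map ψ.toMonoidHom e) n (ψ c) (ψ f) := by
    intro n c f hh
    refine ⟨hS c hh.1, ?_⟩
    have h1 := VV.map ψ hS hh.2
    rwa [map_sub, map_mul, Maps.map_unit] at h1
  have he : ((Units.map ψ.toMonoidHom e : R'ˣ) : R') = ψ e := rfl
  refine ⟨hS _ h.he, hS _ h.hsg, hS _ h.hsi, ?_, hS _ h.hhf, ?_, ?_, VV.map ψ hS h.hl, ?_, ?_, ?_,
    ?_, ?_, ?_, ?_⟩
  · simpa only [map_mul, map_one] using congrArg ψ h.hinv
  · simpa only [map_mul, map_one, map_ofNat] using congrArg ψ h.hhf2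
  · simpa only [map_neg, map_one] using hL h.ha
  · simpa only [map_pow] using hL h.hc
  · simpa only [map_neg, map_one] using hL h.hp
  · simpa only [map_one] using hL h.hq
  · simpa only [map_neg, map_one] using hL h.hu
  · rw [he]
    simpa only [map_add, map_mul, map_pow] using VV.map ψ hS h.hd
  · rw [he]
    simpa only [map_sub, map_mul, map_pow] using VV.map ψ hS h.hr
  · simpa only [map_neg, map_one] using hL h.hv

theorem map_om (e : Rˣ) (si : R) (i : Fin 6) (δ : R) :
    ψ (om e si i δ) = om (Units.map ψ.toMonoidHom e) (ψ si) i (ψ δ) := by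
  fin_cases i <;> simp [om]

theorem map_mOf (e : Rˣ) (si : R) (i : Fin 6) (δ : R) :
    ψ (mOf e si i δ) = mOf (Units.map ψ.toMonoidHom e) (ψ si) i (ψ δ) := by
  rw [mOf, mOf, map_mul, Maps.map_unit, map_om]

theorem map_d0 (sg si : R) (i : Fin 6) : ψ (d0 sg si i) = d0 (ψ sg) (ψ si) i := by
  fin_cases i <;> simp [d0]

theorem map_un (sg : R) (i : Fin 6) (δ : R) : ψ (un sg i δ) = un (ψ sg) i (ψ δ) := by
  fin_cases i <;> simp [un]

@[simp] theorem fst_dn (a b : R) : (dn a b).fst = a := by simp [dn]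

@[simp] theorem snd_dn (a b : R) : (dn a b).snd = b := by simp [dn]

@[simp] theorem fst_inD (a : R) : (inD a).fst = a :=
  rfl

@[simp] theorem snd_inD (a : R) : (inD a).snd = 0 :=
  rfl

theorem dn_fst_snd (y : DualNumber R) : dn y.fst y.snd = y :=
  TrivSqZeroExt.inl_fst_add_inr_snd_eq y

theorem dn_zero (a : R) : dn a 0 = inD a :=
  TrivSqZeroExt.ext (by simp) (by simp)

/-- The projection to the first component. -/
def fstD : DualNumber R →+* R := (TrivSqZeroExt.fstHom R R R).toRingHom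

@[simp] theorem fstD_apply (y : DualNumber R) : fstD y = y.fst :=
  rfl

/-- Functoriality of the dual numbers, with a rescaling of `η` by `c`. -/
theorem exists_mapD (c : R') : ∃ χ : DualNumber R →+* DualNumber R',
    ∀ a b, χ (dn a b) = dn (ψ a) (c * ψ b) := by
  refine ⟨{ toFun := fun y => dn (ψ y.fst) (c * ψ y.snd)
            map_one' := TrivSqZeroExt.ext (by simp) (by simp)
            map_mul' := fun y y' => TrivSqZeroExt.ext (by simp) (by simp; ring)
            map_zero' := TrivSqZeroExt.ext (by simp) (by simp)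
            map_add' := fun y y' => TrivSqZeroExt.ext (by simp) (by simp; ring) }, fun a b => ?_⟩
  simp

theorem eval_Ecurve (x z t : R) (θ : Fin 10 → R) (f s : R') :
    MvPolynomial.eval₂ ψ ![f, s] (Ecurve x z t θ) =
      curveAt (ψ x) (ψ z) (ψ t) (fun j => ψ (θ j)) f s := by
  have h := map_curveAt (MvPolynomial.eval₂Hom ψ ![f, s]) (MvPolynomial.C x) (MvPolynomial.C z)
    (MvPolynomial.C t) (fun j => MvPolynomial.C (θ j)) (MvPolynomial.X 0) (MvPolynomial.X 1)
  simpa only [MvPolynomial.coe_eval₂Hom, MvPolynomial.eval₂_C, MvPolynomial.eval₂_X,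
    Matrix.cons_val_zero, Matrix.cons_val_one, Ecurve] using h

/-- First-order Taylor formula. -/
theorem eval₂_dn {ι : Type} [Fintype ι] (p : MvPolynomial ι R) (a b : ι → R') :
    MvPolynomial.eval₂ (inD.comp ψ) (fun i => dn (a i) (b i)) p =
      dn (MvPolynomial.eval₂ ψ a p) (∑ i, MvPolynomial.eval₂ ψ a (MvPolynomial.pderiv i p) * b i) := by
  classical
  induction p using MvPolynomial.induction_on with
  | C r => simp [dn_zero]
  | add p q hp hq =>
    rw [MvPolynomial.eval₂_add, hp, hq]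
    refine TrivSqZeroExt.ext (by simp) ?_
    simp [add_mul, Finset.sum_add_distrib]
  | mul_X p n hp =>
    rw [MvPolynomial.eval₂_mul, hp, MvPolynomial.eval₂_X]
    refine TrivSqZeroExt.ext (by simp) ?_
    have h1 : ∀ i, MvPolynomial.eval₂ ψ a (MvPolynomial.pderiv i (p * MvPolynomial.X n)) * b i =
        (if n = i then MvPolynomial.eval₂ ψ a p * b i else 0) +
          MvPolynomial.eval₂ ψ a (MvPolynomial.pderiv i p) * b i * a n := by
      intro i
      rw [Derivation.leibniz, MvPolynomial.pderiv_X, smul_eq_mul, smul_eq_mul,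
        MvPolynomial.eval₂_add, MvPolynomial.eval₂_mul, MvPolynomial.eval₂_mul,
        MvPolynomial.eval₂_X, Pi.single_apply]
      split_ifs <;> simp <;> ring
    simp only [h1, Finset.sum_add_distrib, Finset.sum_ite_eq, Finset.mem_univ, if_true,
      ← Finset.sum_mul, snd_dn, TrivSqZeroExt.snd_mul, fst_dn, smul_eq_mul, op_smul_eq_mul]

theorem map_Ecurve (x z t : R) (θ : Fin 10 → R) :
    MvPolynomial.map ψ (Ecurve x z t θ) = Ecurve (ψ x) (ψ z) (ψ t) (fun j => ψ (θ j)) := by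
  simp only [Ecurve, map_curveAt, MvPolynomial.map_C, MvPolynomial.map_X]

/-- First-order expansion of the curve. -/
theorem curveAt_dn (x z t : R) (θ : Fin 10 → R) (f s a b : R') :
    curveAt (inD (ψ x)) (inD (ψ z)) (inD (ψ t)) (fun j => inD (ψ (θ j))) (dn f a) (dn s b) =
      dn (curveAt (ψ x) (ψ z) (ψ t) (fun j => ψ (θ j)) f s)
        (MvPolynomial.eval₂ ψ ![f, s] (MvPolynomial.pderiv 0 (Ecurve x z t θ)) * a +
          MvPolynomial.eval₂ ψ ![f, s] (MvPolynomial.pderiv 1 (Ecurve x z t θ)) * b) := by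
  have h := eval₂_dn ψ (Ecurve x z t θ) ![f, s] ![a, b]
  have e : (fun i => dn (![f, s] i) (![a, b] i)) = ![dn f a, dn s b] := by
    funext i
    fin_cases i <;> rfl
  rw [e, eval_Ecurve, eval_Ecurve, Fin.sum_univ_two] at h
  exact h

/-- A singular point is a common zero of the curve and its two derivatives. -/
theorem sing_iff (x z t : R) (θ : Fin 10 → R) (f s : R) :
    Sing x z t θ f s ↔ curveAt x z t θ f s = 0 ∧
      MvPolynomial.eval ![f, s] (MvPolynomial.pderiv 0 (Ecurve x z t θ)) = 0 ∧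
      MvPolynomial.eval ![f, s] (MvPolynomial.pderiv 1 (Ecurve x z t θ)) = 0 := by
  have h : ∀ a b : R, curveAt (inD x) (inD z) (inD t) (fun j => inD (θ j)) (dn f a) (dn s b) =
      dn (curveAt x z t θ f s)
        (MvPolynomial.eval ![f, s] (MvPolynomial.pderiv 0 (Ecurve x z t θ)) * a +
          MvPolynomial.eval ![f, s] (MvPolynomial.pderiv 1 (Ecurve x z t θ)) * b) :=
    fun a b => curveAt_dn (RingHom.id R) x z t θ f s a b
  constructor
  · intro hs
    have h0 := congrArg TrivSqZeroExt.fst ((h 0 0).symm.trans (hs 0 0))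
    have h1 := congrArg TrivSqZeroExt.snd ((h 1 0).symm.trans (hs 1 0))
    have h2 := congrArg TrivSqZeroExt.snd ((h 0 1).symm.trans (hs 0 1))
    rw [fst_dn, TrivSqZeroExt.fst_zero] at h0
    rw [snd_dn, TrivSqZeroExt.snd_zero, mul_one, mul_zero, add_zero] at h1
    rw [snd_dn, TrivSqZeroExt.snd_zero, mul_one, mul_zero, zero_add] at h2
    exact ⟨h0, h1, h2⟩
  · rintro ⟨h0, h1, h2⟩ a b
    rw [h, h0, h1, h2, zero_mul, zero_mul, add_zero, dn_zero, map_zero]

theorem Maps.snd_curveK (x z : R) (θ : Fin 10 → R) (κ : R) (k : Fin 5 → R) (f s : R) :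
    (curveK (inD x) (inD z) (fun j => inD (θ j)) (inD κ) (fun j => inD (k j)) (dn f 1)
      (inD s)).snd = cF x z θ k f s := by
  have e2 : (2 : DualNumber R) = inD 2 := (map_ofNat inD 2).symm
  have e4 : (4 : DualNumber R) = inD 4 := (map_ofNat inD 4).symm
  have e8 : (8 : DualNumber R) = inD 8 := (map_ofNat inD 8).symm
  simp only [curveK, curve, cF, e2, e4, e8, ← map_mul, ← map_add, ← map_sub, ← map_pow]
  simp only [pow_two, TrivSqZeroExt.snd_add, TrivSqZeroExt.snd_sub, TrivSqZeroExt.snd_mul,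
    TrivSqZeroExt.fst_add, TrivSqZeroExt.fst_sub, TrivSqZeroExt.fst_mul, fst_inD, snd_inD, fst_dn,
    snd_dn, smul_eq_mul, op_smul_eq_mul]
  ring

theorem Sing.map {x z t : R} {θ : Fin 10 → R} {f s : R} (h : Sing x z t θ f s) :
    Sing (ψ x) (ψ z) (ψ t) (fun j => ψ (θ j)) (ψ f) (ψ s) := by
  rw [sing_iff] at h ⊢
  obtain ⟨h0, h1, h2⟩ := h
  have hE := map_Ecurve ψ x z t θ
  have key : ∀ p : MvPolynomial (Fin 2) R, MvPolynomial.eval ![ψ f, ψ s] (MvPolynomial.map ψ p) =
      ψ (MvPolynomial.eval ![f, s] p) := by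
    intro p
    rw [MvPolynomial.eval_map, ← MvPolynomial.eval₂_id, MvPolynomial.eval₂_comp_left,
      RingHom.comp_id]
    congr 1
    funext i
    fin_cases i <;> rfl
  refine ⟨by rw [← map_curveAt, h0, map_zero], ?_, ?_⟩
  · rw [← hE, MvPolynomial.pderiv_map, key, h1, map_zero]
  · rw [← hE, MvPolynomial.pderiv_map, key, h2, map_zero]

theorem Sing.zero {x z t : R} {θ : Fin 10 → R} {f s : R} (h : Sing x z t θ f s) :
    curveAt x z t θ f s = 0 :=
  ((sing_iff x z t θ f s).1 h).1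

theorem Sys.map {x z t : R} {θ : Fin 10 → R} {f s : Fin 6 → R} (h : Sys x z t θ f s) :
    Sys (ψ x) (ψ z) (ψ t) (fun j => ψ (θ j)) (fun i => ψ (f i)) (fun i => ψ (s i)) := by
  exact ⟨fun j => by rw [← map_relAt, h.1 j, map_zero], fun i => Sing.map ψ (h.2 i)⟩

theorem eval_pderiv_Ecurve (x z t : R) (θ : Fin 10 → R) (f s : R') :
    MvPolynomial.eval₂ ψ ![f, s] (MvPolynomial.pderiv 0 (Ecurve x z t θ)) =
      cFAt (ψ x) (ψ z) (ψ t) (fun j => ψ (θ j)) f s := by
  have h := curveAt_dn ψ x z t θ f s 1 0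
  rw [mul_one, mul_zero, add_zero] at h
  have h1 := congrArg TrivSqZeroExt.snd h
  rw [snd_dn] at h1
  rw [← h1, curveAt_eq, dn_zero]
  have hk : coefT (inD (ψ x)) (inD (ψ z)) (fun j => inD (ψ (θ j)))
      (shear (inD (ψ (θ 1))) (mom0 (inD (ψ x)) (inD (ψ z)) (inD (ψ t)))) =
      fun j => inD (coefT (ψ x) (ψ z) (fun j => ψ (θ j))
        (shear (ψ (θ 1)) (mom0 (ψ x) (ψ z) (ψ t))) j) := by
    funext j
    have h2 := map_coefT (R' := DualNumber R') inD (ψ x) (ψ z) (fun j => ψ (θ j))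
      (shear (ψ (θ 1)) (mom0 (ψ x) (ψ z) (ψ t))) j
    have h3 : (fun j => inD (shear (ψ (θ 1)) (mom0 (ψ x) (ψ z) (ψ t)) j)) =
        shear (inD (ψ (θ 1))) (mom0 (inD (ψ x)) (inD (ψ z)) (inD (ψ t))) := by
      funext i
      rw [map_shear (R' := DualNumber R') inD]
      congr 1
      funext m
      exact map_mom0 (R' := DualNumber R') inD _ _ _ m
    rw [h3] at h2
    exact h2.symm
  rw [hk]
  exact Maps.snd_curveK _ _ _ _ _ _ _

end Pool.Agent.P.MP_48bde8_co
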