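import Pool.Agent.P.MP_48bde8_co.CycC

/-! Task SURGL: cycles after a surgery. -/

namespace Pool.Agent.P.MP_48bde8_co

open Equiv Finset
open scoped Classical

namespace SurgL

variable {P : Type}

theorem cons_iff {f : Perm P} {p : P} {l : List P} :
    IsCyc f (p :: l) ↔ (p :: l).Nodup ∧ (p :: l).map f = l ++ [p] := by
  rw [IsCyc, List.rotate_cons_succ, List.rotate_zero]

theorem path_append {f : P → P} {p q z : P} {l l' : List P} :
    (p :: (l ++ q :: l')).map f = (l ++ q :: l') ++ [z] ↔
      (p :: l).map f = l ++ [q] ∧ (q :: l').map f = l' ++ [z] := by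
  rw [← List.cons_append, List.map_append,
    show (l ++ q :: l') ++ [z] = (l ++ [q]) ++ (l' ++ [z]) by simp]
  exact ⟨fun h => List.append_inj h (by simp), fun h => by rw [h.1, h.2]⟩

theorem map_swap {f : Perm P} {p q : P} {l : List P} (hp : p ∉ l) (hq : q ∉ l) :
    l.map (f * swap p q : Perm P) = l.map f :=
  List.map_congr_left fun a ha => by
    rw [Perm.mul_apply, swap_apply_of_ne_of_ne (ne_of_mem_of_not_mem ha hp)
      (ne_of_mem_of_not_mem ha hq)]

theorem next {g : Perm P} {I : Finset P} {z : P} (hz : z ∉ I) (l : List P) (b : P)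
    (h : (b :: l).map g = l ++ [z]) : ∃ k, 0 < k ∧ (g ^ k) b = (l.filter (· ∉ I)).headD z ∧
      (g ^ k) b ∉ I ∧ ∀ j, 0 < j → j < k → (g ^ j) b ∈ I := by
  induction l generalizing b with
  | nil =>
    simp only [List.map_cons, List.map_nil, List.nil_append, List.cons.injEq, and_true] at h
    exact ⟨1, one_pos, by simpa using h, by simpa [h] using hz, fun j _ _ => by omega⟩
  | cons c l ih =>
    rw [List.map_cons, List.cons_append, List.cons.injEq] at h
    by_cases hc : c ∈ I
    · obtain ⟨k, -, e, h1, h2⟩ := ih c h.2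
      refine ⟨k + 1, k.succ_pos, ?_, ?_, fun j h0 hj => ?_⟩
      · rw [pow_succ, Perm.mul_apply, h.1, e, List.filter_cons_of_neg (by simpa using hc)]
      · rwa [pow_succ, Perm.mul_apply, h.1]
      · obtain ⟨j, rfl⟩ := Nat.exists_eq_add_one_of_ne_zero h0.ne'
        rw [pow_succ, Perm.mul_apply, h.1]
        rcases Nat.eq_zero_or_pos j with rfl | hj0
        · exact hc
        · exact h2 j hj0 (by omega)
    · refine ⟨1, one_pos, ?_, by simpa [h.1] using hc, fun j _ _ => by omega⟩
      rw [pow_one, h.1, List.filter_cons_of_pos (by simpa using hc), List.headD_cons]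

theorem headD_cons_tail (l : List P) (z : P) : l.headD z :: (l ++ [z]).tail = l ++ [z] := by
  cases l <;> rfl

variable [Fintype P]

theorem skip_head {g : Perm P} {I : Finset P} {z b : P} (hz : z ∉ I) (hb : b ∉ I) {l : List P}
    (h : (b :: l).map g = l ++ [z]) : skip g I b = (l.filter (· ∉ I)).headD z := by
  obtain ⟨k, h0, e, h1, h2⟩ := next hz l b h
  rw [skip_eq hb h0 h1 h2, e]

theorem skip_path {g : Perm P} {I : Finset P} {z : P} (hz : z ∉ I) (l : List P) (b : P)
    (h : (b :: l).map g = l ++ [z]) :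
    (l.filter (· ∉ I)).map (skip g I) = (l.filter (· ∉ I) ++ [z]).tail := by
  induction l generalizing b with
  | nil => rfl
  | cons c l ih =>
    rw [List.map_cons, List.cons_append, List.cons.injEq] at h
    by_cases hc : c ∈ I
    · rw [List.filter_cons_of_neg (by simpa using hc)]
      exact ih c h.2
    · rw [List.filter_cons_of_pos (by simpa using hc), List.map_cons, ih c h.2,
        skip_head hz hc h.2, headD_cons_tail]
      rfl

theorem filter_cons {g : Perm P} {I : Finset P} {p : P} {l : List P} (h : IsCyc g (p :: l))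
    (hp : p ∉ I) : IsCyc (skip g I) (p :: l.filter (· ∉ I)) := by
  rw [cons_iff] at h ⊢
  refine ⟨h.1.sublist (List.filter_sublist.cons_cons p), ?_⟩
  rw [List.map_cons, skip_path hp l p h.2, skip_head hp hp h.2, headD_cons_tail]

/-- Deleting the points of `I` from a cycle. -/
theorem filter {g : Perm P} {l : List P} (h : IsCyc g l) (I : Finset P) :
    IsCyc (skip g I) (l.filter (· ∉ I)) := by
  by_cases hl : ∃ c ∈ l, c ∉ I
  · obtain ⟨c, hc, hI⟩ := hl
    obtain ⟨s, t, rfl⟩ := List.append_of_mem hc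
    have h1 := h.rotate s.length
    rw [List.rotate_append_length_eq, List.cons_append] at h1
    have h2 := (filter_cons h1 hI).rotate (c :: t.filter (· ∉ I)).length
    rw [List.filter_append, ← List.cons_append, List.rotate_append_length_eq] at h2
    rwa [List.filter_append, List.filter_cons_of_pos (by simpa using hI)]
  · rw [List.filter_eq_nil_iff.mpr fun a ha hn => hl ⟨a, ha, by simpa using hn⟩]
    exact ⟨List.nodup_nil, rfl⟩

omit [Fintype P] in
theorem filter_self {I : Finset P} {l : List P} (h : ∀ a ∈ l, a ∉ I) : l.filter (· ∉ I) = l :=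
  List.filter_eq_self.mpr fun a ha => by simpa using h a ha

omit [Fintype P] in
theorem merge {f : Perm P} {p q : P} {l l' : List P} (h : IsCyc f (p :: l))
    (h' : IsCyc f (q :: l')) (hd : (p :: l).Disjoint (q :: l')) :
    IsCyc (f * swap p q) (p :: (l' ++ q :: l)) := by
  rw [cons_iff] at h h' ⊢
  have hp := (List.nodup_cons.mp h.1).1
  have hq := (List.nodup_cons.mp h'.1).1
  have hp' : p ∉ l' := fun e => hd List.mem_cons_self (List.mem_cons_of_mem _ e)
  have hq' : q ∉ l := fun e => hd (List.mem_cons_of_mem _ e) List.mem_cons_self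
  refine ⟨?_, path_append.mpr ⟨?_, ?_⟩⟩
  · refine (List.Nodup.append h.1 h'.1 hd).perm ?_
    rw [List.cons_append, List.perm_cons]
    exact List.perm_middle.trans ((List.perm_append_comm.cons q).trans List.perm_middle.symm)
  · rw [List.map_cons, map_swap hp' hq, Perm.mul_apply, swap_apply_left]
    exact h'.2
  · rw [List.map_cons, map_swap hp hq', Perm.mul_apply, swap_apply_right]
    exact h.2

omit [Fintype P] in
theorem split_facts {p q : P} {l l' : List P} (h : (p :: (l ++ q :: l')).Nodup) :
    p ≠ q ∧ p ∉ l ∧ p ∉ l' ∧ q ∉ l ∧ q ∉ l' ∧ l.Nodup ∧ l'.Nodup := by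
  rw [List.nodup_cons, List.nodup_middle, List.nodup_cons, List.nodup_append] at h
  simp only [List.mem_append, List.mem_cons, not_or] at h
  exact ⟨h.1.2.1, h.1.1, h.1.2.2, h.2.1.1, h.2.1.2, h.2.2.1, h.2.2.2.1⟩

omit [Fintype P] in
theorem split {f : Perm P} {p q : P} {l l' : List P} (h : IsCyc f (p :: (l ++ q :: l'))) :
    IsCyc (f * swap p q) (q :: l) ∧ IsCyc (f * swap p q) (p :: l') := by
  rw [cons_iff] at h
  obtain ⟨-, h1, h2, h3, h4, h5, h6⟩ := split_facts h.1
  obtain ⟨e1, e2⟩ := path_append.mp h.2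
  rw [cons_iff, cons_iff]
  refine ⟨⟨List.nodup_cons.mpr ⟨h3, h5⟩, ?_⟩, List.nodup_cons.mpr ⟨h2, h6⟩, ?_⟩
  · rw [List.map_cons, map_swap h1 h3, Perm.mul_apply, swap_apply_right]
    exact e1
  · rw [List.map_cons, map_swap h2 h4, Perm.mul_apply, swap_apply_left]
    exact e2

end SurgL

variable {P : Type} [Fintype P] {f : Perm P} {p q : P} {l l' : List P}

theorem isCyc_mergeA (h : IsCyc f (p :: l)) (h' : IsCyc f (q :: l'))
    (hd : (p :: l).Disjoint (q :: l')) : IsCyc (skip (f * swap p q) {p, q}) (l ++ l') := by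
  have hm := SurgL.merge h h' hd
  obtain ⟨-, h1, h2, h3, h4, -, -⟩ := SurgL.split_facts hm.1
  have h5 := SurgL.filter hm {p, q}
  rw [List.filter_cons_of_neg (by simp), List.filter_append, List.filter_cons_of_neg (by simp),
    SurgL.filter_self (l := l') fun a ha => by
      simp only [mem_insert, mem_singleton, not_or]
      exact ⟨fun e => h1 (e ▸ ha), fun e => h3 (e ▸ ha)⟩,
    SurgL.filter_self (l := l) fun a ha => by
      simp only [mem_insert, mem_singleton, not_or]
      exact ⟨fun e => h2 (e ▸ ha), fun e => h4 (e ▸ ha)⟩] at h5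
  simpa only [List.rotate_append_length_eq] using h5.rotate l'.length

theorem isCyc_mergeB (h : IsCyc f (p :: l)) (h' : IsCyc f (q :: l'))
    (hd : (p :: l).Disjoint (q :: l')) : IsCyc (skip (f * swap p q) {p}) (q :: (l ++ l')) := by
  have hm := SurgL.merge h h' hd
  have h5 := SurgL.filter hm {p}
  rw [List.filter_cons_of_neg (by simp), SurgL.filter_self fun a ha => by
    rw [mem_singleton]
    exact fun e => (List.nodup_cons.mp hm.1).1 (e ▸ ha)] at h5
  simpa only [List.rotate_append_length_eq, List.cons_append] using h5.rotate l'.length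

theorem isCyc_splitA (h : IsCyc f (p :: (l ++ q :: l'))) :
    IsCyc (skip (f * swap p q) {p, q}) l ∧ IsCyc (skip (f * swap p q) {p, q}) l' := by
  obtain ⟨-, h1, h2, h3, h4, -, -⟩ := SurgL.split_facts h.1
  have h5 := SurgL.filter (SurgL.split h).1 {p, q}
  have h6 := SurgL.filter (SurgL.split h).2 {p, q}
  rw [List.filter_cons_of_neg (by simp), SurgL.filter_self fun a ha => by
    simp only [mem_insert, mem_singleton, not_or]
    exact ⟨fun e => h1 (e ▸ ha), fun e => h3 (e ▸ ha)⟩] at h5
  rw [List.filter_cons_of_neg (by simp), SurgL.filter_self fun a ha => by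
    simp only [mem_insert, mem_singleton, not_or]
    exact ⟨fun e => h2 (e ▸ ha), fun e => h4 (e ▸ ha)⟩] at h6
  exact ⟨h5, h6⟩

theorem isCyc_splitB (h : IsCyc f (p :: (l ++ q :: l'))) :
    IsCyc (skip (f * swap p q) {p}) (q :: l) ∧ IsCyc (skip (f * swap p q) {p}) l' := by
  obtain ⟨h0, h1, h2, -, -, -, -⟩ := SurgL.split_facts h.1
  have h5 := SurgL.filter (SurgL.split h).1 {p}
  have h6 := SurgL.filter (SurgL.split h).2 {p}
  rw [SurgL.filter_self fun a ha => by
    rw [mem_singleton]
    rintro rfl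
    rcases List.mem_cons.mp ha with e | e
    exacts [h0 e, h1 e]] at h5
  rw [List.filter_cons_of_neg (by simp), SurgL.filter_self fun a ha => by
    rw [mem_singleton]
    exact fun e => h2 (e ▸ ha)] at h6
  exact ⟨h5, h6⟩

theorem isCyc_drop (h : IsCyc f (p :: l)) : IsCyc (skip f {p}) l := by
  have h5 := SurgL.filter h {p}
  rwa [List.filter_cons_of_neg (by simp), SurgL.filter_self fun a ha => by
    rw [mem_singleton]
    exact fun e => (List.nodup_cons.mp h.1).1 (e ▸ ha)] at h5

theorem isCyc_other (h : IsCyc f l) (hp : p ∉ l) (hq : q ∉ l) {I : Finset P} (hI : I ⊆ {p, q}) :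
    IsCyc (skip (f * swap p q) I) l := by
  have h5 := SurgL.filter (g := f * swap p q) ⟨h.1, (SurgL.map_swap hp hq).trans h.2⟩ I
  rwa [SurgL.filter_self fun a ha hn => by
    have := hI hn
    simp only [mem_insert, mem_singleton] at this
    rcases this with rfl | rfl
    exacts [hp ha, hq ha]] at h5

/-- The cycles of the product itself. -/
theorem isCyc_mul_merge (h : IsCyc f (p :: l)) (h' : IsCyc f (q :: l'))
    (hd : (p :: l).Disjoint (q :: l')) : IsCyc (f * swap p q) (p :: (l' ++ q :: l)) :=
  SurgL.merge h h' hd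

theorem isCyc_mul_split (h : IsCyc f (p :: (l ++ q :: l'))) :
    IsCyc (f * swap p q) (q :: l) ∧ IsCyc (f * swap p q) (p :: l') := SurgL.split h

/-- Links generated by `f` and a transposition. -/
theorem lnk_swap {a b : P} (h : Lnk f (swap p q) a b) :
    f.SameCycle a b ∨
      ((f.SameCycle a p ∨ f.SameCycle a q) ∧ (f.SameCycle b p ∨ f.SameCycle b q)) := by
  refine CycC.lnk_le (E := fun a b => f.SameCycle a b ∨
    ((f.SameCycle a p ∨ f.SameCycle a q) ∧ (f.SameCycle b p ∨ f.SameCycle b q)))
    ⟨fun a => Or.inl (Perm.SameCycle.refl f a), ?_, ?_⟩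
    (fun a => Or.inl (Perm.sameCycle_apply_right.mpr (Perm.SameCycle.refl f a))) (fun a => ?_) h
  · rintro a b (h | h)
    exacts [Or.inl h.symm, Or.inr h.symm]
  · rintro a b c (h | h) (h' | h')
    · exact Or.inl (h.trans h')
    · exact Or.inr ⟨h'.1.imp h.trans h.trans, h'.2⟩
    · exact Or.inr ⟨h.1, h.2.imp h'.symm.trans h'.symm.trans⟩
    · exact Or.inr ⟨h.1, h'.2⟩
  · by_cases hp : a = p
    · subst hp
      rw [swap_apply_left]
      exact Or.inr ⟨Or.inl (Perm.SameCycle.refl f _), Or.inr (Perm.SameCycle.refl f _)⟩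
    by_cases hq : a = q
    · subst hq
      rw [swap_apply_right]
      exact Or.inr ⟨Or.inr (Perm.SameCycle.refl f _), Or.inl (Perm.SameCycle.refl f _)⟩
    · rw [swap_apply_of_ne_of_ne hp hq]
      exact Or.inl (Perm.SameCycle.refl f a)

theorem sameCycle_mul_swap {a b : P} (h : f.SameCycle a b) (hp : ¬ f.SameCycle a p)
    (hq : ¬ f.SameCycle a q) : (f * swap p q).SameCycle a b := by
  obtain ⟨k, -, rfl⟩ := h.exists_pow_eq'
  clear h
  induction k with
  | zero => exact Perm.SameCycle.refl _ a
  | succ k ih =>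
    have h1 : f.SameCycle a ((f ^ k) a) := Perm.sameCycle_pow_right.mpr (Perm.SameCycle.refl f a)
    have h2 : (f ^ (k + 1)) a = (f * swap p q) ((f ^ k) a) := by
      have e1 : (f ^ k) a ≠ p := fun e => hp (e ▸ h1)
      have e2 : (f ^ k) a ≠ q := fun e => hq (e ▸ h1)
      rw [Perm.mul_apply, swap_apply_of_ne_of_ne e1 e2, pow_succ', Perm.mul_apply]
    rw [h2, Perm.sameCycle_apply_right]
    exact ih

theorem skip_swap_pair (p q : P) : skip (swap p q) {p, q} = 1 := by
  ext x
  rw [Perm.one_apply]
  by_cases hx : x ∈ ({p, q} : Finset P)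
  · exact skip_of_mem _ hx
  · simp only [mem_insert, mem_singleton, not_or] at hx
    exact skip_fixed _ (swap_apply_of_ne_of_ne hx.1 hx.2)

theorem skip_swap_single (p q : P) : skip (swap p q) {p} = 1 := by
  ext x
  rw [Perm.one_apply]
  by_cases hx : x ∈ ({p} : Finset P)
  · exact skip_of_mem _ hx
  by_cases hq : x = q
  · subst hq
    rw [skip_two hx (by simp) (by rwa [swap_apply_self]), swap_apply_self]
  · exact skip_fixed _ (swap_apply_of_ne_of_ne (by simpa using hx) hq)

end Pool.Agent.P.MP_48bde8_co
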