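import Pool.Agent.P.MP_48bde8_co.Contr
import Pool.Agent.P.MP_48bde8_co.TEmb
import Pool.Agent.P.MP_48bde8_co.SurgL

/-! Task MERGE: surgeries that keep the diagram connected. -/

namespace Pool.Agent.P.MP_48bde8_co

open Equiv Finset PowerSeries
open scoped Classical

variable {P : Type} [Fintype P] {K : Type} [CommRing K] [Algebra ℚ K] (x z : K)

namespace Merge

theorem cin_zero {f : Perm P} {I : Finset P} (h : ∀ r ∈ I, ¬ orb f r ⊆ I) : cin f I = 0 := by
  unfold cin
  rw [card_eq_zero, filter_eq_empty_iff]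
  intro c hc hI
  obtain ⟨r, -, rfl⟩ := mem_image.1 hc
  exact h r (hI (self_mem_orb f r)) hI

theorem apply_mem_orb (f : Perm P) (p : P) : f p ∈ orb f p :=
  mem_orb.2 (Perm.sameCycle_apply_right.2 (Perm.SameCycle.refl f p))

theorem cin_single (f : Perm P) (p : P) : cin f {p} = if f p = p then 1 else 0 := by
  split_ifs with h
  · rw [cin_of_fixed f (by simpa using h), card_singleton]
  · refine cin_zero fun r hr hs => h ?_
    rw [mem_singleton.1 hr] at hs
    exact mem_singleton.1 (hs (apply_mem_orb f p))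

theorem cin_swap {p q : P} (h : p ≠ q) : cin (swap p q) {p, q} = 1 := by
  have := two_mul_cin (swap p q) (I := {p, q}) (by simp) (by simp) (by simp [h, h.symm])
  rw [card_pair h] at this
  omega

omit [Fintype P] in
theorem swap_mem {U : Finset P} {p q r : P} (hp : p ∈ U) (hq : q ∈ U) (hr : r ∈ U) :
    swap p q r ∈ U := by
  rw [swap_apply_def]
  split_ifs <;> assumption

omit [Fintype P] in
theorem swap_ty {ty : P → Bool} {p q : P} (h : ty p = ty q) (r : P) :
    ty (swap p q r) = ty r := by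
  rw [swap_apply_def]
  split_ifs with h1 h2
  · rw [h1, h]
  · rw [h2, h]
  · rfl

omit [Fintype P] in
theorem valid_mem {A : Amb P} {ψ : Perm P} (h : A.Valid ψ) {r : P} (hr : r ∈ A.U) : ψ r ∈ A.U := by
  by_contra hn
  exact hn ((ψ.injective (h.2.1 _ hn)).symm ▸ hr)

variable {A : Amb P} {p q : P} {I : Finset P}

omit [Algebra ℚ K] in
theorem Tq_gen (hA : A.OK) (hp : p ∈ A.U \ A.dt) (hq : q ∈ A.U \ A.dt) (ht : A.ty p = A.ty q)
    (hI : I ⊆ {p, q}) (hpI : p ∈ I) (hs : skip (swap p q) I = 1)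
    (hw : ∀ ψ, A.WV ψ → ψ p = q → ∀ r ∈ I, ψ r = swap p q r) :
    A.Tq x z p q = A.wt (swap p q) x z I *
      ∑ g ∈ univ.filter (fun g : Perm P => (∀ r ∈ I, g r = r) ∧ A.Dgm (swap p q * g) ∧
        (A.red (swap p q) ∅ I).Good g), (A.red (swap p q) ∅ I).wt g x z (A.U \ I) := by
  rw [mem_sdiff] at hp hq
  have hIU : I ⊆ A.U := hI.trans (by simp [insert_subset_iff, hp.1, hq.1])
  have h1 : A.Tq x z p q = ∑ ψ ∈ univ.filter (fun ψ : Perm P => ∀ r ∈ I, ψ r = swap p q r),
      if A.Dgm ψ ∧ A.Good ψ then A.wt ψ x z A.U else 0 := by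
    rw [← sum_filter, Amb.Tq]
    refine sum_congr ?_ fun _ _ => rfl
    ext ψ
    simp only [Amb.TS, mem_filter, mem_univ, true_and]
    exact ⟨fun h => ⟨hw ψ h.1.1.1.1 h.2, h.1⟩, fun h => ⟨h.2, by rw [h.1 p hpI, swap_apply_left]⟩⟩
  rw [h1, sum_steps, mul_sum, ← filter_filter, sum_filter (s := univ.filter _)]
  refine sum_congr rfl fun g hg => ?_
  have hg' := (mem_filter.1 hg).2
  have hfix : ∀ r ∈ A.dt \ ∅, swap p q r = r := fun r hr => by
    rw [sdiff_empty] at hr
    exact swap_apply_of_ne_of_ne (fun e => hp.2 (e ▸ hr)) fun e => hq.2 (e ▸ hr)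
  have hdj : Disjoint I (A.dt \ ∅) := by
    rw [sdiff_empty, disjoint_left]
    intro r hr hr'
    rcases mem_insert.1 (hI hr) with e | e
    · exact hp.2 (e ▸ hr')
    · exact hq.2 (mem_singleton.1 e ▸ hr')
  have hgood : A.Good (swap p q * g) ↔ (A.red (swap p q) ∅ I).Good g := by
    refine forall_congr' fun R => not_congr ?_
    rw [Amb.red_div hA (by simp) hfix hdj]
    simp
  rw [hgood]
  split_ifs with h
  · have e : ∀ r, g r = swap p q ((swap p q * g) r) := fun r => by simp
    exact (Amb.red_wt x z hA hs (fun r hr => swap_mem hp.1 hq.1 hr) (swap_ty ht) hIU hg'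
      (fun r hr => by rw [e]; exact swap_mem hp.1 hq.1 (valid_mem h.1.1 hr))
      (fun r => by rw [e, swap_ty ht, (h.1.1.1 r).1]) ∅).1
  · rfl

omit [Algebra ℚ K] in
theorem Tq_T (hA : A.OK) (hp : p ∈ A.U \ A.dt) (hq : q ∈ A.U \ A.dt) (ht : A.ty p = A.ty q)
    (hI : I ⊆ {p, q}) (hpI : p ∈ I) (hs : skip (swap p q) I = 1)
    (hw : ∀ ψ, A.WV ψ → ψ p = q → ∀ r ∈ I, ψ r = swap p q r)
    (hAI : ∀ a, A.ty a = true →
      (a ∈ I → swap p q a ∈ I ∧ swap p q a ≠ a) ∧ (a ∉ I → swap p q a = a))
    (hl1 : ∀ r ∈ I, ∃ s ∈ A.U \ I, Lnk A.π (swap p q) r s)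
    (hl2 : ∀ r s, Lnk A.π (swap p q) r s → (A.π * swap p q).SameCycle r s)
    (he : cin A.π A.U + cin (swap p q) I + 2 * cin (A.π * swap p q) I =
      cin (A.π * swap p q) A.U + I.card) :
    A.Tq x z p q = A.wt (swap p q) x z I * (A.red (swap p q) ∅ I).T x z := by
  rw [Tq_gen x z hA hp hq ht hI hpI hs hw]
  rw [mem_sdiff] at hp hq
  have hIU : I ⊆ A.U := hI.trans (by simp [insert_subset_iff, hp.1, hq.1])
  have key : ∀ g : Perm P, (∀ r ∈ I, g r = r) →
      (A.Dgm (swap p q * g) ↔ (A.red (swap p q) ∅ I).Dgm g) := fun g hg =>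
    Amb.red_dgm hA hs hIU
      (fun r hr => swap_apply_of_ne_of_ne (fun e => hr (e ▸ hp.1)) fun e => hr (e ▸ hq.1))
      (fun r => ⟨swap_ty ht r, fun _ => swap_apply_self _ _ _⟩) hAI hl1
      (fun r s _ _ => hl2 r s) he hg ∅
  congr 1
  refine sum_congr ?_ fun _ _ => rfl
  ext g
  simp only [Amb.TS, mem_filter, mem_univ, true_and]
  constructor
  · exact fun h => ⟨(key g h.1).1 h.2.1, h.2.2⟩
  · intro h
    have hg : ∀ r ∈ I, g r = r := fun r hr => h.1.1.2.1 r fun e => (mem_sdiff.1 e).2 hr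
    exact ⟨hg, (key g hg).2 h.1, h.2⟩

theorem red_ok' (hA : A.OK) (hp : p ∈ A.U \ A.dt) (hq : q ∈ A.U \ A.dt) (hI : I ⊆ {p, q}) :
    (A.red (swap p q) ∅ I).OK := by
  rw [mem_sdiff] at hp hq
  refine Amb.red_ok hA (by simp) (fun r hr => swap_mem hp.1 hq.1 hr) (fun r hr => ?_) ?_
  · rw [sdiff_empty] at hr
    exact swap_apply_of_ne_of_ne (fun e => hp.2 (e ▸ hr)) fun e => hq.2 (e ▸ hr)
  · rw [sdiff_empty, disjoint_left]
    intro r hr hr'
    rcases mem_insert.1 (hI hr) with e | e
    · exact hp.2 (e ▸ hr')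
    · exact hq.2 (mem_singleton.1 e ▸ hr')

theorem same_of_mem {f : Perm P} {l : List P} (h : IsCyc f l) {r s : P} (hr : r ∈ l) (hs : s ∈ l) :
    f.SameCycle r s := by
  rw [← mem_orb, h.orb_eq hr]
  exact List.mem_toFinset.2 hs

theorem mem_of_same {f : Perm P} {l : List P} (h : IsCyc f l) {r s : P} (hr : r ∈ l)
    (hs : f.SameCycle s r) : s ∈ l := by
  rw [← List.mem_toFinset, ← h.orb_eq hr]
  exact mem_orb.2 hs.symm

theorem merge_lnk {f : Perm P} {l l' : List P} (h : IsCyc f (p :: l)) (h' : IsCyc f (q :: l'))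
    (hd : (p :: l).Disjoint (q :: l')) (r s : P) (hl : Lnk f (swap p q) r s) :
    (f * swap p q).SameCycle r s := by
  have hm : ∀ t, f.SameCycle t p ∨ f.SameCycle t q → t ∈ p :: (l' ++ q :: l) := by
    intro t ht
    rcases ht with ht | ht
    · have := mem_of_same h List.mem_cons_self ht
      simp only [List.mem_cons, List.mem_append] at this ⊢
      tauto
    · have := mem_of_same h' List.mem_cons_self ht
      simp only [List.mem_cons, List.mem_append] at this ⊢
      tauto
  have hc := isCyc_mul_merge h h' hd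
  rcases lnk_swap hl with h1 | ⟨h1, h2⟩
  · by_cases h2 : f.SameCycle r p ∨ f.SameCycle r q
    · exact same_of_mem hc (hm r h2) (hm s (h2.imp h1.symm.trans h1.symm.trans))
    · exact sameCycle_mul_swap h1 (fun e => h2 (Or.inl e)) fun e => h2 (Or.inr e)
  · exact same_of_mem hc (hm r h1) (hm s h2)

theorem not_same {f : Perm P} {l l' : List P} (h' : IsCyc f (q :: l'))
    (hd : (p :: l).Disjoint (q :: l')) : ¬ f.SameCycle p q := fun e =>
  hd List.mem_cons_self (mem_of_same h' List.mem_cons_self e)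

omit [Algebra ℚ K] in
theorem Tq_zero {J : Finset P} (hp : p ∈ A.U) (hpJ : p ∈ J) (hπ : ∀ r ∈ J, A.π r ∈ J)
    (hψ : ∀ ψ, A.WV ψ → ψ p = q → ∀ r ∈ J, ψ r ∈ J) (hU : ¬ A.U ⊆ J) : A.Tq x z p q = 0 := by
  refine sum_eq_zero fun ψ h => absurd (fun r hr => ?_) hU
  simp only [Amb.TS, mem_filter, mem_univ, true_and] at h
  exact (Lnk.mem_of_closed hπ (hψ ψ h.1.1.1.1 h.2) (h.1.1.2.1 p hp r hr)).1 hpJ

omit [Algebra ℚ K] in
theorem Tq_one (hU : A.U = {p, q}) (hdt : A.dt = ∅) (hD : A.Dgm (swap p q)) :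
    A.Tq x z p q = A.wt (swap p q) x z {p, q} := by
  have : A.TS.filter (fun ψ => ψ p = q) = {swap p q} := by
    ext ψ
    simp only [Amb.TS, mem_filter, mem_univ, true_and, mem_singleton]
    constructor
    · rintro ⟨⟨h1, -⟩, h2⟩
      ext r
      rw [swap_apply_def]
      split_ifs with e1 e2
      · rw [e1, h2]
      · have h3 := valid_mem h1.1 (r := q) (by simp [hU])
        rw [hU, mem_insert, mem_singleton] at h3
        rcases h3 with h3 | h3
        · rw [e2, h3]
        · exact absurd (e2.trans (ψ.injective (h3.trans h2.symm))) e1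
      · exact h1.1.2.1 r (by simp [hU, e1, e2])
    · rintro rfl
      refine ⟨⟨hD, fun R hR => ?_⟩, swap_apply_left _ _⟩
      obtain ⟨r, hr⟩ := hR.1.2.1.1
      have := hR.1.1.2.1 hr
      rw [hdt] at this
      exact notMem_empty r this
  rw [Amb.Tq, this, sum_singleton, hU]

omit [Fintype P] in
theorem fix_of_single {f : Perm P} (h : IsCyc f [p]) : f p = p := by
  simpa using h.2

theorem tau2_nil (u : List Bool) (n : ℕ) : (n.factorial : K) * coeff n (tau2 x z [] u) =
    if u = [] ∧ n = 0 then z else 0 := by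
  unfold tau2
  rw [if_pos rfl]
  by_cases hu : u = []
  · rw [if_pos hu, coeff_C]
    by_cases hn : n = 0
    · simp [hu, hn]
    · simp [hn]
  · simp [hu]

end Merge

namespace Amb

/-- Three outer cycles. -/
def LA3 (A : Amb P) (l₁ l₂ l₃ : List P) : Prop :=
  A.OK ∧ IsCyc A.π l₁ ∧ IsCyc A.π l₂ ∧ IsCyc A.π l₃ ∧ l₁.Disjoint l₂ ∧ l₁.Disjoint l₃ ∧
    l₂.Disjoint l₃ ∧ ∀ p, (p ∈ A.U ∧ p ∉ A.dt) ↔ (p ∈ l₁ ∨ p ∈ l₂ ∨ p ∈ l₃)

variable {A : Amb P} {p q : P} {l l' l₃ : List P} {n : ℕ}

omit [Algebra ℚ K] in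
theorem Tq_of_ty_ne (h : A.ty p ≠ A.ty q) : A.Tq x z p q = 0 := by
  refine sum_eq_zero fun ψ hψ => absurd ?_ h
  simp only [Amb.TS, mem_filter, mem_univ, true_and] at hψ
  rw [← hψ.2, (hψ.1.1.1.1 p).1]

omit [Algebra ℚ K] in
theorem Tq_self_A (hp : p ∈ A.U) (h : A.ty p = true) : A.Tq x z p p = 0 := by
  refine sum_eq_zero fun ψ hψ => ?_
  simp only [Amb.TS, mem_filter, mem_univ, true_and] at hψ
  exact absurd hψ.2 (hψ.1.1.1.2.2 p hp h)

omit [Fintype P] in
theorem Merge_stepA (tp : A.ty p = true) (ψ : Perm P) (h : A.WV ψ) (e : ψ p = q) :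
    ∀ r ∈ ({p, q} : Finset P), ψ r = swap p q r := by
  intro r hr
  rcases mem_insert.1 hr with h1 | h1
  · rw [h1, e, swap_apply_left]
  · rw [mem_singleton.1 h1, swap_apply_right, ← e, (h p).2 tp]

omit [Fintype P] in
theorem Merge_stepB (ψ : Perm P) (_h : A.WV ψ) (e : ψ p = q) :
    ∀ r ∈ ({p} : Finset P), ψ r = swap p q r := by
  intro r hr
  rw [mem_singleton.1 hr, e, swap_apply_left]

omit [Algebra ℚ K] in
theorem Merge_wtA (tp : A.ty p = true) (tq : A.ty q = true) :
    A.wt (swap p q) x z {p, q} = z ^ cin (A.π * swap p q) {p, q} := by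
  unfold wt nv nf
  rw [filter_eq_empty_iff.2 (by simp [tp, tq]), cin_empty, pow_zero, one_mul]

omit [Algebra ℚ K] in
theorem Merge_wtB (tp : A.ty p = false) :
    A.wt (swap p q) x z {p} = (if p = q then x else 1) * z ^ cin (A.π * swap p q) {p} := by
  unfold wt nv nf
  rw [filter_true_of_mem (by simp [tp]), Merge.cin_single, swap_apply_left]
  by_cases h : p = q
  · simp [h]
  · simp [h, Ne.symm h]

omit [Algebra ℚ K] in
/-- Surgery at a pair of outer A ports. -/
theorem Tq_A (hA : A.OK) (hp : p ∈ A.U \ A.dt) (hq : q ∈ A.U \ A.dt) (hpq : p ≠ q)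
    (tp : A.ty p = true) (tq : A.ty q = true) :
    A.Tq x z p q = z ^ cin (A.π * swap p q) {p, q} *
      ∑ g ∈ univ.filter (fun g : Perm P => g p = p ∧ g q = q ∧ A.Dgm (swap p q * g) ∧
        (A.red (swap p q) ∅ {p, q}).Good g),
        (A.red (swap p q) ∅ {p, q}).wt g x z (A.U \ {p, q}) := by
  have _ := hpq
  rw [Merge.Tq_gen x z hA hp hq (tp.trans tq.symm) Subset.rfl (mem_insert_self _ _)
    (skip_swap_pair p q) (Merge_stepA tp), Merge_wtA x z tp tq]
  simp only [mem_insert, mem_singleton, forall_eq_or_imp, forall_eq, and_assoc]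

omit [Algebra ℚ K] in
/-- Surgery at a pair of outer B ports (possibly equal). -/
theorem Tq_B (hA : A.OK) (hp : p ∈ A.U \ A.dt) (hq : q ∈ A.U \ A.dt)
    (tp : A.ty p = false) (tq : A.ty q = false) :
    A.Tq x z p q = (if p = q then x else 1) * z ^ cin (A.π * swap p q) {p} *
      ∑ g ∈ univ.filter (fun g : Perm P => g p = p ∧ A.Dgm (swap p q * g) ∧
        (A.red (swap p q) ∅ {p}).Good g),
        (A.red (swap p q) ∅ {p}).wt g x z (A.U \ {p}) := by
  rw [Merge.Tq_gen x z hA hp hq (tp.trans tq.symm) (by simp) (mem_singleton_self _)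
    (skip_swap_single p q) Merge_stepB, Merge_wtB x z tp]
  simp only [mem_singleton, forall_eq]

theorem mergeA (h : A.LA3 (p :: l) (q :: l') l₃) (tp : A.ty p = true) (tq : A.ty q = true)
    (hn : A.dt.card = 2 * n) : A.Tq x z p q =
      (n.factorial : K) * coeff n (tau2 x z (l.map A.ty ++ l'.map A.ty) (l₃.map A.ty)) := by
  obtain ⟨hA, c1, c2, c3, d12, d13, d23, hm⟩ := h
  have hp : p ∈ A.U \ A.dt := mem_sdiff.2 ((hm p).2 (by simp))
  have hq : q ∈ A.U \ A.dt := mem_sdiff.2 ((hm q).2 (by simp))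
  have hpq : p ≠ q := fun e => d12 List.mem_cons_self (e ▸ List.mem_cons_self)
  have n1 := List.nodup_cons.1 c1.1
  have n2 := List.nodup_cons.1 c2.1
  have e1 : q ∉ l := fun e => d12 (List.mem_cons_of_mem _ e) List.mem_cons_self
  have e2 : p ∉ l' := fun e => d12 List.mem_cons_self (List.mem_cons_of_mem _ e)
  have e3 : p ∉ l₃ := fun e => d13 List.mem_cons_self e
  have e4 : q ∉ l₃ := fun e => d23 List.mem_cons_self e
  by_cases hne : l ++ l' = []
  · obtain ⟨rfl, rfl⟩ := List.append_eq_nil_iff.1 hne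
    have f1 := Merge.fix_of_single c1
    have f2 := Merge.fix_of_single c2
    simp only [List.map_nil, List.append_nil]
    rw [Merge.tau2_nil]
    split_ifs with hc
    · have hdt : A.dt = ∅ := card_eq_zero.1 (by rw [hn, hc.2])
      have h3 : l₃ = [] := List.map_eq_nil_iff.1 hc.1
      have hU : A.U = {p, q} := by
        ext r
        have := hm r
        simpa [hdt, h3] using this
      have h4 : cin (A.π * swap p q) {p, q} = 1 := by
        rw [cin_congr (f := swap p q) (by simp [f1, f2]), Merge.cin_swap hpq]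
      rw [Merge.Tq_one x z hU hdt, Merge_wtA x z tp tq, h4, pow_one]
      refine ⟨⟨fun r => ⟨Merge.swap_ty (tp.trans tq.symm) r, fun _ => swap_apply_self _ _ _⟩,
        fun r hr => ?_, ?_⟩, ?_, ?_⟩
      · rw [hU, mem_insert, mem_singleton, not_or] at hr
        exact swap_apply_of_ne_of_ne hr.1 hr.2
      · simp [hU, hpq, hpq.symm]
      · have k1 : Lnk A.π (swap p q) p q := by
          simpa using CycC.lnk_right A.π (swap p q) p
        have k2 := CycC.lnk_equiv A.π (swap p q)
        simp only [Conn, hU, mem_insert, mem_singleton, forall_eq_or_imp, forall_eq]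
        exact ⟨⟨k2.refl p, k1⟩, k2.symm k1, k2.refl q⟩
      · unfold Planar
        rw [hU, h4, Merge.cin_swap hpq, cin_of_fixed A.π (by simp [f1, f2])]
    · refine Merge.Tq_zero x z (J := {p, q}) (mem_sdiff.1 hp).1 (mem_insert_self _ _)
        (by simp [f1, f2]) (fun ψ h1 h2 r hr => ?_) fun hU => hc ⟨?_, ?_⟩
      · rw [Merge_stepA tp ψ h1 h2 r hr]
        exact Merge.swap_mem (by simp) (by simp) hr
      · rw [List.map_eq_nil_iff, List.eq_nil_iff_forall_not_mem]
        intro r hr
        rcases mem_insert.1 (hU ((hm r).2 (Or.inr (Or.inr hr))).1) with e | e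
        · exact e3 (e ▸ hr)
        · exact e4 (mem_singleton.1 e ▸ hr)
      · have : A.dt = ∅ := eq_empty_of_forall_notMem fun r hr => by
          rcases mem_insert.1 (hU (hA.2.1 hr)) with e | e
          · exact (mem_sdiff.1 hp).2 (e ▸ hr)
          · exact (mem_sdiff.1 hq).2 (mem_singleton.1 e ▸ hr)
        rw [this, card_empty] at hn
        omega
  · obtain ⟨s, hs⟩ := List.exists_mem_of_ne_nil _ hne
    have hsI : s ∉ ({p, q} : Finset P) := by
      rw [mem_insert, mem_singleton]
      rintro (rfl | rfl) <;> rcases List.mem_append.1 hs with e | e <;> tauto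
    have hc := isCyc_mul_merge c1 c2 d12
    have hs' : s ∈ p :: (l' ++ q :: l) := by
      simp only [List.mem_cons, List.mem_append] at hs ⊢
      tauto
    have hsame : ∀ r ∈ ({p, q} : Finset P), (A.π * swap p q).SameCycle r s := fun r hr =>
      Merge.same_of_mem hc (by
        simp only [mem_insert, mem_singleton, List.mem_cons, List.mem_append] at hr ⊢
        tauto) hs'
    have h0 : cin (A.π * swap p q) {p, q} = 0 :=
      Merge.cin_zero fun r hr e => hsI (e (mem_orb.2 (hsame r hr)))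
    have hLA : (A.red (swap p q) ∅ {p, q}).LA (l ++ l') l₃ := by
      refine ⟨Merge.red_ok' hA hp hq Subset.rfl, isCyc_mergeA c1 c2 d12,
        isCyc_other c3 e3 e4 Subset.rfl, fun r hr hr' => ?_, fun r => ?_⟩
      · rcases List.mem_append.1 hr with e | e
        · exact d13 (List.mem_cons_of_mem _ e) hr'
        · exact d23 (List.mem_cons_of_mem _ e) hr'
      · have := hm r
        simp only [red, mem_sdiff, mem_insert, mem_singleton, notMem_empty, not_false_eq_true,
          and_true, List.mem_cons, List.mem_append] at this ⊢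
        by_cases r1 : r = p
        · subst r1; tauto
        · by_cases r2 : r = q
          · subst r2; tauto
          · tauto
    rw [Merge.Tq_T x z hA hp hq (tp.trans tq.symm) Subset.rfl (mem_insert_self _ _)
      (skip_swap_pair p q) (Merge_stepA tp) ?_ ?_ (Merge.merge_lnk c1 c2 d12) ?_,
      Merge_wtA x z tp tq, h0, pow_zero, one_mul,
      T_eq x z hLA hne (n := n) (by simpa [red] using hn), List.map_append]
    · rfl
    · intro a _
      refine ⟨fun ha => ⟨Merge.swap_mem (by simp) (by simp) ha, ?_⟩, fun ha => ?_⟩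
      · rw [mem_insert, mem_singleton] at ha
        rcases ha with rfl | rfl <;> simp [hpq, hpq.symm]
      · rw [mem_insert, mem_singleton, not_or] at ha
        exact swap_apply_of_ne_of_ne ha.1 ha.2
    · intro r hr
      refine ⟨s, mem_sdiff.2 ⟨((hm s).2 ?_).1, hsI⟩, CycB.lnk_of_sameCycle (hsame r hr)⟩
      simp only [List.mem_cons, List.mem_append] at hs ⊢
      tauto
    · have := cin_mul_swap_of_not (Merge.not_same c2 d12) hA.1 (mem_sdiff.1 hp).1
        (mem_sdiff.1 hq).1
      rw [h0, Merge.cin_swap hpq, card_pair hpq]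
      omega

theorem mergeB (h : A.LA3 (p :: l) (q :: l') l₃) (tp : A.ty p = false) (tq : A.ty q = false)
    (hn : A.dt.card = 2 * n) : A.Tq x z p q =
      (n.factorial : K) *
        coeff n (tau2 x z (false :: (l.map A.ty ++ l'.map A.ty)) (l₃.map A.ty)) := by
  obtain ⟨hA, c1, c2, c3, d12, d13, d23, hm⟩ := h
  have hp : p ∈ A.U \ A.dt := mem_sdiff.2 ((hm p).2 (by simp))
  have hq : q ∈ A.U \ A.dt := mem_sdiff.2 ((hm q).2 (by simp))
  have hpq : p ≠ q := fun e => d12 List.mem_cons_self (e ▸ List.mem_cons_self)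
  have n1 := List.nodup_cons.1 c1.1
  have e2 : p ∉ l' := fun e => d12 List.mem_cons_self (List.mem_cons_of_mem _ e)
  have e3 : p ∉ l₃ := fun e => d13 List.mem_cons_self e
  have e4 : q ∉ l₃ := fun e => d23 List.mem_cons_self e
  have h0 : cin (A.π * swap p q) {p} = 0 := by
    rw [Merge.cin_single, if_neg]
    rw [Perm.mul_apply, swap_apply_left]
    intro e
    exact d12 List.mem_cons_self (e ▸ c2.mem List.mem_cons_self)
  have hLA : (A.red (swap p q) ∅ {p}).LA (q :: (l ++ l')) l₃ := by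
    refine ⟨Merge.red_ok' hA hp hq (by simp), isCyc_mergeB c1 c2 d12,
      isCyc_other c3 e3 e4 (by simp), fun r hr hr' => ?_, fun r => ?_⟩
    · rcases List.mem_cons.1 hr with e | e
      · exact e4 (e ▸ hr')
      · rcases List.mem_append.1 e with e | e
        · exact d13 (List.mem_cons_of_mem _ e) hr'
        · exact d23 (List.mem_cons_of_mem _ e) hr'
    · have := hm r
      simp only [red, mem_sdiff, mem_singleton, notMem_empty, not_false_eq_true,
        and_true, List.mem_cons, List.mem_append] at this ⊢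
      by_cases r1 : r = p
      · subst r1; tauto
      · tauto
  rw [Merge.Tq_T x z hA hp hq (tp.trans tq.symm) (by simp) (mem_singleton_self _)
    (skip_swap_single p q) Merge_stepB ?_ ?_ (Merge.merge_lnk c1 c2 d12) ?_,
    Merge_wtB x z tp, h0, pow_zero, mul_one, if_neg hpq, one_mul,
    T_eq x z hLA (List.cons_ne_nil _ _) (n := n) (by simpa [red] using hn), List.map_cons,
    List.map_append]
  · change _ * coeff n (tau2 x z (A.ty q :: _) _) = _
    rw [tq]
    rfl
  · intro a ha
    have a1 : a ≠ p := fun e => by rw [e, tp] at ha; exact Bool.noConfusion ha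
    have a2 : a ≠ q := fun e => by rw [e, tq] at ha; exact Bool.noConfusion ha
    exact ⟨fun e => absurd (mem_singleton.1 e) a1, fun _ => swap_apply_of_ne_of_ne a1 a2⟩
  · intro r hr
    refine ⟨q, mem_sdiff.2 ⟨(mem_sdiff.1 hq).1, by simp [hpq.symm]⟩, ?_⟩
    rw [mem_singleton.1 hr]
    simpa using CycC.lnk_right A.π (swap p q) p
  · have := cin_mul_swap_of_not (Merge.not_same c2 d12) hA.1 (mem_sdiff.1 hp).1
      (mem_sdiff.1 hq).1
    rw [h0, Merge.cin_single, swap_apply_left, if_neg hpq.symm, card_singleton]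
    omega

theorem fixB (h : A.LA (p :: l) l₃) (tp : A.ty p = false) (hn : A.dt.card = 2 * n) :
    A.Tq x z p p = (n.factorial : K) * coeff n (C x * tau2 x z (l.map A.ty) (l₃.map A.ty)) := by
  obtain ⟨hA, c1, c3, d13, hm⟩ := h
  have hp : p ∈ A.U \ A.dt := mem_sdiff.2 ((hm p).2 (by simp))
  have n1 := List.nodup_cons.1 c1.1
  have e3 : p ∉ l₃ := fun e => d13 List.mem_cons_self e
  have hsw : swap p p = (1 : Perm P) := swap_self p
  have hpi : A.π * swap p p = A.π := by rw [hsw, mul_one]
  rw [coeff_C_mul, mul_left_comm]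
  by_cases hne : l = []
  · subst hne
    have f1 := Merge.fix_of_single c1
    rw [List.map_nil, Merge.tau2_nil]
    split_ifs with hc
    · have hdt : A.dt = ∅ := card_eq_zero.1 (by rw [hn, hc.2])
      have h3 : l₃ = [] := List.map_eq_nil_iff.1 hc.1
      have hU : A.U = {p} := by
        ext r
        have := hm r
        simpa [hdt, h3] using this
      have hpp : ({p, p} : Finset P) = {p} := by simp
      rw [Merge.Tq_one x z (hU.trans hpp.symm) hdt, hpp, Merge_wtB x z tp, if_pos rfl, hpi,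
        Merge.cin_single, if_pos f1, pow_one]
      refine ⟨⟨fun r => ⟨Merge.swap_ty rfl r, fun _ => swap_apply_self _ _ _⟩,
        fun r _ => by rw [hsw]; rfl, ?_⟩, ?_, ?_⟩
      · simp [hU, tp]
      · simp only [Conn, hU, mem_singleton, forall_eq]
        exact (CycC.lnk_equiv _ _).refl p
      · unfold Planar
        rw [hU, hpi, Merge.cin_single, Merge.cin_single, if_pos f1, if_pos (swap_apply_left p p),
          card_singleton]
    · rw [mul_zero]
      refine Merge.Tq_zero x z (J := {p}) (mem_sdiff.1 hp).1 (mem_singleton_self _)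
        (by simp [f1]) (fun ψ _ h2 => by simp [h2]) fun hU => hc ⟨?_, ?_⟩
      · rw [List.map_eq_nil_iff, List.eq_nil_iff_forall_not_mem]
        intro r hr
        exact e3 (mem_singleton.1 (hU ((hm r).2 (Or.inr hr)).1) ▸ hr)
      · have : A.dt = ∅ := eq_empty_of_forall_notMem fun r hr =>
          (mem_sdiff.1 hp).2 (mem_singleton.1 (hU (hA.2.1 hr)) ▸ hr)
        rw [this, card_empty] at hn
        omega
  · obtain ⟨s, hs⟩ := List.exists_mem_of_ne_nil _ hne
    have hsp : s ≠ p := fun e => n1.1 (e ▸ hs)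
    have hsame : A.π.SameCycle p s :=
      Merge.same_of_mem c1 List.mem_cons_self (List.mem_cons_of_mem _ hs)
    have h0 : cin (A.π * swap p p) {p} = 0 := by
      rw [hpi]
      refine Merge.cin_zero fun r hr e => hsp (mem_singleton.1 (e ?_))
      rw [mem_singleton.1 hr]
      exact mem_orb.2 hsame
    have hLA : (A.red (swap p p) ∅ {p}).LA l l₃ := by
      refine ⟨Merge.red_ok' hA hp hp (by simp), ?_,
        isCyc_other c3 e3 e3 (by simp), fun r hr hr' => d13 (List.mem_cons_of_mem _ hr) hr',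
        fun r => ?_⟩
      · change IsCyc (skip (A.π * swap p p) {p}) l
        rw [hpi]
        exact isCyc_drop c1
      · have := hm r
        simp only [red, mem_sdiff, mem_singleton, notMem_empty, not_false_eq_true,
          and_true, List.mem_cons] at this ⊢
        by_cases r1 : r = p
        · subst r1; tauto
        · tauto
    rw [Merge.Tq_T x z hA hp hp rfl (by simp) (mem_singleton_self _)
      (skip_swap_single p p) Merge_stepB ?_ ?_ ?_ ?_,
      Merge_wtB x z tp, h0, pow_zero, mul_one, if_pos rfl,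
      T_eq x z hLA hne (n := n) (by simpa [red] using hn)]
    · rfl
    · intro a ha
      have a1 : a ≠ p := fun e => by rw [e, tp] at ha; exact Bool.noConfusion ha
      exact ⟨fun e => absurd (mem_singleton.1 e) a1, fun _ => swap_apply_of_ne_of_ne a1 a1⟩
    · intro r hr
      refine ⟨s, mem_sdiff.2 ⟨((hm s).2 (by simp [hs])).1, by simp [hsp]⟩, ?_⟩
      rw [mem_singleton.1 hr]
      exact Lnk.of_sameCycle_left _ hsame
    · intro r t hl
      rw [hpi]
      rcases lnk_swap hl with h1 | ⟨h1, h2⟩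
      · exact h1
      · exact (h1.elim id id).trans (h2.elim id id).symm
    · rw [h0, hpi, Merge.cin_single, if_pos (swap_apply_left p p), card_singleton]

end Amb

end Pool.Agent.P.MP_48bde8_co
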