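import Pool.Agent.P.MP_48bde8_co.MapD
import Pool.Agent.P.MP_48bde8_co.CycC

/-! Computable form of the small wirings. -/

namespace Pool.Agent.P.MP_48bde8_co.NbAux

open Equiv Finset

section Gen

variable {P : Type} [Fintype P] [DecidableEq P]

/-- Computable orbit. -/
def orbD (f : Perm P) (p : P) : Finset P :=
  (List.iterate f p (Fintype.card P)).toFinset

/-- Computable cycle count. -/
def cinD (f : Perm P) (I : Finset P) : ℕ := ((univ.image (orbD f)).filter fun c => c ⊆ I).card

theorem orbD_eq (f : Perm P) (p : P) : orbD f p = orb f p := by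
  ext q
  rw [orbD, List.mem_toFinset, List.mem_iterate, mem_orb]
  constructor
  · rintro ⟨k, -, rfl⟩
    rw [Perm.iterate_eq_pow, Perm.sameCycle_pow_right]
  · intro h
    have hpos : 0 < Function.minimalPeriod f p :=
      Function.minimalPeriod_pos_of_mem_periodicPts (f.injective.mem_periodicPts p)
    obtain ⟨k, -, rfl⟩ := h.exists_pow_eq'
    refine ⟨k % Function.minimalPeriod f p,
      (Nat.mod_lt _ hpos).trans_le Function.minimalPeriod_le_card, ?_⟩
    rw [Function.iterate_mod_minimalPeriod_eq, Perm.iterate_eq_pow]

theorem cinD_eq (f : Perm P) (I : Finset P) : cinD f I = cin f I := by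
  have : orbD f = orb f := funext (orbD_eq f)
  unfold cinD cin cycs
  rw [this]
  refine congrArg Finset.card ?_
  ext c
  simp only [mem_filter, mem_image]

end Gen

/-- The rotation of the two outer objects. -/
def piD (w u : List Bool) : Perm (SP w u 0) :=
  Equiv.sumCongr (Equiv.sumCongr (finRotate _) (finRotate _)) (ambC 0).π

/-- The types of the ports. -/
def tyD (w u : List Bool) : SP w u 0 → Bool := Sum.elim (Sum.elim w.get u.get) Prod.snd

/-- The condition on a wiring. -/
def condD (w u : List Bool) (ψ : Perm (SP w u 0)) : Prop :=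
  (∀ p, tyD w u (ψ p) = tyD w u p) ∧
    (∀ j j', ψ (.inl (.inr j)) ≠ .inl (.inr j')) ∧
    (∀ p, tyD w u p = true → ψ (ψ p) = p ∧ ψ p ≠ p) ∧
    cinD (piD w u) univ + cinD ψ univ + cinD (piD w u * ψ) univ = Fintype.card (SP w u 0) + 2

instance (w u : List Bool) : DecidablePred (condD w u) := fun ψ => by
  unfold condD; infer_instance

/-- The exponents. -/
def valsD (w u : List Bool) : Multiset (ℕ × ℕ) :=
  ((@univ (Perm (SP w u 0)) fintypePerm).filter (condD w u)).val.map fun ψ =>
    (cinD ψ (univ.filter fun p => tyD w u p = false), cinD (piD w u * ψ) univ)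

/-- The expected exponents. -/
def tabD (a b a' b' : ℕ) : List (ℕ × ℕ) :=
  if (a, b, a', b') = (1, 1, 1, 1) then [(1, 2)]
  else if (a, b, a', b') = (0, 2, 0, 2) then [(2, 2), (2, 2)]
  else if (a, b, a', b') = (2, 1, 2, 1) then [(1, 3)]
  else if (a, b, a', b') = (1, 2, 1, 1) then [(2, 2), (2, 2), (1, 3)]
  else if (a, b, a', b') = (1, 2, 1, 2) then [(2, 3)]
  else if (a, b, a', b') = (0, 3, 0, 2) then
    [(3, 2), (3, 2), (3, 2), (3, 2), (3, 2), (3, 2), (2, 3), (2, 3), (2, 3), (2, 3), (2, 3), (2, 3)]
  else if (a, b, a', b') = (0, 3, 0, 3) then [(3, 3), (3, 3), (3, 3)]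
  else []

/-- The statement to be checked for one first word. -/
def chk (w : List Bool) : Prop :=
  ∀ u ∈ words, 2 ≤ u.length → false ∈ u →
    valsD w u = (tabD (w.count true) (w.count false) (u.count true) (u.count false) : List _)

instance : DecidablePred chk := fun w => by unfold chk; infer_instance

theorem chk0 : chk [true] := by decide +kernel
theorem chk1 : chk [false] := by decide +kernel
theorem chk2 : chk [true, true] := by decide +kernel
theorem chk3 : chk [true, false] := by decide +kernel
theorem chk4 : chk [false, false] := by decide +kernel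
theorem chk5 : chk [true, true, true] := by decide +kernel
theorem chk6 : chk [true, true, false] := by decide +kernel
theorem chk7 : chk [true, false, false] := by decide +kernel
theorem chk8 : chk [false, false, false] := by decide +kernel

theorem chk_all (i : Fin 9) : chk (w9 i) := by
  fin_cases i
  exacts [chk0, chk1, chk2, chk3, chk4, chk5, chk6, chk7, chk8]

end Pool.Agent.P.MP_48bde8_co.NbAux
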