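import Pool.Agent.P.MP_48bde8_co.MapD
import Pool.Agent.P.MP_48bde8_co.CycC
import Pool.Agent.P.MP_48bde8_co.NbValAux

/-! Task NBVAL: wirings of two small outer objects. -/

namespace Pool.Agent.P.MP_48bde8_co

open Equiv Finset
open scoped Classical

variable {K : Type} [CommRing K] (x z : K)

/-- The table of values, by the numbers of letters `A` and `B` of the two words. -/
def nbTab (a b a' b' : ℕ) : K :=
  if (a, b, a', b') = (1, 1, 1, 1) then x * z ^ 2
  else if (a, b, a', b') = (0, 2, 0, 2) then 2 * x ^ 2 * z ^ 2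
  else if (a, b, a', b') = (2, 1, 2, 1) then x * z ^ 3
  else if (a, b, a', b') = (1, 2, 1, 1) then 2 * x ^ 2 * z ^ 2 + x * z ^ 3
  else if (a, b, a', b') = (1, 2, 1, 2) then x ^ 2 * z ^ 3
  else if (a, b, a', b') = (0, 3, 0, 2) then 6 * x ^ 3 * z ^ 2 + 6 * x ^ 2 * z ^ 3
  else if (a, b, a', b') = (0, 3, 0, 3) then 3 * x ^ 3 * z ^ 3
  else 0

namespace NbAux

theorem rot_sameCycle {n : ℕ} (i j : Fin n) : (finRotate n).SameCycle i j := by
  match n, i, j with
  | 1, i, j => rw [Subsingleton.elim i j]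
  | n + 2, i, j =>
    refine isCycle_finRotate.sameCycle ?_ ?_ <;> rw [← Perm.mem_support, support_finRotate] <;>
      exact mem_univ _

theorem lnk_w (w u : List Bool) (ψ : Perm (SP w u 0)) (i j : Fin w.length) :
    Lnk (piD w u) ψ (.inl (.inl i)) (.inl (.inl j)) :=
  CycC.of_sameCycle (E := fun i j => Lnk (piD w u) ψ (.inl (.inl i)) (.inl (.inl j)))
    ⟨fun _ => (CycC.lnk_equiv _ _).refl _, fun h => (CycC.lnk_equiv _ _).symm h,
      fun h h' => (CycC.lnk_equiv _ _).trans h h'⟩ (fun _ => CycC.lnk_left _ _ _)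
    (rot_sameCycle i j)

theorem lnk_u (w u : List Bool) (ψ : Perm (SP w u 0)) (i j : Fin u.length) :
    Lnk (piD w u) ψ (.inl (.inr i)) (.inl (.inr j)) :=
  CycC.of_sameCycle (E := fun i j => Lnk (piD w u) ψ (.inl (.inr i)) (.inl (.inr j)))
    ⟨fun _ => (CycC.lnk_equiv _ _).refl _, fun h => (CycC.lnk_equiv _ _).symm h,
      fun h h' => (CycC.lnk_equiv _ _).trans h h'⟩ (fun _ => CycC.lnk_left _ _ _)
    (rot_sameCycle i j)

theorem conn (w u : List Bool) (hu : 0 < u.length) (ψ : Perm (SP w u 0))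
    (h : ∀ j j', ψ (.inl (.inr j)) ≠ .inl (.inr j')) (p q : SP w u 0) : Lnk (piD w u) ψ p q := by
  have L := CycC.lnk_equiv (piD w u) ψ
  have key : ∀ p, Lnk (piD w u) ψ (.inl (.inr ⟨0, hu⟩)) p := by
    rintro ((i | j) | ⟨d, _⟩)
    · have h0 := CycC.lnk_right (piD w u) ψ (.inl (.inr ⟨0, hu⟩))
      rcases e : ψ (.inl (.inr ⟨0, hu⟩)) with (i' | j') | ⟨d, _⟩
      · rw [e] at h0
        exact L.trans h0 (lnk_w w u ψ i' i)
      · exact absurd e (h _ _)
      · exact d.elim0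
    · exact lnk_u w u ψ _ j
    · exact d.elim0
  exact L.trans (L.symm (key p)) (key q)

theorem good (w u : List Bool) (ψ : Perm (SP w u 0)) : (ambS w u 0).Good ψ := by
  intro R hR
  obtain ⟨p, hp⟩ := hR.1.2.1.1
  have := hR.1.1.2.1 hp
  simp only [ambS, mem_map, mem_univ, true_and] at this
  obtain ⟨d, -⟩ := this
  exact d.1.elim0

theorem cond_iff (w u : List Bool) (hu : 0 < u.length) (ψ : Perm (SP w u 0)) :
    (((ambS w u 0).Dgm ψ ∧ (ambS w u 0).Good ψ) ∧ ∀ j j', ψ (.inl (.inr j)) ≠ .inl (.inr j')) ↔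
      condD w u ψ := by
  unfold condD
  rw [cinD_eq, cinD_eq, cinD_eq]
  constructor
  · rintro ⟨⟨⟨⟨h1, -, h2⟩, -, h3⟩, -⟩, h4⟩
    exact ⟨fun p => (h1 p).1, h4, fun p hp => ⟨(h1 p).2 hp, h2 p (mem_univ _) hp⟩, h3⟩
  · rintro ⟨h1, h4, h2, h3⟩
    exact ⟨⟨⟨⟨fun p => ⟨h1 p, fun hp => (h2 p hp).1⟩, fun p hp => absurd (mem_univ p) hp,
      fun p _ hp => (h2 p hp).2⟩, fun p _ q _ => conn w u hu ψ h4 p q, h3⟩, good w u ψ⟩, h4⟩

theorem nb_eq (w u : List Bool) (hu : 0 < u.length) :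
    Nb x z w u = ((valsD w u).map fun e => x ^ e.1 * z ^ e.2).sum := by
  rw [valsD, Multiset.map_map, ← Finset.sum_eq_multiset_sum, Nb, Amb.TS, filter_filter]
  refine sum_congr ?_ fun ψ _ => ?_
  · ext ψ
    simp only [mem_filter, mem_univ, true_and]
    exact cond_iff w u hu ψ
  · simp only [Function.comp, cinD_eq]
    unfold Amb.wt Amb.nv Amb.nf
    congr!

theorem tab_eq (a b a' b' : ℕ) :
    ((tabD a b a' b').map fun e => x ^ e.1 * z ^ e.2).sum = nbTab x z a b a' b' := by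
  unfold tabD nbTab
  split_ifs <;> simp <;> ring

end NbAux

theorem Nb_val (i : Fin 9) {u : List Bool} (hu : u ∈ words) (h2 : 2 ≤ u.length)
    (hB : false ∈ u) :
    Nb x z (w9 i) u =
      nbTab x z ((w9 i).count true) ((w9 i).count false) (u.count true) (u.count false) := by
  rw [NbAux.nb_eq x z _ _ (by omega), NbAux.chk_all i u hu h2 hB, Multiset.map_coe,
    Multiset.sum_coe, NbAux.tab_eq]

end Pool.Agent.P.MP_48bde8_co
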