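import Pool.Agent.P.MP_48bde8_co.Cross
import Pool.Agent.P.MP_48bde8_co.Cuts

/-! Task PFLAT: the part of an atom outside a tight region. -/

namespace Pool.Agent.P.MP_48bde8_co

open Equiv Finset
open scoped Classical

variable {P : Type} [Fintype P]

namespace Amb

variable {A : Amb P} {ψ : Perm P} {R M M' R' : Rg P}

/-- The part of a disc outside a small connected region. -/
theorem PFlatAux.disc {X Y : Rg P} (hc : A.Closed ψ) (h1 : A.H1 ψ) (hX : A.Disc ψ X)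
    (hY : A.Disc ψ Y) (hY3 : bd Y ≤ 3) {x y : P} (hx : x ∈ X.1) (hx' : x ∉ Y.1) (hy : y ∈ Y.1)
    (hy' : y ∉ X.1) :
    2 ≤ bd (X ⊓ cpl ψ Y) ∧ (bd (X ⊓ cpl ψ Y) ≤ 3 → A.Disc ψ (X ⊓ cpl ψ Y)) := by
  have hC := (H1.cpl_disc hc h1 hY.1 hY.2.1 (fun h => hx' (h ▸ mem_univ x)) hY3).1
  have hxc : x ∈ (cpl ψ Y).1 := mem_compl.2 hx'
  have hyc : y ∉ (cpl ψ Y).1 := fun h => mem_compl.1 h hy
  have hI : A.Reg ψ (X ⊓ cpl ψ Y) := hX.1.inf hC.1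
  have hne : (X ⊓ cpl ψ Y).1.Nonempty := ⟨x, mem_inter.2 ⟨hx, hxc⟩⟩
  have hp : (X ⊓ cpl ψ Y).1 ≠ univ := fun h => hy' (mem_inter.1 (h ▸ mem_univ y :
    y ∈ (X ⊓ cpl ψ Y).1)).1
  have h2 := h1 _ hI hne hp
  refine ⟨h2, fun h3 => ?_⟩
  have hcon := H1.conn hc h1 hI hne hp h3
  have hS : A.Reg ψ (X ⊔ cpl ψ Y) := hX.1.sup hC.1
  have hSc : A.RConn ψ (X ⊔ cpl ψ Y) :=
    hX.2.1.sup hC.2.1 (Finset.not_disjoint_iff.2 ⟨x, hx, hxc⟩)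
  have hSb := h1 _ hS hSc.1 fun h =>
    (mem_union.1 (h ▸ mem_univ y : y ∈ (X ⊔ cpl ψ Y).1)).elim hy' hyc
  have e1 := eps_le_one hS.1 hSc (by omega)
  have e2 := eps_le_one hI.1 hcon (by omega)
  have e3 := eps_supermod (A := A) (ψ := ψ) X (cpl ψ Y)
  have e4 := hX.2.2.1
  have e5 := hC.2.2.1
  exact ⟨hI, hcon, by omega, by omega⟩

/-- The part of the atom `R` outside `M` is a featureless disc. -/
theorem pfour_flat (hc : A.Closed ψ) (h1 : A.H1 ψ) (hR : A.Atom ψ R) (hM : A.Tight ψ M)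
    (hR' : A.Tight ψ R') (o1 : Ov R M) (o2 : ¬ R.1 ⊆ M.1) (o3 : Ov R' M) (d2 : ¬ Ov R R') :
    A.Disc ψ (R ⊓ cpl ψ M) ∧ ¬ A.Feat ψ (R ⊓ cpl ψ M) ∧ bd (R ⊓ cpl ψ M) ≤ bd R := by
  have hA := hc.1
  have hψ := hc.2.2.2.1.1
  have hdt : ∀ p, p ∈ A.dt := fun p => hc.2.1 ▸ mem_univ p
  obtain ⟨a, ha, ha'⟩ := Finset.not_disjoint_iff.1 o1
  obtain ⟨r, hr, hr'⟩ := Finset.not_subset.1 o2
  obtain ⟨s, hs, hs'⟩ := Finset.not_disjoint_iff.1 o3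
  have hd : Disjoint R.1 R'.1 := not_not.1 d2
  have hsR : s ∉ R.1 := fun h => Finset.disjoint_left.1 hd h hs
  have hrR : r ∉ R'.1 := Finset.disjoint_left.1 hd hr
  obtain ⟨-, hL⟩ := PFlatAux.disc hc h1 hR.1.1 hM.1.1 hM.1.2.1 hr hr' hs' hsR
  obtain ⟨hN2, hN⟩ := PFlatAux.disc hc h1 hM.1.1 hR.1.1 hR.1.2.1 hs' hsR hr hr'
  have hM3 := hM.1.2.1
  have hR3 := hR.1.2.1
  have key : bd M ≤ bd (M ⊓ cpl ψ R) := by
    by_contra hlt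
    have h2 : bd (M ⊓ cpl ψ R) = 2 := by omega
    have hD := hN (by omega)
    by_cases hf : A.Feat ψ (M ⊓ cpl ψ R)
    · exact hlt (hM.2.1 _ ⟨hD, by omega, hf⟩ inf_le_left)
    have hSb := h1 _ (hM.1.1.1.sup hR'.1.1.1) ⟨s, mem_union.2 (Or.inl hs')⟩ fun h =>
      (mem_union.1 (h ▸ mem_univ r : r ∈ (M ⊔ R').1)).elim hr' hrR
    obtain ⟨-, -, -, p, -, hK, hK1, -, hK2⟩ :=
      cross hA hψ hM hR' (Finset.not_disjoint_iff.2 ⟨s, hs', hs⟩) (by omega)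
    have hle : A.comp ψ (M ⊓ R') p ≤ M ⊓ cpl ψ R :=
      (comp_le _ _).trans (inf_le_inf_left _ (le_cpl hR'.1.1.1.1 hd.symm))
    generalize A.comp ψ (M ⊓ R') p = K at hK hK1 hK2 hle
    generalize M ⊓ cpl ψ R = N at h2 hD hf hle hlt
    obtain ⟨q, hq⟩ := nonempty_iff_ne_empty.2 hK2
    have hqN : q ∈ N.2 := hle.2 hq
    obtain ⟨b, -, hty, rfl | ⟨-, rfl⟩⟩ := flat_two hA hψ hD hf h2
    · exact notMem_empty q hqN
    have t1 : A.ty (A.π b) = true := by rw [(hA.2.2 b (hdt b)).2.2, hty]; rfl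
    have t2 : A.ty q = true := by
      rcases mem_insert.1 hqN with rfl | h
      · exact t1
      · rw [mem_singleton.1 h, al, (hA.2.2 _ (hdt _)).2.1, (hψ _).1, t1]
    obtain ⟨u1, u2⟩ := hK.1.2.2 q hq t2
    have c1 : 2 ≤ K.2.card := one_lt_card.2 ⟨_, u1, _, hq, u2⟩
    have c2 : (A.rQ ψ b).2.card ≤ 2 := card_le_two
    have c3 := bd_add_card hK.1.1.2.1
    have c4 := bd_add_card hD.1.1.2.1
    have c5 : K.1.card ≤ (A.rQ ψ b).1.card := card_le_card hle.1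
    omega
  have hpos := bd_posimod hR.1.1.1.1 hM.1.1.1.1
  have hD := hL (by omega)
  refine ⟨hD, fun hf => ?_, by omega⟩
  have e := hR.2 _ ⟨hD, by omega, hf⟩ inf_le_left
  exact mem_compl.1 (mem_inter.1 (e.symm ▸ ha : a ∈ (R ⊓ cpl ψ M).1)).2 ha'

end Amb

end Pool.Agent.P.MP_48bde8_co
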