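import Pool.Agent.P.MP_48bde8_co.Atoms
import Pool.Agent.P.MP_48bde8_co.Cuts

/-! Task PTRI: the triangle case. -/

namespace Pool.Agent.P.MP_48bde8_co

open Equiv Finset
open scoped Classical

variable {P : Type} [Fintype P]

namespace PTriAux

open Amb

variable {A : Amb P} {ψ : Perm P} {R M M' : Rg P}

theorem pipi (hc : A.Closed ψ) (p : P) : A.π (A.π p) = p :=
  (hc.1.2.2 p (hc.2.1 ▸ mem_univ p)).2.1

theorem typi (hc : A.Closed ψ) (p : P) : A.ty (A.π p) = !A.ty p :=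
  (hc.1.2.2 p (hc.2.1 ▸ mem_univ p)).2.2

theorem wv (hc : A.Closed ψ) : A.WV ψ := hc.2.2.2.1.1

theorem typsi (hc : A.Closed ψ) (p : P) : A.ty (ψ p) = A.ty p := (wv hc p).1

theorem tyinv (hc : A.Closed ψ) (p : P) : A.ty (ψ⁻¹ p) = A.ty p := by
  rw [← typsi hc (ψ⁻¹ p)]
  simp

theorem tyal (hc : A.Closed ψ) (p : P) : A.ty (A.al ψ p) = A.ty p := by
  simp [al, typi hc, typsi hc]

theorem alal (hc : A.Closed ψ) {p : P} (h : A.ty p = false) : A.al ψ (A.al ψ p) = p := by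
  rw [al, al, pipi hc, (wv hc _).2 (by simp [typi hc, h]), pipi hc]

theorem mem_cpl1 {p : P} : p ∈ (cpl ψ M).1 ↔ p ∉ M.1 := by simp [cpl]

theorem mem_cpl2 {p : P} : p ∈ (cpl ψ M).2 ↔ p ∉ M.1 ∧ ψ p ∉ M.1 := by simp [cpl]

omit [Fintype P] in
theorem mem_inf1 {S : Rg P} {p : P} : p ∈ (R ⊓ S).1 ↔ p ∈ R.1 ∧ p ∈ S.1 := by
  rw [Prod.fst_inf, inf_eq_inter, mem_inter]

omit [Fintype P] in
theorem mem_inf2 {S : Rg P} {p : P} : p ∈ (R ⊓ S).2 ↔ p ∈ R.2 ∧ p ∈ S.2 := by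
  rw [Prod.snd_inf, inf_eq_inter, mem_inter]

/-- An orbit that crosses the boundary of a set crosses it twice. -/
theorem cross_twice {V : Finset P} {y : P} (hy : ¬ (y ∈ V ↔ ψ y ∈ V)) :
    ∃ p ∈ orb ψ y, p ≠ y ∧ ¬ (p ∈ V ↔ ψ p ∈ V) := by
  by_contra hcon
  have h1 : orb ψ (ψ y) ⊆ (orb ψ y).filter fun p => (p ∈ V ↔ ψ y ∈ V) := by
    refine orb_subset_of_closed (mem_filter.2 ⟨?_, Iff.rfl⟩) fun q hq => ?_
    · rw [← orb_apply]
      exact self_mem_orb _ _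
    · obtain ⟨h2, h3⟩ := mem_filter.1 hq
      refine mem_filter.2 ⟨?_, ?_⟩
      · rw [mem_orb] at h2 ⊢
        exact h2.apply_right
      · by_contra h4
        refine hcon ⟨q, h2, ?_, fun h5 => h4 (h5.symm.trans h3)⟩
        rintro rfl
        exact hy h3
  rw [orb_apply] at h1
  exact hy (mem_filter.1 (h1 (self_mem_orb _ _))).2

/-- The Euler characteristic count. -/
theorem count (hc : A.Closed ψ) (h1 : A.H1 ψ) (hR : A.Disc ψ R) (hM : A.Pre ψ M) (o1 : Ov R M)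
    (h3 : bd R = 3) (hD : A.Disc ψ (R ⊓ cpl ψ M)) (hD3 : bd (R ⊓ cpl ψ M) = 3) {y0 y1 y2 : P}
    (n01 : y0 ≠ y1) (n02 : y0 ≠ y2) (n12 : y1 ≠ y2) (m0 : y0 ∈ R.2) (m1 : y1 ∈ R.2)
    (m2 : y2 ∈ R.2)
    (hX : ∀ p ∈ R.2, ¬ (p ∈ M.1 ↔ ψ p ∈ M.1) ↔ p = y0 ∨ p = y1 ∨ p = y2)
    (f0 : ¬ orb (A.π * ψ) y0 ⊆ R.2) (f1 : ¬ orb (A.π * ψ) y1 ⊆ R.2)
    (f2 : ¬ orb (A.π * ψ) y2 ⊆ R.2) : False := by
  have hZ : A.Reg ψ (R ⊓ cpl ψ (cpl ψ M)) :=
    hR.1.inf (cpl_reg hc.2.2.2.1 hc.2.2.1 (cpl_pre hM) (hc.2.1 ▸ subset_univ _))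
  have hd : Disjoint (R ⊓ cpl ψ M).1 (R ⊓ cpl ψ (cpl ψ M)).1 :=
    disjoint_left.2 fun p hp hp' => mem_cpl1.1 (mem_inf1.1 hp').2 (mem_inf1.1 hp).2
  have hs : (R ⊓ cpl ψ M) ⊔ (R ⊓ cpl ψ (cpl ψ M)) =
      (R.1, ((R.2.erase y0).erase y1).erase y2) := by
    refine Prod.ext ?_ ?_
    · ext p
      rw [Prod.fst_sup, sup_eq_union, mem_union, mem_inf1, mem_inf1, mem_cpl1, mem_cpl1,
        mem_cpl1]
      tauto
    · ext p
      rw [Prod.snd_sup, sup_eq_union, mem_union, mem_inf2, mem_inf2, mem_cpl2, mem_cpl2,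
        mem_cpl1, mem_cpl1]
      simp only [mem_erase]
      by_cases hp : p ∈ R.2
      · have := hX p hp
        tauto
      · tauto
  have m1' : y1 ∈ R.2.erase y0 := mem_erase.2 ⟨n01.symm, m1⟩
  have m2' : y2 ∈ (R.2.erase y0).erase y1 := mem_erase.2 ⟨n12.symm, mem_erase.2 ⟨n02.symm, m2⟩⟩
  have b1 := bd_modular hD.1.1.2.1 hZ.1.2.1
  have b2 : bd ((R ⊓ cpl ψ M) ⊓ (R ⊓ cpl ψ (cpl ψ M))) = 0 := by
    rw [bd, Prod.fst_inf, inf_eq_inter, disjoint_iff_inter_eq_empty.1 hd, empty_sdiff, card_empty]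
  have b3 := bd_add_card (hD.1.1.sup hZ.1).2.1
  have b4 := bd_add_card hR.1.1.2.1
  have b5 := card_erase_add_one m0
  have b6 := card_erase_add_one m1'
  have b7 := card_erase_add_one m2'
  have e1 := eps_sup_disjoint hD.1.1 hZ.1 hd
  rw [hs] at b1 b3 e1
  dsimp only at b3
  have b8 : bd (R ⊓ cpl ψ (cpl ψ M)) = 3 := by omega
  have hne : (R ⊓ cpl ψ (cpl ψ M)).1.Nonempty := by
    obtain ⟨p, hp, hp'⟩ := not_disjoint_iff.1 o1
    exact ⟨p, mem_inf1.2 ⟨hp, mem_cpl1.2 fun h => mem_cpl1.1 h hp'⟩⟩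
  have hnu : (R ⊓ cpl ψ (cpl ψ M)).1 ≠ univ := fun h => by
    obtain ⟨p, hp⟩ := hD.2.1.1
    exact disjoint_left.1 hd hp (h ▸ mem_univ p)
  have e2 := eps_le_one hZ.1 (H1.conn hc h1 hZ hne hnu b8.le) (by omega)
  have e3 := eps_erase (A := A) (ψ := ψ) R.1 m0
  have e4 := eps_erase (A := A) (ψ := ψ) R.1 m1'
  have e5 := eps_erase (A := A) (ψ := ψ) R.1 m2'
  have s1 := erase_subset y0 R.2
  have s2 := (erase_subset y1 (R.2.erase y0)).trans s1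
  rw [if_neg f0] at e3
  rw [if_neg fun h : orb (A.π * ψ) y1 ⊆ _ => f1 (h.trans s1)] at e4
  rw [if_neg fun h : orb (A.π * ψ) y2 ⊆ _ => f2 (h.trans s2)] at e5
  have e6 : A.eps ψ (R.1, R.2) = 1 := hR.2.2.1
  have e7 := hD.2.2.1
  have a2 : ¬ orb ψ y2 ⊆ (R.2.erase y0).erase y1 := fun h => by
    obtain ⟨p, hp, h4, h5⟩ := cross_twice ((hX _ m2).2 (Or.inr (Or.inr rfl)))
    have h6 := mem_erase.1 (h hp)
    have h7 := mem_erase.1 h6.2
    have := (hX p h7.2).1 h5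
    tauto
  have a01 : ¬ (orb ψ y0 ⊆ R.2 ∧ orb ψ y1 ⊆ R.2.erase y0) := by
    rintro ⟨h, h'⟩
    obtain ⟨p, hp, h4, h5⟩ := cross_twice ((hX _ m0).2 (Or.inl rfl))
    obtain ⟨q, hq, h6, h7⟩ := cross_twice ((hX _ m1).2 (Or.inr (Or.inl rfl)))
    have h8 := mem_erase.1 (h' hq)
    have h9 : q = y2 := by
      have := (hX q h8.2).1 h7
      tauto
    have h10 : ψ.SameCycle y1 p := by
      rcases (hX p (h hp)).1 h5 with h10 | rfl | rfl
      · exact absurd h10 h4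
      · exact Perm.SameCycle.rfl
      · exact h9 ▸ mem_orb.1 hq
    exact (mem_erase.1 (h' (mem_orb.2 (h10.trans (mem_orb.1 hp).symm)))).1 rfl
  rw [if_neg a2] at e5
  split_ifs at e3 e4 with h4 h5
  · exact a01 ⟨h4, h5⟩
  all_goals omega

/-- The local description of the triangle. -/
structure Tri (A : Amb P) (ψ : Perm P) (L : Rg P) (C : P → Prop) : Prop where
  ty : ∀ c, C c → A.ty c = false
  mem : ∀ c, C c → c ∈ L.2
  prev : ∀ c, C c → ∃ c', C c' ∧ ψ c' = A.al ψ c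
  next : ∀ c, C c → C (A.nx ψ c) ∧ A.nx ψ c ≠ c ∧ A.nx ψ (A.nx ψ c) ≠ c
  npsi : ∀ c, C c → ¬ C (ψ c)
  noA : A.NoA L
  bport : ∀ p ∈ L.1, A.ty p = false → C p ∨ ∃ c, C c ∧ p = ψ c
  inn : ∀ p ∈ L.2, A.ty p = false → C p

theorem tri (hc : A.Closed ψ) {b : P} (hb : A.TriAt ψ b) :
    Tri A ψ (A.rTri ψ b) fun c => c = b ∨ c = A.nx ψ b ∨ c = A.nx ψ (A.nx ψ b) := by
  obtain ⟨s1, s2, s3, -, -⟩ := rTri_spec hc.1 (wv hc) hb fun p _ => hc.2.1 ▸ mem_univ p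
  obtain ⟨t0, h3, hn⟩ := hb
  have tn : ∀ p, A.ty (A.nx ψ p) = A.ty p := fun p => by rw [nx, tyal hc, typsi hc]
  have an : ∀ p, A.ty p = false → ψ p = A.al ψ (A.nx ψ p) := fun p hp => by
    rw [nx, alal hc (by rw [typsi hc, hp])]
  simp only [List.nodup_cons, List.mem_cons, List.not_mem_nil, or_false, not_or] at hn
  obtain ⟨⟨n1, n2, n3, n4, n5⟩, ⟨n6, n7, n8, n9⟩, ⟨n10, n11, n12⟩, ⟨n13, n14⟩, n15, -⟩ := hn
  refine ⟨?_, ?_, ?_, ?_, ?_, ?_, ?_, ?_⟩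
  · rintro c (rfl | rfl | rfl) <;> simp only [tn, t0]
  · rintro c (rfl | rfl | rfl) <;> simp only [s2, mem_insert, true_or, or_true]
  · rintro c (rfl | rfl | rfl)
    · exact ⟨_, Or.inr (Or.inr rfl), s3.symm⟩
    · exact ⟨_, Or.inl rfl, an _ t0⟩
    · exact ⟨_, Or.inr (Or.inl rfl), an _ (by rw [tn, t0])⟩
  · rintro c (rfl | rfl | rfl)
    · exact ⟨Or.inr (Or.inl rfl), Ne.symm n2, Ne.symm n4⟩
    · rw [h3]
      exact ⟨Or.inr (Or.inr rfl), Ne.symm n11, n2⟩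
    · rw [h3]
      exact ⟨Or.inl rfl, n4, n11⟩
  · rintro c (rfl | rfl | rfl) (h | h | h)
    exacts [n1 h.symm, n6 h, n8 h, n3 h.symm, n10 h.symm, n13 h, n5 h.symm, n12 h.symm,
      n15 h.symm]
  · intro a ha hty
    rw [s1, mem_dv] at ha
    rw [s2]
    simp only [mem_insert, mem_singleton] at ha ⊢
    rcases ha with (rfl | rfl | rfl | rfl | rfl | rfl) | ⟨q, rfl | rfl | rfl | rfl | rfl | rfl, rfl⟩
    all_goals first
      | (simp only [tn, typsi hc, t0] at hty; exact absurd hty (by decide))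
      | simp only [true_or, or_true]
  · intro p hp hty
    rw [s1, mem_dv] at hp
    simp only [mem_insert, mem_singleton] at hp
    rcases hp with (rfl | rfl | rfl | rfl | rfl | rfl) | ⟨q, rfl | rfl | rfl | rfl | rfl | rfl, rfl⟩
    · exact Or.inl (Or.inl rfl)
    · exact Or.inr ⟨_, Or.inl rfl, rfl⟩
    · exact Or.inl (Or.inr (Or.inl rfl))
    · exact Or.inr ⟨_, Or.inr (Or.inl rfl), rfl⟩
    · exact Or.inl (Or.inr (Or.inr rfl))
    · exact Or.inr ⟨_, Or.inr (Or.inr rfl), rfl⟩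
    all_goals
      simp only [tn, typsi hc, typi hc, t0] at hty
      exact absurd hty (by decide)
  · intro p hp hty
    rw [s2] at hp
    simp only [mem_insert, mem_singleton] at hp
    rcases hp with rfl | rfl | rfl | rfl | rfl | rfl | rfl | rfl | rfl
    · exact Or.inl rfl
    · exact Or.inr (Or.inl rfl)
    · exact Or.inr (Or.inr rfl)
    all_goals
      simp only [tn, typsi hc, typi hc, t0] at hty
      exact absurd hty (by decide)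

variable {L : Rg P} {C : P → Prop}

theorem Tri.nal (T : Tri A ψ L C) (hc : A.Closed ψ) {c : P} (h : C c) : A.al ψ c ∉ L.2 := by
  intro h1
  obtain ⟨c', h2, h3⟩ := T.prev c h
  exact T.npsi c' h2 (h3 ▸ T.inn _ h1 (by rw [tyal hc, T.ty c h]))

theorem Tri.ninv (T : Tri A ψ L C) (hc : A.Closed ψ) {c : P} (h : C c) : ψ⁻¹ c ∉ L.2 := by
  intro h1
  refine T.npsi _ (T.inn _ h1 (by rw [tyinv hc, T.ty c h])) ?_
  simpa using h

theorem Tri.aln (T : Tri A ψ L C) (hc : A.Closed ψ) {c : P} (h : C c) :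
    A.al ψ (A.nx ψ c) = ψ c := by
  rw [nx, alal hc (by rw [typsi hc, T.ty c h])]

end PTriAux

namespace Amb

variable {A : Amb P} {ψ : Perm P} {R M M' R' : Rg P}

open PTriAux in
/-- The triangle case is impossible. -/
theorem pfour_tri (hc : A.Closed ψ) (h1 : A.H1 ψ) (hR : A.Atom ψ R) (hRA : A.NoA R)
    (hM : A.Pre ψ M) (hM' : A.Atom ψ M') (hM'A : A.NoA M') (o1 : Ov R M) (o2 : Ov R M')
    (d1 : ¬ Ov M M') (h3 : bd R = 3) {b : P} (hb : A.TriAt ψ b)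
    (hL : R ⊓ cpl ψ M = A.rTri ψ b) (hD : A.Disc ψ (R ⊓ cpl ψ M))
    (hD3 : bd (R ⊓ cpl ψ M) = 3) : False := by
  have T := tri hc hb
  rw [← hL] at T
  obtain ⟨C, hC⟩ : ∃ C : P → Prop,
    C = fun c => c = b ∨ c = A.nx ψ b ∨ c = A.nx ψ (A.nx ψ b) := ⟨_, rfl⟩
  rw [← hC] at T
  have hψ := wv hc
  have tR := hR.tight hc.1 hψ
  have tM := hM'.tight hc.1 hψ
  have rR : A.Reg ψ R := hR.1.1.1
  have rM : A.Reg ψ M' := hM'.1.1.1
  have dd : ∀ p ∈ M'.1, p ∉ M.1 := fun p hp h => d1 (not_disjoint_iff.2 ⟨p, h, hp⟩)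
  have G : ∀ p ∈ R.2, p ∈ M'.2 → p ∈ (R ⊓ cpl ψ M).2 := fun p hp hp' =>
    mem_inf2.2 ⟨hp, mem_cpl2.2 ⟨dd _ (rM.1.2.1 hp'), dd _ (rM.1.2.2 _ hp')⟩⟩
  have cR : ∀ c, C c → c ∈ R.2 := fun c h => (mem_inf2.1 (T.mem c h)).1
  have cM : ∀ c, C c → c ∉ M.1 ∧ ψ c ∉ M.1 := fun c h => mem_cpl2.1 (mem_inf2.1 (T.mem c h)).2
  have piI : ∀ {S : Rg P}, A.Reg ψ S → A.NoA S → ∀ p ∈ S.1, A.ty p = false → A.π p ∈ S.2 :=
    fun hS hA p hp hty => hA _ (hS.1.1 p hp) (by simp [typi hc, hty])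
  have alM : ∀ p ∈ M'.1, A.ty p = false → A.al ψ p ∈ M'.1 := fun p hp hty =>
    (edge_facts hc.1 hψ rM hp hty (piI rM hM'A p hp hty)).1
  have t3 : ∀ c, C c → ψ⁻¹ c ∈ R.2 ∨ A.al ψ c ∈ R.2 := fun c h =>
    tR.2.2.2 h3 c (rR.1.2.1 (cR c h)) (T.ty c h) (piI rR hRA c (rR.1.2.1 (cR c h)) (T.ty c h))
  have nxM : ∀ c, C c → ψ c ∈ M'.1 → A.nx ψ c ∈ M'.1 := fun c h h' =>
    alM _ h' (by rw [typsi hc, T.ty c h])
  have s1 : ∃ c, C c ∧ c ∈ M'.1 := by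
    obtain ⟨p, hp, hp'⟩ := not_disjoint_iff.1 o2
    obtain ⟨q, hq, hq', hty⟩ : ∃ q ∈ R.1, q ∈ M'.1 ∧ A.ty q = false := by
      cases hty : A.ty p
      · exact ⟨p, hp, hp', hty⟩
      · exact ⟨A.π p, rR.1.1 p hp, rM.1.1 p hp', by simp [typi hc, hty]⟩
    rcases T.bport q (mem_inf1.2 ⟨hq, mem_cpl1.2 (dd q hq')⟩) hty with h | ⟨c, h, rfl⟩
    · exact ⟨q, h, hq'⟩
    · exact ⟨_, (T.next c h).1, nxM c h hq'⟩
  have s2 : ∃ c, C c ∧ c ∈ M'.2 := by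
    obtain ⟨c, h, hm⟩ := s1
    by_contra hcon
    have hc1 := rR.1.2.1 (cR c h)
    have := (four_step hc.1 hψ tR tM hc1 (T.ty c h) (piI rR hRA c hc1 (T.ty c h))
      (piI rM hM'A c hm (T.ty c h)) (by
        simp only [List.mem_cons, List.not_mem_nil, or_false]
        rintro p (rfl | rfl | rfl | rfl) ⟨h4, h5⟩
        · exact hcon ⟨_, h, h5⟩
        · exact T.ninv hc h (G _ h4 h5)
        · exact T.nal hc h (G _ h4 h5)
        · obtain ⟨c', h6, h7⟩ := T.prev c h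
          rw [← h7] at h5
          exact hcon ⟨_, h6, by simpa using h5⟩)).1
    omega
  have s3 : ∀ c, C c → c ∈ M'.1 := by
    obtain ⟨c, h, hm⟩ := s2
    have h' := (T.next c h).1
    have m1 := nxM c h (rM.1.2.2 c hm)
    have m2 : A.nx ψ (A.nx ψ c) ∈ M'.1 := by
      refine nxM _ h' ?_
      by_contra hcon
      have k1 : A.nx ψ c ∉ M'.2 := fun k => hcon (rM.1.2.2 _ k)
      have k0 := piI rM hM'A _ m1 (T.ty _ h')
      have k2 := (tM.2.2.1 _ m1 (T.ty _ h') k0).resolve_left k1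
      have k3 := (t3 _ h').resolve_left fun k => T.ninv hc h' (G _ k k2)
      exact T.nal hc h' (G _ k3 ((tM.t4 hc.1 hψ m1 (T.ty _ h') k0).2.resolve_left k1))
    have m0 := rM.1.2.1 hm
    have h4 := hb.2.1
    subst hC
    rcases h with rfl | rfl | rfl <;> rintro c' (rfl | rfl | rfl) <;>
      first | assumption | (simp only [h4] at m1 m2; assumption)
  have s4 : ∀ c, C c → ¬ (ψ⁻¹ c ∈ R.2 ∧ A.al ψ c ∈ R.2) := by
    rintro c h ⟨k1, k2⟩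
    rcases hM'.bedge hc.1 hψ (s3 c h) (T.ty c h) (piI rM hM'A c (s3 c h) (T.ty c h))
      (fun k => T.ninv hc h (G _ k1 k)) (fun k => T.nal hc h (G _ k2 k)) with k | k
    · exact (T.next c h).2.1 k.1
    · exact (T.next c h).2.2 k.1.2.1
  obtain ⟨y, hy⟩ : ∃ y : P → P, ∀ c, y c = if A.al ψ c ∈ R.2 then A.al ψ c else ψ⁻¹ c :=
    ⟨_, fun _ => rfl⟩
  have y1 : ∀ c, C c → (y c = A.al ψ c ∧ y c ∈ R.2 ∧ ψ⁻¹ c ∉ R.2 ∧ y c ∉ M.1 ∧ ψ (y c) ∈ M.1) ∨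
      (y c = ψ⁻¹ c ∧ y c ∈ R.2 ∧ A.al ψ c ∉ R.2 ∧ y c ∈ M.1 ∧ ψ (y c) ∉ M.1) := by
    intro c h
    rw [hy]
    split_ifs with k
    · obtain ⟨c', h6, h7⟩ := T.prev c h
      have k1 : A.al ψ c ∉ M.1 := h7 ▸ (cM c' h6).2
      refine Or.inl ⟨rfl, k, fun k' => s4 c h ⟨k', k⟩, k1, ?_⟩
      by_contra k2
      exact T.nal hc h (mem_inf2.2 ⟨k, mem_cpl2.2 ⟨k1, k2⟩⟩)
    · have k0 := (t3 c h).resolve_right k
      have k1 : ψ (ψ⁻¹ c) ∉ M.1 := by simpa using (cM c h).1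
      refine Or.inr ⟨rfl, k0, k, ?_, k1⟩
      by_contra k2
      exact T.ninv hc h (mem_inf2.2 ⟨k0, mem_cpl2.2 ⟨k2, k1⟩⟩)
  have y2 : ∀ c c', C c → C c' → y c = y c' → c = c' := by
    intro c c' h h' e
    rcases y1 c h with k | k <;> rcases y1 c' h' with k' | k'
    · rw [← alal hc (T.ty c h), ← alal hc (T.ty c' h'), ← k.1, ← k'.1, e]
    · exact absurd (e ▸ k'.2.2.2.1) k.2.2.2.1
    · exact absurd (e ▸ k.2.2.2.1) k'.2.2.2.1
    · exact ψ⁻¹.injective (k.1.symm.trans (e.trans k'.1))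
  have y3 : ∀ c, C c → ¬ orb (A.π * ψ) (y c) ⊆ R.2 := by
    intro c h hs
    have e : (A.π * ψ).SameCycle (ψ⁻¹ c) (A.al ψ c) := by
      have e1 : A.al ψ c = (A.π * ψ) ((A.π * ψ) (ψ⁻¹ c)) := by simp [al]
      rw [e1]
      exact Perm.SameCycle.rfl.apply_right.apply_right
    rcases y1 c h with k | k
    · exact k.2.2.1 (hs (mem_orb.2 (k.1 ▸ e.symm)))
    · exact k.2.2.1 (hs (mem_orb.2 (k.1 ▸ e)))
  have y4 : ∀ c, C c → y c ∈ R.2 := fun c h => (y1 c h).elim (·.2.1) (·.2.1)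
  have y5 : ∀ p ∈ R.2, ¬ (p ∈ M.1 ↔ ψ p ∈ M.1) ↔ ∃ c, C c ∧ p = y c := by
    intro p hp
    constructor
    · intro hx
      by_cases k : p ∈ M.1
      · have k1 : ψ p ∉ M.1 := fun k' => hx (iff_of_true k k')
        have k2 : ψ p ∈ (R ⊓ cpl ψ M).1 := mem_inf1.2 ⟨rR.1.2.2 p hp, mem_cpl1.2 k1⟩
        cases hty : A.ty p
        · rcases T.bport _ k2 (by rw [typsi hc, hty]) with h | ⟨c, h, e⟩
          · refine ⟨_, h, ?_⟩
            rcases y1 _ h with k3 | k3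
            · exact absurd (by simpa using hp) k3.2.2.1
            · simpa using k3.1.symm
          · exact absurd (ψ.injective e ▸ k) (cM c h).1
        · have k3 := (mem_cpl2.1 (mem_inf2.1 (T.noA _ k2 (by rw [typsi hc, hty]))).2).2
          rw [(hψ p).2 hty] at k3
          exact absurd k k3
      · have k1 : ψ p ∈ M.1 := by
          by_contra k'
          exact hx (iff_of_false k k')
        have k2 : p ∈ (R ⊓ cpl ψ M).1 := mem_inf1.2 ⟨rR.1.2.1 hp, mem_cpl1.2 k⟩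
        cases hty : A.ty p
        · rcases T.bport _ k2 hty with h | ⟨c, h, e⟩
          · exact absurd k1 (cM p h).2
          · have h' := (T.next c h).1
            rw [← T.aln hc h] at e
            refine ⟨_, h', ?_⟩
            rcases y1 _ h' with k3 | k3
            · exact e.trans k3.1.symm
            · exact absurd (e ▸ hp) k3.2.2.1
        · exact absurd k1 (mem_cpl2.1 (mem_inf2.1 (T.noA _ k2 hty)).2).2
    · rintro ⟨c, h, rfl⟩ hx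
      rcases y1 c h with k | k
      · exact k.2.2.2.1 (hx.2 k.2.2.2.2)
      · exact k.2.2.2.2 (hx.1 k.2.2.2.1)
  have c0 : C b := hC ▸ Or.inl rfl
  have c1 := T.next b c0
  have c2 := T.next _ c1.1
  refine count hc h1 hR.1.1 hM o1 h3 hD hD3 (y0 := y b) (y1 := y (A.nx ψ b))
    (y2 := y (A.nx ψ (A.nx ψ b))) (fun e => c1.2.1 (y2 _ _ c0 c1.1 e).symm)
    (fun e => c1.2.2 (y2 _ _ c0 c2.1 e).symm) (fun e => c2.2.1 (y2 _ _ c1.1 c2.1 e).symm)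
    (y4 _ c0) (y4 _ c1.1) (y4 _ c2.1) (fun p hp => ?_) (y3 _ c0) (y3 _ c1.1) (y3 _ c2.1)
  rw [y5 p hp, hC]
  simp only [exists_eq_or_imp, exists_eq_left]

end Amb

end Pool.Agent.P.MP_48bde8_co
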