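import Pool.Agent.P.MP_48bde8_co.PFlat
import Pool.Agent.P.MP_48bde8_co.PTri

/-! Task PFOUR: an atom that overlaps two disjoint regions. -/

namespace Pool.Agent.P.MP_48bde8_co

open Equiv Finset
open scoped Classical

variable {P : Type} [Fintype P]

namespace PFourAux

open Amb

variable {A : Amb P} {ψ : Perm P} {R M M' : Rg P}

theorem mem_L {p : P} : p ∈ (R ⊓ cpl ψ M).2 ↔ p ∈ R.2 ∧ p ∉ M.1 ∧ ψ p ∉ M.1 := by
  simp [cpl]

theorem dt (hc : A.Closed ψ) (p : P) : p ∈ A.dt := by rw [hc.2.1]; exact mem_univ p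

theorem pp (hc : A.Closed ψ) (p : P) : A.π (A.π p) = p := (hc.1.2.2 p (dt hc p)).2.1

theorem tp (hc : A.Closed ψ) (p : P) : A.ty (A.π p) = !A.ty p := (hc.1.2.2 p (dt hc p)).2.2

theorem wv (hc : A.Closed ψ) : A.WV ψ := hc.2.2.2.1.1

theorem tq (hc : A.Closed ψ) (p : P) : A.ty (ψ p) = A.ty p := (wv hc p).1

theorem tq' (hc : A.Closed ψ) (p : P) : A.ty (ψ⁻¹ p) = A.ty p := by
  rw [← tq hc (ψ⁻¹ p)]; simp

theorem ta (hc : A.Closed ψ) (p : P) : A.ty (A.al ψ p) = A.ty p := by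
  simp [al, tp hc, tq hc]

theorem ne_pi (hc : A.Closed ψ) {p q : P} (hp : A.ty p = false) (hq : A.ty q = false) :
    p ≠ A.π q := by
  rintro rfl
  simp [tp hc, hq] at hp

/-- The case of two cuts. -/
theorem two (hc : A.Closed ψ) (h1 : A.H1 ψ) (hR : A.Atom ψ R) (hM : A.Tight ψ M)
    (o1 : Ov R M) (hp : R.1 ∪ M.1 ≠ univ) {c : P} (hd : A.DigAt ψ c) (e : R = A.rDig ψ c)
    (c1 : c ∉ M.1) (c2 : A.al ψ c ∉ M.1) :
    bd M = 2 ∧ ∃ c ∈ R.1, c ∈ M.1 ∧ A.ty c = false ∧ A.π c ∈ M.2 ∧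
      ψ⁻¹ c ∉ M.2 ∧ A.al ψ c ∉ M.2 ∧ A.al ψ c ∈ R.1 := by
  have hA := hc.1
  have hψ := wv hc
  have hMr : A.Reg ψ M := hM.1.1.1
  have hMp : A.Pre ψ M := hMr.1
  have hRp : A.Pre ψ R := hR.1.1.1.1
  have hty := hd.1
  obtain ⟨-, -, -, hV, -, hI, hal, -⟩ := rDig_spec hA hψ hd fun p _ => dt hc p
  rw [← e] at hV hI
  obtain ⟨h, hh⟩ : ∃ h, h ∉ R.1 ∪ M.1 := by
    by_contra hn
    push Not at hn
    exact hp (eq_univ_iff_forall.2 hn)
  have hb : 1 ≤ bd (R ⊔ M) := by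
    obtain ⟨x, hx⟩ := hM.1.1.2.1.1
    exact bd_pos_of_conn hc.2.2.2.2.1 (hRp.sup hMp) (by rw [hc.2.2.1]; exact subset_univ _)
      ⟨x, mem_union_right _ hx⟩ (h := h) (by rw [hc.2.2.1]; exact mem_univ _) hh
  obtain ⟨-, -, -, p, -, hK, -, hK1, hK2⟩ := cross hA hψ (hR.tight hA hψ) hM o1 hb
  have hle := comp_le (A := A) (ψ := ψ) (R ⊓ M) p
  generalize A.comp ψ (R ⊓ M) p = K at hK hK1 hK2 hle
  have n1 : A.nx ψ c ∉ M.2 := fun h => c2 (hal ▸ hMp.2.2 _ h)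
  have n2 : A.π c ∉ M.1 := fun h => c1 ((hMp.mem_iff c).1 h)
  have n3 : A.π (ψ (A.nx ψ c)) ∉ M.1 := fun h => c2 (hal ▸ (hMp.mem_iff _).1 h)
  have t1 : A.ty (A.π (ψ c)) = true := by simp [tp hc, tq hc, hty]
  have t2 : A.ty (A.π (A.nx ψ c)) = true := by simp [nx, tp hc, tq hc, ta hc, hty]
  have e1 : ψ (A.π (ψ c)) = A.π (A.nx ψ c) := by simp [nx, al, pp hc]
  have e2 : ψ (A.π (A.nx ψ c)) = A.π (ψ c) := by rw [← e1, (hψ _).2 t1]
  have hboth : A.π (ψ c) ∈ K.2 ∧ A.π (A.nx ψ c) ∈ K.2 := by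
    obtain ⟨q, hq⟩ := nonempty_iff_ne_empty.2 hK2
    obtain ⟨q1, q2⟩ := mem_inter.1 (hle.2 hq)
    rw [hI] at q1
    simp only [mem_insert, mem_singleton] at q1
    rcases q1 with rfl | rfl | rfl | rfl | rfl | rfl
    · exact absurd (hMp.2.1 q2) c1
    · exact absurd q2 n1
    · exact absurd (hMp.2.1 q2) n2
    · exact ⟨hq, e1 ▸ (hK.1.2.2 _ hq t1).1⟩
    · exact ⟨e2 ▸ (hK.1.2.2 _ hq t2).1, hq⟩
    · exact absurd (hMp.2.1 q2) n3
  have hsub : K.1 \ K.2 ⊆ {ψ c, A.nx ψ c} := by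
    intro q hq
    obtain ⟨q0, q3⟩ := mem_sdiff.1 hq
    obtain ⟨q1, q2⟩ := mem_inter.1 (hle.1 q0)
    rw [hV, mem_dv] at q1
    simp only [mem_insert, mem_singleton, exists_eq_or_imp, exists_eq_left] at q1 ⊢
    rcases q1 with (rfl | rfl | rfl | rfl) | rfl | rfl | rfl | rfl
    · exact absurd q2 c1
    · exact Or.inl rfl
    · exact Or.inr rfl
    · exact absurd (hal ▸ q2) c2
    · exact absurd q2 n2
    · exact absurd hboth.1 q3
    · exact absurd hboth.2 q3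
    · exact absurd q2 n3
  have hK3 : bd K ≤ 2 := (card_le_card hsub).trans card_le_two
  have hM2 : 2 ≤ bd M := h1 M hMr hM.1.1.2.1.1 fun h => c1 (h ▸ mem_univ c)
  have m1 : A.π (ψ c) ∈ M.2 := (mem_inter.1 (hle.2 hboth.1)).2
  refine ⟨by omega, ψ c, ?_, (hMp.mem_iff _).1 (hMp.2.1 m1), by rw [tq hc, hty], m1, ?_, n1, ?_⟩
  · rw [hV, mem_dv]; simp
  · simpa using fun h => c1 (hMp.2.1 h)
  · rw [hV, mem_dv]; simp [nx]

/-- The case of two edges. -/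
theorem edges (hc : A.Closed ψ) (h1 : A.H1 ψ) (hR : A.Atom ψ R) (hRA : A.NoA R)
    (hM : A.Tight ψ M) (hM' : A.Atom ψ M') (hM'A : A.NoA M') (d1 : ¬ Ov M M')
    (hp : R.1 ∪ M.1 ≠ univ) (h3 : bd R = 3) {b : P} (hty : A.ty b = false)
    (hn : [b, ψ b, A.al ψ b, A.nx ψ b].Nodup) (hb : b ∈ R.2) (hb' : b ∈ M'.2)
    (hL : ∀ p, A.ty p = false → p ∈ R.2 → p ∉ M.1 → ψ p ∉ M.1 → p = b) : False := by
  have hA := hc.1
  have hψ := wv hc
  have hMr : A.Reg ψ M := hM.1.1.1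
  have hRr : A.Reg ψ R := hR.1.1.1
  have hRp : A.Pre ψ R := hRr.1
  have hNr : A.Reg ψ M' := hM'.1.1.1
  have hNp : A.Pre ψ M' := hNr.1
  have hRt := hR.tight hA hψ
  have hNt := hM'.tight hA hψ
  have hd : ∀ p ∈ M'.1, p ∉ M.1 := fun p h h' => d1 fun hd => disjoint_left.1 hd h' h
  have hG : ∀ p, A.ty p = false → p ∈ R.2 → p ∈ M'.2 → p = b := fun p h h2 h' =>
    hL p h h2 (hd _ (hNp.2.1 h')) (hd _ (hNp.2.2 _ h'))
  have hE : ∀ p ∈ R.1, A.ty p = false → A.π p ∈ R.2 := fun p h ht =>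
    hRA _ (hRp.1 _ h) (by simp [tp hc, ht])
  have hE' : ∀ p ∈ M'.1, A.ty p = false → A.π p ∈ M'.2 := fun p h ht =>
    hM'A _ (hNp.1 _ h) (by simp [tp hc, ht])
  simp only [List.nodup_cons, List.mem_cons, List.not_mem_nil, or_false, not_or,
    not_false_eq_true, List.nodup_nil, and_true] at hn
  obtain ⟨⟨n1, n2, n3⟩, ⟨n4, n5⟩, -⟩ := hn
  have v0 := hRp.2.1 hb
  have w0 := hNp.2.1 hb'
  have v2 := hRp.2.2 _ hb
  have ty1 : A.ty (A.al ψ b) = false := by rw [ta hc, hty]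
  have ty2 : A.ty (ψ b) = false := by rw [tq hc, hty]
  have ty3 : A.ty (A.nx ψ b) = false := by rw [nx, ta hc, ty2]
  have v1 := (edge_facts hA hψ hRr v0 hty (hE _ v0 hty)).1
  have w1 := (edge_facts hA hψ hNr w0 hty (hE' _ w0 hty)).1
  have v3 : A.nx ψ b ∈ R.1 := (edge_facts hA hψ hRr v2 ty2 (hE _ v2 ty2)).1
  have g1 : A.al ψ b ∈ R.2 → A.al ψ b ∉ M'.2 := fun h h' => n2 (hG _ ty1 h h').symm
  have g2 : ψ⁻¹ (A.al ψ b) ∈ R.2 → ψ⁻¹ (A.al ψ b) ∉ M'.2 := fun h h' => by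
    have := hG _ (by rw [tq' hc, ty1]) h h'
    exact n4 (by rw [← congrArg ψ this]; simp)
  have g3 : ψ⁻¹ b ∈ R.2 → ψ⁻¹ b ∉ M'.2 := fun h h' => by
    have := hG _ (by rw [tq' hc, hty]) h h'
    exact n1 (by rw [← congrArg ψ this]; simp)
  have r1 := hRt.2.2.1 _ v1 ty1 (hE _ v1 ty1)
  have r2 := (hRt.t4 hA hψ v0 hty (hE _ v0 hty)).1
  have r3 := hRt.2.2.2 h3 _ v0 hty (hE _ v0 hty)
  have s1 := hNt.2.2.1 _ w1 ty1 (hE' _ w1 ty1)
  have s2 := (hNt.t4 hA hψ w0 hty (hE' _ w0 hty)).1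
  have k : ψ⁻¹ (A.al ψ b) ∈ M'.2 ∧ A.al ψ b ∈ R.2 ∧ ψ⁻¹ b ∈ R.2 := by tauto
  obtain ⟨k1, k2, k3⟩ := k
  rcases hM'.bedge hA hψ w0 hty (hE' _ w0 hty) (g3 k3) (g1 k2) with ⟨h, -⟩ | ⟨hdg, e⟩
  · exact n3 h.symm
  obtain ⟨-, -, -, hV, -, hI, hal, -⟩ := rDig_spec hA hψ hdg fun p _ => dt hc p
  rw [← e] at hV hI
  rw [← hal] at hV
  have k4 : A.nx ψ b ∈ M'.2 := by rw [hI]; simp
  have k5 : A.nx ψ b ∉ R.2 := fun h => n3 (hG _ ty3 h k4).symm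
  have k6 : ψ b ∈ R.2 := (hRt.t4 hA hψ v2 ty2 (hE _ v2 ty2)).2.resolve_right k5
  have k7 : ψ⁻¹ (A.nx ψ b) ∈ R.2 := (hRt.2.2.1 _ v3 ty3 (hE _ v3 ty3)).resolve_left k5
  have hB : ∀ x ∈ M'.1, A.ty x = false → x = b ∨ x = ψ b ∨ x = A.nx ψ b ∨ x = A.al ψ b := by
    intro x hx ht
    rw [hV, mem_dv] at hx
    simp only [mem_insert, mem_singleton, exists_eq_or_imp, exists_eq_left] at hx
    rcases hx with hx | hx | hx | hx | hx
    · exact hx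
    · exact absurd hx.symm (ne_pi hc ht hty)
    · exact absurd hx.symm (ne_pi hc ht ty2)
    · exact absurd hx.symm (ne_pi hc ht ty3)
    · exact absurd hx.symm (ne_pi hc ht ty1)
  have hstep : ∀ x, x ∉ M.1 → ψ x ∉ M.1 → (x ∈ M'.1 ↔ ψ x ∈ M'.1) := by
    intro x x1 x2
    rcases ht : A.ty x with _ | _
    · constructor
      · intro hx
        have : x ∈ R.2 ∨ x ∈ M'.2 := by
          rcases hB x hx ht with rfl | rfl | rfl | rfl
          exacts [Or.inl hb, Or.inl k6, Or.inr k4, Or.inl k2]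
        rcases this with h | h
        · rw [hL x ht h x1 x2]; exact hNp.2.2 _ hb'
        · exact hNp.2.2 _ h
      · intro hx
        have : x ∈ R.2 ∨ x ∈ M'.2 := by
          have e0 : x = ψ⁻¹ (ψ x) := by simp
          rw [e0]
          rcases hB _ hx (by rw [tq hc, ht]) with h | h | h | h <;> rw [h]
          exacts [Or.inl k3, Or.inl (by simpa using hb), Or.inl k7, Or.inr k1]
        rcases this with h | h
        · rw [hL x ht h x1 x2]; exact w0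
        · exact hNp.2.1 h
    · constructor
      · intro hx
        exact hNp.2.2 _ (hM'A x hx ht)
      · intro hx
        have := hNp.2.2 _ (hM'A _ hx (by rw [tq hc, ht]))
        rwa [(hψ x).2 ht] at this
  have hinv : ∀ x y, A.RL ψ (cpl ψ M) x y → (x ∈ M'.1 ↔ y ∈ M'.1) := by
    intro x y h
    induction h with
    | rel x y h =>
      rcases h with ⟨_, rfl⟩ | ⟨h, rfl⟩
      · exact (hNp.mem_iff x).symm
      · exact hstep x (mem_compl.1 (mem_filter.1 h).1) (mem_filter.1 h).2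
    | refl x => exact Iff.rfl
    | symm x y _ ih => exact ih.symm
    | trans x y z _ _ ih1 ih2 => exact ih1.trans ih2
  have hcon := (h1.cpl_disc hc hMr hM.1.1.2.1 (fun h => hd b w0 (h ▸ mem_univ b))
    hM.1.2.1).1.2.1
  have hBR : ∀ x ∈ M'.1, A.ty x = false → x ∈ R.1 := by
    intro x hx ht
    rcases hB x hx ht with rfl | rfl | rfl | rfl
    exacts [v0, v2, v3, v1]
  refine hp (eq_univ_iff_forall.2 fun q => ?_)
  by_cases hq : q ∈ M.1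
  · exact mem_union_right _ hq
  have hq' := (hinv b q (hcon.2 b (mem_compl.2 (hd b w0)) q (mem_compl.2 hq))).1 w0
  refine mem_union_left _ ?_
  rcases ht : A.ty q with _ | _
  · exact hBR q hq' ht
  · exact (hRp.mem_iff q).1 (hBR _ (hNp.1 q hq') (by simp [tp hc, ht]))

end PFourAux

namespace Amb

variable {A : Amb P} {ψ : Perm P} {R M M' R' : Rg P}

theorem pfour (hc : A.Closed ψ) (h1 : A.H1 ψ) (hR : A.Atom ψ R) (hRA : A.NoA R)
    (hM : A.Tight ψ M) (hM' : A.Atom ψ M') (hM'A : A.NoA M') (hR' : A.Tight ψ R')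
    (o1 : Ov R M) (o2 : Ov R M') (o3 : Ov R' M) (d1 : ¬ Ov M M') (d2 : ¬ Ov R R')
    (hp : R.1 ∪ M.1 ≠ univ) :
    A.IsDig ψ R ∧ bd M = 2 ∧ ∃ c ∈ R.1, c ∈ M.1 ∧ A.ty c = false ∧ A.π c ∈ M.2 ∧
      ψ⁻¹ c ∉ M.2 ∧ A.al ψ c ∉ M.2 ∧ A.al ψ c ∈ R.1 := by
  have hA := hc.1
  have hψ := PFourAux.wv hc
  have tp := PFourAux.tp hc
  have tq := PFourAux.tq hc
  have tq' := PFourAux.tq' hc
  have ta := PFourAux.ta hc
  have hRr : A.Reg ψ R := hR.1.1.1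
  have hRp : A.Pre ψ R := hRr.1
  have hNr : A.Reg ψ M' := hM'.1.1.1
  have hNp : A.Pre ψ M' := hNr.1
  have hRt := hR.tight hA hψ
  have hNt := hM'.tight hA hψ
  have hd : ∀ p ∈ M'.1, p ∉ M.1 := fun p h h' => d1 fun hd => disjoint_left.1 hd h' h
  obtain ⟨b, hb, hb', hty⟩ : ∃ b, b ∈ R.1 ∧ b ∈ M'.1 ∧ A.ty b = false := by
    obtain ⟨x, x1, x2⟩ := not_disjoint_iff.1 o2
    rcases ht : A.ty x with _ | _
    · exact ⟨x, x1, x2, ht⟩
    · exact ⟨A.π x, hRp.1 x x1, hNp.1 x x2, by simp [tp, ht]⟩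
  obtain ⟨hD, hF, hle⟩ := pfour_flat hc h1 hR hM hR' o1 (fun h => hd b hb' (h hb)) o3 d2
  have h2 := flat_two_le hA hψ hD hF
  have h3 : bd R ≤ 3 := hR.1.2.1
  have hG : ∀ p ∈ R.2, p ∈ M'.2 → p ∈ (R ⊓ cpl ψ M).2 := fun p h h' =>
    PFourAux.mem_L.2 ⟨h, hd _ (hNp.2.1 h'), hd _ (hNp.2.2 _ h')⟩
  have hE : ∀ p ∈ R.1, A.ty p = false → A.π p ∈ R.2 := fun p h ht =>
    hRA _ (hRp.1 _ h) (by simp [tp, ht])
  have hE' : ∀ p ∈ M'.1, A.ty p = false → A.π p ∈ M'.2 := fun p h ht =>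
    hM'A _ (hNp.1 _ h) (by simp [tp, ht])
  have hEL : ∀ p ∈ R.1, p ∈ M'.1 → A.ty p = false → A.π p ∈ (R ⊓ cpl ψ M).2 := fun p h h' ht =>
    hG _ (hE p h ht) (hE' p h' ht)
  have hfour : (∃ p, A.ty p = false ∧ p ∈ R.2 ∧ p ∈ M'.2) ∨ (bd R ≤ 2 ∧
      ∃ c, (c = b ∨ c = A.al ψ b) ∧ ψ⁻¹ c ∉ R.2 ∧ A.al ψ c ∉ R.2) := by
    by_cases hex : ∃ p, A.ty p = false ∧ p ∈ R.2 ∧ p ∈ M'.2
    · exact Or.inl hex
    obtain ⟨a1, -, c, a2, a3, a4, -⟩ := four_step hA hψ hRt hNt hb hty (hE b hb hty)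
      (hE' b hb' hty) fun p hp h => hex ⟨p, by
        simp only [List.mem_cons, List.not_mem_nil, or_false] at hp
        rcases hp with rfl | rfl | rfl | rfl <;> simp only [tq', ta, hty], h⟩
    exact Or.inr ⟨a1, c, a2, a3, a4⟩
  rcases Nat.lt_or_ge 2 (bd (R ⊓ cpl ψ M)) with hlt | hge
  · exfalso
    have hR3 : bd R = 3 := by omega
    have hL3 : bd (R ⊓ cpl ψ M) = 3 := by omega
    obtain ⟨p, p1, p2, p3⟩ := hfour.resolve_right (by omega)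
    have p4 := hG p p2 p3
    obtain ⟨b0, b1, t0, hcase⟩ := flat_three hA hψ hD hF hL3
    have t1 : A.ty (A.al ψ b0) = false := by rw [ta, t0]
    have t2 : A.ty (ψ b0) = false := by rw [tq, t0]
    have t3 : A.ty (A.al ψ (ψ b0)) = false := by rw [ta, t2]
    rcases hcase with ⟨-, e⟩ | ⟨hn, e⟩ | ⟨hn, e⟩ | ⟨hn, e⟩ | ⟨hn, e⟩
    · have := hEL b hb hb' hty
      rw [e] at this
      exact PFourAux.ne_pi hc t0 hty (mem_singleton.1 this).symm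
    · rw [e] at p4
      have e1 : p = b0 := by
        simpa [rS, rQ, PFourAux.ne_pi hc p1 t2, PFourAux.ne_pi hc p1 t3] using p4
      subst e1
      have := hEL p (hRp.2.1 p2) (hNp.2.1 p3) p1
      rw [e] at this
      simp [rS, rQ, (PFourAux.ne_pi hc p1 p1).symm] at this
      simp [nx] at hn
      tauto
    · rw [e] at p4
      have e1 : p = b0 := by
        simpa [rS, rQ, PFourAux.ne_pi hc p1 t0, PFourAux.ne_pi hc p1 t1] using p4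
      subst e1
      have := hEL (ψ p) (hRp.2.2 _ p2) (hNp.2.2 _ p3) t2
      rw [e] at this
      simp [rS, rQ, (PFourAux.ne_pi hc p1 t2).symm] at this
      simp at hn
      rcases this with h | h
      · exact hn.1.1 h.symm
      · exact hn.2 h
    · have hL : ∀ q, A.ty q = false → q ∈ (R ⊓ cpl ψ M).2 → q = b0 := by
        intro q q1 q2
        rw [e] at q2
        simpa [rS, rQ, PFourAux.ne_pi hc q1 t0, PFourAux.ne_pi hc q1 t1, PFourAux.ne_pi hc q1 t2,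
          PFourAux.ne_pi hc q1 t3] using q2
      have e1 := hL p p1 p4
      subst e1
      exact PFourAux.edges hc h1 hR hRA hM hM' hM'A d1 hp hR3 p1 hn p2 p3
        fun q q1 q2 q3 q4 => hL q q1 (PFourAux.mem_L.2 ⟨q2, q3, q4⟩)
    · exact pfour_tri hc h1 hR hRA hM.1.1.1.1 hM' hM'A o1 o2 d1 hR3 hn e hD hL3
  · obtain ⟨b0, -, t0, hcase⟩ := flat_two hA hψ hD hF (by omega)
    rcases hcase with e | ⟨-, e⟩
    · have := hEL b hb hb' hty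
      rw [e] at this
      simp [rT] at this
    have t1 : A.ty (A.al ψ b0) = false := by rw [ta, t0]
    rcases hfour with ⟨p, p1, p2, p3⟩ | ⟨-, c, c0, c1, c2⟩
    · have p4 := hG p p2 p3
      rw [e] at p4
      simp [rQ, PFourAux.ne_pi hc p1 t0, PFourAux.ne_pi hc p1 t1] at p4
    have f1 := edge_facts hA hψ hRr hb hty (hE b hb hty)
    have f2 := edge_facts hA hψ hNr hb' hty (hE' b hb' hty)
    have hc' : c ∈ R.1 ∧ c ∈ M'.1 ∧ A.ty c = false := by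
      rcases c0 with rfl | rfl
      exacts [⟨hb, hb', hty⟩, ⟨f1.1, f2.1, f1.2.1⟩]
    obtain ⟨c3, c4, c5⟩ := hc'
    rcases hR.bedge hA hψ c3 c5 (hE c c3 c5) c1 c2 with ⟨-, h⟩ | ⟨hdg, e'⟩
    · omega
    exact ⟨⟨c, hdg, e'⟩, PFourAux.two hc h1 hR hM o1 hp hdg e' (hd c c4)
      (hd _ (edge_facts hA hψ hNr c4 c5 (hE' c c4 c5)).1)⟩

end Amb

end Pool.Agent.P.MP_48bde8_co
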