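import Pool.Agent.P.MP_48bde8_co.Table
import Pool.Agent.P.MP_48bde8_co.Filt
import Pool.Agent.P.MP_48bde8_co.Maps

/-! Task PARAM: the couplings and their leading terms. -/

namespace Pool.Agent.P.MP_48bde8_co

open PowerSeries Finset

variable {k : Type} [Field k] [Algebra ℚ k] {σ : k}

omit [Algebra ℚ k] in
theorem ParamA.io_inj : Function.Injective (io k) := IsFractionRing.injective _ _

omit [Algebra ℚ k] in
theorem ParamA.eL_pow (n : ℕ) : (((eL k) ^ (n : ℤ) : (Lf k)ˣ) : Lf k) = io k (X ^ n) := by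
  rw [zpow_natCast, Units.val_pow_eq_pow_val, map_pow]
  rfl

omit [Algebra ℚ k] in
theorem ParamA.vv_iff (n : ℕ) (f : PowerSeries k) :
    VV (io k).range (eL k) n (io k f) ↔ X ^ n ∣ f := by
  constructor
  · rintro ⟨g, ⟨g', rfl⟩, h⟩
    rw [ParamA.eL_pow, ← map_mul] at h
    exact ⟨g', ParamA.io_inj h⟩
  · rintro ⟨g, rfl⟩
    exact ⟨io k g, ⟨g, rfl⟩, by rw [ParamA.eL_pow, map_mul]⟩

omit [Algebra ℚ k] in
theorem ParamA.lt_iff (n : ℕ) (c f : PowerSeries k) :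
    LT (io k).range (eL k) n (io k c) (io k f) ↔ X ^ (n + 1) ∣ f - X ^ n * c := by
  rw [← ParamA.vv_iff, map_sub, map_mul, ← ParamA.eL_pow]
  constructor
  · exact fun h => by simpa using h.2
  · exact fun h => ⟨⟨c, rfl⟩, by simpa using h⟩

theorem ParamA.list_sum (L : List (ℕ × ℕ × ℤ)) (s : k) (N : ℕ) :
    ∑ j ∈ range (N / 2 + 1), algebraMap ℚ k
        (((L.map fun y => if y.1 = N - 2 * j ∧ y.2.1 = j then y.2.2 else 0).sum : ℤ) : ℚ) * s ^ j =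
      coeff N (L.map fun y => C ((y.2.2 : k) * s ^ y.2.1) * X ^ (y.1 + 2 * y.2.1)).sum := by
  induction L with
  | nil => simp
  | cons y L ih =>
    simp only [List.map_cons, List.sum_cons, map_add, Int.cast_add, add_mul, sum_add_distrib]
    rw [ih, coeff_C_mul, coeff_X_pow]
    congr 1
    by_cases hN : N = y.1 + 2 * y.2.1
    · rw [if_pos hN, sum_eq_single y.2.1]
      · rw [if_pos ⟨by omega, rfl⟩]
        simp
      · intro j _ hj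
        rw [if_neg (fun h => hj h.2.symm)]
        simp
      · intro h
        exact absurd (mem_range.2 (by omega)) h
    · rw [if_neg hN, mul_zero]
      refine sum_eq_zero fun j hj => ?_
      have := mem_range.1 hj
      rw [if_neg (by omega)]
      simp

theorem ParamA.low {τ γ : List Bool → PowerSeries (Polynomial ℚ)}
    {ω : List Bool → List Bool → PowerSeries (Polynomial ℚ)}
    (h : PartI (1 : Polynomial ℚ) Polynomial.X τ γ ω)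
    (Ψ : PowerSeries (Polynomial ℚ) →+* PowerSeries k) (hc : ∀ f N, coeff N (Ψ f) =
      ∑ j ∈ range (N / 2 + 1), algebraMap ℚ k ((coeff (N - 2 * j) f).coeff j) * (-σ ^ 2) ^ j)
    (i : Fin 9) : ∃ E, Ψ (γ (w9 i)) = ((lowL i).map fun y =>
      ((y.2.2 : PowerSeries k) * (-C σ ^ 2) ^ y.2.1) * X ^ (y.1 + 2 * y.2.1)).sum + X ^ 31 * E := by
  have h1 : X ^ 31 ∣ Ψ (γ (w9 i)) - ((lowL i).map fun y =>
      C ((y.2.2 : k) * (-σ ^ 2) ^ y.2.1) * X ^ (y.1 + 2 * y.2.1)).sum := by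
    rw [X_pow_dvd_iff]
    intro N hN
    rw [map_sub, hc, ← ParamA.list_sum, sub_eq_zero]
    refine sum_congr rfl fun j hj => ?_
    have := mem_range.1 hj
    rw [table h i (N - 2 * j) j (by omega)]
  obtain ⟨E, hE⟩ := h1
  refine ⟨E, ?_⟩
  simp only [map_mul, map_pow, map_neg, map_intCast] at hE
  linear_combination hE

omit [Algebra ℚ k] in
theorem ParamA.theta (S : PowerSeries k) (g : Fin 9 → PowerSeries k)
    {y0 y1 y2 y3 y4 y5 y6 y7 y8 : PowerSeries k} (h0 : g 0 = -X + X ^ 2 * y0)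
    (h1 : g 1 = X * y1) (h2 : g 2 = X * y2) (h3 : g 3 = X + X ^ 2 * y3)
    (h4 : g 4 = S ^ 2 * X ^ 6 + S ^ 4 * X ^ 10 + X ^ 11 * y4) (h5 : g 5 = X ^ 3 * (-1 + X * y5))
    (h6 : g 6 = X ^ 28 * y6) (h7 : g 7 = S ^ 8 * X ^ 27 + X ^ 28 * y7)
    (h8 : g 8 = -S ^ 8 * X ^ 26 + X ^ 31 * y8) :
    ∃ a l c p q u d r v : PowerSeries k, (∀ κ i, g i = gam9 ![a, l, c, p, q, u, d, r, v, κ] i) ∧
      X ^ (3 + 1) ∣ a - X ^ 3 * (-1) ∧ X ^ 25 ∣ l ∧ X ^ (27 + 1) ∣ c - X ^ 27 * S ^ 8 ∧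
      X ^ (0 + 1) ∣ p - X ^ 0 * (-1) ∧ X ^ (1 + 1) ∣ q - X ^ 1 * 1 ∧
      X ^ (1 + 1) ∣ u - X ^ 1 * (-1) ∧ X ^ 31 ∣ d + S ^ 8 * X ^ 26 ∧
      X ^ 11 ∣ r - S ^ 2 * X ^ 6 - S ^ 4 * X ^ 10 ∧ X ^ (0 + 1) ∣ v - X ^ 0 * (-1) := by
  have hw : IsUnit (-1 + X * y5 : PowerSeries k) := by
    rw [isUnit_iff_constantCoeff]
    simp
  obtain ⟨w, hw⟩ := hw.exists_right_inv
  obtain ⟨m, hm⟩ : ∃ m : PowerSeries k, m = y6 * w := ⟨_, rfl⟩
  have hl : g 6 = g 5 * (X ^ 25 * m) := by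
    rw [h5, h6, hm]
    linear_combination (-X ^ 28 * y6) * hw
  refine ⟨g 5, X ^ 25 * m, g 7 - g 5 * (X ^ 25 * m) ^ 2, g 2 - 1, g 3 - X ^ 25 * m * (g 2 - 1),
    g 0, g 8 - g 5 * (X ^ 25 * m) ^ 3 - 3 * (g 7 - g 5 * (X ^ 25 * m) ^ 2) * (X ^ 25 * m),
    g 4 - (X ^ 25 * m) ^ 2 * (g 2 - 1) - 2 * (X ^ 25 * m) * (g 3 - X ^ 25 * m * (g 2 - 1)),
    g 1 - 1 - X ^ 25 * m * g 0, ?_, ⟨y5, by rw [h5]; ring⟩, ⟨m, rfl⟩,
    ⟨y7 - g 5 * X ^ 22 * m ^ 2, by rw [h7]; ring⟩, ⟨y2, by rw [h2]; ring⟩,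
    ⟨y3 - X ^ 23 * m * (g 2 - 1), by rw [h3]; ring⟩, ⟨y0, by rw [h0]; ring⟩,
    ⟨y8 - g 5 * X ^ 44 * m ^ 3 - 3 * (S ^ 8 * X ^ 2 + X ^ 3 * y7 - g 5 * X ^ 25 * m ^ 2) *
      (X ^ 19 * m), by rw [h8, h7]; ring⟩,
    ⟨y4 - X ^ 39 * m ^ 2 * (g 2 - 1) - 2 * (X ^ 14 * m) * (g 3 - X ^ 25 * m * (g 2 - 1)),
      by rw [h4]; ring⟩, ⟨y1 - X ^ 24 * m * g 0, by rw [h1]; ring⟩⟩
  intro κ i
  fin_cases i
  all_goals
    simp only [gam9, Fin.zero_eta, Fin.mk_one, Fin.reduceFinMk, Matrix.cons_val,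
      Matrix.cons_val_zero, Matrix.cons_val_one]
  · ring
  · ring
  · ring
  · ring
  · exact hl
  · ring
  · ring

theorem ParamA.kap {R : Type} [CommRing R] (z a l c p q u d r v κ κ' : R) (τ : List Bool → R) :
    Kap 1 z ![a, l, c, p, q, u, d, r, v, κ] τ = Kap 1 z ![a, l, c, p, q, u, d, r, v, κ'] τ := by
  simp only [Kap, Matrix.cons_val, Matrix.cons_val_zero]

theorem exists_setup (hσ : σ ≠ 0) {τ γ : List Bool → PowerSeries (Polynomial ℚ)}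
    {ω : List Bool → List Bool → PowerSeries (Polynomial ℚ)}
    (h : PartI (1 : Polynomial ℚ) Polynomial.X τ γ ω)
    (Ψ : PowerSeries (Polynomial ℚ) →+* PowerSeries k) (hX : Ψ X = X)
    (hz : Ψ (C Polynomial.X) = zO σ) (hc : ∀ f N, coeff N (Ψ f) =
      ∑ j ∈ range (N / 2 + 1), algebraMap ℚ k ((coeff (N - 2 * j) f).coeff j) * (-σ ^ 2) ^ j) :
    ∃ θ, Setup σ (fun w => Ψ (τ w)) (fun w => Ψ (γ w)) (fun u w => Ψ (ω u w)) θ := by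
  obtain ⟨E0, h0⟩ := ParamA.low h Ψ hc 0
  obtain ⟨E1, h1⟩ := ParamA.low h Ψ hc 1
  obtain ⟨E2, h2⟩ := ParamA.low h Ψ hc 2
  obtain ⟨E3, h3⟩ := ParamA.low h Ψ hc 3
  obtain ⟨E4, h4⟩ := ParamA.low h Ψ hc 4
  obtain ⟨E5, h5⟩ := ParamA.low h Ψ hc 5
  obtain ⟨E6, h6⟩ := ParamA.low h Ψ hc 6
  obtain ⟨E7, h7⟩ := ParamA.low h Ψ hc 7
  obtain ⟨E8, h8⟩ := ParamA.low h Ψ hc 8
  simp only [lowL, Matrix.cons_val, Matrix.cons_val_zero, Matrix.cons_val_one, List.map_cons,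
    List.map_nil, List.sum_cons, List.sum_nil] at h0 h1 h2 h3 h4 h5 h6 h7 h8
  push_cast at h0 h1 h2 h3 h4 h5 h6 h7 h8
  obtain ⟨a, l, c, p, q, u, d, r, v, hg, ha, hl, hc', hp, hq, hu, hd, hr, hv⟩ :=
    ParamA.theta (C σ) (fun i => Ψ (γ (w9 i)))
      (y0 := -C σ ^ 2 * X ^ 3 + C σ ^ 2 * X ^ 5 + C σ ^ 8 * X ^ 25 + X ^ 29 * E0)
      (y1 := C σ ^ 2 * X ^ 3 + C σ ^ 4 * X ^ 7 - C σ ^ 2 * X ^ 5 + C σ ^ 6 * X ^ 11 -
        C σ ^ 4 * X ^ 9 + C σ ^ 8 * X ^ 15 + C σ ^ 10 * X ^ 19 + C σ ^ 12 * X ^ 23 +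
        C σ ^ 14 * X ^ 27 - C σ ^ 12 * X ^ 29 + C σ ^ 10 * X ^ 27 - C σ ^ 8 * X ^ 25 + X ^ 30 * E1)
      (y2 := -X + C σ ^ 2 * X ^ 7 + 2 * C σ ^ 8 * X ^ 27 + X ^ 30 * E2)
      (y3 := -C σ ^ 2 * X ^ 5 + C σ ^ 10 * X ^ 27 - 2 * C σ ^ 8 * X ^ 25 + X ^ 29 * E3)
      (y4 := C σ ^ 6 * X ^ 3 + C σ ^ 8 * X ^ 7 + C σ ^ 10 * X ^ 11 + C σ ^ 12 * X ^ 15 +
        C σ ^ 14 * X ^ 19 - 2 * C σ ^ 10 * X ^ 17 + 2 * C σ ^ 8 * X ^ 15 + X ^ 20 * E4)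
      (y5 := C σ ^ 8 * X ^ 25 + X ^ 27 * E5) (y6 := -C σ ^ 8 + X ^ 3 * E6) (y7 := X ^ 3 * E7)
      (y8 := E8) (by rw [h0]; ring) (by rw [h1]; ring) (by rw [h2]; ring) (by rw [h3]; ring)
      (by rw [h4]; ring) (by rw [h5]; ring) (by rw [h6]; ring) (by rw [h7]; ring)
      (by rw [h8]; ring)
  have h2k : (2 : k) ≠ 0 := by
    have h3 := (map_ne_zero (algebraMap ℚ k)).2 (two_ne_zero (α := ℚ))
    rwa [map_ofNat] at h3
  refine ⟨![a, l, c, p, q, u, d, r, v,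
    Kap 1 (zO σ) ![a, l, c, p, q, u, d, r, v, 0] (shr l fun w => Ψ (τ w))], hσ, ?_, ?_, ?_,
    hg _, ParamA.kap _ _ _ _ _ _ _ _ _ _ _ _ _, ⟨X, rfl⟩, ⟨_, rfl⟩, ⟨_, rfl⟩, ?_, ⟨_, rfl⟩, ?_, ?_, ?_, ?_, ?_, ?_, ?_, ?_, ?_, ?_⟩
  · have := h.sd1.map Ψ
    rwa [map_one, map_one, hz] at this
  · intro u hu
    have := (h.sd2 u hu).map Ψ
    rwa [map_one, map_one] at this
  · intro i
    rw [h.mom, map_mom0, map_one, map_one, hz, hX]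
  · rw [← map_mul, ← map_mul, mul_inv_cancel₀ hσ, map_one, map_one]
  · rw [← map_ofNat (io k) 2, ← map_ofNat (C (R := k)) 2, ← map_mul, ← map_mul,
      mul_inv_cancel₀ h2k, map_one, map_one]
  · simpa using (ParamA.lt_iff 3 _ _).2 ha
  · simpa using (ParamA.vv_iff 25 _).2 hl
  · simpa using (ParamA.lt_iff 27 _ _).2 hc'
  · simpa using (ParamA.lt_iff 0 _ _).2 hp
  · simpa using (ParamA.lt_iff 1 _ _).2 hq
  · simpa using (ParamA.lt_iff 1 _ _).2 hu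
  · simpa [eL] using (ParamA.vv_iff 31 _).2 hd
  · simpa [eL] using (ParamA.vv_iff 11 _).2 hr
  · simpa using (ParamA.lt_iff 0 _ _).2 hv

omit [Algebra ℚ k] in
theorem vv_iff_dvd (n : ℕ) (f : PowerSeries k) :
    VV (io k).range (eL k) n (io k f) ↔ X ^ n ∣ f := ParamA.vv_iff n f

omit [Algebra ℚ k] in
theorem loc_range : ∀ y ∈ (io k).range, IsUnit (1 + (eL k : Lf k) * y) := by
  rintro y ⟨g, rfl⟩
  have h1 : IsUnit (1 + X * g : PowerSeries k) := by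
    rw [isUnit_iff_constantCoeff]
    simp
  have h2 := h1.map (io k)
  rw [map_add, map_one, map_mul] at h2
  exact h2

omit [Algebra ℚ k] in
theorem Setup.small {τ γ : List Bool → PowerSeries k} {ω : List Bool → List Bool → PowerSeries k}
    {θ : Fin 10 → PowerSeries k} (h : Setup σ τ γ ω θ) : Small X (zO σ) θ := by
  have hp := h.par
  have he := hp.he
  have key : ∀ f : PowerSeries k, VV (io k).range (eL k) 1 (io k f) → X ∣ f := fun f hf => by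
    simpa using (ParamA.vv_iff 1 f).1 (by simpa using hf)
  have key0 : ∀ f : PowerSeries k, LT (io k).range (eL k) 0 (-1) (io k f) → X ∣ f + 1 :=
    fun f hf => key _ (by simpa using hf.2)
  refine ⟨?_, key _ ((hp.ha.vv he).mono he (by norm_num)),
    key _ ((hp.hc.vv he).mono he (by norm_num)), key0 _ hp.hp, key _ (hp.hq.vv he),
    key _ (hp.hu.vv he), key _ ((hp.rho.2.1.vv he).mono he (by norm_num)),
    key _ ((hp.rho.2.2.vv he).mono he (by norm_num)), key0 _ hp.hv⟩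
  exact ⟨-(C σ ^ 2), by rw [zO]; ring⟩

end Pool.Agent.P.MP_48bde8_co
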