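import Pool.Agent.P.MP_48bde8_co.Sgn
import Pool.Agent.P.MP_48bde8_co.GoalC3
import Pool.Agent.P.MP_48bde8_co.Count

/-! Task SGVAL: the signed generating function in terms of 4-connected maps. -/

namespace Pool.Agent.P.MP_48bde8_co

open Equiv Finset PowerSeries
open scoped Classical

variable {K : Type} [CommRing K] [Algebra ℚ K] (x z : K)

namespace SgVal

abbrev PP (k : ℕ) : Type := Perm (Fin (k + 1)) × Perm (Fin (k + 1))

abbrev mp {k : ℕ} (s : PP k) : RMap := RMap.mk (k + 1) s.1 s.2 0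

/-- the weight of a map -/
noncomputable def w {k : ℕ} (s : PP k) : K :=
  x ^ Nat.card (mp s).Vertex * z ^ Nat.card (mp s).Face

def Dp {k : ℕ} (s : PP k) : Prop := ∀ d, (s.1 * s.2) d ≠ d ∧ (s.1 * s.2) ((s.1 * s.2) d) = d

theorem m_zero {i j : ℕ} (h : i < 5) : m i j = 0 := by
  unfold m
  rw [Nat.card_eq_zero]
  left
  refine ⟨fun q => ?_⟩
  induction q using Quot.ind with
  | mk M =>
    obtain ⟨M, -, -, -, h4, h5, -⟩ := M
    have := h4.1
    omega

omit [Algebra ℚ K] in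
theorem term {k : ℕ} (s : PP k) (h1 : (mp s).IsMap) (h2 : (mp s).IsPlanar) :
    sgnF ((ambC (k + 1)).atoms (psiOf s.1 s.2)) (0, true) •
        (ambC (k + 1)).wt (psiOf s.1 s.2) x z univ =
      (if (mp s).IsSimple ∧ (mp s).IsFourConnected then w x z s else 0) +
      (if k + 1 = 2 ∧ Nat.card (mp s).Vertex = 1 then w x z s else 0) +
      if Dp s ∧ 8 ≤ k + 1 then (-1) ^ ((k + 1) / 2 + 1) * w x z s else 0 := by
  have hc : (ambC (k + 1)).Closed (psiOf s.1 s.2) :=
    ⟨ambC_ok _, rfl, rfl, (dgm_iff (mp s)).1 ⟨h1, h2⟩⟩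
  have hw : (ambC (k + 1)).wt (psiOf s.1 s.2) x z univ = w x z s := by
    have a := nv_eq (mp s)
    have b := nf_eq (mp s)
    unfold Amb.wt w
    rw [← a, ← b]
  have ha : (∀ S ∈ (ambC (k + 1)).atoms (psiOf s.1 s.2),
      ∀ S' ∈ (ambC (k + 1)).atoms (psiOf s.1 s.2), Ov S S') ↔
      ((mp s).IsSimple ∧ (mp s).IsFourConnected) ∨ (k + 1 = 2 ∧ Nat.card (mp s).Vertex = 1) :=
    all_ov_iff (mp s) h1 h2
  have hd : (ambC (k + 1)).Dipole (psiOf s.1 s.2) ↔ Dp s := dipole_iff (mp s)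
  have hcard : Fintype.card (Fin (k + 1) × Bool) = (k + 1) * 2 := by simp
  have hs := Amb.sgn_value hc (0, true)
  rw [hs, hw, add_smul]
  congr 1
  · by_cases c1 : (mp s).IsSimple ∧ (mp s).IsFourConnected
    · have c2 : ¬(k + 1 = 2 ∧ Nat.card (mp s).Vertex = 1) := fun h => by
        have := c1.2.1
        omega
      rw [if_pos (ha.2 (Or.inl c1)), if_pos c1, if_neg c2, one_smul, add_zero]
    · by_cases c2 : k + 1 = 2 ∧ Nat.card (mp s).Vertex = 1
      · rw [if_pos (ha.2 (Or.inr c2)), if_neg c1, if_pos c2, one_smul, zero_add]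
      · rw [if_neg fun h => (ha.1 h).elim c1 c2, if_neg c1, if_neg c2, zero_smul, add_zero]
  · by_cases c : Dp s ∧ 8 ≤ k + 1
    · rw [if_pos c, if_pos ⟨hd.2 c.1, by rw [hcard]; omega⟩, hcard,
        show (k + 1) * 2 / 4 = (k + 1) / 2 by omega, zsmul_eq_mul]
      push_cast
      rfl
    · rw [if_neg c, if_neg fun h => c ⟨hd.1 h.1, by have := h.2; rw [hcard] at this; omega⟩,
        zero_smul]

omit [Algebra ℚ K] in
theorem sum1 (k : ℕ) :
    ∑ s ∈ univ.filter (fun s : PP k => (mp s).IsMap ∧ (mp s).IsPlanar),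
      (if (mp s).IsSimple ∧ (mp s).IsFourConnected then w x z s else 0) =
    k.factorial • ∑ ij ∈ (range (k + 1 + 5) ×ˢ range (k + 1 + 5)).filter
      (fun ij => 2 * (ij.1 + ij.2) = k + 1 + 4), (m ij.1 ij.2 : K) * x ^ ij.1 * z ^ ij.2 := by
  rw [← sum_filter, filter_filter, smul_sum]
  rw [← sum_fiberwise_of_maps_to (g := fun s : PP k =>
    (Nat.card (mp s).Vertex, Nat.card (mp s).Face))
    (t := (range (k + 1 + 5) ×ˢ range (k + 1 + 5)).filter
      (fun ij => 2 * (ij.1 + ij.2) = k + 1 + 4))]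
  · refine sum_congr rfl fun ij hij => ?_
    obtain ⟨i, j⟩ := ij
    have h := card_four k i j (by have := (mem_filter.1 hij).2; simp only at this; omega)
    rw [filter_filter, sum_congr rfl (g := fun _ => x ^ i * z ^ j), sum_const]
    · have e : (univ.filter fun s : PP k => (((mp s).IsMap ∧ (mp s).IsPlanar) ∧
          (mp s).IsSimple ∧ (mp s).IsFourConnected) ∧
          (Nat.card (mp s).Vertex, Nat.card (mp s).Face) = (i, j)).card =
          k.factorial * m i j := by
        rw [← h]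
        congr 1
        ext s
        simp only [mem_filter, Prod.mk.injEq, and_assoc]
      rw [e]
      simp only [nsmul_eq_mul]
      push_cast
      ring
    · intro s hs
      have := (mem_filter.1 hs).2.2
      simp only [Prod.mk.injEq] at this
      rw [w, this.1, this.2]
  · intro s hs
    have h : 2 * (Nat.card (mp s).Vertex + Nat.card (mp s).Face) = k + 1 + 4 :=
      (mem_filter.1 hs).2.1.2
    simp only [mem_filter, mem_product, mem_range]
    omega

omit [Algebra ℚ K] in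
theorem sum2 (k : ℕ) :
    ∑ s ∈ univ.filter (fun s : PP k => (mp s).IsMap ∧ (mp s).IsPlanar),
      (if k + 1 = 2 ∧ Nat.card (mp s).Vertex = 1 then w x z s else 0) =
    k.factorial • if k + 1 = 2 then x * z ^ 2 else 0 := by
  by_cases hk : k + 1 = 2
  · obtain rfl : k = 1 := by omega
    have h0 := loop_iff (swap 0 1, swap 0 1)
    have h1 := h0.1.2 rfl
    rw [sum_eq_single_of_mem (swap 0 1, swap 0 1)]
    · have e1 : Nat.card (mp (k := 1) (swap 0 1, swap 0 1)).Vertex = 1 := h1.2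
      have e2 : Nat.card (mp (k := 1) (swap 0 1, swap 0 1)).Face = 2 := h0.2
      rw [if_pos ⟨rfl, e1⟩, if_pos rfl, w, e1, e2]
      simp
    · refine mem_filter.2 ⟨mem_univ _, h1.1, ?_⟩
      have e1 : Nat.card (mp (k := 1) (swap 0 1, swap 0 1)).Vertex = 1 := h1.2
      have e2 : Nat.card (mp (k := 1) (swap 0 1, swap 0 1)).Face = 2 := h0.2
      unfold RMap.IsPlanar
      rw [e1, e2]
    · intro s hs hne
      rw [if_neg]
      rintro ⟨-, h⟩
      exact hne ((loop_iff s).1.1 ⟨(mem_filter.1 hs).2.1, h⟩)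
  · rw [if_neg hk, smul_zero]
    exact sum_eq_zero fun s _ => if_neg fun h => hk h.1

omit [Algebra ℚ K] in
theorem sum3 (k : ℕ) :
    ∑ s ∈ univ.filter (fun s : PP k => (mp s).IsMap ∧ (mp s).IsPlanar),
      (if Dp s ∧ 8 ≤ k + 1 then (-1) ^ ((k + 1) / 2 + 1) * w x z s else 0) =
    k.factorial • if (k + 1) % 2 = 0 ∧ 8 ≤ k + 1 then
      (-1) ^ ((k + 1) / 2 + 1) * x ^ 2 * z ^ ((k + 1) / 2) else 0 := by
  have hc : ∀ s : PP k, (mp s).IsMap → Dp s →
      Nat.card (mp s).Vertex = 2 ∧ 2 * Nat.card (mp s).Face = k + 1 :=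
    fun s h1 h2 => dipole_counts (mp s) h1 h2
  by_cases hk : (k + 1) % 2 = 0 ∧ 8 ≤ k + 1
  · rw [if_pos hk, ← sum_filter, filter_filter,
      sum_congr rfl (g := fun _ => (-1) ^ ((k + 1) / 2 + 1) * x ^ 2 * z ^ ((k + 1) / 2)),
      sum_const, ← card_dipole k ((k + 1) / 2) (by omega)]
    · congr 2
      ext s
      simp only [mem_filter, mem_univ, true_and]
      constructor
      · rintro ⟨⟨a, -⟩, b, -⟩
        exact ⟨a, b⟩
      · rintro ⟨a, b⟩
        refine ⟨⟨a, ?_⟩, b, hk.2⟩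
        have := hc s a b
        show 2 * (Nat.card (mp s).Vertex + Nat.card (mp s).Face) = k + 1 + 4
        omega
    · intro s hs
      obtain ⟨-, ⟨a, -⟩, b, -⟩ := mem_filter.1 hs
      have := hc s a b
      rw [w, this.1, show Nat.card (mp s).Face = (k + 1) / 2 by omega, mul_assoc]
  · rw [if_neg hk, smul_zero]
    refine sum_eq_zero fun s hs => if_neg fun h => hk ⟨?_, h.2⟩
    have := hc s (mem_filter.1 hs).2.1 h.1
    omega

end SgVal

open SgVal

theorem coeff_Sg (n : ℕ) : coeff n (Sg x z) = coeff n (Ft x z) + (if n = 2 then x * z ^ 2 else 0) +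
    if n % 2 = 0 ∧ 8 ≤ n then (-1) ^ (n / 2 + 1) * x ^ 2 * z ^ (n / 2) else 0 := by
  rcases n with _ | k
  · rw [Sg, Ft, coeff_mk, coeff_mk, if_neg (by omega), if_neg (by omega), add_zero, add_zero]
    symm
    refine sum_eq_zero fun ij hij => ?_
    have := (mem_filter.1 hij).2
    rw [m_zero (by omega)]
    simp
  · rw [Sg, Ft, coeff_mk, coeff_mk]
    simp only
    rw [sum_dgm (0 : Fin (k + 1)),
      sum_congr rfl fun s hs => term x z s (mem_filter.1 hs).2.1 (mem_filter.1 hs).2.2,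
      sum_add_distrib, sum_add_distrib, sum1, sum2, sum3, ← smul_add, ← smul_add,
      ← Nat.cast_smul_eq_nsmul ℚ, smul_smul,
      inv_mul_cancel₀ (Nat.cast_ne_zero.2 k.factorial_ne_zero), one_smul]

theorem Sg_val : (1 + X ^ 2 * C z) * Ft x z =
    (1 + X ^ 2 * C z) * (Sg x z - X ^ 2 * C x * C z ^ 2) + X ^ 8 * C x ^ 2 * C z ^ 4 := by
  set D : PowerSeries K := PowerSeries.mk fun n =>
    if n % 2 = 0 ∧ 8 ≤ n then (-1) ^ (n / 2 + 1) * x ^ 2 * z ^ (n / 2) else 0 with hD
  have h1 : Sg x z = Ft x z + X ^ 2 * C (x * z ^ 2) + D := by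
    ext n
    rw [coeff_Sg, map_add, map_add, hD, coeff_mk, coeff_mul_C, coeff_X_pow]
    congr 2
    split_ifs <;> simp
  have h2 : D + X ^ 2 * D * C z + X ^ 8 * C (x ^ 2 * z ^ 4) = 0 := by
    ext n
    rw [map_add, map_add, coeff_mul_C, coeff_mul_C, coeff_X_pow, coeff_X_pow_mul', hD, coeff_mk,
      coeff_mk, map_zero]
    by_cases a : n % 2 = 0 ∧ 10 ≤ n
    · obtain ⟨j, rfl⟩ : ∃ j, n = 2 * j + 2 := ⟨n / 2 - 1, by omega⟩
      rw [if_pos (by omega), if_pos (by omega), if_pos (by omega), if_neg (by omega),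
        show (2 * j + 2) / 2 = j + 1 by omega, show (2 * j + 2 - 2) / 2 = j by omega]
      ring
    · by_cases b : n = 8
      · subst b
        norm_num
      · rw [if_neg (by omega), if_neg b]
        split_ifs with c d
        · omega
        · simp
        · simp
  rw [h1]
  simp only [map_mul, map_pow] at h2 ⊢
  linear_combination -h2

end Pool.Agent.P.MP_48bde8_co
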