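import Pool.Agent.P.MP_48bde8_co.Grp
import Pool.Agent.P.MP_48bde8_co.Flat

/-! Task TAUZ: short boundary words. -/

namespace Pool.Agent.P.MP_48bde8_co

open Equiv Finset PowerSeries
open scoped Classical

variable {P : Type} [Fintype P]

namespace TauZA

theorem co_two (A : Amb P) (ψ : Perm P) (R : Rg P) : A.co ψ 2 R =
    if A.Disc ψ R ∧ bd R ≤ 3 then (if A.Feat ψ R then 0 else 1) else 0 := rfl

omit [Fintype P] in
theorem rl_pow {A : Amb P} {ψ : Perm P} {R : Rg P} (hR : A.Pre ψ R) {p : P} (hp : p ∈ R.1)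
    (k : ℕ) : (A.π ^ k) p ∈ R.1 ∧ A.RL ψ R p ((A.π ^ k) p) := by
  induction k with
  | zero => exact ⟨hp, .refl _⟩
  | succ k ih =>
    rw [pow_succ', Perm.mul_apply]
    exact ⟨hR.1 _ ih.1, .trans _ _ _ ih.2 (.rel _ _ (.inl ⟨ih.1, rfl⟩))⟩

end TauZA

open TauZA

/-- With one outer object of length at most three, a diagram with a dart is good if and only if
its darts form a featureless disc. -/
theorem Amb.good_short {A : Amb P} {l : List P} (h : A.LA l []) (hU : A.U = univ) (hl : l ≠ [])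
    (h3 : l.length ≤ 3) (hd : A.dt.Nonempty) {ψ : Perm P} (hψ : A.Dgm ψ) :
    (if A.Good ψ then 1 else 0 : ℤ) = ∑ I ∈ A.dt.powerset,
      if Dom (A.atoms ψ) (A.dt, I) ∧ (∀ p ∈ A.dt \ I, ψ p ∉ A.dt) then A.co ψ 2 (A.dt, I) else 0 :=
  by
  obtain ⟨hA, hc, -, -, hm⟩ := h
  have hL : ∀ p, p ∈ l.toFinset ↔ p ∉ A.dt := fun p => by
    have := hm p
    simp only [hU, mem_univ, true_and, List.not_mem_nil, or_false] at this
    rw [List.mem_toFinset, this]
  let R : Rg P := (l.toFinset, l.toFinset.filter fun p => ψ p ∈ l.toFinset)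
  have hR : A.Pre ψ R := ⟨fun p hp => List.mem_toFinset.2 (hc.mem (List.mem_toFinset.1 hp)),
    filter_subset _ _, fun p hp => (mem_filter.1 hp).2⟩
  have hRc : A.RConn ψ R := by
    refine ⟨(List.toFinset_nonempty_iff l).2 hl, fun p hp q hq => ?_⟩
    have h1 : q ∈ orb A.π p := by rw [hc.orb_eq (List.mem_toFinset.1 hp)]; exact hq
    obtain ⟨k, -, rfl⟩ := (mem_orb.1 h1).exists_pow_eq'
    exact (rl_pow hR hp k).2
  have hC : cpl ψ R = (A.dt, A.dt.filter fun p => ψ p ∈ A.dt) := by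
    refine Prod.ext ?_ ?_ <;> ext p <;> simp only [cpl, R, mem_filter, mem_compl, hL, not_not]
  have hb : bd (cpl ψ R) ≤ 3 := by
    have h1 := Amb.bd_cpl hR
    have h2 : bd R ≤ l.toFinset.card := card_le_card sdiff_subset
    have h4 := List.toFinset_card_le l
    omega
  rw [sum_eq_single (A.dt.filter fun p => ψ p ∈ A.dt), ← hC]
  · by_cases hg : A.Good ψ
    · have hreg : A.Reg ψ (cpl ψ R) := Amb.cpl_reg hψ.1 hU hR (by
        intro p hp; simpa only [R, mem_compl, hL, not_not] using hp)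
      have hK : ∀ p ∈ (cpl ψ R).1, A.Disc ψ (A.comp ψ (cpl ψ R) p) ∧
          ¬A.Feat ψ (A.comp ψ (cpl ψ R) p) := by
        intro p hp
        obtain ⟨h1, h2, -⟩ := Amb.comp_cpl hU hψ.2.1 hψ.2.2 hR hRc (mem_compl.1 hp)
        have h4 : A.Disc ψ (A.comp ψ (cpl ψ R) p) :=
          ⟨hreg.comp p, Amb.comp_conn hreg.1 hp, h1, h2⟩
        exact ⟨h4, fun hf => hg _ ⟨h4, (Amb.bd_comp_le hreg.1 p).trans hb, hf⟩⟩
      have hne : (cpl ψ R).1.Nonempty := by rw [hC]; exact hd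
      have hcc : A.RConn ψ (cpl ψ R) := by
        refine ⟨hne, fun p hp q hq => by_contra fun h0 => ?_⟩
        have h1 := Amb.bd_comp_add_le hreg.1 h0
        have h2 := Amb.flat_two_le hA hψ.1.1 (hK p hp).1 (hK p hp).2
        have h4 := Amb.flat_two_le hA hψ.1.1 (hK q hq).1 (hK q hq).2
        omega
      obtain ⟨p, hp⟩ := hne
      have h5 := hK p hp
      rw [Amb.comp_eq_self hreg.1 hcc hp] at h5
      rw [if_pos hg, if_pos, co_two, if_pos ⟨h5.1, hb⟩, if_neg h5.2]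
      refine ⟨fun S hS => ?_, fun p hp h0 => ?_⟩
      · rw [Amb.good_iff.1 hg] at hS
        exact absurd hS (notMem_empty S)
      · exact (mem_sdiff.1 hp).2 (mem_filter.2 ⟨(mem_sdiff.1 hp).1, h0⟩)
    · rw [if_neg hg]
      simp only [Amb.Good, not_forall, not_not] at hg
      obtain ⟨S, hS⟩ := hg
      have h1 : S ≤ cpl ψ R := Amb.le_cpl hS.1.1.1
        (disjoint_left.2 fun p hp hq => (hL p).1 hq (hS.1.1.2.1 hp))
      rw [co_two, if_pos (hS.2.2.mono h1)]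
      simp
  · intro I hI hne
    split_ifs with h1
    · rw [co_two, if_neg]
      intro h2
      refine hne (Subset.antisymm (fun p hp => mem_filter.2
        ⟨mem_powerset.1 hI hp, h2.1.1.1.2.2 p hp⟩) fun p hp => by_contra fun h0 => ?_)
      exact h1.2 p (mem_sdiff.2 ⟨(mem_filter.1 hp).1, h0⟩) (mem_filter.1 hp).2
    · rfl
  · exact fun h0 => absurd (mem_powerset.2 (filter_subset _ _)) h0

variable {K : Type} [CommRing K] [Algebra ℚ K] (x z : K)

namespace TauZA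

omit [Algebra ℚ K] in
theorem inner {A : Amb P} {l : List P} (h : A.LA l []) {ρ : Perm P} {I : Finset P}
    (hc : (ρ, I) ∈ A.CF A.dt) (hD : A.Disc ρ (A.dt, I)) {e : P} (he : e ∈ A.dt \ I)
    (F : Finset (Perm P)) (hF : ∀ g, g ∈ F ↔
      g ∈ (A.red ρ A.dt I).TS ∧ ∀ p ∈ A.dt \ I, (ρ * g) p ∉ A.dt) :
    ∑ g ∈ F, (A.red ρ A.dt I).wt g x z (A.red ρ A.dt I).U =
      Nb x z (l.map A.ty) ((A.blist ρ (A.dt, I) e).map A.ty) := by
  obtain ⟨hA, c1, -, -, hm⟩ := h
  obtain ⟨p1, -, -, p2, p3⟩ := Amb.con_ports hA hc hD he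
  obtain ⟨q1, q2⟩ := Amb.con_cyc hA hc hD
  have hn : ∀ p ∈ l, p ∉ A.dt := fun p hp => ((hm p).2 (.inl hp)).2
  have hla : (A.red ρ A.dt I).LA l (A.blist ρ (A.dt, I) e) :=
    ⟨p1, q1 l c1 hn, q2 e he, fun p h1 h2 => hn p h1 (p2 p h2), fun p => by
      rw [p3, hm]; simp⟩
  have hb : ∀ p, p ∈ A.blist ρ (A.dt, I) e ↔ p ∈ A.dt \ I := fun p => by
    rw [← List.mem_toFinset, (Amb.blist_spec hD.1.1 hD.2.1 hD.2.2.1 he).2.1]
  have hρ : ∀ p, ρ p ∈ A.dt ↔ p ∈ A.dt := by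
    have h1 : ∀ p, p ∉ A.dt → ρ p = p := (mem_filter.1 hc).2.2.1
    refine fun p => ⟨fun h2 => by_contra fun h3 => h3 (h1 p h3 ▸ h2), fun h2 => by_contra fun h3 => ?_⟩
    exact h3 (by rwa [ρ.injective (h1 _ h3)])
  refine Eq.trans (sum_congr ?_ fun _ _ => rfl) (Nb_eq x z hla (sdiff_self))
  ext g
  rw [hF, mem_filter]
  refine and_congr_right fun hg => ?_
  have hg1 : ∀ p ∈ I, g p = p := fun p hp =>
    (mem_filter.1 hg).2.1.1.2.1 p fun h0 => (mem_sdiff.1 h0).2 hp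
  simp only [hb, Perm.mul_apply, hρ]
  refine forall₂_congr fun p hp => not_congr ⟨fun h1 => mem_sdiff.2 ⟨h1, fun h2 => ?_⟩,
    fun h1 => (mem_sdiff.1 h1).1⟩
  exact (mem_sdiff.1 hp).2 (by rwa [g.injective (hg1 _ h2)] at h2)

omit [Fintype P] in
theorem avg {X : Finset P} (hX : 1 ≤ X.card) {N : K} {F : P → K}
    (h : ∀ e ∈ X, F e = (X.card : ℚ)⁻¹ • N) : N = ∑ e ∈ X, F e := by
  rw [sum_congr rfl h, sum_const, ← Nat.cast_smul_eq_nsmul ℚ, smul_smul,
    mul_inv_cancel₀ (Nat.cast_ne_zero.2 (by omega)), one_smul]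

theorem T_short {A : Amb P} {l : List P} (h : A.LA l []) (hU : A.U = univ) (hl : l ≠ [])
    (h3 : l.length ≤ 3) (hd : A.dt.Nonempty) : A.T x z =
      (words.map fun u => A.G x z 2 A.dt u *
        ((u.length : ℚ)⁻¹ • Nb x z (l.map A.ty) u)).sum := by
  rw [← Amb.G_group x z 2 A.dt fun u => (u.length : ℚ)⁻¹ • Nb x z (l.map A.ty) u]
  have h1 := Amb.con_sum x z h.1 2 A.dt fun I ψ => ∀ p ∈ A.dt \ I, ψ p ∉ A.dt
  refine Eq.trans ?_ (h1.trans (sum_congr rfl fun s hs => ?_))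
  · rw [Amb.T, Amb.TS, ← filter_filter, sum_filter]
    refine sum_congr rfl fun ψ hψ => ?_
    have h2 := congrArg (· • A.wt ψ x z A.U) (Amb.good_short h hU hl h3 hd (mem_filter.1 hψ).2)
    simp only [ite_smul, one_smul, zero_smul, sum_smul] at h2
    refine h2.trans (sum_congr rfl fun I _ => ?_)
    by_cases h4 : Dom (A.atoms ψ) (A.dt, I) ∧ ∀ p ∈ A.dt \ I, ψ p ∉ A.dt
    · rw [if_pos h4, if_pos h4]
    · rw [if_neg h4, if_neg h4]
  · by_cases h0 : A.co s.1 2 (A.dt, s.2) = 0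
    · rw [h0, zero_smul, zero_smul]
    have hD : A.Disc s.1 (A.dt, s.2) := by
      by_contra h2
      exact h0 (if_neg fun h => h2 h.1)
    congr 2
    refine avg (X := A.dt \ s.2) hD.2.2.2 fun e he => ?_
    rw [List.length_map, (Amb.blist_spec hD.1.1 hD.2.1 hD.2.2.1 he).2.2.1]
    congr 1
    symm
    refine inner x z h hs hD he _ fun g => ?_
    simp only [mem_filter]

end TauZA

theorem tau_short {w : List Bool} (hw : w ∈ words) {n : ℕ} (hn : 1 ≤ n) :
    coeff n (tau x z w) =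
      (words.map fun u => coeff n (gen x z 2 u) * ((u.length : ℚ)⁻¹ • Nb x z w u)).sum := by
  obtain ⟨l₁, l₂, h, h1, h2, h3, h4⟩ := ambS_LA w [] n
  obtain rfl : l₂ = [] := List.map_eq_nil_iff.1 h2
  obtain ⟨w1, w3⟩ := mem_words.1 hw
  have hlen : l₁.length = w.length := by
    have := congrArg List.length h1
    rwa [List.length_map] at this
  have hne : l₁ ≠ [] := by rintro rfl; simp at hlen; omega
  have e1 := T_eq x z h hne h3
  have e2 := T_short x z h h4 hne (by omega) (card_pos.1 (by omega))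
  rw [h1] at e1 e2
  refine TEmbA.fact_cancel n (e1.symm.trans (e2.trans ?_))
  rw [← List.sum_map_mul_left]
  congr 1
  refine List.map_congr_left fun u _ => ?_
  rw [G_eq x z h.1 (subset_refl _) (fun p hp => (h.1.2.2 p hp).1) h3, mul_assoc]

end Pool.Agent.P.MP_48bde8_co
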