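import Pool.Agent.P.MP_48bde8_co.SDeq
import Pool.Agent.P.MP_48bde8_co.Kap
import Pool.Agent.P.MP_48bde8_co.NbVal
import Pool.Agent.P.MP_48bde8_co.TauZ
import Pool.Agent.P.MP_48bde8_co.Extr
import Pool.Agent.P.MP_48bde8_co.SgVal

/-! Task PARTI: assembly of the combinatorial part. -/

namespace Pool.Agent.P.MP_48bde8_co

open Equiv Finset PowerSeries
open scoped Classical

variable {K : Type} [CommRing K] [Algebra ℚ K] (x z : K)

namespace PartIAux

/-- The constant coefficient of the one-boundary series. -/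
noncomputable def c0 (w : List Bool) : K := constantCoeff (tau x z w)

theorem gam_const (u : List Bool) : constantCoeff (gam x z u) = 0 := by
  rw [gam, map_add, gen_const, gen_const, add_zero]

theorem c0_nil : c0 x z [] = z := by
  rw [c0, (sd1_tau x z).nil, constantCoeff_C]

theorem c0_A (W : List Bool) :
    c0 x z (true :: W) = ((splits true W).map fun s => c0 x z s.1 * c0 x z s.2).sum := by
  rw [c0, (sd1_tau x z).sdA, map_add, map_list_sum, map_list_sum, List.map_map, List.map_map]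
  simp [tails, gam_const, c0, Function.comp_def]

theorem c0_B (W : List Bool) : c0 x z (false :: W) = x * c0 x z W +
    ((splits false W).map fun s => c0 x z (false :: s.1) * c0 x z s.2).sum := by
  rw [c0, (sd1_tau x z).sdB, map_add, map_add, map_list_sum, map_list_sum, List.map_map,
    List.map_map]
  simp [tails, gam_const, c0, Function.comp_def]

theorem c0_a : c0 x z [true] = 0 := by rw [c0_A]; simp [splits]

theorem c0_b : c0 x z [false] = x * z := by rw [c0_B]; simp [splits, c0_nil]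

theorem c0_aa : c0 x z [true, true] = z ^ 2 := by rw [c0_A]; simp [splits, c0_nil, sq]

theorem c0_ab : c0 x z [true, false] = 0 := by rw [c0_A]; simp [splits]

theorem c0_bb : c0 x z [false, false] = x ^ 2 * z + x * z ^ 2 := by
  rw [c0_B]; simp [splits, c0_nil, c0_b]; ring

theorem c0_aaa : c0 x z [true, true, true] = 0 := by rw [c0_A]; simp [splits, c0_a]

theorem c0_aab : c0 x z [true, true, false] = x * z ^ 2 := by
  rw [c0_A]; simp [splits, c0_nil, c0_b]; ring

theorem c0_abb : c0 x z [true, false, false] = 0 := by rw [c0_A]; simp [splits]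

theorem c0_bbb : c0 x z [false, false, false] = x ^ 3 * z + 3 * x ^ 2 * z ^ 2 + x * z ^ 3 := by
  rw [c0_B]; simp [splits, c0_nil, c0_b, c0_bb]; ring

theorem tau_eq {w : List Bool} (hw : w ∈ words) : tau x z w = C (c0 x z w) +
    (words.map fun u => gen x z 2 u * C ((u.length : ℚ)⁻¹ • Nb x z w u)).sum := by
  ext n
  rcases Nat.eq_zero_or_pos n with rfl | hn
  · rw [coeff_zero_eq_constantCoeff, map_add, map_list_sum, List.map_map]
    simp [c0, gen_const, Function.comp_def]
  · rw [tau_short x z hw hn, map_add, coeff_C, if_neg hn.ne', zero_add, map_list_sum,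
      List.map_map]
    simp only [Function.comp_def, coeff_mul_C]

theorem rot_BA {Λ : Type} (f : List Bool → Λ) (h : ∀ c w, f (w ++ [c]) = f (c :: w)) :
    f [false, true] = f [true, false] ∧ f [true, false, true] = f [true, true, false] ∧
      f [false, true, true] = f [true, true, false] ∧
      f [false, false, true] = f [true, false, false] ∧
      f [false, true, false] = f [true, false, false] :=
  ⟨h true [false], h true [true, false], (h true [false, true]).trans (h true [true, false]),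
    h true [false, false], (h false [false, true]).trans (h true [false, false])⟩

theorem half (y : K) : 2 * C ((2 : ℚ)⁻¹ • y) = C y := by
  have : (2 : K) * ((2 : ℚ)⁻¹ • y) = y := by
    rw [two_mul, ← add_smul]; norm_num
  conv_rhs => rw [← this]
  rw [map_mul, map_ofNat]

theorem third (y : K) : 3 * C ((3 : ℚ)⁻¹ • y) = C y := by
  have : (3 : K) * ((3 : ℚ)⁻¹ • y) = y := by
    rw [show (3 : K) * ((3 : ℚ)⁻¹ • y) = (3 : ℚ)⁻¹ • y + (3 : ℚ)⁻¹ • y + (3 : ℚ)⁻¹ • y by ring,
      ← add_smul, ← add_smul]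
    norm_num
  conv_rhs => rw [← this]
  rw [map_mul, map_ofNat]

theorem w9_mem (i : Fin 9) : w9 i ∈ words := by
  fin_cases i <;> simp [w9, words, tails]

theorem tau_tab (i : Fin 9) : tau x z (w9 i) = C (c0 x z (w9 i)) +
    X * C (nbTab x z ((w9 i).count true) ((w9 i).count false) 1 1) +
    X ^ 2 * C (nbTab x z ((w9 i).count true) ((w9 i).count false) 2 1) +
    X ^ 2 * C ((2 : ℚ)⁻¹ • nbTab x z ((w9 i).count true) ((w9 i).count false) 0 2) +
    2 * X ^ 3 * C (nbTab x z ((w9 i).count true) ((w9 i).count false) 1 2) +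
    (3 * X ^ 4 + X ^ 6 * C z) *
      C ((3 : ℚ)⁻¹ • nbTab x z ((w9 i).count true) ((w9 i).count false) 0 3) := by
  obtain ⟨r1, r2, r3, r4, r5⟩ := rot_BA (gen x z 2) (gen_rot x z 2)
  have nb : ∀ u ∈ words, 2 ≤ u.length → false ∈ u → Nb x z (w9 i) u =
      nbTab x z ((w9 i).count true) ((w9 i).count false) (u.count true) (u.count false) :=
    fun u hu h2 hB => Nb_val x z i hu h2 hB
  have n1 := nb [true, false] (by decide) (by decide) (by decide)
  have n2 := nb [false, true] (by decide) (by decide) (by decide)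
  have n3 := nb [true, true, false] (by decide) (by decide) (by decide)
  have n4 := nb [true, false, true] (by decide) (by decide) (by decide)
  have n5 := nb [false, true, true] (by decide) (by decide) (by decide)
  have n6 := nb [false, false] (by decide) (by decide) (by decide)
  have n7 := nb [true, false, false] (by decide) (by decide) (by decide)
  have n8 := nb [false, true, false] (by decide) (by decide) (by decide)
  have n9 := nb [false, false, true] (by decide) (by decide) (by decide)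
  have n10 := nb [false, false, false] (by decide) (by decide) (by decide)
  rw [tau_eq x z (w9_mem i)]
  generalize (w9 i).count true = a at *
  generalize (w9 i).count false = b at *
  simp only [words, tails, List.map_cons, List.map_nil, List.cons_append, List.nil_append,
    List.sum_cons, List.sum_nil, r1, r2, r3, r4, r5, kap_A, kap_B, kap_AA, kap_AAA, kap_AB,
    kap_BB, kap_AAB, kap_ABB, kap_BBB, n1, n2, n3, n4, n5, n6, n7, n8, n9, n10, zero_mul,
    List.length_cons, List.length_nil]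
  have e2 : ((0 + 1 + 1 : ℕ) : ℚ) = 2 := by norm_num
  have e3 : ((0 + 1 + 1 + 1 : ℕ) : ℚ) = 3 := by norm_num
  simp only [e2, e3]
  change _ + (0 + (0 + (X * C ((2 : ℚ)⁻¹ • nbTab x z a b 1 1) + (0 +
    (X ^ 2 * C ((3 : ℚ)⁻¹ • nbTab x z a b 2 1) + (X ^ 2 * C ((3 : ℚ)⁻¹ • nbTab x z a b 2 1) +
    (2 * X ^ 3 * C ((3 : ℚ)⁻¹ • nbTab x z a b 1 2) + (0 +
    (X * C ((2 : ℚ)⁻¹ • nbTab x z a b 1 1) + (X ^ 2 * C ((2 : ℚ)⁻¹ • nbTab x z a b 0 2) +
    (X ^ 2 * C ((3 : ℚ)⁻¹ • nbTab x z a b 2 1) + (2 * X ^ 3 * C ((3 : ℚ)⁻¹ • nbTab x z a b 1 2) +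
    (2 * X ^ 3 * C ((3 : ℚ)⁻¹ • nbTab x z a b 1 2) + ((3 * X ^ 4 + X ^ 6 * C z) *
      C ((3 : ℚ)⁻¹ • nbTab x z a b 0 3) + 0)))))))))))))) = _
  linear_combination X * half (nbTab x z a b 1 1) + X ^ 2 * third (nbTab x z a b 2 1) +
    2 * X ^ 3 * third (nbTab x z a b 1 2)

theorem half' (y : K) : (2 : ℚ)⁻¹ • (2 * y) = y := by
  rw [two_mul, smul_add, ← add_smul]; norm_num

theorem third' (y : K) : (3 : ℚ)⁻¹ • (3 * y) = y := by
  rw [show 3 * y = y + y + y by ring, smul_add, smul_add, ← add_smul, ← add_smul]; norm_num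

end PartIAux

open PartIAux

theorem tau_mom (i : Fin 9) : tau x z (w9 i) = mom0 (C x) (C z) X i := by
  rw [tau_tab]
  have h1 : (2 : ℚ)⁻¹ • (2 * x ^ 2 * z ^ 2) = x ^ 2 * z ^ 2 := by
    rw [mul_assoc, half']
  have h2 : (2 : ℚ)⁻¹ • (6 * x ^ 3 * z ^ 2 + 6 * x ^ 2 * z ^ 3) =
      3 * x ^ 3 * z ^ 2 + 3 * x ^ 2 * z ^ 3 := by
    rw [← half' (3 * x ^ 3 * z ^ 2 + 3 * x ^ 2 * z ^ 3)]
    congr 1
    ring
  have h3 : (3 : ℚ)⁻¹ • (3 * x ^ 3 * z ^ 3) = x ^ 3 * z ^ 3 := by
    rw [mul_assoc, third']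
  fin_cases i <;>
    simp [w9, mom0, nbTab, c0_a, c0_b, c0_aa, c0_ab, c0_bb, c0_aaa, c0_aab, c0_abb, c0_bbb, h1, h2,
      h3, map_ofNat] <;> ring

namespace PartIAux

omit [Algebra ℚ K] in
theorem eul (a : K) (k : ℕ) :
    X * derivative K (C a * X ^ k : PowerSeries K) = (k : PowerSeries K) * (C a * X ^ k) := by
  ext n
  rw [show (k : PowerSeries K) = C (k : K) by simp, coeff_C_mul, coeff_C_mul]
  rcases n with _ | n
  · rcases k with _ | k <;> simp
  · rw [coeff_succ_X_mul, coeff_derivative, coeff_C_mul, coeff_X_pow]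
    split_ifs with h
    · rw [← h]; push_cast; ring
    · simp

theorem eu_a : X * derivative K (tau x z [true]) = 0 := by
  have h : tau x z [true] = 0 := tau_mom x z 0
  rw [h, map_zero, mul_zero]

theorem eu_b : X * derivative K (tau x z [false]) = 0 := by
  have h : tau x z [false] = C x * C z := tau_mom x z 1
  rw [h, ← map_mul, derivative_C, mul_zero]

theorem eu_aa : X * derivative K (tau x z [true, true]) = 0 := by
  have h : tau x z [true, true] = C z ^ 2 := tau_mom x z 2
  rw [h, ← map_pow, derivative_C, mul_zero]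

theorem eu_aaa : X * derivative K (tau x z [true, true, true]) = 0 := by
  have h : tau x z [true, true, true] = 0 := tau_mom x z 5
  rw [h, map_zero, mul_zero]

theorem tau_ab : tau x z [true, false] = X * C x * C z ^ 2 := tau_mom x z 3

theorem eu_ab : X * derivative K (tau x z [true, false]) = X * C x * C z ^ 2 := by
  have h : tau x z [true, false] = C (x * z ^ 2) * X ^ 1 := by
    rw [tau_ab]; simp only [map_mul, map_pow]; ring
  rw [h, eul]; simp only [map_mul, map_pow]; push_cast; ring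

theorem eu_bb : X * derivative K (tau x z [false, false]) = 2 * (X ^ 2 * C x ^ 2 * C z ^ 2) := by
  have h0 : tau x z [false, false] =
    C x ^ 2 * C z + C x * C z ^ 2 + X ^ 2 * C x ^ 2 * C z ^ 2 := tau_mom x z 4
  have h : tau x z [false, false] =
      C (x ^ 2 * z + x * z ^ 2) * X ^ 0 + C (x ^ 2 * z ^ 2) * X ^ 2 := by
    rw [h0]; simp only [map_mul, map_pow, map_add]; ring
  rw [h, map_add, mul_add, eul, eul]; simp only [map_mul, map_pow, map_add]; push_cast; ring

theorem eu_aab : X * derivative K (tau x z [true, true, false]) = 2 * X ^ 2 * C x * C z ^ 3 := by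
  have h0 : tau x z [true, true, false] =
    C x * C z ^ 2 + X ^ 2 * C x * C z ^ 3 := tau_mom x z 6
  have h : tau x z [true, true, false] = C (x * z ^ 2) * X ^ 0 + C (x * z ^ 3) * X ^ 2 := by
    rw [h0]; simp only [map_mul, map_pow]; ring
  rw [h, map_add, mul_add, eul, eul]; simp only [map_mul, map_pow]; push_cast; ring

theorem eu_abb : X * derivative K (tau x z [true, false, false]) =
    X * (2 * C x ^ 2 * C z ^ 2 + C x * C z ^ 3) + 6 * X ^ 3 * C x ^ 2 * C z ^ 3 := by
  have h0 : tau x z [true, false, false] =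
    X * (2 * C x ^ 2 * C z ^ 2 + C x * C z ^ 3) + 2 * X ^ 3 * C x ^ 2 * C z ^ 3 := tau_mom x z 7
  have h : tau x z [true, false, false] =
      C (2 * x ^ 2 * z ^ 2 + x * z ^ 3) * X ^ 1 + C (2 * x ^ 2 * z ^ 3) * X ^ 3 := by
    rw [h0]; simp only [map_mul, map_pow, map_add, map_ofNat]; ring
  rw [h, map_add, mul_add, eul, eul]
  simp only [map_mul, map_pow, map_add, map_ofNat]; push_cast; ring

theorem eu_bbb : X * derivative K (tau x z [false, false, false]) =
    3 * (2 * X ^ 2 * (C x ^ 3 * C z ^ 2 + C x ^ 2 * C z ^ 3) +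
      4 * X ^ 4 * C x ^ 3 * C z ^ 3 + 2 * X ^ 6 * C x ^ 3 * C z ^ 4) := by
  have h0 : tau x z [false, false, false] =
    C x ^ 3 * C z + 3 * C x ^ 2 * C z ^ 2 + C x * C z ^ 3 +
      3 * X ^ 2 * (C x ^ 3 * C z ^ 2 + C x ^ 2 * C z ^ 3) +
      3 * X ^ 4 * C x ^ 3 * C z ^ 3 + X ^ 6 * C x ^ 3 * C z ^ 4 := tau_mom x z 8
  have h : tau x z [false, false, false] =
      C (x ^ 3 * z + 3 * x ^ 2 * z ^ 2 + x * z ^ 3) * X ^ 0 +
        C (3 * (x ^ 3 * z ^ 2 + x ^ 2 * z ^ 3)) * X ^ 2 + C (3 * x ^ 3 * z ^ 3) * X ^ 4 +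
        C (x ^ 3 * z ^ 4) * X ^ 6 := by
    rw [h0]; simp only [map_mul, map_pow, map_add, map_ofNat]; ring
  rw [h, map_add, map_add, map_add, mul_add, mul_add, mul_add, eul, eul, eul, eul]
  simp only [map_mul, map_pow, map_add, map_ofNat]; push_cast; ring

theorem shalf (y : PowerSeries K) : 2 * ((2 : ℚ)⁻¹ • y) = y := by
  rw [two_mul, ← add_smul]; norm_num

theorem sthird (y : PowerSeries K) : 3 * ((3 : ℚ)⁻¹ • y) = y := by
  rw [show 3 * ((3 : ℚ)⁻¹ • y) = (3 : ℚ)⁻¹ • y + (3 : ℚ)⁻¹ • y + (3 : ℚ)⁻¹ • y by ring,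
    ← add_smul, ← add_smul]
  norm_num

theorem out_eq : (1 + X ^ 2 * C z) * Ft x z = outG (C x) (C z) X (gam x z) := by
  obtain ⟨r1, r2, r3, r4, r5⟩ := rot_BA (gen x z 0) (gen_rot x z 0)
  obtain ⟨t1, t2, t3, t4, t5⟩ := rot_BA (tau x z) (sd1_tau x z).rotT
  have e2 : ((0 + 1 + 1 : ℕ) : ℚ) = 2 := by norm_num
  have e3 : ((0 + 1 + 1 + 1 : ℕ) : ℚ) = 3 := by norm_num
  have g1 : gam x z [true, false] = gen x z 0 [true, false] + X := by
    rw [gam, gen_one]; simp
  have g2 : gam x z [false, false] = gen x z 0 [false, false] := by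
    rw [gam, gen_one]; simp
  have g3 : gam x z [true, true, false] = gen x z 0 [true, true, false] := by
    rw [gam, gen_one]; simp
  have g4 : gam x z [true, false, false] = gen x z 0 [true, false, false] := by
    rw [gam, gen_one]; simp
  have g5 : gam x z [false, false, false] = gen x z 0 [false, false, false] := by
    rw [gam, gen_one]; simp
  rw [Sg_val, Sg_eq, outG, g1, g2, g3, g4, g5]
  simp only [words, tails, List.map_cons, List.map_nil, List.cons_append, List.nil_append,
    List.sum_cons, List.sum_nil, r1, r2, r3, r4, r5, t1, t2, t3, t4, t5, eu_a, eu_b, eu_aa, eu_aaa,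
    eu_ab, eu_bb, eu_aab, eu_abb, eu_bbb, mul_zero, smul_zero, List.length_cons, List.length_nil,
    e2, e3]
  rw [tau_ab]
  have s1 := shalf (gen x z 0 [true, false] * (X * C x * C z ^ 2))
  have s2 := shalf (gen x z 0 [false, false] * (2 * (X ^ 2 * C x ^ 2 * C z ^ 2)))
  have s3 := sthird (gen x z 0 [true, true, false] * (2 * X ^ 2 * C x * C z ^ 3))
  have s4 := sthird (gen x z 0 [true, false, false] *
    (X * (2 * C x ^ 2 * C z ^ 2 + C x * C z ^ 3) + 6 * X ^ 3 * C x ^ 2 * C z ^ 3))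
  have s2' : (2 : ℚ)⁻¹ • (gen x z 0 [false, false] * (2 * (X ^ 2 * C x ^ 2 * C z ^ 2))) =
      gen x z 0 [false, false] * (X ^ 2 * C x ^ 2 * C z ^ 2) := by
    rw [mul_left_comm, half']
  have s5 : (3 : ℚ)⁻¹ • (gen x z 0 [false, false, false] *
      (3 * (2 * X ^ 2 * (C x ^ 3 * C z ^ 2 + C x ^ 2 * C z ^ 3) +
      4 * X ^ 4 * C x ^ 3 * C z ^ 3 + 2 * X ^ 6 * C x ^ 3 * C z ^ 4))) =
      gen x z 0 [false, false, false] * (2 * X ^ 2 * (C x ^ 3 * C z ^ 2 + C x ^ 2 * C z ^ 3) +
      4 * X ^ 4 * C x ^ 3 * C z ^ 3 + 2 * X ^ 6 * C x ^ 3 * C z ^ 4) := by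
    rw [mul_left_comm, third']
  rw [s2', s5]
  linear_combination (-(1 + X ^ 2 * C z)) * (s1 + s3 + s4)

end PartIAux

theorem partI : PartI x z (tau x z) (gam x z) (fun u w => tau2 x z w u) :=
  ⟨sd1_tau x z, fun _ hu => sd2_tau x z hu, gam_const x z, tau_mom x z, out_eq x z⟩

end Pool.Agent.P.MP_48bde8_co
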