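import Pool.Agent.P.MP_48bde8_co.TEmb

/-! Task PROD: diagrams with two components. -/

namespace Pool.Agent.P.MP_48bde8_co

open Equiv Finset PowerSeries
open scoped Classical

variable {P : Type} [Fintype P] {K : Type} [CommRing K] (x z : K)

namespace ProdAux

/-- `g₁` is `g` on `W` and the identity elsewhere. -/
def Ag (W : Finset P) (g g₁ : Perm P) : Prop := (∀ p ∈ W, g₁ p = g p) ∧ ∀ p, p ∉ W → g₁ p = p

omit [Fintype P] in
theorem fix_closed {W : Finset P} {g : Perm P} (h : ∀ p, p ∉ W → g p = p) :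
    ∀ p ∈ W, g p ∈ W := fun p hp => by
  by_contra hc
  exact hc ((g.injective (h _ hc)).symm ▸ hp)

omit [Fintype P] in
theorem Ag.closed {W : Finset P} {g g₁ : Perm P} (h : Ag W g g₁) : ∀ p ∈ W, g p ∈ W :=
  fun p hp => h.1 p hp ▸ fix_closed h.2 p hp

theorem ag_skip {W : Finset P} {g : Perm P} (h : ∀ p ∈ W, g p ∈ W) : Ag W g (skip g Wᶜ) :=
  ⟨fun p hp => skip_one (by simpa using hp) (by simpa using h p hp),
    fun p hp => skip_of_mem g (mem_compl.mpr hp)⟩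

omit [Fintype P] in
theorem Ag.unique {W : Finset P} {g g₁ g₂ : Perm P} (h : Ag W g g₁) (h' : Ag W g g₂) :
    g₁ = g₂ := by
  ext p
  by_cases hp : p ∈ W
  · rw [h.1 p hp, h'.1 p hp]
  · rw [h.2 p hp, h'.2 p hp]

theorem lnk_congr {W : Finset P} {f g g' : Perm P} (hf : ∀ p ∈ W, f p ∈ W)
    (hg : ∀ p ∈ W, g p ∈ W) (h : ∀ p ∈ W, g' p = g p) {p q : P} (hp : p ∈ W) (hl : Lnk f g p q) :
    Lnk f g' p q := by
  have L := CycC.lnk_equiv f g'
  refine (CycC.lnk_le (E := fun p q => (p ∈ W ↔ q ∈ W) ∧ (p ∈ W → Lnk f g' p q))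
    ⟨fun p => ⟨Iff.rfl, fun _ => L.refl p⟩, fun h => ⟨h.1.symm, fun h' => L.symm (h.2 (h.1.2 h'))⟩,
      fun h h' => ⟨h.1.trans h'.1, fun h'' => L.trans (h.2 h'') (h'.2 (h.1.1 h''))⟩⟩
    (fun p => ⟨(RegA.closed_iff hf p).symm, fun _ => CycC.lnk_left f g' p⟩)
    (fun p => ⟨(RegA.closed_iff hg p).symm, fun hp => ?_⟩) hl).2 hp
  rw [← h p hp]
  exact CycC.lnk_right f g' p

theorem sdiff_closed {U W : Finset P} {f : Perm P} (hU : ∀ p ∈ U, f p ∈ U)
    (hW : ∀ p ∈ W, f p ∈ W) : ∀ p ∈ U \ W, f p ∈ U \ W := fun p hp =>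
  mem_sdiff.mpr ⟨hU p (mem_sdiff.mp hp).1,
    fun h => (mem_sdiff.mp hp).2 ((RegA.closed_iff hW p).mp h)⟩

theorem cin_split {U W : Finset P} {f : Perm P} (hWU : W ⊆ U) (hW : ∀ p ∈ W, f p ∈ W)
    (c : P → Prop) [DecidablePred c] :
    cin f (U.filter c) = cin f (W.filter c) + cin f ((U \ W).filter c) := by
  rw [← cin_union f (disjoint_filter_filter disjoint_sdiff), ← filter_union,
    union_sdiff_of_subset hWU]
  · intro p hp h
    exact (mem_sdiff.mp (mem_filter.mp h).1).2 (hW p (mem_filter.mp hp).1)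
  · intro p hp h
    exact (mem_sdiff.mp (mem_filter.mp hp).1).2 ((RegA.closed_iff hW p).mp (mem_filter.mp h).1)

theorem cin_split' {U W : Finset P} {f : Perm P} (hWU : W ⊆ U) (hW : ∀ p ∈ W, f p ∈ W) :
    cin f U = cin f W + cin f (U \ W) := by
  simpa using cin_split hWU hW fun _ => True

variable {A : Amb P} {W : Finset P} {g g₁ : Perm P}

omit [Fintype P] in
theorem res_U (hW : W ⊆ A.U) : (A.res W).U = W := inter_eq_right.mpr hW

theorem valid_res (hW : W ⊆ A.U) (h : Ag W g g₁) (hv : A.Valid g) : (A.res W).Valid g₁ := by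
  refine ⟨fun p => ?_, by rw [res_U hW]; exact h.2, fun p hp ht => ?_⟩
  · by_cases hp : p ∈ W
    · rw [h.1 p hp, h.1 _ (h.closed p hp)]
      exact hv.1 p
    · rw [h.2 p hp, h.2 p hp]
      exact ⟨rfl, fun _ => rfl⟩
  · rw [res_U hW] at hp
    rw [h.1 p hp]
    exact hv.2.2 p (hW hp) ht

theorem conn_res (hW : W ⊆ A.U) (hπ : ∀ p ∈ W, A.π p ∈ W) (h : Ag W g g₁) :
    (A.res W).Conn g₁ ↔ ∀ p ∈ W, ∀ q ∈ W, Lnk A.π g p q := by
  rw [Amb.Conn, res_U hW]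
  exact forall₄_congr fun p hp q _ =>
    ⟨lnk_congr hπ (fix_closed h.2) (fun p hp => (h.1 p hp).symm) hp, lnk_congr hπ h.closed h.1 hp⟩

theorem cin_pi (h : Ag W g g₁) : cin (A.π * g₁) W = cin (A.π * g) W :=
  cin_congr fun q hq => by rw [Perm.mul_apply, Perm.mul_apply, h.1 q hq]

theorem planar_res (hW : W ⊆ A.U) (h : Ag W g g₁) :
    (A.res W).Planar g₁ ↔ cin A.π W + cin g W + cin (A.π * g) W = W.card + 2 := by
  rw [Amb.Planar, res_U hW, cin_congr h.1, ← cin_pi h]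
  rfl

theorem div_res (h : Ag W g g₁) {R : Rg P} (hR : R.1 ⊆ W) (hI : R.2 ⊆ R.1) :
    (A.res W).Div g₁ R ↔ A.Div g R := by
  have : Loc A g (A.res W) g₁ (Function.Embedding.refl P) R :=
    ⟨fun _ _ => rfl, fun _ _ => rfl, fun p hp => by
      show p ∈ A.dt ∩ W ↔ _
      rw [mem_inter, and_iff_left (hR hp)], fun p hp => h.1 p (hR (hI hp))⟩
  rw [← this.div hI, Rg.map_refl]

theorem good_res (h : Ag W g g₁) (hg : A.Good g) : (A.res W).Good g₁ := fun R hR =>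
  hg R ((div_res h (hR.1.1.2.1.trans inter_subset_right) hR.1.1.1.2.1).mp hR)

theorem wt_res (hW : W ⊆ A.U) (h : Ag W g g₁) :
    (A.res W).wt g₁ x z (A.res W).U = A.wt g x z W := by
  rw [res_U hW, Amb.wt, Amb.wt, Amb.nv, Amb.nv, Amb.nf, Amb.nf, ← cin_pi h,
    cin_congr (f := g) fun q hq => h.1 q (mem_filter.mp hq).1]
  rfl

theorem wt_split (hW : W ⊆ A.U) (hπ : ∀ p ∈ W, A.π p ∈ W) (hg : ∀ p ∈ W, g p ∈ W) :
    A.wt g x z A.U = A.wt g x z W * A.wt g x z (A.U \ W) := by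
  simp only [Amb.wt, Amb.nv, Amb.nf]
  rw [cin_split hW hg, cin_split' (f := A.π * g) hW fun p hp => hπ _ (hg p hp), pow_add, pow_add]
  ring

theorem euler_split (hW : W ⊆ A.U) (hπ : ∀ p ∈ W, A.π p ∈ W) (hg : ∀ p ∈ W, g p ∈ W) :
    cin A.π A.U + cin g A.U + cin (A.π * g) A.U =
      (cin A.π W + cin g W + cin (A.π * g) W) +
        (cin A.π (A.U \ W) + cin g (A.U \ W) + cin (A.π * g) (A.U \ W)) := by
  rw [cin_split' hW hπ, cin_split' hW hg,
    cin_split' (f := A.π * g) hW fun p hp => hπ _ (hg p hp)]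
  ring

omit [Fintype P] in
theorem ag_mul {W W' : Finset P} (hd : Disjoint W W') {g₁ g₂ : Perm P}
    (h₁ : ∀ p, p ∉ W → g₁ p = p) (h₂ : ∀ p, p ∉ W' → g₂ p = p) :
    Ag W (g₁ * g₂) g₁ ∧ Ag W' (g₁ * g₂) g₂ :=
  ⟨⟨fun p hp => by rw [Perm.mul_apply, h₂ p (disjoint_left.mp hd hp)], h₁⟩,
    ⟨fun p hp => by rw [Perm.mul_apply, h₁ _ (disjoint_right.mp hd (fix_closed h₂ p hp))], h₂⟩⟩

theorem cyc_closed {f : Perm P} {l : List P} (h : IsCyc f l) (hW : ∀ p ∈ W, f p ∈ W) {p q : P}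
    (hp : p ∈ l) (hq : q ∈ l) (hpW : p ∈ W) : q ∈ W :=
  orb_subset_of_closed hpW hW (h.orb_eq hp ▸ List.mem_toFinset.mpr hq)

theorem ok_res (hA : A.OK) (hπ : ∀ p ∈ W, A.π p ∈ W) : (A.res W).OK :=
  ⟨fun p hp => mem_inter.mpr ⟨hA.1 p (mem_inter.mp hp).1, hπ p (mem_inter.mp hp).2⟩,
    inter_subset_inter hA.2.1 Subset.rfl, fun p hp =>
      ⟨mem_inter.mpr ⟨(hA.2.2 p (mem_inter.mp hp).1).1, hπ p (mem_inter.mp hp).2⟩,
        (hA.2.2 p (mem_inter.mp hp).1).2⟩⟩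

theorem half [Algebra ℚ K] (hA : A.OK) {l₁ l₂ m₁ m₂ : List P} (h₁ : IsCyc A.π l₁)
    (h₂ : IsCyc A.π l₂) (k₁ : IsCyc A.π m₁) (k₂ : IsCyc A.π m₂) (n₁ : l₁ ≠ []) (n₂ : l₂ ≠ [])
    (d₁ : l₁.Disjoint m₁) (d₂ : l₂.Disjoint m₂)
    (d : ∀ p, p ∈ l₁ ∨ p ∈ m₁ → ¬ (p ∈ l₂ ∨ p ∈ m₂))
    (hU : ∀ p, (p ∈ A.U ∧ p ∉ A.dt) ↔ ((p ∈ l₁ ∨ p ∈ m₁) ∨ (p ∈ l₂ ∨ p ∈ m₂)))
    {n : ℕ} (hn : A.dt.card = 2 * n) :
    ∑ W ∈ A.U.powerset.filter (fun W => (∀ p ∈ W, A.π p ∈ W) ∧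
        ∀ p, p ∉ A.dt → (p ∈ W ↔ p ∈ l₁ ∨ p ∈ m₁)),
        (A.res W).T x z * (A.res (A.U \ W)).T x z =
      (n.factorial : K) * coeff n
        (tau2 x z (l₁.map A.ty) (m₁.map A.ty) * tau2 x z (l₂.map A.ty) (m₂.map A.ty)) := by
  have hdt : ∀ p ∈ A.dt, A.π p ∈ A.dt := fun p hp => (hA.2.2 p hp).1
  let f : ℕ → K := fun j => (j.factorial : K) * coeff j (tau2 x z (l₁.map A.ty) (m₁.map A.ty)) *
    (((n - j).factorial : K) * coeff (n - j) (tau2 x z (l₂.map A.ty) (m₂.map A.ty)))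
  trans ∑ V ∈ A.dt.powerset.filter (fun V => ∀ p ∈ V, A.π p ∈ V), f (V.card / 2)
  · refine sum_nbij' (fun W => A.dt ∩ W) (fun V => V ∪ (l₁ ++ m₁).toFinset) ?_ ?_ ?_ ?_ ?_
    · intro W hW
      simp only [mem_filter, mem_powerset] at hW ⊢
      exact ⟨inter_subset_left, fun p hp =>
        mem_inter.mpr ⟨hdt p (mem_inter.mp hp).1, hW.2.1 p (mem_inter.mp hp).2⟩⟩
    · intro V hV
      simp only [mem_filter, mem_powerset, mem_union, List.mem_toFinset, List.mem_append] at hV ⊢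
      refine ⟨union_subset (hV.1.trans hA.2.1) fun p hp => ((hU p).mpr (Or.inl ?_)).1, ?_,
        fun p hp => or_iff_right fun h => hp (hV.1 h)⟩
      · simpa using hp
      · rintro p (hp | hp | hp)
        exacts [Or.inl (hV.2 p hp), Or.inr (Or.inl (h₁.mem hp)), Or.inr (Or.inr (k₁.mem hp))]
    · intro W hW
      simp only [mem_filter, mem_powerset] at hW
      ext p
      simp only [mem_union, mem_inter, List.mem_toFinset, List.mem_append]
      by_cases hp : p ∈ A.dt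
      · exact ⟨fun h => h.elim And.right fun h => absurd hp ((hU p).mpr (Or.inl h)).2,
          fun h => Or.inl ⟨hp, h⟩⟩
      · rw [hW.2.2 p hp]
        exact or_iff_right fun h => hp h.1
    · intro V hV
      simp only [mem_filter, mem_powerset] at hV
      ext p
      simp only [mem_union, mem_inter, List.mem_toFinset, List.mem_append]
      exact ⟨fun h => h.2.resolve_right fun h' => ((hU p).mpr (Or.inl h')).2 h.1,
        fun h => ⟨hV.1 h, Or.inl h⟩⟩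
    · intro W hW
      simp only [mem_filter, mem_powerset] at hW
      obtain ⟨hWU, hc, hm⟩ := hW
      obtain ⟨j, hj, -⟩ := exists_emb_darts hA (V := A.dt ∩ W) inter_subset_left fun p hp =>
        mem_inter.mpr ⟨hdt p (mem_inter.mp hp).1, hc p (mem_inter.mp hp).2⟩
      have hj' : (A.dt ∩ (A.U \ W)).card = 2 * (n - j) := by
        have e : A.dt ∩ (A.U \ W) = A.dt \ W := by
          ext p
          simp only [mem_inter, mem_sdiff]
          exact and_congr_right fun hp => and_iff_right (hA.2.1 hp)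
        have := card_sdiff_add_card_inter A.dt W
        rw [e]
        omega
      have L₁ : (A.res W).LA l₁ m₁ := by
        refine ⟨ok_res hA hc, h₁, k₁, d₁, fun p => ?_⟩
        show p ∈ A.U ∩ W ∧ p ∉ A.dt ∩ W ↔ _
        simp only [mem_inter]
        constructor
        · rintro ⟨⟨-, h⟩, h'⟩
          exact (hm p fun h'' => h' ⟨h'', h⟩).mp h
        · intro h
          obtain ⟨h1, h2⟩ := (hU p).mpr (Or.inl h)
          exact ⟨⟨h1, (hm p h2).mpr h⟩, fun h' => h2 h'.1⟩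
      have L₂ : (A.res (A.U \ W)).LA l₂ m₂ := by
        refine ⟨ok_res hA (sdiff_closed hA.1 hc), h₂, k₂, d₂, fun p => ?_⟩
        show p ∈ A.U ∩ (A.U \ W) ∧ p ∉ A.dt ∩ (A.U \ W) ↔ _
        simp only [mem_inter, mem_sdiff]
        constructor
        · rintro ⟨⟨-, h⟩, h'⟩
          have h2 : p ∉ A.dt := fun h'' => h' ⟨h'', h⟩
          exact ((hU p).mp ⟨h.1, h2⟩).resolve_left fun h3 => h.2 ((hm p h2).mpr h3)
        · intro h
          obtain ⟨h1, h2⟩ := (hU p).mpr (Or.inr h)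
          exact ⟨⟨h1, h1, fun h3 => d p ((hm p h2).mp h3) h⟩, fun h' => h2 h'.1⟩
      rw [T_eq x z L₁ n₁ hj, T_eq x z L₂ n₂ hj', hj, Nat.mul_div_cancel_left _ two_pos]
      rfl
  rw [sum_closed_sets hA Subset.rfl hdt hn, coeff_mul,
    Finset.Nat.sum_antidiagonal_eq_sum_range_succ_mk, mul_sum]
  refine sum_congr rfl fun j hj => ?_
  rw [← Nat.choose_mul_factorial_mul_factorial (Nat.lt_succ_iff.mp (mem_range.mp hj))]
  simp only [f]
  push_cast
  ring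

end ProdAux

open ProdAux

namespace Amb

/-- Two planar components, one through `a` and one through `b`. -/
def Two (A : Amb P) (g : Perm P) (a b : P) : Prop :=
  (∀ p ∈ A.U, Lnk A.π g p a ∨ Lnk A.π g p b) ∧
    cin A.π A.U + cin g A.U + cin (A.π * g) A.U = A.U.card + 4

variable {A : Amb P}

theorem prod_sum (hA : A.OK) {a b : P} (ha : a ∈ A.U) (hb : b ∈ A.U) :
    ∑ g ∈ univ.filter (fun g => A.Valid g ∧ A.Two g a b ∧ A.Good g), A.wt g x z A.U =
      ∑ W ∈ A.U.powerset.filter (fun W => (∀ p ∈ W, A.π p ∈ W) ∧ a ∈ W ∧ b ∉ W),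
        (A.res W).T x z * (A.res (A.U \ W)).T x z := by
  have hgU : ∀ g : Perm P, A.Valid g → ∀ p ∈ A.U, g p ∈ A.U := fun g hv => fix_closed hv.2.1
  have hcl : ∀ g : Perm P, A.Valid g → ∀ W, A.U.filter (fun p => Lnk A.π g p a) = W →
      (∀ p ∈ W, A.π p ∈ W) ∧ ∀ p ∈ W, g p ∈ W := by
    rintro g hv W rfl
    have L := CycC.lnk_equiv A.π g
    exact ⟨fun p hp => mem_filter.mpr ⟨hA.1 p (mem_filter.mp hp).1,
        L.trans (L.symm (CycC.lnk_left _ _ p)) (mem_filter.mp hp).2⟩,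
      fun p hp => mem_filter.mpr ⟨hgU g hv p (mem_filter.mp hp).1,
        L.trans (L.symm (CycC.lnk_right _ _ p)) (mem_filter.mp hp).2⟩⟩
  rw [← sum_fiberwise_of_maps_to (g := fun g => A.U.filter fun p => Lnk A.π g p a)
    (t := A.U.powerset.filter fun W => (∀ p ∈ W, A.π p ∈ W) ∧ a ∈ W ∧ b ∉ W)]
  swap
  · intro g hg
    obtain ⟨-, hv, ht, -⟩ := mem_filter.mp hg
    have L := CycC.lnk_equiv A.π g
    refine mem_filter.mpr ⟨mem_powerset.mpr (filter_subset _ _), (hcl g hv _ rfl).1,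
      mem_filter.mpr ⟨ha, L.refl a⟩, fun h => ?_⟩
    have h1 : ∀ p ∈ A.U, Lnk A.π g p a := fun p hp =>
      (ht.1 p hp).elim id fun h' => L.trans h' (mem_filter.mp h).2
    have h2 := euler_on hA.1 (hgU g hv) fun p hp q hq => L.trans (h1 p hp) (L.symm (h1 q hq))
    have h3 := ht.2
    omega
  refine sum_congr rfl fun W hW => ?_
  obtain ⟨hWU, hc, haW, hbW⟩ := mem_filter.mp hW
  rw [mem_powerset] at hWU
  have hc' := sdiff_closed hA.1 hc
  have hbW' : b ∈ A.U \ W := mem_sdiff.mpr ⟨hb, hbW⟩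
  have hcard := card_sdiff_add_card_eq_card hWU
  have hag : ∀ c ∈ (A.res W).TS ×ˢ (A.res (A.U \ W)).TS,
      Ag W (c.1 * c.2) c.1 ∧ Ag (A.U \ W) (c.1 * c.2) c.2 := by
    intro c hc
    obtain ⟨h1, h2⟩ := mem_product.mp hc
    have h3 := (mem_filter.mp h1).2.1.1.2.1
    have h4 := (mem_filter.mp h2).2.1.1.2.1
    rw [res_U hWU] at h3
    rw [res_U sdiff_subset] at h4
    exact ag_mul disjoint_sdiff h3 h4
  have hag' : ∀ g ∈ (univ.filter fun g => A.Valid g ∧ A.Two g a b ∧ A.Good g).filter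
      (fun g => A.U.filter (fun p => Lnk A.π g p a) = W),
      Ag W g (skip g Wᶜ) ∧ Ag (A.U \ W) g (skip g (A.U \ W)ᶜ) := by
    intro g hg
    obtain ⟨hg, e⟩ := mem_filter.mp hg
    have hv := (mem_filter.mp hg).2.1
    exact ⟨ag_skip (hcl g hv W e).2, ag_skip (sdiff_closed (hgU g hv) (hcl g hv W e).2)⟩
  rw [T, T, sum_mul_sum, ← sum_product']
  refine sum_nbij' (fun g => (skip g Wᶜ, skip g (A.U \ W)ᶜ)) (fun c => c.1 * c.2) ?_ ?_ ?_ ?_ ?_
  · intro g hg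
    obtain ⟨a1, a2⟩ := hag' g hg
    obtain ⟨hg, e⟩ := mem_filter.mp hg
    obtain ⟨-, hv, ht, hgood⟩ := mem_filter.mp hg
    have L := CycC.lnk_equiv A.π g
    have c1 : ∀ p ∈ W, ∀ q ∈ W, Lnk A.π g p q := by
      intro p hp q hq
      rw [← e] at hp hq
      exact L.trans (mem_filter.mp hp).2 (L.symm (mem_filter.mp hq).2)
    have c2 : ∀ p ∈ A.U \ W, ∀ q ∈ A.U \ W, Lnk A.π g p q := by
      have : ∀ p ∈ A.U \ W, Lnk A.π g p b := fun p hp =>
        (ht.1 p (mem_sdiff.mp hp).1).resolve_left fun h =>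
          (mem_sdiff.mp hp).2 (e ▸ mem_filter.mpr ⟨(mem_sdiff.mp hp).1, h⟩)
      exact fun p hp q hq => L.trans (this p hp) (L.symm (this q hq))
    have e1 := euler_on hc a1.closed c1
    have e2 := euler_on hc' a2.closed c2
    have e3 := euler_split hWU hc a1.closed
    have e4 := ht.2
    exact mem_product.mpr ⟨mem_filter.mpr ⟨mem_univ _, ⟨valid_res hWU a1 hv,
        (conn_res hWU hc a1).mpr c1, (planar_res hWU a1).mpr (by omega)⟩, good_res a1 hgood⟩,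
      mem_filter.mpr ⟨mem_univ _, ⟨valid_res sdiff_subset a2 hv,
        (conn_res sdiff_subset hc' a2).mpr c2, (planar_res sdiff_subset a2).mpr (by omega)⟩,
        good_res a2 hgood⟩⟩
  · intro c hcm
    obtain ⟨a1, a2⟩ := hag c hcm
    obtain ⟨h1, h2⟩ := mem_product.mp hcm
    obtain ⟨-, ⟨v1, c1, p1⟩, g1⟩ := mem_filter.mp h1
    obtain ⟨-, ⟨v2, c2, p2⟩, g2⟩ := mem_filter.mp h2
    rw [conn_res hWU hc a1] at c1
    rw [conn_res sdiff_subset hc' a2] at c2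
    rw [planar_res hWU a1] at p1
    rw [planar_res sdiff_subset a2] at p2
    have e3 := euler_split hWU hc a1.closed
    have hout : ∀ p, p ∉ A.U → (c.1 * c.2) p = p := fun p hp => by
      rw [Perm.mul_apply, a2.2 p fun h => hp (mem_sdiff.mp h).1, a1.2 p fun h => hp (hWU h)]
    refine mem_filter.mpr ⟨mem_filter.mpr ⟨mem_univ _, ⟨fun p => ?_, hout, fun p hp ht => ?_⟩,
      ⟨fun p hp => ?_, by omega⟩, fun R hR => ?_⟩, ?_⟩
    · by_cases hp : p ∈ W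
      · rw [← a1.1 _ (a1.closed p hp), ← a1.1 p hp]
        exact v1.1 p
      by_cases hp' : p ∈ A.U
      · have hp2 := mem_sdiff.mpr ⟨hp', hp⟩
        rw [← a2.1 _ (a2.closed p hp2), ← a2.1 p hp2]
        exact v2.1 p
      · rw [hout p hp', hout p hp']
        exact ⟨rfl, fun _ => rfl⟩
    · by_cases hpW : p ∈ W
      · rw [← a1.1 p hpW]
        exact v1.2.2 p (mem_inter.mpr ⟨hp, hpW⟩) ht
      · have hp2 := mem_sdiff.mpr ⟨hp, hpW⟩
        rw [← a2.1 p hp2]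
        exact v2.2.2 p (mem_inter.mpr ⟨hp, hp2⟩) ht
    · by_cases hpW : p ∈ W
      · exact Or.inl (c1 p hpW a haW)
      · exact Or.inr (c2 p (mem_sdiff.mpr ⟨hp, hpW⟩) b hbW')
    · obtain ⟨⟨p, hp⟩, hconn⟩ := hR.1.2.1
      have hI := hR.1.1.1.2.1
      by_cases hpW : p ∈ W
      · exact g1 R ((div_res a1 (fun q hq =>
          ((hconn p hp q hq).lnk.mem_of_closed hc a1.closed).mp hpW) hI).mpr hR)
      · exact g2 R ((div_res a2 (fun q hq =>
          ((hconn p hp q hq).lnk.mem_of_closed hc' a2.closed).mp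
            (mem_sdiff.mpr ⟨hA.2.1 (hR.1.1.2.1 hp), hpW⟩)) hI).mpr hR)
    · ext p
      rw [mem_filter]
      exact ⟨fun h => (h.2.mem_of_closed hc a1.closed).mpr haW,
        fun h => ⟨hWU h, c1 p h a haW⟩⟩
  · intro g hg
    obtain ⟨a1, a2⟩ := hag' g hg
    obtain ⟨b1, b2⟩ := ag_mul disjoint_sdiff a1.2 a2.2
    ext p
    by_cases hp : p ∈ W
    · rw [← b1.1 p hp, a1.1 p hp]
    by_cases hp' : p ∈ A.U
    · have hp2 := mem_sdiff.mpr ⟨hp', hp⟩
      rw [← b2.1 p hp2, a2.1 p hp2]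
    · rw [Perm.mul_apply, a2.2 p fun h => hp' (mem_sdiff.mp h).1, a1.2 p hp,
        (mem_filter.mp (mem_filter.mp hg).1).2.1.2.1 p hp']
  · intro c hcm
    obtain ⟨a1, a2⟩ := hag c hcm
    exact Prod.ext ((ag_skip a1.closed).unique a1) ((ag_skip a2.closed).unique a2)
  · intro g hg
    obtain ⟨a1, a2⟩ := hag' g hg
    rw [wt_res x z hWU a1, wt_res x z sdiff_subset a2, wt_split x z hWU hc a1.closed]

variable [Algebra ℚ K]

theorem prod_coeff (hA : A.OK) {a b : P} {l₁ l₂ l₃ : List P} (h₁ : IsCyc A.π l₁)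
    (h₂ : IsCyc A.π l₂) (h₃ : IsCyc A.π l₃) (d₁₂ : l₁.Disjoint l₂) (d₁₃ : l₁.Disjoint l₃)
    (d₂₃ : l₂.Disjoint l₃) (hU : ∀ p, (p ∈ A.U ∧ p ∉ A.dt) ↔ (p ∈ l₁ ∨ p ∈ l₂ ∨ p ∈ l₃))
    (ha : a ∈ l₁) (hb : b ∈ l₂) {n : ℕ} (hn : A.dt.card = 2 * n) :
    ∑ g ∈ univ.filter (fun g => A.Valid g ∧ A.Two g a b ∧ A.Good g), A.wt g x z A.U =
      (n.factorial : K) * coeff n
        (if l₃ = [] then tau x z (l₁.map A.ty) * tau x z (l₂.map A.ty)
        else tau x z (l₁.map A.ty) * tau2 x z (l₂.map A.ty) (l₃.map A.ty) +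
          tau2 x z (l₁.map A.ty) (l₃.map A.ty) * tau x z (l₂.map A.ty)) := by
  have n₁ := List.ne_nil_of_mem ha
  have n₂ := List.ne_nil_of_mem hb
  have h₀ : IsCyc A.π [] := ⟨List.nodup_nil, rfl⟩
  have ua := (hU a).mpr (Or.inl ha)
  have ub := (hU b).mpr (Or.inr (Or.inl hb))
  have e₁ := half x z hA h₁ h₂ h₀ h₃ n₁ n₂ (List.disjoint_nil_right _) d₂₃
    (fun p hp h => h.elim (d₁₂ (by simpa using hp)) (d₁₃ (by simpa using hp)))
    (fun p => by simpa using hU p) hn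
  have key : ∀ W ⊆ A.U, (∀ p ∈ W, A.π p ∈ W) → a ∈ W → b ∉ W → ∀ p, p ∉ A.dt →
      (p ∈ W ↔ p ∈ l₁ ∨ (p ∈ l₃ ∧ p ∈ W)) := by
    intro W hW hc haW hbW p hp
    refine ⟨fun h => ?_, fun h => h.elim (fun h => cyc_closed h₁ hc ha h haW) And.right⟩
    rcases (hU p).mp ⟨hW h, hp⟩ with h' | h' | h'
    exacts [Or.inl h', absurd (cyc_closed h₂ hc h' hb h) hbW, Or.inr ⟨h', h⟩]
  rw [prod_sum x z hA ua.1 ub.1]
  split_ifs with h
  · subst h
    refine Eq.trans (sum_congr (filter_congr fun W hW => and_congr_right fun hc => ?_)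
      fun _ _ => rfl) e₁
    constructor
    · rintro ⟨h1, h2⟩ p hp
      simpa using key W (mem_powerset.mp hW) hc h1 h2 p hp
    · intro h
      exact ⟨(h a ua.2).mpr (Or.inl ha), fun h' => d₁₂ (by simpa using (h b ub.2).mp h') hb⟩
  obtain ⟨c, hc₃⟩ := List.exists_mem_of_ne_nil _ h
  have uc := (hU c).mpr (Or.inr (Or.inr hc₃))
  have e₂ := half x z hA h₁ h₂ h₃ h₀ n₁ n₂ d₁₃ (List.disjoint_nil_right _)
    (fun p hp h => hp.elim (fun hp => d₁₂ hp (by simpa using h))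
      fun hp => d₂₃ (by simpa using h) hp)
    (fun p => by rw [hU p]; simp only [List.not_mem_nil, or_false]; tauto) hn
  rw [← sum_filter_add_sum_filter_not _ fun W => c ∉ W, filter_filter, filter_filter, map_add,
    mul_add]
  congr 1
  · refine Eq.trans (sum_congr (filter_congr fun W hW => ?_) fun _ _ => rfl) e₁
    rw [and_assoc]
    refine and_congr_right fun hc => ⟨?_, fun h => ?_⟩
    · rintro ⟨⟨h1, h2⟩, h3⟩ p hp
      rw [key W (mem_powerset.mp hW) hc h1 h2 p hp]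
      exact or_congr_right ⟨fun h => absurd (cyc_closed h₃ hc h.1 hc₃ h.2) h3, by simp⟩
    · exact ⟨⟨(h a ua.2).mpr (Or.inl ha), fun h' => d₁₂ (by simpa using (h b ub.2).mp h') hb⟩,
        fun h' => d₁₃ (by simpa using (h c uc.2).mp h') hc₃⟩
  · refine Eq.trans (sum_congr (filter_congr fun W hW => ?_) fun _ _ => rfl) e₂
    rw [and_assoc, not_not]
    refine and_congr_right fun hc => ⟨?_, fun h => ?_⟩
    · rintro ⟨⟨h1, h2⟩, h3⟩ p hp
      rw [key W (mem_powerset.mp hW) hc h1 h2 p hp]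
      exact or_congr_right ⟨And.left, fun h => ⟨h, cyc_closed h₃ hc hc₃ h h3⟩⟩
    · exact ⟨⟨(h a ua.2).mpr (Or.inl ha),
        fun h' => ((h b ub.2).mp h').elim (fun h => d₁₂ h hb) (d₂₃ hb)⟩,
        (h c uc.2).mpr (Or.inr hc₃)⟩

end Amb

end Pool.Agent.P.MP_48bde8_co
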