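import Pool.Agent.P.MP_48bde8_co.Reg
import Pool.Agent.P.MP_48bde8_co.CycA

/-! Task REGA: lattice operations on regions, components. -/

namespace Pool.Agent.P.MP_48bde8_co

open Equiv Finset
open scoped Classical

set_option linter.unusedSectionVars false
set_option linter.unusedVariables false

variable {P : Type} [Fintype P]

namespace RegA

omit [Fintype P] in
theorem fst_sup (R S : Rg P) : (R ⊔ S).1 = R.1 ∪ S.1 := rfl

omit [Fintype P] in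
theorem snd_sup (R S : Rg P) : (R ⊔ S).2 = R.2 ∪ S.2 := rfl

omit [Fintype P] in
theorem fst_inf (R S : Rg P) : (R ⊓ S).1 = R.1 ∩ S.1 := rfl

omit [Fintype P] in
theorem snd_inf (R S : Rg P) : (R ⊓ S).2 = R.2 ∩ S.2 := rfl

omit [Fintype P] in
theorem bd_card {R : Rg P} (hR : R.2 ⊆ R.1) : bd R + R.2.card = R.1.card :=
  card_sdiff_add_card_eq_card hR

omit [Fintype P] in
theorem closed_iff {f : Perm P} {V : Finset P} (h : ∀ p ∈ V, f p ∈ V) (p : P) :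
    f p ∈ V ↔ p ∈ V :=
  ⟨fun hp => by simpa using Perm.perm_symm_on_of_perm_on_finset h hp, h p⟩

omit [Fintype P] in
theorem lnk_closed {f g : Perm P} {V : Finset P} (hf : ∀ p ∈ V, f p ∈ V) (hg : ∀ p ∈ V, g p ∈ V)
    {p q : P} (h : Lnk f g p q) : p ∈ V ↔ q ∈ V := by
  induction h with
  | rel a b h =>
    rcases h with rfl | rfl
    · exact (closed_iff hf a).symm
    · exact (closed_iff hg a).symm
  | refl => rfl
  | symm a b _ ih => exact ih.symm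
  | trans a b c _ _ ih1 ih2 => exact ih1.trans ih2

theorem in_out (f : Perm P) (V : Finset P) :
    (univ.filter fun p => p ∉ V ∧ f p ∈ V).card = (univ.filter fun p => p ∈ V ∧ f p ∉ V).card := by
  have h1 : (univ.filter fun p => f p ∈ V).card = V.card := by
    refine card_bij (fun p _ => f p) (fun p hp => by simpa using hp)
      (fun p _ q _ h => f.injective h) (fun q hq => ⟨f⁻¹ q, by simpa using hq, by simp⟩)
  have h2 := card_filter_add_card_filter_not (s := univ.filter fun p => f p ∈ V) (fun p => p ∈ V)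
  have h3 := card_filter_add_card_filter_not (s := V) (fun p => f p ∈ V)
  have e1 : (univ.filter fun p => f p ∈ V).filter (fun p => p ∈ V) = V.filter fun p => f p ∈ V := by
    ext p; simp [and_comm]
  have e2 : (univ.filter fun p => f p ∈ V).filter (fun p => ¬ p ∈ V) =
      univ.filter fun p => p ∉ V ∧ f p ∈ V := by
    ext p; simp [and_comm]
  have e3 : V.filter (fun p => ¬ f p ∈ V) = univ.filter fun p => p ∈ V ∧ f p ∉ V := by
    ext p; simp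
  rw [e1, e2] at h2
  rw [e3] at h3
  omega

end RegA

theorem bd_modular {R S : Rg P} (hR : R.2 ⊆ R.1) (hS : S.2 ⊆ S.1) :
    bd (R ⊔ S) + bd (R ⊓ S) = bd R + bd S := by
  have h1 := RegA.bd_card hR
  have h2 := RegA.bd_card hS
  have h3 := RegA.bd_card (R := R ⊔ S) (union_subset_union hR hS)
  have h4 := RegA.bd_card (R := R ⊓ S) (inter_subset_inter hR hS)
  have h5 := card_union_add_card_inter R.1 S.1
  have h6 := card_union_add_card_inter R.2 S.2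
  simp only [RegA.fst_sup, RegA.snd_sup, RegA.fst_inf, RegA.snd_inf] at h3 h4
  omega

theorem bd_add_card {R : Rg P} (hR : R.2 ⊆ R.1) : bd R + R.2.card = R.1.card := RegA.bd_card hR

namespace Amb

variable {A : Amb P} {ψ : Perm P} {R S : Rg P}

theorem Pre.sup (hR : A.Pre ψ R) (hS : A.Pre ψ S) : A.Pre ψ (R ⊔ S) := by
  refine ⟨fun p hp => ?_, union_subset_union hR.2.1 hS.2.1, fun p hp => ?_⟩
  · rcases mem_union.1 hp with h | h
    · exact mem_union_left _ (hR.1 p h)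
    · exact mem_union_right _ (hS.1 p h)
  · rcases mem_union.1 hp with h | h
    · exact mem_union_left _ (hR.2.2 p h)
    · exact mem_union_right _ (hS.2.2 p h)

theorem Pre.inf (hR : A.Pre ψ R) (hS : A.Pre ψ S) : A.Pre ψ (R ⊓ S) :=
  ⟨fun p hp => mem_inter.2 ⟨hR.1 p (mem_inter.1 hp).1, hS.1 p (mem_inter.1 hp).2⟩,
    inter_subset_inter hR.2.1 hS.2.1,
    fun p hp => mem_inter.2 ⟨hR.2.2 p (mem_inter.1 hp).1, hS.2.2 p (mem_inter.1 hp).2⟩⟩

theorem Reg.sup (hR : A.Reg ψ R) (hS : A.Reg ψ S) : A.Reg ψ (R ⊔ S) := by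
  refine ⟨hR.1.sup hS.1, union_subset hR.2.1 hS.2.1, fun p hp ht => ?_⟩
  rcases mem_union.1 hp with h | h
  · exact ⟨mem_union_left _ (hR.2.2 p h ht).1, (hR.2.2 p h ht).2⟩
  · exact ⟨mem_union_right _ (hS.2.2 p h ht).1, (hS.2.2 p h ht).2⟩

theorem Reg.inf (hR : A.Reg ψ R) (hS : A.Reg ψ S) : A.Reg ψ (R ⊓ S) :=
  ⟨hR.1.inf hS.1, inter_subset_left.trans hR.2.1, fun p hp ht =>
    ⟨mem_inter.2 ⟨(hR.2.2 p (mem_inter.1 hp).1 ht).1, (hS.2.2 p (mem_inter.1 hp).2 ht).1⟩,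
      (hR.2.2 p (mem_inter.1 hp).1 ht).2⟩⟩

/-- A `π`-closed set is also closed under the inverse. -/
theorem Pre.mem_iff (hR : A.Pre ψ R) (p : P) : A.π p ∈ R.1 ↔ p ∈ R.1 := RegA.closed_iff hR.1 p

theorem eps_supermod (R S : Rg P) :
    A.eps ψ R + A.eps ψ S ≤ A.eps ψ (R ⊔ S) + A.eps ψ (R ⊓ S) := by
  have h1 := cin_supermod A.π R.1 S.1
  have h2 := cin_supermod ψ R.2 S.2
  have h3 := cin_supermod (A.π * ψ) R.2 S.2
  have h4 := card_union_add_card_inter R.2 S.2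
  simp only [eps, RegA.fst_sup, RegA.snd_sup, RegA.fst_inf, RegA.snd_inf]
  omega

theorem Feat.mono (h : A.Feat ψ R) (hle : R ≤ S) : A.Feat ψ S := by
  obtain ⟨p, h | h⟩ := h
  · exact ⟨p, Or.inl ⟨h.1, h.2.trans hle.2⟩⟩
  · exact ⟨p, Or.inr ⟨h.1.trans hle.2, h.2⟩⟩

theorem RL.mono {p q : P} (h : A.RL ψ R p q) (hle : R ≤ S) : A.RL ψ S p q :=
  Relation.EqvGen.mono (r := A.Step ψ R) (p := A.Step ψ S)
    (fun _ _ h => Or.imp (fun h => ⟨hle.1 h.1, h.2⟩) (fun h => ⟨hle.2 h.1, h.2⟩) h) _ _ h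

theorem RL.mem (hR : A.Pre ψ R) {p q : P} (h : A.RL ψ R p q) : p ∈ R.1 ↔ q ∈ R.1 := by
  induction h with
  | rel a b h =>
    rcases h with ⟨h, rfl⟩ | ⟨h, rfl⟩
    · exact ⟨fun _ => hR.1 a h, fun _ => h⟩
    · exact ⟨fun _ => hR.2.2 a h, fun _ => hR.2.1 h⟩
  | refl => rfl
  | symm a b _ ih => exact ih.symm
  | trans a b c _ _ ih1 ih2 => exact ih1.trans ih2

theorem RL.lnk {p q : P} (h : A.RL ψ R p q) : Lnk A.π ψ p q :=
  Relation.EqvGen.mono (r := A.Step ψ R) (p := fun p q => q = A.π p ∨ q = ψ p)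
    (fun _ _ h => Or.imp (fun h => h.2) (fun h => h.2) h) _ _ h

theorem RConn.sup (hR : A.RConn ψ R) (hS : A.RConn ψ S) (h : Ov R S) : A.RConn ψ (R ⊔ S) := by
  obtain ⟨x, hx1, hx2⟩ := not_disjoint_iff.1 h
  have key : ∀ q ∈ (R ⊔ S).1, A.RL ψ (R ⊔ S) x q := fun q hq => by
    rcases mem_union.1 hq with hq | hq
    · exact (hR.2 x hx1 q hq).mono le_sup_left
    · exact (hS.2 x hx2 q hq).mono le_sup_right
  exact ⟨⟨x, mem_union_left _ hx1⟩, fun p hp q hq =>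
    Relation.EqvGen.trans _ _ _ (Relation.EqvGen.symm _ _ (key p hp)) (key q hq)⟩

theorem rconn_of_root {p : P} (hp : p ∈ R.1) (h : ∀ q ∈ R.1, A.RL ψ R p q) : A.RConn ψ R :=
  ⟨⟨p, hp⟩, fun a ha b hb =>
    Relation.EqvGen.trans _ _ _ (Relation.EqvGen.symm _ _ (h a ha)) (h b hb)⟩

theorem comp_le (R : Rg P) (p : P) : A.comp ψ R p ≤ R := ⟨filter_subset _ _, filter_subset _ _⟩

theorem mem_comp_self {p : P} (hp : p ∈ R.1) : p ∈ (A.comp ψ R p).1 :=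
  mem_filter.2 ⟨hp, Relation.EqvGen.refl _⟩

namespace RegA

omit [Fintype P] in
theorem rl_pi {p : P} (hp : p ∈ R.1) : A.RL ψ R p (A.π p) :=
  Relation.EqvGen.rel _ _ (Or.inl ⟨hp, rfl⟩)

omit [Fintype P] in
theorem rl_psi {p : P} (hp : p ∈ R.2) : A.RL ψ R p (ψ p) :=
  Relation.EqvGen.rel _ _ (Or.inr ⟨hp, rfl⟩)

omit [Fintype P] in
theorem pre_filter (hR : A.Pre ψ R) {Q : P → Prop} (hQ : ∀ a b, A.RL ψ R a b → Q a → Q b) :
    A.Pre ψ (R.1.filter Q, R.2.filter Q) :=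
  ⟨fun a ha => mem_filter.2 ⟨hR.1 a (mem_filter.1 ha).1,
      hQ _ _ (rl_pi (mem_filter.1 ha).1) (mem_filter.1 ha).2⟩,
    filter_subset_filter _ hR.2.1,
    fun a ha => mem_filter.2 ⟨hR.2.2 a (mem_filter.1 ha).1,
      hQ _ _ (rl_psi (mem_filter.1 ha).1) (mem_filter.1 ha).2⟩⟩

omit [Fintype P] in
theorem rl_filter {Q : P → Prop} (hQ : ∀ a b, A.RL ψ R a b → Q a → Q b) {a b : P}
    (h : A.RL ψ R a b) : Q a → A.RL ψ (R.1.filter Q, R.2.filter Q) a b := by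
  induction h with
  | rel a b h =>
    intro ha
    rcases h with ⟨h, rfl⟩ | ⟨h, rfl⟩
    · exact rl_pi (mem_filter.2 ⟨h, ha⟩)
    · exact rl_psi (mem_filter.2 ⟨h, ha⟩)
  | refl => exact fun _ => Relation.EqvGen.refl _
  | symm a b h ih =>
    exact fun hb => Relation.EqvGen.symm _ _ (ih (hQ _ _ (Relation.EqvGen.symm _ _ h) hb))
  | trans a b c h _ ih1 ih2 =>
    exact fun ha => Relation.EqvGen.trans _ _ _ (ih1 ha) (ih2 (hQ _ _ h ha))

end RegA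

theorem Pre.comp (hR : A.Pre ψ R) (p : P) : A.Pre ψ (A.comp ψ R p) :=
  RegA.pre_filter hR (fun _ _ h h' => Relation.EqvGen.trans _ _ _ h' h)

theorem Reg.comp (hR : A.Reg ψ R) (p : P) : A.Reg ψ (A.comp ψ R p) :=
  ⟨hR.1.comp p, (filter_subset _ _).trans hR.2.1, fun a ha ht =>
    ⟨mem_filter.2 ⟨(hR.2.2 a (mem_filter.1 ha).1 ht).1, Relation.EqvGen.trans _ _ _
      (mem_filter.1 ha).2 (RegA.rl_psi (mem_filter.1 ha).1)⟩,
      (hR.2.2 a (mem_filter.1 ha).1 ht).2⟩⟩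

theorem comp_conn (hR : A.Pre ψ R) {p : P} (hp : p ∈ R.1) : A.RConn ψ (A.comp ψ R p) :=
  rconn_of_root (mem_comp_self hp) fun _ hq =>
    RegA.rl_filter (Q := fun q => A.RL ψ R p q)
      (fun _ _ h h' => Relation.EqvGen.trans _ _ _ h' h) (mem_filter.1 hq).2
      (Relation.EqvGen.refl _)

theorem comp_eq_of_rl {p q : P} (h : A.RL ψ R p q) : A.comp ψ R p = A.comp ψ R q := by
  have e : (fun r => A.RL ψ R p r) = fun r => A.RL ψ R q r := funext fun r => propext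
    ⟨fun h' => Relation.EqvGen.trans _ _ _ (Relation.EqvGen.symm _ _ h) h',
      fun h' => Relation.EqvGen.trans _ _ _ h h'⟩
  simp only [comp, e]

theorem comp_disjoint {p q : P} (h : ¬ A.RL ψ R p q) :
    Disjoint (A.comp ψ R p).1 (A.comp ψ R q).1 :=
  disjoint_left.2 fun _ h1 h2 => h (Relation.EqvGen.trans _ _ _ (mem_filter.1 h1).2
    (Relation.EqvGen.symm _ _ (mem_filter.1 h2).2))

theorem comp_eq_self (hR : A.Pre ψ R) (hc : A.RConn ψ R) {p : P} (hp : p ∈ R.1) :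
    A.comp ψ R p = R :=
  Prod.ext (filter_true_of_mem fun q hq => hc.2 p hp q hq)
    (filter_true_of_mem fun q hq => hc.2 p hp q (hR.2.1 hq))

theorem le_comp (hS : A.Pre ψ S) (hc : A.RConn ψ S) (hle : S ≤ R) {p : P} (hp : p ∈ S.1) :
    S ≤ A.comp ψ R p :=
  ⟨fun q hq => mem_filter.2 ⟨hle.1 hq, (hc.2 p hp q hq).mono hle⟩,
    fun q hq => mem_filter.2 ⟨hle.2 hq, (hc.2 p hp q (hS.2.1 hq)).mono hle⟩⟩

/-- The internal steps of a component are the internal steps starting in it. -/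
theorem mem_comp_snd (hR : A.Pre ψ R) {p q : P} :
    q ∈ (A.comp ψ R p).2 ↔ q ∈ (A.comp ψ R p).1 ∧ q ∈ R.2 :=
  ⟨fun h => ⟨mem_filter.2 ⟨hR.2.1 (mem_filter.1 h).1, (mem_filter.1 h).2⟩, (mem_filter.1 h).1⟩,
    fun h => mem_filter.2 ⟨h.2, (mem_filter.1 h.1).2⟩⟩

theorem mem_comp_step (hR : A.Pre ψ R) {p q : P} (hq : q ∈ R.2) :
    q ∈ (A.comp ψ R p).1 ↔ ψ q ∈ (A.comp ψ R p).1 :=
  ⟨fun h => mem_filter.2 ⟨hR.2.2 q hq,
      Relation.EqvGen.trans _ _ _ (mem_filter.1 h).2 (RegA.rl_psi hq)⟩,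
    fun h => mem_filter.2 ⟨hR.2.1 hq, Relation.EqvGen.trans _ _ _ (mem_filter.1 h).2
      (Relation.EqvGen.symm _ _ (RegA.rl_psi hq))⟩⟩

theorem Feat.comp (hR : A.Pre ψ R) (h : A.Feat ψ R) : ∃ p ∈ R.1, A.Feat ψ (A.comp ψ R p) := by
  have key : ∀ (f : Perm P) (p : P), (∀ a ∈ R.2, A.RL ψ R a (f a)) → orb f p ⊆ R.2 →
      orb f p ⊆ (A.comp ψ R p).2 := by
    intro f p hf hp
    rw [orb_subset_iff] at hp ⊢
    intro k
    refine mem_filter.2 ⟨hp k, ?_⟩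
    induction k with
    | zero => exact Relation.EqvGen.refl _
    | succ k ih =>
      rw [pow_succ', Perm.mul_apply]
      exact Relation.EqvGen.trans _ _ _ ih (hf _ (hp k))
  obtain ⟨p, h | h⟩ := h
  · exact ⟨p, hR.2.1 (h.2 (self_mem_orb _ _)), p,
      Or.inl ⟨h.1, key ψ p (fun a ha => RegA.rl_psi ha) h.2⟩⟩
  · exact ⟨p, hR.2.1 (h.1 (self_mem_orb _ _)), p, Or.inr ⟨key _ p (fun a ha =>
      Relation.EqvGen.trans _ _ _ (RegA.rl_psi ha) (RegA.rl_pi (hR.2.2 a ha))) h.1, h.2⟩⟩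

/-- Disjoint pre-regions: additivity. -/
theorem eps_sup_disjoint (hR : A.Pre ψ R) (hS : A.Pre ψ S) (hd : Disjoint R.1 S.1) :
    A.eps ψ (R ⊔ S) = A.eps ψ R + A.eps ψ S := by
  have hd2 : Disjoint R.2 S.2 := hd.mono hR.2.1 hS.2.1
  have d1 := disjoint_left.1 hd
  have d2 := disjoint_right.1 hd
  have h1 := cin_union A.π hd (fun p hp => d1 (hR.1 p hp)) (fun p hp => d2 (hS.1 p hp))
  have h2 := cin_union ψ hd2 (fun p hp h => d1 (hR.2.2 p hp) (hS.2.1 h))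
    (fun p hp h => d2 (hS.2.2 p hp) (hR.2.1 h))
  have h3 := cin_union (A.π * ψ) hd2 (fun p hp h => d1 (hR.1 _ (hR.2.2 p hp)) (hS.2.1 h))
    (fun p hp h => d2 (hS.1 _ (hS.2.2 p hp)) (hR.2.1 h))
  have h4 := card_union_of_disjoint hd2
  simp only [eps, RegA.fst_sup, RegA.snd_sup]
  omega

omit [Fintype P] in
theorem RegA.cut_comp (p : P) : (A.comp ψ R p).1 \ (A.comp ψ R p).2 ⊆ R.1 \ R.2 := fun _ hq =>
  mem_sdiff.2 ⟨(mem_filter.1 (mem_sdiff.1 hq).1).1, fun h => (mem_sdiff.1 hq).2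
    (mem_filter.2 ⟨h, (mem_filter.1 (mem_sdiff.1 hq).1).2⟩)⟩

theorem bd_comp_le (hR : A.Pre ψ R) (p : P) : bd (A.comp ψ R p) ≤ bd R := card_le_card (RegA.cut_comp p)

theorem bd_comp_add_le (hR : A.Pre ψ R) {p q : P} (h : ¬ A.RL ψ R p q) :
    bd (A.comp ψ R p) + bd (A.comp ψ R q) ≤ bd R := by
  unfold bd
  rw [← card_union_of_disjoint ((comp_disjoint h).mono sdiff_subset sdiff_subset)]
  exact card_le_card (union_subset (RegA.cut_comp p) (RegA.cut_comp q))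

theorem RegA.comps (n : ℕ) : ∀ R : Rg P, R.1.card = n → A.Pre ψ R →
    (∀ p ∈ R.1, A.eps ψ (A.comp ψ R p) ≤ 1) →
    (1 ≤ A.eps ψ R → ∃ p ∈ R.1, A.eps ψ (A.comp ψ R p) = 1) ∧
    (2 ≤ A.eps ψ R → ∃ p ∈ R.1, ∃ q ∈ R.1, ¬ A.RL ψ R p q ∧
      A.eps ψ (A.comp ψ R p) = 1 ∧ A.eps ψ (A.comp ψ R q) = 1) := by
  induction n using Nat.strong_induction_on with
  | _ n ih =>
  intro R hn hR h
  rcases R.1.eq_empty_or_nonempty with h0 | ⟨p, hp⟩
  · have h2 : R.2 = ∅ := subset_empty.1 (h0 ▸ hR.2.1)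
    have : A.eps ψ R = 0 := by simp [eps, h0, h2, cin_empty]
    exact ⟨fun h => by omega, fun h => by omega⟩
  have hQ : ∀ a b, A.RL ψ R a b → ¬ A.RL ψ R p a → ¬ A.RL ψ R p b := fun a b h1 h2 h3 =>
    h2 (Relation.EqvGen.trans _ _ _ h3 (Relation.EqvGen.symm _ _ h1))
  obtain ⟨T, hT⟩ : ∃ T : Rg P, T = (R.1.filter fun q => ¬ A.RL ψ R p q,
    R.2.filter fun q => ¬ A.RL ψ R p q) := ⟨_, rfl⟩
  have hT1 : ∀ q, q ∈ T.1 ↔ q ∈ R.1 ∧ ¬ A.RL ψ R p q := fun q => by rw [hT]; exact mem_filter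
  have hT2 : ∀ q, q ∈ T.2 ↔ q ∈ R.2 ∧ ¬ A.RL ψ R p q := fun q => by rw [hT]; exact mem_filter
  have hTp : A.Pre ψ T := by rw [hT]; convert RegA.pre_filter hR hQ
  have hle : T ≤ R := ⟨fun q hq => ((hT1 q).1 hq).1, fun q hq => ((hT2 q).1 hq).1⟩
  have hrl : ∀ a ∈ T.1, ∀ b, A.RL ψ T a b ↔ A.RL ψ R a b := fun a ha b =>
    ⟨fun h => h.mono hle, fun h => by
      rw [hT]; convert RegA.rl_filter hQ h ((hT1 a).1 ha).2⟩
  have hc : ∀ a ∈ T.1, A.comp ψ T a = A.comp ψ R a := fun a ha => by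
    refine Prod.ext ?_ ?_
    · ext b
      simp only [comp, mem_filter, hT1, hrl a ha]
      exact ⟨fun h => ⟨h.1.1, h.2⟩, fun h => ⟨⟨h.1, hQ _ _ h.2 ((hT1 a).1 ha).2⟩, h.2⟩⟩
    · ext b
      simp only [comp, mem_filter, hT2, hrl a ha]
      exact ⟨fun h => ⟨h.1.1, h.2⟩, fun h => ⟨⟨h.1, hQ _ _ h.2 ((hT1 a).1 ha).2⟩, h.2⟩⟩
  have hsup : A.comp ψ R p ⊔ T = R := by
    refine Prod.ext ?_ ?_
    · ext b
      simp only [RegA.fst_sup, mem_union, comp, mem_filter, hT1]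
      tauto
    · ext b
      simp only [RegA.snd_sup, mem_union, comp, mem_filter, hT2]
      tauto
  have he := eps_sup_disjoint (hR.comp p) hTp
    (disjoint_left.2 fun q h1 h2 => ((hT1 q).1 h2).2 (mem_filter.1 h1).2)
  rw [hsup] at he
  have hlt : T.1.card < n := hn ▸ card_lt_card
    ⟨hle.1, fun h => ((hT1 p).1 (h hp)).2 (Relation.EqvGen.refl _)⟩
  obtain ⟨i1, i2⟩ := ih _ hlt T rfl hTp (fun q hq => hc q hq ▸ h q (hle.1 hq))
  have hp1 := h p hp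
  by_cases h1 : A.eps ψ (A.comp ψ R p) = 1
  · refine ⟨fun _ => ⟨p, hp, h1⟩, fun h2 => ?_⟩
    obtain ⟨q, hq, hq1⟩ := i1 (by omega)
    exact ⟨p, hp, q, hle.1 hq, ((hT1 q).1 hq).2, h1, hc q hq ▸ hq1⟩
  · refine ⟨fun h2 => ?_, fun h2 => ?_⟩
    · obtain ⟨q, hq, hq1⟩ := i1 (by omega)
      exact ⟨q, hle.1 hq, hc q hq ▸ hq1⟩
    · obtain ⟨q, hq, r, hr, h3, hq1, hr1⟩ := i2 (by omega)
      exact ⟨q, hle.1 hq, r, hle.1 hr, fun h => h3 ((hrl q hq r).2 h), hc q hq ▸ hq1,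
        hc r hr ▸ hr1⟩

theorem exists_comp_eps_one (hR : A.Pre ψ R) (h : ∀ p ∈ R.1, A.eps ψ (A.comp ψ R p) ≤ 1)
    (h1 : 1 ≤ A.eps ψ R) : ∃ p ∈ R.1, A.eps ψ (A.comp ψ R p) = 1 := (RegA.comps _ R rfl hR h).1 h1

theorem exists_two_comps (hR : A.Pre ψ R) (h : ∀ p ∈ R.1, A.eps ψ (A.comp ψ R p) ≤ 1)
    (h2 : 2 ≤ A.eps ψ R) : ∃ p ∈ R.1, ∃ q ∈ R.1, ¬ A.RL ψ R p q ∧
      A.eps ψ (A.comp ψ R p) = 1 ∧ A.eps ψ (A.comp ψ R q) = 1 := (RegA.comps _ R rfl hR h).2 h2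

/-- Every point of a subregion `S` of a connected region `R` with fewer ports is linked in `S`
to an end of a step of `R` that is not a step of `S`. -/
theorem comp_touch (hR : A.Pre ψ R) (hc : A.RConn ψ R) (hS : A.Pre ψ S) (hle : S ≤ R)
    (hne : S.1 ≠ R.1) {p : P} (hp : p ∈ S.1) :
    ∃ q ∈ R.2, q ∉ S.2 ∧ (A.RL ψ S p q ∨ A.RL ψ S p (ψ q)) := by
  by_contra hcon
  push Not at hcon
  have step : ∀ a b, A.RL ψ S a b → (A.RL ψ S p a ↔ A.RL ψ S p b) := fun a b h =>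
    ⟨fun h' => Relation.EqvGen.trans _ _ _ h' h,
      fun h' => Relation.EqvGen.trans _ _ _ h' (Relation.EqvGen.symm _ _ h)⟩
  have key : ∀ a b, A.RL ψ R a b → (A.RL ψ S p a ↔ A.RL ψ S p b) := by
    intro a b h
    induction h with
    | rel a b h =>
      rcases h with ⟨h, rfl⟩ | ⟨h, rfl⟩
      · by_cases ha : a ∈ S.1
        · exact step _ _ (RegA.rl_pi ha)
        · exact ⟨fun h' => absurd ((RL.mem hS h').1 hp) ha,
            fun h' => absurd ((hS.mem_iff a).1 ((RL.mem hS h').1 hp)) ha⟩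
      · by_cases ha : a ∈ S.2
        · exact step _ _ (RegA.rl_psi ha)
        · exact ⟨fun h' => absurd h' (hcon a h ha).1, fun h' => absurd h' (hcon a h ha).2⟩
    | refl => rfl
    | symm a b _ ih => exact ih.symm
    | trans a b c _ _ ih1 ih2 => exact ih1.trans ih2
  exact hne (Subset.antisymm hle.1 fun r hr => (RL.mem hS
    ((key p r (hc.2 p (hle.1 hp) r hr)).1 (Relation.EqvGen.refl _))).1 hp)

theorem bd_pos_of_le (hR : A.Pre ψ R) (hc : A.RConn ψ R) (h1 : 1 ≤ bd R) (hS : A.Pre ψ S)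
    (hle : S ≤ R) (hne : S.1.Nonempty) : 1 ≤ bd S := by
  by_contra h0
  have hs : S.1 ⊆ S.2 := sdiff_eq_empty_iff_subset.1 (card_eq_zero.1 (by unfold bd at h0; omega))
  obtain ⟨p, hp⟩ := hne
  have : R.1 ⊆ R.2 := fun q hq => hle.2 (hs ((RegA.lnk_closed hS.1
    (fun a ha => hS.2.2 a (hs ha)) (hc.2 p (hle.1 hp) q hq).lnk).1 hp))
  unfold bd at h1
  rw [sdiff_eq_empty_iff_subset.2 this] at h1
  simp at h1

theorem bd_pos_of_conn (hc : A.Conn ψ) (hS : A.Pre ψ S) (hU : S.1 ⊆ A.U) (hne : S.1.Nonempty)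
    {h : P} (hh : h ∈ A.U) (hh' : h ∉ S.1) : 1 ≤ bd S := by
  by_contra h0
  have hs : S.1 ⊆ S.2 := sdiff_eq_empty_iff_subset.1 (card_eq_zero.1 (by unfold bd at h0; omega))
  obtain ⟨p, hp⟩ := hne
  exact hh' ((RegA.lnk_closed hS.1 (fun a ha => hS.2.2 a (hs ha)) (hc p (hU hp) h hh)).1 hp)

/-- Removing one internal step. -/
theorem eps_erase (V : Finset P) {I : Finset P} {p : P} (hp : p ∈ I) :
    A.eps ψ (V, I.erase p) + (if orb ψ p ⊆ I then 1 else 0) +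
      (if orb (A.π * ψ) p ⊆ I then 1 else 0) = A.eps ψ (V, I) + 1 := by
  have h1 := cin_erase ψ (I := I) p
  have h2 := cin_erase (A.π * ψ) (I := I) p
  have h3 := card_erase_add_one hp
  simp only [eps]
  split_ifs at h1 h2 ⊢ <;> omega

/-- Removing one dart. -/
theorem eps_dart (hA : A.OK) {V : Finset P} (I : Finset P) {p : P} (hp : p ∈ A.dt) (hpV : p ∈ V)
    (hpV' : A.π p ∈ V) : A.eps ψ (V \ A.dv {p}, I) + 1 = A.eps ψ (V, I) := by
  have h0 := (hA.2.2 p hp).2.1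
  have ho : orb A.π p ⊆ V := by
    refine (orb_subset_of_closed (I := {p, A.π p}) (by simp) fun q hq => ?_).trans ?_
    · rcases mem_insert.1 hq with rfl | hq
      · simp
      · rw [mem_singleton.1 hq, h0]; simp
    · exact insert_subset hpV (singleton_subset_iff.2 hpV')
  have h1 := cin_erase A.π (I := V) p
  have h2 := cin_erase A.π (I := V.erase p) (A.π p)
  rw [if_pos ho] at h1
  rw [if_neg (fun h => by
    rw [orb_apply] at h
    exact notMem_erase p V (h (self_mem_orb _ _)))] at h2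
  have e : V \ A.dv {p} = (V.erase p).erase (A.π p) := by
    ext q
    simp only [dv, image_singleton, mem_sdiff, mem_union, mem_singleton, mem_erase]
    tauto
  simp only [eps, e]
  omega

theorem mem_dv {s : Finset P} {p : P} : p ∈ A.dv s ↔ p ∈ s ∨ ∃ q ∈ s, A.π q = p := by
  simp [dv]

theorem exists_atom_le (h : A.Div ψ R) : ∃ S, A.Atom ψ S ∧ S ≤ R := by
  obtain ⟨S, hS, hmin⟩ := (wellFounded_lt (α := Rg P)).has_min {S | A.Div ψ S ∧ S ≤ R}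
    ⟨R, h, le_rfl⟩
  exact ⟨S, ⟨hS.1, fun T hT hle => by
    by_contra hne
    exact hmin T ⟨hT, hle.trans hS.2⟩ (lt_of_le_of_ne hle hne)⟩, hS.2⟩

theorem good_iff : A.Good ψ ↔ A.atoms ψ = ∅ := by
  rw [eq_empty_iff_forall_notMem]
  refine ⟨fun h R hR => h R (mem_filter.1 hR).2.1, fun h R hR => ?_⟩
  obtain ⟨S, hS, -⟩ := exists_atom_le hR
  exact h S (mem_filter.2 ⟨mem_univ _, hS⟩)

theorem dom_atoms_iff : Dom (A.atoms ψ) R ↔ ∀ S, A.Div ψ S → Ov S R := by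
  refine ⟨fun h S hS => ?_, fun h S hS => h S (mem_filter.1 hS).2.1⟩
  obtain ⟨T, hT, hle⟩ := exists_atom_le hS
  exact fun hd => h T (mem_filter.2 ⟨mem_univ _, hT⟩) (hd.mono_left hle.1)

theorem cpl_pre (hR : A.Pre ψ R) : A.Pre ψ (cpl ψ R) :=
  ⟨fun p hp => mem_compl.2 fun h => mem_compl.1 hp ((hR.mem_iff p).1 h), filter_subset _ _,
    fun _ hp => mem_compl.2 (mem_filter.1 hp).2⟩

theorem cpl_reg (hv : A.Valid ψ) (hU : A.U = univ) (hR : A.Pre ψ R) (hd : R.1ᶜ ⊆ A.dt) :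
    A.Reg ψ (cpl ψ R) :=
  ⟨cpl_pre hR, hd, fun p hp ht =>
    ⟨mem_filter.2 ⟨mem_compl.2 (mem_filter.1 hp).2, by
      rw [(hv.1 p).2 ht]; exact mem_compl.1 (mem_filter.1 hp).1⟩,
      hv.2.2 p (hU ▸ mem_univ p) ht⟩⟩

theorem le_cpl (hS : A.Pre ψ S) (hd : Disjoint S.1 R.1) : S ≤ cpl ψ R :=
  ⟨fun _ hp => mem_compl.2 (disjoint_left.1 hd hp), fun p hp => mem_filter.2
    ⟨mem_compl.2 (disjoint_left.1 hd (hS.2.1 hp)), disjoint_left.1 hd (hS.2.2 p hp)⟩⟩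

theorem le_cpl_cpl (hR : A.Pre ψ R) : R ≤ cpl ψ (cpl ψ R) := le_cpl hR disjoint_compl_right

/-- As many steps leave a set as enter it. -/
theorem bd_cpl (hR : A.Pre ψ R) :
    bd (cpl ψ R) + ((R.1 \ R.2).filter fun p => ψ p ∈ R.1).card = bd R := by
  have h1 := RegA.in_out ψ R.1
  have h2 := card_filter_add_card_filter_not (s := R.1 \ R.2) (fun p => ψ p ∈ R.1)
  have e1 : (cpl ψ R).1 \ (cpl ψ R).2 = univ.filter fun p => p ∉ R.1 ∧ ψ p ∈ R.1 := by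
    ext p
    simp only [cpl, mem_sdiff, mem_compl, mem_filter, mem_univ, true_and]
    tauto
  have e2 : (R.1 \ R.2).filter (fun p => ¬ ψ p ∈ R.1) =
      univ.filter fun p => p ∈ R.1 ∧ ψ p ∉ R.1 := by
    ext p
    have := hR.2.2 p
    simp only [mem_sdiff, mem_filter, mem_univ, true_and]
    tauto
  unfold bd
  rw [e1]
  rw [e2] at h2
  omega

/-- Posimodularity of the boundary size. -/
theorem bd_posimod (hR : A.Pre ψ R) (hS : A.Pre ψ S) :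
    bd (R ⊓ cpl ψ S) + bd (S ⊓ cpl ψ R) ≤ bd R + bd S := by
  have h1 := RegA.in_out ψ (R.1 ∩ S.1)
  have h2 := card_filter_add_card_filter_not (s := R.1 \ R.2) (fun p => p ∈ S.1)
  have h3 := card_filter_add_card_filter_not (s := S.1 \ S.2) (fun p => p ∈ R.1)
  have h4 := card_filter_add_card_filter_not
    (s := univ.filter fun p => p ∉ R.1 ∩ S.1 ∧ ψ p ∈ R.1 ∩ S.1) (fun p => p ∈ R.1)
  have k1 : (R ⊓ cpl ψ S).1 \ (R ⊓ cpl ψ S).2 ⊆ (R.1 \ R.2).filter (fun p => ¬ p ∈ S.1) ∪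
      (univ.filter fun p => p ∉ R.1 ∩ S.1 ∧ ψ p ∈ R.1 ∩ S.1).filter (fun p => p ∈ R.1) := by
    intro p
    have := hR.2.2 p
    simp only [RegA.fst_inf, RegA.snd_inf, cpl, mem_sdiff, mem_compl, mem_filter, mem_univ,
      true_and, mem_inter, mem_union]
    tauto
  have k2 : (S ⊓ cpl ψ R).1 \ (S ⊓ cpl ψ R).2 ⊆ (S.1 \ S.2).filter (fun p => ¬ p ∈ R.1) ∪
      (univ.filter fun p => p ∉ R.1 ∩ S.1 ∧ ψ p ∈ R.1 ∩ S.1).filter (fun p => ¬ p ∈ R.1) := by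
    intro p
    have := hS.2.2 p
    simp only [RegA.fst_inf, RegA.snd_inf, cpl, mem_sdiff, mem_compl, mem_filter, mem_univ,
      true_and, mem_inter, mem_union]
    tauto
  have k3 : (univ.filter fun p => p ∈ R.1 ∩ S.1 ∧ ψ p ∉ R.1 ∩ S.1) ⊆
      (R.1 \ R.2).filter (fun p => p ∈ S.1) ∪ (S.1 \ S.2).filter (fun p => p ∈ R.1) := by
    intro p
    have := hR.2.2 p
    have := hS.2.2 p
    simp only [mem_sdiff, mem_filter, mem_univ, true_and, mem_inter, mem_union]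
    tauto
  have c1 := (card_le_card k1).trans (card_union_le _ _)
  have c2 := (card_le_card k2).trans (card_union_le _ _)
  have c3 := (card_le_card k3).trans (card_union_le _ _)
  unfold bd
  omega

end Amb

end Pool.Agent.P.MP_48bde8_co
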