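import Pool.Agent.P.MP_48bde8_co.Grp
import Pool.Agent.P.MP_48bde8_co.Merge
import Pool.Agent.P.MP_48bde8_co.Cross

/-! Task SDART: the terms of the loop equations in which the root step ends on a dart. -/

namespace Pool.Agent.P.MP_48bde8_co

open Equiv Finset PowerSeries
open scoped Classical

variable {P : Type} [Fintype P] {K : Type} [CommRing K] (x z : K)

namespace SDartAux

open Amb

variable {A : Amb P}

theorem atom_pre {ψ : Perm P} {S : Rg P} (hS : S ∈ A.atoms ψ) : A.Pre ψ S ∧ S.1 ⊆ A.dt :=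
  ⟨(mem_filter.1 hS).2.1.1.1.1, (mem_filter.1 hS).2.1.1.1.2.1⟩

theorem co0 (hA : A.OK) {ψ : Perm P} (hψ : A.Dgm ψ) {p : P} (hp : p ∈ A.U \ A.dt) (R : Rg P) :
    A.co ψ 0 R = clF (A.atoms ψ) R := by
  rw [mem_sdiff] at hp
  by_cases h : p ∈ R.1
  · have h1 : A.co ψ 0 R = 0 := by
      by_contra h1
      exact hp.2 ((contr_co_ne h1).1.2.1 h)
    have h2 : clF (A.atoms ψ) R = 0 := by
      by_contra h2
      obtain ⟨C, hC, -, rfl⟩ := exists_of_clF_ne h2
      obtain ⟨S, hS, hpS⟩ := mem_sup_fst.1 h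
      exact hp.2 ((atom_pre (hC hS)).2 hpS)
    rw [h1, h2]
  · exact co_zero hA hψ.1.1 hψ.2.1 hp.1 h

theorem co1 (hA : A.OK) (ψ : Perm P) {q : P} (hq : q ∈ A.dt) (R : Rg P) :
    (if Dom (A.atoms ψ) R ∧ q ∈ R.1 then A.co ψ 1 R else 0) =
      if R = A.rT q then (if ∀ S ∈ A.atoms ψ, q ∈ S.1 then 1 else 0) else 0 := by
  by_cases h : R = A.rT q
  · subst h
    obtain ⟨h1, h2, -⟩ := rT_spec hA ψ hq
    have hq' : q ∈ (A.rT q).1 := mem_dv.2 (Or.inl (mem_singleton_self q))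
    have h3 : A.co ψ 1 (A.rT q) = 1 := by
      rw [co, if_pos ⟨h1, by omega⟩]
      simp [rT]
    have h4 : Dom (A.atoms ψ) (A.rT q) ↔ ∀ S ∈ A.atoms ψ, q ∈ S.1 := by
      refine forall₂_congr fun S hS => ⟨fun h => ?_, fun h => Clus.ov_of_mem h hq'⟩
      obtain ⟨r, hr, hr'⟩ := not_disjoint_iff.1 h
      rcases mem_dv.1 hr' with h' | ⟨s, hs, rfl⟩
      · rwa [mem_singleton.1 h'] at hr
      · rw [mem_singleton.1 hs] at hr
        exact ((atom_pre hS).1.mem_iff q).1 hr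
    rw [if_pos rfl, h3]
    exact if_congr (by rw [h4]; exact and_iff_left hq') rfl rfl
  · rw [if_neg h]
    split_ifs with h1
    · by_contra h2
      have h3 := contr_co_ne h2
      refine h (eq_rT hA h3 ?_ h1.2)
      by_contra h4
      apply h2
      simp [co, h4]
    · rfl

end SDartAux

namespace Amb

variable {A : Amb P}

/-- The cluster expansion at a dart port. -/
theorem good_expand (hA : A.OK) {ψ : Perm P} (hψ : A.Dgm ψ) {p q : P} (hp : p ∈ A.U \ A.dt)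
    (hq : q ∈ A.dt) : (if A.Good ψ then 1 else 0 : ℤ) =
      ∑ R : Rg P, if Dom (A.atoms ψ) R ∧ q ∈ R.1 then A.co ψ 0 R + A.co ψ 1 R else 0 := by
  have h1 : ∀ R : Rg P, (if Dom (A.atoms ψ) R ∧ q ∈ R.1 then A.co ψ 0 R + A.co ψ 1 R else 0) =
      (if R = A.rT q then (if ∀ S ∈ A.atoms ψ, q ∈ S.1 then 1 else 0) else 0) +
        if q ∈ R.1 then (if Dom (A.atoms ψ) R then clF (A.atoms ψ) R else 0) else 0 := by
    intro R
    rw [← SDartAux.co1 hA ψ hq R, SDartAux.co0 hA hψ hp R]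
    by_cases h : Dom (A.atoms ψ) R <;> by_cases h' : q ∈ R.1 <;> simp [h, h', add_comm]
  rw [sum_congr rfl fun R _ => h1 R, sum_add_distrib, sum_ite_eq', if_pos (mem_univ _),
    ← sum_filter, ← cluster_id]
  exact if_congr good_iff rfl rfl

end Amb

namespace SDartAux

open Amb

variable {A : Amb P}

/-- The steps that end on a dart, summed over all regions. -/
theorem expand (hA : A.OK) {p : P} (hp : p ∈ A.U \ A.dt) :
    ∑ q ∈ A.dt, A.Tq x z p q = ∑ k ∈ ({0, 1} : Finset (Fin 3)),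
      ∑ ψ ∈ univ.filter (fun ψ => A.Dgm ψ), ∑ R : Rg P,
        if Dom (A.atoms ψ) R ∧ ψ p ∈ R.1 then A.co ψ k R • A.wt ψ x z A.U else 0 := by
  rw [sum_comm]
  unfold Tq
  rw [sum_fiberwise_eq_sum_filter A.TS A.dt (fun ψ : Perm P => ψ p), TS, filter_filter,
    show (univ.filter fun ψ : Perm P => (A.Dgm ψ ∧ A.Good ψ) ∧ ψ p ∈ A.dt) =
      (univ.filter fun ψ => A.Dgm ψ).filter (fun ψ => A.Good ψ ∧ ψ p ∈ A.dt) by
      ext ψ; simp [and_assoc], sum_filter]
  refine sum_congr rfl fun ψ hψ => ?_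
  have hD : A.Dgm ψ := (mem_filter.1 hψ).2
  rw [sum_pair (by decide), ← sum_add_distrib]
  by_cases hq : ψ p ∈ A.dt
  · have h := congrArg (· • A.wt ψ x z A.U) (good_expand hA hD hp hq)
    simp only [sum_smul] at h
    refine Eq.trans ?_ (h.trans (sum_congr rfl fun R _ => ?_))
    · by_cases hG : A.Good ψ <;> simp [hG, hq]
    · split_ifs
      · rw [add_smul]
      · simp
  · rw [if_neg fun h => hq h.2]
    refine (sum_eq_zero fun R _ => ?_).symm
    have h : ∀ k, ψ p ∈ R.1 → A.co ψ k R = 0 := fun k h => by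
      by_contra h1
      exact hq ((contr_co_ne h1).1.2.1 h)
    split_ifs with h1
    · simp [h _ h1.2]
    · simp

/-- Contraction of the region. -/
theorem contract (hA : A.OK) (p : P) (k : Fin 3) :
    (∑ ψ ∈ univ.filter (fun ψ => A.Dgm ψ), ∑ R : Rg P,
        if Dom (A.atoms ψ) R ∧ ψ p ∈ R.1 then A.co ψ k R • A.wt ψ x z A.U else 0) =
      ∑ V ∈ A.dt.powerset.filter (fun V => ∀ p ∈ V, A.π p ∈ V),
        ∑ s ∈ A.CF V, A.co s.1 k (V, s.2) • (A.wt s.1 x z s.2 *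
          ∑ g ∈ (A.red s.1 V s.2).TS.filter (fun g => (s.1 * g) p ∈ V),
            (A.red s.1 V s.2).wt g x z (A.red s.1 V s.2).U) := by
  have h1 : ∀ ψ : Perm P, (∑ R : Rg P,
      if Dom (A.atoms ψ) R ∧ ψ p ∈ R.1 then A.co ψ k R • A.wt ψ x z A.U else 0) =
      ∑ V ∈ A.dt.powerset.filter (fun V => ∀ p ∈ V, A.π p ∈ V), ∑ I ∈ V.powerset,
        if Dom (A.atoms ψ) (V, I) ∧ ψ p ∈ V then A.co ψ k (V, I) • A.wt ψ x z A.U else 0 := by
    intro ψ
    have := sum_regions (A := A) k ψ (D := A.dt) (fun R => Dom (A.atoms ψ) R ∧ ψ p ∈ R.1)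
      (A.wt ψ x z A.U) fun R hR _ => hR.2.1
    convert this
  rw [sum_congr rfl fun ψ _ => h1 ψ, sum_comm]
  refine sum_congr rfl fun V _ => ?_
  have := con_sum x z hA k V (fun _ ψ => ψ p ∈ V)
  convert this

theorem inner {p : P} (hp : p ∈ A.U \ A.dt) {ρ : Perm P} {V I : Finset P} (hV : V ⊆ A.dt)
    (hc : (ρ, I) ∈ A.CF V) :
    ∑ g ∈ (A.red ρ V I).TS.filter (fun g => (ρ * g) p ∈ V),
        (A.red ρ V I).wt g x z (A.red ρ V I).U = ∑ e ∈ V \ I, (A.red ρ V I).Tq x z p e := by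
  obtain ⟨-, h1, -, h2⟩ := contr_cf hc
  unfold Tq
  rw [sum_fiberwise_eq_sum_filter _ (V \ I) (fun ψ : Perm P => ψ p)]
  refine sum_congr (filter_congr fun g hg => ?_) fun _ _ => rfl
  have hv : (A.red ρ V I).Valid g := (mem_filter.1 hg).2.1.1
  rw [mem_sdiff] at hp
  have h3 : g p ∈ A.U \ I := Merge.valid_mem hv (mem_sdiff.2 ⟨hp.1, fun h => hp.2 (hV (h2 h))⟩)
  rw [Perm.mul_apply, mem_sdiff]
  refine ⟨fun h => ⟨?_, (mem_sdiff.1 h3).2⟩, fun h => contr_mem' h1 h.1⟩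
  by_contra h4
  exact h4 (h1 _ h4 ▸ h)

variable [Algebra ℚ K]

/-- The series attached to a boundary word. -/
noncomputable def F (c : Bool) (W w : List Bool) : List Bool → PowerSeries K
  | [] => 0
  | d :: s => if d = c then tau2 x z ((if c then [] else [false]) ++ W ++ s) w else 0

theorem value {p : P} {l l₃ : List P} (h : A.LA (p :: l) l₃) {n : ℕ} (hn : A.dt.card = 2 * n)
    {ρ : Perm P} {V I : Finset P} (hc : (ρ, I) ∈ A.CF V) (hD : A.Disc ρ (V, I)) {e : P}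
    (he : e ∈ V \ I) : (A.red ρ V I).Tq x z p e = ((n - V.card / 2).factorial : K) *
      coeff (n - V.card / 2)
        (F x z (A.ty p) (l.map A.ty) (l₃.map A.ty) ((A.blist ρ (V, I) e).map A.ty)) := by
  obtain ⟨hA, c1, c3, d13, hU⟩ := h
  obtain ⟨k1, k2, ⟨m, hm⟩, k4, k5⟩ := con_ports hA hc hD he
  obtain ⟨k6, k7⟩ := con_cyc hA hc hD
  obtain ⟨j, hj, -⟩ := exists_emb_darts hA (V := V) hD.1.2.1 hD.1.1.1
  have hn' : (A.red ρ V I).dt.card = 2 * (n - V.card / 2) := by omega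
  have k8 := k7 e he
  rw [hm] at k4 k5 k8 ⊢
  have o1 : ∀ r ∈ p :: l, r ∉ A.dt := fun r hr => ((hU r).2 (Or.inl hr)).2
  have o3 : ∀ r ∈ l₃, r ∉ A.dt := fun r hr => ((hU r).2 (Or.inr hr)).2
  have h3 : (A.red ρ V I).LA3 (p :: l) (e :: m) l₃ :=
    ⟨k1, k6 _ c1 o1, k8, k6 _ c3 o3, fun r hr hr' => o1 r hr (k4 r hr'), d13,
      fun r hr hr' => o3 r hr' (k4 r hr), fun r => by rw [k5, hU]; tauto⟩
  rw [List.map_cons, F]
  by_cases ht : A.ty e = A.ty p
  · rw [if_pos ht]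
    cases tp : A.ty p
    · exact mergeB x z h3 tp (ht.trans tp) hn'
    · exact mergeA x z h3 tp (ht.trans tp) hn'
  · rw [if_neg ht, map_zero, mul_zero]
    exact Tq_of_ty_ne x z (Ne.symm ht)

theorem one_k {p : P} {l l₃ : List P} (h : A.LA (p :: l) l₃) {n : ℕ} (hn : A.dt.card = 2 * n)
    (k : Fin 3) :
    (∑ ψ ∈ univ.filter (fun ψ => A.Dgm ψ), ∑ R : Rg P,
        if Dom (A.atoms ψ) R ∧ ψ p ∈ R.1 then A.co ψ k R • A.wt ψ x z A.U else 0) =
      (words.map fun u => (n.factorial : K) *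
        coeff n (gen x z k u * F x z (A.ty p) (l.map A.ty) (l₃.map A.ty) u)).sum := by
  have hp : p ∈ A.U \ A.dt := mem_sdiff.2 ((h.2.2.2.2 p).2 (Or.inl (List.mem_cons_self ..)))
  have hA := h.1
  rw [contract x z hA p k]
  have h1 := conv_sum x z hA subset_rfl (fun q hq => (hA.2.2 q hq).1) hn k
    fun u j => ((n - j).factorial : K) *
      coeff (n - j) (F x z (A.ty p) (l.map A.ty) (l₃.map A.ty) u)
  refine Eq.trans (sum_congr rfl fun V hV => ?_) (h1.trans ?_)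
  · rw [← G_group]
    refine sum_congr rfl fun s hs => ?_
    by_cases h0 : A.co s.1 k (V, s.2) = 0
    · rw [h0, zero_smul, zero_smul]
    · rw [inner x z hp (mem_powerset.1 (mem_filter.1 hV).1) hs]
      rw [sum_congr rfl fun e he => value x z h hn hs (contr_co_ne h0) he]
  · refine congrArg List.sum (List.map_congr_left fun u _ => ?_)
    rw [coeff_mul, Nat.sum_antidiagonal_eq_sum_range_succ
      (fun i j => coeff i (gen x z k u) * coeff j (F x z (A.ty p) (l.map A.ty) (l₃.map A.ty) u)),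
      mul_sum]
    refine sum_congr rfl fun j hj => ?_
    rw [← Nat.choose_mul_factorial_mul_factorial (Nat.lt_succ_iff.1 (mem_range.1 hj))]
    push_cast
    ring

end SDartAux

namespace Amb

variable {A : Amb P}

variable [Algebra ℚ K]

theorem dart_sum {p : P} {l l₃ : List P} (h : A.LA (p :: l) l₃) {n : ℕ}
    (hn : A.dt.card = 2 * n) :
    ∑ q ∈ A.dt, A.Tq x z p q = (n.factorial : K) * coeff n
      (tails.map fun s => gam x z (A.ty p :: s) *
        tau2 x z ((if A.ty p then [] else [false]) ++ l.map A.ty ++ s) (l₃.map A.ty)).sum := by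
  have hp : p ∈ A.U \ A.dt := mem_sdiff.2 ((h.2.2.2.2 p).2 (Or.inl (List.mem_cons_self ..)))
  rw [SDartAux.expand x z h.1 hp, sum_pair (by decide), SDartAux.one_k x z h hn,
    SDartAux.one_k x z h hn]
  cases A.ty p <;> simp [words, tails, SDartAux.F, gam, add_mul] <;> ring

end Amb

end Pool.Agent.P.MP_48bde8_co
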