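import Pool.Agent.P.MP_48bde8_co.Merge
import Pool.Agent.P.MP_48bde8_co.Prod

/-! Task SPLIT: surgeries inside one outer cycle. -/

namespace Pool.Agent.P.MP_48bde8_co

open Equiv Finset PowerSeries
open scoped Classical

variable {P : Type} [Fintype P] {K : Type} [CommRing K] [Algebra ℚ K] (x z : K)

/-- The contribution of a split. -/
noncomputable def spl (w₁ w₂ u : List Bool) : PowerSeries K :=
  if u = [] then tau x z w₁ * tau x z w₂
  else tau x z w₁ * tau2 x z w₂ u + tau2 x z w₁ u * tau x z w₂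

namespace Split

/-- The data common to both surgeries. -/
structure Ctx (A : Amb P) (p q : P) (L : List P) (I : Finset P) (l₁ l₂ l₃ : List P) : Prop where
  ok : A.OK
  hL : IsCyc A.π L
  pL : p ∈ L
  qL : q ∈ L
  ne : p ≠ q
  sub : I ⊆ {p, q}
  sk : skip (swap p q) I = 1
  wv : A.WV (swap p q)
  ai : ∀ a, A.ty a = true →
    (a ∈ I → swap p q a ∈ I ∧ swap p q a ≠ a) ∧ (a ∉ I → swap p q a = a)
  cr : cin (swap p q) I + 1 = I.card
  c1 : IsCyc (skip (A.π * swap p q) I) l₁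
  c2 : IsCyc (skip (A.π * swap p q) I) l₂
  c3 : IsCyc (skip (A.π * swap p q) I) l₃
  mem : ∀ r, (r ∈ L ∧ r ∉ I) ↔ (r ∈ l₁ ∨ r ∈ l₂)
  d12 : l₁.Disjoint l₂
  dL3 : L.Disjoint l₃
  out : ∀ r, (r ∈ A.U ∧ r ∉ A.dt) ↔ (r ∈ L ∨ r ∈ l₃)

variable {A : Amb P} {p q : P} {L : List P} {I : Finset P} {l₁ l₂ l₃ : List P}

theorem cyc_iff {f : Perm P} {l : List P} (h : IsCyc f l) {a : P} (ha : a ∈ l) (u : P) :
    f.SameCycle a u ↔ u ∈ l := by
  rw [← mem_orb, h.orb_eq ha, List.mem_toFinset]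

theorem lnk_equiv (f g : Perm P) : Equivalence (Lnk f g) := Relation.EqvGen.is_equivalence _

namespace Ctx

theorem symm (c : Ctx A p q L I l₁ l₂ l₃) : Ctx A p q L I l₂ l₁ l₃ :=
  ⟨c.ok, c.hL, c.pL, c.qL, c.ne, c.sub, c.sk, c.wv, c.ai, c.cr, c.c2, c.c1, c.c3,
    fun r => (c.mem r).trans or_comm, c.d12.symm, c.dL3, c.out⟩

theorem IL (c : Ctx A p q L I l₁ l₂ l₃) {r : P} (hr : r ∈ I) : r ∈ L := by
  rcases mem_insert.1 (c.sub hr) with rfl | h
  · exact c.pL
  · rw [mem_singleton.1 h]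
    exact c.qL

theorem IU (c : Ctx A p q L I l₁ l₂ l₃) : I ⊆ A.U := fun r hr => ((c.out r).2 (.inl (c.IL hr))).1

theorem fix (c : Ctx A p q L I l₁ l₂ l₃) {r : P} (hr : r ∉ L) : swap p q r = r :=
  swap_apply_of_ne_of_ne (fun e => hr (e ▸ c.pL)) fun e => hr (e ▸ c.qL)

theorem fixU (c : Ctx A p q L I l₁ l₂ l₃) (r : P) (hr : r ∉ A.U) : swap p q r = r :=
  c.fix fun h => hr ((c.out r).2 (.inl h)).1

theorem rhoU (c : Ctx A p q L I l₁ l₂ l₃) : ∀ r ∈ A.U, swap p q r ∈ A.U := fun r hr => by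
  rw [swap_apply_def]
  split_ifs
  · exact ((c.out q).2 (.inl c.qL)).1
  · exact ((c.out p).2 (.inl c.pL)).1
  · exact hr

theorem red_ok (c : Ctx A p q L I l₁ l₂ l₃) : (A.red (swap p q) ∅ I).OK :=
  Amb.red_ok c.ok (by simp) c.rhoU
    (fun r hr => c.fix fun h => ((c.out r).2 (.inl h)).2 (mem_sdiff.1 hr).1)
    (disjoint_left.2 fun r hr hd => ((c.out r).2 (.inl (c.IL hr))).2 (mem_sdiff.1 hd).1)

theorem out' (c : Ctx A p q L I l₁ l₂ l₃) (r : P) :
    (r ∈ (A.red (swap p q) ∅ I).U ∧ r ∉ (A.red (swap p q) ∅ I).dt) ↔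
      (r ∈ l₁ ∨ r ∈ l₂ ∨ r ∈ l₃) := by
  have h1 := c.out r
  have h2 := c.mem r
  have h3 : r ∈ l₃ → r ∉ I := fun h h' => c.dL3 (c.IL h') h
  simp only [Amb.red, mem_sdiff, sdiff_empty]
  tauto

theorem d3 (c : Ctx A p q L I l₁ l₂ l₃) : l₁.Disjoint l₃ := fun r h h' =>
  c.dL3 ((c.mem r).2 (.inl h)).1 h'

theorem link (c : Ctx A p q L I l₁ l₂ l₃) {u v : P} (hu : u ∉ I) (hv : v ∉ I)
    (h : Lnk A.π (swap p q) u v) : (A.π * swap p q).SameCycle u v ∨
      ((u ∈ l₁ ∨ u ∈ l₂) ∧ (v ∈ l₁ ∨ v ∈ l₂)) := by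
  have hp : ∀ w, A.π.SameCycle w p ↔ w ∈ L := fun w => by
    rw [← cyc_iff c.hL c.pL w, Perm.sameCycle_comm]
  have hq : ∀ w, A.π.SameCycle w q ↔ w ∈ L := fun w => by
    rw [← cyc_iff c.hL c.qL w, Perm.sameCycle_comm]
  rcases lnk_swap h with h1 | h1
  · by_cases huL : u ∈ L
    · exact .inr ⟨(c.mem u).1 ⟨huL, hu⟩, (c.mem v).1 ⟨(cyc_iff c.hL huL v).1 h1, hv⟩⟩
    · exact .inl (sameCycle_mul_swap h1 (fun h' => huL ((hp u).1 h')) fun h' => huL ((hq u).1 h'))
  · simp only [hp, hq, or_self] at h1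
    exact .inr ⟨(c.mem u).1 ⟨h1.1, hu⟩, (c.mem v).1 ⟨h1.2, hv⟩⟩

theorem cnt (c : Ctx A p q L I l₁ l₂ l₃) : cin (A.π * swap p q) A.U = cin A.π A.U + 1 :=
  cin_mul_swap_of_sameCycle c.ne ((cyc_iff c.hL c.pL q).2 c.qL) c.ok.1
    ((c.out p).2 (.inl c.pL)).1

theorem fixI {g : Perm P} (h : (A.red (swap p q) ∅ I).Valid g) : ∀ r ∈ I, g r = r :=
  fun r hr => h.2.1 r fun h' => (mem_sdiff.1 h').2 hr

theorem dgm_two (c : Ctx A p q L I l₁ l₂ l₃) (h0 : cin (A.π * swap p q) I = 0) {a b : P}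
    (ha : a ∈ l₁) (hb : b ∈ l₂) {g : Perm P} (hg : ∀ r ∈ I, g r = r) :
    A.Dgm (swap p q * g) ↔ (A.red (swap p q) ∅ I).Valid g ∧ (A.red (swap p q) ∅ I).Two g a b := by
  unfold Amb.Dgm Amb.Two
  rw [Amb.red_valid c.IU c.fixU c.wv c.ai hg ∅]
  refine and_congr_right fun hv => and_congr ?_ ?_
  · have haI := (c.mem a).2 (.inl ha)
    have hbI := (c.mem b).2 (.inr hb)
    have e := lnk_equiv (skip (A.π * swap p q) I) g
    constructor
    · intro hc r hr
      obtain ⟨hrU, hrI⟩ := mem_sdiff.1 hr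
      have key := lnk_reduce (π := A.π) (ρ := swap p q) hg
        (E := fun u v => Lnk (skip (A.π * swap p q) I) g u v ∨
          ((Lnk (skip (A.π * swap p q) I) g u a ∨ Lnk (skip (A.π * swap p q) I) g u b) ∧
            (Lnk (skip (A.π * swap p q) I) g v a ∨ Lnk (skip (A.π * swap p q) I) g v b)))
        ⟨fun u => .inl (e.refl u), fun h => h.imp e.symm And.symm, ?_⟩
        (fun u _ => .inl (.rel _ _ (.inr rfl))) (fun u v hu hv hl => ?_) hrI haI.2
        (hc r hrU a ((c.out a).2 (.inl haI.1)).1)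
      · exact key.elim .inl And.left
      · rintro u v w (h1 | h1) (h2 | h2)
        · exact .inl (e.trans h1 h2)
        · exact .inr ⟨h2.1.imp (e.trans h1) (e.trans h1), h2.2⟩
        · exact .inr ⟨h1.1, h1.2.imp (e.trans (e.symm h2)) (e.trans (e.symm h2))⟩
        · exact .inr ⟨h1.1, h2.2⟩
      · have k : ∀ w, w ∈ l₁ ∨ w ∈ l₂ → Lnk (skip (A.π * swap p q) I) g w a ∨
            Lnk (skip (A.π * swap p q) I) g w b := fun w hw =>
          hw.imp (fun h => Lnk.of_sameCycle_left g ((cyc_iff c.c1 h a).2 ha))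
            fun h => Lnk.of_sameCycle_left g ((cyc_iff c.c2 h b).2 hb)
        rcases c.link hu hv hl with h1 | h1
        · exact .inl (Lnk.of_sameCycle_left g ((skip_sameCycle hu hv).2 h1))
        · exact .inr ⟨k u h1.1, k v h1.2⟩
    · intro hc
      have e' := lnk_equiv A.π (swap p q * g)
      have k0 : ∀ r ∈ L, Lnk A.π (swap p q * g) r p := fun r hr =>
        Lnk.of_sameCycle_left _ ((cyc_iff c.hL hr p).2 c.pL)
      have k : ∀ r ∈ A.U, Lnk A.π (swap p q * g) r p := fun r hr => by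
        by_cases hrI : r ∈ I
        · exact k0 r (c.IL hrI)
        · rcases hc r (mem_sdiff.2 ⟨hr, hrI⟩) with h | h
          · exact e'.trans (lnk_of_skip A.π c.sk hg h) (k0 a haI.1)
          · exact e'.trans (lnk_of_skip A.π c.sk hg h) (k0 b hbI.1)
      exact fun u hu v hv => e'.trans (k u hu) (e'.symm (k v hv))
  · have hgU : ∀ r ∈ A.U, g r ∈ A.U := fun r hr => by
      by_contra h
      have := hv.2.1 (g r) fun h' => h (mem_sdiff.1 h').1
      rw [g.injective this] at h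
      exact h hr
    obtain ⟨-, h1, h2⟩ := Amb.red_wt (0 : ℤ) 0 c.ok c.sk c.rhoU (fun r => (c.wv r).1) c.IU hg hgU
      (fun r => (hv.1 r).1) ∅
    have h3 := cin_skip (A.π * swap p q) I (J := A.U) fun r hr => c.ok.1 _ (c.rhoU r hr)
    rw [inter_eq_right.2 c.IU, h0, c.cnt] at h3
    have h4 := card_sdiff_add_card_eq_card c.IU
    have h5 := c.cr
    unfold Amb.Planar
    rw [h1, h2, h0]
    change _ ↔ cin (skip (A.π * swap p q) I) (A.U \ I) + cin g (A.U \ I) +
      cin ((A.red (swap p q) ∅ I).π * g) (A.U \ I) = (A.U \ I).card + 4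
    omega

theorem sum_two (c : Ctx A p q L I l₁ l₂ l₃) (h0 : cin (A.π * swap p q) I = 0) (h1 : l₁ ≠ [])
    (h2 : l₂ ≠ []) {n : ℕ} (hn : A.dt.card = 2 * n) :
    ∑ g ∈ univ.filter (fun g : Perm P => (∀ r ∈ I, g r = r) ∧ A.Dgm (swap p q * g) ∧
        (A.red (swap p q) ∅ I).Good g), (A.red (swap p q) ∅ I).wt g x z (A.U \ I) =
      (n.factorial : K) * coeff n (spl x z (l₁.map A.ty) (l₂.map A.ty) (l₃.map A.ty)) := by
  obtain ⟨a, ha⟩ := List.exists_mem_of_ne_nil _ h1
  obtain ⟨b, hb⟩ := List.exists_mem_of_ne_nil _ h2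
  have key := Amb.prod_coeff x z c.red_ok c.c1 c.c2 c.c3 c.d12 c.d3 c.symm.d3 c.out' ha hb
    (n := n) (by simpa [Amb.red] using hn)
  have e : spl x z (l₁.map A.ty) (l₂.map A.ty) (l₃.map A.ty) = _ :=
    if_congr List.map_eq_nil_iff rfl rfl
  rw [e]
  refine Eq.trans (sum_congr (filter_congr fun g _ => ?_) fun _ _ => rfl) key
  constructor
  · rintro ⟨hg, hd, hG⟩
    obtain ⟨k1, k2⟩ := (c.dgm_two h0 ha hb hg).1 hd
    exact ⟨k1, k2, hG⟩
  · rintro ⟨k1, k2, hG⟩
    exact ⟨fixI k1, (c.dgm_two h0 ha hb (fixI k1)).2 ⟨k1, k2⟩, hG⟩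

theorem sum_one (c : Ctx A p q L I l₁ [] l₃) (h0 : cin (A.π * swap p q) I = 1) (h1 : l₁ ≠ [])
    {n : ℕ} (hn : A.dt.card = 2 * n) :
    ∑ g ∈ univ.filter (fun g : Perm P => (∀ r ∈ I, g r = r) ∧ A.Dgm (swap p q * g) ∧
        (A.red (swap p q) ∅ I).Good g), (A.red (swap p q) ∅ I).wt g x z (A.U \ I) =
      (n.factorial : K) * coeff n (tau2 x z (l₁.map A.ty) (l₃.map A.ty)) := by
  obtain ⟨a, ha⟩ := List.exists_mem_of_ne_nil _ h1
  have haI := (c.mem a).2 (.inl ha)
  have hd : ∀ g : Perm P, (∀ r ∈ I, g r = r) →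
      (A.Dgm (swap p q * g) ↔ (A.red (swap p q) ∅ I).Dgm g) := fun g hg =>
    Amb.red_dgm c.ok c.sk c.IU c.fixU c.wv c.ai
      (fun r hr => ⟨a, mem_sdiff.2 ⟨((c.out a).2 (.inl haI.1)).1, haI.2⟩,
        Lnk.of_sameCycle_left _ ((cyc_iff c.hL (c.IL hr) a).2 haI.1)⟩)
      (fun u v hu hv hl => by
        rcases c.link hu hv hl with h | h
        · exact h
        · simp only [List.not_mem_nil, or_false] at h
          exact (skip_sameCycle hu hv).1 ((cyc_iff c.c1 h.1 v).2 h.2))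
      (by have := c.cr; rw [h0, c.cnt]; omega) hg ∅
  have key := T_eq x z (A := A.red (swap p q) ∅ I)
    ⟨c.red_ok, c.c1, c.c3, c.d3, fun r => by simpa using c.out' r⟩ h1 (n := n)
    (by simpa [Amb.red] using hn)
  refine Eq.trans (sum_congr (filter_congr fun g _ => ?_) fun _ _ => rfl) key
  constructor
  · rintro ⟨hg, h, hG⟩
    exact ⟨(hd g hg).1 h, hG⟩
  · rintro ⟨h, hG⟩
    exact ⟨fixI h.1, (hd g (fixI h.1)).2 h, hG⟩

end Ctx

theorem spl_right (w u : List Bool) : spl x z w [] u = C z * tau2 x z w u := by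
  unfold spl tau
  split_ifs with h
  · subst h
    simp [tau2, mul_comm]
  · simp [tau2, h, mul_comm]

theorem spl_left (w u : List Bool) : spl x z [] w u = C z * tau2 x z w u := by
  unfold spl tau
  split_ifs with h
  · subst h
    simp [tau2]
  · simp [tau2, h]

theorem wv_swap (h : A.ty p = A.ty q) : A.WV (swap p q) := fun r => by
  refine ⟨?_, fun _ => swap_apply_self _ _ _⟩
  rw [swap_apply_def]
  split_ifs with h1 h2
  · rw [h1, h]
  · rw [h2, h]
  · rfl

theorem cin_single {f : Perm P} {l : List P} (h : IsCyc f (p :: l)) :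
    cin f {p} = if l = [] then 1 else 0 := by
  rw [cin_erase f p, erase_singleton, cin_empty, zero_add, h.orb_eq (List.mem_cons_self ..)]
  refine if_congr ⟨fun hs => ?_, fun e => by simp [e]⟩ rfl rfl
  refine List.eq_nil_iff_forall_not_mem.2 fun r hr => ?_
  have := mem_singleton.1 (hs (List.mem_toFinset.2 (List.mem_cons_of_mem _ hr)))
  exact (List.nodup_cons.1 h.1).1 (this ▸ hr)

theorem cin_pair {f : Perm P} {l l' : List P} (h : IsCyc f (q :: l)) (h' : IsCyc f (p :: l'))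
    (hpq : p ≠ q) (hq : q ∉ l') :
    cin f {p, q} = (if l = [] then 1 else 0) + if l' = [] then 1 else 0 := by
  rw [cin_erase f p, erase_insert (by simpa using hpq), cin_single h,
    h'.orb_eq (List.mem_cons_self ..)]
  congr 1
  refine if_congr ⟨fun hs => ?_, fun e => by simp [e]⟩ rfl rfl
  refine List.eq_nil_iff_forall_not_mem.2 fun r hr => ?_
  rcases mem_insert.1 (hs (List.mem_toFinset.2 (List.mem_cons_of_mem _ hr))) with e | e
  · exact (List.nodup_cons.1 h'.1).1 (e ▸ hr)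
  · exact hq (mem_singleton.1 e ▸ hr)

theorem sum_none (c : Ctx A p q L {p, q} [] [] l₃) (h0 : cin (A.π * swap p q) {p, q} = 2)
    {n : ℕ} (hn : A.dt.card = 2 * n) :
    ∑ g ∈ univ.filter (fun g : Perm P => (∀ r ∈ ({p, q} : Finset P), g r = r) ∧
        A.Dgm (swap p q * g) ∧ (A.red (swap p q) ∅ {p, q}).Good g),
        (A.red (swap p q) ∅ {p, q}).wt g x z (A.U \ {p, q}) =
      if l₃ = [] ∧ n = 0 then 1 else 0 := by
  have hL : ∀ r, r ∈ L ↔ r ∈ ({p, q} : Finset P) := fun r =>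
    ⟨fun h => by_contra fun h' => by simpa using (c.mem r).1 ⟨h, h'⟩, c.IL⟩
  have hπ : ∀ r ∈ ({p, q} : Finset P), A.π r ∈ ({p, q} : Finset P) := fun r hr =>
    (hL _).1 (c.hL.mem ((hL r).2 hr))
  have hρ : ∀ r ∈ ({p, q} : Finset P), swap p q r ∈ ({p, q} : Finset P) := by simp
  split_ifs with h
  · have hdt : A.dt = ∅ := card_eq_zero.1 (by rw [hn, h.2])
    have hU : A.U = {p, q} := by
      ext r
      have := c.out r
      rw [hdt, h.1, hL] at this
      simpa using this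
    rw [sum_eq_single_of_mem 1]
    · rw [hU, sdiff_self]
      simp [Amb.wt, Amb.nv, Amb.nf, cin_empty]
    · refine mem_filter.2 ⟨mem_univ _, fun _ _ => rfl, ⟨?_, ?_, ?_⟩, fun R hR => ?_⟩
      · rw [mul_one]
        exact ⟨c.wv, c.fixU, fun r hr ht => ((c.ai r ht).1 (hU ▸ hr)).2⟩
      · intro u hu v hv
        rw [hU, ← hL] at hu hv
        exact Lnk.of_sameCycle_left _ ((cyc_iff c.hL hu v).2 hv)
      · have h1 := c.cnt
        have h2 := c.cr
        unfold Amb.Planar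
        rw [hU] at h1 ⊢
        rw [mul_one, card_pair c.ne] at *
        omega
      · obtain ⟨r, hr⟩ := hR.1.2.1.1
        have := hR.1.1.2.1 hr
        simp [Amb.red, hdt] at this
    · intro g hg hne
      obtain ⟨-, h1, h2, -⟩ := mem_filter.1 hg
      refine absurd (Equiv.ext fun r => ?_) hne
      by_cases hr : r ∈ A.U
      · exact h1 r (hU ▸ hr)
      · exact (swap p q).injective ((h2.1.2.1 r hr).trans (c.fixU r hr).symm)
  · refine sum_eq_zero fun g hg => absurd ?_ h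
    obtain ⟨-, h1, h2, -⟩ := mem_filter.1 hg
    have hU : ∀ r ∈ A.U, r ∈ L := fun r hr => (hL r).2
      ((Lnk.mem_of_closed hπ (fun s hs => by rw [Perm.mul_apply, h1 s hs]; exact hρ s hs)
        (h2.2.1 p ((c.out p).2 (.inl c.pL)).1 r hr)).1 (mem_insert_self _ _))
    refine ⟨List.eq_nil_iff_forall_not_mem.2 fun r hr =>
      c.dL3 (hU r ((c.out r).2 (.inr hr)).1) hr, ?_⟩
    have : A.dt = ∅ := eq_empty_of_forall_notMem fun r hr =>
      ((c.out r).2 (.inl (hU r (c.ok.2.1 hr)))).2 hr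
    rw [this, card_empty] at hn
    omega

end Split

namespace Amb

variable {A : Amb P} {p q : P} {l l' l₃ : List P} {n : ℕ}

theorem splitA (h : A.LA (p :: (l ++ q :: l')) l₃) (tp : A.ty p = true) (tq : A.ty q = true)
    (hn : A.dt.card = 2 * n) : A.Tq x z p q =
      (n.factorial : K) * coeff n (spl x z (l.map A.ty) (l'.map A.ty) (l₃.map A.ty)) := by
  obtain ⟨hA, hL, h3, hd, ho⟩ := h
  have hnd := hL.1
  simp only [List.nodup_cons, List.nodup_append, List.mem_append, List.mem_cons, not_or] at hnd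
  obtain ⟨⟨hpl, hpq, hpl'⟩, -, ⟨hql', -⟩, hll⟩ := hnd
  have hql : q ∉ l := fun hq => hll q hq q (.inl rfl) rfl
  have hp : p ∈ p :: (l ++ q :: l') := List.mem_cons_self ..
  have hq : q ∈ p :: (l ++ q :: l') := by simp
  have c : Split.Ctx A p q (p :: (l ++ q :: l')) {p, q} l l' l₃ :=
    ⟨hA, hL, hp, hq, hpq, Subset.rfl, skip_swap_pair p q, Split.wv_swap (tp.trans tq.symm),
      fun a _ => ⟨fun ha => by
          rcases mem_insert.1 ha with rfl | ha
          · simp [Ne.symm hpq]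
          · rw [mem_singleton.1 ha]
            simp [hpq],
        fun ha => swap_apply_of_ne_of_ne (fun e => ha (by simp [e])) fun e => ha (by simp [e])⟩,
      by
        have := two_mul_cin (swap p q) (I := {p, q}) (by simp) (by simp)
          (by simp [hpq, Ne.symm hpq])
        rw [card_pair hpq] at this ⊢
        omega,
      (isCyc_splitA hL).1, (isCyc_splitA hL).2,
      isCyc_other h3 (fun h => hd hp h) (fun h => hd hq h) Subset.rfl,
      fun r => by
        simp only [List.mem_cons, List.mem_append, mem_insert, mem_singleton]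
        constructor
        · tauto
        · rintro (hr | hr)
          · exact ⟨by tauto, by rintro (rfl | rfl) <;> contradiction⟩
          · exact ⟨by tauto, by rintro (rfl | rfl) <;> contradiction⟩,
      fun r hr hr' => hll r hr r (.inr hr') rfl, hd, ho⟩
  have h0 := Split.cin_pair (isCyc_mul_split hL).1 (isCyc_mul_split hL).2 hpq hql'
  rw [Tq_A x z hA (mem_sdiff.2 ((ho p).2 (.inl hp))) (mem_sdiff.2 ((ho q).2 (.inl hq))) hpq tp tq,
    sum_congr (s₂ := univ.filter fun g : Perm P => (∀ r ∈ ({p, q} : Finset P), g r = r) ∧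
      A.Dgm (swap p q * g) ∧ (A.red (swap p q) ∅ {p, q}).Good g)
      (filter_congr fun g _ => by simp [and_assoc]) fun _ _ => rfl]
  by_cases h1 : l = [] <;> by_cases h2 : l' = []
  · subst h1 h2
    rw [Split.sum_none x z c h0 hn, h0, List.map_nil, Split.spl_left, coeff_C_mul]
    by_cases e : l₃ = []
    · subst e
      rcases Nat.eq_zero_or_pos n with rfl | e'
      · simp [tau2, pow_two]
      · simp [tau2, coeff_C, e'.ne']
    · simp [tau2, e]
  · subst h1
    rw [if_pos rfl, if_neg h2] at h0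
    rw [c.symm.sum_one x z h0 h2 hn, h0, List.map_nil, Split.spl_left, coeff_C_mul]
    ring
  · subst h2
    rw [if_neg h1, if_pos rfl] at h0
    rw [c.sum_one x z h0 h1 hn, h0, List.map_nil, Split.spl_right, coeff_C_mul]
    ring
  · rw [if_neg h1, if_neg h2] at h0
    rw [c.sum_two x z h0 h1 h2 hn, h0, pow_zero, one_mul]

theorem splitB (h : A.LA (p :: (l ++ q :: l')) l₃) (tp : A.ty p = false) (tq : A.ty q = false)
    (hn : A.dt.card = 2 * n) : A.Tq x z p q =
      (n.factorial : K) * coeff n (spl x z (false :: l.map A.ty) (l'.map A.ty) (l₃.map A.ty)) := by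
  obtain ⟨hA, hL, h3, hd, ho⟩ := h
  have hnd := hL.1
  simp only [List.nodup_cons, List.nodup_append, List.mem_append, List.mem_cons, not_or] at hnd
  obtain ⟨⟨hpl, hpq, hpl'⟩, -, ⟨hql', -⟩, hll⟩ := hnd
  have hp : p ∈ p :: (l ++ q :: l') := List.mem_cons_self ..
  have hq : q ∈ p :: (l ++ q :: l') := by simp
  have c : Split.Ctx A p q (p :: (l ++ q :: l')) {p} (q :: l) l' l₃ :=
    ⟨hA, hL, hp, hq, hpq, by simp, skip_swap_single p q, Split.wv_swap (tp.trans tq.symm),
      fun a ha => ⟨fun ha' => by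
          rw [mem_singleton.1 ha', tp] at ha
          exact absurd ha (by simp),
        fun _ => swap_apply_of_ne_of_ne (fun e => by simp [e, tp] at ha)
          fun e => by simp [e, tq] at ha⟩,
      by
        rw [cin_erase _ p, erase_singleton, cin_empty, if_neg fun hs => ?_]
        · simp
        · have := orb_subset_iff.1 hs 1
          simp [Ne.symm hpq] at this,
      (isCyc_splitB hL).1, (isCyc_splitB hL).2,
      isCyc_other h3 (fun h => hd hp h) (fun h => hd hq h) (by simp),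
      fun r => by
        simp only [List.mem_cons, List.mem_append, mem_singleton]
        constructor
        · tauto
        · rintro ((hr | hr) | hr)
          · exact ⟨by tauto, fun e => hpq (e.symm.trans hr)⟩
          · exact ⟨by tauto, by rintro rfl; contradiction⟩
          · exact ⟨by tauto, by rintro rfl; contradiction⟩,
      fun r hr hr' => by
        rcases List.mem_cons.1 hr with rfl | hr
        · exact hql' hr'
        · exact hll r hr r (.inr hr') rfl,
      hd, ho⟩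
  have h0 := Split.cin_single (isCyc_mul_split hL).2
  rw [Tq_B x z hA (mem_sdiff.2 ((ho p).2 (.inl hp))) (mem_sdiff.2 ((ho q).2 (.inl hq))) tp tq,
    sum_congr (s₂ := univ.filter fun g : Perm P => (∀ r ∈ ({p} : Finset P), g r = r) ∧
      A.Dgm (swap p q * g) ∧ (A.red (swap p q) ∅ {p}).Good g)
      (filter_congr fun g _ => by simp) fun _ _ => rfl, if_neg hpq, one_mul,
    show false :: l.map A.ty = (q :: l).map A.ty by rw [List.map_cons, tq]]
  by_cases h2 : l' = []
  · subst h2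
    rw [if_pos rfl] at h0
    rw [c.sum_one x z h0 (List.cons_ne_nil _ _) hn, h0, List.map_nil, Split.spl_right, coeff_C_mul]
    ring
  · rw [if_neg h2] at h0
    rw [c.sum_two x z h0 (List.cons_ne_nil _ _) h2 hn, h0, pow_zero, one_mul]

end Amb

end Pool.Agent.P.MP_48bde8_co
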