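import Pool.Agent.P.MP_48bde8_co.SDart
import Pool.Agent.P.MP_48bde8_co.Split

/-! Task SDEQ: the loop equations. -/

namespace Pool.Agent.P.MP_48bde8_co

open Equiv Finset PowerSeries
open scoped Classical

/-- Summation over the positions of a list is summation over the splits of its word. -/
theorem sum_splits {P M : Type} [AddCommMonoid M] (ty : P → Bool) (c : Bool) {l : List P}
    (hl : l.Nodup) (F : P → M) (f : List Bool → List Bool → M)
    (h : ∀ l₁ q l₂, l = l₁ ++ q :: l₂ → F q = if ty q = c then f (l₁.map ty) (l₂.map ty) else 0) :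
    ∑ q ∈ l.toFinset, F q = ((splits c (l.map ty)).map fun s => f s.1 s.2).sum := by
  induction l generalizing f with
  | nil => simp [splits]
  | cons a l ih =>
    obtain ⟨ha, hl'⟩ := List.nodup_cons.1 hl
    rw [List.toFinset_cons, sum_insert (by simpa using ha), List.map_cons, splits,
      List.map_append, List.sum_append, List.map_map,
      ih hl' (fun u v => f (ty a :: u) v) fun l₁ q l₂ e => h (a :: l₁) q l₂ (by rw [e]; rfl),
      h [] a l rfl]
    split_ifs <;> simp [Function.comp_def]

variable {K : Type} [CommRing K] [Algebra ℚ K] (x z : K)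

namespace SDeqAux

omit [Algebra ℚ K] in
theorem sum_coeff {ι : Type} (L : List ι) (g : ι → PowerSeries K) (a : K) (n : ℕ) :
    (L.map fun s => a * coeff n (g s)).sum = a * coeff n (L.map g).sum := by
  induction L with
  | nil => simp
  | cons s L ih => simp [ih, mul_add]

/-- The part of the first word that survives the surgery. -/
def pre (c : Bool) : List Bool := if c then [] else [false]

/-- The right side of the loop equations. -/
noncomputable def rhs (c : Bool) (W u : List Bool) : PowerSeries K :=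
  (if c then 0 else C x * tau2 x z W u) +
    ((splits c W).map fun s => spl x z (pre c ++ s.1) s.2 u).sum +
    (tails.map fun s => gam x z (c :: s) * tau2 x z (pre c ++ W ++ s) u).sum +
    ((splits c u).map fun s => tau x z (pre c ++ W ++ s.2 ++ s.1)).sum

variable {P : Type} [Fintype P] {A : Amb P} {p : P} {l l₃ : List P} {n : ℕ}

omit [Algebra ℚ K] in
theorem T_fib (hp : p ∈ A.U) : A.T x z = ∑ q ∈ A.U, A.Tq x z p q := by
  refine (sum_fiberwise_of_maps_to (g := fun ψ : Perm P => ψ p) (fun ψ hψ => ?_) _).symm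
  by_contra h
  have := (mem_filter.1 hψ).2.1.1.2.1 _ h
  exact h (by rwa [ψ.injective this])

omit [Fintype P] in
theorem sum_U {M : Type} [AddCommMonoid M] (h : A.LA (p :: l) l₃) (F : P → M) :
    ∑ q ∈ A.U, F q = F p + ∑ q ∈ l.toFinset, F q + ∑ q ∈ A.dt, F q + ∑ q ∈ l₃.toFinset, F q := by
  obtain ⟨hA, h1, -, hd, hU⟩ := h
  have e : A.U = ((p :: l).toFinset ∪ A.dt) ∪ l₃.toFinset := by
    ext q
    simp only [mem_union, List.mem_toFinset]
    refine ⟨fun hq => ?_, ?_⟩
    · by_cases hq' : q ∈ A.dt
      · exact .inl (.inr hq')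
      · exact ((hU q).1 ⟨hq, hq'⟩).imp_left .inl
    · rintro ((hq | hq) | hq)
      exacts [((hU q).2 (.inl hq)).1, hA.2.1 hq, ((hU q).2 (.inr hq)).1]
  rw [e, sum_union, sum_union, List.toFinset_cons,
    sum_insert (by simpa using (List.nodup_cons.1 h1.1).1)]
  · exact disjoint_left.2 fun q hq => ((hU q).2 (.inl (List.mem_toFinset.1 hq))).2
  · refine disjoint_right.2 fun q hq hq' => ?_
    rcases mem_union.1 hq' with h | h
    · exact hd (List.mem_toFinset.1 h) (List.mem_toFinset.1 hq)
    · exact ((hU q).2 (.inr (List.mem_toFinset.1 hq))).2 h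

theorem la3 {q : P} {m₁ m₂ : List P} (h : A.LA (p :: l) (m₁ ++ q :: m₂)) :
    A.LA3 (p :: l) (q :: (m₂ ++ m₁)) [] := by
  obtain ⟨hA, h1, h2, hd, hU⟩ := h
  have hm : ∀ r, r ∈ q :: (m₂ ++ m₁) ↔ r ∈ m₁ ++ q :: m₂ := fun r => by
    simp only [List.mem_cons, List.mem_append]
    tauto
  refine ⟨hA, h1, ?_, ⟨List.nodup_nil, rfl⟩, fun r hr hr' => hd hr ((hm r).1 hr'),
    List.disjoint_nil_right _, List.disjoint_nil_right _, fun r => ?_⟩
  · have := h2.rotate m₁.length
    rwa [List.rotate_append_length_eq] at this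
  · rw [hU r, hm r]
    simp

theorem T_rhs (h : A.LA (p :: l) l₃) (hn : A.dt.card = 2 * n) :
    A.T x z = (n.factorial : K) * coeff n (rhs x z (A.ty p) (l.map A.ty) (l₃.map A.ty)) := by
  have hp : p ∈ A.U := ((h.2.2.2.2 p).2 (.inl List.mem_cons_self)).1
  rw [T_fib x z hp, sum_U h, Amb.dart_sum x z h hn, rhs, map_add, map_add, map_add, mul_add,
    mul_add, mul_add, ← sum_coeff (splits _ _), ← sum_coeff (splits _ _)]
  congr 1
  · congr 2
    · cases tp : A.ty p
      · exact Amb.fixB x z h tp hn
      · simpa using Amb.Tq_self_A x z hp tp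
    · refine sum_splits A.ty (A.ty p) (List.nodup_cons.1 h.2.1.1).2 _
        (fun u v => (n.factorial : K) * coeff n (spl x z (pre (A.ty p) ++ u) v (l₃.map A.ty)))
        fun l₁ q l₂ e => ?_
      subst e
      split_ifs with hq
      · cases tp : A.ty p
        · exact Amb.splitB x z h tp (hq.trans tp) hn
        · exact Amb.splitA x z h tp (hq.trans tp) hn
      · exact Amb.Tq_of_ty_ne x z (Ne.symm hq)
  · refine sum_splits A.ty (A.ty p) h.2.2.1.1 _
      (fun u v => (n.factorial : K) * coeff n (tau x z (pre (A.ty p) ++ l.map A.ty ++ v ++ u)))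
      fun l₁ q l₂ e => ?_
    subst e
    split_ifs with hq
    · cases tp : A.ty p
      · simpa [pre, tau] using Amb.mergeB x z (la3 h) tp (hq.trans tp) hn
      · simpa [pre, tau] using Amb.mergeA x z (la3 h) tp (hq.trans tp) hn
    · exact Amb.Tq_of_ty_ne x z (Ne.symm hq)

theorem master (c : Bool) (W u : List Bool) : tau2 x z (c :: W) u = rhs x z c W u := by
  ext n
  obtain ⟨l₁, l₂, h, h1, h2, h3, -⟩ := ambS_LA (c :: W) u n
  obtain ⟨p, l, rfl, e1, e2⟩ := List.map_eq_cons_iff.1 h1
  have k1 := T_eq x z h (List.cons_ne_nil _ _) h3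
  have k2 := T_rhs x z h h3
  rw [h1, h2] at k1
  rw [e1, e2, h2] at k2
  exact TEmbA.fact_cancel n (k1.symm.trans k2)

end SDeqAux

open SDeqAux

theorem sd1_tau : SD1 (C x) (C z) (tau x z) (gam x z) := by
  refine ⟨by simp [tau, tau2], fun c w => tau2_rot x z c w [], fun c w => ?_, fun W => ?_,
    fun W => ?_⟩
  · rw [gam, gam, gen_rot, gen_rot]
  · simpa [rhs, pre, spl, splits, tau] using master x z true W []
  · simpa [rhs, pre, spl, splits, tau] using master x z false W []

theorem sd2_tau {u : List Bool} (hu : u ≠ []) :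
    SD2 (C x) (tau x z) (gam x z) u (fun w => tau2 x z w u) := by
  refine ⟨by simp [tau2, hu], fun c w => tau2_rot x z c w u, fun W => ?_, fun W => ?_⟩
  · simpa [rhs, pre, spl, hu] using master x z true W u
  · simpa [rhs, pre, spl, hu] using master x z false W u

end Pool.Agent.P.MP_48bde8_co
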