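import Pool.Agent.P.MP_48bde8_co.GoalB
import Pool.Agent.P.MP_48bde8_co.Dipole

/-! Task SGN: the value of the signed count. -/

namespace Pool.Agent.P.MP_48bde8_co

open Equiv Finset
open scoped Classical

variable {P : Type} [Fintype P]

namespace Amb

variable {A : Amb P} {ψ : Perm P}

theorem dipole_not_all (hc : A.Closed ψ) (hd : A.Dipole ψ) (h16 : 16 ≤ Fintype.card P) :
    ¬ ∀ S ∈ A.atoms ψ, ∀ S' ∈ A.atoms ψ, Ov S S' := by
  obtain ⟨h⟩ : Nonempty P := Fintype.card_pos_iff.1 (by omega)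
  obtain ⟨S, hS⟩ := (dipole_cluster hc hd h16 h).2.1.1
  obtain ⟨h1, -, S', h2, h3⟩ := mem_filter.1 hS
  exact fun hall => h3 (hall S h1 S' h2)

theorem sgn_key (hc : A.Closed ψ) {h : P} (hg : ∀ R ∈ genu (A.atoms ψ) h, A.IsDig ψ R)
    {C : Finset (Rg P)} (hC : C ⊆ genu (A.atoms ψ) h) (ho : OConn C)
    (hd : Dom (A.atoms ψ) (C.sup id)) :
    A.Dipole ψ ∧ Fintype.card P = 4 * (C.card + 2) := by
  have hh : h ∉ (C.sup id).1 := fun e => by
    obtain ⟨R, hR, e⟩ := mem_sup_fst.1 e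
    exact (mem_filter.1 (hC hR)).2.1 e
  exact dipole_of_dom hc (h1_of_dom hc (hC.trans (filter_subset _ _)) ho hd hh)
    (fun R hR => hg R (hC hR)) ho hd hh

theorem sgn_value (hc : A.Closed ψ) (h : P) :
    sgnF (A.atoms ψ) h = (if ∀ S ∈ A.atoms ψ, ∀ S' ∈ A.atoms ψ, Ov S S' then 1 else 0) +
      if A.Dipole ψ ∧ 16 ≤ Fintype.card P then (-1) ^ (Fintype.card P / 4 + 1) else 0 := by
  by_cases hall : ∀ S ∈ A.atoms ψ, ∀ S' ∈ A.atoms ψ, Ov S S'
  · rw [sgnF_of_all h hall, if_pos hall, if_neg fun hd => dipole_not_all hc hd.1 hd.2 hall,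
      add_zero]
  rw [sgnF_eq (fun S hS => (mem_filter.1 hS).2.1.1.2.1.1) h hall, if_neg hall, zero_add]
  by_cases hd : A.Dipole ψ ∧ 16 ≤ Fintype.card P
  · obtain ⟨-, h2, h3⟩ := dipole_cluster hc hd.1 hd.2 h
    have hg : ∀ R ∈ genu (A.atoms ψ) h, A.IsDig ψ R := fun R hR =>
      (dipole_atoms hc hd.1 hd.2).1 (mem_filter.1 (mem_filter.1 hR).1).2
    have h4 := (sgn_key hc hg Subset.rfl h2 h3).2
    have h5 : (genu (A.atoms ψ) h).powerset.filter
        (fun C => OConn C ∧ Dom (A.atoms ψ) (C.sup id)) = {genu (A.atoms ψ) h} := by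
      ext C
      rw [mem_filter, mem_powerset, mem_singleton]
      constructor
      · rintro ⟨h6, h7, h8⟩
        have h9 := (sgn_key hc hg h6 h7 h8).2
        exact eq_of_subset_of_card_le h6 (by omega)
      · rintro rfl
        exact ⟨Subset.rfl, h2, h3⟩
    rw [if_pos hd, h5, sum_singleton,
      show Fintype.card P / 4 + 1 = (genu (A.atoms ψ) h).card + 3 by omega, pow_add]
    ring
  · rw [if_neg hd, neg_eq_zero]
    by_contra hs
    obtain ⟨C, hC, -⟩ := exists_ne_zero_of_sum_ne_zero hs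
    rw [mem_filter, mem_powerset] at hC
    obtain ⟨h1, h2⟩ := sgn_key hc (digons_of_sum_ne hc hs) hC.1 hC.2.1 hC.2.2
    refine hd ⟨h1, ?_⟩
    have h3 := card_pos.2 hC.2.1.1
    have h4 : C.card ≠ 1 := fun e => by
      obtain ⟨S, rfl⟩ := card_eq_one.1 e
      obtain ⟨-, -, S', h5, h6⟩ := mem_filter.1 (hC.1 (mem_singleton_self S))
      have h7 := hC.2.2 S' h5
      rw [sup_singleton] at h7
      exact h6 (Clus.ov_symm h7)
    omega

end Amb

end Pool.Agent.P.MP_48bde8_co
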