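import Pool.Agent.P.MP_48bde8_co.RegA

/-! Auxiliary lemmas for the explicit small regions. -/

namespace Pool.Agent.P.MP_48bde8_co

open Equiv Finset
open scoped Classical

variable {P : Type} [Fintype P]

set_option linter.unusedSectionVars false

namespace ShapeAux

theorem app_mem (f : Perm P) {p q : P} (h : q ∈ orb f p) : f q ∈ orb f p := by
  rw [mem_orb] at h ⊢
  exact h.trans (Perm.sameCycle_apply_right.2 (Perm.SameCycle.refl f q))

theorem orb_eq_of_mem {f : Perm P} {p q : P} (h : q ∈ orb f p) : orb f q = orb f p :=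
  (orb_eq_iff.2 (mem_orb.1 h)).symm

theorem not_sub {f : Perm P} {p : P} {I : Finset P} (h : f p ∉ I) : ¬ orb f p ⊆ I :=
  fun hs => h (hs (app_mem f (self_mem_orb f p)))

theorem cin_eq {f : Perm P} {I : Finset P} (s : Finset P) (h1 : ∀ p ∈ s, orb f p ⊆ I)
    (h2 : ∀ q ∈ I, orb f q ⊆ I → ∃ p ∈ s, q ∈ orb f p) :
    cin f I = (s.image (orb f)).card := by
  unfold cin
  congr 1
  ext c
  simp only [mem_filter, cycs, mem_image, mem_univ, true_and]
  constructor
  · rintro ⟨⟨q, rfl⟩, hq⟩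
    obtain ⟨p, hp, hq'⟩ := h2 q (hq (self_mem_orb f q)) hq
    exact ⟨p, hp, (orb_eq_of_mem hq').symm⟩
  · rintro ⟨p, hp, rfl⟩
    exact ⟨⟨p, rfl⟩, h1 p hp⟩

theorem cin_zero {f : Perm P} {I : Finset P} (h : ∀ q ∈ I, f q ∉ I) : cin f I = 0 := by
  rw [cin_eq (f := f) (I := I) ∅ (by simp) (fun q hq hs => (not_sub (h q hq) hs).elim)]
  simp

theorem cin_one {f : Perm P} {I : Finset P} {p : P} (h1 : orb f p ⊆ I)
    (h2 : ∀ q ∈ I, f q ∈ I → q ∈ orb f p) : cin f I = 1 := by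
  rw [cin_eq (f := f) (I := I) {p} (by simpa using h1) (fun q hq hs =>
    ⟨p, by simp, h2 q hq (hs (app_mem f (self_mem_orb f q)))⟩)]
  simp

theorem cin_two {f : Perm P} {I : Finset P} {p p' : P} (h1 : orb f p ⊆ I) (h1' : orb f p' ⊆ I)
    (hne : p' ∉ orb f p) (h2 : ∀ q ∈ I, f q ∈ I → q ∈ orb f p ∨ q ∈ orb f p') : cin f I = 2 := by
  rw [cin_eq (f := f) (I := I) {p, p'} (by
      intro x hx
      simp only [mem_insert, mem_singleton] at hx
      rcases hx with rfl | rfl <;> assumption) (fun q hq hs => by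
      rcases h2 q hq (hs (app_mem f (self_mem_orb f q))) with h | h
      · exact ⟨p, by simp, h⟩
      · exact ⟨p', by simp, h⟩)]
  rw [image_insert, image_singleton, card_pair]
  intro h
  exact hne (h ▸ self_mem_orb f p')

theorem orb_two {f : Perm P} {p q : P} (h1 : f p = q) (h2 : f q = p) : orb f p = {p, q} := by
  apply Subset.antisymm
  · apply orb_subset_of_closed (by simp)
    intro x hx
    simp only [mem_insert, mem_singleton] at hx ⊢
    rcases hx with rfl | rfl <;> simp [h1, h2]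
  · intro x hx
    simp only [mem_insert, mem_singleton] at hx
    rcases hx with rfl | rfl
    · exact self_mem_orb f _
    · exact h1 ▸ app_mem f (self_mem_orb f p)

theorem orb_four {f : Perm P} {p q r s : P} (h1 : f p = q) (h2 : f q = r) (h3 : f r = s)
    (h4 : f s = p) : orb f p = {p, q, r, s} := by
  apply Subset.antisymm
  · apply orb_subset_of_closed (by simp)
    intro x hx
    simp only [mem_insert, mem_singleton] at hx ⊢
    rcases hx with rfl | rfl | rfl | rfl <;> simp [h1, h2, h3, h4]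
  · intro x hx
    have e1 : q ∈ orb f p := h1 ▸ app_mem f (self_mem_orb f p)
    have e2 : r ∈ orb f p := h2 ▸ app_mem f e1
    have e3 : s ∈ orb f p := h3 ▸ app_mem f e2
    simp only [mem_insert, mem_singleton] at hx
    rcases hx with rfl | rfl | rfl | rfl
    · exact self_mem_orb f _
    all_goals assumption

variable {A : Amb P} {ψ : Perm P} {R : Rg P} {b : P}

theorem pi_dt (hA : A.OK) {p : P} (hp : p ∈ A.dt) : A.π p ∈ A.dt := (hA.2.2 p hp).1

theorem pi_pi (hA : A.OK) {p : P} (hp : p ∈ A.dt) : A.π (A.π p) = p := (hA.2.2 p hp).2.1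

theorem ty_pi (hA : A.OK) {p : P} (hp : p ∈ A.dt) : A.ty (A.π p) = !A.ty p := (hA.2.2 p hp).2.2

theorem pi_ne (hA : A.OK) {p : P} (hp : p ∈ A.dt) : A.π p ≠ p := by
  intro h
  have := ty_pi hA hp
  rw [h] at this
  cases hh : A.ty p <;> simp [hh] at this

theorem ne_of_ty {p q : P} (hp : A.ty p = true) (hq : A.ty q = false) : p ≠ q := by
  rintro rfl
  simp [hp] at hq

theorem dv_dt (hA : A.OK) {s : Finset P} (hs : s ⊆ A.dt) : A.dv s ⊆ A.dt := by
  intro p hp
  rcases Amb.mem_dv.1 hp with h | ⟨q, hq, rfl⟩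
  · exact hs h
  · exact pi_dt hA (hs hq)

theorem dv_closed (hA : A.OK) {s : Finset P} (hs : s ⊆ A.dt) : ∀ p ∈ A.dv s, A.π p ∈ A.dv s := by
  intro p hp
  rcases Amb.mem_dv.1 hp with h | ⟨q, hq, rfl⟩
  · exact Amb.mem_dv.2 (Or.inr ⟨p, h, rfl⟩)
  · rw [pi_pi hA (hs hq)]
    exact Amb.mem_dv.2 (Or.inl hq)

theorem dv_sub {s V : Finset P} (hV : ∀ p ∈ V, A.π p ∈ V) (hs : s ⊆ V) : A.dv s ⊆ V := by
  intro p hp
  rcases Amb.mem_dv.1 hp with h | ⟨q, hq, rfl⟩
  · exact hs h
  · exact hV q (hs hq)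

theorem dv_card (hA : A.OK) {s : Finset P} (hs : s ⊆ A.dt) (ht : ∀ p ∈ s, A.ty p = false) :
    (A.dv s).card = 2 * s.card := by
  unfold Amb.dv
  rw [card_union_of_disjoint, card_image_of_injective _ A.π.injective]
  · ring
  · rw [disjoint_left]
    intro p hp hp'
    obtain ⟨q, hq, rfl⟩ := mem_image.1 hp'
    have h1 := ty_pi hA (hs hq)
    rw [ht q hq, ht _ hp] at h1
    simp at h1

theorem cin_dv (hA : A.OK) {s : Finset P} (hs : s ⊆ A.dt) (ht : ∀ p ∈ s, A.ty p = false) :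
    cin A.π (A.dv s) = s.card := by
  have h := two_mul_cin A.π (dv_closed hA hs) (fun p hp => pi_pi hA (dv_dt hA hs hp))
    (fun p hp => pi_ne hA (dv_dt hA hs hp))
  rw [dv_card hA hs ht] at h
  omega

theorem rl_pi {p : P} (hp : p ∈ R.1) : A.RL ψ R p (A.π p) :=
  Relation.EqvGen.rel _ _ (Or.inl ⟨hp, rfl⟩)

theorem rl_psi {p : P} (hp : p ∈ R.2) : A.RL ψ R p (ψ p) :=
  Relation.EqvGen.rel _ _ (Or.inr ⟨hp, rfl⟩)

theorem rl_trans {p q r : P} (h1 : A.RL ψ R p q) (h2 : A.RL ψ R q r) : A.RL ψ R p r :=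
  Relation.EqvGen.trans _ _ _ h1 h2

theorem rl_refl (p : P) : A.RL ψ R p p := Relation.EqvGen.refl _

/-- Connectedness of a region whose ports are the darts of `s`. -/
theorem rconn_dv {s I : Finset P} {p : P} (hp : p ∈ s)
    (h : ∀ q ∈ s, A.RL ψ (A.dv s, I) p q) : A.RConn ψ (A.dv s, I) := by
  refine Amb.rconn_of_root (p := p) (Amb.mem_dv.2 (Or.inl hp)) ?_
  intro q hq
  rcases Amb.mem_dv.1 hq with h1 | ⟨r, hr, rfl⟩
  · exact h q h1
  · exact rl_trans (h r hr) (rl_pi (Amb.mem_dv.2 (Or.inl hr)))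

theorem ty_phi (hA : A.OK) (hψ : A.WV ψ) (hR : A.Reg ψ R) {p : P} (hp : p ∈ R.2) :
    A.ty ((A.π * ψ) p) = !A.ty p := by
  rw [Perm.mul_apply, ty_pi hA (hR.2.1 (hR.1.2.2 p hp)), (hψ p).1]

theorem ty_orb (hψ : A.WV ψ) {p : P} (hp : p ∈ orb ψ b) : A.ty p = A.ty b := by
  have : orb ψ b ⊆ univ.filter fun q => A.ty q = A.ty b := by
    apply orb_subset_of_closed (by simp)
    intro q hq
    simp only [mem_filter, mem_univ, true_and] at hq ⊢
    rw [(hψ q).1, hq]
  simpa using this hp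

/-- If `c = al b` with both in darts. -/
theorem al_rel (hA : A.OK) (hψ : A.WV ψ) {c : P} (hb : b ∈ A.dt) (hc : c ∈ A.dt)
    (hty : A.ty b = false) (h : A.al ψ b = c) :
    ψ (A.π b) = A.π c ∧ ψ (A.π c) = A.π b ∧ A.al ψ c = b ∧ A.ty c = false := by
  have h1 : ψ (A.π b) = A.π c := by
    apply A.π.injective
    rw [pi_pi hA hc]
    exact h
  have ht : A.ty (A.π b) = true := by rw [ty_pi hA hb, hty]; rfl
  have h2 : ψ (A.π c) = A.π b := by rw [← h1, (hψ _).2 ht]
  refine ⟨h1, h2, ?_, ?_⟩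
  · unfold Amb.al
    rw [h2, pi_pi hA hb]
  · have h3 := ty_pi hA hc
    rw [← h1, (hψ _).1, ht] at h3
    cases hh : A.ty c
    · rfl
    · simp [hh] at h3

theorem al_inj {p q : P} (h : A.al ψ p = A.al ψ q) : p = q :=
  A.π.injective (ψ.injective (A.π.injective h))

theorem dig_core (hA : A.OK) (hψ : A.WV ψ) {b1 b2 b3 b4 : P} (d1 : b1 ∈ A.dt) (d2 : b2 ∈ A.dt)
    (d3 : b3 ∈ A.dt) (d4 : b4 ∈ A.dt) (t1 : A.ty b1 = false) (t2 : A.ty b2 = false)
    (t3 : A.ty b3 = false) (t4 : A.ty b4 = false) (p1 : ψ b1 = b2) (p3 : ψ b3 = b4)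
    (q1 : ψ (A.π b1) = A.π b4) (q4 : ψ (A.π b4) = A.π b1) (q2 : ψ (A.π b2) = A.π b3)
    (q3 : ψ (A.π b3) = A.π b2) (nd : [b1, b2, b3, b4].Nodup) {S : Rg P}
    (hS : S = (A.dv {b1, b2, b3, b4}, {b1, b3, A.π b1, A.π b2, A.π b3, A.π b4})) :
    A.Atom ψ S ∧ bd S = 2 ∧ A.NoA S ∧ S.1.card = 8 ∧
      orb (A.π * ψ) b1 = {b1, A.π b2, b3, A.π b4} := by
  have u1 : A.ty (A.π b1) = true := by rw [ty_pi hA d1, t1]; rfl
  have u2 : A.ty (A.π b2) = true := by rw [ty_pi hA d2, t2]; rfl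
  have u3 : A.ty (A.π b3) = true := by rw [ty_pi hA d3, t3]; rfl
  have u4 : A.ty (A.π b4) = true := by rw [ty_pi hA d4, t4]; rfl
  have w1 := pi_pi hA d1
  have w2 := pi_pi hA d2
  have w3 := pi_pi hA d3
  have w4 := pi_pi hA d4
  simp only [List.nodup_cons, List.mem_cons, List.not_mem_nil, or_false, not_or,
    not_false_eq_true, List.nodup_nil, and_true] at nd
  obtain ⟨⟨n12, n13, n14⟩, ⟨n23, n24⟩, n34⟩ := nd
  have m : ∀ x y, A.ty x = true → A.ty y = false → x ≠ y := fun x y => ne_of_ty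
  have m' : ∀ x y, A.ty x = true → A.ty y = false → y ≠ x := fun x y h h' => (m x y h h').symm
  have hs : ({b1, b2, b3, b4} : Finset P) ⊆ A.dt := by
    intro x hx
    simp only [mem_insert, mem_singleton] at hx
    rcases hx with rfl | rfl | rfl | rfl <;> assumption
  have hst : ∀ p ∈ ({b1, b2, b3, b4} : Finset P), A.ty p = false := by
    intro x hx
    simp only [mem_insert, mem_singleton] at hx
    rcases hx with rfl | rfl | rfl | rfl <;> assumption
  have hc4 : ({b1, b2, b3, b4} : Finset P).card = 4 := by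
    rw [card_insert_of_notMem (by simp [n12, n13, n14]), card_insert_of_notMem (by simp [n23, n24]),
      card_pair n34]
  have hS1 : S.1 = A.dv {b1, b2, b3, b4} := by rw [hS]
  have hS2 : ∀ x, x ∈ S.2 ↔
      x = b1 ∨ x = b3 ∨ x = A.π b1 ∨ x = A.π b2 ∨ x = A.π b3 ∨ x = A.π b4 := by
    intro x; rw [hS]; simp
  have hV : ∀ x, x ∈ S.1 ↔ x = b1 ∨ x = b2 ∨ x = b3 ∨ x = b4 ∨
      x = A.π b1 ∨ x = A.π b2 ∨ x = A.π b3 ∨ x = A.π b4 := by
    intro x; rw [hS1]; simp [Amb.dv]; grind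
  have hc6 : S.2.card = 6 := by
    rw [hS]
    simp only
    rw [card_insert_of_notMem (by simp [n13, m' _ _ u1 t1, m' _ _ u2 t1, m' _ _ u3 t1, m' _ _ u4 t1]),
      card_insert_of_notMem (by simp [m' _ _ u1 t3, m' _ _ u2 t3, m' _ _ u3 t3, m' _ _ u4 t3]),
      card_insert_of_notMem (by simp [n12, n13, n14]), card_insert_of_notMem (by simp [n23, n24]),
      card_pair (by simp [n34])]
  have nb2 : b2 ∉ S.2 := by
    simp [hS2, Ne.symm n12, n23, m' _ _ u1 t2, m' _ _ u2 t2, m' _ _ u3 t2, m' _ _ u4 t2]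
  have nb4 : b4 ∉ S.2 := by
    simp [hS2, Ne.symm n14, Ne.symm n34, m' _ _ u1 t4, m' _ _ u2 t4, m' _ _ u3 t4, m' _ _ u4 t4]
  have hI : S.2 ⊆ S.1 := by
    intro x hx
    rw [hS2] at hx
    rw [hV]
    grind
  have hReg : A.Reg ψ S := by
    refine ⟨⟨by rw [hS1]; exact dv_closed hA hs, hI, ?_⟩, by rw [hS1]; exact dv_dt hA hs, ?_⟩
    · intro x hx
      rw [hS2] at hx
      rw [hV]
      rcases hx with rfl | rfl | rfl | rfl | rfl | rfl <;> simp [p1, p3, q1, q2, q3, q4]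
    · intro x hx ht
      rw [hS2] at hx
      rw [hS2]
      rcases hx with rfl | rfl | rfl | rfl | rfl | rfl
      · simp [t1] at ht
      · simp [t3] at ht
      · simp [q1, Ne.symm n14]
      · simp [q2, Ne.symm n23]
      · simp [q3, n23]
      · simp [q4, n14]
  have hcard : S.1.card = 8 := by rw [hS1, dv_card hA hs hst, hc4]
  have hbd : bd S = 2 := by
    have := bd_add_card (R := S) hI
    omega
  have f1 : (A.π * ψ) b1 = A.π b2 := by rw [Perm.mul_apply, p1]
  have f2 : (A.π * ψ) (A.π b2) = b3 := by rw [Perm.mul_apply, q2, w3]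
  have f3 : (A.π * ψ) b3 = A.π b4 := by rw [Perm.mul_apply, p3]
  have f4 : (A.π * ψ) (A.π b4) = b1 := by rw [Perm.mul_apply, q4, w1]
  have f5 : (A.π * ψ) (A.π b1) = b4 := by rw [Perm.mul_apply, q1, w4]
  have f6 : (A.π * ψ) (A.π b3) = b2 := by rw [Perm.mul_apply, q3, w2]
  have ho := orb_four f1 f2 f3 f4
  have hoS : orb (A.π * ψ) b1 ⊆ S.2 := by
    rw [ho]
    intro x hx
    simp only [mem_insert, mem_singleton] at hx
    rw [hS2]
    grind
  have hface : ∀ q ∈ S.2, (A.π * ψ) q ∈ S.2 → q ∈ orb (A.π * ψ) b1 := by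
    intro q hq hq'
    rw [ho]
    rw [hS2] at hq
    rcases hq with rfl | rfl | rfl | rfl | rfl | rfl
    · simp
    · simp
    · exact (nb4 (f5 ▸ hq')).elim
    · simp
    · exact (nb2 (f6 ▸ hq')).elim
    · simp
  have hconn : A.RConn ψ S := by
    have r1 : A.RL ψ S b1 b2 := p1 ▸ rl_psi ((hS2 _).2 (by simp))
    have r2 : A.RL ψ S b2 (A.π b2) := rl_pi ((hV _).2 (by simp))
    have r3 : A.RL ψ S (A.π b2) (A.π b3) := q2 ▸ rl_psi ((hS2 _).2 (by simp))
    have r4 : A.RL ψ S (A.π b3) b3 := by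
      have := rl_pi (A := A) (ψ := ψ) (R := S) (p := A.π b3) ((hV _).2 (by simp))
      rwa [w3] at this
    have r5 : A.RL ψ S b3 b4 := p3 ▸ rl_psi ((hS2 _).2 (by simp))
    have r6 : A.RL ψ S b4 (A.π b4) := rl_pi ((hV _).2 (by simp))
    have r7 : A.RL ψ S b1 (A.π b1) := rl_pi ((hV _).2 (by simp))
    have s2 := rl_trans r1 r2
    have s3 := rl_trans s2 r3
    have s4 := rl_trans s3 r4
    have s5 := rl_trans s4 r5
    have s6 := rl_trans s5 r6
    refine Amb.rconn_of_root (p := b1) ((hV _).2 (by simp)) ?_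
    intro q hq
    rw [hV] at hq
    rcases hq with rfl | rfl | rfl | rfl | rfl | rfl | rfl | rfl
    · exact rl_refl _
    all_goals assumption
  have heps : A.eps ψ S = 1 := by
    have c0 : cin A.π S.1 = 4 := by rw [hS1, cin_dv hA hs hst, hc4]
    have c1 : cin ψ S.2 = 2 := by
      apply cin_two (p := A.π b1) (p' := A.π b2)
      · rw [orb_two q1 q4]
        intro x hx
        simp only [mem_insert, mem_singleton] at hx
        rw [hS2]
        grind
      · rw [orb_two q2 q3]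
        intro x hx
        simp only [mem_insert, mem_singleton] at hx
        rw [hS2]
        grind
      · rw [orb_two q1 q4]
        simp [Ne.symm n12, n24]
      · intro q hq hq'
        rw [orb_two q1 q4, orb_two q2 q3]
        rw [hS2] at hq
        rcases hq with rfl | rfl | rfl | rfl | rfl | rfl
        · exact (nb2 (p1 ▸ hq')).elim
        · exact (nb4 (p3 ▸ hq')).elim
        all_goals simp
    have c2 : cin (A.π * ψ) S.2 = 1 := cin_one hoS hface
    simp only [Amb.eps, c0, c1, c2, hc6]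
    norm_num
  have hfeat : A.Feat ψ S := by
    refine ⟨b1, Or.inr ⟨hoS, ?_⟩⟩
    rw [ho]
    exact card_le_four
  refine ⟨⟨⟨⟨hReg, hconn, heps, by omega⟩, by omega, hfeat⟩, ?_⟩, hbd, ?_, hcard, ho⟩
  · intro T hT hle
    have hle2 : T.2 ⊆ S.2 := hle.2
    have hTR := hT.1.1
    obtain ⟨q, ⟨ht, h⟩ | ⟨h, -⟩⟩ := hT.2.2
    · exfalso
      have hq := hle2 (h (self_mem_orb _ q))
      have hq' := hle2 (h (app_mem _ (self_mem_orb _ q)))
      rw [hS2] at hq
      rcases hq with rfl | rfl | rfl | rfl | rfl | rfl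
      · exact nb2 (p1 ▸ hq')
      · exact nb4 (p3 ▸ hq')
      · simp [u1] at ht
      · simp [u2] at ht
      · simp [u3] at ht
      · simp [u4] at ht
    · have hq := hle2 (h (self_mem_orb _ q))
      have hq' := hle2 (h (app_mem _ (self_mem_orb _ q)))
      rw [orb_eq_of_mem (hface q hq hq'), ho] at h
      have e1 : b1 ∈ T.2 := h (by simp)
      have e2 : A.π b2 ∈ T.2 := h (by simp)
      have e3 : b3 ∈ T.2 := h (by simp)
      have e4 : A.π b4 ∈ T.2 := h (by simp)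
      have e5 : A.π b3 ∈ T.2 := q2 ▸ (hTR.2.2 _ e2 u2).1
      have e6 : A.π b1 ∈ T.2 := q4 ▸ (hTR.2.2 _ e4 u4).1
      have e7 : b2 ∈ T.1 := p1 ▸ hTR.1.2.2 _ e1
      have e8 : b4 ∈ T.1 := p3 ▸ hTR.1.2.2 _ e3
      refine le_antisymm hle ⟨?_, ?_⟩
      · intro x hx
        rw [hV] at hx
        rcases hx with rfl | rfl | rfl | rfl | rfl | rfl | rfl | rfl
        · exact hTR.1.2.1 e1
        · exact e7
        · exact hTR.1.2.1 e3
        · exact e8
        · exact hTR.1.2.1 e6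
        · exact hTR.1.2.1 e2
        · exact hTR.1.2.1 e5
        · exact hTR.1.2.1 e4
      · intro x hx
        rw [hS2] at hx
        rcases hx with rfl | rfl | rfl | rfl | rfl | rfl <;> assumption
  · intro x hx ht
    rw [hV] at hx
    rw [hS2]
    rcases hx with rfl | rfl | rfl | rfl | rfl | rfl | rfl | rfl
    · simp [t1] at ht
    · simp [t2] at ht
    · simp [t3] at ht
    · simp [t4] at ht
    all_goals simp

theorem rDig_eq {c d e : P} (h1 : ψ b = c) (h2 : A.nx ψ b = d) (h3 : ψ d = e)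
    (h4 : A.al ψ b = e) :
    A.rDig ψ b = (A.dv {b, c, d, e}, {b, d, A.π b, A.π c, A.π d, A.π e}) := by
  have h5 : A.al ψ c = d := by rw [← h1]; exact h2
  simp only [Amb.rDig, Amb.rS, Amb.rQ, h1, h2, h3, h4, h5, Prod.mk_sup_mk, sup_eq_union]
  refine Prod.ext ?_ ?_
  · ext x
    simp [Amb.dv]
    grind
  · ext x
    simp
    grind

theorem rTri_eq {c d e f g : P} (h1 : ψ b = c) (h2 : A.nx ψ b = d) (h3 : ψ d = e)
    (h4 : A.nx ψ d = f) (h5 : ψ f = g) (h6 : A.al ψ b = g) :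
    A.rTri ψ b = (A.dv {b, c, d, e, f, g},
      {b, d, f, A.π b, A.π c, A.π d, A.π e, A.π f, A.π g}) := by
  have h7 : A.al ψ c = d := by rw [← h1]; exact h2
  have h8 : A.al ψ e = f := by rw [← h3]; exact h4
  simp only [Amb.rTri, Amb.rS, Amb.rQ, h1, h2, h3, h4, h5, h6, h7, h8, Prod.mk_sup_mk,
    sup_eq_union]
  refine Prod.ext ?_ ?_
  · ext x
    simp only [Amb.dv, mem_union, mem_insert, mem_singleton, image_insert, image_singleton]
    grind
  · ext x
    simp only [mem_union, mem_insert, mem_singleton]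
    grind

end ShapeAux

end Pool.Agent.P.MP_48bde8_co
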