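import Pool.Agent.P.MP_48bde8_co.RegA
import Pool.Agent.P.MP_48bde8_co.ShapeAux

/-! Task SHAPE: the explicit small regions. -/

namespace Pool.Agent.P.MP_48bde8_co

open Equiv Finset
open scoped Classical

variable {P : Type} [Fintype P]

set_option linter.unusedSectionVars false

open ShapeAux

namespace Amb

variable {A : Amb P} {ψ : Perm P} {R : Rg P} {b : P}

/-- Basic facts on an internal edge. -/
theorem edge_facts (hA : A.OK) (hψ : A.WV ψ) (hR : A.Reg ψ R) (hb : b ∈ R.1)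
    (hty : A.ty b = false) (he : A.π b ∈ R.2) :
    A.al ψ b ∈ R.1 ∧ A.ty (A.al ψ b) = false ∧ A.π (A.al ψ b) = ψ (A.π b) ∧
      A.π (A.al ψ b) ∈ R.2 ∧ A.al ψ (A.al ψ b) = b ∧ A.al ψ b ≠ b ∧ A.rQ ψ b ≤ R ∧
      (A.π * ψ) (A.π b) = A.al ψ b ∧ (A.π * ψ) (A.π (A.al ψ b)) = b := by
  have ht : A.ty (A.π b) = true := by rw [ty_pi hA (hR.2.1 hb), hty]; rfl
  obtain ⟨h1, h2⟩ := hR.2.2 _ he ht
  have h3 : ψ (A.π b) ∈ R.1 := hR.1.2.1 h1
  have h4 : A.al ψ b ∈ R.1 := hR.1.1 _ h3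
  obtain ⟨e1, e2, e3, e4⟩ := al_rel hA hψ (hR.2.1 hb) (hR.2.1 h4) hty rfl
  refine ⟨h4, e4, e1.symm, e1 ▸ h1, e3, ?_, ⟨?_, ?_⟩, rfl, ?_⟩
  · intro h
    rw [h] at e1
    exact h2 e1
  · apply dv_sub hR.1.1
    intro x hx
    simp only [mem_insert, mem_singleton] at hx
    rcases hx with rfl | rfl <;> assumption
  · intro x hx
    simp only [rQ, mem_insert, mem_singleton] at hx
    rcases hx with rfl | rfl
    · exact he
    · exact e1 ▸ h1
  · rw [Perm.mul_apply, e2, pi_pi hA (hR.2.1 hb)]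

theorem rT_spec (hA : A.OK) (ψ : Perm P) {p : P} (hp : p ∈ A.dt) :
    A.Disc ψ (A.rT p) ∧ bd (A.rT p) = 2 ∧ ¬ A.Feat ψ (A.rT p) := by
  have hs : ({p} : Finset P) ⊆ A.dt := by simpa using hp
  have hc : (A.dv {p}).card = 2 := by
    have : A.dv {p} = {p, A.π p} := by ext x; simp [dv]
    rw [this, card_pair (pi_ne hA hp).symm]
  have hci : cin A.π (A.dv {p}) = 1 := by
    have h := two_mul_cin A.π (dv_closed hA hs) (fun p hp => pi_pi hA (dv_dt hA hs hp))
      (fun p hp => pi_ne hA (dv_dt hA hs hp))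
    omega
  have hb : bd (A.rT p) = 2 := by simp [bd, rT, hc]
  refine ⟨⟨⟨⟨dv_closed hA hs, by simp [rT], by simp [rT]⟩, dv_dt hA hs, by simp [rT]⟩,
    rconn_dv (p := p) (by simp) ?_, ?_, by omega⟩, hb, ?_⟩
  · intro q hq
    rw [mem_singleton.1 hq]
    exact rl_refl _
  · simp [eps, rT, hci, cin_empty]
  · rintro ⟨q, ⟨-, h⟩ | ⟨h, -⟩⟩
    · simpa [rT] using h (self_mem_orb _ q)
    · simpa [rT] using h (self_mem_orb _ q)

theorem eq_rT (hA : A.OK) (hR : A.Disc ψ R) (h : R.2 = ∅) {p : P} (hp : p ∈ R.1) :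
    R = A.rT p := by
  have hs : ({p} : Finset P) ⊆ A.dt := by simpa using hR.1.2.1 hp
  have key : ∀ x y, A.RL ψ R x y → (x ∈ A.dv {p} ↔ y ∈ A.dv {p}) := by
    intro x y hxy
    induction hxy with
    | rel x y hxy =>
      rcases hxy with ⟨hx, rfl⟩ | ⟨hx, -⟩
      · refine ⟨dv_closed hA hs x, fun h => ?_⟩
        have := dv_closed hA hs _ h
        rwa [pi_pi hA (hR.1.2.1 hx)] at this
      · simp [h] at hx
    | refl x => rfl
    | symm x y _ ih => exact ih.symm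
    | trans x y z _ _ ih1 ih2 => exact ih1.trans ih2
  refine Prod.ext ?_ h
  apply Subset.antisymm
  · intro q hq
    exact (key p q (hR.2.1.2 p hp q hq)).1 (mem_dv.2 (Or.inl (by simp)))
  · exact dv_sub hR.1.1.1 (by simpa using hp)

theorem rQ_spec (hA : A.OK) (hψ : A.WV ψ) (hb : b ∈ A.dt) (hty : A.ty b = false)
    (h1 : ψ (A.π b) ∈ A.dt) (h2 : ψ (A.π b) ≠ A.π b) :
    A.Disc ψ (A.rQ ψ b) ∧ bd (A.rQ ψ b) = 2 ∧ ¬ A.Feat ψ (A.rQ ψ b) ∧ (A.rQ ψ b).1.card = 4 ∧
      (A.rQ ψ b).1 \ (A.rQ ψ b).2 = {b, A.al ψ b} ∧ A.rQ ψ (A.al ψ b) = A.rQ ψ b := by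
  have hc : A.al ψ b ∈ A.dt := pi_dt hA h1
  obtain ⟨e1, e2, e3, e4⟩ := al_rel hA hψ hb hc hty rfl
  generalize hcc : A.al ψ b = c at *
  have hne : b ≠ c := by
    rintro rfl
    exact h2 e1
  have hs : ({b, c} : Finset P) ⊆ A.dt := by
    intro x hx
    simp only [mem_insert, mem_singleton] at hx
    rcases hx with rfl | rfl <;> assumption
  have hst : ∀ p ∈ ({b, c} : Finset P), A.ty p = false := by
    intro x hx
    simp only [mem_insert, mem_singleton] at hx
    rcases hx with rfl | rfl <;> assumption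
  have tb : A.ty (A.π b) = true := by rw [ty_pi hA hb, hty]; rfl
  have tc : A.ty (A.π c) = true := by rw [ty_pi hA hc, e4]; rfl
  have hne' : A.π b ≠ A.π c := fun h => hne (A.π.injective h)
  have hQ : A.rQ ψ b = (A.dv {b, c}, {A.π b, A.π c}) := by simp only [rQ, hcc]
  have hIt : ∀ p ∈ ({A.π b, A.π c} : Finset P), A.ty p = true := by
    intro x hx
    simp only [mem_insert, mem_singleton] at hx
    rcases hx with rfl | rfl <;> assumption
  have hI : ({A.π b, A.π c} : Finset P) ⊆ A.dv {b, c} := by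
    intro x hx
    simp only [mem_insert, mem_singleton] at hx
    rcases hx with rfl | rfl <;> simp [dv]
  have hIψ : ∀ p ∈ ({A.π b, A.π c} : Finset P), ψ p ∈ ({A.π b, A.π c} : Finset P) ∧ ψ p ≠ p := by
    intro x hx
    simp only [mem_insert, mem_singleton] at hx
    rcases hx with rfl | rfl
    · rw [e1]; exact ⟨by simp, hne'.symm⟩
    · rw [e2]; exact ⟨by simp, hne'⟩
  have hReg : A.Reg ψ (A.dv {b, c}, {A.π b, A.π c}) :=
    ⟨⟨dv_closed hA hs, hI, fun p hp => hI (hIψ p hp).1⟩, dv_dt hA hs, fun p hp _ => hIψ p hp⟩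
  have hφ : ∀ q ∈ ({A.π b, A.π c} : Finset P), (A.π * ψ) q ∉ ({A.π b, A.π c} : Finset P) := by
    intro q hq hq'
    have := ty_phi hA hψ hReg hq
    rw [hIt q hq, hIt _ hq'] at this
    simp at this
  have hcard : (A.dv {b, c}).card = 4 := by rw [dv_card hA hs hst, card_pair hne]
  have hbd : bd (A.dv {b, c}, ({A.π b, A.π c} : Finset P)) = 2 := by
    have := bd_add_card (R := (A.dv {b, c}, {A.π b, A.π c})) hI
    simp only [hcard, card_pair hne'] at this
    omega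
  rw [hQ]
  refine ⟨⟨hReg, rconn_dv (p := b) (by simp) ?_, ?_, by omega⟩, hbd, ?_, hcard, ?_, ?_⟩
  · intro x hx
    simp only [mem_insert, mem_singleton] at hx
    rcases hx with rfl | rfl
    · exact rl_refl _
    · have r1 := rl_pi (A := A) (ψ := ψ) (R := (A.dv {b, x}, {A.π b, A.π x})) (p := b)
        (by simp [dv])
      have r2 := rl_psi (A := A) (ψ := ψ) (R := (A.dv {b, x}, {A.π b, A.π x})) (p := A.π b)
        (by simp)
      have r3 := rl_pi (A := A) (ψ := ψ) (R := (A.dv {b, x}, {A.π b, A.π x})) (p := A.π x)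
        (by simp [dv])
      rw [e1] at r2
      rw [pi_pi hA hc] at r3
      exact rl_trans r1 (rl_trans r2 r3)
  · have c1 : cin ψ {A.π b, A.π c} = 1 := by
      apply cin_one (p := A.π b) (by rw [orb_two e1 e2])
      intro q hq _
      rwa [orb_two e1 e2]
    simp only [eps, cin_dv hA hs hst, card_pair hne, card_pair hne', c1, cin_zero hφ]
    norm_num
  · rintro ⟨q, ⟨h, h'⟩ | ⟨h, -⟩⟩
    · have := hIt q (h' (self_mem_orb _ q))
      simp [h] at this
    · exact not_sub (hφ q (h (self_mem_orb _ q))) h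
  · ext x
    simp only [dv, mem_sdiff, mem_union, mem_insert, mem_singleton, image_insert,
      image_singleton]
    constructor
    · grind
    · rintro (rfl | rfl)
      · exact ⟨by simp, by
          rintro (h | h)
          · exact ne_of_ty tb hty h.symm
          · exact ne_of_ty tc hty h.symm⟩
      · exact ⟨by simp, by
          rintro (h | h)
          · exact ne_of_ty tb e4 h.symm
          · exact ne_of_ty tc e4 h.symm⟩
  · simp only [rQ, e3]
    rw [pair_comm c b, pair_comm (A.π c) (A.π b)]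

theorem rStar_spec (hA : A.OK) (hψ : A.WV ψ) (hty : A.ty b = false) (hb : orb ψ b ⊆ A.dt) :
    A.Disc ψ (A.rStar ψ b) ∧ bd (A.rStar ψ b) = (orb ψ b).card ∧ A.Feat ψ (A.rStar ψ b) ∧
      (A.rStar ψ b).1.card = 2 * (orb ψ b).card := by
  have hst : ∀ p ∈ orb ψ b, A.ty p = false := fun p hp => (ty_orb hψ hp).trans hty
  have hI : orb ψ b ⊆ A.dv (orb ψ b) := fun p hp => mem_dv.2 (Or.inl hp)
  have hReg : A.Reg ψ (A.dv (orb ψ b), orb ψ b) :=
    ⟨⟨dv_closed hA hb, hI, fun p hp => hI (app_mem ψ hp)⟩, dv_dt hA hb, fun p hp h => by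
      simp [hst p hp] at h⟩
  have hφ : ∀ q ∈ orb ψ b, (A.π * ψ) q ∉ orb ψ b := by
    intro q hq hq'
    have := ty_phi hA hψ hReg hq
    rw [hst q hq, hst _ hq'] at this
    simp at this
  have hcard := dv_card hA hb hst
  have hbd : bd (A.dv (orb ψ b), orb ψ b) = (orb ψ b).card := by
    have := bd_add_card (R := (A.dv (orb ψ b), orb ψ b)) hI
    simp only [hcard] at this
    omega
  have hpos : 0 < (orb ψ b).card := card_pos.2 ⟨b, self_mem_orb _ b⟩
  unfold rStar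
  refine ⟨⟨hReg, rconn_dv (p := b) (self_mem_orb _ b) ?_, ?_, by omega⟩, hbd,
    ⟨b, Or.inl ⟨hty, Subset.rfl⟩⟩, hcard⟩
  · have : orb ψ b ⊆ (orb ψ b).filter fun q => A.RL ψ (A.dv (orb ψ b), orb ψ b) b q := by
      apply orb_subset_of_closed (mem_filter.2 ⟨self_mem_orb _ b, rl_refl _⟩)
      intro q hq
      obtain ⟨h1, h2⟩ := mem_filter.1 hq
      exact mem_filter.2 ⟨app_mem ψ h1, rl_trans h2 (rl_psi h1)⟩
    intro q hq
    exact (mem_filter.1 (this hq)).2
  · have c1 : cin ψ (orb ψ b) = 1 := cin_one (p := b) Subset.rfl (fun q hq _ => hq)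
    simp only [eps, cin_dv hA hb hst, c1, cin_zero hφ]
    push_cast
    ring

theorem rStar_le (hR : A.Pre ψ R) (h : orb ψ b ⊆ R.2) : A.rStar ψ b ≤ R := by
  exact ⟨dv_sub hR.1 (h.trans hR.2.1), h⟩

theorem rStar_atom (hA : A.OK) (hψ : A.WV ψ) (hty : A.ty b = false) (hb : orb ψ b ⊆ A.dt)
    (h3 : (orb ψ b).card ≤ 3) : A.Atom ψ (A.rStar ψ b) := by
  obtain ⟨h1, h2, h4, -⟩ := rStar_spec hA hψ hty hb
  refine ⟨⟨h1, by omega, h4⟩, ?_⟩
  intro S hS hle
  have hst : ∀ p ∈ orb ψ b, A.ty p = false := fun p hp => (ty_orb hψ hp).trans hty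
  have hle2 : S.2 ⊆ orb ψ b := hle.2
  obtain ⟨q, ⟨-, h⟩ | ⟨h, -⟩⟩ := hS.2.2
  · rw [orb_eq_of_mem (hle2 (h (self_mem_orb _ q)))] at h
    exact le_antisymm hle (rStar_le hS.1.1.1 h)
  · exfalso
    have hq := h (self_mem_orb _ q)
    have hq' := h (app_mem _ (self_mem_orb _ q))
    have := ty_phi hA hψ hS.1.1 hq
    rw [hst q (hle2 hq), hst _ (hle2 hq')] at this
    simp at this

theorem rDig_spec (hA : A.OK) (hψ : A.WV ψ) (hd : A.DigAt ψ b)
    (hb : ∀ p ∈ [b, ψ b, A.nx ψ b, ψ (A.nx ψ b)], p ∈ A.dt) :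
    A.Atom ψ (A.rDig ψ b) ∧ bd (A.rDig ψ b) = 2 ∧ A.NoA (A.rDig ψ b) ∧
      (A.rDig ψ b).1 = A.dv {b, ψ b, A.nx ψ b, ψ (A.nx ψ b)} ∧ (A.rDig ψ b).1.card = 8 ∧
      (A.rDig ψ b).2 = {b, A.nx ψ b, A.π b, A.π (ψ b), A.π (A.nx ψ b), A.π (ψ (A.nx ψ b))} ∧
      A.al ψ b = ψ (A.nx ψ b) ∧ A.DigAt ψ (A.nx ψ b) ∧ A.rDig ψ (A.nx ψ b) = A.rDig ψ b ∧
      orb (A.π * ψ) b = {b, A.π (ψ b), A.nx ψ b, A.π (ψ (A.nx ψ b))} := by
  obtain ⟨t1, hn, nd⟩ := hd
  simp only [List.mem_cons, List.not_mem_nil, or_false, forall_eq_or_imp, forall_eq] at hb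
  obtain ⟨d1, d2, d3, d4⟩ := hb
  have t2 : A.ty (ψ b) = false := (hψ b).1.trans t1
  obtain ⟨q2, q3, a3, t3⟩ := al_rel (c := A.nx ψ b) hA hψ d2 d3 t2 rfl
  have t4 : A.ty (ψ (A.nx ψ b)) = false := (hψ _).1.trans t3
  obtain ⟨q4, q1, a1, -⟩ := al_rel (c := b) hA hψ d4 d1 t4 hn
  have e := rDig_eq (A := A) (ψ := ψ) (b := b) rfl rfl rfl a1
  have e' := rDig_eq (A := A) (ψ := ψ) (b := A.nx ψ b) rfl hn rfl a3
  obtain ⟨k1, k2, k3, k4, k5⟩ := dig_core hA hψ d1 d2 d3 d4 t1 t2 t3 t4 rfl rfl q1 q4 q2 q3 nd e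
  refine ⟨k1, k2, k3, by rw [e], k4, by rw [e], a1, ⟨t3, by rw [hn], ?_⟩, ?_, k5⟩
  · rw [hn]
    simp only [List.nodup_cons, List.mem_cons, List.not_mem_nil, or_false, not_or,
      not_false_eq_true, List.nodup_nil, and_true] at nd ⊢
    grind
  · rw [e, e']
    refine Prod.ext ?_ ?_
    · ext x
      simp only [dv, mem_union, mem_insert, mem_singleton, image_insert, image_singleton]
      grind
    · ext x
      simp only [mem_insert, mem_singleton]
      grind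

theorem rTri_spec (hA : A.OK) (hψ : A.WV ψ) (hd : A.TriAt ψ b)
    (hb : ∀ p ∈ [b, ψ b, A.nx ψ b, ψ (A.nx ψ b), A.nx ψ (A.nx ψ b), ψ (A.nx ψ (A.nx ψ b))],
      p ∈ A.dt) :
    (A.rTri ψ b).1 =
        A.dv {b, ψ b, A.nx ψ b, ψ (A.nx ψ b), A.nx ψ (A.nx ψ b), ψ (A.nx ψ (A.nx ψ b))} ∧
      (A.rTri ψ b).2 = {b, A.nx ψ b, A.nx ψ (A.nx ψ b), A.π b, A.π (ψ b), A.π (A.nx ψ b),
        A.π (ψ (A.nx ψ b)), A.π (A.nx ψ (A.nx ψ b)), A.π (ψ (A.nx ψ (A.nx ψ b)))} ∧
      A.al ψ b = ψ (A.nx ψ (A.nx ψ b)) ∧ A.TriAt ψ (A.nx ψ b) ∧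
      A.rTri ψ (A.nx ψ b) = A.rTri ψ b := by
  obtain ⟨t1, hn, nd⟩ := hd
  simp only [List.mem_cons, List.not_mem_nil, or_false, forall_eq_or_imp, forall_eq] at hb
  obtain ⟨d1, d2, d3, d4, d5, d6⟩ := hb
  have t2 : A.ty (ψ b) = false := (hψ b).1.trans t1
  obtain ⟨-, -, a3, t3⟩ := al_rel (c := A.nx ψ b) hA hψ d2 d3 t2 rfl
  have t4 : A.ty (ψ (A.nx ψ b)) = false := (hψ _).1.trans t3
  obtain ⟨-, -, -, t5⟩ := al_rel (c := A.nx ψ (A.nx ψ b)) hA hψ d4 d5 t4 rfl
  have t6 : A.ty (ψ (A.nx ψ (A.nx ψ b))) = false := (hψ _).1.trans t5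
  obtain ⟨-, -, a1, -⟩ := al_rel (c := b) hA hψ d6 d1 t6 hn
  have e := rTri_eq (A := A) (ψ := ψ) (b := b) rfl rfl rfl rfl rfl a1
  have e' := rTri_eq (A := A) (ψ := ψ) (b := A.nx ψ b) rfl rfl rfl hn rfl a3
  refine ⟨by rw [e], by rw [e], a1, ⟨t3, by rw [hn], ?_⟩, ?_⟩
  · rw [hn]
    simp only [List.nodup_cons, List.mem_cons, List.not_mem_nil, or_false, not_or,
      not_false_eq_true, List.nodup_nil, and_true] at nd ⊢
    grind
  · rw [e, e']
    refine Prod.ext ?_ ?_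
    · ext x
      simp only [dv, mem_union, mem_insert, mem_singleton, image_insert, image_singleton]
      grind
    · ext x
      simp only [mem_insert, mem_singleton]
      grind

/-- A small internal face of a connected region with a cut gives a divergent subregion. -/
theorem face_div (hA : A.OK) (hψ : A.WV ψ) (hR : A.Reg ψ R) (hc : A.RConn ψ R) (h1 : 1 ≤ bd R)
    (hty : A.ty b = false) (hf : orb (A.π * ψ) b ⊆ R.2) (h4 : (orb (A.π * ψ) b).card ≤ 4) :
    (A.nx ψ b = b ∧ A.Div ψ (A.rLoop ψ b) ∧ bd (A.rLoop ψ b) = 1 ∧ A.rLoop ψ b ≤ R) ∨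
      (A.DigAt ψ b ∧ A.rDig ψ b ≤ R) := by
  have m0 : b ∈ orb (A.π * ψ) b := self_mem_orb _ b
  have m1 : A.π (ψ b) ∈ orb (A.π * ψ) b := app_mem _ m0
  have m2 : A.nx ψ b ∈ orb (A.π * ψ) b := app_mem _ m1
  have m3 : A.π (ψ (A.nx ψ b)) ∈ orb (A.π * ψ) b := app_mem _ m2
  have m4 : A.nx ψ (A.nx ψ b) ∈ orb (A.π * ψ) b := app_mem _ m3
  have i0 := hf m0
  have i1 := hf m1
  have i2 := hf m2
  have i3 := hf m3
  have t2 : A.ty (ψ b) = false := (hψ b).1.trans hty
  have v2 : ψ b ∈ R.1 := hR.1.2.2 _ i0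
  obtain ⟨v3, t3, q2, j3, a3, n3, le1, -, -⟩ := edge_facts hA hψ hR v2 t2 i1
  change A.nx ψ b ∈ R.1 at v3
  change A.ty (A.nx ψ b) = false at t3
  change A.π (A.nx ψ b) = _ at q2
  change A.π (A.nx ψ b) ∈ R.2 at j3
  change A.al ψ (A.nx ψ b) = ψ b at a3
  change A.nx ψ b ≠ ψ b at n3
  have t4 : A.ty (ψ (A.nx ψ b)) = false := (hψ _).1.trans t3
  have v4 : ψ (A.nx ψ b) ∈ R.1 := hR.1.2.2 _ i2
  obtain ⟨-, t5, -, j5, a5, n5, -, -, -⟩ := edge_facts hA hψ hR v4 t4 i3
  change A.ty (A.nx ψ (A.nx ψ b)) = false at t5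
  change A.π (A.nx ψ (A.nx ψ b)) ∈ R.2 at j5
  change A.al ψ (A.nx ψ (A.nx ψ b)) = _ at a5
  change A.nx ψ (A.nx ψ b) ≠ _ at n5
  have v1 : b ∈ R.1 := hR.1.2.1 i0
  have u1 : A.ty (A.π b) = true := by rw [ty_pi hA (hR.2.1 v1), hty]; rfl
  have u2 : A.ty (A.π (ψ b)) = true := by rw [ty_pi hA (hR.2.1 v2), t2]; rfl
  have u4 : A.ty (A.π (ψ (A.nx ψ b))) = true := by rw [ty_pi hA (hR.2.1 v4), t4]; rfl
  have rs : ∀ x ∈ R.2, A.rS ψ x ≤ R := by
    intro x hx
    refine ⟨dv_sub hR.1.1 ?_, by simpa [rS] using hx⟩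
    intro y hy
    simp only [mem_insert, mem_singleton] at hy
    rcases hy with rfl | rfl
    · exact hR.1.2.1 hx
    · exact hR.1.2.2 _ hx
  by_cases h2 : A.nx ψ b = b
  · left
    rw [h2] at q2 j3 a3 n3
    have le2 := (edge_facts hA hψ hR v1 hty j3).2.2.2.2.2.2.1
    have q1 : ψ (A.π b) = A.π (ψ b) := by rw [q2, (hψ _).2 u2]
    have hL : A.rLoop ψ b = (A.dv {b, ψ b}, {b, A.π b, A.π (ψ b)}) := by
      simp only [rLoop, rS, rQ, a3, Prod.mk_sup_mk, sup_eq_union, union_self]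
      rfl
    have hle : A.rLoop ψ b ≤ R := sup_le (rs b i0) le2
    have hs : ({b, ψ b} : Finset P) ⊆ A.dt := by
      intro x hx
      simp only [mem_insert, mem_singleton] at hx
      rcases hx with rfl | rfl
      · exact hR.2.1 v1
      · exact hR.2.1 v2
    have hst : ∀ p ∈ ({b, ψ b} : Finset P), A.ty p = false := by
      intro x hx
      simp only [mem_insert, mem_singleton] at hx
      rcases hx with rfl | rfl <;> assumption
    have k1 : b ≠ A.π b := (ne_of_ty u1 hty).symm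
    have k2 : b ≠ A.π (ψ b) := (ne_of_ty u2 hty).symm
    have k3 : A.π b ≠ A.π (ψ b) := fun h => n3 (A.π.injective h)
    have k4 : ψ b ∉ ({b, A.π b, A.π (ψ b)} : Finset P) := by
      simp [n3.symm, (ne_of_ty u1 t2).symm, (ne_of_ty u2 t2).symm]
    have hI : ({b, A.π b, A.π (ψ b)} : Finset P) ⊆ A.dv {b, ψ b} := by
      intro x hx
      simp only [mem_insert, mem_singleton] at hx
      rcases hx with rfl | rfl | rfl <;> simp [dv]
    have hc3 : ({b, A.π b, A.π (ψ b)} : Finset P).card = 3 := by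
      rw [card_insert_of_notMem (by simp [k1, k2]), card_pair k3]
    have hReg : A.Reg ψ (A.dv {b, ψ b}, {b, A.π b, A.π (ψ b)}) := by
      refine ⟨⟨dv_closed hA hs, hI, ?_⟩, dv_dt hA hs, ?_⟩
      · intro x hx
        simp only [mem_insert, mem_singleton] at hx
        rcases hx with rfl | rfl | rfl
        · simp [dv]
        · simp [dv, q1]
        · simp [dv, ← q2]
      · intro x hx ht
        simp only [mem_insert, mem_singleton] at hx
        rcases hx with rfl | rfl | rfl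
        · simp [hty] at ht
        · rw [q1]; exact ⟨by simp, k3.symm⟩
        · rw [← q2]; exact ⟨by simp, k3⟩
    have hcard : (A.dv {b, ψ b}).card = 4 := by rw [dv_card hA hs hst, card_pair n3]
    have hbd : bd (A.dv {b, ψ b}, ({b, A.π b, A.π (ψ b)} : Finset P)) = 1 := by
      have := bd_add_card (R := (A.dv {b, ψ b}, {b, A.π b, A.π (ψ b)})) hI
      simp only [hcard, hc3] at this
      omega
    have f1 : (A.π * ψ) b = A.π (ψ b) := rfl
    have f2 : (A.π * ψ) (A.π (ψ b)) = b := h2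
    have f3 : (A.π * ψ) (A.π b) = ψ b := a3
    have ho := orb_two f1 f2
    have hoS : orb (A.π * ψ) b ⊆ {b, A.π b, A.π (ψ b)} := by
      rw [ho]
      intro x hx
      simp only [mem_insert, mem_singleton] at hx ⊢
      grind
    refine ⟨h2, ?_, by rw [hL, hbd], hle⟩
    rw [hL]
    refine ⟨⟨hReg, rconn_dv (p := b) (by simp) ?_, ?_, by omega⟩, by omega,
      ⟨b, Or.inr ⟨hoS, h4⟩⟩⟩
    · intro x hx
      simp only [mem_insert, mem_singleton] at hx
      rcases hx with rfl | rfl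
      · exact rl_refl _
      · exact rl_psi (by simp)
    · have c1 : cin ψ {b, A.π b, A.π (ψ b)} = 1 := by
        apply cin_one (p := A.π b)
        · rw [orb_two q1 q2.symm]
          intro x hx
          simp only [mem_insert, mem_singleton] at hx ⊢
          grind
        · intro q hq hq'
          rw [orb_two q1 q2.symm]
          simp only [mem_insert, mem_singleton] at hq
          rcases hq with rfl | rfl | rfl
          · exact (k4 hq').elim
          all_goals simp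
      have c2 : cin (A.π * ψ) {b, A.π b, A.π (ψ b)} = 1 := by
        apply cin_one hoS
        intro q hq hq'
        rw [ho]
        simp only [mem_insert, mem_singleton] at hq
        rcases hq with rfl | rfl | rfl
        · simp
        · exact (k4 (f3 ▸ hq')).elim
        · simp
      simp only [eps, cin_dv hA hs hst, card_pair n3, hc3, c1, c2]
      norm_num
  · right
    have nxi : ∀ x y, A.nx ψ x = A.nx ψ y → x = y := fun x y h => ψ.injective (al_inj h)
    have h4' : A.nx ψ (A.nx ψ b) = b := by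
      by_contra hne
      have hsub : ({b, A.nx ψ b, A.nx ψ (A.nx ψ b), A.π (ψ b), A.π (ψ (A.nx ψ b))} : Finset P) ⊆
          orb (A.π * ψ) b := by
        intro x hx
        simp only [mem_insert, mem_singleton] at hx
        rcases hx with rfl | rfl | rfl | rfl | rfl <;> assumption
      have hcard := card_le_card hsub
      have z1 : A.nx ψ b ≠ A.nx ψ (A.nx ψ b) := fun h => h2 (nxi _ _ h).symm
      have z2 : A.π (ψ b) ≠ A.π (ψ (A.nx ψ b)) :=
        fun h => h2 (ψ.injective (A.π.injective h)).symm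
      rw [card_insert_of_notMem (by
          simp [Ne.symm h2, Ne.symm hne, (ne_of_ty u2 hty).symm, (ne_of_ty u4 hty).symm]),
        card_insert_of_notMem (by simp [z1, (ne_of_ty u2 t3).symm, (ne_of_ty u4 t3).symm]),
        card_insert_of_notMem (by simp [(ne_of_ty u2 t5).symm, (ne_of_ty u4 t5).symm]),
        card_pair z2] at hcard
      omega
    rw [h4'] at j5 a5 n5
    have le2 := (edge_facts hA hψ hR v1 hty j5).2.2.2.2.2.2.1
    have hbb : b ≠ ψ b := by
      intro hb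
      have hc' : ψ (A.nx ψ b) = A.nx ψ b := by
        rw [← a5]
        conv_lhs => rw [hb]
        rfl
      have hs : ({b, A.nx ψ b} : Finset P) ⊆ A.dt := by
        intro x hx
        simp only [mem_insert, mem_singleton] at hx
        rcases hx with rfl | rfl
        · exact hR.2.1 v1
        · exact hR.2.1 v3
      have hsub : A.dv {b, A.nx ψ b} ⊆ R.2 := by
        intro x hx
        simp only [dv, mem_union, mem_insert, mem_singleton, image_insert, image_singleton] at hx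
        rcases hx with (rfl | rfl) | rfl | rfl <;> assumption
      have hPre : A.Pre ψ (A.dv {b, A.nx ψ b}, A.dv {b, A.nx ψ b}) := by
        refine ⟨dv_closed hA hs, Subset.rfl, ?_⟩
        intro x hx
        simp only [dv, mem_union, mem_insert, mem_singleton, image_insert, image_singleton] at hx ⊢
        rcases hx with (rfl | rfl) | rfl | rfl
        · exact Or.inl (Or.inl hb.symm)
        · exact Or.inl (Or.inr hc')
        · refine Or.inr (Or.inr ?_)
          rw [q2, ← hb]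
        · refine Or.inr (Or.inl ?_)
          rw [q2, (hψ _).2 u2, ← hb]
      have := bd_pos_of_le hR.1 hc h1 hPre ⟨hsub.trans hR.1.2.1, hsub⟩
        ⟨b, mem_dv.2 (Or.inl (by simp))⟩
      simp [bd] at this
    have hcc : A.nx ψ b ≠ ψ (A.nx ψ b) := by
      intro hc'
      rw [← hc'] at a5
      exact hbb (al_inj a5)
    refine ⟨⟨hty, h4', ?_⟩, sup_le (sup_le (sup_le (rs b i0) le1) (rs _ i2)) le2⟩
    have z : ψ b ≠ ψ (A.nx ψ b) := fun h => h2 (ψ.injective h).symm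
    simp [hbb, Ne.symm h2, n5, Ne.symm n3, z, hcc]

/-- A feature is an internal vertex or a small internal face through a B port. -/
theorem Feat.cases (hA : A.OK) (hψ : A.WV ψ) (hR : A.Reg ψ R) (h : A.Feat ψ R) :
    ∃ b, A.ty b = false ∧
      (orb ψ b ⊆ R.2 ∨ (orb (A.π * ψ) b ⊆ R.2 ∧ (orb (A.π * ψ) b).card ≤ 4)) := by
  obtain ⟨p, h | ⟨h1, h2⟩⟩ := h
  · exact ⟨p, h.1, Or.inl h.2⟩
  · cases hp : A.ty p
    · exact ⟨p, hp, Or.inr ⟨h1, h2⟩⟩
    · refine ⟨(A.π * ψ) p, ?_, Or.inr ?_⟩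
      · rw [ty_phi hA hψ hR (h1 (self_mem_orb _ p)), hp]; rfl
      · rw [orb_apply]; exact ⟨h1, h2⟩

end Amb

end Pool.Agent.P.MP_48bde8_co
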