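import Pool.Agent.P.MP_48bde8_co.TableAux2

/-! Kernel checks for the task TABLE, first half. -/

namespace Pool.Agent.P.MP_48bde8_co.TA

theorem chk0 : t0.all (chkRow tb gg vl) = true := by decide +kernel

theorem chk1 : t1.all (chkRow tb gg vl) = true := by decide +kernel

theorem chk2 : t2.all (chkRow tb gg vl) = true := by decide +kernel

theorem chk3 : t3.all (chkRow tb gg vl) = true := by decide +kernel

end Pool.Agent.P.MP_48bde8_co.TA
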