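import Pool.Agent.P.MP_48bde8_co.TableAux2

/-! Kernel checks for the task TABLE, second half. -/

namespace Pool.Agent.P.MP_48bde8_co.TA

theorem chk4 : t4.all (chkRow tb gg vl) = true := by decide +kernel

theorem chk5 : t5.all (chkRow tb gg vl) = true := by decide +kernel

theorem chk6 : t6.all (chkRow tb gg vl) = true := by decide +kernel

theorem chk7 : t7.all (chkRow tb gg vl) = true := by decide +kernel

end Pool.Agent.P.MP_48bde8_co.TA
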