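import Pool.Agent.P.MP_48bde8_co.Gram
import Pool.Agent.P.MP_48bde8_co.TableAux3
import Pool.Agent.P.MP_48bde8_co.TableAux4

/-! Task TABLE: the low-order coefficients of the couplings. -/

namespace Pool.Agent.P.MP_48bde8_co

open PowerSeries

/-- The nonzero coefficients `(n, j, c)` of `t ^ n z ^ j` with `n + 2 j ≤ 30`. -/
def lowL : Fin 9 → List (ℕ × ℕ × ℤ) :=
  ![[(1, 0, -1), (3, 1, 1), (5, 1, -1), (19, 4, 1)],
    [(2, 1, -1), (4, 2, 1), (4, 1, 1), (6, 3, -1), (6, 2, -1), (8, 4, 1), (10, 5, -1), (12, 6, 1),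
      (14, 7, -1), (18, 6, -1), (18, 5, -1), (18, 4, -1)],
    [(2, 0, -1), (6, 1, -1), (20, 4, 2)],
    [(1, 0, 1), (5, 1, 1), (19, 5, -1), (19, 4, -2)],
    [(4, 1, -1), (6, 2, 1), (8, 3, -1), (10, 4, 1), (12, 5, -1), (14, 6, 1), (16, 7, -1),
      (18, 5, 2), (18, 4, 2)],
    [(3, 0, -1), (21, 4, 1)], [(20, 4, -1)], [(19, 4, 1)], [(18, 4, -1)]]

namespace TA

theorem chk_all : tb.all (chkRow tb gg vl) = true := by
  have e : tb.all (chkRow tb gg vl) =
      (((t0.all (chkRow tb gg vl) && t1.all (chkRow tb gg vl)) &&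
        (t2.all (chkRow tb gg vl) && t3.all (chkRow tb gg vl))) &&
      ((t4.all (chkRow tb gg vl) && t5.all (chkRow tb gg vl)) &&
        (t6.all (chkRow tb gg vl) && t7.all (chkRow tb gg vl)))) := by
    generalize chkRow tb gg vl = p
    simp only [tb, Tr.all]
  rw [e, chk0, chk1, chk2, chk3, chk4, chk5, chk6, chk7]
  rfl

theorem chk_nine : ∀ i : Fin 9,
    chk tb gg vl (w9 i).headI (w9 i).tail 31 (ent tb (w9 i)).2 = true := by decide +kernel

theorem chk_val : ∀ i : Fin 9, 1 ≤ vl i ∧ zS (gg i) (vl i) = true := by decide +kernel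

def momL : Fin 9 → SS :=
  ![[], [[0, 1]], [[0, 0, 1]], [[], [0, 0, 1]], [[0, 1, 1], [], [0, 0, 1]], [],
    [[0, 0, 1], [], [0, 0, 0, 1]], [[], [0, 0, 2, 1], [], [0, 0, 0, 2]],
    [[0, 1, 3, 1], [], [0, 0, 3, 3], [], [0, 0, 0, 3], [], [0, 0, 0, 0, 1]]]

theorem chk_mom : ∀ w ∈ words, zS (addS (momL (cls w)) (negS (ent tb w).2)) 31 = true := by
  decide +kernel

theorem chk_nil : (ent tb []).2 = [[0, 1]] := by decide +kernel

theorem chk_low : ∀ i : Fin 9, ∀ n < 31, ∀ j < 16, n + 2 * j ≤ 30 → ((gg i).getD n []).getD j 0 =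
    ((lowL i).map fun y => if y.1 = n ∧ y.2.1 = j then y.2.2 else 0).sum := by decide +kernel

theorem toS_momL (i : Fin 9) :
    toS (momL i) = mom0 (C (1 : KK)) (C Polynomial.X) (X : PowerSeries KK) i := by
  have h2 : (C (Polynomial.C (2 : ℚ)) : PowerSeries KK) = 2 := by simp only [map_ofNat]
  have h3 : (C (Polynomial.C (3 : ℚ)) : PowerSeries KK) = 3 := by simp only [map_ofNat]
  fin_cases i <;> simp [momL, mom0, toS, toP, h2, h3] <;> ring

theorem short {w : List Bool} (hw : w.length ≤ 3) : w = [] ∨ w ∈ words := by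
  rcases w with _ | ⟨a, _ | ⟨b, _ | ⟨c, _ | ⟨d, w⟩⟩⟩⟩
  · exact Or.inl rfl
  · right; revert a; decide
  · right; revert a b; decide
  · right; revert a b c; decide
  · simp only [List.length_cons] at hw; omega

end TA

open TA in
theorem table {τ γ : List Bool → PowerSeries (Polynomial ℚ)}
    {ω : List Bool → List Bool → PowerSeries (Polynomial ℚ)}
    (h : PartI (1 : Polynomial ℚ) Polynomial.X τ γ ω) (i : Fin 9) (n j : ℕ) (hn : n + 2 * j ≤ 30) :
    (coeff n (γ (w9 i))).coeff j =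
      (((lowL i).map fun y => if y.1 = n ∧ y.2.1 = j then y.2.2 else 0).sum : ℤ) := by
  have h1 : SD1 1 (C Polynomial.X) τ γ := by simpa using h.sd1
  have hs : ∀ w : List Bool, w.length ≤ 3 → (X : PowerSeries KK) ^ 31 ∣ τ w - Tf tb w := by
    intro w hw
    rcases short hw with rfl | hw
    · rw [Tf, chk_nil, h1.nil]; simp [toS, toP]
    · have := toS_z _ _ (chk_mom w hw)
      rwa [toS_add, toS_neg, toS_momL, ← h.mom, ← rot_cls h1.rotT hw, ← sub_eq_add_neg] at this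
  have h2 := (sound h1 h.const (fun i => ⟨(chk_val i).1, toS_z _ _ (chk_val i).2⟩) hs chk_nine
    chk_all 31 le_rfl).1 i
  have h3 := X_pow_dvd_iff.1 h2 n (by omega)
  rw [map_sub, sub_eq_zero] at h3
  rw [h3, coeff_toS, coeff_toP, chk_low i n (by omega) j (by omega) hn]

end Pool.Agent.P.MP_48bde8_co
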