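import Pool.Agent.P.MP_48bde8_co.Gram

/-! Reflection for the task TABLE: list arithmetic and the soundness of the checker. -/

namespace Pool.Agent.P.MP_48bde8_co.TA

open PowerSeries

abbrev KK : Type := Polynomial ℚ

/-- Polynomials as lists. -/
noncomputable def toP : List ℤ → KK
  | [] => 0
  | a :: l => Polynomial.C (a : ℚ) + Polynomial.X * toP l

def addP : List ℤ → List ℤ → List ℤ
  | [], q => q
  | a :: p, [] => a :: p
  | a :: p, b :: q => (a + b) :: addP p q

def sclP (a : ℤ) : List ℤ → List ℤ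
  | [] => []
  | b :: q => (a * b) :: sclP a q

def mulP : List ℤ → List ℤ → List ℤ
  | [], _ => []
  | a :: p, q => cond (a == 0) (0 :: mulP p q) (addP (sclP a q) (0 :: mulP p q))

def mulP' (p : List ℤ) : List ℤ → List ℤ
  | [] => []
  | b :: q => mulP p (b :: q)

def zP : List ℤ → Bool
  | [] => true
  | a :: p => a == 0 && zP p

theorem toP_add : ∀ p q, toP (addP p q) = toP p + toP q
  | [], q => by simp [addP, toP]
  | a :: p, [] => by simp [addP, toP]
  | a :: p, b :: q => by simp only [addP, toP, toP_add p q]; push_cast; rw [map_add]; ring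

theorem toP_scl (a : ℤ) : ∀ q, toP (sclP a q) = Polynomial.C (a : ℚ) * toP q
  | [] => by simp [sclP, toP]
  | b :: q => by simp only [sclP, toP, toP_scl a q]; push_cast; rw [map_mul]; ring

theorem toP_mul : ∀ p q, toP (mulP p q) = toP p * toP q
  | [], q => by simp [mulP, toP]
  | a :: p, q => by
    by_cases h : a = 0
    · subst h; simp [mulP, toP, toP_mul p q, mul_assoc]
    · have : (a == 0) = false := by simpa using h
      simp only [mulP, this, cond_false, toP_add, toP_scl, toP, toP_mul p q]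
      simp; ring

theorem toP_mul' (p : List ℤ) : ∀ q, toP (mulP' p q) = toP p * toP q
  | [] => by simp [mulP', toP]
  | b :: q => by simp only [mulP', toP_mul]

theorem toP_z : ∀ p, zP p = true → toP p = 0
  | [], _ => rfl
  | a :: p, h => by
    simp only [zP, Bool.and_eq_true, beq_iff_eq] at h
    simp [toP, h.1, toP_z p h.2]

theorem coeff_toP : ∀ (p : List ℤ) (j : ℕ), (toP p).coeff j = (p.getD j 0 : ℤ)
  | [], j => by simp [toP]
  | a :: p, 0 => by simp [toP]
  | a :: p, j + 1 => by
    rw [toP, Polynomial.coeff_add, Polynomial.coeff_C_succ, Polynomial.coeff_X_mul, coeff_toP p j]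
    simp

abbrev SS : Type := List (List ℤ)

/-- Series as lists. -/
noncomputable def toS : SS → PowerSeries KK
  | [] => 0
  | p :: l => C (toP p) + X * toS l

def addS : SS → SS → SS
  | [], b => b
  | p :: a, [] => p :: a
  | p :: a, q :: b => addP p q :: addS a b

def negS : SS → SS
  | [] => []
  | p :: a => sclP (-1) p :: negS a

def sclS (p : List ℤ) : SS → ℕ → SS
  | [], _ => []
  | _ :: _, 0 => []
  | q :: b, N + 1 => mulP' p q :: sclS p b N

def mulS : SS → ℕ → SS → SS
  | [], _, _ => []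
  | _ :: _, 0, _ => []
  | [] :: a, N + 1, b => [] :: mulS a N b
  | (c :: p) :: a, N + 1, b => addS (sclS (c :: p) b (N + 1)) ([] :: mulS a N b)

def zS : SS → ℕ → Bool
  | [], _ => true
  | _ :: _, 0 => true
  | p :: a, N + 1 => zP p && zS a N

def sumS : List SS → SS
  | [] => []
  | a :: l => addS a (sumS l)

theorem toS_add : ∀ a b, toS (addS a b) = toS a + toS b
  | [], b => by simp [addS, toS]
  | p :: a, [] => by simp [addS, toS]
  | p :: a, q :: b => by simp only [addS, toS, toS_add a b, toP_add, map_add]; ring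

theorem toS_neg : ∀ a, toS (negS a) = -toS a
  | [] => by simp [negS, toS]
  | p :: a => by simp only [negS, toS, toS_neg a, toP_scl]; simp; ring

theorem toS_scl (p : List ℤ) : ∀ b N, (X : PowerSeries KK) ^ N ∣ C (toP p) * toS b - toS (sclS p b N)
  | [], N => by simp [sclS, toS]
  | q :: b, 0 => by simp
  | q :: b, N + 1 => by
    have := mul_dvd_mul_left (X : PowerSeries KK) (toS_scl p b N)
    rw [← pow_succ'] at this
    refine this.trans (dvd_of_eq ?_)
    simp only [sclS, toS, toP_mul', map_mul]; ring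

theorem toS_mul : ∀ a N b, (X : PowerSeries KK) ^ N ∣ toS a * toS b - toS (mulS a N b)
  | [], N, b => by simp [mulS, toS]
  | p :: a, 0, b => by simp
  | [] :: a, N + 1, b => by
    have := mul_dvd_mul_left (X : PowerSeries KK) (toS_mul a N b)
    rw [← pow_succ'] at this
    refine this.trans (dvd_of_eq ?_)
    simp only [mulS, toS, toP, map_zero]; ring
  | (c :: p) :: a, N + 1, b => by
    have := mul_dvd_mul_left (X : PowerSeries KK) (toS_mul a N b)
    rw [← pow_succ'] at this
    refine (dvd_add this (toS_scl (c :: p) b (N + 1))).trans (dvd_of_eq ?_)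
    simp only [mulS, toS_add]
    rw [toS, toS, show toP [] = 0 from rfl, map_zero]; ring

theorem toS_z : ∀ a N, zS a N = true → (X : PowerSeries KK) ^ N ∣ toS a
  | [], N, _ => by simp [toS]
  | p :: a, 0, _ => by simp
  | p :: a, N + 1, h => by
    simp only [zS, Bool.and_eq_true] at h
    have := mul_dvd_mul_left (X : PowerSeries KK) (toS_z a N h.2)
    rw [← pow_succ'] at this
    simpa [toS, toP_z p h.1] using this

theorem toS_sum : ∀ l : List SS, toS (sumS l) = (l.map toS).sum
  | [] => rfl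
  | a :: l => by simp [sumS, toS_add, toS_sum l]

theorem coeff_toS : ∀ (a : SS) (n : ℕ), coeff n (toS a) = toP (a.getD n [])
  | [], n => by simp [toS, toP]
  | p :: a, 0 => by simp [toS]
  | p :: a, n + 1 => by simp [toS, coeff_succ_X_mul, coeff_toS a n]

theorem dvd_sum_sub {α : Type} {d : PowerSeries KK} (f g : α → PowerSeries KK) :
    ∀ l : List α, (∀ s ∈ l, d ∣ f s - g s) → d ∣ (l.map f).sum - (l.map g).sum
  | [], _ => by simp
  | s :: l, h => by
    have h1 := h s (by simp)
    have h2 := dvd_sum_sub f g l fun t ht => h t (by simp [ht])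
    refine (dvd_add h1 h2).trans (dvd_of_eq ?_)
    simp only [List.map_cons, List.sum_cons]; ring

/-! Rotations. -/

def num : List Bool → ℕ → ℕ
  | [], a => a
  | c :: w, a => num w (cond c (2 * a + 1) (2 * a))

def best (m : ℕ) : List Bool → ℕ → ℕ → ℕ → ℕ → ℕ
  | [], _, _, _, j => j
  | _ :: w, c, k, b, j =>
    cond (Nat.blt c b) (best m w (2 * c % m) (k + 1) c k) (best m w (2 * c % m) (k + 1) b j)

def rotN (w : List Bool) (k : ℕ) : List Bool := w.drop k ++ w.take k

def can (w : List Bool) : List Bool :=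
  rotN w (best (2 ^ w.length - 1) w (num w 0) 0 (num w 0) 0)

theorem inv_app {β : Type} {f : List Bool → β} (h : ∀ c w, f (w ++ [c]) = f (c :: w)) :
    ∀ a b : List Bool, f (b ++ a) = f (a ++ b)
  | [], b => by simp
  | c :: a, b => by
    have := inv_app h a (b ++ [c])
    rw [List.append_assoc, List.singleton_append, ← List.append_assoc, h] at this
    exact this

theorem inv_can {β : Type} {f : List Bool → β} (h : ∀ c w, f (w ++ [c]) = f (c :: w))
    (w : List Bool) : f (can w) = f w := by
  rw [can, rotN, inv_app h, List.take_append_drop]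

theorem length_can (w : List Bool) : (can w).length = w.length :=
  inv_can (f := List.length) (fun c w => by simp) w

def eqW : List Bool → List Bool → Bool
  | [], [] => true
  | [], _ :: _ => false
  | _ :: _, [] => false
  | c :: w, d :: y => cond c (cond d (eqW w y) false) (cond d false (eqW w y))

theorem eq_of_eqW : ∀ w y, eqW w y = true → w = y
  | [], [], _ => rfl
  | [], _ :: _, h => by simp [eqW] at h
  | _ :: _, [], h => by simp [eqW] at h
  | c :: w, d :: y, h => by
    cases c <;> cases d <;> simp only [eqW, cond_true, cond_false, Bool.false_eq_true] at h <;>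
      rw [eq_of_eqW w y h]

/-- A table row: key, root, precision, series. -/
abbrev Row : Type := List Bool × List Bool × ℕ × SS

/-- Search trees. -/
inductive Tr : Type
  | leaf : Row → Tr
  | node : ℕ → Tr → Tr → Tr

def Tr.get (c : ℕ) : Tr → Row
  | .leaf e => e
  | .node k l r => cond (Nat.blt c k) (l.get c) (r.get c)

def Tr.all (p : Row → Bool) : Tr → Bool
  | .leaf e => p e
  | .node _ l r => l.all p && r.all p

theorem Tr.all_get {p : Row → Bool} (c : ℕ) : ∀ t : Tr, t.all p = true → p (t.get c) = true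
  | .leaf e, h => h
  | .node k l r, h => by
    simp only [Tr.all, Bool.and_eq_true] at h
    rw [Tr.get]
    cases Nat.blt c k
    · exact Tr.all_get c r h.2
    · exact Tr.all_get c l h.1

def pick (k : List Bool) (e : Row) : ℕ × SS := cond (eqW e.1 k) e.2.2 (0, [])

def find (k : List Bool) (t : Tr) : ℕ × SS := pick k (t.get (num k 1))

theorem find_spec (k : List Bool) (t : Tr) :
    (find k t).1 = 0 ∨ ∃ c, (t.get c).1 = k ∧ find k t = (t.get c).2.2 := by
  cases h : eqW (t.get (num k 1)).1 k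
  · exact Or.inl (by simp [find, pick, h])
  · exact Or.inr ⟨_, eq_of_eqW _ _ h, by simp [find, pick, h]⟩

def pre (c : Bool) : List Bool := if c then [] else [false]

theorem splits_len (c : Bool) : ∀ W, ∀ s ∈ splits c W, s.1.length + s.2.length + 1 = W.length
  | [], s, h => by simp [splits] at h
  | d :: W, s, h => by
    simp only [splits, List.mem_append, List.mem_map] at h
    rcases h with h | ⟨t, ht, rfl⟩
    · split_ifs at h
      · simp only [List.mem_singleton] at h; subst h; simp
      · simp at h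
    · have := splits_len c W t ht
      simp only [List.length_cons]; omega

/-- The part of the loop equation without couplings. -/
noncomputable def Qd (τ : List Bool → PowerSeries KK) (c : Bool) (W : List Bool) : PowerSeries KK :=
  (if c then 0 else τ W) + ((splits c W).map fun s => τ (pre c ++ s.1) * τ s.2).sum

theorem sd_eq {z : PowerSeries KK} {τ γ : List Bool → PowerSeries KK} (h : SD1 1 z τ γ) (c : Bool)
    (W : List Bool) : τ (c :: W) = Qd τ c W + lin τ γ c W := by
  cases c
  · rw [h.sdB]; simp [Qd, lin, pre]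
  · rw [h.sdA]; simp [Qd, lin, pre]

section Chk

variable (tb : Tr) (g : Fin 9 → SS) (vl : Fin 9 → ℕ)

def ent (w : List Bool) : ℕ × SS := find (can w) tb

def prodE (N : ℕ) (a b : ℕ × SS) : Bool × SS := (Nat.ble N a.1 && Nat.ble N b.1, mulS a.2 N b.2)

def linE (N : ℕ) (i : Fin 9) (b : ℕ × SS) : Bool × SS := (Nat.ble N (vl i + b.1), mulS (g i) N b.2)

def fin (N : ℕ) (row : SS) (l : List (Bool × SS)) : Bool :=
  l.all (·.1) && zS (addS (negS row) (sumS (l.map (·.2)))) N

def oneE (N : ℕ) (a : ℕ × SS) : Bool × SS := (Nat.ble N a.1, a.2)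

def chk (c : Bool) (W : List Bool) (N : ℕ) (row : SS) : Bool :=
  fin N row ((cond c (true, []) (oneE N (ent tb W))) ::
    (((splits c W).map fun s => prodE N (ent tb (pre c ++ s.1)) (ent tb s.2)) ++
      tails.map fun s => linE g vl N (cls (c :: s)) (ent tb (pre c ++ W ++ s))))

noncomputable def Tf (w : List Bool) : PowerSeries KK := toS (ent tb w).2

noncomputable def Gf (u : List Bool) : PowerSeries KK := toS (g (cls u))

variable {tb g vl}

theorem chk_spec {c : Bool} {W : List Bool} {N : ℕ} {row : SS} (h : chk tb g vl c W N row = true) :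
    (c = false → N ≤ (ent tb W).1) ∧
    (∀ s ∈ splits c W, N ≤ (ent tb (pre c ++ s.1)).1 ∧ N ≤ (ent tb s.2).1) ∧
    (∀ s ∈ tails, N ≤ vl (cls (c :: s)) + (ent tb (pre c ++ W ++ s)).1) ∧
    (X : PowerSeries KK) ^ N ∣ toS row - (Qd (Tf tb) c W + lin (Tf tb) (Gf g) c W) := by
  simp only [chk, fin, Bool.and_eq_true, List.all_cons, List.all_append, List.all_map,
    List.all_eq_true, Function.comp] at h
  obtain ⟨⟨h1, h2, h3⟩, h4⟩ := h
  refine ⟨?_, ?_, ?_, ?_⟩
  · rintro rfl; simpa [oneE] using h1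
  · intro s hs; simpa [prodE] using h2 s hs
  · intro s hs; simpa [linE] using h3 s hs
  · have h5 := toS_z _ _ h4
    rw [toS_add, toS_neg, toS_sum] at h5
    simp only [List.map_cons, List.map_append, List.map_map, List.sum_cons, List.sum_append] at h5
    have h6 := dvd_sum_sub (d := X ^ N) (fun s : List Bool × List Bool =>
      Tf tb (pre c ++ s.1) * Tf tb s.2)
      (toS ∘ (·.2) ∘ fun s => prodE N (ent tb (pre c ++ s.1)) (ent tb s.2)) (splits c W)
      fun s _ => toS_mul _ _ _
    have h7 := dvd_sum_sub (d := X ^ N) (fun s : List Bool =>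
      Gf g (c :: s) * Tf tb (pre c ++ W ++ s))
      (toS ∘ (·.2) ∘ fun s => linE g vl N (cls (c :: s)) (ent tb (pre c ++ W ++ s))) tails
      fun s _ => toS_mul _ _ _
    have h8 : toS (cond c (true, []) (oneE N (ent tb W))).2 = if c then 0 else Tf tb W := by
      cases c <;> rfl
    rw [h8] at h5
    refine ((dvd_add (dvd_add h5 h6) h7).neg_right).trans (dvd_of_eq ?_)
    simp only [Qd, lin, pre]
    ring

theorem dvd_Qd {τ τ' : List Bool → PowerSeries KK} {d : PowerSeries KK} {c : Bool} {W : List Bool}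
    (h1 : c = false → d ∣ τ W - τ' W)
    (h2 : ∀ s ∈ splits c W, d ∣ τ (pre c ++ s.1) - τ' (pre c ++ s.1) ∧ d ∣ τ s.2 - τ' s.2) :
    d ∣ Qd τ c W - Qd τ' c W := by
  have h3 : d ∣ (if c then 0 else τ W) - (if c then 0 else τ' W) := by
    cases c
    · simpa using h1 rfl
    · simp
  have h4 := dvd_sum_sub (d := d) (fun s : List Bool × List Bool => τ (pre c ++ s.1) * τ s.2)
    (fun s => τ' (pre c ++ s.1) * τ' s.2) (splits c W) fun s hs => by
      refine (dvd_add ((h2 s hs).1.mul_right (τ s.2))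
        ((h2 s hs).2.mul_left (τ' (pre c ++ s.1)))).trans (dvd_of_eq ?_)
      ring
  refine (dvd_add h3 h4).trans (dvd_of_eq ?_)
  simp only [Qd]; ring

theorem dvd_lin {τ : List Bool → PowerSeries KK} {n N k : ℕ} {c : Bool} {W : List Bool}
    (hv : ∀ i, 1 ≤ vl i ∧ (X : PowerSeries KK) ^ vl i ∣ toS (g i))
    (hB : ∀ w, (X : PowerSeries KK) ^ min n (ent tb w).1 ∣ τ w - Tf tb w)
    (h3 : ∀ s ∈ tails, N ≤ vl (cls (c :: s)) + (ent tb (pre c ++ W ++ s)).1)
    (hk : k ≤ n + 1) (hk' : k ≤ N) :
    (X : PowerSeries KK) ^ k ∣ lin τ (Gf g) c W - lin (Tf tb) (Gf g) c W := by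
  refine dvd_sum_sub _ _ tails fun s hs => ?_
  have h1 := mul_dvd_mul (hv (cls (c :: s))).2 (hB (pre c ++ W ++ s))
  rw [← pow_add] at h1
  have h2 := h3 s hs
  have h4 := (hv (cls (c :: s))).1
  refine ((pow_dvd_pow X (by omega)).trans h1).trans (dvd_of_eq ?_)
  simp only [Gf, pre]; ring

theorem mem_words (c : Bool) {s : List Bool} (hs : s ∈ tails) : c :: s ∈ words := by
  cases c <;> simp [words, hs]

def chkRow (tb : Tr) (g : Fin 9 → SS) (vl : Fin 9 → ℕ) (e : Row) : Bool :=
  eqW (can e.2.1) e.1 && match e.2.1 with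
    | [] => zS (addS (negS e.2.2.2) [[0, 1]]) e.2.2.1
    | c :: W => chk tb g vl c W e.2.2.1 e.2.2.2

theorem stepB {τ γ : List Bool → PowerSeries KK} (h : SD1 1 (C Polynomial.X) τ γ) {n : ℕ}
    (hv : ∀ i, 1 ≤ vl i ∧ (X : PowerSeries KK) ^ vl i ∣ toS (g i))
    (ht : tb.all (chkRow tb g vl) = true)
    (hA : ∀ i, (X : PowerSeries KK) ^ (n + 1) ∣ γ (w9 i) - toS (g i))
    (hB : ∀ w, (X : PowerSeries KK) ^ min n (ent tb w).1 ∣ τ w - Tf tb w) (w : List Bool) :
    (X : PowerSeries KK) ^ min (n + 1) (ent tb w).1 ∣ τ w - Tf tb w := by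
  induction hl : w.length using Nat.strong_induction_on generalizing w with
  | _ m ih =>
  rcases find_spec (can w) tb with h0 | ⟨cd, hk, hf⟩
  · have : (ent tb w).1 = 0 := h0
    simp [this]
  have hc := Tr.all_get cd tb ht
  generalize tb.get cd = e at hc hk hf
  obtain ⟨k, r, N, row⟩ := e
  simp only [chkRow, Bool.and_eq_true] at hc hk hf
  have hr := eq_of_eqW _ _ hc.1
  have hE : ent tb w = (N, row) := hf
  have hτ : τ w = τ r := by rw [← inv_can h.rotT w, ← hk, ← hr, inv_can h.rotT]
  have hlen : r.length = m := by rw [← hl, ← length_can w, ← hk, ← hr, length_can]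
  rw [Tf, hE, hτ]
  cases r with
  | nil =>
    have h1 := toS_z _ _ hc.2
    rw [toS_add, toS_neg] at h1
    refine ((pow_dvd_pow X (min_le_right _ _)).trans h1).trans (dvd_of_eq ?_)
    simp [h.nil, toS, toP]; ring
  | cons c W =>
    obtain ⟨h1, h2, h3, h4⟩ := chk_spec hc.2
    simp only [List.length_cons] at hlen
    have key : ∀ y : List Bool, y.length ≤ W.length → N ≤ (ent tb y).1 →
        (X : PowerSeries KK) ^ min (n + 1) N ∣ τ y - Tf tb y := fun y hy hN =>
      (pow_dvd_pow X (by omega)).trans (ih y.length (by omega) y rfl)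
    have hQ : (X : PowerSeries KK) ^ min (n + 1) N ∣ Qd τ c W - Qd (Tf tb) c W :=
      dvd_Qd (fun hc' => key W le_rfl (h1 hc')) fun s hs => by
        have := splits_len c W s hs
        refine ⟨key _ ?_ (h2 s hs).1, key _ (by omega) (h2 s hs).2⟩
        cases c <;> simp [pre] <;> omega
    have hL := dvd_lin (k := min (n + 1) N) hv hB h3 (min_le_left _ _) (min_le_right _ _)
    have hG : (X : PowerSeries KK) ^ min (n + 1) N ∣ lin τ γ c W - lin τ (Gf g) c W := by
      refine dvd_sum_sub _ _ tails fun s hs => ?_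
      have := ((pow_dvd_pow X (min_le_left (n + 1) N)).trans (hA (cls (c :: s)))).mul_right
        (τ ((if c then [] else [false]) ++ W ++ s))
      refine this.trans (dvd_of_eq ?_)
      rw [rot_cls h.rotG (mem_words c hs), Gf]; ring
    have h5 := (pow_dvd_pow X (min_le_right (n + 1) N)).trans h4
    refine (dvd_sub (dvd_add (dvd_add hQ hL) hG) h5).trans (dvd_of_eq ?_)
    rw [sd_eq h]; ring

theorem stepA {τ γ : List Bool → PowerSeries KK} (h : SD1 1 (C Polynomial.X) τ γ) {n M : ℕ}
    (h0 : ∀ u, constantCoeff (γ u) = 0) (hn : n < M)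
    (hv : ∀ i, 1 ≤ vl i ∧ (X : PowerSeries KK) ^ vl i ∣ toS (g i))
    (hs : ∀ w : List Bool, w.length ≤ 3 → (X : PowerSeries KK) ^ M ∣ τ w - Tf tb w)
    (h9 : ∀ i, chk tb g vl (w9 i).headI (w9 i).tail M (ent tb (w9 i)).2 = true)
    (hA : ∀ i, (X : PowerSeries KK) ^ n ∣ γ (w9 i) - toS (g i))
    (hB : ∀ w, (X : PowerSeries KK) ^ min n (ent tb w).1 ∣ τ w - Tf tb w) (i : Fin 9) :
    (X : PowerSeries KK) ^ (n + 1) ∣ γ (w9 i) - toS (g i) := by
  choose δ hδ using hA
  have h1 : SD1 1 Polynomial.X (fun w => constantCoeff (τ w)) fun _ => (0 : KK) := by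
    have := h.map (constantCoeff : PowerSeries KK →+* KK)
    simpa [h0] using this
  have hw : ∀ j, w9 j = (w9 j).headI :: (w9 j).tail := by decide
  have hw' : ∀ j, (w9 j).tail.length ≤ 2 := by decide
  have h2 := gram (Δ := fun u => constantCoeff (δ (cls u))) h1 (fun c w => by rw [cls_rot])
    (fun j => ?_) i
  · rw [cls_w9] at h2
    have h3 : constantCoeff (δ i) = 0 :=
      (mul_eq_zero.1 h2).resolve_left (pow_ne_zero _ Polynomial.X_ne_zero)
    rw [hδ i, pow_succ]
    exact mul_dvd_mul_left _ (X_dvd_iff.2 h3)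
  obtain ⟨-, -, h3, h4⟩ := chk_spec (h9 j)
  have hj := hw j
  have hj' := hw' j
  generalize (w9 j).headI = c at *
  generalize (w9 j).tail = W at *
  have key : ∀ y : List Bool, y.length ≤ 3 → (X : PowerSeries KK) ^ (n + 1) ∣ τ y - Tf tb y :=
    fun y hy => (pow_dvd_pow X (by omega)).trans (hs y hy)
  have hQ : (X : PowerSeries KK) ^ (n + 1) ∣ Qd τ c W - Qd (Tf tb) c W :=
    dvd_Qd (fun _ => key W (by omega)) fun s hs => by
      have := splits_len c W s hs
      refine ⟨key _ ?_, key _ (by omega)⟩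
      cases c <;> simp [pre] <;> omega
  have hL := dvd_lin (k := n + 1) hv hB h3 le_rfl hn
  have h5 := (pow_dvd_pow X (show n + 1 ≤ M from hn)).trans h4
  have h6 := key (c :: W) (by simp; omega)
  have hG : lin τ γ c W - lin τ (Gf g) c W = X ^ n * lin τ (fun u => δ (cls u)) c W := by
    simp only [lin]
    rw [← List.sum_map_mul_left, sub_eq_iff_eq_add, ← List.sum_map_add]
    refine congrArg List.sum (List.map_congr_left fun s hs => ?_)
    rw [rot_cls h.rotG (mem_words c hs), Gf, sub_eq_iff_eq_add.1 (hδ (cls (c :: s)))]; ring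
  have h7 : (X : PowerSeries KK) ^ n * X ∣ X ^ n * lin τ (fun u => δ (cls u)) c W := by
    rw [← hG, ← pow_succ]
    refine (dvd_sub (dvd_sub (dvd_add h6 h5) hQ) hL).trans (dvd_of_eq ?_)
    rw [sd_eq h, hj, Tf]; ring
  have h8 := X_dvd_iff.1 ((mul_dvd_mul_iff_left (pow_ne_zero n X_ne_zero)).1 h7)
  rw [← h8]
  simp only [lin, map_list_sum, List.map_map]
  refine congrArg List.sum (List.map_congr_left fun s _ => ?_)
  simp

theorem sound {τ γ : List Bool → PowerSeries KK} (h : SD1 1 (C Polynomial.X) τ γ) {M : ℕ}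
    (h0 : ∀ u, constantCoeff (γ u) = 0)
    (hv : ∀ i, 1 ≤ vl i ∧ (X : PowerSeries KK) ^ vl i ∣ toS (g i))
    (hs : ∀ w : List Bool, w.length ≤ 3 → (X : PowerSeries KK) ^ M ∣ τ w - Tf tb w)
    (h9 : ∀ i, chk tb g vl (w9 i).headI (w9 i).tail M (ent tb (w9 i)).2 = true)
    (ht : tb.all (chkRow tb g vl) = true) :
    ∀ n ≤ M, (∀ i, (X : PowerSeries KK) ^ n ∣ γ (w9 i) - toS (g i)) ∧
      ∀ w, (X : PowerSeries KK) ^ min n (ent tb w).1 ∣ τ w - Tf tb w
  | 0, _ => by simp
  | n + 1, hn => by
    obtain ⟨hA, hB⟩ := sound h h0 hv hs h9 ht n (by omega)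
    have hA' := stepA h h0 hn hv hs h9 hA hB
    exact ⟨hA', stepB h hv ht hA' hB⟩

end Chk

end Pool.Agent.P.MP_48bde8_co.TA
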