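import Pool.Agent.P.MP_48bde8_co.TableAux1

/-! Data for the task TABLE. -/

namespace Pool.Agent.P.MP_48bde8_co.TA

noncomputable def r0 : Row :=
  ([], [], 31, [[0, 1]])

noncomputable def r1 : Row :=
  ([false], [false], 31, [[0, 1]])

noncomputable def r2 : Row :=
  ([true], [true], 31, [])

noncomputable def r3 : Row :=
  ([false, false], [false, false], 31, [[0, 1, 1], [], [0, 0, 1]])

noncomputable def r4 : Row :=
  ([false, true], [true, false], 31, [[], [0, 0, 1]])

noncomputable def r5 : Row :=
  ([true, true], [true, true], 31, [[0, 0, 1]])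

noncomputable def r6 : Row :=
  ([false, false, false], [false, false, false], 31, [[0, 1, 3, 1], [], [0, 0, 3, 3], [], [0, 0,
    0, 3], [], [0, 0, 0, 0, 1]])

noncomputable def r7 : Row :=
  ([false, false, true], [true, false, false], 31, [[], [0, 0, 2, 1], [], [0, 0, 0, 2]])

noncomputable def r8 : Row :=
  ([false, true, true], [true, true, false], 31, [[0, 0, 1], [], [0, 0, 0, 1]])

noncomputable def r9 : Row :=
  ([true, true, true], [true, true, true], 31, [])

noncomputable def r10 : Row :=
  ([false, false, false, false], [false, false, false, false], 29, [[0, 1, 6, 6, 1], [], [0, 0, 6,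
    16, 6], [], [0, 0, 0, 14, 14], [], [0, 0, 0, 0, 16, 4], [], [0, 0, 0, 0, 1, 9], [], [0, 0, 0,
    0, 0, 4, 2], [], [0, 0, 0, 0, 0, 0, 6], [], [0, 0, 0, 0, 0, 0, 2, 4], [], [0, 0, 0, 0, 0, 0,
    0, 8, 1], [], [0, 0, 0, 0, 0, 0, 0, 4, 12], [], [0, 0, 0, 0, 0, 0, 0, 0, 22, 8], [], [0, 0, 0,
    0, 0, 0, 0, 0, 8, 48, 2], [], [0, 0, 0, 0, 0, 0, 0, 0, 1, 65, 52], [], [0, 0, 0, 0, 0, 0, 0,
    0, 0, 24, 202, 28], [], [0, 0, 0, 0, 0, 0, 0, 0, 0, 0, 224, 318, 6]])

noncomputable def r11 : Row :=
  ([false, false, false, true], [true, false, false, false], 30, [[], [0, 0, 3, 5, 1], [], [0, 0,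
    0, 8, 5], [], [0, 0, 0, 0, 7], [], [0, 0, 0, 0, 1, 2], [], [0, 0, 0, 0, 0, 2], [], [0, 0, 0,
    0, 0, 0, 1], [], [0, 0, 0, 0, 0, 0, 1], [], [0, 0, 0, 0, 0, 0, 0, 2], [], [0, 0, 0, 0, 0, 0,
    0, 2, 1], [], [0, 0, 0, 0, 0, 0, 0, 0, 6], [], [0, 0, 0, 0, 0, 0, 0, 0, 5, 6], [], [0, 0, 0,
    0, 0, 0, 0, 0, 1, 22, 2], [], [0, 0, 0, 0, 0, 0, 0, 0, 0, 14, 35], [], [0, 0, 0, 0, 0, 0, 0,
    0, 0, 0, 82, 24], [], [0, 0, 0, 0, 0, 0, 0, 0, 0, 0, 41, 191, 6]])

noncomputable def r12 : Row :=
  ([false, false, true, true], [true, true, false, false], 28, [[0, 0, 1, 1], [], [0, 0, 0, 4, 1],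
    [], [0, 0, 0, 0, 3], [], [0, 0, 0, 0, 1], [], [0, 0, 0, 0, 0, 1], [], [], [], [], [], [], [],
    [0, 0, 0, 0, 0, 0, 0, 1], [], [0, 0, 0, 0, 0, 0, 0, 0, 1], [], [0, 0, 0, 0, 0, 0, 0, 0, 2],
    [], [0, 0, 0, 0, 0, 0, 0, 0, 1, 4], [], [0, 0, 0, 0, 0, 0, 0, 0, 0, 8, 2], [], [0, 0, 0, 0, 0,
    0, 0, 0, 0, 0, 21]])

noncomputable def r13 : Row :=
  ([false, true, false, true], [true, false, true, false], 11, [[0, 0, 1], [], [0, 0, 0, 4, 1],
    [], [0, 0, 0, 0, 4], [], [0, 0, 0, 0, 1]])

noncomputable def r14 : Row :=
  ([false, true, true, true], [true, true, true, false], 28, [[], [0, 0, 0, 2], [], [0, 0, 0, 0,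
    1], [], [0, 0, 0, 0, 1], [], [], [], [], [], [], [], [], [], [], [], [], [], [0, 0, 0, 0, 0,
    0, 0, 0, 1], [], [0, 0, 0, 0, 0, 0, 0, 0, 1], [], [0, 0, 0, 0, 0, 0, 0, 0, 0, 2], [], [0, 0,
    0, 0, 0, 0, 0, 0, 0, 0, 2], [], [0, 0, 0, 0, 0, 0, 0, 0, 0, 0, 11]])

noncomputable def r15 : Row :=
  ([true, true, true, true], [true, true, true, true], 28, [[0, 0, 0, 2], [], [], [], [0, 0, 0, 0,
    1], [], [], [], [], [], [], [], [], [], [], [], [], [], [], [], [0, 0, 0, 0, 0, 0, 0, 0, 1],
    [], [], [], [], [], [0, 0, 0, 0, 0, 0, 0, 0, 0, 0, 2]])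

noncomputable def r16 : Row :=
  ([false, false, false, false, false], [false, false, false, false, false], 27, [[0, 1, 10, 20,
    10, 1], [], [0, 0, 10, 50, 50, 10], [], [0, 0, 0, 40, 100, 40], [], [0, 0, 0, 0, 85, 100, 10],
    [], [0, 0, 0, 0, 5, 110, 50], [], [0, 0, 0, 0, 0, 31, 96, 10], [], [0, 0, 0, 0, 0, 0, 80, 60],
    [], [0, 0, 0, 0, 0, 0, 15, 120, 25], [], [0, 0, 0, 0, 0, 0, 0, 90, 125, 5], [], [0, 0, 0, 0,
    0, 0, 0, 25, 245, 95], [], [0, 0, 0, 0, 0, 0, 0, 0, 205, 410, 46], [], [0, 0, 0, 0, 0, 0, 0,
    0, 50, 740, 465, 10], [], [0, 0, 0, 0, 0, 0, 0, 0, 5, 560, 1625, 350], [], [0, 0, 0, 0, 0, 0,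
    0, 0, 0, 150, 2605, 2435, 155]])

noncomputable def r17 : Row :=
  ([false, false, false, false, true], [true, false, false, false, false], 28, [[], [0, 0, 4, 14,
    9, 1], [], [0, 0, 0, 20, 35, 9], [], [0, 0, 0, 0, 40, 28], [], [0, 0, 0, 0, 4, 43, 7], [], [0,
    0, 0, 0, 0, 17, 26], [], [0, 0, 0, 0, 0, 0, 29, 7], [], [0, 0, 0, 0, 0, 0, 8, 28], [], [0, 0,
    0, 0, 0, 0, 0, 33, 17], [], [0, 0, 0, 0, 0, 0, 0, 12, 61, 5], [], [0, 0, 0, 0, 0, 0, 0, 0, 73,
    65], [], [0, 0, 0, 0, 0, 0, 0, 0, 28, 195, 39], [], [0, 0, 0, 0, 0, 0, 0, 0, 4, 219, 300, 10],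
    [], [0, 0, 0, 0, 0, 0, 0, 0, 0, 81, 736, 277], [], [0, 0, 0, 0, 0, 0, 0, 0, 0, 0, 712, 1466,
    141]])

noncomputable def r18 : Row :=
  ([false, false, false, true, true], [true, true, false, false, false], 27, [[0, 0, 1, 3, 1], [],
    [0, 0, 0, 9, 10, 1], [], [0, 0, 0, 0, 18, 7], [], [0, 0, 0, 0, 3, 15], [], [0, 0, 0, 0, 0, 10,
    5], [], [0, 0, 0, 0, 0, 0, 11], [], [0, 0, 0, 0, 0, 0, 3, 4], [], [0, 0, 0, 0, 0, 0, 0, 9],
    [], [0, 0, 0, 0, 0, 0, 0, 6, 11], [], [0, 0, 0, 0, 0, 0, 0, 0, 24, 5], [], [0, 0, 0, 0, 0, 0,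
    0, 0, 12, 40], [], [0, 0, 0, 0, 0, 0, 0, 0, 3, 73, 32], [], [0, 0, 0, 0, 0, 0, 0, 0, 0, 44,
    173, 10], [], [0, 0, 0, 0, 0, 0, 0, 0, 0, 0, 257, 209]])

noncomputable def r19 : Row :=
  ([false, false, true, false, true], [true, false, true, false, false], 8, [[0, 0, 1, 1], [], [0,
    0, 0, 9, 8, 1], [], [0, 0, 0, 0, 20, 8], [], [0, 0, 0, 0, 3, 17]])

noncomputable def r20 : Row :=
  ([false, false, true, true, true], [true, true, true, false, false], 25, [[], [0, 0, 0, 4, 2],
    [], [0, 0, 0, 0, 8, 1], [], [0, 0, 0, 0, 2, 5], [], [0, 0, 0, 0, 0, 5], [], [0, 0, 0, 0, 0, 0,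
    3], [], [0, 0, 0, 0, 0, 0, 2], [], [0, 0, 0, 0, 0, 0, 0, 2], [], [0, 0, 0, 0, 0, 0, 0, 2], [],
    [0, 0, 0, 0, 0, 0, 0, 0, 6], [], [0, 0, 0, 0, 0, 0, 0, 0, 6, 5], [], [0, 0, 0, 0, 0, 0, 0, 0,
    2, 22], [], [0, 0, 0, 0, 0, 0, 0, 0, 0, 19, 25]])

noncomputable def r21 : Row :=
  ([false, true, false, true, true], [true, false, true, true, false], 8, [[], [0, 0, 0, 4, 1],
    [], [0, 0, 0, 0, 8, 1], [], [0, 0, 0, 0, 2, 6], [], [0, 0, 0, 0, 0, 5]])

noncomputable def r22 : Row :=
  ([false, true, true, true, true], [true, true, true, true, false], 25, [[0, 0, 0, 2], [], [0, 0,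
    0, 0, 3], [], [0, 0, 0, 0, 1, 1], [], [0, 0, 0, 0, 0, 3], [], [], [], [0, 0, 0, 0, 0, 0, 1],
    [], [], [], [0, 0, 0, 0, 0, 0, 0, 1], [], [], [], [0, 0, 0, 0, 0, 0, 0, 0, 2], [], [0, 0, 0,
    0, 0, 0, 0, 0, 1, 5], [], [0, 0, 0, 0, 0, 0, 0, 0, 0, 10], [], [0, 0, 0, 0, 0, 0, 0, 0, 0, 0,
    18]])

noncomputable def r23 : Row :=
  ([true, true, true, true, true], [true, true, true, true, true], 25, [[], [], [], [], [], [0, 0,
    0, 0, 0, 1], [], [], [], [], [], [], [], [], [], [], [], [], [], [], [], [0, 0, 0, 0, 0, 0, 0,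
    0, 0, 5]])

noncomputable def r24 : Row :=
  ([false, false, false, false, false, false], [false, false, false, false, false, false], 25,
    [[0, 1, 15, 50, 50, 15, 1], [], [0, 0, 15, 120, 225, 120, 15], [], [0, 0, 0, 90, 405, 405,
    90], [], [0, 0, 0, 0, 295, 750, 365, 20], [], [0, 0, 0, 0, 15, 630, 840, 165], [], [0, 0, 0,
    0, 0, 132, 987, 600, 30], [], [0, 0, 0, 0, 0, 0, 505, 1190, 285], [], [0, 0, 0, 0, 0, 0, 63,
    1200, 1095, 90], [], [0, 0, 0, 0, 0, 0, 0, 525, 2085, 765, 15], [], [0, 0, 0, 0, 0, 0, 0, 92,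
    2085, 2810, 410], [], [0, 0, 0, 0, 0, 0, 0, 0, 1050, 5355, 2937, 156], [], [0, 0, 0, 0, 0, 0,
    0, 0, 183, 5430, 9885, 2340, 30], [], [0, 0, 0, 0, 0, 0, 0, 0, 15, 2706, 17685, 13638, 1360]])

noncomputable def r25 : Row :=
  ([false, false, false, false, false, true], [true, false, false, false, false, false], 26, [[],
    [0, 0, 5, 30, 40, 14, 1], [], [0, 0, 0, 40, 135, 96, 14], [], [0, 0, 0, 0, 135, 243, 72], [],
    [0, 0, 0, 0, 10, 269, 225, 16], [], [0, 0, 0, 0, 0, 71, 353, 111], [], [0, 0, 0, 0, 0, 0, 217,
    309, 24], [], [0, 0, 0, 0, 0, 0, 33, 405, 180], [], [0, 0, 0, 0, 0, 0, 0, 219, 523, 70], [],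
    [0, 0, 0, 0, 0, 0, 0, 42, 686, 484, 15], [], [0, 0, 0, 0, 0, 0, 0, 0, 411, 1348, 320], [], [0,
    0, 0, 0, 0, 0, 0, 0, 93, 1784, 1825, 140], [], [0, 0, 0, 0, 0, 0, 0, 0, 10, 1107, 4658, 1751,
    30], [], [0, 0, 0, 0, 0, 0, 0, 0, 0, 277, 5787, 8172, 1162]])

noncomputable def r26 : Row :=
  ([false, false, false, false, true, true], [true, true, false, false, false, false], 25, [[0, 0,
    1, 6, 6, 1], [], [0, 0, 0, 16, 41, 18, 1], [], [0, 0, 0, 0, 59, 74, 12], [], [0, 0, 0, 0, 6,
    108, 52], [], [0, 0, 0, 0, 0, 40, 116, 13], [], [0, 0, 0, 0, 0, 0, 99, 70], [], [0, 0, 0, 0,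
    0, 0, 15, 129, 18], [], [0, 0, 0, 0, 0, 0, 0, 84, 103], [], [0, 0, 0, 0, 0, 0, 0, 20, 206,
    54], [], [0, 0, 0, 0, 0, 0, 0, 0, 160, 286, 15], [], [0, 0, 0, 0, 0, 0, 0, 0, 39, 541, 245],
    [], [0, 0, 0, 0, 0, 0, 0, 0, 6, 424, 1048, 126], [], [0, 0, 0, 0, 0, 0, 0, 0, 0, 140, 1833,
    1279, 30]])

noncomputable def r27 : Row :=
  ([false, false, false, true, false, true], [true, false, true, false, false, false], 7, [[0, 0,
    1, 3, 1], [], [0, 0, 0, 16, 33, 13, 1], [], [0, 0, 0, 0, 62, 72, 13], [], [0, 0, 0, 0, 6, 115,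
    55]])

noncomputable def r28 : Row :=
  ([false, false, false, true, true, true], [true, true, true, false, false, false], 24, [[], [0,
    0, 0, 6, 10, 2], [], [0, 0, 0, 0, 26, 19, 1], [], [0, 0, 0, 0, 3, 43, 10], [], [0, 0, 0, 0, 0,
    21, 33], [], [0, 0, 0, 0, 0, 0, 42, 10], [], [0, 0, 0, 0, 0, 0, 9, 37], [], [0, 0, 0, 0, 0, 0,
    0, 34, 13], [], [0, 0, 0, 0, 0, 0, 0, 8, 51], [], [0, 0, 0, 0, 0, 0, 0, 0, 59, 40], [], [0, 0,
    0, 0, 0, 0, 0, 0, 18, 147, 15], [], [0, 0, 0, 0, 0, 0, 0, 0, 3, 162, 179], [], [0, 0, 0, 0, 0,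
    0, 0, 0, 0, 63, 519, 112]])

noncomputable def r29 : Row :=
  ([false, false, true, false, true, true], [true, false, true, true, false, false], 5, [[], [0,
    0, 0, 6, 7, 1], [], [0, 0, 0, 0, 26, 16, 1]])

noncomputable def r30 : Row :=
  ([false, false, true, true, false, true], [true, false, false, true, true, false], 5, [[], [0,
    0, 0, 6, 7, 1], [], [0, 0, 0, 0, 26, 16, 1]])

noncomputable def r31 : Row :=
  ([false, false, true, true, true, true], [true, true, true, true, false, false], 22, [[0, 0, 0,
    2, 2], [], [0, 0, 0, 0, 11, 3], [], [0, 0, 0, 0, 1, 15, 1], [], [0, 0, 0, 0, 0, 12, 8], [],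
    [0, 0, 0, 0, 0, 0, 17], [], [0, 0, 0, 0, 0, 0, 5, 7], [], [0, 0, 0, 0, 0, 0, 0, 13], [], [0,
    0, 0, 0, 0, 0, 0, 4, 9], [], [0, 0, 0, 0, 0, 0, 0, 0, 20], [], [0, 0, 0, 0, 0, 0, 0, 0, 7,
    28], [], [0, 0, 0, 0, 0, 0, 0, 0, 1, 59, 15]])

noncomputable def r32 : Row :=
  ([false, true, false, true, true, true], [true, false, true, true, true, false], 5, [[0, 0, 0,
    2], [], [0, 0, 0, 0, 11, 2], [], [0, 0, 0, 0, 1, 16, 1]])

noncomputable def r33 : Row :=
  ([false, true, true, false, true, true], [true, true, false, true, true, false], 5, [[0, 0, 0,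
    2, 1], [], [0, 0, 0, 0, 11, 2], [], [0, 0, 0, 0, 1, 15, 1]])

noncomputable def r34 : Row :=
  ([false, true, true, true, true, true], [true, true, true, true, true, false], 22, [[], [0, 0,
    0, 0, 5], [], [0, 0, 0, 0, 0, 4], [], [0, 0, 0, 0, 0, 7, 1], [], [0, 0, 0, 0, 0, 0, 6], [],
    [0, 0, 0, 0, 0, 0, 3], [], [0, 0, 0, 0, 0, 0, 0, 4], [], [0, 0, 0, 0, 0, 0, 0, 2], [], [0, 0,
    0, 0, 0, 0, 0, 0, 6], [], [0, 0, 0, 0, 0, 0, 0, 0, 3], [], [0, 0, 0, 0, 0, 0, 0, 0, 0, 18],
    [], [0, 0, 0, 0, 0, 0, 0, 0, 0, 17, 15]])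

noncomputable def r35 : Row :=
  ([true, true, true, true, true, true], [true, true, true, true, true, true], 22, [[0, 0, 0, 0,
    5], [], [], [], [0, 0, 0, 0, 0, 6], [], [0, 0, 0, 0, 0, 0, 1], [], [0, 0, 0, 0, 0, 0, 3], [],
    [], [], [0, 0, 0, 0, 0, 0, 0, 2], [], [], [], [0, 0, 0, 0, 0, 0, 0, 0, 3], [], [], [], [0, 0,
    0, 0, 0, 0, 0, 0, 0, 12]])

noncomputable def r36 : Row :=
  ([false, false, false, false, false, false, false], [false, false, false, false, false, false,
    false], 23, [[0, 1, 21, 105, 175, 105, 21, 1], [], [0, 0, 21, 245, 735, 735, 245, 21], [], [0,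
    0, 0, 175, 1225, 2205, 1225, 175], [], [0, 0, 0, 0, 805, 3479, 3675, 1015, 35], [], [0, 0, 0,
    0, 35, 2478, 6370, 3710, 420], [], [0, 0, 0, 0, 0, 413, 5754, 8162, 2345, 70], [], [0, 0, 0,
    0, 0, 0, 2163, 10542, 7735, 945], [], [0, 0, 0, 0, 0, 0, 196, 7197, 15345, 5565, 245], [], [0,
    0, 0, 0, 0, 0, 0, 2156, 17745, 17955, 3059, 35], [], [0, 0, 0, 0, 0, 0, 0, 259, 11459, 34524,
    17178, 1295], [], [0, 0, 0, 0, 0, 0, 0, 0, 3920, 39998, 54138, 13433, 406], [], [0, 0, 0, 0,
    0, 0, 0, 0, 511, 26999, 102585, 68803, 8386, 70]])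

noncomputable def r37 : Row :=
  ([false, false, false, false, false, false, true], [true, false, false, false, false, false,
    false], 24, [[], [0, 0, 6, 55, 125, 90, 20, 1], [], [0, 0, 0, 70, 385, 525, 210, 20], [], [0,
    0, 0, 0, 350, 1155, 875, 150], [], [0, 0, 0, 0, 20, 1063, 1980, 735, 30], [], [0, 0, 0, 0, 0,
    211, 2241, 2145, 320], [], [0, 0, 0, 0, 0, 0, 972, 3436, 1510, 60], [], [0, 0, 0, 0, 0, 0, 98,
    2777, 3921, 690], [], [0, 0, 0, 0, 0, 0, 0, 938, 5643, 3384, 205], [], [0, 0, 0, 0, 0, 0, 0,
    112, 4254, 8667, 2214, 35], [], [0, 0, 0, 0, 0, 0, 0, 0, 1582, 12370, 10329, 1085], [], [0, 0,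
    0, 0, 0, 0, 0, 0, 238, 9764, 25829, 9579, 376], [], [0, 0, 0, 0, 0, 0, 0, 0, 20, 3961, 36627,
    40624, 6805, 70]])

noncomputable def r38 : Row :=
  ([false, false, false, false, false, true, true], [true, true, false, false, false, false,
    false], 23, [[0, 0, 1, 10, 20, 10, 1], [], [0, 0, 0, 25, 115, 116, 28, 1], [], [0, 0, 0, 0,
    145, 373, 194, 18], [], [0, 0, 0, 0, 10, 435, 581, 124], [], [0, 0, 0, 0, 0, 110, 838, 503,
    26], [], [0, 0, 0, 0, 0, 0, 457, 1077, 240], [], [0, 0, 0, 0, 0, 0, 45, 1074, 906, 50], [],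
    [0, 0, 0, 0, 0, 0, 0, 397, 1692, 492], [], [0, 0, 0, 0, 0, 0, 0, 50, 1543, 1924, 174], [], [0,
    0, 0, 0, 0, 0, 0, 0, 647, 3633, 1589, 35], [], [0, 0, 0, 0, 0, 0, 0, 0, 95, 3446, 5854, 926],
    [], [0, 0, 0, 0, 0, 0, 0, 0, 10, 1569, 10775, 6767, 356]])

noncomputable def r39 : Row :=
  ([false, false, false, false, true, false, true], [true, false, true, false, false, false,
    false], 5, [[0, 0, 1, 6, 6, 1], [], [0, 0, 0, 25, 95, 81, 19, 1], [], [0, 0, 0, 0, 149, 347,
    175, 19]])

noncomputable def r40 : Row :=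
  ([false, false, false, false, true, true, true], [true, true, true, false, false, false, false],
    22, [[], [0, 0, 0, 8, 28, 18, 2], [], [0, 0, 0, 0, 60, 109, 33, 1], [], [0, 0, 0, 0, 4, 178,
    156, 16], [], [0, 0, 0, 0, 0, 54, 300, 97], [], [0, 0, 0, 0, 0, 0, 209, 301, 22], [], [0, 0,
    0, 0, 0, 0, 24, 406, 168], [], [0, 0, 0, 0, 0, 0, 0, 179, 465, 41], [], [0, 0, 0, 0, 0, 0, 0,
    20, 544, 330], [], [0, 0, 0, 0, 0, 0, 0, 0, 263, 956, 146], [], [0, 0, 0, 0, 0, 0, 0, 0, 40,
    1188, 1074, 35], [], [0, 0, 0, 0, 0, 0, 0, 0, 4, 630, 2910, 774]])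

noncomputable def r41 : Row :=
  ([false, false, false, true, false, true, true], [true, false, true, true, false, false, false],
    4, [[], [0, 0, 0, 8, 22, 11, 1], [], [0, 0, 0, 0, 60, 94, 26, 1]])

noncomputable def r42 : Row :=
  ([false, false, false, true, true, false, true], [true, false, false, false, true, true, false],
    4, [[], [0, 0, 0, 8, 22, 11, 1], [], [0, 0, 0, 0, 60, 94, 26, 1]])

noncomputable def r43 : Row :=
  ([false, false, false, true, true, true, true], [true, true, true, true, false, false, false],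
    21, [[0, 0, 0, 2, 6, 2], [], [0, 0, 0, 0, 24, 27, 3], [], [0, 0, 0, 0, 1, 69, 33, 1], [], [0,
    0, 0, 0, 0, 27, 101, 14], [], [0, 0, 0, 0, 0, 0, 97, 71], [], [0, 0, 0, 0, 0, 0, 12, 144, 18],
    [], [0, 0, 0, 0, 0, 0, 0, 82, 105], [], [0, 0, 0, 0, 0, 0, 0, 9, 184, 33], [], [0, 0, 0, 0, 0,
    0, 0, 0, 109, 203], [], [0, 0, 0, 0, 0, 0, 0, 0, 15, 382, 121], [], [0, 0, 0, 0, 0, 0, 0, 0,
    1, 251, 663, 35]])

noncomputable def r44 : Row :=
  ([false, false, true, false, true, true, true], [true, false, true, true, true, false, false],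
    2, [[0, 0, 0, 2, 2]])

noncomputable def r45 : Row :=
  ([false, false, true, true, false, true, true], [true, true, false, true, true, false, false],
    2, [[0, 0, 0, 2, 4, 1]])

noncomputable def r46 : Row :=
  ([false, false, true, true, true, true, true], [true, true, true, true, true, false, false], 19,
    [[], [0, 0, 0, 0, 10, 5], [], [0, 0, 0, 0, 0, 26, 4], [], [0, 0, 0, 0, 0, 13, 29, 1], [], [0,
    0, 0, 0, 0, 0, 45, 12], [], [0, 0, 0, 0, 0, 0, 6, 45], [], [0, 0, 0, 0, 0, 0, 0, 39, 14], [],
    [0, 0, 0, 0, 0, 0, 0, 4, 55], [], [0, 0, 0, 0, 0, 0, 0, 0, 47, 26], [], [0, 0, 0, 0, 0, 0, 0,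
    0, 6, 107]])

noncomputable def r47 : Row :=
  ([false, true, false, true, true, true, true], [true, false, true, true, true, true, false], 2,
    [[], [0, 0, 0, 0, 10, 2]])

noncomputable def r48 : Row :=
  ([false, true, true, false, true, true, true], [true, true, false, true, true, true, false], 2,
    [[], [0, 0, 0, 0, 10, 2]])

noncomputable def r49 : Row :=
  ([false, true, true, true, true, true, true], [true, true, true, true, true, true, false], 19,
    [[0, 0, 0, 0, 5], [], [0, 0, 0, 0, 0, 9], [], [0, 0, 0, 0, 0, 6, 5], [], [0, 0, 0, 0, 0, 0,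
    21, 1], [], [0, 0, 0, 0, 0, 0, 3, 10], [], [0, 0, 0, 0, 0, 0, 0, 19], [], [0, 0, 0, 0, 0, 0,
    0, 2, 10], [], [0, 0, 0, 0, 0, 0, 0, 0, 21], [], [0, 0, 0, 0, 0, 0, 0, 0, 3, 20], [], [0, 0,
    0, 0, 0, 0, 0, 0, 0, 39]])

noncomputable def r50 : Row :=
  ([true, true, true, true, true, true, true], [true, true, true, true, true, true, true], 19,
    [[], [], [], [], [], [0, 0, 0, 0, 0, 0, 7], [], [0, 0, 0, 0, 0, 0, 0, 1], [], [0, 0, 0, 0, 0,
    0, 0, 7], [], [], [], [0, 0, 0, 0, 0, 0, 0, 0, 7], [], [], [], [0, 0, 0, 0, 0, 0, 0, 0, 0,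
    14]])

noncomputable def r51 : Row :=
  ([false, false, false, false, false, false, false, false], [false, false, false, false, false,
    false, false, false], 21, [[0, 1, 28, 196, 490, 490, 196, 28, 1], [], [0, 0, 28, 448, 1960,
    3136, 1960, 448, 28], [], [0, 0, 0, 308, 3080, 8624, 8624, 3080, 308], [], [0, 0, 0, 0, 1876,
    12208, 21952, 13216, 2380, 56], [], [0, 0, 0, 0, 70, 7728, 32088, 36120, 12264, 910], [], [0,
    0, 0, 0, 0, 1064, 24276, 61152, 40992, 7056, 140], [], [0, 0, 0, 0, 0, 0, 7252, 60900, 89376,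
    33600, 2520], [], [0, 0, 0, 0, 0, 0, 504, 31640, 123636, 103320, 20524, 560], [], [0, 0, 0, 0,
    0, 0, 0, 7056, 102655, 206017, 96348, 9492, 70], [], [0, 0, 0, 0, 0, 0, 0, 616, 47824, 264432,
    286440, 73808, 3360], [], [0, 0, 0, 0, 0, 0, 0, 0, 11928, 213780, 556612, 335580, 46844,
    896]])

noncomputable def r52 : Row :=
  ([false, false, false, false, false, false, false, true], [true, false, false, false, false,
    false, false, false], 22, [[], [0, 0, 7, 91, 315, 385, 175, 27, 1], [], [0, 0, 0, 112, 910,
    2016, 1540, 400, 27], [], [0, 0, 0, 0, 770, 4004, 5544, 2420, 275], [], [0, 0, 0, 0, 35, 3241,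
    10465, 8621, 1885, 50], [], [0, 0, 0, 0, 0, 511, 9681, 18317, 8329, 745], [], [0, 0, 0, 0, 0,
    0, 3255, 21777, 22765, 5131, 125], [], [0, 0, 0, 0, 0, 0, 238, 12871, 37905, 20787, 2000], [],
    [0, 0, 0, 0, 0, 0, 0, 3080, 36539, 51984, 14272, 490], [], [0, 0, 0, 0, 0, 0, 0, 252, 18766,
    79784, 57012, 7447, 70], [], [0, 0, 0, 0, 0, 0, 0, 0, 4816, 73635, 138664, 50565, 2940], [],
    [0, 0, 0, 0, 0, 0, 0, 0, 518, 39520, 210257, 195034, 36286, 846]])

noncomputable def r53 : Row :=
  ([false, false, false, false, false, false, true, true], [true, true, false, false, false,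
    false, false, false], 21, [[0, 0, 1, 15, 50, 50, 15, 1], [], [0, 0, 0, 36, 260, 470, 260, 40,
    1], [], [0, 0, 0, 0, 300, 1301, 1385, 410, 25], [], [0, 0, 0, 0, 15, 1304, 3334, 1955, 245],
    [], [0, 0, 0, 0, 0, 245, 3758, 5256, 1495, 45], [], [0, 0, 0, 0, 0, 0, 1505, 7676, 5429, 615],
    [], [0, 0, 0, 0, 0, 0, 105, 5313, 11293, 3681, 110], [], [0, 0, 0, 0, 0, 0, 0, 1330, 12879,
    12174, 1600], [], [0, 0, 0, 0, 0, 0, 0, 105, 7368, 23211, 9825, 440], [], [0, 0, 0, 0, 0, 0,
    0, 0, 1975, 25122, 32114, 5972, 70], [], [0, 0, 0, 0, 0, 0, 0, 0, 195, 14896, 60305, 34536,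
    2671]])

noncomputable def r54 : Row :=
  ([false, false, false, false, false, true, false, true], [true, false, true, false, false,
    false, false, false], 3, [[0, 0, 1, 10, 20, 10, 1], [], [0, 0, 0, 36, 220, 335, 164, 26, 1]])

noncomputable def r55 : Row :=
  ([false, false, false, false, false, true, true, true], [true, true, true, false, false, false,
    false, false], 20, [[], [0, 0, 0, 10, 60, 80, 28, 2], [], [0, 0, 0, 0, 115, 389, 290, 50, 1],
    [], [0, 0, 0, 0, 5, 524, 1002, 382, 23], [], [0, 0, 0, 0, 0, 110, 1432, 1384, 212], [], [0, 0,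
    0, 0, 0, 0, 683, 2583, 1106, 40], [], [0, 0, 0, 0, 0, 0, 50, 2183, 3103, 491], [], [0, 0, 0,
    0, 0, 0, 0, 603, 4430, 2449, 96], [], [0, 0, 0, 0, 0, 0, 0, 40, 2920, 6229, 1241], [], [0, 0,
    0, 0, 0, 0, 0, 0, 813, 8316, 6314, 394], [], [0, 0, 0, 0, 0, 0, 0, 0, 75, 5635, 15991, 4644,
    70]])

noncomputable def r56 : Row :=
  ([false, false, false, false, true, false, true, true], [true, false, true, true, false, false,
    false, false], 2, [[], [0, 0, 0, 10, 50, 55, 16, 1]])

noncomputable def r57 : Row :=
  ([false, false, false, false, true, true, false, true], [true, false, false, false, false, true,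
    true, false], 2, [[], [0, 0, 0, 10, 50, 55, 16, 1]])

noncomputable def r58 : Row :=
  ([false, false, false, false, true, true, true, true], [true, true, true, true, false, false,
    false, false], 19, [[0, 0, 0, 2, 12, 12, 2], [], [0, 0, 0, 0, 42, 107, 48, 3], [], [0, 0, 0,
    0, 1, 204, 270, 55, 1], [], [0, 0, 0, 0, 0, 48, 528, 319, 21], [], [0, 0, 0, 0, 0, 0, 314,
    818, 178], [], [0, 0, 0, 0, 0, 0, 22, 889, 746, 35], [], [0, 0, 0, 0, 0, 0, 0, 278, 1448,
    374], [], [0, 0, 0, 0, 0, 0, 0, 16, 1165, 1468, 83], [], [0, 0, 0, 0, 0, 0, 0, 0, 344, 2617,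
    927], [], [0, 0, 0, 0, 0, 0, 0, 0, 26, 2122, 3697, 352]])

noncomputable def r59 : Row :=
  ([false, false, false, true, false, true, true, true], [true, false, true, true, true, false,
    false, false], 1, [[0, 0, 0, 2, 6, 2]])

noncomputable def r60 : Row :=
  ([false, false, false, true, true, false, true, true], [true, true, false, true, true, false,
    false, false], 1, [[0, 0, 0, 2, 9, 7, 1]])

noncomputable def r61 : Row :=
  ([false, false, false, true, true, true, true, true], [true, true, true, true, true, false,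
    false, false], 18, [[], [0, 0, 0, 0, 15, 25, 5], [], [0, 0, 0, 0, 0, 80, 61, 4], [], [0, 0, 0,
    0, 0, 19, 185, 56, 1], [], [0, 0, 0, 0, 0, 0, 145, 233, 19], [], [0, 0, 0, 0, 0, 0, 9, 354,
    142], [], [0, 0, 0, 0, 0, 0, 0, 133, 429, 30], [], [0, 0, 0, 0, 0, 0, 0, 6, 465, 268], [], [0,
    0, 0, 0, 0, 0, 0, 0, 151, 753, 71], [], [0, 0, 0, 0, 0, 0, 0, 0, 9, 796, 656]])

noncomputable def r62 : Row :=
  ([false, false, true, true, true, true, true, true], [true, true, true, true, true, true, false,
    false], 16, [[0, 0, 0, 0, 5, 5], [], [0, 0, 0, 0, 0, 32, 9], [], [0, 0, 0, 0, 0, 6, 58, 5],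
    [], [0, 0, 0, 0, 0, 0, 69, 53, 1], [], [0, 0, 0, 0, 0, 0, 3, 136, 17], [], [0, 0, 0, 0, 0, 0,
    0, 66, 104], [], [0, 0, 0, 0, 0, 0, 0, 2, 180, 25], [], [0, 0, 0, 0, 0, 0, 0, 0, 70, 176]])

noncomputable def r63 : Row :=
  ([false, true, true, true, true, true, true, true], [true, true, true, true, true, true, true,
    false], 16, [[], [0, 0, 0, 0, 0, 14], [], [0, 0, 0, 0, 0, 0, 14], [], [0, 0, 0, 0, 0, 0, 35,
    6], [], [0, 0, 0, 0, 0, 0, 0, 46, 1], [], [0, 0, 0, 0, 0, 0, 0, 35, 15], [], [0, 0, 0, 0, 0,
    0, 0, 0, 64], [], [0, 0, 0, 0, 0, 0, 0, 0, 35, 20], [], [0, 0, 0, 0, 0, 0, 0, 0, 0, 101]])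

noncomputable def r64 : Row :=
  ([true, true, true, true, true, true, true, true], [true, true, true, true, true, true, true,
    true], 16, [[0, 0, 0, 0, 0, 14], [], [], [], [0, 0, 0, 0, 0, 0, 28], [], [0, 0, 0, 0, 0, 0, 0,
    8], [], [0, 0, 0, 0, 0, 0, 0, 28, 1], [], [0, 0, 0, 0, 0, 0, 0, 0, 12], [], [0, 0, 0, 0, 0, 0,
    0, 0, 28], [], [0, 0, 0, 0, 0, 0, 0, 0, 0, 16]])

noncomputable def r65 : Row :=
  ([false, false, false, false, false, false, false, false, false], [false, false, false, false,
    false, false, false, false, false], 19, [[0, 1, 36, 336, 1176, 1764, 1176, 336, 36, 1], [],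
    [0, 0, 36, 756, 4536, 10584, 10584, 4536, 756, 36], [], [0, 0, 0, 504, 6804, 27216, 42336,
    27216, 6804, 504], [], [0, 0, 0, 0, 3906, 35532, 96264, 98784, 38934, 4956, 84], [], [0, 0, 0,
    0, 126, 20538, 124740, 226800, 149310, 33642, 1764], [], [0, 0, 0, 0, 0, 2394, 82656, 322812,
    383292, 154602, 17892, 252], [], [0, 0, 0, 0, 0, 0, 20496, 267372, 651672, 488712, 113904,
    5796], [], [0, 0, 0, 0, 0, 0, 1134, 112464, 707058, 1060488, 486486, 61488, 1134], [], [0, 0,
    0, 0, 0, 0, 0, 19656, 458766, 1551132, 1422036, 387324, 24822, 126], [], [0, 0, 0, 0, 0, 0, 0,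
    1302, 164538, 1488802, 2867200, 1600074, 251874, 7602]])

noncomputable def r66 : Row :=
  ([false, false, false, false, false, false, false, false, true], [true, false, false, false,
    false, false, false, false, false], 20, [[], [0, 0, 8, 140, 686, 1274, 980, 308, 35, 1], [],
    [0, 0, 0, 168, 1890, 6174, 7644, 3780, 693, 35], [], [0, 0, 0, 0, 1512, 11340, 24696, 19656,
    5670, 462], [], [0, 0, 0, 0, 56, 8330, 41090, 58436, 28364, 4151, 77], [], [0, 0, 0, 0, 0,
    1078, 32872, 102340, 91483, 25151, 1512], [], [0, 0, 0, 0, 0, 0, 9002, 99386, 187649, 100184,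
    14028, 231], [], [0, 0, 0, 0, 0, 0, 504, 46480, 237055, 263865, 79317, 4851], [], [0, 0, 0, 0,
    0, 0, 0, 8442, 172655, 454505, 292180, 46508, 1022], [], [0, 0, 0, 0, 0, 0, 0, 504, 65994,
    496762, 712271, 259560, 20531, 126], [], [0, 0, 0, 0, 0, 0, 0, 0, 12474, 331578, 1150226,
    925617, 187635, 6846]])

noncomputable def r67 : Row :=
  ([false, false, false, false, false, false, false, true, true], [true, true, false, false,
    false, false, false, false, false], 19, [[0, 0, 1, 21, 105, 175, 105, 21, 1], [], [0, 0, 0,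
    49, 511, 1449, 1435, 505, 54, 1], [], [0, 0, 0, 0, 553, 3619, 6489, 3925, 760, 33], [], [0, 0,
    0, 0, 21, 3248, 13454, 15006, 5150, 431], [], [0, 0, 0, 0, 0, 476, 12789, 31999, 21044, 3600,
    71], [], [0, 0, 0, 0, 0, 0, 4018, 36717, 52922, 19041, 1325], [], [0, 0, 0, 0, 0, 0, 210,
    19496, 79062, 63037, 11193, 210], [], [0, 0, 0, 0, 0, 0, 0, 3598, 65383, 130515, 55094, 4160],
    [], [0, 0, 0, 0, 0, 0, 0, 196, 26686, 165019, 168824, 35924, 951], [], [0, 0, 0, 0, 0, 0, 0,
    0, 5019, 121941, 326423, 173903, 17659, 126]])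

noncomputable def r68 : Row :=
  ([false, false, false, false, false, false, true, false, true], [true, false, true, false,
    false, false, false, false, false], 1, [[0, 0, 1, 15, 50, 50, 15, 1]])

noncomputable def r69 : Row :=
  ([false, false, false, false, false, false, true, true, true], [true, true, true, false, false,
    false, false, false, false], 18, [[], [0, 0, 0, 12, 110, 250, 180, 40, 2], [], [0, 0, 0, 0,
    196, 1064, 1470, 620, 70, 1], [], [0, 0, 0, 0, 6, 1259, 4199, 3460, 770, 31], [], [0, 0, 0, 0,
    0, 195, 4920, 9491, 4280, 395], [], [0, 0, 0, 0, 0, 0, 1758, 13249, 13799, 2990, 65], [], [0,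
    0, 0, 0, 0, 0, 90, 8168, 25364, 13361, 1140], [], [0, 0, 0, 0, 0, 0, 0, 1583, 24616, 35047,
    8553, 190], [], [0, 0, 0, 0, 0, 0, 0, 70, 10980, 53203, 35469, 3505], [], [0, 0, 0, 0, 0, 0,
    0, 0, 2023, 44722, 86539, 26650, 885]])

noncomputable def r70 : Row :=
  ([false, false, false, false, false, true, true, true, true], [true, true, true, true, false,
    false, false, false, false], 17, [[0, 0, 0, 2, 20, 40, 20, 2], [], [0, 0, 0, 0, 65, 295, 298,
    74, 3], [], [0, 0, 0, 0, 1, 475, 1235, 688, 81, 1], [], [0, 0, 0, 0, 0, 75, 1850, 2621, 728,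
    29], [], [0, 0, 0, 0, 0, 0, 770, 4639, 3241, 356], [], [0, 0, 0, 0, 0, 0, 35, 3431, 7705,
    2368, 59], [], [0, 0, 0, 0, 0, 0, 0, 700, 9146, 8516, 958], [], [0, 0, 0, 0, 0, 0, 0, 25,
    4587, 16404, 6212, 171], [], [0, 0, 0, 0, 0, 0, 0, 0, 830, 16284, 20751, 2901]])

noncomputable def r71 : Row :=
  ([false, false, false, false, true, true, true, true, true], [true, true, true, true, true,
    false, false, false, false], 16, [[], [0, 0, 0, 0, 20, 70, 45, 5], [], [0, 0, 0, 0, 0, 180,
    331, 105, 4], [], [0, 0, 0, 0, 0, 25, 682, 640, 88, 1], [], [0, 0, 0, 0, 0, 0, 334, 1554, 640,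
    27], [], [0, 0, 0, 0, 0, 0, 12, 1438, 2145, 313], [], [0, 0, 0, 0, 0, 0, 0, 314, 3308, 1747,
    53], [], [0, 0, 0, 0, 0, 0, 0, 8, 1954, 4682, 783], [], [0, 0, 0, 0, 0, 0, 0, 0, 346, 5846,
    4206, 153]])

noncomputable def r72 : Row :=
  ([false, false, false, true, true, true, true, true, true], [true, true, true, true, true, true,
    false, false, false], 15, [[0, 0, 0, 0, 5, 15, 5], [], [0, 0, 0, 0, 0, 69, 78, 9], [], [0, 0,
    0, 0, 0, 6, 243, 124, 5], [], [0, 0, 0, 0, 0, 0, 145, 481, 91, 1], [], [0, 0, 0, 0, 0, 0, 3,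
    606, 515, 25], [], [0, 0, 0, 0, 0, 0, 0, 141, 1142, 266], [], [0, 0, 0, 0, 0, 0, 0, 2, 846,
    1158, 47], [], [0, 0, 0, 0, 0, 0, 0, 0, 147, 2024, 618]])

noncomputable def r73 : Row :=
  ([false, false, true, true, true, true, true, true, true], [true, true, true, true, true, true,
    true, false, false], 13, [[], [0, 0, 0, 0, 0, 28, 14], [], [0, 0, 0, 0, 0, 0, 84, 14], [], [0,
    0, 0, 0, 0, 0, 63, 127, 6], [], [0, 0, 0, 0, 0, 0, 0, 255, 90, 1], [], [0, 0, 0, 0, 0, 0, 0,
    63, 357, 23], [], [0, 0, 0, 0, 0, 0, 0, 0, 376, 215]])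

noncomputable def r74 : Row :=
  ([false, true, true, true, true, true, true, true, true], [true, true, true, true, true, true,
    true, true, false], 13, [[0, 0, 0, 0, 0, 14], [], [0, 0, 0, 0, 0, 0, 28], [], [0, 0, 0, 0, 0,
    0, 28, 20], [], [0, 0, 0, 0, 0, 0, 0, 108, 7], [], [0, 0, 0, 0, 0, 0, 0, 28, 85, 1], [], [0,
    0, 0, 0, 0, 0, 0, 0, 172, 21], [], [0, 0, 0, 0, 0, 0, 0, 0, 28, 160]])

noncomputable def r75 : Row :=
  ([true, true, true, true, true, true, true, true, true], [true, true, true, true, true, true,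
    true, true, true], 13, [[], [], [], [], [], [0, 0, 0, 0, 0, 0, 0, 36], [], [0, 0, 0, 0, 0, 0,
    0, 0, 9], [], [0, 0, 0, 0, 0, 0, 0, 0, 72, 1], [], [0, 0, 0, 0, 0, 0, 0, 0, 0, 18]])

noncomputable def r76 : Row :=
  ([false, false, false, false, false, false, false, false, false, false], [false, false, false,
    false, false, false, false, false, false, false], 17, [[0, 1, 45, 540, 2520, 5292, 5292, 2520,
    540, 45, 1], [], [0, 0, 45, 1200, 9450, 30240, 44100, 30240, 9450, 1200, 45], [], [0, 0, 0,
    780, 13650, 73710, 163800, 163800, 73710, 13650, 780], [], [0, 0, 0, 0, 7470, 90300, 342090,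
    529200, 355950, 99540, 9450, 120], [], [0, 0, 0, 0, 210, 48510, 404250, 1074150, 1143450,
    501270, 80850, 3150], [], [0, 0, 0, 0, 0, 4872, 241164, 1345080, 2467080, 1764840, 481404,
    40152, 420], [], [0, 0, 0, 0, 0, 0, 51030, 966900, 3522750, 4365900, 2035110, 325500, 11970],
    [], [0, 0, 0, 0, 0, 0, 2310, 342000, 3188790, 7514100, 6166050, 1811880, 158970, 2100], [],
    [0, 0, 0, 0, 0, 0, 0, 48510, 1700370, 8779980, 13353780, 7127610, 1277430, 57330, 210]])

noncomputable def r77 : Row :=
  ([false, false, false, false, false, false, false, false, false, true], [true, false, false,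
    false, false, false, false, false, false, false], 18, [[], [0, 0, 9, 204, 1344, 3528, 4116,
    2184, 504, 44, 1], [], [0, 0, 0, 240, 3570, 16128, 29400, 23520, 8190, 1120, 44], [], [0, 0,
    0, 0, 2730, 27846, 87360, 109200, 57330, 11830, 728], [], [0, 0, 0, 0, 84, 18942, 132090,
    285936, 239316, 77854, 8218, 112], [], [0, 0, 0, 0, 0, 2058, 94416, 436254, 637644, 344694,
    64372, 2786], [], [0, 0, 0, 0, 0, 0, 21714, 363858, 1079904, 1034124, 343910, 33110, 392], [],
    [0, 0, 0, 0, 0, 0, 966, 140850, 1118724, 2092944, 1270906, 244902, 10388], [], [0, 0, 0, 0, 0,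
    0, 0, 20286, 656430, 2797276, 3265376, 1217986, 127274, 1932], [], [0, 0, 0, 0, 0, 0, 0, 924,
    197052, 2375632, 5785012, 4183816, 929992, 49196, 210]])

noncomputable def r78 : Row :=
  ([false, false, false, false, false, false, false, false, true, true], [true, true, false,
    false, false, false, false, false, false, false], 17, [[0, 0, 1, 28, 196, 490, 490, 196, 28,
    1], [], [0, 0, 0, 64, 910, 3724, 5782, 3640, 889, 70, 1], [], [0, 0, 0, 0, 938, 8624, 23324,
    23744, 9380, 1288, 42], [], [0, 0, 0, 0, 28, 7112, 43316, 77924, 50771, 11613, 700], [], [0,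
    0, 0, 0, 0, 840, 36218, 141638, 165200, 65359, 7560, 105], [], [0, 0, 0, 0, 0, 0, 9282,
    136444, 330988, 240737, 53676, 2541], [], [0, 0, 0, 0, 0, 0, 378, 58662, 393932, 578991,
    250460, 28329, 364], [], [0, 0, 0, 0, 0, 0, 0, 8400, 256188, 892131, 779485, 189644, 9324],
    [], [0, 0, 0, 0, 0, 0, 0, 336, 79968, 846130, 1618955, 824782, 106050, 1841]])

noncomputable def r79 : Row :=
  ([false, false, false, false, false, false, false, true, true, true], [true, true, true, false,
    false, false, false, false, false, false], 16, [[], [0, 0, 0, 14, 182, 630, 770, 350, 54, 2],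
    [], [0, 0, 0, 0, 308, 2450, 5418, 4220, 1160, 93, 1], [], [0, 0, 0, 0, 7, 2639, 13573, 19393,
    9290, 1377, 40], [], [0, 0, 0, 0, 0, 315, 13755, 44189, 39282, 10630, 665], [], [0, 0, 0, 0,
    0, 0, 3871, 50411, 96568, 50368, 6745, 98], [], [0, 0, 0, 0, 0, 0, 147, 24368, 135703, 149746,
    42532, 2292], [], [0, 0, 0, 0, 0, 0, 0, 3535, 99966, 274599, 168744, 23571, 337], [], [0, 0,
    0, 0, 0, 0, 0, 112, 32975, 298104, 426561, 139860, 8277]])

noncomputable def r80 : Row :=
  ([false, false, false, false, false, false, true, true, true, true], [true, true, true, true,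
    false, false, false, false, false, false], 15, [[0, 0, 0, 2, 30, 100, 100, 30, 2], [], [0, 0,
    0, 0, 93, 660, 1185, 660, 105, 3], [], [0, 0, 0, 0, 1, 951, 4094, 4460, 1425, 111, 1], [], [0,
    0, 0, 0, 0, 108, 5122, 13212, 8465, 1400, 38], [], [0, 0, 0, 0, 0, 0, 1595, 18275, 26613,
    9215, 625], [], [0, 0, 0, 0, 0, 0, 51, 10146, 45494, 35567, 5855, 91], [], [0, 0, 0, 0, 0, 0,
    0, 1475, 38951, 80721, 31973, 2040], [], [0, 0, 0, 0, 0, 0, 0, 36, 13772, 103421, 103827,
    19086, 311]])

noncomputable def r81 : Row :=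
  ([false, false, false, false, false, true, true, true, true, true], [true, true, true, true,
    true, false, false, false, false, false], 14, [[], [0, 0, 0, 0, 25, 150, 200, 70, 5], [], [0,
    0, 0, 0, 0, 340, 1151, 872, 158, 4], [], [0, 0, 0, 0, 0, 31, 1887, 3679, 1530, 125, 1], [],
    [0, 0, 0, 0, 0, 0, 640, 6478, 6694, 1354, 36], [], [0, 0, 0, 0, 0, 0, 15, 4220, 14633, 7398,
    579], [], [0, 0, 0, 0, 0, 0, 0, 610, 15075, 22045, 4889, 84], [], [0, 0, 0, 0, 0, 0, 0, 10,
    5850, 34905, 22265, 1789]])

noncomputable def r82 : Row :=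
  ([false, false, false, false, true, true, true, true, true, true], [true, true, true, true,
    true, true, false, false, false, false], 13, [[0, 0, 0, 0, 5, 30, 30, 5], [], [0, 0, 0, 0, 0,
    120, 305, 138, 9], [], [0, 0, 0, 0, 0, 6, 686, 926, 204, 5], [], [0, 0, 0, 0, 0, 0, 249, 2217,
    1452, 135, 1], [], [0, 0, 0, 0, 0, 0, 3, 1768, 4421, 1245, 34], [], [0, 0, 0, 0, 0, 0, 0, 244,
    5779, 5375, 527], [], [0, 0, 0, 0, 0, 0, 0, 2, 2524, 11247, 3881, 77]])

noncomputable def r83 : Row :=
  ([false, false, false, true, true, true, true, true, true, true], [true, true, true, true, true,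
    true, true, false, false, false], 12, [[], [0, 0, 0, 0, 0, 42, 70, 14], [], [0, 0, 0, 0, 0, 0,
    252, 196, 14], [], [0, 0, 0, 0, 0, 0, 91, 721, 239, 6], [], [0, 0, 0, 0, 0, 0, 0, 748, 1195,
    141, 1], [], [0, 0, 0, 0, 0, 0, 0, 91, 2170, 1074, 32], [], [0, 0, 0, 0, 0, 0, 0, 0, 1116,
    3342, 469]])

noncomputable def r84 : Row :=
  ([false, false, true, true, true, true, true, true, true, true], [true, true, true, true, true,
    true, true, true, false, false], 10, [[0, 0, 0, 0, 0, 14, 14], [], [0, 0, 0, 0, 0, 0, 98, 28],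
    [], [0, 0, 0, 0, 0, 0, 28, 212, 20], [], [0, 0, 0, 0, 0, 0, 0, 328, 257, 7], [], [0, 0, 0, 0,
    0, 0, 0, 28, 783, 143, 1]])

noncomputable def r85 : Row :=
  ([false, true, true, true, true, true, true, true, true, true], [true, true, true, true, true,
    true, true, true, true, false], 10, [[], [0, 0, 0, 0, 0, 0, 42], [], [0, 0, 0, 0, 0, 0, 0,
    48], [], [0, 0, 0, 0, 0, 0, 0, 156, 27], [], [0, 0, 0, 0, 0, 0, 0, 0, 252, 8], [], [0, 0, 0,
    0, 0, 0, 0, 0, 252, 141, 1]])

noncomputable def r86 : Row :=
  ([true, true, true, true, true, true, true, true, true, true], [true, true, true, true, true,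
    true, true, true, true, true], 10, [[0, 0, 0, 0, 0, 0, 42], [], [], [], [0, 0, 0, 0, 0, 0, 0,
    120], [], [0, 0, 0, 0, 0, 0, 0, 0, 45], [], [0, 0, 0, 0, 0, 0, 0, 0, 180, 10]])

noncomputable def r87 : Row :=
  ([false, false, false, false, false, false, false, false, false, false, false], [false, false,
    false, false, false, false, false, false, false, false, false], 15, [[0, 1, 55, 825, 4950,
    13860, 19404, 13860, 4950, 825, 55, 1], [], [0, 0, 55, 1815, 18150, 76230, 152460, 152460,
    76230, 18150, 1815, 55], [], [0, 0, 0, 1155, 25410, 177870, 533610, 762300, 533610, 177870,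
    25410, 1155], [], [0, 0, 0, 0, 13365, 206910, 1041810, 2254230, 2286900, 1092630, 228690,
    16830, 165], [], [0, 0, 0, 0, 330, 104610, 1143450, 4163610, 6479550, 4599210, 1448370,
    175890, 5280], [], [0, 0, 0, 0, 0, 9174, 625746, 4715370, 12302070, 13594350, 6591354,
    1304226, 82170, 660], [], [0, 0, 0, 0, 0, 0, 115170, 3023130, 15380310, 28332150, 21827190,
    7010850, 820050, 22770], [], [0, 0, 0, 0, 0, 0, 4356, 922350, 12061335, 41102490, 52711230,
    27745146, 5705700, 367950, 3630]])

noncomputable def r88 : Row :=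
  ([false, false, false, false, false, false, false, false, false, false, true], [true, false,
    false, false, false, false, false, false, false, false, false], 16, [[], [0, 0, 10, 285, 2430,
    8568, 14112, 11340, 4410, 780, 54, 1], [], [0, 0, 0, 330, 6270, 37422, 94248, 110880, 62370,
    16170, 1716, 54], [], [0, 0, 0, 0, 4620, 61446, 261954, 471240, 388080, 145530, 22638, 1092],
    [], [0, 0, 0, 0, 120, 39258, 367080, 1119942, 1425060, 799050, 187824, 15030, 156], [], [0, 0,
    0, 0, 0, 3642, 239526, 1536492, 3313080, 2924670, 1075746, 146328, 4776], [], [0, 0, 0, 0, 0,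
    0, 47244, 1135188, 4866828, 7271340, 4333812, 995820, 70224, 624], [], [0, 0, 0, 0, 0, 0,
    1716, 374430, 4322550, 12208560, 12374748, 4821978, 651210, 20280], [], [0, 0, 0, 0, 0, 0, 0,
    44088, 2125716, 13485900, 24961254, 16831116, 4143426, 306768, 3390]])

noncomputable def r89 : Row :=
  ([false, false, false, false, false, false, false, false, false, true, true], [true, true,
    false, false, false, false, false, false, false, false, false], 15, [[0, 0, 1, 36, 336, 1176,
    1764, 1176, 336, 36, 1], [], [0, 0, 0, 81, 1506, 8400, 18816, 18564, 8106, 1456, 88, 1], [],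
    [0, 0, 0, 0, 1494, 18354, 69720, 107016, 71106, 19894, 2044, 52], [], [0, 0, 0, 0, 36, 14154,
    118902, 313488, 329028, 142730, 23478, 1072], [], [0, 0, 0, 0, 0, 1380, 89838, 505362, 914256,
    640416, 171626, 14406, 148], [], [0, 0, 0, 0, 0, 0, 19278, 424896, 1556676, 1888236, 850766,
    130452, 4480], [], [0, 0, 0, 0, 0, 0, 630, 152988, 1559964, 3661208, 2897538, 800548, 63084,
    588], [], [0, 0, 0, 0, 0, 0, 0, 17598, 836256, 4554172, 6784908, 3402266, 543424, 18788]])

noncomputable def r90 : Row :=
  ([false, false, false, false, false, false, false, false, true, true, true], [true, true, true,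
    false, false, false, false, false, false, false, false], 14, [[], [0, 0, 0, 16, 280, 1372,
    2548, 1960, 616, 70, 2], [], [0, 0, 0, 0, 456, 4998, 16170, 20118, 10185, 1981, 119, 1], [],
    [0, 0, 0, 0, 8, 5012, 36764, 80696, 66857, 21273, 2268, 50], [], [0, 0, 0, 0, 0, 476, 33320,
    160538, 235361, 125083, 22911, 1043], [], [0, 0, 0, 0, 0, 0, 7630, 157174, 480151, 455252,
    146587, 13482, 140], [], [0, 0, 0, 0, 0, 0, 224, 62140, 554851, 1050203, 619332, 111930,
    4172], [], [0, 0, 0, 0, 0, 0, 0, 7042, 329183, 1505487, 1737841, 608923, 55559, 553]])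

noncomputable def r91 : Row :=
  ([false, false, false, false, false, false, false, true, true, true, true], [true, true, true,
    true, false, false, false, false, false, false, false], 13, [[0, 0, 0, 2, 42, 210, 350, 210,
    42, 2], [], [0, 0, 0, 0, 126, 1288, 3612, 3570, 1270, 141, 3], [], [0, 0, 0, 0, 1, 1715,
    11039, 19867, 12380, 2601, 145, 1], [], [0, 0, 0, 0, 0, 147, 12117, 49591, 57228, 21700, 2417,
    48], [], [0, 0, 0, 0, 0, 0, 2947, 57281, 143096, 101722, 21610, 1007], [], [0, 0, 0, 0, 0, 0,
    70, 25193, 194239, 287310, 118948, 12405, 132], [], [0, 0, 0, 0, 0, 0, 0, 2758, 129756,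
    486012, 415435, 93124, 3853]])

noncomputable def r92 : Row :=
  ([false, false, false, false, false, false, true, true, true, true, true], [true, true, true,
    true, true, false, false, false, false, false, false], 12, [[], [0, 0, 0, 0, 30, 275, 625,
    450, 100, 5], [], [0, 0, 0, 0, 0, 574, 3101, 4305, 1850, 220, 4], [], [0, 0, 0, 0, 0, 37,
    4363, 14561, 12420, 3035, 167, 1], [], [0, 0, 0, 0, 0, 0, 1091, 20578, 40289, 20000, 2475,
    46], [], [0, 0, 0, 0, 0, 0, 18, 10155, 66447, 72916, 19355, 963], [], [0, 0, 0, 0, 0, 0, 0,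
    1049, 51075, 151009, 89184, 11140, 124]])

noncomputable def r93 : Row :=
  ([false, false, false, false, false, true, true, true, true, true, true], [true, true, true,
    true, true, true, false, false, false, false, false], 11, [[0, 0, 0, 0, 5, 50, 100, 50, 5],
    [], [0, 0, 0, 0, 0, 185, 835, 844, 212, 9], [], [0, 0, 0, 0, 0, 6, 1555, 4057, 2326, 298, 5],
    [], [0, 0, 0, 0, 0, 0, 381, 7250, 10502, 3238, 185, 1], [], [0, 0, 0, 0, 0, 0, 3, 4090, 22032,
    16616, 2445, 44], [], [0, 0, 0, 0, 0, 0, 0, 375, 20105, 44473, 16363, 911]])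

noncomputable def r94 : Row :=
  ([false, false, false, false, true, true, true, true, true, true, true], [true, true, true,
    true, true, true, true, false, false, false, false], 10, [[], [0, 0, 0, 0, 0, 56, 196, 126,
    14], [], [0, 0, 0, 0, 0, 0, 560, 1036, 336, 14], [], [0, 0, 0, 0, 0, 0, 119, 2506, 2416, 371,
    6], [], [0, 0, 0, 0, 0, 0, 0, 1645, 6967, 3167, 199, 1], [], [0, 0, 0, 0, 0, 0, 0, 119, 7903,
    12021, 2325, 42]])

noncomputable def r95 : Row :=
  ([false, false, false, true, true, true, true, true, true, true, true], [true, true, true, true,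
    true, true, true, true, false, false, false], 9, [[0, 0, 0, 0, 0, 14, 42, 14], [], [0, 0, 0,
    0, 0, 0, 210, 238, 28], [], [0, 0, 0, 0, 0, 0, 28, 846, 444, 20], [], [0, 0, 0, 0, 0, 0, 0,
    668, 2038, 433, 7], [], [0, 0, 0, 0, 0, 0, 0, 28, 3115, 2801, 209, 1]])

noncomputable def r96 : Row :=
  ([false, false, true, true, true, true, true, true, true, true, true], [true, true, true, true,
    true, true, true, true, true, false, false], 7, [[], [0, 0, 0, 0, 0, 0, 84, 42], [], [0, 0, 0,
    0, 0, 0, 0, 276, 48], [], [0, 0, 0, 0, 0, 0, 0, 276, 510, 27]])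

noncomputable def r97 : Row :=
  ([false, true, true, true, true, true, true, true, true, true, true], [true, true, true, true,
    true, true, true, true, true, true, false], 7, [[0, 0, 0, 0, 0, 0, 42], [], [0, 0, 0, 0, 0, 0,
    0, 90], [], [0, 0, 0, 0, 0, 0, 0, 120, 75], [], [0, 0, 0, 0, 0, 0, 0, 0, 495, 35]])

noncomputable def r98 : Row :=
  ([true, true, true, true, true, true, true, true, true, true, true], [true, true, true, true,
    true, true, true, true, true, true, true], 7, [[], [], [], [], [], [0, 0, 0, 0, 0, 0, 0, 0,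
    165]])

noncomputable def r99 : Row :=
  ([false, false, false, false, false, false, false, false, false, false, false, false], [false,
    false, false, false, false, false, false, false, false, false, false, false], 13, [[0, 1, 66,
    1210, 9075, 32670, 60984, 60984, 32670, 9075, 1210, 66, 1], [], [0, 0, 66, 2640, 32670,
    174240, 457380, 627264, 457380, 174240, 32670, 2640, 66], [], [0, 0, 0, 1650, 44550, 392040,
    1524600, 2940300, 2940300, 1524600, 392040, 44550, 1650], [], [0, 0, 0, 0, 22660, 436788,
    2816880, 8102160, 11499840, 8290920, 2967888, 483120, 28380, 220], [], [0, 0, 0, 0, 495,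
    209781, 2908620, 13873860, 29588130, 30720690, 15685956, 3732300, 353925, 8415], [], [0, 0, 0,
    0, 0, 16236, 1480050, 14476176, 50823630, 79845480, 59855796, 21106800, 3176316, 156420, 990],
    [], [0, 0, 0, 0, 0, 0, 240306, 8435856, 57129930, 146100240, 167146980, 88864776, 20971236,
    1874400, 40590]])

noncomputable def r100 : Row :=
  ([false, false, false, false, false, false, false, false, false, false, false, true], [true,
    false, false, false, false, false, false, false, false, false, false, false], 14, [[], [0, 0,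
    11, 385, 4125, 18810, 41580, 47124, 27720, 8250, 1155, 65, 1], [], [0, 0, 0, 440, 10395,
    79200, 263340, 427680, 353430, 147840, 29700, 2520, 65], [], [0, 0, 0, 0, 7425, 124740,
    693000, 1692900, 2004750, 1178100, 332640, 40500, 1575], [], [0, 0, 0, 0, 165, 75636, 912450,
    3723390, 6670620, 5682930, 2302146, 411030, 25845, 210], [], [0, 0, 0, 0, 0, 6072, 551892,
    4689300, 13960980, 18153300, 10903332, 2927652, 304020, 7740], [], [0, 0, 0, 0, 0, 0, 94809,
    3134274, 18331665, 39274290, 36455100, 15027594, 2544024, 137250, 945], [], [0, 0, 0, 0, 0, 0,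
    2871, 898854, 14366187, 57137520, 86786040, 56372166, 15441264, 1548282, 36855]])

noncomputable def r101 : Row :=
  ([false, false, false, false, false, false, false, false, false, false, true, true], [true,
    true, false, false, false, false, false, false, false, false, false, false], 13, [[0, 0, 1,
    45, 540, 2520, 5292, 5292, 2520, 540, 45, 1], [], [0, 0, 0, 100, 2355, 17172, 52416, 74592,
    51030, 16380, 2256, 108, 1], [], [0, 0, 0, 0, 2265, 35826, 181818, 391896, 392490, 184590,
    38598, 3084, 63], [], [0, 0, 0, 0, 45, 26160, 289632, 1050678, 1614780, 1127700, 351540,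
    43746, 1569], [], [0, 0, 0, 0, 0, 2145, 201486, 1540626, 3983022, 4319820, 2049222, 399378,
    25518, 201], [], [0, 0, 0, 0, 0, 0, 36894, 1159896, 5982780, 10864470, 8147250, 2528652,
    284508, 7410], [], [0, 0, 0, 0, 0, 0, 990, 357918, 5224977, 17938590, 22479918, 11349486,
    2195340, 127746, 900]])

noncomputable def r102 : Row :=
  ([false, false, false, false, false, false, false, false, false, true, true, true], [true, true,
    true, false, false, false, false, false, false, false, false, false], 12, [[], [0, 0, 0, 18,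
    408, 2688, 7056, 8232, 4368, 1008, 88, 2], [], [0, 0, 0, 0, 645, 9318, 41496, 75432, 60900,
    21770, 3164, 148, 1], [], [0, 0, 0, 0, 9, 8832, 87528, 273288, 347256, 190764, 43568, 3516,
    61], [], [0, 0, 0, 0, 0, 684, 72576, 489600, 1068276, 933576, 335244, 44660, 1552], [], [0, 0,
    0, 0, 0, 0, 13842, 424446, 1894428, 2833804, 1653470, 366114, 24696, 192], [], [0, 0, 0, 0, 0,
    0, 324, 141114, 1878804, 5448378, 5455568, 2044406, 258048, 7058]])

noncomputable def r103 : Row :=
  ([false, false, false, false, false, false, false, false, true, true, true, true], [true, true,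
    true, true, false, false, false, false, false, false, false, false], 11, [[0, 0, 0, 2, 56,
    392, 980, 980, 392, 56, 2], [], [0, 0, 0, 0, 164, 2282, 9212, 14210, 8960, 2219, 182, 3], [],
    [0, 0, 0, 0, 1, 2864, 25760, 69230, 71183, 29106, 4354, 183, 1], [], [0, 0, 0, 0, 0, 192,
    25592, 152426, 276962, 188517, 47957, 3871, 59], [], [0, 0, 0, 0, 0, 0, 5012, 153180, 586578,
    706293, 306558, 44597, 1526], [], [0, 0, 0, 0, 0, 0, 92, 55230, 668108, 1608265, 1244481,
    325514, 23639, 183]])

noncomputable def r104 : Row :=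
  ([false, false, false, false, false, false, false, true, true, true, true, true], [true, true,
    true, true, true, false, false, false, false, false, false, false], 10, [[], [0, 0, 0, 0, 35,
    455, 1575, 1925, 875, 135, 5], [], [0, 0, 0, 0, 0, 896, 7070, 15624, 12260, 3440, 291, 4], [],
    [0, 0, 0, 0, 0, 43, 8911, 45457, 65845, 32830, 5363, 214, 1], [], [0, 0, 0, 0, 0, 0, 1715,
    54627, 174344, 161405, 48595, 4115, 57], [], [0, 0, 0, 0, 0, 0, 21, 21350, 233981, 452158,
    256310, 42821, 1490]])

noncomputable def r105 : Row :=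
  ([false, false, false, false, false, false, true, true, true, true, true, true], [true, true,
    true, true, true, true, false, false, false, false, false, false], 9, [[0, 0, 0, 0, 5, 75,
    250, 250, 75, 5], [], [0, 0, 0, 0, 0, 264, 1860, 3330, 1860, 300, 9], [], [0, 0, 0, 0, 0, 6,
    3060, 13119, 14445, 4770, 406, 5], [], [0, 0, 0, 0, 0, 0, 541, 19208, 49551, 33105, 6135, 241,
    1], [], [0, 0, 0, 0, 0, 0, 3, 8160, 80456, 119574, 45905, 4248, 55]])

noncomputable def r106 : Row :=
  ([false, false, false, false, false, true, true, true, true, true, true, true], [true, true,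
    true, true, true, true, true, false, false, false, false, false], 8, [[], [0, 0, 0, 0, 0, 70,
    420, 560, 196, 14], [], [0, 0, 0, 0, 0, 0, 1050, 3556, 2716, 504, 14], [], [0, 0, 0, 0, 0, 0,
    147, 6692, 13126, 5686, 523, 6], [], [0, 0, 0, 0, 0, 0, 0, 3066, 27015, 28761, 6572, 264, 1]])

noncomputable def r107 : Row :=
  ([false, false, false, false, true, true, true, true, true, true, true, true], [true, true,
    true, true, true, true, true, true, false, false, false, false], 7, [[0, 0, 0, 0, 0, 14, 84,
    84, 14], [], [0, 0, 0, 0, 0, 0, 364, 924, 420, 28], [], [0, 0, 0, 0, 0, 0, 28, 2324, 3164,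
    724, 20], [], [0, 0, 0, 0, 0, 0, 0, 1128, 8788, 5961, 636, 7]])

noncomputable def r108 : Row :=
  ([false, false, false, true, true, true, true, true, true, true, true, true], [true, true, true,
    true, true, true, true, true, true, false, false, false], 6, [[], [0, 0, 0, 0, 0, 0, 126, 210,
    42], [], [0, 0, 0, 0, 0, 0, 0, 816, 642, 48], [], [0, 0, 0, 0, 0, 0, 0, 396, 2721, 939, 27]])

noncomputable def r109 : Row :=
  ([false, false, true, true, true, true, true, true, true, true, true, true], [true, true, true,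
    true, true, true, true, true, true, true, false, false], 4, [[0, 0, 0, 0, 0, 0, 42, 42], [],
    [0, 0, 0, 0, 0, 0, 0, 312, 90]])

noncomputable def r110 : Row :=
  ([false, true, true, true, true, true, true, true, true, true, true, true], [true, true, true,
    true, true, true, true, true, true, true, true, false], 4, [[], [0, 0, 0, 0, 0, 0, 0, 132],
    [], [0, 0, 0, 0, 0, 0, 0, 0, 165]])

noncomputable def r111 : Row :=
  ([true, true, true, true, true, true, true, true, true, true, true, true], [true, true, true,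
    true, true, true, true, true, true, true, true, true], 4, [[0, 0, 0, 0, 0, 0, 0, 132]])

noncomputable def r112 : Row :=
  ([false, false, false, false, false, false, false, false, false, false, false, false, false],
    [false, false, false, false, false, false, false, false, false, false, false, false, false],
    11, [[0, 1, 78, 1716, 15730, 70785, 169884, 226512, 169884, 70785, 15730, 1716, 78, 1], [],
    [0, 0, 78, 3718, 55770, 368082, 1226940, 2208492, 2208492, 1226940, 368082, 55770, 3718, 78],
    [], [0, 0, 0, 2288, 74360, 803088, 3926208, 9815520, 13250952, 9815520, 3926208, 803088,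
    74360, 2288], [], [0, 0, 0, 0, 36751, 862576, 6926634, 25520352, 48157395, 48586824, 26256516,
    7317024, 953667, 45760, 286], [], [0, 0, 0, 0, 715, 396396, 6792786, 41046720, 114657543,
    163183020, 121957836, 47114496, 8783775, 668668, 12870], [], [0, 0, 0, 0, 0, 27313, 3247244,
    39987090, 181520196, 383480097, 408816408, 223146924, 60008520, 7108101, 280852, 1430]])

noncomputable def r113 : Row :=
  ([false, false, false, false, false, false, false, false, false, false, false, false, true],
    [true, false, false, false, false, false, false, false, false, false, false, false, false],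
    12, [[], [0, 0, 12, 506, 6655, 38115, 108900, 165528, 137214, 61710, 14520, 1650, 77, 1], [],
    [0, 0, 0, 572, 16445, 155727, 660660, 1415700, 1613898, 990990, 320892, 51480, 3575, 77], [],
    [0, 0, 0, 0, 11440, 236808, 1661088, 5285280, 8494200, 7172880, 3171168, 700128, 68640, 2200],
    [], [0, 0, 0, 0, 220, 137357, 2075865, 10905972, 26110590, 31301490, 19258602, 5926140,
    833052, 42295, 275], [], [0, 0, 0, 0, 0, 9647, 1177242, 12793704, 50205078, 90000405,
    79585572, 34909512, 7173804, 588423, 11990], [], [0, 0, 0, 0, 0, 0, 178255, 7855353, 60133722,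
    174537297, 231835395, 148804590, 45270588, 5900202, 251427, 1375]])

noncomputable def r114 : Row :=
  ([false, false, false, false, false, false, false, false, false, false, false, true, true],
    [true, true, false, false, false, false, false, false, false, false, false, false, false], 11,
    [[0, 0, 1, 55, 825, 4950, 13860, 19404, 13860, 4950, 825, 55, 1], [], [0, 0, 0, 121, 3520,
    32505, 129690, 251460, 248094, 124740, 30690, 3345, 130, 1], [], [0, 0, 0, 0, 3300, 65307,
    426690, 1228590, 1727550, 1224300, 430122, 69870, 4470, 75], [], [0, 0, 0, 0, 55, 45573,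
    642708, 3067020, 6481530, 6625410, 3323628, 783348, 76485, 2215], [], [0, 0, 0, 0, 0, 3190,
    417351, 4162752, 14547555, 22511280, 16525410, 5702256, 847782, 42690, 265], [], [0, 0, 0, 0,
    0, 0, 66165, 2858064, 19753998, 50096310, 56111550, 28980960, 6615504, 571068, 11655]])

noncomputable def r115 : Row :=
  ([false, false, false, false, false, false, false, false, false, false, true, true, true],
    [true, true, true, false, false, false, false, false, false, false, false, false, false], 10,
    [[], [0, 0, 0, 20, 570, 4860, 17136, 28224, 22680, 8820, 1560, 108, 2], [], [0, 0, 0, 0, 880,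
    16203, 95040, 237600, 279972, 159390, 42504, 4800, 180, 1], [], [0, 0, 0, 0, 10, 14673,
    188814, 795024, 1435356, 1207920, 475650, 82092, 5202, 73], [], [0, 0, 0, 0, 0, 945, 145584,
    1309758, 3976884, 5160660, 3042984, 793926, 80724, 2217], [], [0, 0, 0, 0, 0, 0, 23541,
    1027566, 6313242, 13666500, 12540870, 5027274, 818034, 42336, 255]])

noncomputable def r116 : Row :=
  ([false, false, false, false, false, false, false, false, false, true, true, true, true], [true,
    true, true, true, false, false, false, false, false, false, false, false, false], 9, [[0, 0,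
    0, 2, 72, 672, 2352, 3528, 2352, 672, 72, 2], [], [0, 0, 0, 0, 207, 3762, 20664, 45864, 45108,
    19782, 3612, 228, 3], [], [0, 0, 0, 0, 1, 4509, 54006, 202656, 310968, 209608, 60914, 6840,
    225, 1], [], [0, 0, 0, 0, 0, 243, 49596, 405138, 1065252, 1139180, 519232, 95438, 5864, 71],
    [], [0, 0, 0, 0, 0, 0, 8004, 364194, 1985994, 3626708, 2656192, 787710, 83958, 2208]])

noncomputable def r117 : Row :=
  ([false, false, false, false, false, false, false, false, true, true, true, true, true], [true,
    true, true, true, true, false, false, false, false, false, false, false, false], 8, [[], [0,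
    0, 0, 0, 40, 700, 3430, 6370, 4900, 1540, 175, 5], [], [0, 0, 0, 0, 0, 1320, 14322, 46158,
    57540, 29400, 5845, 371, 4], [], [0, 0, 0, 0, 0, 49, 16612, 120280, 264901, 223615, 74284,
    8750, 266, 1], [], [0, 0, 0, 0, 0, 0, 2540, 127532, 604211, 900711, 503041, 103110, 6398,
    69]])

noncomputable def r118 : Row :=
  ([false, false, false, false, false, false, false, true, true, true, true, true, true], [true,
    true, true, true, true, true, false, false, false, false, false, false, false], 7, [[0, 0, 0,
    0, 5, 105, 525, 875, 525, 105, 5], [], [0, 0, 0, 0, 0, 357, 3619, 10101, 9975, 3565, 402, 9],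
    [], [0, 0, 0, 0, 0, 6, 5453, 34811, 62781, 39680, 8641, 528, 5], [], [0, 0, 0, 0, 0, 0, 729,
    44072, 178579, 209664, 83505, 10479, 303, 1]])

noncomputable def r119 : Row :=
  ([false, false, false, false, false, false, true, true, true, true, true, true, true], [true,
    true, true, true, true, true, true, false, false, false, false, false, false], 6, [[], [0, 0,
    0, 0, 0, 84, 770, 1750, 1260, 280, 14], [], [0, 0, 0, 0, 0, 0, 1764, 9506, 13230, 5740, 700,
    14], [], [0, 0, 0, 0, 0, 0, 175, 15113, 50296, 43650, 11165, 695, 6]])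

noncomputable def r120 : Row :=
  ([false, false, false, false, false, true, true, true, true, true, true, true, true], [true,
    true, true, true, true, true, true, true, false, false, false, false, false], 5, [[0, 0, 0, 0,
    0, 14, 140, 280, 140, 14], [], [0, 0, 0, 0, 0, 0, 560, 2520, 2548, 644, 28], [], [0, 0, 0, 0,
    0, 0, 28, 5180, 13524, 7872, 1052, 20]])

noncomputable def r121 : Row :=
  ([false, false, false, false, true, true, true, true, true, true, true, true, true], [true,
    true, true, true, true, true, true, true, true, false, false, false, false], 4, [[], [0, 0, 0,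
    0, 0, 0, 168, 588, 378, 42], [], [0, 0, 0, 0, 0, 0, 0, 1800, 3342, 1098, 48]])

noncomputable def r122 : Row :=
  ([false, false, false, true, true, true, true, true, true, true, true, true, true], [true, true,
    true, true, true, true, true, true, true, true, false, false, false], 3, [[0, 0, 0, 0, 0, 0,
    42, 126, 42], [], [0, 0, 0, 0, 0, 0, 0, 666, 756, 90]])

noncomputable def r123 : Row :=
  ([false, false, true, true, true, true, true, true, true, true, true, true, true], [true, true,
    true, true, true, true, true, true, true, true, true, false, false], 1, [])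

noncomputable def r124 : Row :=
  ([false, true, true, true, true, true, true, true, true, true, true, true, true], [true, true,
    true, true, true, true, true, true, true, true, true, true, false], 1, [[0, 0, 0, 0, 0, 0, 0,
    132]])

noncomputable def r125 : Row :=
  ([true, true, true, true, true, true, true, true, true, true, true, true, true], [true, true,
    true, true, true, true, true, true, true, true, true, true, true], 1, [])

noncomputable def r126 : Row :=
  ([false, false, false, false, false, false, false, false, false, false, false, false, false,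
    false], [false, false, false, false, false, false, false, false, false, false, false, false,
    false, false], 9, [[0, 1, 91, 2366, 26026, 143143, 429429, 736164, 736164, 429429, 143143,
    26026, 2366, 91, 1], [], [0, 0, 91, 5096, 91091, 728728, 3006003, 6870864, 9018009, 6870864,
    3006003, 728728, 91091, 5096, 91], [], [0, 0, 0, 3094, 119119, 1548547, 9291282, 29201172,
    51102051, 51102051, 29201172, 9291282, 1548547, 119119, 3094], [], [0, 0, 0, 0, 57421,
    1611610, 15758743, 72300228, 174777603, 234468234, 177354177, 74642568, 16669653, 1779778,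
    71071, 364], [], [0, 0, 0, 0, 1001, 712712, 14784770, 110285175, 390194805, 727452726,
    745488744, 421816395, 127852725, 19199180, 1199198, 19019]])

noncomputable def r127 : Row :=
  ([false, false, false, false, false, false, false, false, false, false, false, false, false,
    true], [true, false, false, false, false, false, false, false, false, false, false, false,
    false, false], 10, [[], [0, 0, 13, 650, 10296, 72358, 259545, 509652, 566280, 358644, 127413,
    24310, 2288, 90, 1], [], [0, 0, 0, 728, 25025, 288288, 1519518, 4152720, 6243237, 5285280,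
    2510508, 648648, 85085, 4928, 90], [], [0, 0, 0, 0, 17017, 425425, 3675672, 14761032,
    30885855, 35378343, 22462440, 7759752, 1378377, 111265, 2992], [], [0, 0, 0, 0, 286, 237523,
    4393675, 28866552, 88915398, 142376949, 123217809, 57571800, 13950222, 1586563, 66451, 352],
    [], [0, 0, 0, 0, 0, 14729, 2357069, 31885425, 159336606, 375976887, 458096925, 295808799,
    99364980, 16170561, 1075217, 17897]])

noncomputable def r128 : Row :=
  ([false, false, false, false, false, false, false, false, false, false, false, false, true,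
    true], [true, true, false, false, false, false, false, false, false, false, false, false,
    false, false], 9, [[0, 0, 1, 66, 1210, 9075, 32670, 60984, 60984, 32670, 9075, 1210, 66, 1],
    [], [0, 0, 0, 144, 5071, 57838, 292215, 740520, 995346, 721644, 278058, 54120, 4785, 154, 1],
    [], [0, 0, 0, 0, 4653, 112618, 920568, 3412200, 6408765, 6375732, 3374448, 920568, 119625,
    6270, 88], [], [0, 0, 0, 0, 66, 75636, 1323168, 8031012, 22315425, 31357029, 23018556,
    8727708, 1613172, 127050, 3036], [], [0, 0, 0, 0, 0, 4576, 810458, 10219143, 46364538,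
    96848400, 101383359, 54129438, 14253888, 1673628, 68200, 341]])

noncomputable def r129 : Row :=
  ([false, false, false, false, false, false, false, false, false, false, false, true, true,
    true], [true, true, true, false, false, false, false, false, false, false, false, false,
    false, false], 8, [[], [0, 0, 0, 22, 770, 8250, 37620, 83160, 94248, 55440, 16500, 2310, 130,
    2], [], [0, 0, 0, 0, 1166, 26653, 199155, 655380, 1061280, 881034, 373758, 77340, 6990, 215,
    1], [], [0, 0, 0, 0, 11, 23243, 376728, 2056890, 5003955, 5978544, 3603138, 1071018, 144945,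
    7415, 86], [], [0, 0, 0, 0, 0, 1265, 273405, 3163182, 12745095, 22974105, 20093040, 8600550,
    1711512, 137535, 3065]])

noncomputable def r130 : Row :=
  ([false, false, false, false, false, false, false, false, false, false, true, true, true, true],
    [true, true, true, true, false, false, false, false, false, false, false, false, false,
    false], 7, [[0, 0, 0, 2, 90, 1080, 5040, 10584, 10584, 5040, 1080, 90, 2], [], [0, 0, 0, 0,
    255, 5865, 42066, 127008, 179676, 122850, 39690, 5568, 279, 3], [], [0, 0, 0, 0, 1, 6775,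
    104235, 520596, 1114992, 1121064, 536634, 116880, 10233, 271, 1], [], [0, 0, 0, 0, 0, 300,
    89820, 963792, 3460671, 5347248, 3825024, 1257984, 175566, 8508, 84]])

noncomputable def r131 : Row :=
  ([false, false, false, false, false, false, false, false, false, true, true, true, true, true],
    [true, true, true, true, true, false, false, false, false, false, false, false, false, false],
    6, [[], [0, 0, 0, 0, 45, 1020, 6720, 17640, 20580, 10920, 2520, 220, 5], [], [0, 0, 0, 0, 0,
    1860, 26562, 117600, 213528, 173040, 62510, 9296, 460, 4], [], [0, 0, 0, 0, 0, 55, 28869,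
    281610, 877056, 1123472, 630644, 150682, 13460, 323, 1]])

noncomputable def r132 : Row :=
  ([false, false, false, false, false, false, false, false, true, true, true, true, true, true],
    [true, true, true, true, true, true, false, false, false, false, false, false, false, false],
    5, [[0, 0, 0, 0, 5, 140, 980, 2450, 2450, 980, 140, 5], [], [0, 0, 0, 0, 0, 464, 6398, 25676,
    39494, 24920, 6209, 518, 9], [], [0, 0, 0, 0, 0, 6, 9028, 80332, 215320, 222565, 92526, 14378,
    664, 5]])

noncomputable def r133 : Row :=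
  ([false, false, false, false, false, false, false, true, true, true, true, true, true, true],
    [true, true, true, true, true, true, true, false, false, false, false, false, false, false],
    4, [[], [0, 0, 0, 0, 0, 98, 1274, 4410, 5390, 2450, 378, 14], [], [0, 0, 0, 0, 0, 0, 2744,
    21560, 47628, 37520, 10640, 924, 14]])

noncomputable def r134 : Row :=
  ([false, false, false, false, false, false, true, true, true, true, true, true, true, true],
    [true, true, true, true, true, true, true, true, false, false, false, false, false, false], 3,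
    [[0, 0, 0, 0, 0, 14, 210, 700, 700, 210, 14], [], [0, 0, 0, 0, 0, 0, 798, 5600, 10010, 5600,
    910, 28]])

noncomputable def r135 : Row :=
  ([false, false, false, false, false, true, true, true, true, true, true, true, true, true],
    [true, true, true, true, true, true, true, true, true, false, false, false, false, false], 2,
    [[], [0, 0, 0, 0, 0, 0, 210, 1260, 1680, 588, 42]])

noncomputable def r136 : Row :=
  ([false, false, false, false, true, true, true, true, true, true, true, true, true, true],
    [true, true, true, true, true, true, true, true, true, true, false, false, false, false], 1,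
    [[0, 0, 0, 0, 0, 0, 42, 252, 252, 42]])

noncomputable def r137 : Row :=
  ([false, false, false, false, false, false, false, false, false, false, false, false, false,
    false, false], [false, false, false, false, false, false, false, false, false, false, false,
    false, false, false, false], 7, [[0, 1, 105, 3185, 41405, 273273, 1002001, 2147145, 2760615,
    2147145, 1002001, 273273, 41405, 3185, 105, 1], [], [0, 0, 105, 6825, 143325, 1366365,
    6831825, 19324305, 32207175, 32207175, 19324305, 6831825, 1366365, 143325, 6825, 105], [], [0,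
    0, 0, 4095, 184275, 2837835, 20495475, 79053975, 173918745, 225450225, 173918745, 79053975,
    20495475, 2837835, 184275, 4095], [], [0, 0, 0, 0, 86905, 2873325, 33598565, 187712525,
    565089525, 971225255, 976950975, 575630055, 194219025, 35560525, 3168165, 106925, 455]])

noncomputable def r138 : Row :=
  ([false, false, false, false, false, false, false, false, false, false, false, false, false,
    false, true], [true, false, false, false, false, false, false, false, false, false, false,
    false, false, false, false], 8, [[], [0, 0, 14, 819, 15379, 130130, 572572, 1410981, 2024451,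
    1717716, 858858, 247247, 39039, 3094, 104, 1], [], [0, 0, 0, 910, 36855, 507507, 3253250,
    11042460, 21164715, 23618595, 15459444, 5855850, 1236235, 135135, 6630, 104], [], [0, 0, 0, 0,
    24570, 729729, 7612605, 37644750, 99382140, 148153005, 127540413, 63243180, 17567550, 2567565,
    173745, 3978], [], [0, 0, 0, 0, 364, 394121, 8756748, 70312957, 270685272, 557419291,
    644143500, 423221799, 155687532, 30527497, 2869724, 100893, 442]])

noncomputable def r139 : Row :=
  ([false, false, false, false, false, false, false, false, false, false, false, false, false,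
    true, true], [true, true, false, false, false, false, false, false, false, false, false,
    false, false, false, false], 7, [[0, 0, 1, 78, 1716, 15730, 70785, 169884, 226512, 169884,
    70785, 15730, 1716, 78, 1], [], [0, 0, 0, 169, 7085, 97812, 610324, 1958385, 3440151, 3397680,
    1887600, 575289, 90805, 6644, 180, 1], [], [0, 0, 0, 0, 6383, 185471, 1854138, 8598018,
    20787195, 27620307, 20518212, 8430708, 1839123, 195635, 8558, 102], [], [0, 0, 0, 0, 78,
    120549, 2560987, 19258668, 68038542, 125681127, 126804249, 70342272, 20910318, 3116157,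
    202323, 4060]])

noncomputable def r140 : Row :=
  ([false, false, false, false, false, false, false, false, false, false, false, false, true,
    true, true], [true, true, true, false, false, false, false, false, false, false, false, false,
    false, false, false], 6, [[], [0, 0, 0, 24, 1012, 13310, 76230, 217800, 331056, 274428,
    123420, 29040, 3300, 154, 2], [], [0, 0, 0, 0, 1508, 41899, 388531, 1628055, 3468465, 3954522,
    2444442, 803946, 132990, 9845, 253, 1], [], [0, 0, 0, 0, 12, 35398, 705496, 4846776, 15280485,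
    24586353, 21023508, 9557196, 2225586, 242880, 10252, 100]])

noncomputable def r141 : Row :=
  ([false, false, false, false, false, false, false, false, false, false, false, true, true, true,
    true], [true, true, true, true, false, false, false, false, false, false, false, false, false,
    false, false], 5, [[0, 0, 0, 2, 110, 1650, 9900, 27720, 38808, 27720, 9900, 1650, 110, 2], [],
    [0, 0, 0, 0, 308, 8745, 79365, 312840, 601920, 591822, 297990, 73920, 8220, 335, 3], [], [0,
    0, 0, 0, 1, 9801, 188353, 1207965, 3442725, 4830144, 3447444, 1235928, 209595, 14725, 321,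
    1]])

noncomputable def r142 : Row :=
  ([false, false, false, false, false, false, false, false, false, false, true, true, true, true,
    true], [true, true, true, true, true, false, false, false, false, false, false, false, false,
    false, false], 4, [[], [0, 0, 0, 0, 50, 1425, 12150, 42840, 70560, 56700, 22050, 3900, 270,
    5], [], [0, 0, 0, 0, 0, 2530, 46002, 267894, 667656, 787248, 450450, 121506, 14052, 558, 4]])

noncomputable def r143 : Row :=
  ([false, false, false, false, false, false, false, false, false, true, true, true, true, true,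
    true], [true, true, true, true, true, true, false, false, false, false, false, false, false,
    false, false], 3, [[0, 0, 0, 0, 5, 180, 1680, 5880, 8820, 5880, 1680, 180, 5], [], [0, 0, 0,
    0, 0, 585, 10530, 57456, 127008, 124740, 54810, 10080, 648, 9]])

noncomputable def r144 : Row :=
  ([false, false, false, false, false, false, false, false, true, true, true, true, true, true,
    true], [true, true, true, true, true, true, true, false, false, false, false, false, false,
    false, false], 2, [[], [0, 0, 0, 0, 0, 112, 1960, 9604, 17836, 13720, 4312, 490, 14]])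

noncomputable def r145 : Row :=
  ([false, false, false, false, false, false, false, true, true, true, true, true, true, true,
    true], [true, true, true, true, true, true, true, true, false, false, false, false, false,
    false, false], 1, [[0, 0, 0, 0, 0, 14, 294, 1470, 2450, 1470, 294, 14]])

noncomputable def r146 : Row :=
  ([false, false, false, false, false, false, false, false, false, false, false, false, false,
    false, false, false], [false, false, false, false, false, false, false, false, false, false,
    false, false, false, false, false, false], 5, [[0, 1, 120, 4200, 63700, 496860, 2186184,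
    5725720, 9202050, 9202050, 5725720, 2186184, 496860, 63700, 4200, 120, 1], [], [0, 0, 120,
    8960, 218400, 2446080, 14574560, 49969920, 103062960, 130873600, 103062960, 49969920,
    14574560, 2446080, 218400, 8960, 120], [], [0, 0, 0, 5320, 276640, 4979520, 42602560,
    197797600, 534053520, 870309440, 870309440, 534053520, 197797600, 42602560, 4979520, 276640,
    5320]])

noncomputable def r147 : Row :=
  ([false, false, false, false, false, false, false, false, false, false, false, false, false,
    false, false, true], [true, false, false, false, false, false, false, false, false, false,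
    false, false, false, false, false, false], 6, [[], [0, 0, 15, 1015, 22295, 223587, 1184183,
    3578575, 6441435, 7054905, 4723719, 1912911, 455455, 60515, 4095, 119, 1], [], [0, 0, 0, 1120,
    52780, 856128, 6558552, 27067040, 64414350, 91611520, 79014936, 41225184, 12752740, 2242240,
    207480, 8736, 119], [], [0, 0, 0, 0, 34580, 1203384, 14910896, 89008920, 289278990, 543943400,
    609216608, 409441032, 163183020, 37277240, 4564560, 262808, 5187]])

noncomputable def r148 : Row :=
  ([false, false, false, false, false, false, false, false, false, false, false, false, false,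
    false, true, true], [true, true, false, false, false, false, false, false, false, false,
    false, false, false, false, false, false], 5, [[0, 0, 1, 91, 2366, 26026, 143143, 429429,
    736164, 736164, 429429, 143143, 26026, 2366, 91, 1], [], [0, 0, 0, 196, 9646, 158522, 1197196,
    4744168, 10551684, 13619034, 10306296, 4528524, 1119118, 146146, 8996, 208, 1], [], [0, 0, 0,
    0, 8554, 293839, 3526523, 19999122, 60488142, 103451491, 102633531, 59183124, 19441422,
    3470467, 307879, 11414, 117]])

noncomputable def r149 : Row :=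
  ([false, false, false, false, false, false, false, false, false, false, false, false, false,
    true, true, true], [true, true, true, false, false, false, false, false, false, false, false,
    false, false, false, false, false], 4, [[], [0, 0, 0, 26, 1300, 20592, 144716, 519090,
    1019304, 1132560, 717288, 254826, 48620, 4576, 180, 2], [], [0, 0, 0, 0, 1911, 63427, 714714,
    3715426, 10075065, 15105519, 12816804, 6138132, 1612611, 218295, 13486, 294, 1]])

noncomputable def r150 : Row :=
  ([false, false, false, false, false, false, false, false, false, false, false, false, true,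
    true, true, true], [true, true, true, true, false, false, false, false, false, false, false,
    false, false, false, false, false], 3, [[0, 0, 0, 2, 132, 2420, 18150, 65340, 121968, 121968,
    65340, 18150, 2420, 132, 2], [], [0, 0, 0, 0, 366, 12573, 140844, 702405, 1764180, 2358774,
    1707552, 659934, 129690, 11715, 396, 3]])

noncomputable def r151 : Row :=
  ([false, false, false, false, false, false, false, false, false, false, false, true, true, true,
    true, true], [true, true, true, true, true, false, false, false, false, false, false, false,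
    false, false, false, false], 2, [[], [0, 0, 0, 0, 55, 1925, 20625, 94050, 207900, 235620,
    138600, 41250, 5775, 325, 5]])

noncomputable def r152 : Row :=
  ([false, false, false, false, false, false, false, false, false, false, true, true, true, true,
    true, true], [true, true, true, true, true, true, false, false, false, false, false, false,
    false, false, false, false], 1, [[0, 0, 0, 0, 5, 225, 2700, 12600, 26460, 26460, 12600, 2700,
    225, 5]])

noncomputable def r153 : Row :=
  ([false, false, false, false, false, false, false, false, false, false, false, false, false,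
    false, false, false, false], [false, false, false, false, false, false, false, false, false,
    false, false, false, false, false, false, false, false], 3, [[0, 1, 136, 5440, 95200, 866320,
    4504864, 14158144, 27810640, 34763300, 27810640, 14158144, 4504864, 866320, 95200, 5440, 136,
    1], [], [0, 0, 136, 11560, 323680, 4207840, 29454880, 120344224, 300860560, 472780880,
    472780880, 300860560, 120344224, 29454880, 4207840, 323680, 11560, 136]])

noncomputable def r154 : Row :=
  ([false, false, false, false, false, false, false, false, false, false, false, false, false,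
    false, false, false, true], [true, false, false, false, false, false, false, false, false,
    false, false, false, false, false, false, false, false], 4, [[], [0, 0, 16, 1240, 31500,
    369460, 2318680, 8432424, 18608590, 25561250, 22084920, 11971960, 4008004, 802620, 91000,
    5320, 135, 1], [], [0, 0, 0, 1360, 73780, 1392300, 12561640, 61941880, 179189010, 316346030,
    347633000, 238918680, 101761660, 26206180, 3898440, 309400, 11305, 135]])

noncomputable def r155 : Row :=
  ([false, false, false, false, false, false, false, false, false, false, false, false, false,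
    false, false, true, true], [true, true, false, false, false, false, false, false, false,
    false, false, false, false, false, false, false, false], 3, [[0, 0, 1, 105, 3185, 41405,
    273273, 1002001, 2147145, 2760615, 2147145, 1002001, 273273, 41405, 3185, 105, 1], [], [0, 0,
    0, 225, 12845, 247793, 2227589, 10683673, 29344315, 47952905, 47421231, 28381353, 10111101,
    2067065, 227045, 11921, 238, 1]])

noncomputable def r156 : Row :=
  ([false, false, false, false, false, false, false, false, false, false, false, false, false,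
    false, true, true, true], [true, true, true, false, false, false, false, false, false, false,
    false, false, false, false, false, false, false], 2, [[], [0, 0, 0, 28, 1638, 30758, 260260,
    1145144, 2821962, 4048902, 3435432, 1717716, 494494, 78078, 6188, 208, 2]])

noncomputable def r157 : Row :=
  ([false, false, false, false, false, false, false, false, false, false, false, false, false,
    true, true, true, true], [true, true, true, true, false, false, false, false, false, false,
    false, false, false, false, false, false, false], 1, [[0, 0, 0, 2, 156, 3432, 31460, 141570,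
    339768, 453024, 339768, 141570, 31460, 3432, 156, 2]])

noncomputable def r158 : Row :=
  ([false, false, false, false, false, false, false, false, false, false, false, false, false,
    false, false, false, false, false], [false, false, false, false, false, false, false, false,
    false, false, false, false, false, false, false, false, false, false], 1, [[0, 1, 153, 6936,
    138720, 1456560, 8836464, 32821152, 77364144, 118195220, 118195220, 77364144, 32821152,
    8836464, 1456560, 138720, 6936, 153, 1]])

noncomputable def r159 : Row :=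
  ([false, false, false, false, false, false, false, false, false, false, false, false, false,
    false, false, false, false, true], [true, false, false, false, false, false, false, false,
    false, false, false, false, false, false, false, false, false, false], 2, [[], [0, 0, 17,
    1496, 43520, 590240, 4331600, 18663008, 49553504, 83431920, 90384580, 63206000, 28316288,
    7970144, 1361360, 133280, 6800, 152, 1]])

noncomputable def r160 : Row :=
  ([false, false, false, false, false, false, false, false, false, false, false, false, false,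
    false, false, false, true, true], [true, true, false, false, false, false, false, false,
    false, false, false, false, false, false, false, false, false, false], 1, [[0, 0, 1, 120,
    4200, 63700, 496860, 2186184, 5725720, 9202050, 9202050, 5725720, 2186184, 496860, 63700,
    4200, 120, 1]])

noncomputable def t0 : Tr :=
  .node 16 (.node 7 (.node 3 (.node 2 (.leaf r0) (.leaf r1)) (.node 4 (.leaf r2) (.node 5 (.leaf
    r3) (.leaf r4)))) (.node 9 (.node 8 (.leaf r5) (.leaf r6)) (.node 11 (.leaf r7) (.node 15
    (.leaf r8) (.leaf r9))))) (.node 31 (.node 19 (.node 17 (.leaf r10) (.leaf r11)) (.node 21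
    (.leaf r12) (.node 23 (.leaf r13) (.leaf r14)))) (.node 33 (.node 32 (.leaf r15) (.leaf r16))
    (.node 35 (.leaf r17) (.node 37 (.leaf r18) (.leaf r19)))))

noncomputable def t1 : Tr :=
  .node 77 (.node 65 (.node 47 (.node 43 (.leaf r20) (.leaf r21)) (.node 63 (.leaf r22) (.node 64
    (.leaf r23) (.leaf r24)))) (.node 69 (.node 67 (.leaf r25) (.leaf r26)) (.node 71 (.leaf r27)
    (.node 75 (.leaf r28) (.leaf r29))))) (.node 127 (.node 87 (.node 79 (.leaf r30) (.leaf r31))
    (.node 91 (.leaf r32) (.node 95 (.leaf r33) (.leaf r34)))) (.node 129 (.node 128 (.leaf r35)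
    (.leaf r36)) (.node 131 (.leaf r37) (.node 133 (.leaf r38) (.leaf r39)))))

noncomputable def t2 : Tr :=
  .node 255 (.node 155 (.node 141 (.node 139 (.leaf r40) (.leaf r41)) (.node 143 (.leaf r42)
    (.node 151 (.leaf r43) (.leaf r44)))) (.node 175 (.node 159 (.leaf r45) (.leaf r46)) (.node
    183 (.leaf r47) (.node 191 (.leaf r48) (.leaf r49))))) (.node 263 (.node 257 (.node 256 (.leaf
    r50) (.leaf r51)) (.node 259 (.leaf r52) (.node 261 (.leaf r53) (.leaf r54)))) (.node 269
    (.node 267 (.leaf r55) (.leaf r56)) (.node 271 (.leaf r57) (.node 279 (.leaf r58) (.leaf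
    r59)))))

noncomputable def t3 : Tr :=
  .node 527 (.node 512 (.node 319 (.node 287 (.leaf r60) (.leaf r61)) (.node 383 (.leaf r62)
    (.node 511 (.leaf r63) (.leaf r64)))) (.node 515 (.node 513 (.leaf r65) (.leaf r66)) (.node
    517 (.leaf r67) (.node 519 (.leaf r68) (.leaf r69))))) (.node 1023 (.node 575 (.node 543
    (.leaf r70) (.leaf r71)) (.node 639 (.leaf r72) (.node 767 (.leaf r73) (.leaf r74)))) (.node
    1025 (.node 1024 (.leaf r75) (.leaf r76)) (.node 1027 (.leaf r77) (.node 1031 (.leaf r78)
    (.leaf r79)))))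

noncomputable def t4 : Tr :=
  .node 2055 (.node 1535 (.node 1087 (.node 1055 (.leaf r80) (.leaf r81)) (.node 1151 (.leaf r82)
    (.node 1279 (.leaf r83) (.leaf r84)))) (.node 2048 (.node 2047 (.leaf r85) (.leaf r86)) (.node
    2049 (.leaf r87) (.node 2051 (.leaf r88) (.leaf r89))))) (.node 2303 (.node 2079 (.node 2063
    (.leaf r90) (.leaf r91)) (.node 2111 (.leaf r92) (.node 2175 (.leaf r93) (.leaf r94)))) (.node
    3071 (.node 2559 (.leaf r95) (.leaf r96)) (.node 4095 (.leaf r97) (.node 4096 (.leaf r98)
    (.leaf r99)))))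

noncomputable def t5 : Tr :=
  .node 6143 (.node 4159 (.node 4103 (.node 4099 (.leaf r100) (.leaf r101)) (.node 4111 (.leaf
    r102) (.node 4127 (.leaf r103) (.leaf r104)))) (.node 4351 (.node 4223 (.leaf r105) (.leaf
    r106)) (.node 4607 (.leaf r107) (.node 5119 (.leaf r108) (.leaf r109))))) (.node 8199 (.node
    8192 (.node 8191 (.leaf r110) (.leaf r111)) (.node 8193 (.leaf r112) (.node 8195 (.leaf r113)
    (.leaf r114)))) (.node 8223 (.node 8207 (.leaf r115) (.leaf r116)) (.node 8255 (.leaf r117)
    (.node 8319 (.leaf r118) (.leaf r119)))))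

noncomputable def t6 : Tr :=
  .node 16399 (.node 16383 (.node 9215 (.node 8703 (.leaf r120) (.leaf r121)) (.node 10239 (.leaf
    r122) (.node 12287 (.leaf r123) (.leaf r124)))) (.node 16385 (.node 16384 (.leaf r125) (.leaf
    r126)) (.node 16387 (.leaf r127) (.node 16391 (.leaf r128) (.leaf r129))))) (.node 16895
    (.node 16447 (.node 16415 (.leaf r130) (.leaf r131)) (.node 16511 (.leaf r132) (.node 16639
    (.leaf r133) (.leaf r134)))) (.node 32768 (.node 17407 (.leaf r135) (.leaf r136)) (.node 32769
    (.leaf r137) (.node 32771 (.leaf r138) (.leaf r139)))))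

noncomputable def t7 : Tr :=
  .node 65551 (.node 33023 (.node 32799 (.node 32783 (.leaf r140) (.leaf r141)) (.node 32831
    (.leaf r142) (.node 32895 (.leaf r143) (.leaf r144)))) (.node 65537 (.node 65536 (.leaf r145)
    (.leaf r146)) (.node 65539 (.leaf r147) (.node 65543 (.leaf r148) (.leaf r149))))) (.node
    131075 (.node 65599 (.node 65567 (.leaf r150) (.leaf r151)) (.node 131072 (.leaf r152) (.node
    131073 (.leaf r153) (.leaf r154)))) (.node 262144 (.node 131079 (.leaf r155) (.node 131087
    (.leaf r156) (.leaf r157))) (.node 262145 (.leaf r158) (.node 262147 (.leaf r159) (.leaf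
    r160)))))

noncomputable def tb : Tr :=
  .node 1039 (.node 135 (.node 39 t0 t1) (.node 283 t2 t3)) (.node 8447 (.node 4097 t4 t5) (.node
    32775 t6 t7))

noncomputable def g0 : SS :=
  [[], [-1], [], [0, 1], [], [0, -1], [], [], [], [], [], [], [], [], [], [], [], [], [], [0, 0,
    0, 0, 1], [], [], [], [], [], [0, 0, 0, 0, 0, 0, 3], [], [0, 0, 0, 0, 0, 0, 3, 2], [], [0, 0,
    0, 0, 0, 0, 0, 10]]

noncomputable def g1 : SS :=
  [[], [], [0, -1], [], [0, 1, 1], [], [0, 0, -1, -1], [], [0, 0, 0, 0, 1], [], [0, 0, 0, 0, 0,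
    -1], [], [0, 0, 0, 0, 0, 0, 1], [], [0, 0, 0, 0, 0, 0, 0, -1], [], [0, 0, 0, 0, 0, 0, 0, 0,
    1], [], [0, 0, 0, 0, -1, -1, -1, 0, 0, -1], [], [0, 0, 0, 0, 0, 0, 0, 0, 0, 0, 1], [], [0, 0,
    0, 0, 0, 0, -1, -1, 0, 0, 0, -1], [], [0, 0, 0, 0, 0, 0, -4, -4, -3, 0, 0, 0, 1], [], [0, 0,
    0, 0, 0, 0, -3, -7, -6, 0, 0, 0, 0, -1], [], [0, 0, 0, 0, 0, 0, 0, -15, -18, -18, 0, 0, 0, 0,
    1], [], [0, 0, 0, 0, 0, 0, 0, 0, -35, -31, -12, 0, 0, 0, 0, -1]]

noncomputable def g2 : SS :=
  [[], [], [-1], [], [], [], [0, -1], [], [], [], [], [], [], [], [], [], [], [], [], [], [0, 0,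
    0, 0, 2], [], [], [], [], [], [0, 0, 0, 0, 0, 0, 3], [], [0, 0, 0, 0, 0, 0, 6], [], [0, 0, 0,
    0, 0, 0, 0, 12]]

noncomputable def g3 : SS :=
  [[], [1], [], [], [], [0, 1], [], [], [], [], [], [], [], [], [], [], [], [], [], [0, 0, 0, 0,
    -2, -1], [], [], [], [], [], [0, 0, 0, 0, 0, 0, -5, -2], [], [0, 0, 0, 0, 0, 0, -6, -5], [],
    [0, 0, 0, 0, 0, 0, 0, -20, -10]]

noncomputable def g4 : SS :=
  [[], [], [], [], [0, -1], [], [0, 0, 1], [], [0, 0, 0, -1], [], [0, 0, 0, 0, 1], [], [0, 0, 0,
    0, 0, -1], [], [0, 0, 0, 0, 0, 0, 1], [], [0, 0, 0, 0, 0, 0, 0, -1], [], [0, 0, 0, 0, 2, 2, 0,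
    0, 1], [], [0, 0, 0, 0, 0, 0, 0, 0, 0, -1], [], [0, 0, 0, 0, 0, 0, 1, 0, 0, 0, 1], [], [0, 0,
    0, 0, 0, 0, 7, 6, 0, 0, 0, -1], [], [0, 0, 0, 0, 0, 0, 6, 10, 0, 0, 0, 0, 1], [], [0, 0, 0, 0,
    0, 0, 0, 30, 33, 0, 0, 0, 0, -1], [], [0, 0, 0, 0, 0, 0, 0, 0, 48, 24, 0, 0, 0, 0, 1]]

noncomputable def g5 : SS :=
  [[], [], [], [-1], [], [], [], [], [], [], [], [], [], [], [], [], [], [], [], [], [], [0, 0, 0,
    0, 1], [], [], [], [], [], [], [], [0, 0, 0, 0, 0, 0, 3]]

noncomputable def g6 : SS :=
  [[], [], [], [], [], [], [], [], [], [], [], [], [], [], [], [], [], [], [], [], [0, 0, 0, 0,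
    -1], [], [], [], [], [], [0, 0, 0, 0, 0, 0, -1], [], [0, 0, 0, 0, 0, 0, -3], [], [0, 0, 0, 0,
    0, 0, 0, -6]]

noncomputable def g7 : SS :=
  [[], [], [], [], [], [], [], [], [], [], [], [], [], [], [], [], [], [], [], [0, 0, 0, 0, 1],
    [], [], [], [], [], [0, 0, 0, 0, 0, 0, 2], [], [0, 0, 0, 0, 0, 0, 3], [], [0, 0, 0, 0, 0, 0,
    0, 10]]

noncomputable def g8 : SS :=
  [[], [], [], [], [], [], [], [], [], [], [], [], [], [], [], [], [], [], [0, 0, 0, 0, -1], [],
    [], [], [], [], [0, 0, 0, 0, 0, 0, -3], [], [0, 0, 0, 0, 0, 0, -3], [], [0, 0, 0, 0, 0, 0, 0,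
    -15], [], [0, 0, 0, 0, 0, 0, 0, 0, -12]]

noncomputable def gg (i : Fin 9) : SS := [g0, g1, g2, g3, g4, g5, g6, g7, g8].getD i.1 []

noncomputable def vl (i : Fin 9) : ℕ := [1, 2, 2, 1, 4, 3, 20, 19, 18].getD i.1 0

end Pool.Agent.P.MP_48bde8_co.TA
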