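import Pool.Agent.P.MP_48bde8_co.Shape
import Pool.Agent.P.MP_48bde8_co.RegB

/-! Task TIGHT: local structure of tight regions. -/

namespace Pool.Agent.P.MP_48bde8_co

open Equiv Finset
open scoped Classical

variable {P : Type} [Fintype P]

namespace Amb

variable {A : Amb P} {ψ : Perm P} {R S : Rg P}

namespace TightAux

theorem cin_sdiff (f : Perm P) {I J : Finset P} (h : ∀ q ∈ J, ¬ orb f q ⊆ I) :
    cin f (I \ J) = cin f I := by
  unfold cin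
  congr 1
  refine filter_congr fun c hc => ⟨fun h1 => h1.trans sdiff_subset, fun h1 q hq => ?_⟩
  obtain ⟨p, -, rfl⟩ := mem_image.1 hc
  refine mem_sdiff.2 ⟨h1 hq, fun hJ => h q hJ ?_⟩
  rwa [← orb_eq_iff.2 (mem_orb.1 hq)]

theorem cin_sdiff_one (f : Perm P) {I J : Finset P} {a : P} (ha : a ∈ J) (h1 : orb f a ⊆ I)
    (h : ∀ q ∈ J, f.SameCycle q a ∨ ¬ orb f q ⊆ I) : cin f (I \ J) + 1 = cin f I := by
  have e : I \ J = I.erase a \ J := by
    ext q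
    simp only [mem_sdiff, mem_erase]
    exact ⟨fun h => ⟨⟨fun e => h.2 (e ▸ ha), h.1⟩, h.2⟩, fun h => ⟨h.1.2, h.2⟩⟩
  rw [cin_erase f (I := I) a, if_pos h1, e, cin_sdiff]
  intro q hq h2
  rcases h q hq with h3 | h3
  · exact notMem_erase a I (h2 (mem_orb.2 h3))
  · exact h3 (h2.trans (erase_subset _ _))

theorem orb_pair {f : Perm P} {I : Finset P} {a : P} (h : f (f a) = a) (h1 : a ∈ I)
    (h2 : f a ∈ I) : orb f a ⊆ I := by
  refine (orb_subset_of_closed (I := {a, f a}) (by simp) fun q hq => ?_).trans ?_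
  · rcases mem_insert.1 hq with rfl | hq
    · simp
    · rw [mem_singleton.1 hq, h]
      simp
  · exact insert_subset h1 (singleton_subset_iff.2 h2)

theorem cin_pair {f : Perm P} {I : Finset P} {a : P} (h : f (f a) = a) (h1 : a ∈ I)
    (h2 : f a ∈ I) : cin f (I \ {a, f a}) + 1 = cin f I := by
  refine cin_sdiff_one f (a := a) (by simp) (orb_pair h h1 h2) fun q hq => .inl ?_
  rcases mem_insert.1 hq with rfl | hq
  · exact .refl _ _
  · rw [mem_singleton.1 hq]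
    exact Perm.sameCycle_apply_left.2 (.refl _ _)

theorem out_fw {f : Perm P} {I : Finset P} {q r : P} (e : f q = r) (h : ¬ orb f r ⊆ I) :
    ¬ orb f q ⊆ I := by rwa [← e, orb_apply] at h

theorem out_bw {f : Perm P} {I : Finset P} {q r : P} (e : f q = r) (h : ¬ orb f q ⊆ I) :
    ¬ orb f r ⊆ I := by rwa [← e, orb_apply]

theorem out_self (f : Perm P) {I : Finset P} {q : P} (h : q ∉ I) : ¬ orb f q ⊆ I :=
  fun h1 => h (h1 (self_mem_orb f q))

theorem ty_orb (hψ : A.WV ψ) {p q : P} (h : q ∈ orb ψ p) : A.ty q = A.ty p := by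
  have := orb_subset_of_closed (f := ψ) (p := p) (I := univ.filter fun r => A.ty r = A.ty p)
    (by simp) (fun r hr => by simpa [(hψ r).1] using hr) h
  simpa using this

omit [Fintype P] in
theorem ty_inv (hψ : A.WV ψ) (p : P) : A.ty (ψ⁻¹ p) = A.ty p := by
  rw [← (hψ (ψ⁻¹ p)).1]
  simp

omit [Fintype P] in
theorem phi_inv (p : P) : (A.π * ψ) (ψ⁻¹ p) = A.π p := by simp

/-- Removing the ports `W` and the steps `J`. -/
theorem core (hψ : A.WV ψ) (hR : A.Div ψ R) {W J : Finset P} (hW : W ⊆ R.1) (hne : W.Nonempty)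
    (hπ : ∀ p, A.π p ∈ W → p ∈ W) (hJ : J ⊆ R.2)
    (h1 : ∀ p ∈ R.2, p ∉ J → p ∉ W ∧ ψ p ∉ W ∧ (A.ty p = true → ψ p ∉ J))
    (h2 : ∀ q ∈ J, A.ty q = false → ¬ orb ψ q ⊆ R.2) (h3 : ∀ q ∈ J, ¬ orb (A.π * ψ) q ⊆ R.2) :
    A.Reg ψ (R.1 \ W, R.2 \ J) ∧ (R.1 \ W, R.2 \ J) ≤ R ∧ A.Feat ψ (R.1 \ W, R.2 \ J) ∧
      (R.1 \ W, R.2 \ J) ≠ R ∧
      (∀ r ∈ R.1 \ W, ∃ q ∈ J, (q ∉ W ∧ A.RL ψ (R.1 \ W, R.2 \ J) r q) ∨
        (ψ q ∉ W ∧ A.RL ψ (R.1 \ W, R.2 \ J) r (ψ q))) ∧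
      bd (R.1 \ W, R.2 \ J) + W.card = bd R + J.card ∧
      A.eps ψ (R.1 \ W, R.2 \ J) + cin A.π R.1 + cin ψ R.2 =
        1 + cin A.π (R.1 \ W) + cin ψ (R.2 \ J) + J.card := by
  obtain ⟨⟨⟨hp, hd, ha⟩, hc, he, hb⟩, -, hf⟩ := hR
  have hpre : A.Pre ψ (R.1 \ W, R.2 \ J) := by
    refine ⟨fun p h => ?_, fun p h => ?_, fun p h => ?_⟩ <;> obtain ⟨h4, h5⟩ := mem_sdiff.1 h
    · exact mem_sdiff.2 ⟨hp.1 p h4, fun h6 => h5 (hπ p h6)⟩
    · exact mem_sdiff.2 ⟨hp.2.1 h4, (h1 p h4 h5).1⟩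
    · exact mem_sdiff.2 ⟨hp.2.2 p h4, (h1 p h4 h5).2.1⟩
  have hle : (R.1 \ W, R.2 \ J) ≤ R := ⟨sdiff_subset, sdiff_subset⟩
  have hne' : R.1 \ W ≠ R.1 := fun e => by
    obtain ⟨w, hw⟩ := hne
    exact (mem_sdiff.1 (e.symm ▸ hW hw : w ∈ R.1 \ W)).2 hw
  refine ⟨⟨hpre, sdiff_subset.trans hd, fun p h t => ?_⟩, hle, ?_,
    fun e => hne' (congrArg Prod.fst e), fun r hr => ?_, ?_, ?_⟩
  · obtain ⟨h4, h5⟩ := mem_sdiff.1 h
    exact ⟨mem_sdiff.2 ⟨(ha p h4 t).1, (h1 p h4 h5).2.2 t⟩, (ha p h4 t).2⟩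
  · obtain ⟨p, ⟨t, h⟩ | ⟨h, t⟩⟩ := hf
    · refine ⟨p, .inl ⟨t, fun q hq => mem_sdiff.2 ⟨h hq, fun hJ' => ?_⟩⟩⟩
      exact h2 q hJ' ((ty_orb hψ hq).trans t) (by rwa [← orb_eq_iff.2 (mem_orb.1 hq)])
    · refine ⟨p, .inr ⟨fun q hq => mem_sdiff.2 ⟨h hq, fun hJ' => ?_⟩, t⟩⟩
      exact h3 q hJ' (by rwa [← orb_eq_iff.2 (mem_orb.1 hq)])
  · obtain ⟨q, hq, hq', h⟩ := comp_touch hp hc hpre hle hne' hr
    refine ⟨q, by_contra fun h4 => hq' (mem_sdiff.2 ⟨hq, h4⟩), h.imp (fun h => ⟨?_, h⟩)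
      fun h => ⟨?_, h⟩⟩ <;> exact (mem_sdiff.1 ((RL.mem hpre h).1 hr)).2
  · have e1 := bd_add_card hpre.2.1
    have e2 := bd_add_card hp.2.1
    have e3 := card_sdiff_add_card_eq_card hW
    have e4 := card_sdiff_add_card_eq_card hJ
    simp only at e1
    omega
  · have e4 : ((R.2 \ J).card : ℤ) + J.card = R.2.card := by
      exact_mod_cast card_sdiff_add_card_eq_card hJ
    unfold eps at he ⊢
    simp only [cin_sdiff _ h3]
    linarith

theorem div_of_one (hR : A.Div ψ R) (hS : A.Reg ψ S) (hle : S ≤ R) (hf : A.Feat ψ S)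
    (h1 : A.eps ψ S = 1) (hb : bd S ≤ bd R) {p : P} (hp : ∀ r ∈ S.1, A.RL ψ S r p) :
    A.Div ψ S := by
  have hne : S.1.Nonempty := by
    obtain ⟨r, h | h⟩ := hf
    · exact ⟨r, hS.1.2.1 (h.2 (self_mem_orb _ r))⟩
    · exact ⟨r, hS.1.2.1 (h.1 (self_mem_orb _ r))⟩
  exact ⟨⟨hS, ⟨hne, fun r hr r' hr' => .trans _ _ _ (hp r hr) (.symm _ _ (hp r' hr'))⟩, h1,
    bd_pos_of_le hR.1.1.1 hR.1.2.1 hR.1.2.2.2 hS.1 hle hne⟩, hb.trans hR.2.1, hf⟩

theorem comp_div (hR : A.Div ψ R) (hS : A.Reg ψ S) (hle : S ≤ R) (hb : bd S ≤ bd R) {p q : P}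
    (hp : p ∈ S.1) (hq : q ∈ S.1) (h : ¬ A.RL ψ S p q) (he : A.eps ψ (A.comp ψ S p) = 1)
    (hf : A.Feat ψ (A.comp ψ S p)) : ∃ D, A.Div ψ D ∧ D ≤ S ∧ bd D < bd R := by
  have h1 := (eps_comp_le hR.1.1.1 hR.1.2.1 hR.1.2.2.2 hS.1 hle hp).1
  have h2 := (eps_comp_le hR.1.1.1 hR.1.2.1 hR.1.2.2.2 hS.1 hle hq).1
  have h3 := bd_comp_add_le hS.1 h
  have h4 := hR.2.1
  exact ⟨_, ⟨⟨hS.comp p, comp_conn hS.1 hp, he, h1⟩, by omega, hf⟩, comp_le S p, by omega⟩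

theorem covers {a b c d a' b' c' d' : Prop} (r1 : a ∨ b) (r2 : c ∨ d) (r3 : b ∨ d) (r4 : a ∨ c)
    (s1 : a' ∨ b') (s2 : c' ∨ d') (s3 : b' ∨ d') (s4 : a' ∨ c') (k1 : ¬ (a ∧ a'))
    (k2 : ¬ (b ∧ b')) (k3 : ¬ (c ∧ c')) (k4 : ¬ (d ∧ d')) :
    (¬ b ∧ ¬ c ∧ ¬ a' ∧ ¬ d') ∨ (¬ d ∧ ¬ a ∧ ¬ c' ∧ ¬ b') := by
  by_cases ha : a
  · have ha' : ¬ a' := fun h => k1 ⟨ha, h⟩
    have hb : ¬ b := fun h => k2 ⟨h, s1.resolve_left ha'⟩
    exact .inl ⟨hb, fun h => k3 ⟨h, s4.resolve_left ha'⟩, ha',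
      fun h => k4 ⟨r3.resolve_left hb, h⟩⟩
  · have hb' : ¬ b' := fun h => k2 ⟨r1.resolve_left ha, h⟩
    exact .inr ⟨fun h => k4 ⟨h, s3.resolve_left hb'⟩, ha,
      fun h => k3 ⟨r4.resolve_left ha, h⟩, hb'⟩

end TightAux

open TightAux

/-- A subregion with a feature and Euler characteristic two splits off a smaller divergent
region, if all its points are linked to one of two points. -/
theorem div_of_two (hR : A.Div ψ R) (hS : A.Reg ψ S) (hle : S ≤ R) (hf : A.Feat ψ S)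
    (h2 : 2 ≤ A.eps ψ S) (hb : bd S ≤ bd R) {p q : P}
    (hpq : ∀ r ∈ S.1, A.RL ψ S r p ∨ A.RL ψ S r q) :
    ∃ D, A.Div ψ D ∧ D ≤ S ∧ bd D < bd R := by
  obtain ⟨p₁, hp, q₁, hq, hn, e1, e2⟩ := exists_two_comps hS.1
    (fun r hr => (eps_comp_le hR.1.1.1 hR.1.2.1 hR.1.2.2.2 hS.1 hle hr).2) h2
  obtain ⟨r, hr, hfr⟩ := Feat.comp hS.1 hf
  have tr : ∀ {x y z : P}, A.RL ψ S x z → A.RL ψ S y z → A.RL ψ S x y := fun h h' =>
    .trans _ _ _ h (.symm _ _ h')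
  have : A.RL ψ S r p₁ ∨ A.RL ψ S r q₁ := by
    rcases hpq r hr with a | a <;> rcases hpq p₁ hp with b | b <;> rcases hpq q₁ hq with c | c
    exacts [.inl (tr a b), .inl (tr a b), .inr (tr a c), absurd (tr b c) hn, absurd (tr b c) hn,
      .inr (tr a c), .inl (tr a b), .inl (tr a b)]
  rcases this with h | h <;> rw [comp_eq_of_rl h] at hfr
  · exact comp_div hR hS hle hb hp hq hn e1 hfr
  · exact comp_div hR hS hle hb hq hp (fun h => hn (.symm _ _ h)) e2 hfr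

/-- t0 and t5: at a cut of type A the whole vertex is internal. -/
theorem Tight.acut (hA : A.OK) (hψ : A.WV ψ) (hR : A.Tight ψ R) {a : P} (ha : a ∈ R.1)
    (hty : A.ty a = true) (hI : a ∉ R.2) : orb ψ (A.π a) ⊆ R.2 := by
  by_contra ho
  obtain ⟨hD, t1, -⟩ := hR
  have hreg := hD.1.1
  obtain ⟨-, pp, tb⟩ := hA.2.2 a (hreg.2.1 ha)
  rw [hty, Bool.not_true] at tb
  have hI' : ψ⁻¹ a ∉ R.2 := fun h => hI (by simpa using (hreg.2.2 _ h ((ty_inv hψ a).trans hty)).1)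
  have hb : A.π a ∈ R.1 := hreg.1.1 a ha
  have hab : a ≠ A.π a := fun e => by
    rw [← e, hty] at tb
    cases tb
  have c1 := cin_pair pp ha hb
  generalize hb' : A.π a = b at *
  set J := ({b, ψ⁻¹ b} : Finset P).filter (· ∈ R.2) with hJ
  have mJ : ∀ q, q ∈ J ↔ (q = b ∨ q = ψ⁻¹ b) ∧ q ∈ R.2 := fun q => by simp [hJ]
  have o1 : ∀ q ∈ J, ¬ orb ψ q ⊆ R.2 := fun q hq => by
    rcases ((mJ q).1 hq).1 with rfl | rfl
    · exact ho
    · exact out_fw (by simp) ho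
  obtain ⟨g1, g2, g3, -, g4, g5, g6⟩ := core hψ hD (W := {a, b}) (J := J)
    (insert_subset ha (singleton_subset_iff.2 hb)) (by simp)
    (fun p hp => by
      rcases mem_insert.1 hp with h | h
      · rw [A.π.injective (h.trans pp.symm)]
        simp
      · rw [A.π.injective ((mem_singleton.1 h).trans hb'.symm)]
        simp)
    (fun q hq => ((mJ q).1 hq).2)
    (fun p hp hp' => by
      rw [mJ] at hp'
      simp only [mem_insert, mem_singleton, not_or, mJ]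
      refine ⟨⟨fun e => hI (e ▸ hp), fun e => hp' ⟨.inl e, hp⟩⟩,
        ⟨fun e => hI' (by simpa [← e] using hp), fun e => hp' ⟨.inr (by simp [← e]), hp⟩⟩,
        fun t h => ?_⟩
      have := (hψ p).1.trans t
      rcases h.1 with e | e
      · rw [e, tb] at this
        cases this
      · rw [e, ty_inv hψ, tb] at this
        cases this)
    (fun q hq _ => o1 q hq)
    (fun q hq => by
      rcases ((mJ q).1 hq).1 with rfl | rfl
      · exact out_bw ((phi_inv a).trans hb') (out_self _ hI')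
      · exact out_fw ((phi_inv b).trans pp) (out_self _ hI))
  rw [cin_sdiff _ o1] at g6
  rw [card_pair hab] at g5
  have e1 : (cin A.π (R.1 \ {a, b}) : ℤ) + 1 = cin A.π R.1 := by exact_mod_cast c1
  have g7 : ∀ r ∈ R.1 \ {a, b}, (ψ⁻¹ b ∈ R.2 ∧ A.RL ψ (R.1 \ {a, b}, R.2 \ J) r (ψ⁻¹ b)) ∨
      (b ∈ R.2 ∧ A.RL ψ (R.1 \ {a, b}, R.2 \ J) r (ψ b)) := fun r hr => by
    obtain ⟨q, hq, h⟩ := g4 r hr
    obtain ⟨rfl | rfl, hq'⟩ := (mJ q).1 hq
    · exact .inr ⟨hq', (h.resolve_left fun h => h.1 (by simp)).2⟩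
    · exact .inl ⟨hq', (h.resolve_right fun h => h.1 (by simp)).2⟩
  have one : ∀ p q, J = {q} → (∀ r ∈ R.1 \ {a, b}, A.RL ψ (R.1 \ {a, b}, R.2 \ J) r p) → False :=
    fun p q e h => by
      have e2 : J.card = 1 := by rw [e, card_singleton]
      rw [e2] at g5 g6
      have := t1 _ (div_of_one hD g1 g2 g3 (by push_cast at g6; linarith) (by omega) h) g2
      omega
  by_cases h1 : b ∈ R.2 <;> by_cases h2 : ψ⁻¹ b ∈ R.2
  · have hne : b ≠ ψ⁻¹ b := fun e => by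
      have e' : ψ b = b := (congrArg ψ e).trans (ψ.apply_symm_apply b)
      exact ho (orb_pair (by rw [e', e']) h1 (by rwa [e']))
    have e2 : J.card = 2 := by
      rw [hJ, filter_true_of_mem fun q hq => ?_, card_pair hne]
      rcases mem_insert.1 hq with rfl | hq
      · exact h1
      · rwa [mem_singleton.1 hq]
    rw [e2] at g5 g6
    obtain ⟨D, d1, d2, d3⟩ := div_of_two hD g1 g2 g3 (by push_cast at g6; linarith) (by omega)
      fun r hr => (g7 r hr).imp And.right And.right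
    exact absurd (t1 D d1 (d2.trans g2)) (by omega)
  · refine one (ψ b) b ?_ fun r hr => ((g7 r hr).resolve_left fun h => h2 h.1).2
    ext q
    rw [mJ, mem_singleton]
    exact ⟨fun h => h.1.resolve_right fun e => h2 (e ▸ h.2), fun e => ⟨.inl e, e ▸ h1⟩⟩
  · refine one (ψ⁻¹ b) (ψ⁻¹ b) ?_ fun r hr => ((g7 r hr).resolve_right fun h => h1 h.1).2
    ext q
    rw [mJ, mem_singleton]
    exact ⟨fun h => h.1.resolve_left fun e => h1 (e ▸ h.2), fun e => ⟨.inr e, e ▸ h2⟩⟩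
  · obtain ⟨r, hr, -⟩ := Feat.comp g1.1 g3
    exact (g7 r hr).elim (fun h => h2 h.1) fun h => h1 h.1

/-- Removing both darts of an internal edge together with two more steps. -/
theorem TightAux.two_darts (hA : A.OK) (hψ : A.WV ψ) (hR : A.Tight ψ R) {b x y u v : P}
    (hb : b ∈ R.1) (hty : A.ty b = false) (he : A.π b ∈ R.2) (hx : x ∈ R.2) (hy : y ∈ R.2)
    (hxy : x ≠ y) (tx : A.ty x = false) (ty : A.ty y = false)
    (hcl : ∀ p ∈ R.2, p ≠ x → p ≠ y → p ≠ b ∧ p ≠ A.al ψ b ∧ ψ p ≠ b ∧ ψ p ≠ A.al ψ b)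
    (ox : ¬ orb ψ x ⊆ R.2) (oy : ¬ orb ψ y ⊆ R.2)
    (f1 : ¬ orb (A.π * ψ) (A.π b) ⊆ R.2) (f2 : ¬ orb (A.π * ψ) (A.π (A.al ψ b)) ⊆ R.2)
    (fx : ¬ orb (A.π * ψ) x ⊆ R.2) (fy : ¬ orb (A.π * ψ) y ⊆ R.2)
    (lx : (x = b ∧ ψ x = u) ∨ (ψ x = b ∧ x = u))
    (ly : (y = A.al ψ b ∧ ψ y = v) ∨ (ψ y = A.al ψ b ∧ y = v)) : False := by
  obtain ⟨hD, t1, -⟩ := hR
  have hreg := hD.1.1
  obtain ⟨hc, tc, ec, he', -, hcb, -⟩ := edge_facts hA hψ hreg hb hty he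
  generalize A.al ψ b = c at *
  obtain ⟨-, pb, ta⟩ := hA.2.2 b (hreg.2.1 hb)
  obtain ⟨-, pc, ta'⟩ := hA.2.2 c (hreg.2.1 hc)
  rw [hty, Bool.not_false] at ta
  rw [tc, Bool.not_false] at ta'
  have hb1 := hreg.1.1 b hb
  have hc1 := hreg.1.1 c hc
  have pa := (hψ _).2 ta
  have n0 : A.π b ≠ A.π c := fun e => hcb (A.π.injective e).symm
  have c1 := cin_pair pb hb hb1
  have c2 : cin A.π ((R.1 \ {b, A.π b}) \ {c, A.π c}) + 1 = cin A.π (R.1 \ {b, A.π b}) :=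
    cin_pair pc (by
      simp only [mem_sdiff, mem_insert, mem_singleton, not_or]
      exact ⟨hc, hcb, fun e => by simp [e, ta] at tc⟩) (by
      simp only [mem_sdiff, mem_insert, mem_singleton, not_or]
      exact ⟨hc1, fun e => by simp [e, hty] at ta', n0.symm⟩)
  have c3 : cin ψ (R.2 \ {A.π b, A.π c, x, y}) + 1 = cin ψ R.2 :=
    cin_sdiff_one ψ (a := A.π b) (by simp) (orb_pair pa he (ec ▸ he')) fun q hq => by
      simp only [mem_insert, mem_singleton] at hq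
      rcases hq with rfl | rfl | rfl | rfl
      exacts [.inl (.refl _ _), .inl (ec ▸ Perm.sameCycle_apply_left.2 (.refl _ _)), .inr ox,
        .inr oy]
  have e0 : (R.1 \ {b, A.π b}) \ {c, A.π c} = R.1 \ {b, A.π b, c, A.π c} := by
    ext q
    simp only [mem_sdiff, mem_insert, mem_singleton]
    tauto
  rw [e0] at c2
  have hbπ : ∀ p, A.π p = b → p = A.π b := fun p e => A.π.injective (e.trans pb.symm)
  have hcπ : ∀ p, A.π p = c → p = A.π c := fun p e => A.π.injective (e.trans pc.symm)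
  have hψ1 : ∀ p, ψ p = A.π b → p = A.π c := fun p e => ψ.injective (by rw [e, ec, pa])
  have hψ2 : ∀ p, ψ p = A.π c → p = A.π b := fun p e => ψ.injective (e.trans ec)
  have pa' : ψ (A.π c) = A.π b := by rw [ec, pa]
  generalize ea : A.π b = a at *
  generalize ea' : A.π c = a' at *
  have ne : ∀ {p q : P}, A.ty p = true → A.ty q = false → p ≠ q := fun h h' e => by
    rw [e, h'] at h
    cases h
  obtain ⟨g1, g2, g3, -, g4, g5, g6⟩ := core hψ hD (W := {b, a, c, a'}) (J := {a, a', x, y})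
    (by simp [insert_subset_iff, hb, hc, hb1, hc1]) (by simp)
    (fun p hp => by
      simp only [mem_insert, mem_singleton] at hp ⊢
      rcases hp with h | h | h | h
      exacts [.inr (.inl (hbπ p h)), .inl (A.π.injective (h.trans ea.symm)),
        .inr (.inr (.inr (hcπ p h))), .inr (.inr (.inl (A.π.injective (h.trans ea'.symm))))])
    (by simp [insert_subset_iff, he, he', hx, hy])
    (fun p hp hp' => by
      simp only [mem_insert, mem_singleton, not_or] at hp' ⊢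
      obtain ⟨k1, k2, k3, k4⟩ := hcl p hp hp'.2.2.1 hp'.2.2.2
      have k5 : ψ p ≠ a := fun e => hp'.2.1 (hψ1 p e)
      have k6 : ψ p ≠ a' := fun e => hp'.1 (hψ2 p e)
      exact ⟨⟨k1, hp'.1, k2, hp'.2.1⟩, ⟨k3, k5, k4, k6⟩,
        fun t => ⟨k5, k6, ne ((hψ p).1.trans t) tx, ne ((hψ p).1.trans t) ty⟩⟩)
    (fun q hq t => by
      simp only [mem_insert, mem_singleton] at hq
      rcases hq with rfl | rfl | rfl | rfl
      exacts [absurd rfl (ne ta t), absurd rfl (ne ta' t), ox, oy])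
    (fun q hq => by
      simp only [mem_insert, mem_singleton] at hq
      rcases hq with rfl | rfl | rfl | rfl
      exacts [f1, f2, fx, fy])
  have k1 : ({b, a, c, a'} : Finset P).card = 4 := by
    rw [card_insert_of_notMem (by simp [(ne ta hty).symm, hcb.symm, (ne ta' hty).symm]),
      card_insert_of_notMem (by simp [ne ta tc, n0]), card_pair (ne ta' tc).symm]
  have k2 : ({a, a', x, y} : Finset P).card = 4 := by
    rw [card_insert_of_notMem (by simp [n0, ne ta tx, ne ta ty]),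
      card_insert_of_notMem (by simp [ne ta' tx, ne ta' ty]), card_pair hxy]
  rw [k1, k2] at g5
  rw [k2] at g6
  obtain ⟨D, d1, d2, d3⟩ := div_of_two hD g1 g2 g3 (p := u) (q := v) (by omega) (by omega)
    fun r hr => by
      obtain ⟨q, hq, h⟩ := g4 r hr
      simp only [mem_insert, mem_singleton] at hq
      rcases hq with rfl | rfl | rfl | rfl
      · exact (h.elim (fun h => h.1 (by simp)) fun h => h.1 (by simp [← ec])).elim
      · exact (h.elim (fun h => h.1 (by simp)) fun h => h.1 (by simp [pa'])).elim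
      · rcases lx with ⟨e, e'⟩ | ⟨e, e'⟩
        · exact .inl (e' ▸ (h.resolve_left fun h => h.1 (by simp [e])).2)
        · exact .inl (e' ▸ (h.resolve_right fun h => h.1 (by simp [e])).2)
      · rcases ly with ⟨e, e'⟩ | ⟨e, e'⟩
        · exact .inr (e' ▸ (h.resolve_left fun h => h.1 (by simp [e])).2)
        · exact .inr (e' ▸ (h.resolve_right fun h => h.1 (by simp [e])).2)
  exact absurd (t1 D d1 (d2.trans g2)) (by omega)

/-- t4: the two entries, and the two exits, of an internal edge are not both cut. -/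
theorem Tight.t4 (hA : A.OK) (hψ : A.WV ψ) (hR : A.Tight ψ R) {b : P} (hb : b ∈ R.1)
    (hty : A.ty b = false) (he : A.π b ∈ R.2) :
    (ψ⁻¹ b ∈ R.2 ∨ ψ⁻¹ (A.al ψ b) ∈ R.2) ∧ (b ∈ R.2 ∨ A.al ψ b ∈ R.2) := by
  obtain ⟨hc, tc, -, he', -, hcb, -, f1, f2⟩ := edge_facts hA hψ hR.1.1.1 hb hty he
  have u1 := hR.2.2.1 b hb hty he
  have u2 := hR.2.2.1 _ hc tc he'
  have inv : ∀ {p q : P}, ψ p = q → p = ψ⁻¹ q := fun e => by simp [← e]
  constructor
  · by_contra h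
    obtain ⟨h1, h2⟩ := not_or.1 h
    have o1 := out_bw (phi_inv b) (out_self (A.π * ψ) h1)
    have o2 := out_bw (phi_inv _) (out_self (A.π * ψ) h2)
    exact two_darts hA hψ hR hb hty he (u1.resolve_right h1) (u2.resolve_right h2) hcb.symm hty tc
      (fun p hp k1 k2 => ⟨k1, k2, fun e => h1 (inv e ▸ hp), fun e => h2 (inv e ▸ hp)⟩)
      (out_bw (by simp) (out_self ψ h1)) (out_bw (by simp) (out_self ψ h2)) o1 o2
      (out_bw f2 o2) (out_bw f1 o1) (.inl ⟨rfl, rfl⟩) (.inl ⟨rfl, rfl⟩)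
  · by_contra h
    obtain ⟨h1, h2⟩ := not_or.1 h
    have o1 := out_fw f1 (out_self (A.π * ψ) h2)
    have o2 := out_fw f2 (out_self (A.π * ψ) h1)
    exact two_darts hA hψ hR hb hty he (u1.resolve_left h1) (u2.resolve_left h2)
      (fun e => hcb (ψ⁻¹.injective e).symm) ((ty_inv hψ _).trans hty) ((ty_inv hψ _).trans tc)
      (fun p hp k1 k2 => ⟨fun e => h1 (e ▸ hp), fun e => h2 (e ▸ hp), fun e => k1 (inv e),
        fun e => k2 (inv e)⟩)
      (out_fw (by simp) (out_self ψ h1)) (out_fw (by simp) (out_self ψ h2)) o1 o2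
      (out_fw (phi_inv b) o1) (out_fw (phi_inv _) o2) (.inr ⟨by simp, rfl⟩) (.inr ⟨by simp, rfl⟩)

/-- Removing a dart whose B port is an isolated run. -/
theorem div_remove (hA : A.OK) (hψ : A.WV ψ) (hR : A.Div ψ R) {b : P} (hb : b ∈ R.1)
    (hty : A.ty b = false) (he : A.π b ∈ R.2) (h1 : b ∉ R.2) (h2 : ψ⁻¹ b ∉ R.2) :
    ∃ D, A.Div ψ D ∧ D ≤ R ∧ D ≠ R ∧ bd D = bd R := by
  have hreg := hR.1.1
  obtain ⟨-, -, ec, he', -, -, -, -, f2⟩ := edge_facts hA hψ hreg hb hty he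
  rw [ec] at he' f2
  obtain ⟨-, pb, ta⟩ := hA.2.2 b (hreg.2.1 hb)
  rw [hty, Bool.not_false] at ta
  have hb1 := hreg.1.1 b hb
  have pa := (hψ _).2 ta
  have n0 := (hreg.2.2 _ he ta).2
  have c1 := cin_pair pb hb hb1
  have c2 := cin_pair pa he he'
  have o1 := out_bw (phi_inv b) (out_self (A.π * ψ) h2)
  generalize ea : A.π b = a at *
  have nb : b ≠ a := fun e => by
    rw [← e, hty] at ta
    cases ta
  obtain ⟨g1, g2, g3, g0, g4, g5, g6⟩ := core hψ hR (W := {b, a}) (J := {a, ψ a})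
    (by simp [insert_subset_iff, hb, hb1]) (by simp)
    (fun p hp => by
      simp only [mem_insert, mem_singleton] at hp ⊢
      exact hp.symm.imp (fun h => A.π.injective (h.trans ea.symm))
        fun h => A.π.injective (h.trans pb.symm))
    (by simp [insert_subset_iff, he, he'])
    (fun p hp hp' => by
      simp only [mem_insert, mem_singleton, not_or] at hp' ⊢
      have k5 : ψ p ≠ a := fun e => hp'.2 (ψ.injective (e.trans pa.symm))
      exact ⟨⟨fun e => h1 (e ▸ hp), hp'.1⟩, ⟨fun e => h2 (by simpa [← e] using hp), k5⟩,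
        fun _ => ⟨k5, fun e => hp'.1 (ψ.injective e)⟩⟩)
    (fun q hq t => by
      simp only [mem_insert, mem_singleton] at hq
      rcases hq with rfl | rfl
      · simp [ta] at t
      · simp [(hψ a).1, ta] at t)
    (fun q hq => by
      simp only [mem_insert, mem_singleton] at hq
      rcases hq with rfl | rfl
      exacts [o1, out_fw f2 (out_self _ h1)])
  rw [card_pair nb, card_pair n0.symm] at g5
  rw [card_pair n0.symm] at g6
  refine ⟨_, div_of_one hR g1 g2 g3 (p := ψ a) (by omega) (by omega) fun r hr => ?_, g2, g0,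
    by omega⟩
  obtain ⟨q, hq, h⟩ := g4 r hr
  simp only [mem_insert, mem_singleton] at hq
  rcases hq with rfl | rfl
  · exact (h.resolve_left fun h => h.1 (by simp)).2
  · exact (h.resolve_right fun h => h.1 (by simp [pa])).2

/-- A divergent region with at most two cuts contains a tight region with the least possible
number of cuts. -/
theorem exists_tight (hA : A.OK) (hψ : A.WV ψ) (hS : A.Div ψ S) (hle : S ≤ R) (h2 : bd S ≤ 2) :
    ∃ D, A.Tight ψ D ∧ D ≤ R ∧ ∀ D', A.Div ψ D' → D' ≤ R → bd D ≤ bd D' := by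
  obtain ⟨D₀, h0, hm⟩ := exists_min_image (univ.filter fun D => A.Div ψ D ∧ D ≤ R) bd
    ⟨S, by simp [hS, hle]⟩
  simp only [mem_filter, mem_univ, true_and, and_imp] at h0 hm
  obtain ⟨D, ⟨d1, d2, d3⟩, hmin⟩ := (wellFounded_lt (α := Rg P)).has_min
    {D | A.Div ψ D ∧ D ≤ R ∧ bd D = bd D₀} ⟨D₀, h0.1, h0.2, rfl⟩
  have hb := hm S hS hle
  refine ⟨D, ⟨d1, fun T hT h => d3 ▸ hm T hT (h.trans d2), fun b hb hty he => ?_,
    fun h => by omega⟩, d2, fun T hT h => d3 ▸ hm T hT h⟩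
  by_contra h
  obtain ⟨T, k1, k2, k3, k4⟩ := div_remove hA hψ d1 hb hty he (not_or.1 h).1 (not_or.1 h).2
  exact hmin T ⟨k1, k2.trans d2, k4.trans d3⟩ (lt_of_le_of_ne k2 k3)

/-- Two tight regions share an edge and none of the four steps at its ends. -/
theorem four_step (hA : A.OK) (hψ : A.WV ψ) (hR : A.Tight ψ R) (hS : A.Tight ψ S) {b : P}
    (hb : b ∈ R.1) (hty : A.ty b = false) (he : A.π b ∈ R.2) (he' : A.π b ∈ S.2)
    (h : ∀ p ∈ [b, ψ⁻¹ b, A.al ψ b, ψ⁻¹ (A.al ψ b)], ¬ (p ∈ R.2 ∧ p ∈ S.2)) :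
    bd R ≤ 2 ∧ bd S ≤ 2 ∧ ∃ c, (c = b ∨ c = A.al ψ b) ∧ ψ⁻¹ c ∉ R.2 ∧ A.al ψ c ∉ R.2 ∧
      c ∉ S.2 ∧ ψ⁻¹ (A.al ψ c) ∉ S.2 := by
  have hb' : b ∈ S.1 := (Pre.mem_iff hS.1.1.1.1 b).1 (hS.1.1.1.1.2.1 he')
  obtain ⟨hc, tc, -, hf, cc, -⟩ := edge_facts hA hψ hR.1.1.1 hb hty he
  obtain ⟨hc', -, -, hf', -⟩ := edge_facts hA hψ hS.1.1.1 hb' hty he'
  have r1 := hR.2.2.1 b hb hty he
  have r2 := hR.2.2.1 _ hc tc hf
  obtain ⟨r3, r4⟩ := hR.t4 hA hψ hb hty he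
  have r5 := fun e => hR.2.2.2 e b hb hty he
  have r6 := fun e => hR.2.2.2 e _ hc tc hf
  have s1 := hS.2.2.1 b hb' hty he'
  have s2 := hS.2.2.1 _ hc' tc hf'
  obtain ⟨s3, s4⟩ := hS.t4 hA hψ hb' hty he'
  have s5 := fun e => hS.2.2.2 e b hb' hty he'
  have s6 := fun e => hS.2.2.2 e _ hc' tc hf'
  have k1 := h b (by simp)
  have k2 := h (ψ⁻¹ b) (by simp)
  have k3 := h (A.al ψ b) (by simp)
  have k4 := h (ψ⁻¹ (A.al ψ b)) (by simp)
  rw [cc] at r6 s6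
  have l1 := hR.1.2.1
  have l2 := hS.1.2.1
  have key : (ψ⁻¹ b ∉ R.2 ∧ A.al ψ b ∉ R.2 ∧ b ∉ S.2 ∧ ψ⁻¹ (A.al ψ b) ∉ S.2) ∨
      (ψ⁻¹ (A.al ψ b) ∉ R.2 ∧ b ∉ R.2 ∧ A.al ψ b ∉ S.2 ∧ ψ⁻¹ b ∉ S.2) :=
    covers r1 r2 r3 r4 s1 s2 s3 s4 k1 k2 k3 k4
  rcases key with k | k
  · exact ⟨by_contra fun e => (r5 (by omega)).elim k.1 k.2.1,
      by_contra fun e => (s6 (by omega)).elim k.2.2.2 k.2.2.1, b, .inl rfl, k⟩
  · exact ⟨by_contra fun e => (r6 (by omega)).elim k.1 k.2.1,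
      by_contra fun e => (s5 (by omega)).elim k.2.2.2 k.2.2.1, _, .inr rfl, by rwa [cc]⟩

end Amb

end Pool.Agent.P.MP_48bde8_co
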