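import Pool.Agent.P.MP_48bde8_co.RegB
import Pool.Agent.P.MP_48bde8_co.Clus

/-! Task TRANS: regions depend only on their own steps; transport along embeddings. -/

namespace Pool.Agent.P.MP_48bde8_co

open Equiv Finset
open scoped Classical

variable {P Q : Type} [Fintype P] [Fintype Q]

/-- Image of a region. -/
def Rg.map (e : P ↪ Q) (R : Rg P) : Rg Q := (R.1.map e, R.2.map e)

/-- `e` carries the data of the region `R` of `(A, ψ)` to `(B, φ)`. -/
structure Loc (A : Amb P) (ψ : Perm P) (B : Amb Q) (φ : Perm Q) (e : P ↪ Q) (R : Rg P) :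
    Prop where
  pi : ∀ p ∈ R.1, B.π (e p) = e (A.π p)
  ty : ∀ p ∈ R.1, B.ty (e p) = A.ty p
  dt : ∀ p ∈ R.1, e p ∈ B.dt ↔ p ∈ A.dt
  st : ∀ p ∈ R.2, φ (e p) = e (ψ p)

namespace Trans

theorem eqv_map {α β : Type} {m : α → β} (hm : Function.Injective m) {r : α → α → Prop}
    {s : β → β → Prop} (h : ∀ x y, s x y ↔ ∃ a b, x = m a ∧ y = m b ∧ r a b) (a b : α) :
    Relation.EqvGen s (m a) (m b) ↔ Relation.EqvGen r a b := by
  constructor
  · have key : ∀ x y, Relation.EqvGen s x y →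
        x = y ∨ ∃ a b, x = m a ∧ y = m b ∧ Relation.EqvGen r a b := by
      intro x y hxy
      induction hxy with
      | rel x y hs =>
        obtain ⟨a, b, e1, e2, hr⟩ := (h x y).1 hs
        exact .inr ⟨a, b, e1, e2, .rel _ _ hr⟩
      | refl x => exact .inl rfl
      | symm x y _ ih =>
        rcases ih with e | ⟨a, b, e1, e2, hr⟩
        · exact .inl e.symm
        · exact .inr ⟨b, a, e2, e1, hr.symm _ _⟩
      | trans x y z _ _ ih1 ih2 =>
        rcases ih1 with rfl | ⟨a, b, e1, e2, hr⟩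
        · exact ih2
        · rcases ih2 with rfl | ⟨c, d, e3, e4, hr'⟩
          · exact .inr ⟨a, b, e1, e2, hr⟩
          · obtain rfl : b = c := hm (e2.symm.trans e3)
            exact .inr ⟨a, d, e1, e4, hr.trans _ _ _ hr'⟩
    intro hab
    rcases key _ _ hab with e | ⟨c, d, e1, e2, hr⟩
    · rw [hm e]
      exact .refl _
    · rw [hm e1, hm e2]
      exact hr
  · intro hab
    induction hab with
    | rel x y hr => exact .rel _ _ ((h _ _).2 ⟨x, y, rfl, rfl, hr⟩)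
    | refl x => exact .refl _
    | symm x y _ ih => exact ih.symm _ _
    | trans x y z _ _ ih1 ih2 => exact ih1.trans _ _ _ ih2

omit [Fintype P] [Fintype Q] in
theorem pow_map (e : P ↪ Q) {f : Perm P} {g : Perm Q} {I : Finset P}
    (h : ∀ q ∈ I, g (e q) = e (f q)) {y : P} (k : ℕ) (hk : ∀ j < k, (f ^ j) y ∈ I) :
    (g ^ k) (e y) = e ((f ^ k) y) := by
  induction k with
  | zero => rfl
  | succ k ih =>
    rw [pow_succ', pow_succ', Perm.mul_apply, Perm.mul_apply, ih fun j hj => hk j (by omega),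
      h _ (hk k (by omega))]

theorem orb_sub (e : P ↪ Q) {f : Perm P} {g : Perm Q} {I : Finset P}
    (h : ∀ q ∈ I, g (e q) = e (f q)) (p : P) : orb g (e p) ⊆ I.map e ↔ orb f p ⊆ I := by
  constructor
  · rw [orb_subset_iff, orb_subset_iff]
    intro hk k
    induction k using Nat.strong_induction_on with
    | _ k ih =>
      have := hk k
      rwa [pow_map e h k ih, mem_map' e] at this
  · intro hs
    rw [orb_map e fun q hq => h q (hs hq)]
    exact map_subset_map.2 hs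

theorem clo_map (e : P ↪ Q) {f : Perm P} {g : Perm Q} {I : Finset P}
    (h : ∀ q ∈ I, g (e q) = e (f q)) (x : P) : clo g (I.map e) (e x) = e (clo f I x) := by
  by_cases hx : x ∈ I
  · rw [clo_of_mem g ((mem_map' e).2 hx), clo_of_mem f hx, h x hx]
  · obtain ⟨h1, k, h2, h3⟩ := clo_not_mem f hx
    refine clo_exit g k (fun hm => h1 ?_) (fun j hj => ?_) ?_ fun hm => hx ((mem_map' e).1 hm)
    · obtain ⟨w, hw, e1⟩ := mem_map.1 hm
      have e2 : e (f w) = e (clo f I x) := by rw [← h w hw, e1]; simp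
      rw [← e.injective e2]
      simpa using hw
    · rw [pow_map e h j fun i hi => h2 i (by omega)]
      exact (mem_map' e).2 (h2 j hj)
    · rw [pow_map e h k h2, h3]

theorem skip_map' (e : P ↪ Q) {f : Perm P} {g : Perm Q} {V : Finset P}
    (h : ∀ q ∈ V, g (e q) = e (f q)) (hV : ∀ q ∈ V, f q ∈ V) (I : Finset P) {x : P} (hx : x ∈ V) :
    skip g (I.map e) (e x) = e (skip f I x) := by
  have hp : ∀ k : ℕ, (f ^ k) x ∈ V := fun k => by
    induction k with
    | zero => exact hx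
    | succ k ih => rw [pow_succ', Perm.mul_apply]; exact hV _ ih
  have hq : ∀ k : ℕ, (g ^ k) (e x) = e ((f ^ k) x) := fun k => pow_map e h k fun j _ => hp j
  by_cases hI : x ∈ I
  · rw [skip_of_mem g ((mem_map' e).2 hI), skip_of_mem f hI]
  · obtain ⟨k, hk, h1, h2⟩ := skip_spec f hI
    rw [skip_eq (fun hm => hI ((mem_map' e).1 hm)) hk ?_ fun j hj hj' => ?_, hq, h1]
    · rw [hq, ← h1, mem_map' e]
      exact skip_not_mem f hI
    · rw [hq, mem_map' e]
      exact h2 j hj hj'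

omit [Fintype P] [Fintype Q] in
theorem iterate_map (e : P ↪ Q) {f : P → P} {g : Q → Q} {V : Finset P}
    (h : ∀ q ∈ V, g (e q) = e (f q)) (hV : ∀ q ∈ V, f q ∈ V) (n : ℕ) {x : P} (hx : x ∈ V) :
    List.iterate g (e x) n = (List.iterate f x n).map e := by
  induction n generalizing x with
  | zero => rfl
  | succ n ih => rw [List.iterate, List.iterate, h x hx, ih (hV x hx), List.map_cons]

omit [Fintype P] [Fintype Q] in
theorem map_inj (e : P ↪ Q) : Function.Injective (Rg.map e : Rg P → Rg Q) := fun _ _ h =>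
  Prod.ext (map_injective e (congrArg Prod.fst h)) (map_injective e (congrArg Prod.snd h))

omit [Fintype P] [Fintype Q] in
theorem map_sup (e : P ↪ Q) (C : Finset (Rg P)) :
    (C.image (Rg.map e)).sup id = (C.sup id).map e := by
  induction C using Finset.induction_on with
  | empty => rfl
  | insert S C _ ih =>
    rw [image_insert, sup_insert, sup_insert, ih]
    exact Prod.ext (map_union _ _).symm (map_union _ _).symm

omit [Fintype P] [Fintype Q] in
theorem oconn_map (e : P ↪ Q) (C : Finset (Rg P)) : OConn (C.image (Rg.map e)) ↔ OConn C := by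
  have key := eqv_map (map_inj e) (r := fun X Y => X ∈ C ∧ Y ∈ C ∧ Ov X Y)
    (s := fun X Y => X ∈ C.image (Rg.map e) ∧ Y ∈ C.image (Rg.map e) ∧ Ov X Y) fun X Y => by
      constructor
      · rintro ⟨h1, h2, h3⟩
        obtain ⟨a, ha, rfl⟩ := mem_image.1 h1
        obtain ⟨b, hb, rfl⟩ := mem_image.1 h2
        exact ⟨a, b, rfl, rfl, ha, hb, fun hd => h3 ((disjoint_map e).2 hd)⟩
      · rintro ⟨a, b, rfl, rfl, ha, hb, h3⟩
        exact ⟨mem_image_of_mem _ ha, mem_image_of_mem _ hb, fun hd => h3 ((disjoint_map e).1 hd)⟩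
  unfold OConn
  rw [image_nonempty, forall_mem_image]
  refine and_congr_right fun _ => forall₂_congr fun R _ => ?_
  rw [forall_mem_image]
  exact forall₂_congr fun S _ => key R S

end Trans

variable {A : Amb P} {ψ : Perm P} {B : Amb Q} {φ : Perm Q} {e : P ↪ Q} {R : Rg P}

theorem Loc.mono (h : Loc A ψ B φ e R) {S : Rg P} (hle : S ≤ R) : Loc A ψ B φ e S :=
  ⟨fun p hp => h.pi p (hle.1 hp), fun p hp => h.ty p (hle.1 hp), fun p hp => h.dt p (hle.1 hp),
    fun p hp => h.st p (hle.2 hp)⟩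

theorem bd_map (e : P ↪ Q) (R : Rg P) : bd (R.map e) = bd R := by
  unfold bd Rg.map
  rw [← card_map e]
  congr 1
  ext q
  simp only [mem_sdiff, mem_map]
  constructor
  · rintro ⟨⟨p, hp, rfl⟩, h⟩
    exact ⟨p, ⟨hp, fun h' => h ⟨p, h', rfl⟩⟩, rfl⟩
  · rintro ⟨p, ⟨hp, h⟩, rfl⟩
    exact ⟨⟨p, hp, rfl⟩, fun ⟨p', h', e'⟩ => h (e.injective e' ▸ h')⟩

theorem exists_map_of_le {T : Rg Q} (hle : T ≤ R.map e) : ∃ S, S ≤ R ∧ T = S.map e := by
  obtain ⟨a, ha, e1⟩ := subset_map_iff.1 hle.1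
  obtain ⟨b, hb, e2⟩ := subset_map_iff.1 hle.2
  exact ⟨(a, b), ⟨ha, hb⟩, Prod.ext e1 e2⟩

theorem map_le_map {S : Rg P} : S.map e ≤ R.map e ↔ S ≤ R :=
  and_congr map_subset_map map_subset_map

theorem Loc.pre (h : Loc A ψ B φ e R) (hI : R.2 ⊆ R.1) : B.Pre φ (R.map e) ↔ A.Pre ψ R := by
  unfold Amb.Pre Rg.map
  simp only [forall_mem_map, map_subset_map]
  refine and_congr (forall₂_congr fun p hp => ?_)
    (and_congr_right fun _ => forall₂_congr fun p hp => ?_)
  · rw [h.pi p hp, mem_map' e]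
  · rw [h.st p hp, mem_map' e]

theorem Loc.reg (h : Loc A ψ B φ e R) (hI : R.2 ⊆ R.1) : B.Reg φ (R.map e) ↔ A.Reg ψ R := by
  unfold Amb.Reg
  rw [h.pre hI]
  unfold Rg.map
  simp only [subset_iff, forall_mem_map]
  refine and_congr_right fun _ => and_congr (forall₂_congr fun p hp => h.dt p hp)
    (forall₂_congr fun p hp => ?_)
  rw [h.ty p (hI hp), h.st p hp, mem_map' e, e.injective.ne_iff]

theorem Loc.piMul (h : Loc A ψ B φ e R) (hR : A.Pre ψ R) :
    ∀ p ∈ R.2, (B.π * φ) (e p) = e ((A.π * ψ) p) := fun p hp => by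
  rw [Perm.mul_apply, Perm.mul_apply, h.st p hp, h.pi _ (hR.2.2 p hp)]

theorem Loc.rconn (h : Loc A ψ B φ e R) : B.RConn φ (R.map e) ↔ A.RConn ψ R := by
  have key := Trans.eqv_map e.injective (r := A.Step ψ R) (s := B.Step φ (R.map e)) fun x y => by
    constructor
    · rintro (⟨h1, rfl⟩ | ⟨h1, rfl⟩)
      · obtain ⟨a, ha, rfl⟩ := mem_map.1 h1
        exact ⟨a, _, rfl, h.pi a ha, .inl ⟨ha, rfl⟩⟩
      · obtain ⟨a, ha, rfl⟩ := mem_map.1 h1
        exact ⟨a, _, rfl, h.st a ha, .inr ⟨ha, rfl⟩⟩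
    · rintro ⟨a, b, rfl, rfl, ⟨ha, rfl⟩ | ⟨ha, rfl⟩⟩
      · exact .inl ⟨(mem_map' e).2 ha, (h.pi a ha).symm⟩
      · exact .inr ⟨(mem_map' e).2 ha, (h.st a ha).symm⟩
  unfold Amb.RConn Amb.RL
  have e1 : (R.map e).1 = R.1.map e := rfl
  rw [e1, map_nonempty]
  simp only [forall_mem_map, key]

theorem Loc.eps (h : Loc A ψ B φ e R) (hR : A.Pre ψ R) : B.eps φ (R.map e) = A.eps ψ R := by
  unfold Amb.eps Rg.map
  rw [cin_map e h.pi, cin_map e h.st, cin_map e (h.piMul hR), card_map]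

theorem Loc.disc (h : Loc A ψ B φ e R) (hI : R.2 ⊆ R.1) : B.Disc φ (R.map e) ↔ A.Disc ψ R := by
  unfold Amb.Disc
  rw [h.reg hI, h.rconn, bd_map]
  exact and_congr_right fun hR => by rw [h.eps hR.1]

theorem Loc.feat (h : Loc A ψ B φ e R) (hR : A.Pre ψ R) : B.Feat φ (R.map e) ↔ A.Feat ψ R := by
  have e1 : (R.map e).2 = R.2.map e := rfl
  have key : ∀ p, ((B.ty (e p) = false ∧ orb φ (e p) ⊆ R.2.map e) ∨
      (orb (B.π * φ) (e p) ⊆ R.2.map e ∧ (orb (B.π * φ) (e p)).card ≤ 4)) ↔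
      ((A.ty p = false ∧ orb ψ p ⊆ R.2) ∨
        (orb (A.π * ψ) p ⊆ R.2 ∧ (orb (A.π * ψ) p).card ≤ 4)) := fun p => by
    rw [Trans.orb_sub e h.st, Trans.orb_sub e (h.piMul hR)]
    refine or_congr (and_congr_left fun hs => ?_) (and_congr_right fun hs => ?_)
    · rw [h.ty p (hR.2.1 (hs (self_mem_orb ψ p)))]
    · rw [orb_map e fun q hq => h.piMul hR q (hs hq), card_map]
  unfold Amb.Feat
  rw [e1]
  constructor
  · rintro ⟨q, hq⟩
    have : q ∈ R.2.map e := by
      rcases hq with hq | hq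
      · exact hq.2 (self_mem_orb _ q)
      · exact hq.1 (self_mem_orb _ q)
    obtain ⟨p, -, rfl⟩ := mem_map.1 this
    exact ⟨p, (key p).1 hq⟩
  · rintro ⟨p, hp⟩
    exact ⟨e p, (key p).2 hp⟩

theorem Loc.div (h : Loc A ψ B φ e R) (hI : R.2 ⊆ R.1) : B.Div φ (R.map e) ↔ A.Div ψ R := by
  unfold Amb.Div
  rw [h.disc hI, bd_map]
  exact and_congr_right fun hR => by rw [h.feat hR.1.1]

theorem Loc.atom (h : Loc A ψ B φ e R) (hI : R.2 ⊆ R.1) : B.Atom φ (R.map e) ↔ A.Atom ψ R := by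
  unfold Amb.Atom
  rw [h.div hI]
  refine and_congr_right fun _ => ⟨fun h1 S hS hle => ?_, fun h1 T hT hle => ?_⟩
  · exact Trans.map_inj e (h1 _ (((h.mono hle).div hS.1.1.1.2.1).2 hS) (map_le_map.2 hle))
  · obtain ⟨S, hS, rfl⟩ := exists_map_of_le hle
    rw [h1 S (((h.mono hS).div (map_subset_map.1 hT.1.1.1.2.1)).1 hT) hS]

theorem clF_map (e : P ↪ Q) (F : Finset (Rg P)) (R : Rg P) :
    clF (F.image (Rg.map e)) (R.map e) = clF F R := by
  unfold clF
  symm
  refine sum_bij (fun C _ => C.image (Rg.map e)) (fun C hC => ?_) (fun C _ D _ hCD => ?_)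
    (fun D hD => ?_) fun C _ => ?_
  · obtain ⟨h1, h2, h3⟩ := mem_filter.1 hC
    exact mem_filter.2 ⟨mem_powerset.2 (image_subset_image (mem_powerset.1 h1)),
      (Trans.oconn_map e C).2 h2, by rw [Trans.map_sup, h3]⟩
  · exact image_injective (Trans.map_inj e) hCD
  · obtain ⟨h1, h2, h3⟩ := mem_filter.1 hD
    obtain ⟨C, hC, rfl⟩ := subset_image_iff.1 (mem_powerset.1 h1)
    rw [Trans.map_sup] at h3
    exact ⟨C, mem_filter.2 ⟨mem_powerset.2 hC, (Trans.oconn_map e C).1 h2, Trans.map_inj e h3⟩, rfl⟩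
  · rw [card_image_of_injective _ (Trans.map_inj e)]

theorem Loc.co (h : Loc A ψ B φ e R) (hI : R.2 ⊆ R.1) (k : Fin 3) :
    B.co φ k (R.map e) = A.co ψ k R := by
  have e1 : clF (B.atoms φ) (R.map e) = clF (A.atoms ψ) R := by
    rw [clF_filter (B.atoms φ), clF_filter (A.atoms ψ), ← clF_map e]
    congr 1
    ext T
    simp only [Amb.atoms, mem_filter, mem_univ, true_and, mem_image]
    constructor
    · rintro ⟨hT, hle⟩
      obtain ⟨S, hS, rfl⟩ := exists_map_of_le hle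
      exact ⟨S, ⟨((h.mono hS).atom (map_subset_map.1 hT.1.1.1.1.2.1)).1 hT, hS⟩, rfl⟩
    · rintro ⟨S, ⟨hS, hle⟩, rfl⟩
      exact ⟨((h.mono hle).atom hS.1.1.1.1.2.1).2 hS, map_le_map.2 hle⟩
  have e2 : (R.map e).2 = ∅ ↔ R.2 = ∅ := map_eq_empty
  unfold Amb.co
  by_cases hd : A.Disc ψ R ∧ bd R ≤ 3
  · rw [if_pos hd, if_pos ⟨(h.disc hI).2 hd.1, (bd_map e R).symm ▸ hd.2⟩, e1]
    simp only [e2, h.feat hd.1.1.1]
  · rw [if_neg hd, if_neg fun h' => hd ⟨(h.disc hI).1 h'.1, bd_map e R ▸ h'.2⟩]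

theorem Loc.wt {K : Type} [CommRing K] (x z : K) (h : Loc A ψ B φ e R) (hR : A.Pre ψ R) :
    B.wt φ x z (R.2.map e) = A.wt ψ x z R.2 := by
  unfold Amb.wt Amb.nv Amb.nf
  have e1 : (R.2.map e).filter (fun p => B.ty p = false) =
      (R.2.filter fun p => A.ty p = false).map e := by
    rw [filter_map]
    congr 1
    exact filter_congr fun p hp => by rw [Function.comp_apply, h.ty p (hR.2.1 hp)]
  rw [e1, cin_map e fun q hq => h.st q (mem_filter.1 hq).1, cin_map e (h.piMul hR)]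

theorem Loc.blist (h : Loc A ψ B φ e R) (hR : A.Pre ψ R) {p : P} (hp : p ∈ R.1) :
    B.blist φ (R.map e) (e p) = (A.blist ψ R p).map e := by
  have h1 : ∀ q ∈ R.1, (A.π * clo ψ R.2) q ∈ R.1 := fun q hq => hR.1 _ (Amb.clo_mem hR hq)
  have h2 : ∀ q ∈ R.1, (B.π * clo φ (R.2.map e)) (e q) = e ((A.π * clo ψ R.2) q) := fun q hq => by
    rw [Perm.mul_apply, Perm.mul_apply, Trans.clo_map e h.st, h.pi _ (Amb.clo_mem hR hq)]
  unfold Amb.blist Amb.bet
  rw [bd_map]
  exact Trans.iterate_map e (fun q hq => Trans.skip_map' e h2 h1 R.2 hq)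
    (fun q hq => skip_mem_of_closed R.2 h1 hq) _ hp

theorem Rg.map_refl (R : Rg P) : R.map (Function.Embedding.refl P) = R :=
  Prod.ext Finset.map_refl Finset.map_refl

end Pool.Agent.P.MP_48bde8_co
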